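import Mathlib

/-!
Definitions for the viscous cell problem on the torus.
-/

set_option autoImplicit false

namespace Pool.Agent.H342R3.CellDefs

/-- Euclidean space `ℝⁿ`. -/
abbrev E (n : ℕ) : Type := EuclideanSpace ℝ (Fin n)

/-- `ℤⁿ`-periodic functions on `ℝⁿ`, that is, functions on the torus `𝕋ⁿ = ℝⁿ/ℤⁿ`. -/
def IsPeriodic {n : ℕ} (v : E n → ℝ) : Prop :=
  ∀ (x : E n) (k : Fin n → ℤ), v (x + WithLp.toLp 2 fun i => (k i : ℝ)) = v x

/-- The gradient `Dv(x)`, the vector of the partial derivatives. -/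
noncomputable def grad {n : ℕ} (v : E n → ℝ) (x : E n) : E n :=
  WithLp.toLp 2 fun i => fderiv ℝ v x (EuclideanSpace.single i 1)

/-- The Laplacian `Δv(x)`, the sum of the second partial derivatives `∂ᵢ∂ᵢv(x)`. -/
noncomputable def lap {n : ℕ} (v : E n → ℝ) (x : E n) : ℝ :=
  ∑ i, fderiv ℝ (fun y => fderiv ℝ v y (EuclideanSpace.single i 1)) x (EuclideanSpace.single i 1)

/-- `H` is a Hamiltonian of class `C²` on `𝕋ⁿ × ℝⁿ`. -/
structure IsHamiltonian {n : ℕ} (H : E n → E n → ℝ) : Prop where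
  smooth : ContDiff ℝ 2 (fun q : E n × E n => H q.1 q.2)
  periodic : ∀ p, IsPeriodic fun x => H x p

/-- Assumption (A1): `min_x (½ H(x,p)² + D_x H(x,p)·p) → ∞` as `|p| → ∞`. -/
def A1 {n : ℕ} (H : E n → E n → ℝ) : Prop :=
  ∀ M : ℝ, ∃ R : ℝ, ∀ p : E n, R ≤ ‖p‖ → ∀ x : E n,
    M ≤ (1 / 2) * H x p ^ 2 + inner ℝ (grad (fun y => H y p) x) p

/-- `v ∈ C²(𝕋ⁿ)` solves the viscous cell problem `H(x,Dv) = ε Δv + c` on `𝕋ⁿ`. -/
def IsViscousSolution {n : ℕ} (H : E n → E n → ℝ) (ε c : ℝ) (v : E n → ℝ) : Prop :=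
  ContDiff ℝ 2 v ∧ IsPeriodic v ∧ ∀ x, H x (grad v x) = ε * lap v x + c

end Pool.Agent.H342R3.CellDefs
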