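import Mathlib

set_option autoImplicit false

open Filter Topology Set

namespace Pool.Agent.H342R3.DiffIFS

/-- on/off indicator: `1` on the blocks `[16^k, 16^(k+1))` with `k` even, `0` otherwise. -/
def onN (j : ℕ) : ℕ := if Even (Nat.log 16 j) then 1 else 0

lemma onN_le (j : ℕ) : onN j ≤ 1 := by unfold onN; split_ifs <;> simp

/-- a smooth bump at `1` vanishing at all the other powers of two. -/
noncomputable def psi : ContDiffBump (1:ℝ) := ⟨1/4, 1/3, by norm_num, by norm_num⟩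

lemma psi_one : psi (1:ℝ) = 1 := by
  apply psi.one_of_mem_closedBall
  simp [psi]

lemma psi_zero : psi (0:ℝ) = 0 := by
  apply psi.zero_of_le_dist
  simp [psi]
  norm_num

lemma psi_pow (j k : ℕ) (h : j ≠ k) : psi ((2:ℝ)^j * (1/2)^k) = 0 := by
  apply psi.zero_of_le_dist
  simp only [psi]
  rw [Real.dist_eq]
  rcases lt_or_gt_of_ne h with h | h
  · obtain ⟨d, rfl⟩ := Nat.exists_eq_add_of_lt h
    have h1 : (2:ℝ)^j * (1/2)^(j+d+1) = (1/2)^(d+1) := by
      rw [add_assoc, pow_add, ← mul_assoc, ← mul_pow]; norm_num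
    rw [h1]
    have h2 : ((1:ℝ)/2)^(d+1) ≤ 1/2 := by
      calc ((1:ℝ)/2)^(d+1) ≤ (1/2)^1 := by
            apply pow_le_pow_of_le_one <;> norm_num
        _ = 1/2 := by norm_num
    rw [abs_of_nonpos (by linarith)]
    linarith
  · obtain ⟨d, rfl⟩ := Nat.exists_eq_add_of_lt h
    have h1 : (2:ℝ)^(k+d+1) * (1/2)^k = 2^(d+1) := by
      rw [add_assoc, pow_add, mul_right_comm, ← mul_pow]; norm_num
    rw [h1]
    have h2 : (2:ℝ) ≤ 2^(d+1) := by
      calc (2:ℝ) = 2^1 := by norm_num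
        _ ≤ 2^(d+1) := by apply pow_le_pow_right₀ <;> norm_num
    rw [abs_of_nonneg (by linarith)]
    linarith

lemma exists_b : ∃ (κ : ℝ) (b : ℝ → ℝ), 0 < κ ∧ κ ≤ 1/8 ∧ Differentiable ℝ b ∧
    LipschitzWith (1/4) b ∧ b 0 = 0 ∧ ∀ k : ℕ, b ((1/2)^k) = κ * onN k * (1/4)^k := by
  have hdiff : ContDiff ℝ 1 (psi : ℝ → ℝ) := psi.contDiff
  obtain ⟨C, hC⟩ : ∃ C, ∀ x, ‖deriv psi x‖ ≤ C := by
    apply Continuous.bounded_above_of_compact_support
    · exact hdiff.continuous_deriv le_rfl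
    · exact psi.hasCompactSupport.deriv
  have hC0 : 0 ≤ C := le_trans (norm_nonneg _) (hC 0)
  set κ : ℝ := 1 / (8 * (C + 1)) with hκ
  have hκ0 : 0 < κ := by positivity
  have hκ1 : κ ≤ 1/8 := by
    rw [hκ]
    apply one_div_le_one_div_of_le <;> linarith
  have hκC : κ * C * 2 ≤ 1/4 := by
    rw [hκ]
    rw [div_mul_eq_mul_div, div_mul_eq_mul_div, div_le_iff₀ (by positivity)]
    linarith
  let g : ℕ → ℝ → ℝ := fun j t => κ * onN j * (1/4)^j * psi (2^j * t)
  let g' : ℕ → ℝ → ℝ := fun j t => κ * onN j * (1/4)^j * (deriv psi (2^j * t) * 2^j)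
  let u : ℕ → ℝ := fun j => κ * C * (1/2)^j
  have hu : HasSum u (κ * C * 2) := by
    have := hasSum_geometric_two.mul_left (κ * C)
    simpa [u] using this
  have hg : ∀ n y, HasDerivAt (g n) (g' n y) y := by
    intro n y
    apply HasDerivAt.const_mul
    have h1 : HasDerivAt psi (deriv psi (2^n * y)) (2^n * y) :=
      (hdiff.differentiable (by norm_num)).differentiableAt.hasDerivAt
    have h2 : HasDerivAt (fun t : ℝ => (2:ℝ)^n * t) (2^n) y := by
      simpa using (hasDerivAt_id y).const_mul ((2:ℝ)^n)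
    exact h1.comp y h2
  have hg' : ∀ n y, ‖g' n y‖ ≤ u n := by
    intro n y
    simp only [g', u]
    rw [norm_mul, norm_mul, norm_mul, norm_mul]
    have e1 : ‖κ‖ = κ := Real.norm_of_nonneg hκ0.le
    have e2 : ‖(onN n : ℝ)‖ ≤ 1 := by
      rw [Real.norm_of_nonneg (by positivity)]
      exact_mod_cast onN_le n
    have e3 : ‖((1:ℝ)/4)^n‖ = (1/4)^n := Real.norm_of_nonneg (by positivity)
    have e4 : ‖(2:ℝ)^n‖ = 2^n := Real.norm_of_nonneg (by positivity)
    rw [e1, e3, e4]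
    have e5 : ((1:ℝ)/4)^n * 2^n = (1/2)^n := by rw [← mul_pow]; norm_num
    calc κ * ‖(onN n : ℝ)‖ * (1/4)^n * (‖deriv psi (2^n * y)‖ * 2^n)
        ≤ κ * 1 * (1/4)^n * (C * 2^n) := by
          gcongr
          exact hC _
      _ = κ * C * ((1/4)^n * 2^n) := by ring
      _ = κ * C * (1/2)^n := by rw [e5]
  have hg0 : Summable fun n => g n 0 := by
    have : (fun n => g n 0) = fun _ => 0 := by
      funext n
      simp [g, psi_zero]
    rw [this]
    exact summable_zero
  have hder : ∀ y, HasDerivAt (fun z => ∑' n, g n z) (∑' n, g' n y) y := fun y =>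
    hasDerivAt_tsum hu.summable hg hg' hg0 y
  refine ⟨κ, fun z => ∑' n, g n z, hκ0, hκ1, fun y => (hder y).differentiableAt, ?_, ?_, ?_⟩
  · apply lipschitzWith_of_nnnorm_deriv_le (𝕜 := ℝ)
    · exact fun y => (hder y).differentiableAt
    · intro y
      rw [(hder y).deriv]
      have : ‖∑' n, g' n y‖ ≤ 1/4 := (tsum_of_norm_bounded hu (fun i => hg' i y)).trans hκC
      rw [← NNReal.coe_le_coe]
      simpa using this
  · have : (fun n => g n 0) = fun _ => 0 := by
      funext n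
      simp [g, psi_zero]
    show ∑' n, g n 0 = 0
    rw [this]
    exact tsum_zero
  · intro k
    show ∑' n, g n ((1/2)^k) = _
    rw [tsum_eq_single k]
    · simp only [g]
      have : (2:ℝ)^k * (1/2)^k = 1 := by rw [← mul_pow]; norm_num
      rw [this, psi_one, mul_one]
    · intro j hj
      simp only [g]
      rw [psi_pow j k hj, mul_zero]


/-- the digit sets: `A m` = integers whose binary digits are at 'on' positions `< m`. -/
def A : ℕ → Finset ℕ
  | 0 => {0}
  | (m+1) => A m ∪ (A m).image (fun n => n + onN m * 2^m)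

lemma A_lt (m : ℕ) : ∀ n ∈ A m, n < 2^m := by
  induction m with
  | zero => simp [A]
  | succ m ih =>
    intro n hn
    simp only [A, Finset.mem_union, Finset.mem_image] at hn
    have h2 : 2^(m+1) = 2^m + 2^m := by rw [pow_succ]; ring
    rcases hn with hn | ⟨n', hn', rfl⟩
    · have := ih n hn
      omega
    · have := ih n' hn'
      have h3 : onN m * 2^m ≤ 1 * 2^m := Nat.mul_le_mul_right _ (onN_le m)
      omega

lemma zero_mem_A (m : ℕ) : 0 ∈ A m := by
  induction m with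
  | zero => simp [A]
  | succ m ih => simp [A, ih]

lemma A_off {m : ℕ} (h : onN m = 0) : A (m+1) = A m := by
  simp [A, h]

lemma A_on {m : ℕ} (h : onN m = 1) : (A (m+1)).card = 2 * (A m).card := by
  simp only [A, h]
  rw [Finset.card_union_of_disjoint, Finset.card_image_of_injective]
  · ring
  · intro a b hab
    simpa using hab
  · rw [Finset.disjoint_left]
    intro a ha hb
    rw [Finset.mem_image] at hb
    obtain ⟨c, _, hc⟩ := hb
    have := A_lt m a ha
    simp at hc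
    omega

lemma A_card_le (m : ℕ) : (A m).card ≤ 2^m := by
  have : A m ⊆ Finset.range (2^m) := fun n hn => Finset.mem_range.2 (A_lt m n hn)
  simpa using Finset.card_le_card this

lemma A_card_pos (m : ℕ) : 1 ≤ (A m).card := Finset.card_pos.2 ⟨0, zero_mem_A m⟩

lemma log_of_mem {k j : ℕ} (h1 : 16^k ≤ j) (h2 : j < 16^(k+1)) : Nat.log 16 j = k := by
  rw [Nat.log_eq_iff (Or.inr ⟨by norm_num, by have : 0 < 16^k := by positivity
                                              omega⟩)]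
  exact ⟨h1, h2⟩

lemma on_block {k : ℕ} (hk : Even k) (i : ℕ) (hi : 16^k + i ≤ 16^(k+1)) :
    2^i ≤ (A (16^k + i)).card := by
  induction i with
  | zero => simpa using A_card_pos _
  | succ i ih =>
    have h1 : onN (16^k + i) = 1 := by
      unfold onN
      rw [log_of_mem (k := k) (by omega) (by omega)]
      simp [hk]
    have h2 := A_on h1
    rw [← add_assoc, h2, pow_succ]
    have := ih (by omega)
    omega

lemma off_block {k : ℕ} (hk : ¬ Even k) (i : ℕ) (hi : 16^k + i ≤ 16^(k+1)) :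
    A (16^k + i) = A (16^k) := by
  induction i with
  | zero => simp
  | succ i ih =>
    have h1 : onN (16^k + i) = 0 := by
      unfold onN
      rw [log_of_mem (k := k) (by omega) (by omega)]
      simp [hk]
    rw [← add_assoc, A_off h1]
    exact ih (by omega)

abbrev E := EuclideanSpace ℝ (Fin 2)

/-- the point of the attractor at level `m` with digit number `n`. -/
noncomputable def T (κ : ℝ) (m n : ℕ) : E := !₂[(1/2)^m, 8 * κ * (1/8)^m * n]

/-- the attractor. -/
def K (κ : ℝ) : Set E := insert 0 {p | ∃ m, ∃ n ∈ A m, p = T κ m n}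

lemma norm_le_two (x y : ℝ) : ‖(!₂[x, y] : E)‖ ≤ |x| + |y| := by
  rw [EuclideanSpace.norm_eq]
  rw [Real.sqrt_le_iff]
  refine ⟨by positivity, ?_⟩
  simp [Fin.sum_univ_two]
  nlinarith [abs_nonneg x, abs_nonneg y, sq_abs x, sq_abs y, mul_nonneg (abs_nonneg x) (abs_nonneg y)]

lemma T_norm {κ : ℝ} (h0 : 0 < κ) (h1 : κ ≤ 1/8) (m n : ℕ) (hn : n ∈ A m) :
    ‖T κ m n‖ ≤ 2 * (1/2)^m := by
  unfold T
  refine (norm_le_two _ _).trans ?_
  have h2 : (n:ℝ) ≤ 2^m := by exact_mod_cast (A_lt m n hn).le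
  have h3 : |8 * κ * (1/8)^m * (n:ℝ)| ≤ (1/2)^m := by
    rw [abs_of_nonneg (by positivity)]
    calc 8 * κ * (1/8)^m * (n:ℝ) ≤ 8 * (1/8) * (1/8)^m * 2^m := by gcongr
      _ = (1/4)^m := by rw [mul_assoc (8 * (1/8) : ℝ), ← mul_pow]; norm_num
      _ ≤ (1/2)^m := by gcongr; norm_num
  have h4 : |((1:ℝ)/2)^m| = (1/2)^m := abs_of_nonneg (by positivity)
  rw [h4]
  linarith

lemma K_compact {κ : ℝ} (h0 : 0 < κ) (h1 : κ ≤ 1/8) : IsCompact (K κ) := by
  let ι := Σ m : ℕ, {n : ℕ // n ∈ A m}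
  let f : ι → E := fun i => T κ i.1 i.2.1
  have hrange : K κ = insert 0 (Set.range f) := by
    unfold K
    congr 1
    ext p
    constructor
    · rintro ⟨m, n, hn, rfl⟩
      exact ⟨⟨m, n, hn⟩, rfl⟩
    · rintro ⟨⟨m, n, hn⟩, rfl⟩
      exact ⟨m, n, hn, rfl⟩
  rw [hrange]
  apply Filter.Tendsto.isCompact_insert_range_of_cofinite
  have hfst : Tendsto (fun i : ι => i.1) cofinite atTop := by
    rw [← Nat.cofinite_eq_atTop]
    apply Filter.Tendsto.cofinite_of_finite_preimage_singleton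
    intro m
    have : ((fun i : ι => i.1) ⁻¹' {m}) = Set.range (fun n : {n : ℕ // n ∈ A m} => (⟨m, n⟩ : ι)) := by
      ext i
      constructor
      · intro hi
        obtain ⟨m', n⟩ := i
        simp only [Set.mem_preimage, Set.mem_singleton_iff] at hi
        subst hi
        exact ⟨n, rfl⟩
      · rintro ⟨n, rfl⟩
        simp
    rw [this]
    exact Set.finite_range _
  rw [tendsto_zero_iff_norm_tendsto_zero]
  have hpow : Tendsto (fun m : ℕ => 2 * ((1:ℝ)/2)^m) atTop (𝓝 0) := by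
    have := (tendsto_pow_atTop_nhds_zero_of_lt_one (r := (1:ℝ)/2) (by norm_num) (by norm_num)).const_mul 2
    simpa using this
  refine squeeze_zero (fun _ => norm_nonneg _) (fun i => T_norm h0 h1 i.1 i.2.1 i.2.2) ?_
  exact hpow.comp hfst


/-- the covering number in the frozen statement. -/
noncomputable def N (S : Set E) (δ : ℝ) : ℕ :=
  sInf {m : ℕ | ∃ s : Finset E, s.card = m ∧ S ⊆ ⋃ x ∈ s, Metric.closedBall x δ}

lemma N_le {κ : ℝ} (h0 : 0 < κ) (h1 : κ ≤ 1/8) {k : ℕ} (hk : ¬ Even k) :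
    N (K κ) (2 * (1/2)^(16^(k+1))) ≤ 16^(k+1) * 2^(16^k) + 1 := by
  classical
  set e : ℕ := 16^(k+1) with he
  set s : ℕ := 16^k with hs
  have hse : s ≤ e := by rw [hs, he]; apply Nat.pow_le_pow_right <;> omega
  let F : Finset E := insert 0 ((Finset.range e).biUnion (fun m => (A m).image (T κ m)))
  have hcard : F.card ≤ e * 2^s + 1 := by
    refine (Finset.card_insert_le _ _).trans ?_
    apply Nat.add_le_add_right
    refine (Finset.card_biUnion_le_card_mul _ _ (2^s) ?_).trans (by simp)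
    intro m hm
    rw [Finset.mem_range] at hm
    refine Finset.card_image_le.trans ?_
    rcases Nat.lt_or_ge m s with h | h
    · exact (A_card_le m).trans (Nat.pow_le_pow_right (by norm_num) h.le)
    · obtain ⟨i, rfl⟩ := Nat.exists_eq_add_of_le h
      rw [hs, off_block hk i (by rw [← he, ← hs]; omega)]
      exact A_card_le _
  refine (Nat.sInf_le ?_).trans hcard
  refine ⟨F, rfl, ?_⟩
  intro p hp
  rw [Set.mem_iUnion₂]
  have hpos : (0:ℝ) ≤ 2 * (1/2)^e := by positivity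
  rcases hp with rfl | ⟨m, n, hn, rfl⟩
  · exact ⟨0, by simp [F], Metric.mem_closedBall_self hpos⟩
  · rcases Nat.lt_or_ge m e with h | h
    · refine ⟨T κ m n, ?_, Metric.mem_closedBall_self hpos⟩
      apply Finset.mem_insert_of_mem
      rw [Finset.mem_biUnion]
      exact ⟨m, Finset.mem_range.2 h, Finset.mem_image_of_mem _ hn⟩
    · refine ⟨0, by simp [F], ?_⟩
      rw [mem_closedBall_zero_iff]
      refine (T_norm h0 h1 m n hn).trans ?_
      gcongr ?_ * ?_
      exact pow_le_pow_of_le_one (by norm_num) (by norm_num) h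

lemma le_N {κ : ℝ} (h0 : 0 < κ) (h1 : κ ≤ 1/8) (m : ℕ) (δ : ℝ) (hδ : 0 < δ)
    (hδm : 2 * δ < 8 * κ * (1/8)^m) :
    (A m).card ≤ N (K κ) δ := by
  classical
  apply le_csInf
  · -- nonempty: compactness
    obtain ⟨t, ht, hcov⟩ := (K_compact h0 h1).finite_cover_balls hδ
    obtain ⟨htf, hcov⟩ := hcov
    refine ⟨htf.toFinset.card, htf.toFinset, rfl, ?_⟩
    intro p hp
    have := hcov hp
    rw [Set.mem_iUnion₂] at this ⊢
    obtain ⟨x, hx, hxp⟩ := this
    exact ⟨x, by simpa using hx, Metric.ball_subset_closedBall hxp⟩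
  · rintro c ⟨s, rfl, hs⟩
    have hex : ∀ n ∈ A m, ∃ x ∈ s, T κ m n ∈ Metric.closedBall x δ := by
      intro n hn
      have : T κ m n ∈ K κ := Or.inr ⟨m, n, hn, rfl⟩
      have := hs this
      rw [Set.mem_iUnion₂] at this
      obtain ⟨x, hx, hxp⟩ := this
      exact ⟨x, hx, hxp⟩
    choose! c hc1 hc2 using hex
    apply Finset.card_le_card_of_injOn c hc1
    intro n hn n' hn' hcc
    by_contra hne
    have d1 : dist (T κ m n) (T κ m n') ≤ 2 * δ := by
      have a1 := hc2 n hn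
      have a2 := hc2 n' hn'
      rw [Metric.mem_closedBall] at a1 a2
      rw [← hcc] at a2
      calc dist (T κ m n) (T κ m n') ≤ dist (T κ m n) (c n) + dist (c n) (T κ m n') := dist_triangle _ _ _
        _ ≤ δ + δ := by
            gcongr
            rw [dist_comm]; exact a2
        _ = 2 * δ := by ring
    have d2 : |8 * κ * (1/8)^m * ((n:ℝ) - n')| ≤ dist (T κ m n) (T κ m n') := by
      rw [dist_eq_norm]
      have := PiLp.norm_apply_le (T κ m n - T κ m n') 1
      have e1 : (T κ m n - T κ m n').ofLp 1 = 8 * κ * (1/8)^m * ((n:ℝ) - n') := by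
        simp [T]
        ring
      rw [e1, Real.norm_eq_abs] at this
      exact this
    have d3 : (1:ℝ) ≤ |(n:ℝ) - n'| := by
      have : (1:ℤ) ≤ |(n:ℤ) - n'| := by
        apply Int.one_le_abs
        omega
      exact_mod_cast this
    rw [abs_mul, abs_of_nonneg (by positivity : (0:ℝ) ≤ 8 * κ * (1/8)^m)] at d2
    have d4 : 8 * κ * (1/8)^m * 1 ≤ 8 * κ * (1/8)^m * |(n:ℝ) - n'| := by gcongr
    linarith


/-- the two nontrivial maps (`ε = 0, 1`) -/
noncomputable def F (b : ℝ → ℝ) (ε : ℝ) (p : E) : E := !₂[p 0 / 2, p 1 / 8 + ε * b (p 0)]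

/-- the three maps -/
noncomputable def f (b : ℝ → ℝ) : Fin 3 → E → E
  | 0 => F b 0
  | 1 => F b 1
  | 2 => fun _ => !₂[1, 0]

lemma F_diff {b : ℝ → ℝ} (hb : Differentiable ℝ b) (ε : ℝ) : Differentiable ℝ (F b ε) := by
  rw [differentiable_euclidean]
  have h0 : Differentiable ℝ (fun p : E => p 0) := by fun_prop
  have h1 : Differentiable ℝ (fun p : E => p 1) := by fun_prop
  intro i
  fin_cases i
  · simp only [F]
    have : Differentiable ℝ (fun p : E => p 0 / 2) := by fun_prop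
    simpa using this
  · simp only [F]
    have h2 : Differentiable ℝ (fun p : E => b (p 0)) := hb.comp h0
    have : Differentiable ℝ (fun p : E => p 1 / 8 + ε * b (p 0)) := by fun_prop
    simpa using this

lemma F_contr {b : ℝ → ℝ} (hb : LipschitzWith (1/4) b) (ε : ℝ) (hε : |ε| ≤ 1) :
    ContractingWith (3/4) (F b ε) := by
  refine ⟨?_, ?_⟩
  · rw [← NNReal.coe_lt_coe]; norm_num
  apply LipschitzWith.of_dist_le_mul
  intro p q
  have hb' : |b (p 0) - b (q 0)| ≤ 1/4 * |p 0 - q 0| := by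
    have := hb.dist_le_mul (p 0) (q 0)
    rw [Real.dist_eq, Real.dist_eq] at this
    simpa using this
  have h0 : |p 0 - q 0| ≤ dist p q := by
    rw [dist_eq_norm]
    simpa using PiLp.norm_apply_le (p - q) 0
  have hd : dist p q = Real.sqrt ((p 0 - q 0)^2 + (p 1 - q 1)^2) := by
    rw [EuclideanSpace.dist_eq]
    simp [Fin.sum_univ_two, Real.dist_eq, sq_abs]
  have key : F b ε p - F b ε q = (!₂[(p 0 - q 0)/2, (p 1 - q 1)/8] : E) +
      (!₂[0, ε * (b (p 0) - b (q 0))] : E) := by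
    ext i
    fin_cases i
    · simp [F]; ring
    · simp [F]; ring
  rw [dist_eq_norm, key]
  refine (norm_add_le _ _).trans ?_
  have n1 : ‖(!₂[(p 0 - q 0)/2, (p 1 - q 1)/8] : E)‖ ≤ 1/2 * dist p q := by
    rw [EuclideanSpace.norm_eq, Real.sqrt_le_iff]
    refine ⟨by positivity, ?_⟩
    rw [mul_pow, hd, Real.sq_sqrt (by positivity)]
    simp [Fin.sum_univ_two]
    rw [div_pow, div_pow]
    nlinarith [sq_nonneg (p 0 - q 0), sq_nonneg (p 1 - q 1)]
  have n2 : ‖(!₂[0, ε * (b (p 0) - b (q 0))] : E)‖ ≤ 1/4 * dist p q := by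
    refine (norm_le_two _ _).trans ?_
    rw [abs_zero, zero_add, abs_mul]
    calc |ε| * |b (p 0) - b (q 0)| ≤ 1 * (1/4 * |p 0 - q 0|) := by gcongr
      _ ≤ 1 * (1/4 * dist p q) := by gcongr
      _ = 1/4 * dist p q := by ring
  have : (((3:NNReal)/4 : NNReal) : ℝ) = 3/4 := by norm_num
  rw [this]
  linarith

lemma F_T {κ : ℝ} {b : ℝ → ℝ} (hbk : ∀ k : ℕ, b ((1/2)^k) = κ * onN k * (1/4)^k) (ε : ℕ) (m n : ℕ) :
    F b ε (T κ m n) = T κ (m+1) (n + ε * (onN m * 2^m)) := by
  ext i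
  fin_cases i
  · simp [F, T, pow_succ]
    ring
  · simp only [F, T]
    simp only [Fin.mk_one, Fin.isValue, Matrix.cons_val_one,
      Matrix.cons_val_zero, Matrix.cons_val_fin_one]
    rw [hbk]
    push_cast
    have h1 : ((1:ℝ)/8)^(m+1) * 2^m = (1/8) * (1/4)^m := by
      rw [pow_succ, mul_comm _ ((1:ℝ)/8), mul_assoc, ← mul_pow]; norm_num
    calc 8 * κ * (1/8)^m * (n:ℝ) / 8 + ε * (κ * onN m * (1/4)^m)
        = 8 * κ * (1/8)^(m+1) * n + 8 * κ * (ε * onN m) * ((1/8) * (1/4)^m) := by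
          rw [pow_succ]; ring
      _ = 8 * κ * (1/8)^(m+1) * n + 8 * κ * (ε * onN m) * ((1/8)^(m+1) * 2^m) := by rw [h1]
      _ = 8 * κ * (1/8)^(m+1) * (n + ε * (onN m * 2^m)) := by ring

lemma F_zero {b : ℝ → ℝ} (hb0 : b 0 = 0) (ε : ℝ) : F b ε 0 = 0 := by
  ext i
  fin_cases i <;> simp [F, hb0]

lemma K_eq {κ : ℝ} {b : ℝ → ℝ} (hb0 : b 0 = 0)
    (hbk : ∀ k : ℕ, b ((1/2)^k) = κ * onN k * (1/4)^k) :
    K κ = ⋃ i, f b i '' K κ := by
  have T00 : T κ 0 0 = (!₂[1, 0] : E) := by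
    ext i
    fin_cases i <;> simp [T]
  have e0 : ∀ m n, F b 0 (T κ m n) = T κ (m+1) n := by
    intro m n
    have := F_T hbk 0 m n
    simpa using this
  have e1 : ∀ m n, F b 1 (T κ m n) = T κ (m+1) (n + onN m * 2^m) := by
    intro m n
    have := F_T hbk 1 m n
    simpa using this
  ext p
  rw [Set.mem_iUnion]
  constructor
  · rintro (rfl | ⟨m, n, hn, rfl⟩)
    · exact ⟨0, 0, Or.inl rfl, F_zero hb0 0⟩
    · cases m with
      | zero =>
        have : n = 0 := by simpa [A] using hn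
        subst this
        exact ⟨2, 0, Or.inl rfl, T00.symm⟩
      | succ m =>
        simp only [A, Finset.mem_union, Finset.mem_image] at hn
        rcases hn with hn | ⟨n', hn', rfl⟩
        · exact ⟨0, T κ m n, Or.inr ⟨m, n, hn, rfl⟩, e0 m n⟩
        · exact ⟨1, T κ m n', Or.inr ⟨m, n', hn', rfl⟩, e1 m n'⟩
  · rintro ⟨i, q, hq, rfl⟩
    fin_cases i
    · show F b 0 q ∈ K κ
      rcases hq with rfl | ⟨m, n, hn, rfl⟩
      · rw [F_zero hb0]; exact Or.inl rfl
      · rw [e0]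
        exact Or.inr ⟨m+1, n, by simp [A, hn], rfl⟩
    · show F b 1 q ∈ K κ
      rcases hq with rfl | ⟨m, n, hn, rfl⟩
      · rw [F_zero hb0]; exact Or.inl rfl
      · rw [e1]
        refine Or.inr ⟨m+1, _, ?_, rfl⟩
        simp only [A, Finset.mem_union, Finset.mem_image]
        exact Or.inr ⟨n, hn, rfl⟩
    · show (!₂[1, 0] : E) ∈ K κ
      rw [← T00]
      exact Or.inr ⟨0, 0, by simp [A], rfl⟩


lemma log_N_le {κ : ℝ} (h0 : 0 < κ) (h1 : κ ≤ 1/8) {k : ℕ} (hk : ¬ Even k) :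
    Real.log (N (K κ) (2 * (1/2)^(16^(k+1))) : ℝ) / (-Real.log (2 * (1/2)^(16^(k+1)))) ≤ 1/8 := by
  have hk1 : 1 ≤ k := by
    rcases Nat.eq_zero_or_pos k with h | h
    · subst h; simp at hk
    · exact h
  set s : ℕ := 16^k with hs
  have hs16 : 16 ≤ s := by
    rw [hs]
    calc 16 = 16^1 := by norm_num
      _ ≤ 16^k := Nat.pow_le_pow_right (by norm_num) hk1
  have he : 16^(k+1) = 16 * s := by rw [hs, pow_succ]; ring
  have hN := N_le h0 h1 hk
  rw [he] at hN ⊢
  rw [← hs] at hN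
  -- 16 s 2^s + 1 ≤ 2^(2s-1)
  have hpow : 16 * s * 2^s + 1 ≤ 2^(2*s-1) := by
    have h32 : ∀ j : ℕ, 32 * (16 + j) + 1 ≤ 2^(15 + j) := by
      intro j
      induction j with
      | zero => norm_num
      | succ j ih =>
        have : 2^(15+(j+1)) = 2 * 2^(15+j) := by rw [← add_assoc, pow_succ]; ring
        omega
    obtain ⟨j, hj⟩ := Nat.exists_eq_add_of_le hs16
    have h2 : 2 * s - 1 = (15 + j) + s := by omega
    rw [h2, pow_add, hj]
    have := h32 j
    have h3 : 1 ≤ 2^(16+j) := Nat.one_le_two_pow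
    nlinarith
  have hNle : (N (K κ) (2 * (1/2)^(16*s)) : ℝ) ≤ 2^(2*s-1) := by
    exact_mod_cast hN.trans hpow
  have hl2 : 0 < Real.log 2 := Real.log_pos (by norm_num)
  have hden : -Real.log (2 * (1/2)^(16*s)) = (16 * s - 1) * Real.log 2 := by
    rw [Real.log_mul (by norm_num) (by positivity), Real.log_pow, one_div, Real.log_inv]
    push_cast
    ring
  have hlog : Real.log (N (K κ) (2 * (1/2)^(16*s)) : ℝ) ≤ (2*s-1) * Real.log 2 := by
    rcases Nat.eq_zero_or_pos (N (K κ) (2 * (1/2)^(16*s))) with h | h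
    · rw [h]
      simp only [Nat.cast_zero, Real.log_zero]
      have : (1:ℝ) ≤ s := by exact_mod_cast (by omega : 1 ≤ s)
      exact mul_nonneg (by linarith) hl2.le
    · refine (Real.log_le_log (by exact_mod_cast h) hNle).trans ?_
      rw [Real.log_pow]
      rw [Nat.cast_sub (by omega)]
      push_cast
      exact le_rfl
  have hs1 : (16:ℝ) ≤ s := by exact_mod_cast hs16
  rw [hden, div_le_iff₀ (mul_pos (by linarith) hl2)]
  refine hlog.trans ?_
  have : (2 * (s:ℝ) - 1) ≤ 1/8 * (16 * s - 1) := by linarith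
  calc (2 * (s:ℝ) - 1) * Real.log 2 ≤ (1/8 * (16 * s - 1)) * Real.log 2 := by gcongr
    _ = 1/8 * ((16 * s - 1) * Real.log 2) := by ring

lemma le_log_N {κ : ℝ} (h0 : 0 < κ) (h1 : κ ≤ 1/8) {k : ℕ} (hk : Even k)
    (hbig : -Real.log κ ≤ 12 * (16^k * Real.log 2)) :
    1/4 ≤ Real.log (N (K κ) (κ * (1/8)^(16^(k+1))) : ℝ) / (-Real.log (κ * (1/8)^(16^(k+1)))) := by
  set s : ℕ := 16^k with hs
  have hs1 : 1 ≤ s := Nat.one_le_pow _ _ (by norm_num)
  have he : 16^(k+1) = s + 15 * s := by rw [hs, pow_succ]; ring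
  have hpos : 0 < κ * (1/8)^(16^(k+1)) := by positivity
  have hN := le_N h0 h1 (16^(k+1)) (κ * (1/8)^(16^(k+1))) hpos (by nlinarith)
  have hA := on_block hk (15 * s) (by rw [he, ← hs])
  rw [← hs] at hA
  rw [he] at hN ⊢
  have hN2 : ((2:ℝ)^(15*s)) ≤ (N (K κ) (κ * (1/8)^(s + 15 * s)) : ℝ) := by
    exact_mod_cast hA.trans hN
  have hl2 : 0 < Real.log 2 := Real.log_pos (by norm_num)
  have hlog : 15 * s * Real.log 2 ≤ Real.log (N (K κ) (κ * (1/8)^(s + 15 * s)) : ℝ) := by
    refine le_trans (le_of_eq ?_) (Real.log_le_log (by positivity) hN2)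
    rw [Real.log_pow]
    push_cast
    ring
  have h8 : Real.log 8 = 3 * Real.log 2 := by
    rw [show (8:ℝ) = 2^3 by norm_num, Real.log_pow]; push_cast; ring
  have hden : -Real.log (κ * (1/8)^(s + 15 * s)) = -Real.log κ + 48 * s * Real.log 2 := by
    rw [Real.log_mul h0.ne' (by positivity), Real.log_pow, one_div, Real.log_inv, h8]
    push_cast
    ring
  have hκlog : Real.log κ < 0 := Real.log_neg h0 (by linarith)
  have hsr : (1:ℝ) ≤ s := by exact_mod_cast hs1
  have hbig' : -Real.log κ ≤ 12 * (s * Real.log 2) := by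
    rw [hs]; push_cast; exact hbig
  rw [hden, le_div_iff₀ (by nlinarith)]
  refine le_trans ?_ hlog
  nlinarith

theorem main :
    ∃ (d n : ℕ) (f : Fin n → EuclideanSpace ℝ (Fin d) → EuclideanSpace ℝ (Fin d))
      (K : Set (EuclideanSpace ℝ (Fin d))),
      (∀ i, Differentiable ℝ (f i)) ∧
      (∀ i, ∃ c : NNReal, ContractingWith c (f i)) ∧
      K.Nonempty ∧ IsCompact K ∧ K = ⋃ i, f i '' K ∧
      ¬ ∃ L : ℝ, Filter.Tendsto
        (fun δ : ℝ =>
          Real.log ((sInf {m : ℕ | ∃ s : Finset (EuclideanSpace ℝ (Fin d)),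
              s.card = m ∧ K ⊆ ⋃ x ∈ s, Metric.closedBall x δ} : ℕ) : ℝ)
            / (-Real.log δ))
        (nhdsWithin 0 (Set.Ioi 0)) (nhds L) := by
  obtain ⟨κ, b, hκ0, hκ1, hbd, hbl, hb0, hbk⟩ := exists_b
  refine ⟨2, 3, f b, K κ, ?_, ?_, ⟨0, Or.inl rfl⟩, K_compact hκ0 hκ1, K_eq hb0 hbk, ?_⟩
  · intro i
    fin_cases i
    · exact F_diff hbd 0
    · exact F_diff hbd 1
    · exact differentiable_const _
  · intro i
    fin_cases i
    · exact ⟨3/4, F_contr hbl 0 (by norm_num)⟩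
    · exact ⟨3/4, F_contr hbl 1 (by norm_num)⟩
    · exact ⟨0, by norm_num, LipschitzWith.const _⟩
  · rintro ⟨L, hL⟩
    change Tendsto (fun δ : ℝ => Real.log ((N (K κ) δ : ℕ) : ℝ) / (-Real.log δ)) (𝓝[>] 0) (𝓝 L) at hL
    -- the exponents
    have hexp : Tendsto (fun k : ℕ => 16^(k+1)) atTop atTop :=
      (tendsto_pow_atTop_atTop_of_one_lt (by norm_num : 1 < 16)).comp (tendsto_add_atTop_nat 1)
    -- first sequence
    have s1 : Tendsto (fun k : ℕ => (2:ℝ) * (1/2)^(16^(k+1))) atTop (𝓝[>] 0) := by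
      rw [tendsto_nhdsWithin_iff]
      refine ⟨?_, Eventually.of_forall fun k => by simp only [Set.mem_Ioi]; positivity⟩
      have := ((tendsto_pow_atTop_nhds_zero_of_lt_one (r := (1:ℝ)/2) (by norm_num)
        (by norm_num)).comp hexp).const_mul 2
      simpa using this
    have s2 : Tendsto (fun k : ℕ => κ * ((1:ℝ)/8)^(16^(k+1))) atTop (𝓝[>] 0) := by
      rw [tendsto_nhdsWithin_iff]
      refine ⟨?_, Eventually.of_forall fun k => by simp only [Set.mem_Ioi]; positivity⟩
      have := ((tendsto_pow_atTop_nhds_zero_of_lt_one (r := (1:ℝ)/8) (by norm_num)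
        (by norm_num)).comp hexp).const_mul κ
      simpa using this
    have hodd : Tendsto (fun k : ℕ => 2 * k + 1) atTop atTop :=
      tendsto_atTop_mono (fun k => by simp only [id]; omega) tendsto_id
    have heven : Tendsto (fun k : ℕ => 2 * k) atTop atTop :=
      tendsto_atTop_mono (fun k => by simp only [id]; omega) tendsto_id
    have l1 : L ≤ 1/8 := by
      refine le_of_tendsto (hL.comp (s1.comp hodd)) (Eventually.of_forall fun k => ?_)
      exact log_N_le hκ0 hκ1 (by simp)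
    have l2 : 1/4 ≤ L := by
      refine ge_of_tendsto (hL.comp (s2.comp heven)) ?_
      have hl2 : 0 < Real.log 2 := Real.log_pos (by norm_num)
      have hbig : Tendsto (fun k : ℕ => 12 * ((16:ℝ)^(2*k) * Real.log 2)) atTop atTop := by
        apply Tendsto.const_mul_atTop (by norm_num)
        apply Tendsto.atTop_mul_const hl2
        exact (tendsto_pow_atTop_atTop_of_one_lt (by norm_num)).comp heven
      filter_upwards [hbig.eventually_ge_atTop (-Real.log κ)] with k hk
      exact le_log_N hκ0 hκ1 (by simp) hk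
    linarith

end Pool.Agent.H342R3.DiffIFS
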