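import Mathlib

set_option autoImplicit false
set_option linter.unusedVariables false

open Filter Topology Set
open scoped ZeroAtInfty

namespace Pool.Agent.H342R3.FHC

abbrev X := C₀(ℕ, ℝ)

/-- make an element of `C₀(ℕ, ℝ)` from a null sequence -/
noncomputable def mk (f : ℕ → ℝ) (h : Tendsto f atTop (𝓝 0)) : X where
  toFun := f
  continuous_toFun := continuous_of_discreteTopology
  zero_at_infty' := by
    rw [cocompact_eq_cofinite, Nat.cofinite_eq_atTop]
    exact h

@[simp] lemma mk_apply (f : ℕ → ℝ) (h : Tendsto f atTop (𝓝 0)) (i : ℕ) : mk f h i = f i := rfl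

lemma tendsto_X (f : X) : Tendsto f atTop (𝓝 0) := by
  have := f.zero_at_infty'
  rw [cocompact_eq_cofinite, Nat.cofinite_eq_atTop] at this
  exact this

lemma abs_le_norm (f : X) (i : ℕ) : |f i| ≤ ‖f‖ := by
  have := f.toBCF.norm_coe_le_norm i
  rwa [ZeroAtInftyContinuousMap.norm_toBCF_eq_norm] at this

lemma norm_le' (f : X) {C : ℝ} (hC : 0 ≤ C) (h : ∀ i, |f i| ≤ C) : ‖f‖ ≤ C := by
  rw [← ZeroAtInftyContinuousMap.norm_toBCF_eq_norm]
  exact (BoundedContinuousFunction.norm_le hC).2 h

/-- twice the backward shift -/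
noncomputable def T : X →L[ℝ] X :=
  LinearMap.mkContinuous
    { toFun := fun f => mk (fun i => 2 * f (i+1)) (by
        have := ((tendsto_X f).comp (tendsto_add_atTop_nat 1)).const_mul 2
        simpa using this)
      map_add' := by
        intro f g; ext i; simp [mul_add]
      map_smul' := by
        intro r f; ext i; simp; ring } 2 (by
    intro f
    apply norm_le' _ (by positivity)
    intro i
    simp only [LinearMap.coe_mk, AddHom.coe_mk, mk_apply]
    rw [abs_mul, abs_two]
    gcongr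
    exact abs_le_norm f _)

lemma T_apply (f : X) (i : ℕ) : T f i = 2 * f (i+1) := rfl

lemma T_iter (f : X) (n i : ℕ) : (⇑T)^[n] f i = 2^n * f (i + n) := by
  induction n generalizing i with
  | zero => simp
  | succ n ih =>
    rw [Function.iterate_succ_apply', T_apply, ih, pow_succ]
    have : i + 1 + n = i + (n + 1) := by ring
    rw [this]; ring

/-- admissible size parameter for the pattern `v` with precision `q` -/
structure Pat (v : ℕ →₀ ℚ) (q μ : ℕ) : Prop where
  supp : ∀ i, 4^μ ≤ i → v i = 0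
  bd : ∀ i, |(2:ℝ)^i * (v i : ℝ)| ≤ 4^μ
  tail : ∀ i : ℕ, 4^μ ≤ i → 2 * (i:ℝ) / 2^i ≤ 1 / ((q:ℝ) + 1)

lemma exists_mu (v : ℕ →₀ ℚ) (q : ℕ) : ∃ μ, Pat v q μ := by
  have hpow : Tendsto (fun μ : ℕ => (4:ℕ)^μ) atTop atTop := tendsto_pow_atTop_atTop_of_one_lt (by norm_num)
  have hpowR : Tendsto (fun μ : ℕ => (4:ℝ)^μ) atTop atTop := tendsto_pow_atTop_atTop_of_one_lt (by norm_num)
  have h1 : ∀ᶠ μ : ℕ in atTop, ∀ i, 4^μ ≤ i → v i = 0 := by
    filter_upwards [hpow.eventually_gt_atTop (v.support.sup id)] with μ hμ i hi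
    by_contra hne
    have : i ≤ v.support.sup id := Finset.le_sup (f := id) (Finsupp.mem_support_iff.2 hne)
    omega
  have h2 : ∀ᶠ μ : ℕ in atTop, ∀ i, |(2:ℝ)^i * (v i : ℝ)| ≤ 4^μ := by
    have : ∀ᶠ μ : ℕ in atTop, ∀ i ∈ v.support, |(2:ℝ)^i * (v i : ℝ)| ≤ 4^μ := by
      rw [Filter.eventually_all_finset]
      intro i _
      exact hpowR.eventually_ge_atTop _
    filter_upwards [this] with μ hμ i
    by_cases hi : i ∈ v.support
    · exact hμ i hi
    · rw [Finsupp.notMem_support_iff.1 hi]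
      simp
  have h3 : ∀ᶠ μ : ℕ in atTop, ∀ i : ℕ, 4^μ ≤ i → 2 * (i:ℝ) / 2^i ≤ 1 / ((q:ℝ) + 1) := by
    have hlim : Tendsto (fun i : ℕ => 2 * (i:ℝ) / 2^i) atTop (𝓝 0) := by
      have := (tendsto_pow_const_div_const_pow_of_one_lt 1 (by norm_num : (1:ℝ) < 2)).const_mul 2
      simp only [pow_one, mul_zero] at this
      refine this.congr (fun i => ?_)
      ring
    have hev : ∀ᶠ i : ℕ in atTop, 2 * (i:ℝ) / 2^i ≤ 1 / ((q:ℝ) + 1) :=
      hlim.eventually_le_const (by positivity)
    obtain ⟨N, hN⟩ := eventually_atTop.1 hev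
    filter_upwards [hpow.eventually_ge_atTop N] with μ hμ i hi
    exact hN i (hμ.trans hi)
  obtain ⟨μ, h1, h2, h3⟩ := (h1.and (h2.and h3)).exists
  exact ⟨μ, h1, h2, h3⟩

/-- index used in block `j` -/
def kap (j : ℕ) : ℕ := padicValNat 2 (j+1)

lemma kap_exists (k J : ℕ) : ∃ j, J ≤ j ∧ j < J + 2^(k+2) ∧ kap j = k := by
  set t := J / 2^(k+1) + 1 with ht
  have h1 : J < 2^(k+1) * t := by
    rw [ht]
    exact Nat.lt_mul_div_succ J (by positivity)
  have h2 : 2^(k+1) * (t - 1) ≤ J := by
    rw [ht]; simp only [Nat.add_sub_cancel]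
    exact Nat.mul_div_le J _
  have h3 : 2^(k+1) * t = 2^(k+1) * (t - 1) + 2^(k+1) := by
    have ht1 : 1 ≤ t := by rw [ht]; exact Nat.le_add_left 1 _
    have : t = (t - 1) + 1 := (Nat.sub_add_cancel ht1).symm
    conv_lhs => rw [this]
    ring
  have hk : 1 ≤ 2^k := Nat.one_le_two_pow
  have e1 : 2^(k+1) = 2 * 2^k := by rw [pow_succ]; ring
  have e2 : 2^(k+2) = 4 * 2^k := by rw [pow_add]; ring
  refine ⟨2^(k+1) * t + 2^k - 1, by omega, by omega, ?_⟩
  unfold kap
  have : 2^(k+1) * t + 2^k - 1 + 1 = 2^k * (2 * t + 1) := by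
    have : 2^(k+1) * t + 2^k - 1 + 1 = 2^(k+1) * t + 2^k := by omega
    rw [this, e1]; ring
  rw [this, padicValNat.mul (by positivity) (by omega), padicValNat.prime_pow,
    padicValNat.eq_zero_of_not_dvd (by omega), add_zero]

theorem main :
    ∃ (𝕜 : Type) (_ : RCLike 𝕜) (X : Type) (_ : NormedAddCommGroup X)
      (_ : NormedSpace 𝕜 X) (_ : CompleteSpace X) (T : X →L[𝕜] X) (x : X),
      (∀ U : Set X, IsOpen U → U.Nonempty →
        ∃ δ : ℝ, 0 < δ ∧ ∀ᶠ n : ℕ in Filter.atTop,
          δ * (n : ℝ) ≤ (({k : ℕ | k < n ∧ (⇑T)^[k] x ∈ U}.ncard : ℕ) : ℝ)) ∧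
      ∃ U : Set X, IsOpen U ∧ U.Nonempty ∧
        ∀ A : Set ℕ, A ⊆ {k : ℕ | (⇑T)^[k] x ∈ U} →
          ¬ ∃ d : ℝ, 0 < d ∧
            Filter.Tendsto
              (fun n : ℕ => (({k : ℕ | k < n ∧ k ∈ A}.ncard : ℕ) : ℝ) / (n : ℝ))
              Filter.atTop (nhds d) := by
  classical
  obtain ⟨e, he⟩ := exists_surjective_nat ((ℕ →₀ ℚ) × ℕ)
  choose μ hμ using fun k => exists_mu (e k).1 (e k).2
  -- the sequence `c`
  let c : ℕ → ℝ := fun m =>
    if 0 < m ∧ m < 2 * 4^(Nat.log 4 m) ∧ μ (kap (Nat.log 4 m)) ≤ Nat.log 4 m then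
      (2:ℝ)^(m % 4^(μ (kap (Nat.log 4 m)))) *
        ((e (kap (Nat.log 4 m))).1 (m % 4^(μ (kap (Nat.log 4 m)))) : ℝ)
    else 0
  have hcbd : ∀ m, |c m| ≤ m := by
    intro m
    simp only [c]
    split_ifs with h
    · obtain ⟨h0, h1, h2⟩ := h
      refine ((hμ _).bd _).trans ?_
      have h3 : 4^(Nat.log 4 m) ≤ m := Nat.pow_log_le_self 4 h0.ne'
      have h4 : 4^(μ (kap (Nat.log 4 m))) ≤ 4^(Nat.log 4 m) := Nat.pow_le_pow_right (by norm_num) h2
      exact_mod_cast h4.trans h3
    · simp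
  have hcsupp : ∀ m, c m ≠ 0 → 4^(Nat.log 4 m) ≤ m ∧ m < 2 * 4^(Nat.log 4 m) := by
    intro m hm
    simp only [c] at hm
    split_ifs at hm with h
    · exact ⟨Nat.pow_log_le_self 4 h.1.ne', h.2.1⟩
    · exact absurd rfl hm
  have hx0 : Tendsto (fun m : ℕ => c m / 2^m) atTop (𝓝 0) := by
    have hlim : Tendsto (fun i : ℕ => (i:ℝ) / 2^i) atTop (𝓝 0) := by
      have := tendsto_pow_const_div_const_pow_of_one_lt 1 (by norm_num : (1:ℝ) < 2)
      simpa using this
    refine squeeze_zero_norm (fun m => ?_) hlim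
    rw [norm_div, Real.norm_eq_abs, norm_pow, Real.norm_eq_abs, abs_two]
    gcongr
    exact hcbd m
  let x : X := mk (fun m => c m / 2^m) hx0
  have hTx : ∀ n i, (⇑T)^[n] x i = c (n + i) / 2^i := by
    intro n i
    rw [T_iter]
    simp only [x, mk_apply]
    rw [add_comm i n, pow_add]
    field_simp
  -- values of `c` on a block
  have hcval : ∀ k j t i : ℕ, kap j = k → μ k ≤ j → t < 4^(j - μ k) → i < 4^(μ k) →
      c (4^(μ k) * (4^(j - μ k) + t) + i) = (2:ℝ)^i * ((e k).1 i : ℝ) := by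
    intro k j t i hk hj ht hi
    have hpow : 4^(μ k) * 4^(j - μ k) = 4^j := by rw [← pow_add]; congr 1; omega
    have hm1 : 4^j ≤ 4^(μ k) * (4^(j - μ k) + t) + i := by
      rw [mul_add, hpow]; omega
    have hm2 : 4^(μ k) * (4^(j - μ k) + t) + i < 2 * 4^j := by
      have : 4^(μ k) * (t + 1) ≤ 4^(μ k) * 4^(j - μ k) := Nat.mul_le_mul_left _ ht
      rw [hpow, mul_add, mul_one] at this
      rw [mul_add, hpow]; omega
    have hlog : Nat.log 4 (4^(μ k) * (4^(j - μ k) + t) + i) = j := by
      rw [Nat.log_eq_iff (Or.inr ⟨by norm_num, by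
        have : 0 < 4^j := by positivity
        omega⟩)]
      refine ⟨hm1, ?_⟩
      rw [pow_succ]; omega
    simp only [c]
    rw [hlog, hk]
    rw [if_pos ⟨by have : 0 < 4^j := by positivity
                   omega, hm2, hj⟩]
    have hmod : (4^(μ k) * (4^(j - μ k) + t) + i) % 4^(μ k) = i := by
      rw [Nat.mul_add_mod, Nat.mod_eq_of_lt hi]
    rw [hmod]
  -- good approximation at the times `4^μ (4^(j-μ) + t)`
  have happrox : ∀ (f : X) (r : ℝ) (k : ℕ), 0 < r → 1 / (((e k).2 : ℝ) + 1) ≤ r / 4 →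
      (∀ i, |((e k).1 i : ℝ) - f i| ≤ r / 4) →
      ∀ j t, kap j = k → μ k ≤ j → t < 4^(j - μ k) →
      dist ((⇑T)^[4^(μ k) * (4^(j - μ k) + t)] x) f < r := by
    intro f r k hr hq hv j t hk hj ht
    rw [dist_eq_norm]
    refine lt_of_le_of_lt (norm_le' _ (C := r / 2) (by positivity) ?_) (by linarith)
    intro i
    have e1 : ((⇑T)^[4^(μ k) * (4^(j - μ k) + t)] x - f) i =
        (⇑T)^[4^(μ k) * (4^(j - μ k) + t)] x i - f i := rfl
    rw [e1, hTx]
    rcases Nat.lt_or_ge i (4^(μ k)) with hi | hi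
    · rw [hcval k j t i hk hj ht hi]
      have : (2:ℝ)^i * ((e k).1 i : ℝ) / 2^i = ((e k).1 i : ℝ) := by field_simp
      rw [this]
      exact (hv i).trans (by linarith)
    · -- tail
      have hf : |f i| ≤ r / 4 := by
        have := hv i
        rw [(hμ k).supp i hi] at this
        simpa using this
      have hpow : 4^(μ k) * 4^(j - μ k) = 4^j := by rw [← pow_add]; congr 1; omega
      set n := 4^(μ k) * (4^(j - μ k) + t) with hn
      have hn1 : 4^j ≤ n := by rw [hn, mul_add, hpow]; omega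
      have hn2 : n < 2 * 4^j := by
        have : 4^(μ k) * (t + 1) ≤ 4^(μ k) * 4^(j - μ k) := Nat.mul_le_mul_left _ ht
        rw [hpow, mul_add, mul_one] at this
        have h4 : 0 < 4^(μ k) := by positivity
        rw [hn, mul_add, hpow]; omega
      have hc : |c (n + i)| ≤ 2 * i := by
        by_cases hne : c (n + i) = 0
        · rw [hne, abs_zero]; positivity
        · obtain ⟨h1, h2⟩ := hcsupp _ hne
          rcases Nat.lt_or_ge (n + i) (4^(j+1)) with hlt | hge
          · -- same block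
            have hlog : Nat.log 4 (n + i) = j := by
              rw [Nat.log_eq_iff (Or.inr ⟨by norm_num, by
                have : 0 < 4^j := by positivity
                omega⟩)]
              exact ⟨by omega, hlt⟩
            have hb : |c (n + i)| ≤ 4^(μ k) := by
              simp only [c]
              split_ifs with h
              · rw [hlog, hk]
                exact (hμ k).bd _
              · rw [abs_zero]; positivity
            have : (4:ℝ)^(μ k) ≤ i := by exact_mod_cast hi
            have hi0 : (0:ℝ) ≤ i := by positivity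
            linarith
          · have hni : n ≤ i := by
              rw [pow_succ] at hge
              omega
            have h3 := hcbd (n + i)
            have h4 : ((n + i : ℕ) : ℝ) ≤ 2 * i := by exact_mod_cast (by omega : n + i ≤ 2 * i)
            exact h3.trans h4
      have ht2 : |c (n + i) / 2^i| ≤ r / 4 := by
        rw [abs_div, abs_of_pos (by positivity : (0:ℝ) < 2^i)]
        calc |c (n + i)| / 2^i ≤ 2 * i / 2^i := by gcongr
          _ ≤ 1 / (((e k).2 : ℝ) + 1) := (hμ k).tail i hi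
          _ ≤ r / 4 := hq
      calc |c (n + i) / 2^i - f i| ≤ |c (n + i) / 2^i| + |f i| := abs_sub _ _
        _ ≤ r / 4 + r / 4 := add_le_add ht2 hf
        _ = r / 2 := by ring
  refine ⟨ℝ, inferInstance, X, inferInstance, inferInstance, inferInstance, T, x, ?_, ?_⟩
  · -- frequent hypercyclicity
    intro U hU hne
    obtain ⟨f, hf⟩ := hne
    obtain ⟨r, hr, hball⟩ := Metric.isOpen_iff.1 hU f hf
    -- a pattern close to f
    obtain ⟨L, hL⟩ := eventually_atTop.1 ((Metric.tendsto_nhds.1 (tendsto_X f)) (r/4) (by positivity))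
    have hrat : ∀ i, ∃ y : ℚ, |(y:ℝ) - f i| ≤ r / 4 := by
      intro i
      obtain ⟨y, hy⟩ := exists_rat_btwn (show f i < f i + r / 4 by linarith)
      exact ⟨y, by rw [abs_le]; constructor <;> linarith [hy.1, hy.2]⟩
    choose y hy using hrat
    obtain ⟨q, hq⟩ := exists_nat_one_div_lt (show (0:ℝ) < r / 4 by positivity)
    let v : ℕ →₀ ℚ := Finsupp.onFinset (Finset.range L) (fun i => if i < L then y i else 0)
      (by intro i hi; by_contra h; simp at h; apply hi; simp; intro h'; omega)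
    obtain ⟨k, hk⟩ := he (v, q)
    have hq' : 1 / (((e k).2 : ℝ) + 1) ≤ r / 4 := by rw [hk]; exact hq.le
    have hv' : ∀ i, |((e k).1 i : ℝ) - f i| ≤ r / 4 := by
      intro i
      rw [hk]
      simp only [v, Finsupp.onFinset_apply]
      split_ifs with h
      · exact hy i
      · have := hL i (by omega)
        rw [Real.dist_eq, sub_zero] at this
        simpa using this.le
    set D := 2^(k+2) with hD
    refine ⟨1 / 4^(D + 2 + μ k), by positivity, ?_⟩
    filter_upwards [eventually_ge_atTop (4^(D + 1 + μ k))] with n hn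
    set a := Nat.log 4 n with ha
    have hn0 : n ≠ 0 := by
      have : 0 < 4^(D + 1 + μ k) := by positivity
      omega
    have ha1 : 4^a ≤ n := Nat.pow_log_le_self 4 hn0
    have ha2 : n < 4^(a+1) := Nat.lt_pow_succ_log_self (by norm_num) n
    have ha3 : D + 1 + μ k ≤ a := by
      have : 4^(D + 1 + μ k) < 4^(a+1) := lt_of_le_of_lt hn ha2
      have := (Nat.pow_lt_pow_iff_right (by norm_num : 1 < 4)).1 this
      omega
    obtain ⟨j, hj1, hj2, hj3⟩ := kap_exists k (a - D - 1)
    have hjμ : μ k ≤ j := by omega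
    have hja : j + 1 ≤ a := by omega
    -- the set of times
    let S : Finset ℕ := (Finset.range (4^(j - μ k))).image (fun t => 4^(μ k) * (4^(j - μ k) + t))
    have hScard : S.card = 4^(j - μ k) := by
      rw [Finset.card_image_of_injective, Finset.card_range]
      intro t t' htt
      have h4 : 0 < 4^(μ k) := by positivity
      have := Nat.eq_of_mul_eq_mul_left h4 htt
      omega
    have hpow : 4^(μ k) * 4^(j - μ k) = 4^j := by rw [← pow_add]; congr 1; omega
    have hSsub : (S : Set ℕ) ⊆ {k : ℕ | k < n ∧ (⇑T)^[k] x ∈ U} := by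
      intro m hm
      rw [Finset.mem_coe, Finset.mem_image] at hm
      obtain ⟨t, ht, rfl⟩ := hm
      rw [Finset.mem_range] at ht
      refine ⟨?_, ?_⟩
      · have h1 : 4^(μ k) * (t + 1) ≤ 4^(μ k) * 4^(j - μ k) := Nat.mul_le_mul_left _ ht
        rw [hpow, mul_add, mul_one] at h1
        have h4 : 0 < 4^(μ k) := by positivity
        have h5 : 4^(j+1) ≤ 4^a := Nat.pow_le_pow_right (by norm_num) hja
        rw [pow_succ] at h5
        rw [mul_add, hpow]
        omega
      · exact hball (happrox f r k hr hq' hv' j t hj3 hjμ ht)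
    have hfin : {k : ℕ | k < n ∧ (⇑T)^[k] x ∈ U}.Finite := (Set.finite_lt_nat n).subset fun m hm => hm.1
    have hcard : 4^(j - μ k) ≤ {k : ℕ | k < n ∧ (⇑T)^[k] x ∈ U}.ncard := by
      have := Set.ncard_le_ncard hSsub hfin
      rwa [Set.ncard_coe_finset, hScard] at this
    have hcardR : (4:ℝ)^(j - μ k) ≤ ({k : ℕ | k < n ∧ (⇑T)^[k] x ∈ U}.ncard : ℝ) := by
      exact_mod_cast hcard
    refine le_trans ?_ hcardR
    rw [div_mul_eq_mul_div, one_mul, div_le_iff₀ (by positivity), ← pow_add]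
    have h6 : n ≤ 4^(j - μ k + (D + 2 + μ k)) :=
      ha2.le.trans (Nat.pow_le_pow_right (by norm_num) (by omega))
    exact_mod_cast h6
  · -- the open set
    refine ⟨{f : X | 1/2 < f 0}, ?_, ?_, ?_⟩
    · rw [Metric.isOpen_iff]
      intro f hf
      refine ⟨f 0 - 1/2, by simpa using hf, ?_⟩
      intro g hg
      rw [Metric.mem_ball, dist_eq_norm] at hg
      have h1 := abs_le_norm (g - f) 0
      have h2 : (g - f) 0 = g 0 - f 0 := rfl
      rw [h2] at h1
      have h3 := (abs_le.1 h1).1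
      show 1/2 < g 0
      linarith
    · refine ⟨mk (fun i => if i = 0 then 1 else 0) ?_, ?_⟩
      · apply tendsto_const_nhds.congr'
        filter_upwards [eventually_gt_atTop 0] with i hi
        rw [if_neg (by omega)]
      · show 1/2 < (mk (fun i => if i = 0 then (1:ℝ) else 0) _ : X) 0
        simp; norm_num
    · intro A hA
      rintro ⟨d, hd, hlim⟩
      have hAc : ∀ m ∈ A, m < 2 * 4^(Nat.log 4 m) ∧ 4^(Nat.log 4 m) ≤ m := by
        intro m hm
        have h1 : 1/2 < (⇑T)^[m] x 0 := hA hm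
        rw [hTx] at h1
        simp only [add_zero, pow_zero, div_one] at h1
        have h2 := hcsupp m (by intro h; rw [h] at h1; norm_num at h1)
        exact ⟨h2.2, h2.1⟩
      have hset : ∀ j, {k : ℕ | k < 4^(j+1) ∧ k ∈ A} = {k : ℕ | k < 2 * 4^j ∧ k ∈ A} := by
        intro j
        ext m
        simp only [Set.mem_ofPred_eq]
        constructor
        · rintro ⟨h1, h2⟩
          refine ⟨?_, h2⟩
          by_contra hcon
          push Not at hcon
          have h3 := hAc m h2
          have hlog : Nat.log 4 m = j := by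
            rw [Nat.log_eq_iff (Or.inr ⟨by norm_num, by
              have : 0 < 4^j := by positivity
              omega⟩)]
            exact ⟨by omega, h1⟩
          rw [hlog] at h3
          omega
        · rintro ⟨h1, h2⟩
          refine ⟨?_, h2⟩
          rw [pow_succ]; omega
      have hp1 : Tendsto (fun j : ℕ => 4^(j+1)) atTop atTop :=
        (tendsto_pow_atTop_atTop_of_one_lt (by norm_num : 1 < 4)).comp (tendsto_add_atTop_nat 1)
      have hp2 : Tendsto (fun j : ℕ => 2 * 4^j) atTop atTop :=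
        tendsto_atTop_mono (fun j => by omega) (tendsto_pow_atTop_atTop_of_one_lt (by norm_num : 1 < 4))
      have l1 := hlim.comp hp1
      have l2 := (hlim.comp hp2).const_mul (1/2)
      have heq : ((fun n : ℕ => (({k : ℕ | k < n ∧ k ∈ A}.ncard : ℕ) : ℝ) / (n : ℝ)) ∘ fun j : ℕ => 4^(j+1)) =
          fun j : ℕ => 1/2 * ((fun n : ℕ => (({k : ℕ | k < n ∧ k ∈ A}.ncard : ℕ) : ℝ) / (n : ℝ)) ∘ fun j : ℕ => 2 * 4^j) j := by
        funext j
        simp only [Function.comp]
        rw [hset j]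
        push_cast
        rw [pow_succ]
        field_simp
        ring
      rw [heq] at l1
      have := tendsto_nhds_unique l1 l2
      linarith

end Pool.Agent.H342R3.FHC
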