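import Mathlib

set_option autoImplicit false
set_option maxHeartbeats 1000000

namespace H342R3.FS

open scoped ENNReal
open Filter

/-- product of the weights `w 1 * ... * w n` -/
def β {𝕜 : Type} [RCLike 𝕜] (w : ℕ → 𝕜) (n : ℕ) : 𝕜 := ∏ i ∈ Finset.range n, w (i+1)

/-- positive lower density -/
def LD (A : Set ℕ) : Prop :=
  ∃ δ : ℝ, 0 < δ ∧ ∃ N₀ : ℕ, ∀ N : ℕ, N₀ ≤ N →
    δ * (N : ℝ) ≤ (Nat.card {n : ℕ // n < N ∧ n ∈ A} : ℝ)

open Classical in
noncomputable def cA (A : Set ℕ) (N : ℕ) : ℕ := ((Finset.range N).filter (fun n => n ∈ A)).card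

lemma card_eq (A : Set ℕ) (N : ℕ) : Nat.card {n : ℕ // n < N ∧ n ∈ A} = cA A N := by
  classical
  unfold cA
  apply Nat.subtype_card
  intro x; simp

lemma LD_iff (A : Set ℕ) : LD A ↔ ∃ δ : ℝ, 0 < δ ∧ ∃ N₀ : ℕ, ∀ N : ℕ, N₀ ≤ N →
    δ * (N : ℝ) ≤ (cA A N : ℝ) := by
  unfold LD
  simp only [card_eq]

lemma cA_mono {A B : Set ℕ} (h : A ⊆ B) (N : ℕ) : cA A N ≤ cA B N := by
  classical
  unfold cA
  apply Finset.card_le_card
  intro x hx
  rw [Finset.mem_filter] at hx ⊢
  exact ⟨hx.1, h hx.2⟩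

lemma LD_mono {A B : Set ℕ} (h : A ⊆ B) (hA : LD A) : LD B := by
  rw [LD_iff] at hA ⊢
  obtain ⟨δ, hδ, N₀, hN⟩ := hA
  refine ⟨δ, hδ, N₀, fun N h1 => (hN N h1).trans ?_⟩
  exact_mod_cast cA_mono h N

lemma cA_le (A : Set ℕ) (N : ℕ) : cA A N ≤ N := by
  classical
  unfold cA
  exact (Finset.card_filter_le _ _).trans (Finset.card_range N).le

/-! ### ultrafilter densities -/

noncomputable def 𝒰 : Ultrafilter ℕ := hyperfilter ℕ

lemma 𝒰_le : (𝒰 : Filter ℕ) ≤ atTop := by
  have := hyperfilter_le_cofinite (α := ℕ)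
  rwa [Nat.cofinite_eq_atTop] at this

lemma exists_den (A : Set ℕ) : ∃ c : ℝ, c ∈ Set.Icc (0:ℝ) 1 ∧
    Tendsto (fun N : ℕ => (cA A N : ℝ) / N) (𝒰 : Filter ℕ) (nhds c) := by
  have hc : IsCompact (Set.Icc (0:ℝ) 1) := isCompact_Icc
  have h1 : ((𝒰.map (fun N : ℕ => (cA A N : ℝ) / N) : Ultrafilter ℝ) : Filter ℝ) ≤
      𝓟 (Set.Icc (0:ℝ) 1) := by
    rw [Ultrafilter.coe_map, Filter.le_principal_iff, Filter.mem_map]
    apply Filter.univ_mem'
    intro N
    simp only [Set.mem_preimage, Set.mem_Icc]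
    refine ⟨by positivity, ?_⟩
    apply div_le_one_of_le₀ _ (by positivity)
    exact_mod_cast cA_le A N
  obtain ⟨c, hc1, hc2⟩ := hc.ultrafilter_le_nhds _ h1
  exact ⟨c, hc1, hc2⟩

noncomputable def md (A : Set ℕ) : ℝ := (exists_den A).choose
lemma md_mem (A : Set ℕ) : md A ∈ Set.Icc (0:ℝ) 1 := (exists_den A).choose_spec.1
lemma md_tendsto (A : Set ℕ) :
    Tendsto (fun N : ℕ => (cA A N : ℝ) / N) (𝒰 : Filter ℕ) (nhds (md A)) :=
  (exists_den A).choose_spec.2

lemma cA_shift (A : Set ℕ) (k N : ℕ) :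
    cA {n | n + k ∈ A} N ≤ cA A N + k ∧ cA A N ≤ cA {n | n + k ∈ A} N + k := by
  classical
  have h1 : cA {n | n + k ∈ A} N ≤ cA A (N + k) := by
    unfold cA
    apply Finset.card_le_card_of_injOn (fun n => n + k)
    · intro n hn
      rw [Finset.mem_coe, Finset.mem_filter, Finset.mem_range] at hn ⊢
      refine ⟨?_, hn.2⟩
      show n + k < N + k
      omega
    · intro a _ b _ h
      exact Nat.add_right_cancel h
  have h2 : cA A (N + k) ≤ cA A N + k := by
    unfold cA
    rw [Finset.range_add, Finset.filter_union]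
    refine (Finset.card_union_le _ _).trans ?_
    apply Nat.add_le_add_left
    refine (Finset.card_filter_le _ _).trans ?_
    rw [Finset.card_map, Finset.card_range]
  have h3 : cA A N ≤ cA {n | n + k ∈ A} N + k := by
    unfold cA
    have hsub : (Finset.range N).filter (fun n => n ∈ A) ⊆
        Finset.range k ∪ ((Finset.range N).filter (fun n => n ∈ {n | n + k ∈ A})).image (fun n => n + k) := by
      intro n hn
      rw [Finset.mem_filter, Finset.mem_range] at hn
      rw [Finset.mem_union, Finset.mem_range, Finset.mem_image]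
      by_cases h : n < k
      · exact Or.inl h
      · right
        refine ⟨n - k, ?_, by omega⟩
        rw [Finset.mem_filter, Finset.mem_range]
        refine ⟨by omega, ?_⟩
        show n - k + k ∈ A
        rw [Nat.sub_add_cancel (by omega)]
        exact hn.2
    refine (Finset.card_le_card hsub).trans ((Finset.card_union_le _ _).trans ?_)
    rw [Finset.card_range, add_comm]
    exact Nat.add_le_add_right Finset.card_image_le _
  exact ⟨h1.trans h2, h3⟩

lemma md_shift (A : Set ℕ) (k : ℕ) : md {n | n + k ∈ A} = md A := by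
  have h1 := (md_tendsto {n | n + k ∈ A}).sub (md_tendsto A)
  have h2 : Tendsto (fun N : ℕ => (cA {n | n + k ∈ A} N : ℝ) / N - (cA A N : ℝ) / N)
      (𝒰 : Filter ℕ) (nhds 0) := by
    have h3 : Tendsto (fun N : ℕ => (k : ℝ) / N) (𝒰 : Filter ℕ) (nhds 0) :=
      (tendsto_const_div_atTop_nhds_zero_nat (k:ℝ)).mono_left 𝒰_le
    apply squeeze_zero_norm _ h3
    intro N
    obtain ⟨h4, h5⟩ := cA_shift A k N
    have h4' : (cA {n | n + k ∈ A} N : ℝ) ≤ cA A N + k := by exact_mod_cast h4
    have h5' : (cA A N : ℝ) ≤ cA {n | n + k ∈ A} N + k := by exact_mod_cast h5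
    rw [← sub_div, Real.norm_eq_abs, abs_div, abs_of_nonneg (Nat.cast_nonneg N : (0:ℝ) ≤ N)]
    apply div_le_div_of_nonneg_right _ (Nat.cast_nonneg N)
    rw [abs_le]; constructor <;> linarith
  have h6 := tendsto_nhds_unique h1 h2
  linarith

open Classical in
noncomputable def ind (A : Set ℕ) (n : ℕ) : ℝ := if n ∈ A then 1 else 0

lemma ind_inter (A B : Set ℕ) (n : ℕ) : ind (A ∩ B) n = ind A n * ind B n := by
  unfold ind
  by_cases h2 : n ∈ A <;> by_cases h3 : n ∈ B <;> simp [h2, h3]

lemma ind_sq (A : Set ℕ) (n : ℕ) : ind A n * ind A n = ind A n := by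
  unfold ind
  by_cases h2 : n ∈ A <;> simp [h2]

lemma cA_eq_sum (A : Set ℕ) (N : ℕ) :
    (cA A N : ℝ) = ∑ n ∈ Finset.range N, ind A n := by
  classical
  unfold cA ind
  rw [Finset.sum_ite, Finset.sum_const_zero, add_zero, Finset.sum_const, nsmul_eq_mul, mul_one]

lemma md_pairs {R : ℕ} (E : Fin R → Set ℕ) :
    ∑ i, md (E i) ≤ 1 + ∑ i, ∑ j, (if i = j then 0 else md (E i ∩ E j)) := by
  classical
  have hN : ∀ N : ℕ, 1 ≤ N → ∑ i, (cA (E i) N : ℝ) / N ≤
      1 + ∑ i, ∑ j, (if i = j then 0 else (cA (E i ∩ E j) N : ℝ) / N) := by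
    intro N hN
    have hN' : (0:ℝ) < N := by exact_mod_cast hN
    have key : ∑ i, (cA (E i) N : ℝ) ≤
        N + ∑ i, ∑ j, (if i = j then 0 else (cA (E i ∩ E j) N : ℝ)) := by
      simp only [cA_eq_sum]
      rw [Finset.sum_comm]
      have h1 : ∑ i, ∑ j, (if i = j then 0 else ∑ n ∈ Finset.range N, ind (E i ∩ E j) n)
          = ∑ n ∈ Finset.range N, ∑ i, ∑ j, (if i = j then (0:ℝ) else ind (E i ∩ E j) n) := by
        rw [Finset.sum_comm' (s := Finset.range N) (t := fun _ => Finset.univ)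
          (t' := Finset.univ) (s' := fun _ => Finset.range N) (by simp)]
        apply Finset.sum_congr rfl; intro i _
        rw [Finset.sum_comm]
        apply Finset.sum_congr rfl; intro j _
        by_cases h : i = j
        · simp [h]
        · simp [h]
      rw [h1]
      have h2 : (N : ℝ) = ∑ n ∈ Finset.range N, (1:ℝ) := by simp
      rw [h2, ← Finset.sum_add_distrib]
      apply Finset.sum_le_sum
      intro n _
      set a : Fin R → ℝ := fun i => ind (E i) n with ha
      have h3 : ∀ i j, (if i = j then (0:ℝ) else ind (E i ∩ E j) n) =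
          a i * a j - (if i = j then a i else 0) := by
        intro i j
        by_cases h : i = j
        · subst h; simp only [ha, if_true]; rw [ind_sq, sub_self]
        · simp only [ha, h, if_false]; rw [ind_inter, sub_zero]
      simp only [h3]
      have h4 : ∑ i, ∑ j, (a i * a j - (if i = j then a i else 0)) = (∑ i, a i)^2 - ∑ i, a i := by
        simp only [Finset.sum_sub_distrib]
        rw [sq, Finset.sum_mul_sum]
        congr 1
        apply Finset.sum_congr rfl; intro i _
        simp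
      rw [h4]
      nlinarith [sq_nonneg ((∑ i, a i) - 1)]
    rw [← Finset.sum_div]
    have h5 : ∑ i, ∑ j, (if i = j then 0 else (cA (E i ∩ E j) N : ℝ) / N) =
        (∑ i, ∑ j, (if i = j then 0 else (cA (E i ∩ E j) N : ℝ))) / N := by
      rw [Finset.sum_div]
      apply Finset.sum_congr rfl; intro i _
      rw [Finset.sum_div]
      apply Finset.sum_congr rfl; intro j _
      by_cases h : i = j <;> simp [h]
    rw [h5, div_le_iff₀ hN', add_mul, one_mul, div_mul_cancel₀ _ hN'.ne']
    exact key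
  have t1 : Tendsto (fun N : ℕ => ∑ i, (cA (E i) N : ℝ) / N) (𝒰 : Filter ℕ)
      (nhds (∑ i, md (E i))) := tendsto_finsetSum _ (fun i _ => md_tendsto _)
  have t2 : Tendsto (fun N : ℕ => 1 + ∑ i, ∑ j, (if i = j then 0 else (cA (E i ∩ E j) N : ℝ) / N))
      (𝒰 : Filter ℕ) (nhds (1 + ∑ i, ∑ j, (if i = j then 0 else md (E i ∩ E j)))) := by
    apply Tendsto.const_add
    apply tendsto_finsetSum; intro i _
    apply tendsto_finsetSum; intro j _
    by_cases h : i = j
    · simp [h]
    · simp only [h, if_false]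
      exact md_tendsto _
  apply le_of_tendsto_of_tendsto t1 t2
  filter_upwards [𝒰_le (eventually_ge_atTop 1)] with N hN1
  exact hN N hN1

/-- correlation -/
noncomputable def cor (A : Set ℕ) (k : ℕ) : ℝ := md {n | n ∈ A ∧ n + k ∈ A}

lemma syndetic {A : Set ℕ} {δ : ℝ} (hδ : 0 < δ) (hA : δ ≤ md A) :
    ∃ c : ℝ, 0 < c ∧ ∃ L : ℕ, ∀ u, 1 ≤ u → ∃ l, l ≤ L ∧ c ≤ cor A (u + l) := by
  obtain ⟨R, hR⟩ := exists_nat_gt (2 / δ)
  have hR0 : (0:ℝ) < R := lt_trans (by positivity) hR
  have hRδ : 2 < R * δ := by rwa [div_lt_iff₀ hδ] at hR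
  refine ⟨1 / R^2, by positivity, ?_⟩
  by_contra hcon
  push Not at hcon
  -- build k_i
  have hk : ∀ r : ℕ, ∃ k : Fin r → ℕ, (∃ B, ∀ i, k i ≤ B) ∧
      ∀ i j, i < j → k i < k j ∧ cor A (k j - k i) < 1 / R^2 := by
    intro r
    induction r with
    | zero => exact ⟨Fin.elim0, ⟨0, fun i => i.elim0⟩, fun i => i.elim0⟩
    | succ r ih =>
      obtain ⟨k, ⟨B, hB⟩, hk⟩ := ih
      obtain ⟨u, hu1, hu⟩ := hcon B
      refine ⟨Fin.snoc k (u + B), ⟨u + B, ?_⟩, ?_⟩
      · intro i
        refine Fin.lastCases ?_ (fun i => ?_) i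
        · simp
        · simp only [Fin.snoc_castSucc]; have := hB i; omega
      · intro i j hij
        induction j using Fin.lastCases with
        | last =>
          induction i using Fin.lastCases with
          | last => exact absurd hij (lt_irrefl _)
          | cast i =>
            simp only [Fin.snoc_castSucc, Fin.snoc_last]
            have h1 := hB i
            refine ⟨by omega, ?_⟩
            have h2 := hu (B - k i) (by omega)
            have h3 : u + (B - k i) = u + B - k i := by omega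
            rwa [h3] at h2
        | cast j =>
          induction i using Fin.lastCases with
          | last => exact absurd hij (by simp [Fin.lt_def])
          | cast i =>
            simp only [Fin.snoc_castSucc]
            exact hk i j (by simpa using hij)
  obtain ⟨k, _, hk⟩ := hk R
  have h1 := md_pairs (fun i : Fin R => {n | n + k i ∈ A})
  have h2 : ∑ i : Fin R, md {n | n + k i ∈ A} = R * md A := by
    simp only [md_shift]
    simp
  have hpair : ∀ i j : Fin R, i < j → md ({n | n + k i ∈ A} ∩ {n | n + k j ∈ A}) < 1 / R^2 := by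
    intro i j hij
    obtain ⟨h3, h4⟩ := hk i j hij
    have h5 : ({n | n + k i ∈ A} ∩ {n | n + k j ∈ A} : Set ℕ) =
        {n | n + k i ∈ {n | n ∈ A ∧ n + (k j - k i) ∈ A}} := by
      ext n
      have : n + k i + (k j - k i) = n + k j := by omega
      show (n + k i ∈ A ∧ n + k j ∈ A) ↔ (n + k i ∈ A ∧ n + k i + (k j - k i) ∈ A)
      rw [this]
    rw [h5, md_shift]
    exact h4
  have h3 : ∑ i : Fin R, ∑ j : Fin R, (if i = j then 0 else
      md ({n | n + k i ∈ A} ∩ {n | n + k j ∈ A})) ≤ ∑ i : Fin R, ∑ j : Fin R, (1:ℝ) / R^2 := by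
    apply Finset.sum_le_sum; intro i _
    apply Finset.sum_le_sum; intro j _
    split_ifs with h
    · positivity
    · rcases lt_or_gt_of_ne h with h4 | h4
      · exact (hpair i j h4).le
      · rw [Set.inter_comm]; exact (hpair j i h4).le
  have h4 : ∑ i : Fin R, ∑ j : Fin R, (1:ℝ) / R^2 = 1 := by
    simp only [Finset.sum_const, Finset.card_univ, Fintype.card_fin, nsmul_eq_mul]
    field_simp
  rw [h2] at h1
  have h5 : R * δ ≤ R * md A := mul_le_mul_of_nonneg_left hA hR0.le
  linarith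

end H342R3.FS
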