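import Pool.Agent.H342R3.FS9

set_option autoImplicit false
set_option maxHeartbeats 1000000
set_option synthInstance.maxHeartbeats 400000
set_option linter.unusedSectionVars false
set_option linter.unusedVariables false

namespace H342R3.FS

open scoped ENNReal Topology
open Filter

variable {𝕜 : Type} [RCLike 𝕜] {p : ℝ≥0∞} [Fact (1 ≤ p)]

lemma pow_it (T : X 𝕜 p →L[𝕜] X 𝕜 p) (n : ℕ) (x : X 𝕜 p) : (T ^ n) x = (⇑T)^[n] x := by
  induction n generalizing x with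
  | zero => rfl
  | succ n ih => rw [pow_succ, Function.iterate_succ_apply, ← ih]; rfl

lemma orbit_bound {T : X 𝕜 p →L[𝕜] X 𝕜 p} {A : Set ℕ} {M : Submodule 𝕜 (X 𝕜 p)}
    (hM : IsClosed (M : Set (X 𝕜 p)))
    (hlim : ∀ x ∈ M, Tendsto (fun n => (⇑T)^[n] x) (atTop ⊓ 𝓟 A) (𝓝 0)) :
    ∃ C : ℝ, 0 ≤ C ∧ ∀ x ∈ M, ∀ n ∈ A, ‖(⇑T)^[n] x‖ ≤ C * ‖x‖ := by
  classical
  have : CompleteSpace M := hM.completeSpace_coe
  set g : A → (M →L[𝕜] X 𝕜 p) := fun n => (T ^ (n : ℕ)).comp M.subtypeL with hg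
  have hga : ∀ (n : A) (x : M), g n x = (⇑T)^[(n:ℕ)] (x : X 𝕜 p) := by
    intro n x
    simp only [hg, ContinuousLinearMap.comp_apply, Submodule.subtypeL_apply]
    exact pow_it T (n:ℕ) (x : X 𝕜 p)
  have h1 : ∀ x : M, ∃ C, ∀ i, ‖g i x‖ ≤ C := by
    intro x
    have h2 := hlim x x.2
    have h3 : ∀ᶠ n in atTop ⊓ 𝓟 A, ‖(⇑T)^[n] (x : X 𝕜 p)‖ < 1 := by
      have h4 := h2.norm
      rw [norm_zero] at h4
      exact h4.eventually_lt_const one_pos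
    rw [Filter.eventually_inf_principal, eventually_atTop] at h3
    obtain ⟨n0, hn0⟩ := h3
    refine ⟨1 + ∑ n ∈ Finset.range n0, ‖(⇑T)^[n] (x : X 𝕜 p)‖, fun i => ?_⟩
    rw [hga]
    by_cases h : n0 ≤ (i : ℕ)
    · have h5 := hn0 i h i.2
      have h6 : 0 ≤ ∑ n ∈ Finset.range n0, ‖(⇑T)^[n] (x : X 𝕜 p)‖ :=
        Finset.sum_nonneg (fun _ _ => norm_nonneg _)
      linarith
    · have h6 := Finset.single_le_sum (f := fun n => ‖(⇑T)^[n] (x : X 𝕜 p)‖)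
        (fun _ _ => norm_nonneg _) (Finset.mem_range.2 (not_le.1 h))
      linarith
  obtain ⟨C, hC⟩ := banach_steinhaus h1
  refine ⟨max C 0, le_max_right _ _, fun x hx n hn => ?_⟩
  have h2 := (g ⟨n, hn⟩).le_opNorm ⟨x, hx⟩
  rw [hga] at h2
  refine h2.trans ?_
  apply mul_le_mul_of_nonneg_right _ (norm_nonneg _)
  exact (hC _).trans (le_max_left _ _)

lemma menet_imp_B {w : ℕ → 𝕜} (hw : ∀ n, w n ≠ 0) {T : X 𝕜 p →L[𝕜] X 𝕜 p} (hp : p ≠ ⊤)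
    (hT : ∀ x n, T x n = w (n+1) * x (n+1)) {A : Set ℕ} (hA : LD A) {M : Submodule 𝕜 (X 𝕜 p)}
    (hM : IsClosed (M : Set (X 𝕜 p))) (hinf : ¬ FiniteDimensional 𝕜 M)
    (hlim : ∀ x ∈ M, Tendsto (fun n => (⇑T)^[n] x) (atTop ⊓ 𝓟 A) (𝓝 0)) :
    CondB w p.toReal := by
  classical
  have hP := P_pos hp
  set P := p.toReal with hPdef
  obtain ⟨C, hC0, hC⟩ := orbit_bound hM hlim
  refine ⟨A, hA, (2 * C)^P, fun m => ?_⟩
  obtain ⟨e, heM, he1, he0⟩ := exists_vec hinf m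
  have h2 := (lp.hasSum_norm hP e).tendsto_sum_nat
  rw [he1, Real.one_rpow] at h2
  have h3 : ((1:ℝ)/2)^P < 1 := Real.rpow_lt_one (by norm_num) (by norm_num) hP
  obtain ⟨R, hR1, hR2⟩ := ((h2.eventually_const_lt h3).and (eventually_ge_atTop m)).exists
  set S : ℝ := ∑ k ∈ Finset.Ico m R, ‖e k‖^P with hS
  have hSge : ((1:ℝ)/2)^P ≤ S := by
    have h1 : ∑ k ∈ Finset.range R, ‖e k‖^P = S := by
      rw [← Finset.sum_range_add_sum_Ico _ hR2, Finset.sum_eq_zero, zero_add]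
      intro k hk
      rw [he0 k (by have := Finset.mem_range.1 hk; omega), norm_zero, Real.zero_rpow hP.ne']
    rw [← h1]
    exact hR1.le
  have hhalf : (0:ℝ) < (1/2)^P := by positivity
  have hSpos : 0 < S := lt_of_lt_of_le hhalf hSge
  refine ⟨R, fun k => ‖e k‖^P / S, fun k => by positivity, ?_, ?_⟩
  · rw [← Finset.sum_div, ← hS, div_self hSpos.ne']
  · intro n hn
    have hterm : ∀ k ∈ Finset.Ico (max m n) R,
        ‖e k‖^P / S * (‖β w k‖ / ‖β w (k - n)‖)^P = ‖((⇑T)^[n] e) (k - n)‖^P / S := by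
      intro k hk
      rw [Finset.mem_Ico] at hk
      have hkn : n ≤ k := (le_max_right _ _).trans hk.1
      have h1 := T_it_norm hT n e (k - n)
      rw [Nat.sub_add_cancel hkn] at h1
      have h2 : ‖((⇑T)^[n] e) (k - n)‖ = ‖e k‖ * (‖β w k‖ / ‖β w (k - n)‖) := by
        rw [eq_comm, mul_div_assoc', div_eq_iff (b_pos hw _).ne', h1]; ring
      rw [h2, Real.mul_rpow (norm_nonneg _) (by positivity)]
      ring
    rw [Finset.sum_congr rfl hterm, ← Finset.sum_div, div_le_iff₀ hSpos]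
    have hnorm : ‖(⇑T)^[n] e‖ ≤ C := by
      have := hC e heM n hn
      rwa [he1, mul_one] at this
    have hsum : ∑ k ∈ Finset.Ico (max m n) R, ‖((⇑T)^[n] e) (k - n)‖^P ≤ ‖(⇑T)^[n] e‖^P := by
      have hinj : Set.InjOn (fun k => k - n) (Finset.Ico (max m n) R : Set ℕ) := by
        intro a ha b hb hab
        rw [Finset.coe_Ico, Set.mem_Ico] at ha hb
        have h1 : n ≤ a := (le_max_right _ _).trans ha.1
        have h2 : n ≤ b := (le_max_right _ _).trans hb.1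
        simp only at hab
        omega
      rw [← Finset.sum_image (f := fun i => ‖((⇑T)^[n] e) i‖^P) (g := fun k => k - n) hinj]
      exact lp.sum_rpow_le_norm_rpow hP _ _
    calc _ ≤ ‖(⇑T)^[n] e‖^P := hsum
      _ ≤ C^P := Real.rpow_le_rpow (norm_nonneg _) hnorm hP.le
      _ = (2 * C)^P * (1/2)^P := by
          rw [← Real.mul_rpow (by positivity) (by norm_num)]
          congr 1; ring
      _ ≤ (2 * C)^P * S := mul_le_mul_of_nonneg_left hSge (by positivity)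

lemma B_imp_menet {w : ℕ → 𝕜} (hw : ∀ n, w n ≠ 0) {T : X 𝕜 p →L[𝕜] X 𝕜 p} (hp : p ≠ ⊤)
    (hT : ∀ x n, T x n = w (n+1) * x (n+1)) (hB : CondB w p.toReal) :
    ∃ A : Set ℕ, LD A ∧ ∃ M : Submodule 𝕜 (X 𝕜 p), IsClosed (M : Set (X 𝕜 p)) ∧
      ¬ FiniteDimensional 𝕜 M ∧
      ∀ x ∈ M, Tendsto (fun n => (⇑T)^[n] x) (atTop ⊓ 𝓟 A) (𝓝 0) := by
  classical
  have hP := P_pos hp
  obtain ⟨A, hA, C, hC⟩ := hB
  have hC' : ∀ m : ℕ, ∃ R : ℕ, ∃ lam : ℕ → ℝ,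
      (∀ k, 0 ≤ lam k) ∧ (∑ k ∈ Finset.Ico m R, lam k = 1) ∧
      ∀ n ∈ A, ∑ k ∈ Finset.Ico (max m n) R, lam k * (‖β w k‖ / ‖β w (k - n)‖) ^ p.toReal ≤ max C 0 := by
    intro m
    obtain ⟨R, lam, h0, h1, h2⟩ := hC m
    exact ⟨R, lam, h0, h1, fun n hn => (h2 n hn).trans (le_max_left _ _)⟩
  obtain ⟨Y, hY1, hY2⟩ := Ypart hw hp hT (le_max_right C 0) hC'
  have hanti : AntilipschitzWith 1 Y := by
    apply AddMonoidHomClass.antilipschitz_of_bound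
    intro a
    simpa using hY1 a
  refine ⟨A, hA, LinearMap.range (Y : X 𝕜 p →ₗ[𝕜] X 𝕜 p), ?_, ?_, ?_⟩
  · have := hanti.isClosed_range Y.uniformContinuous
    simpa [LinearMap.coe_range] using this
  · intro hfd
    have e := LinearEquiv.ofInjective (Y : X 𝕜 p →ₗ[𝕜] X 𝕜 p) hanti.injective
    exact infinite_dim (𝕜 := 𝕜) hP (LinearEquiv.finiteDimensional e.symm)
  · rintro x ⟨a, rfl⟩
    rw [Metric.tendsto_nhds]
    intro ε hε
    rw [Filter.eventually_inf_principal, eventually_atTop]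
    obtain ⟨n0, hn0⟩ := hY2 a (ε/2) (by positivity)
    refine ⟨n0, fun n hn hnA => ?_⟩
    rw [dist_zero_right]
    have h1 : ‖(⇑T)^[n] (Y a)‖ ≤ ε/2 := hn0 n hn hnA
    have h2 : ‖(⇑T)^[n] (Y a)‖ < ε := by linarith
    exact h2

theorem characterization' {w : ℕ → 𝕜} (hw : ∀ n, w n ≠ 0) {T : X 𝕜 p →L[𝕜] X 𝕜 p} (hp : p ≠ ⊤)
    (hT : ∀ x n, T x n = w (n+1) * x (n+1)) :
    List.TFAE [
      ∃ M : Submodule 𝕜 (X 𝕜 p), IsClosed (M : Set (X 𝕜 p)) ∧ ¬ FiniteDimensional 𝕜 M ∧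
        ∀ x ∈ M, x ≠ 0 → FHV T x,
      Summable (fun n => (‖β w n‖⁻¹) ^ p.toReal) ∧ CondB w p.toReal,
      (∃ x, FHV T x) ∧ ∃ A : Set ℕ, LD A ∧ ∃ M : Submodule 𝕜 (X 𝕜 p),
        IsClosed (M : Set (X 𝕜 p)) ∧ ¬ FiniteDimensional 𝕜 M ∧
        ∀ x ∈ M, Tendsto (fun n => (⇑T)^[n] x) (atTop ⊓ 𝓟 A) (𝓝 0)] := by
  tfae_have 1 ↔ 2 := characterization hw hp hT
  tfae_have 2 → 3 := by
    intro h
    obtain ⟨M, hM, hinf, hF⟩ := (characterization hw hp hT).2 h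
    obtain ⟨x, hx, hx1, _⟩ := exists_vec hinf 0
    refine ⟨⟨x, hF x hx ?_⟩, B_imp_menet hw hp hT h.2⟩
    intro h
    rw [h, norm_zero] at hx1
    norm_num at hx1
  tfae_have 3 → 2 := by
    rintro ⟨⟨x, hx⟩, A, hA, M, hM, hinf, hlim⟩
    exact ⟨summable_of_FHV hw hp hT hx, menet_imp_B hw hp hT hA hM hinf hlim⟩
  tfae_finish

end H342R3.FS
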