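import Pool.Agent.H342R3.FS1

set_option autoImplicit false
set_option maxHeartbeats 1000000

namespace H342R3.FS

open scoped ENNReal
open Filter

/-- the sequence space -/
noncomputable abbrev X (𝕜 : Type) [RCLike 𝕜] (p : ℝ≥0∞) := lp (fun _ : ℕ => 𝕜) p

variable {𝕜 : Type} [RCLike 𝕜] {p : ℝ≥0∞} [Fact (1 ≤ p)]

/-- frequently hypercyclic vectors -/
def FHV (T : X 𝕜 p →L[𝕜] X 𝕜 p) (x : X 𝕜 p) : Prop :=
  ∀ V : Set (X 𝕜 p), IsOpen V → V.Nonempty → LD {n | (⇑T)^[n] x ∈ V}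

lemma P_ge (hp : p ≠ ⊤) : 1 ≤ p.toReal := by
  have h : (1:ℝ≥0∞) ≤ p := Fact.out
  have := ENNReal.toReal_mono hp h
  simpa using this

lemma P_pos (hp : p ≠ ⊤) : 0 < p.toReal := lt_of_lt_of_le one_pos (P_ge hp)

lemma β_zero (w : ℕ → 𝕜) : β w 0 = 1 := by simp [β]
lemma β_succ (w : ℕ → 𝕜) (n : ℕ) : β w (n+1) = β w n * w (n+1) := by
  unfold β; rw [Finset.prod_range_succ]

lemma β_ne {w : ℕ → 𝕜} (hw : ∀ n, w n ≠ 0) (n : ℕ) : β w n ≠ 0 :=
  Finset.prod_ne_zero_iff.2 (fun _ _ => hw _)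

lemma b_pos {w : ℕ → 𝕜} (hw : ∀ n, w n ≠ 0) (n : ℕ) : 0 < ‖β w n‖ := norm_pos_iff.2 (β_ne hw n)

lemma T_it {w : ℕ → 𝕜} {T : X 𝕜 p →L[𝕜] X 𝕜 p} (hT : ∀ x n, T x n = w (n+1) * x (n+1))
    (n : ℕ) : ∀ (x : X 𝕜 p) (k : ℕ), ((⇑T)^[n] x) k * β w k = β w (k+n) * x (k+n) := by
  induction n with
  | zero => intro x k; simp [mul_comm]
  | succ n ih =>
    intro x k
    rw [Function.iterate_succ_apply, ih, hT, ← add_assoc, β_succ]
    ring

lemma T_it_norm {w : ℕ → 𝕜} {T : X 𝕜 p →L[𝕜] X 𝕜 p} (hT : ∀ x n, T x n = w (n+1) * x (n+1))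
    (n : ℕ) (x : X 𝕜 p) (k : ℕ) : ‖((⇑T)^[n] x) k‖ * ‖β w k‖ = ‖β w (k+n)‖ * ‖x (k+n)‖ := by
  rw [← norm_mul, T_it hT, norm_mul]

lemma single_apply' (i : ℕ) (a : 𝕜) (k : ℕ) :
    (lp.single p i a : X 𝕜 p) k = if k = i then a else 0 := by
  rw [lp.single_apply]
  by_cases h : k = i
  · subst h; simp
  · rw [if_neg h, Pi.single_eq_of_ne h]

lemma w_bound {w : ℕ → 𝕜} {T : X 𝕜 p →L[𝕜] X 𝕜 p} (hp : p ≠ ⊤)
    (hT : ∀ x n, T x n = w (n+1) * x (n+1)) : ∃ C : ℝ, 1 ≤ C ∧ ∀ n, ‖w (n+1)‖ ≤ C := by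
  refine ⟨max 1 ‖T‖, le_max_left _ _, fun n => le_max_of_le_right ?_⟩
  have hp0 : (0:ℝ≥0∞) < p := lt_of_lt_of_le one_pos Fact.out
  have h1 : T (lp.single p (n+1) (1:𝕜)) n = w (n+1) := by
    rw [hT, single_apply', if_pos rfl, mul_one]
  rw [← h1]
  refine (lp.norm_apply_le_norm hp0.ne' _ _).trans ?_
  refine (T.le_opNorm _).trans ?_
  rw [lp.norm_single hp0, norm_one, mul_one]

lemma β_growth {w : ℕ → 𝕜} {C : ℝ} (hC : 1 ≤ C) (hb : ∀ n, ‖w (n+1)‖ ≤ C) (u l : ℕ) :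
    ‖β w (u + l)‖ ≤ ‖β w u‖ * C^l := by
  induction l with
  | zero => simp
  | succ l ih =>
    rw [← add_assoc, β_succ, norm_mul, pow_succ, ← mul_assoc]
    exact mul_le_mul ih (hb _) (norm_nonneg _) (by positivity)

/-- Bayart–Ruzsa: a frequently hypercyclic weighted shift has summable inverse products -/
lemma summable_of_FHV {w : ℕ → 𝕜} (hw : ∀ n, w n ≠ 0) {T : X 𝕜 p →L[𝕜] X 𝕜 p} (hp : p ≠ ⊤)
    (hT : ∀ x n, T x n = w (n+1) * x (n+1)) {x : X 𝕜 p} (hx : FHV T x) :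
    Summable (fun n => (‖β w n‖⁻¹) ^ p.toReal) := by
  have hP := P_pos hp
  have hp0 : (0:ℝ≥0∞) < p := lt_of_lt_of_le one_pos Fact.out
  set P := p.toReal with hPdef
  set F : ℕ → ℝ := fun n => (‖β w n‖⁻¹) ^ P with hF
  have hF0 : ∀ n, 0 ≤ F n := fun n => by positivity
  set e0 : X 𝕜 p := lp.single p 0 (1:𝕜) with he0
  set A : Set ℕ := {n | (⇑T)^[n] x ∈ Metric.ball e0 (1/2)} with hA
  have hLD : LD A := hx _ Metric.isOpen_ball ⟨e0, Metric.mem_ball_self (by norm_num)⟩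
  have hAn : ∀ n ∈ A, ‖(⇑T)^[n] x - e0‖ < 1/2 := by
    intro n hn
    have : (⇑T)^[n] x ∈ Metric.ball e0 (1/2) := hn
    rwa [Metric.mem_ball, dist_eq_norm] at this
  have h1 : ∀ n ∈ A, 1/2 ≤ ‖β w n‖ * ‖x n‖ := by
    intro n hn
    have h2 := (lp.norm_apply_le_norm hp0.ne' ((⇑T)^[n] x - e0) 0).trans (hAn n hn).le
    rw [lp.coeFn_sub, Pi.sub_apply] at h2
    have h3 := T_it_norm hT n x 0
    rw [β_zero, norm_one, mul_one, zero_add] at h3
    rw [← h3]
    have h4 : e0 0 = 1 := by rw [he0, single_apply', if_pos rfl]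
    rw [h4] at h2
    have h5 : ‖(1:𝕜)‖ - ‖((⇑T)^[n] x) 0‖ ≤ ‖(1:𝕜) - ((⇑T)^[n] x) 0‖ := norm_sub_norm_le _ _
    rw [norm_sub_rev, norm_one] at h5
    linarith
  have h2 : ∀ n ∈ A, ∀ K, ∑ k ∈ Finset.range K, ind A (n + (k+1)) * F (k+1) ≤ 1 := by
    intro n hn K
    set v := (⇑T)^[n] x - e0 with hv
    have h3 : ∀ k, ((1:ℝ)/2)^P * (ind A (n + (k+1)) * F (k+1)) ≤ ‖v (k+1)‖^P := by
      intro k
      unfold ind
      split_ifs with hk
      · have h4 : v (k+1) = ((⇑T)^[n] x) (k+1) := by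
          rw [hv, lp.coeFn_sub, Pi.sub_apply, he0, single_apply', if_neg (by omega), sub_zero]
        have h5 := T_it_norm hT n x (k+1)
        have h6 := h1 _ hk
        have h7 : k + 1 + n = n + (k+1) := by ring
        rw [h7] at h5
        have h8 : 1/2 * ‖β w (k+1)‖⁻¹ ≤ ‖v (k+1)‖ := by
          rw [h4, ← div_eq_mul_inv, div_le_iff₀ (b_pos hw _), h5]
          exact h6
        rw [one_mul, hF]
        simp only
        rw [← Real.mul_rpow (by norm_num) (by positivity)]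
        exact Real.rpow_le_rpow (by positivity) h8 hP.le
      · rw [zero_mul, mul_zero]; positivity
    have h4 : ∑ k ∈ Finset.range K, ‖v (k+1)‖^P ≤ ((1:ℝ)/2)^P := by
      have h5 := lp.sum_rpow_le_norm_rpow hP v (Finset.range (K+1))
      rw [Finset.sum_range_succ'] at h5
      have h6 : ‖v‖^P ≤ (1/2)^P := Real.rpow_le_rpow (norm_nonneg _) (hAn n hn).le hP.le
      have h7 : 0 ≤ ‖v 0‖^P := by positivity
      linarith
    have h5 : ((1:ℝ)/2)^P * ∑ k ∈ Finset.range K, ind A (n + (k+1)) * F (k+1) ≤ (1/2)^P := by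
      rw [Finset.mul_sum]
      exact (Finset.sum_le_sum (fun k _ => h3 k)).trans h4
    have h6 : (0:ℝ) < (1/2)^P := by positivity
    nlinarith
  -- averaging
  have h3 : ∀ K N : ℕ, ∑ k ∈ Finset.range K, F (k+1) * (cA {n | n ∈ A ∧ n + (k+1) ∈ A} N : ℝ) ≤ N := by
    intro K N
    simp only [cA_eq_sum, Finset.mul_sum]
    rw [Finset.sum_comm]
    have h4 : (N : ℝ) = ∑ n ∈ Finset.range N, (1:ℝ) := by simp
    rw [h4]
    apply Finset.sum_le_sum
    intro n _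
    by_cases hn : n ∈ A
    · refine le_trans (le_of_eq ?_) (h2 n hn K)
      apply Finset.sum_congr rfl; intro k _
      have : ind {n | n ∈ A ∧ n + (k+1) ∈ A} n = ind A (n + (k+1)) := by
        unfold ind
        by_cases hk : n + (k+1) ∈ A
        · rw [if_pos (show n ∈ {n | n ∈ A ∧ n + (k+1) ∈ A} from ⟨hn, hk⟩), if_pos hk]
        · rw [if_neg (fun h : n ∈ {n | n ∈ A ∧ n + (k+1) ∈ A} => hk h.2), if_neg hk]
      rw [this, mul_comm]
    · have : ∀ k ∈ Finset.range K, F (k+1) * ind {n | n ∈ A ∧ n + (k+1) ∈ A} n = 0 := by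
        intro k _
        unfold ind
        rw [if_neg (fun h : n ∈ {n | n ∈ A ∧ n + (k+1) ∈ A} => hn h.1), mul_zero]
      rw [Finset.sum_eq_zero this]; norm_num
  have h4 : ∀ K : ℕ, ∑ k ∈ Finset.range K, F (k+1) * cor A (k+1) ≤ 1 := by
    intro K
    have t1 : Tendsto (fun N : ℕ => ∑ k ∈ Finset.range K,
        F (k+1) * ((cA {n | n ∈ A ∧ n + (k+1) ∈ A} N : ℝ) / N)) (𝒰 : Filter ℕ)
        (nhds (∑ k ∈ Finset.range K, F (k+1) * cor A (k+1))) :=
      tendsto_finsetSum _ (fun k _ => (md_tendsto _).const_mul _)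
    apply le_of_tendsto t1
    filter_upwards [𝒰_le (eventually_ge_atTop 1)] with N hN
    have hN' : (0:ℝ) < N := by exact_mod_cast hN
    have h5 := h3 K N
    have h6 : ∑ k ∈ Finset.range K, F (k+1) * ((cA {n | n ∈ A ∧ n + (k+1) ∈ A} N : ℝ) / N) =
        (∑ k ∈ Finset.range K, F (k+1) * (cA {n | n ∈ A ∧ n + (k+1) ∈ A} N : ℝ)) / N := by
      rw [Finset.sum_div]
      apply Finset.sum_congr rfl; intro k _
      rw [mul_div_assoc]
    rw [h6, div_le_one hN']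
    exact h5
  -- density
  rw [LD_iff] at hLD
  obtain ⟨δ, hδ, N₀, hN₀⟩ := hLD
  have hmd : δ ≤ md A := by
    apply ge_of_tendsto (md_tendsto A)
    filter_upwards [𝒰_le (eventually_ge_atTop (max N₀ 1))] with N hN
    have hN' : (0:ℝ) < N := by
      have : 1 ≤ N := (le_max_right _ _).trans hN
      exact_mod_cast this
    rw [le_div_iff₀ hN']
    exact hN₀ N ((le_max_left _ _).trans hN)
  obtain ⟨c, hc, L, hL⟩ := syndetic hδ hmd
  obtain ⟨C, hC1, hC⟩ := w_bound hp hT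
  have hcor0 : ∀ k, 0 ≤ cor A k := fun k => (md_mem _).1
  have hstep : ∀ u, 1 ≤ u → c * F u ≤ (C^L)^P * ∑ l ∈ Finset.range (L+1), F (u+l) * cor A (u+l) := by
    intro u hu
    obtain ⟨l, hl, hcl⟩ := hL u hu
    have h5 : F u ≤ (C^L)^P * F (u+l) := by
      rw [hF]
      simp only
      rw [← Real.mul_rpow (by positivity) (by positivity)]
      apply Real.rpow_le_rpow (by positivity) _ hP.le
      have h6 := β_growth hC1 hC u l
      have h7 : C^l ≤ C^L := pow_le_pow_right₀ hC1 hl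
      rw [← div_eq_mul_inv, le_div_iff₀ (b_pos hw _), inv_mul_le_iff₀ (b_pos hw _)]
      exact h6.trans (mul_le_mul_of_nonneg_left h7 (norm_nonneg _))
    have h6 : F (u+l) * cor A (u+l) ≤ ∑ l ∈ Finset.range (L+1), F (u+l) * cor A (u+l) :=
      Finset.single_le_sum (f := fun l => F (u+l) * cor A (u+l))
        (fun i _ => mul_nonneg (hF0 _) (hcor0 _)) (Finset.mem_range.2 (by omega))
    calc c * F u ≤ cor A (u+l) * ((C^L)^P * F (u+l)) :=
          mul_le_mul hcl h5 (hF0 _) (hcor0 _)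
      _ = (C^L)^P * (F (u+l) * cor A (u+l)) := by ring
      _ ≤ _ := mul_le_mul_of_nonneg_left h6 (by positivity)
  have hsum : ∀ K, ∑ k ∈ Finset.range K, F (k+1) ≤ (C^L)^P * (L+1) / c := by
    intro K
    rw [le_div_iff₀ hc, mul_comm, Finset.mul_sum]
    calc ∑ k ∈ Finset.range K, c * F (k+1)
        ≤ ∑ k ∈ Finset.range K, (C^L)^P * ∑ l ∈ Finset.range (L+1), F (k+1+l) * cor A (k+1+l) :=
          Finset.sum_le_sum (fun k _ => hstep (k+1) (by omega))
      _ = (C^L)^P * ∑ l ∈ Finset.range (L+1), ∑ k ∈ Finset.range K, F (k+1+l) * cor A (k+1+l) := by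
          rw [← Finset.mul_sum, Finset.sum_comm]
      _ ≤ (C^L)^P * ∑ l ∈ Finset.range (L+1), (1:ℝ) := by
          apply mul_le_mul_of_nonneg_left _ (by positivity)
          apply Finset.sum_le_sum
          intro l _
          refine le_trans ?_ (h4 (l + K))
          rw [Finset.sum_range_add]
          have h5 : ∑ k ∈ Finset.range K, F (k+1+l) * cor A (k+1+l) =
              ∑ k ∈ Finset.range K, F (l+k+1) * cor A (l+k+1) := by
            apply Finset.sum_congr rfl; intro k _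
            have : k + 1 + l = l + k + 1 := by ring
            rw [this]
          rw [h5]
          have h6 : 0 ≤ ∑ k ∈ Finset.range l, F (k+1) * cor A (k+1) :=
            Finset.sum_nonneg (fun i _ => mul_nonneg (hF0 _) (hcor0 _))
          linarith
      _ = (C^L)^P * (L+1) := by simp
  have hs : Summable (fun k => F (k+1)) := summable_of_sum_range_le (fun k => hF0 _) hsum
  exact (summable_nat_add_iff 1).1 hs

end H342R3.FS
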