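import Pool.Agent.H342R3.FS2

set_option autoImplicit false
set_option maxHeartbeats 1000000
set_option synthInstance.maxHeartbeats 400000
set_option linter.unusedSectionVars false
set_option linter.unusedVariables false

namespace H342R3.FS

open scoped ENNReal
open Filter

variable {𝕜 : Type} [RCLike 𝕜] {p : ℝ≥0∞} [Fact (1 ≤ p)]

lemma closed_count (T : X 𝕜 p →L[𝕜] X 𝕜 p) (M : Submodule 𝕜 (X 𝕜 p)) (K N : ℕ) :
    IsClosed {x : M | N ≤ (K+1) * cA {n | ‖(⇑T)^[n] (x : X 𝕜 p)‖ ≤ 1} N} := by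
  classical
  have h : {x : M | N ≤ (K+1) * cA {n | ‖(⇑T)^[n] (x : X 𝕜 p)‖ ≤ 1} N} =
      ⋃ S ∈ ((Finset.range N).powerset.filter (fun S => N ≤ (K+1) * S.card)),
        ⋂ n ∈ S, {x : M | ‖(⇑T)^[n] (x : X 𝕜 p)‖ ≤ 1} := by
    ext x
    simp only [Set.mem_iUnion, Set.mem_iInter]
    constructor
    · intro hx
      have hx' : N ≤ (K+1) * cA {n | ‖(⇑T)^[n] (x : X 𝕜 p)‖ ≤ 1} N := hx
      refine ⟨(Finset.range N).filter (fun n => n ∈ {n | ‖(⇑T)^[n] (x : X 𝕜 p)‖ ≤ 1}), ?_, ?_⟩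
      · rw [Finset.mem_filter, Finset.mem_powerset]
        refine ⟨Finset.filter_subset _ _, ?_⟩
        unfold cA at hx'
        convert hx'
      · intro n hn
        rw [Finset.mem_filter] at hn
        exact hn.2
    · rintro ⟨S, hS, hx⟩
      rw [Finset.mem_filter, Finset.mem_powerset] at hS
      show N ≤ (K+1) * cA {n | ‖(⇑T)^[n] (x : X 𝕜 p)‖ ≤ 1} N
      refine hS.2.trans (Nat.mul_le_mul_left _ ?_)
      unfold cA
      apply Finset.card_le_card
      intro n hn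
      rw [Finset.mem_filter]
      exact ⟨hS.1 hn, hx n hn⟩
  rw [h]
  apply isClosed_biUnion_finset
  intro S _
  apply isClosed_biInter
  intro n _
  have hc : Continuous (fun x : M => ‖(⇑T)^[n] (x : X 𝕜 p)‖) :=
    ((T.continuous.iterate n).comp continuous_subtype_val).norm
  exact isClosed_le hc continuous_const

lemma T_it_add (T : X 𝕜 p →L[𝕜] X 𝕜 p) (n : ℕ) (x y : X 𝕜 p) :
    (⇑T)^[n] (x + y) = (⇑T)^[n] x + (⇑T)^[n] y := by
  induction n generalizing x y with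
  | zero => rfl
  | succ n ih => rw [Function.iterate_succ_apply, map_add, ih]; rfl

lemma T_it_smul (T : X 𝕜 p →L[𝕜] X 𝕜 p) (n : ℕ) (c : 𝕜) (x : X 𝕜 p) :
    (⇑T)^[n] (c • x) = c • (⇑T)^[n] x := by
  induction n generalizing x with
  | zero => rfl
  | succ n ih => rw [Function.iterate_succ_apply, map_smul, ih]; rfl

lemma uniform {T : X 𝕜 p →L[𝕜] X 𝕜 p} {M : Submodule 𝕜 (X 𝕜 p)}
    (hM : IsClosed (M : Set (X 𝕜 p))) (hF : ∀ x ∈ M, x ≠ 0 → FHV T x) :
    ∃ C : ℝ, 0 < C ∧ ∃ K : ℕ, 1 ≤ K ∧ ∀ y ∈ M, ‖y‖ ≤ 1 → ∀ N, K ≤ N →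
      N ≤ 2 * K * cA {n | ‖(⇑T)^[n] y‖ ≤ C} N := by
  classical
  haveI : CompleteSpace M := hM.completeSpace_coe
  set F : ℕ → Set M := fun K => {x | ∀ N, K ≤ N → N ≤ (K+1) * cA {n | ‖(⇑T)^[n] (x : X 𝕜 p)‖ ≤ 1} N} with hFdef
  have hFclosed : ∀ K, IsClosed (F K) := by
    intro K
    have : F K = ⋂ N, ⋂ (_ : K ≤ N), {x : M | N ≤ (K+1) * cA {n | ‖(⇑T)^[n] (x : X 𝕜 p)‖ ≤ 1} N} := by
      ext x
      simp only [Set.mem_iInter]
      rfl
    rw [this]
    exact isClosed_iInter (fun N => isClosed_iInter (fun _ => closed_count T M K N))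
  have hunion : ⋃ K, F K = Set.univ := by
    rw [Set.eq_univ_iff_forall]
    intro x
    rw [Set.mem_iUnion]
    by_cases hx : (x : X 𝕜 p) = 0
    · refine ⟨0, fun N _ => ?_⟩
      have h1 : cA {n | ‖(⇑T)^[n] (x : X 𝕜 p)‖ ≤ 1} N = N := by
        unfold cA
        rw [Finset.filter_true_of_mem, Finset.card_range]
        intro n _
        show ‖(⇑T)^[n] (x : X 𝕜 p)‖ ≤ 1
        rw [hx]
        have : (⇑T)^[n] (0 : X 𝕜 p) = 0 := by
          have := T_it_smul T n (0:𝕜) (0 : X 𝕜 p)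
          simpa using this
        rw [this]; simp
      rw [h1]; omega
    · have h1 := hF x x.2 hx (Metric.ball 0 1) Metric.isOpen_ball ⟨0, by simp⟩
      rw [LD_iff] at h1
      obtain ⟨δ, hδ, N₀, h2⟩ := h1
      obtain ⟨k, hk⟩ := exists_nat_ge (1 / δ)
      refine ⟨max N₀ k, fun N hN => ?_⟩
      have h3 := h2 N ((le_max_left _ _).trans hN)
      have h4 : (cA {n | (⇑T)^[n] (x : X 𝕜 p) ∈ Metric.ball 0 1} N : ℝ) ≤
          (cA {n | ‖(⇑T)^[n] (x : X 𝕜 p)‖ ≤ 1} N : ℝ) := by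
        have : cA {n | (⇑T)^[n] (x : X 𝕜 p) ∈ Metric.ball 0 1} N ≤
          cA {n | ‖(⇑T)^[n] (x : X 𝕜 p)‖ ≤ 1} N := by
          apply cA_mono
          intro n hn
          have h5 : (⇑T)^[n] (x : X 𝕜 p) ∈ Metric.ball (0 : X 𝕜 p) 1 := hn
          rw [Metric.mem_ball, dist_zero_right] at h5
          exact h5.le
        exact_mod_cast this
      have h5 : (1:ℝ) ≤ ((max N₀ k : ℕ) + 1 : ℝ) * δ := by
        have h6 : (k:ℝ) ≤ ((max N₀ k : ℕ) : ℝ) := by exact_mod_cast le_max_right _ _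
        rw [div_le_iff₀ hδ] at hk
        nlinarith
      have h6 : (N:ℝ) ≤ (((max N₀ k) + 1 : ℕ) : ℝ) * (cA {n | ‖(⇑T)^[n] (x : X 𝕜 p)‖ ≤ 1} N : ℝ) := by
        calc (N:ℝ) = 1 * N := (one_mul _).symm
          _ ≤ (((max N₀ k : ℕ) + 1 : ℝ) * δ) * N := mul_le_mul_of_nonneg_right h5 (Nat.cast_nonneg _)
          _ = ((max N₀ k : ℕ) + 1 : ℝ) * (δ * N) := by ring
          _ ≤ ((max N₀ k : ℕ) + 1 : ℝ) * (cA {n | ‖(⇑T)^[n] (x : X 𝕜 p)‖ ≤ 1} N : ℝ) := by
              apply mul_le_mul_of_nonneg_left (h3.trans h4) (by positivity)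
          _ = _ := by push_cast; ring
      exact_mod_cast h6
  obtain ⟨K, x0, hx0⟩ := nonempty_interior_of_iUnion_of_closed hFclosed hunion
  rw [mem_interior_iff_mem_nhds, Metric.mem_nhds_iff] at hx0
  obtain ⟨ρ, hρ, hball⟩ := hx0
  set Q : ℕ := 2 * (K+1) with hQ
  have hQr : (0:ℝ) < Q := by rw [hQ]; positivity
  set h : ℝ := ρ / Q with hh
  have hhpos : 0 < h := by positivity
  refine ⟨2 / h, by positivity, K + 1, by omega, ?_⟩
  intro y hy hy1 N hN
  set D : Set ℕ := {n | ‖(⇑T)^[n] y‖ ≤ 2 / h} with hD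
  set xi : ℕ → X 𝕜 p := fun i => (x0 : X 𝕜 p) + ((h * i : ℝ) : 𝕜) • y with hxi
  set S : ℕ → Set ℕ := fun i => {n | ‖(⇑T)^[n] (xi i)‖ ≤ 1} with hS
  have hSi : ∀ i, i < Q → N ≤ (K+1) * cA (S i) N := by
    intro i hi
    have hm : xi i ∈ M := M.add_mem x0.2 (M.smul_mem _ hy)
    have hb : (⟨xi i, hm⟩ : M) ∈ Metric.ball x0 ρ := by
      rw [Metric.mem_ball, dist_eq_norm]
      have : ‖(⟨xi i, hm⟩ : M) - x0‖ = ‖((h * i : ℝ) : 𝕜) • y‖ := by
        show ‖xi i - (x0 : X 𝕜 p)‖ = _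
        simp only [hxi]
        congr 1
        abel
      rw [this, norm_smul, RCLike.norm_ofReal, abs_of_nonneg (by positivity)]
      have hiQ : (i:ℝ) < Q := by exact_mod_cast hi
      calc h * i * ‖y‖ ≤ h * i * 1 := mul_le_mul_of_nonneg_left hy1 (by positivity)
        _ = h * i := mul_one _
        _ < h * Q := mul_lt_mul_of_pos_left hiQ hhpos
        _ = ρ := by rw [hh]; field_simp
    exact hball hb N (by omega)
  have hpair : ∀ n, n ∉ D → ∀ i j, i < j → ind (S i) n * ind (S j) n = 0 := by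
    intro n hn i j hij
    by_contra hne
    have hi : n ∈ S i := by
      by_contra h1; apply hne; unfold ind; rw [if_neg h1, zero_mul]
    have hj : n ∈ S j := by
      by_contra h1; apply hne; unfold ind; rw [if_neg h1, mul_zero]
    apply hn
    have h1 : ‖(⇑T)^[n] (xi i)‖ ≤ 1 := hi
    have h2 : ‖(⇑T)^[n] (xi j)‖ ≤ 1 := hj
    have h3 : (⇑T)^[n] (xi j) - (⇑T)^[n] (xi i) = ((h * j - h * i : ℝ) : 𝕜) • (⇑T)^[n] y := by
      simp only [hxi]
      rw [T_it_add, T_it_add, T_it_smul, T_it_smul]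
      push_cast
      rw [sub_smul]; abel
    have h4 : ‖((h * j - h * i : ℝ) : 𝕜) • (⇑T)^[n] y‖ ≤ 2 := by
      rw [← h3]
      exact (norm_sub_le _ _).trans (by linarith)
    have hij' : (i:ℝ) + 1 ≤ j := by exact_mod_cast hij
    have h5 : h ≤ h * j - h * i := by nlinarith
    rw [norm_smul, RCLike.norm_ofReal, abs_of_nonneg (by linarith)] at h4
    show ‖(⇑T)^[n] y‖ ≤ 2 / h
    rw [le_div_iff₀ hhpos]
    have h6 : h * ‖(⇑T)^[n] y‖ ≤ (h * j - h * i) * ‖(⇑T)^[n] y‖ :=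
      mul_le_mul_of_nonneg_right h5 (norm_nonneg _)
    linarith
  have hmult : ∀ n, ∑ i ∈ Finset.range Q, ind (S i) n ≤ 1 + Q * ind D n := by
    intro n
    by_cases hn : n ∈ D
    · have h1 : ind D n = 1 := by unfold ind; rw [if_pos hn]
      rw [h1, mul_one]
      have h2 : ∑ i ∈ Finset.range Q, ind (S i) n ≤ ∑ i ∈ Finset.range Q, (1:ℝ) := by
        apply Finset.sum_le_sum
        intro i _
        unfold ind; split_ifs <;> norm_num
      simp only [Finset.sum_const, Finset.card_range, nsmul_eq_mul, mul_one] at h2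
      linarith
    · have h1 : ind D n = 0 := by unfold ind; rw [if_neg hn]
      rw [h1, mul_zero, add_zero]
      have h2 : (∑ i ∈ Finset.range Q, ind (S i) n) * (∑ i ∈ Finset.range Q, ind (S i) n) =
          ∑ i ∈ Finset.range Q, ind (S i) n := by
        rw [Finset.sum_mul_sum]
        apply Finset.sum_congr rfl
        intro i hi
        rw [Finset.sum_eq_single i]
        · exact ind_sq _ _
        · intro j _ hj
          rcases lt_or_gt_of_ne hj with h3 | h3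
          · rw [mul_comm]; exact hpair n hn j i h3
          · exact hpair n hn i j h3
        · intro h3; exact absurd hi h3
      nlinarith [sq_nonneg ((∑ i ∈ Finset.range Q, ind (S i) n) - 1)]
  have h1 : ∑ i ∈ Finset.range Q, (cA (S i) N : ℝ) ≤ N + Q * cA D N := by
    simp only [cA_eq_sum]
    rw [Finset.sum_comm, Finset.mul_sum]
    have : (N:ℝ) = ∑ n ∈ Finset.range N, (1:ℝ) := by simp
    rw [this, ← Finset.sum_add_distrib]
    exact Finset.sum_le_sum (fun n _ => hmult n)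
  have h2 : (Q:ℝ) * N ≤ (K+1) * ∑ i ∈ Finset.range Q, (cA (S i) N : ℝ) := by
    rw [Finset.mul_sum]
    have : (Q:ℝ) * N = ∑ i ∈ Finset.range Q, (N:ℝ) := by simp
    rw [this]
    apply Finset.sum_le_sum
    intro i hi
    exact_mod_cast hSi i (Finset.mem_range.1 hi)
  have hQe : (Q:ℝ) = 2 * (K+1) := by rw [hQ]; push_cast; ring
  have hK1 : (0:ℝ) < (K:ℝ) + 1 := by positivity
  have h3 : (N:ℝ) ≤ Q * cA D N := by
    have h4 : (K+1:ℝ) * (2 * N) ≤ (K+1) * (N + Q * cA D N) := by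
      calc (K+1:ℝ) * (2 * N) = Q * N := by rw [hQe]; ring
        _ ≤ (K+1) * ∑ i ∈ Finset.range Q, (cA (S i) N : ℝ) := h2
        _ ≤ _ := mul_le_mul_of_nonneg_left h1 hK1.le
    have := le_of_mul_le_mul_left h4 hK1
    linarith
  have h4 : N ≤ Q * cA D N := by exact_mod_cast h3
  exact h4

lemma exists_vec {M : Submodule 𝕜 (X 𝕜 p)} (hinf : ¬ FiniteDimensional 𝕜 M) (m : ℕ) :
    ∃ x ∈ M, ‖x‖ = 1 ∧ ∀ k < m, x k = 0 := by
  let L : M →ₗ[𝕜] (Fin m → 𝕜) :=
    { toFun := fun x i => (x : X 𝕜 p) i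
      map_add' := by intro x y; rfl
      map_smul' := by intro c x; rfl }
  have hker : ¬ Function.Injective L := by
    intro h
    exact hinf (Module.Finite.of_injective L h)
  rw [← LinearMap.ker_eq_bot] at hker
  obtain ⟨x, hx, hx0⟩ := (Submodule.ne_bot_iff _).1 hker
  have hx0' : (x : X 𝕜 p) ≠ 0 := fun h => hx0 (Subtype.ext h)
  have hn : 0 < ‖(x : X 𝕜 p)‖ := norm_pos_iff.2 hx0'
  refine ⟨((‖(x : X 𝕜 p)‖⁻¹ : ℝ) : 𝕜) • (x : X 𝕜 p), M.smul_mem _ x.2, ?_, ?_⟩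
  · rw [norm_smul, RCLike.norm_ofReal, abs_of_nonneg (by positivity), inv_mul_cancel₀ hn.ne']
  · intro k hk
    rw [lp.coeFn_smul, Pi.smul_apply]
    have : (x : X 𝕜 p) k = 0 := congrFun (LinearMap.mem_ker.1 hx) ⟨k, hk⟩
    rw [this, smul_zero]

end H342R3.FS
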