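import Pool.Agent.H342R3.FS3

set_option autoImplicit false
set_option maxHeartbeats 1000000
set_option synthInstance.maxHeartbeats 400000
set_option linter.unusedSectionVars false
set_option linter.unusedVariables false

namespace H342R3.FS

open scoped ENNReal
open Filter

variable {𝕜 : Type} [RCLike 𝕜] {p : ℝ≥0∞} [Fact (1 ≤ p)]

/-- second half of the characterisation -/
def CondB (w : ℕ → 𝕜) (P : ℝ) : Prop :=
  ∃ A : Set ℕ, LD A ∧ ∃ C : ℝ, ∀ m : ℕ, ∃ R : ℕ, ∃ lam : ℕ → ℝ,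
    (∀ k, 0 ≤ lam k) ∧ (∑ k ∈ Finset.Ico m R, lam k = 1) ∧
    ∀ n ∈ A, ∑ k ∈ Finset.Ico (max m n) R, lam k * (‖β w k‖ / ‖β w (k - n)‖) ^ P ≤ C

lemma necessityB {w : ℕ → 𝕜} (hw : ∀ n, w n ≠ 0) {T : X 𝕜 p →L[𝕜] X 𝕜 p} (hp : p ≠ ⊤)
    (hT : ∀ x n, T x n = w (n+1) * x (n+1)) {M : Submodule 𝕜 (X 𝕜 p)}
    (hM : IsClosed (M : Set (X 𝕜 p))) (hinf : ¬ FiniteDimensional 𝕜 M)
    (hF : ∀ x ∈ M, x ≠ 0 → FHV T x) : CondB w p.toReal := by
  classical
  have hP := P_pos hp
  set P := p.toReal with hPdef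
  obtain ⟨C, hC, K, hK1, hunif⟩ := uniform hM hF
  have hvec := fun m => exists_vec hinf m
  choose e heM he1 he0 using hvec
  set D : ℕ → Set ℕ := fun j => {n | ∀ᶠ i in (𝒰 : Filter ℕ), ‖(⇑T)^[n] (e j + e i)‖ ≤ 2 * C} with hD
  set Gi : Set ℕ := {n | ∀ᶠ i in (𝒰 : Filter ℕ), ‖(⇑T)^[n] (e i)‖ ≤ 4 * C} with hGi
  -- counting
  have hcount : ∀ j N, K ≤ N → N ≤ 2 * K * cA (D j) N := by
    intro j N hN
    have h1 : ∀ᶠ i in (𝒰 : Filter ℕ), ∀ n ∈ Finset.range N,
        (n ∈ D j ↔ ‖(⇑T)^[n] (e j + e i)‖ ≤ 2 * C) := by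
      rw [Finset.eventually_all]
      intro n _
      by_cases hn : n ∈ D j
      · have hn' : ∀ᶠ i in (𝒰 : Filter ℕ), ‖(⇑T)^[n] (e j + e i)‖ ≤ 2 * C := hn
        filter_upwards [hn'] with i hi
        exact ⟨fun _ => hi, fun _ => hn⟩
      · have hn' : ∀ᶠ i in (𝒰 : Filter ℕ), ¬ ‖(⇑T)^[n] (e j + e i)‖ ≤ 2 * C :=
          Ultrafilter.eventually_not.2 hn
        filter_upwards [hn'] with i hi
        exact ⟨fun h => absurd h hn, fun h => absurd h hi⟩
    obtain ⟨i, hi⟩ := h1.exists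
    have h2 : cA (D j) N = cA {n | ‖(⇑T)^[n] (((1/2 : ℝ) : 𝕜) • (e j + e i))‖ ≤ C} N := by
      unfold cA
      congr 1
      apply Finset.filter_congr
      intro n hn
      rw [hi n hn]
      show _ ↔ ‖(⇑T)^[n] (((1/2 : ℝ) : 𝕜) • (e j + e i))‖ ≤ C
      rw [T_it_smul, norm_smul, RCLike.norm_ofReal, abs_of_nonneg (by norm_num : (0:ℝ) ≤ 1/2)]
      constructor <;> intro h <;> linarith
    rw [h2]
    apply hunif _ (M.smul_mem _ (M.add_mem (heM j) (heM i))) _ N hN
    rw [norm_smul, RCLike.norm_ofReal, abs_of_nonneg (by norm_num : (0:ℝ) ≤ 1/2)]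
    have := norm_add_le (e j) (e i)
    rw [he1, he1] at this
    linarith
  have hDsub : ∀ j n, n ∈ D j → ‖(⇑T)^[n] (e j)‖ ≤ 2 * C := by
    intro j n hn
    apply lp.norm_le_of_forall_sum_le hP (by positivity)
    intro s
    obtain ⟨B, hB⟩ : ∃ B, ∀ k ∈ s, k < B := ⟨s.sup id + 1, fun k hk =>
      Nat.lt_succ_of_le (Finset.le_sup (f := id) hk)⟩
    have hn' : ∀ᶠ i in (𝒰 : Filter ℕ), ‖(⇑T)^[n] (e j + e i)‖ ≤ 2 * C := hn
    obtain ⟨i, hi1, hi2⟩ := (hn'.and (𝒰_le (eventually_ge_atTop (B + n)))).exists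
    have h1 : ∀ k ∈ s, ‖((⇑T)^[n] (e j)) k‖ ^ P = ‖((⇑T)^[n] (e j + e i)) k‖ ^ P := by
      intro k hk
      congr 2
      rw [T_it_add, lp.coeFn_add, Pi.add_apply]
      have h2 := T_it hT n (e i) k
      have hlt := hB k hk
      rw [he0 i (k+n) (by omega), mul_zero] at h2
      have h3 : ((⇑T)^[n] (e i)) k = 0 := by
        rcases mul_eq_zero.1 h2 with h | h
        · exact h
        · exact absurd h (β_ne hw k)
      rw [h3, add_zero]
    rw [Finset.sum_congr rfl h1]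
    refine (lp.sum_rpow_le_norm_rpow hP _ s).trans ?_
    exact Real.rpow_le_rpow (norm_nonneg _) hi1 hP.le
  have hDG : ∀ j n, n ∈ D j → n ∈ Gi := by
    intro j n hn
    have hn' : ∀ᶠ i in (𝒰 : Filter ℕ), ‖(⇑T)^[n] (e j + e i)‖ ≤ 2 * C := hn
    have h1 := hDsub j n hn
    show ∀ᶠ i in (𝒰 : Filter ℕ), ‖(⇑T)^[n] (e i)‖ ≤ 4 * C
    filter_upwards [hn'] with i hi
    have h2 : (⇑T)^[n] (e i) = (⇑T)^[n] (e j + e i) - (⇑T)^[n] (e j) := by
      rw [T_it_add]; abel
    rw [h2]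
    exact (norm_sub_le _ _).trans (by linarith)
  have hnext : ∀ R : ℕ, ∃ j R', R ≤ j ∧ (∀ n < R, n ∈ Gi → ‖(⇑T)^[n] (e j)‖ ≤ 4 * C) ∧
      8 * K * (R+1) ≤ R' ∧ ((1:ℝ)/2)^P ≤ ∑ k ∈ Finset.range R', ‖e j k‖^P := by
    intro R
    have h1 : ∀ᶠ i in (𝒰 : Filter ℕ), ∀ n ∈ Finset.range R, n ∈ Gi → ‖(⇑T)^[n] (e i)‖ ≤ 4 * C := by
      rw [Finset.eventually_all]
      intro n _
      by_cases hn : n ∈ Gi
      · have hn' : ∀ᶠ i in (𝒰 : Filter ℕ), ‖(⇑T)^[n] (e i)‖ ≤ 4 * C := hn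
        filter_upwards [hn'] with i hi _ using hi
      · exact Eventually.of_forall (fun i h => absurd h hn)
    obtain ⟨j, hj1, hj2⟩ := (h1.and (𝒰_le (eventually_ge_atTop R))).exists
    have h2 := (lp.hasSum_norm hP (e j)).tendsto_sum_nat
    rw [he1, Real.one_rpow] at h2
    have h3 : ((1:ℝ)/2)^P < 1 := Real.rpow_lt_one (by norm_num) (by norm_num) hP
    obtain ⟨R', hR1, hR2⟩ := ((h2.eventually_const_lt h3).and
      (eventually_ge_atTop (8 * K * (R+1)))).exists
    exact ⟨j, R', hj2, fun n hn => hj1 n (Finset.mem_range.2 hn), hR2, hR1.le⟩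
  choose fj fR hfj hfG hfR hfS using hnext
  set Rs : ℕ → ℕ := fun l => Nat.rec 0 (fun _ R => fR R) l with hRs
  have hRs0 : Rs 0 = 0 := rfl
  have hRsS : ∀ l, Rs (l+1) = fR (Rs l) := fun l => rfl
  have hgrow : ∀ l, 8 * K * (Rs l + 1) ≤ Rs (l+1) := fun l => by rw [hRsS]; exact hfR _
  have hlt : ∀ l, Rs l < Rs (l+1) := by
    intro l
    have := hgrow l
    nlinarith
  have hmono : StrictMono Rs := strictMono_nat_of_lt_succ hlt
  have hge : ∀ l, l ≤ Rs l := fun l => hmono.le_apply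
  have h01 : Rs (0+1) = Rs 1 := rfl
  set js : ℕ → ℕ := fun l => fj (Rs l) with hjs
  set A : Set ℕ := {n | ∃ l, Rs l ≤ n ∧ n < Rs (l+1) ∧ n ∈ D (js l)} with hA
  refine ⟨A, ?_, (8 * C)^P, ?_⟩
  · rw [LD_iff]
    have hK1r : (1:ℝ) ≤ K := by exact_mod_cast hK1
    refine ⟨1 / (6 * K^2 + 2 * K), by positivity, Rs 1, ?_⟩
    intro N hN
    have hex : ∃ l, N < Rs (l+1) := ⟨N, lt_of_lt_of_le (Nat.lt_succ_self N) (hge (N+1))⟩
    have hl1 := Nat.find_spec hex
    set l := Nat.find hex with hl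
    have hl0 : l ≠ 0 := by
      intro h0
      rw [h0] at hl1
      omega
    obtain ⟨l', hl'⟩ : ∃ l', l = l' + 1 := ⟨l - 1, by omega⟩
    have hl2 : Rs l ≤ N := by
      have := Nat.find_min hex (m := l') (by omega)
      rw [hl']; omega
    have hsub : ∀ l N, Rs l ≤ N → N ≤ Rs (l+1) → cA (D (js l)) N ≤ Rs l + cA A N := by
      intro l N h1 h2
      unfold cA
      have h3 : (Finset.range N).filter (fun n => n ∈ D (js l)) ⊆
          Finset.range (Rs l) ∪ (Finset.range N).filter (fun n => n ∈ A) := by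
        intro n hn
        rw [Finset.mem_filter, Finset.mem_range] at hn
        rw [Finset.mem_union, Finset.mem_range, Finset.mem_filter, Finset.mem_range]
        by_cases h : n < Rs l
        · exact Or.inl h
        · exact Or.inr ⟨hn.1, l, by omega, by omega, hn.2⟩
      refine (Finset.card_le_card h3).trans ((Finset.card_union_le _ _).trans ?_)
      rw [Finset.card_range]
    have h1 : N ≤ 2 * K * (Rs l + cA A N) := by
      have hKN : K ≤ N := by
        have h3 := hgrow 0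
        rw [hRs0, h01] at h3
        have h4 : 8 * K ≤ Rs 1 := by linarith
        omega
      refine (hcount (js l) N hKN).trans ?_
      exact Nat.mul_le_mul_left _ (hsub l N hl2 hl1.le)
    have h2 : Rs l ≤ 2 * K * (Rs l' + cA A N) := by
      have hKR : K ≤ Rs l := by
        rw [hl']
        have h3 := hgrow l'
        nlinarith
      refine (hcount (js l') (Rs l) hKR).trans ?_
      apply Nat.mul_le_mul_left
      have h3 := hsub l' (Rs l) (by rw [hl']; exact (hlt l').le) (by rw [hl'])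
      have h4 : cA A (Rs l) ≤ cA A N := by
        unfold cA
        apply Finset.card_le_card
        apply Finset.filter_subset_filter
        exact Finset.range_mono hl2
      omega
    have h3 : 8 * K * (Rs l' + 1) ≤ Rs l := by rw [hl']; exact hgrow l'
    -- reals
    have h1r : (N:ℝ) ≤ 2 * K * (Rs l + cA A N) := by exact_mod_cast h1
    have h2r : (Rs l:ℝ) ≤ 2 * K * (Rs l' + cA A N) := by exact_mod_cast h2
    have h3r : 8 * (K:ℝ) * (Rs l' + 1) ≤ Rs l := by exact_mod_cast h3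
    have hc0 : (0:ℝ) ≤ cA A N := Nat.cast_nonneg _
    have h5 : (Rs l : ℝ) ≤ 3 * K * cA A N := by nlinarith
    rw [one_div, inv_mul_le_iff₀ (by positivity)]
    nlinarith
  · intro m
    set l := m with hl
    have hml : m ≤ Rs l := hge l
    have hjl : m ≤ js l := hml.trans (hfj _)
    set R := Rs (l+1) with hR
    set S : ℝ := ∑ k ∈ Finset.Ico m R, ‖e (js l) k‖^P with hS
    have hmR : m ≤ R := hml.trans (hlt l).le
    have hSge : ((1:ℝ)/2)^P ≤ S := by
      have h1 : ∑ k ∈ Finset.range R, ‖e (js l) k‖^P = S := by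
        rw [← Finset.sum_range_add_sum_Ico _ hmR, Finset.sum_eq_zero, zero_add]
        intro k hk
        rw [he0 (js l) k (by have := Finset.mem_range.1 hk; omega), norm_zero, Real.zero_rpow hP.ne']
      rw [← h1]
      exact hfS (Rs l)
    have hhalf : (0:ℝ) < (1/2)^P := by positivity
    have hSpos : 0 < S := lt_of_lt_of_le hhalf hSge
    refine ⟨R, fun k => ‖e (js l) k‖^P / S, fun k => by positivity, ?_, ?_⟩
    · rw [← Finset.sum_div, ← hS, div_self hSpos.ne']
    · intro n hn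
      obtain ⟨l1, hl1, hl2, hnD⟩ := hn
      have hterm : ∀ k ∈ Finset.Ico (max m n) R,
          ‖e (js l) k‖^P / S * (‖β w k‖ / ‖β w (k - n)‖)^P = ‖((⇑T)^[n] (e (js l))) (k - n)‖^P / S := by
        intro k hk
        rw [Finset.mem_Ico] at hk
        have hkn : n ≤ k := (le_max_right _ _).trans hk.1
        have h1 := T_it_norm hT n (e (js l)) (k - n)
        rw [Nat.sub_add_cancel hkn] at h1
        have h2 : ‖((⇑T)^[n] (e (js l))) (k - n)‖ = ‖e (js l) k‖ * (‖β w k‖ / ‖β w (k - n)‖) := by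
          rw [eq_comm, mul_div_assoc', div_eq_iff (b_pos hw _).ne', h1]; ring
        rw [h2, Real.mul_rpow (norm_nonneg _) (by positivity)]
        ring
      rw [Finset.sum_congr rfl hterm, ← Finset.sum_div, div_le_iff₀ hSpos]
      by_cases hnR : R ≤ n
      · have : Finset.Ico (max m n) R = ∅ := Finset.Ico_eq_empty (by
          intro h; have := lt_of_le_of_lt (le_max_right m n) h; omega)
        rw [this, Finset.sum_empty]; positivity
      · push Not at hnR
        have hl1l : l1 ≤ l := by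
          by_contra h
          push Not at h
          have : Rs (l+1) ≤ Rs l1 := hmono.monotone h
          omega
        have hnorm : ‖(⇑T)^[n] (e (js l))‖ ≤ 4 * C := by
          rcases Nat.eq_or_lt_of_le hl1l with h | h
          · rw [h] at hnD
            have := hDsub _ _ hnD
            linarith
          · have h1 : Rs (l1+1) ≤ Rs l := hmono.monotone h
            exact hfG (Rs l) n (by omega) (hDG _ _ hnD)
        have hsum : ∑ k ∈ Finset.Ico (max m n) R, ‖((⇑T)^[n] (e (js l))) (k - n)‖^P ≤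
            ‖(⇑T)^[n] (e (js l))‖^P := by
          have hinj : Set.InjOn (fun k => k - n) (Finset.Ico (max m n) R : Set ℕ) := by
            intro a ha b hb hab
            rw [Finset.coe_Ico, Set.mem_Ico] at ha hb
            have h1 : n ≤ a := (le_max_right _ _).trans ha.1
            have h2 : n ≤ b := (le_max_right _ _).trans hb.1
            simp only at hab
            omega
          rw [← Finset.sum_image (f := fun i => ‖((⇑T)^[n] (e (js l))) i‖^P)
            (g := fun k => k - n) hinj]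
          exact lp.sum_rpow_le_norm_rpow hP _ _
        calc _ ≤ ‖(⇑T)^[n] (e (js l))‖^P := hsum
          _ ≤ (4 * C)^P := Real.rpow_le_rpow (norm_nonneg _) hnorm hP.le
          _ = (8 * C)^P * (1/2)^P := by
              rw [← Real.mul_rpow (by positivity) (by norm_num)]
              congr 1; ring
          _ ≤ (8 * C)^P * S := mul_le_mul_of_nonneg_left hSge (by positivity)

lemma necessityA {w : ℕ → 𝕜} (hw : ∀ n, w n ≠ 0) {T : X 𝕜 p →L[𝕜] X 𝕜 p} (hp : p ≠ ⊤)
    (hT : ∀ x n, T x n = w (n+1) * x (n+1)) {M : Submodule 𝕜 (X 𝕜 p)}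
    (hinf : ¬ FiniteDimensional 𝕜 M)
    (hF : ∀ x ∈ M, x ≠ 0 → FHV T x) : Summable (fun n => (‖β w n‖⁻¹) ^ p.toReal) := by
  obtain ⟨x, hx, hx1, _⟩ := exists_vec hinf 0
  apply summable_of_FHV hw hp hT (hF x hx _)
  intro h
  rw [h, norm_zero] at hx1
  norm_num at hx1

end H342R3.FS
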