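import Mathlib

set_option autoImplicit false

namespace H342R3.Inv

/-- word lengths -/
def W : ℕ → ℕ
  | 0 => 2
  | m+1 => 2^(m+2) * W m

/-- types of units -/
def ty : ℕ → ℕ → ℕ
  | 0, _ => 0
  | m+1, r => if r < (2^(m+2) - 1) * W m then ty m (r % W m)
      else if r + 1 = W (m+1) then m+1 else 0

lemma W_succ (m : ℕ) : W (m+1) = 2^(m+2) * W m := rfl

lemma W_ge (m : ℕ) : m + 2 ≤ W m := by
  induction m with
  | zero => simp [W]
  | succ m ih =>
    rw [W_succ]
    have h1 : 1 < 2^(m+2) := Nat.one_lt_two_pow (by omega)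
    nlinarith

lemma W_pos (m : ℕ) : 0 < W m := by have := W_ge m; omega

lemma W_dvd_succ (m : ℕ) : W m ∣ W (m+1) := ⟨2^(m+2), by rw [W_succ]; ring⟩

lemma W_dvd {i m : ℕ} (h : i ≤ m) : W i ∣ W m := by
  induction m, h using Nat.le_induction with
  | base => exact dvd_rfl
  | succ m _ ih => exact ih.trans (W_dvd_succ m)

lemma W_mono {i m : ℕ} (h : i ≤ m) : W i ≤ W m := Nat.le_of_dvd (W_pos m) (W_dvd h)

lemma ty_le (m r : ℕ) : ty m r ≤ m := by
  induction m generalizing r with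
  | zero => simp [ty]
  | succ m ih =>
    unfold ty
    split_ifs
    · exact (ih _).trans (Nat.le_succ m)
    · exact le_rfl
    · exact Nat.zero_le _

lemma top_split (m : ℕ) : W (m+1) = (2^(m+2) - 1) * W m + W m := by
  rw [W_succ]
  have h1 : 1 ≤ 2^(m+2) := Nat.one_le_two_pow
  obtain ⟨k, hk⟩ := Nat.exists_eq_add_of_le h1
  rw [hk]
  have : 1 + k - 1 = k := by omega
  rw [this]; ring

lemma ty_zero (m : ℕ) : ty m 0 = 0 := by
  induction m with
  | zero => simp [ty]
  | succ m ih =>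
    have h1 : 1 < 2^(m+2) := Nat.one_lt_two_pow (by omega)
    have h2 : 0 < (2^(m+2) - 1) * W m := Nat.mul_pos (by omega) (W_pos m)
    unfold ty
    rw [if_pos h2, Nat.zero_mod, ih]

lemma ty_gap (m : ℕ) : ∀ r, r < W m → 1 ≤ ty m r →
    W (ty m r - 1) - 1 ≤ r ∧ ∀ t, 1 ≤ t → t ≤ W (ty m r - 1) - 1 → ty m (r - t) = 0 := by
  induction m with
  | zero => intro r _ h; simp [ty] at h
  | succ m ih =>
    intro r hr h
    by_cases hc : r < (2^(m+2) - 1) * W m
    · have e : ty (m+1) r = ty m (r % W m) := by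
        conv_lhs => unfold ty
        rw [if_pos hc]
      rw [e] at h ⊢
      have hlt : r % W m < W m := Nat.mod_lt _ (W_pos m)
      obtain ⟨h1, h2⟩ := ih _ hlt h
      have hle : r % W m ≤ r := Nat.mod_le _ _
      refine ⟨h1.trans hle, ?_⟩
      intro t ht1 ht2
      have h3 := h2 t ht1 ht2
      have ht : t ≤ r % W m := ht2.trans h1
      have hc' : r - t < (2^(m+2) - 1) * W m := by omega
      have e2 : ty (m+1) (r - t) = ty m ((r-t) % W m) := by
        conv_lhs => unfold ty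
        rw [if_pos hc']
      rw [e2]
      have e3 : (r - t) % W m = r % W m - t := by
        have h4 : r = W m * (r / W m) + r % W m := (Nat.div_add_mod r (W m)).symm
        have h5 : r - t = (r % W m - t) + W m * (r / W m) := by omega
        rw [h5, Nat.add_mul_mod_self_left]
        exact Nat.mod_eq_of_lt (by omega)
      rw [e3]; exact h3
    · by_cases hd : r + 1 = W (m+1)
      · have e : ty (m+1) r = m+1 := by
          conv_lhs => unfold ty
          rw [if_neg hc, if_pos hd]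
        rw [e]
        simp only [Nat.add_sub_cancel]
        have h1 := top_split m
        have h0 := W_pos m
        refine ⟨by omega, ?_⟩
        intro t ht1 ht2
        conv_lhs => unfold ty
        rw [if_neg (by omega), if_neg (by omega)]
      · have e : ty (m+1) r = 0 := by
          conv_lhs => unfold ty
          rw [if_neg hc, if_neg hd]
        omega

/-- number of units of type `i` among the first `N` -/
def cnt (m i N : ℕ) : ℕ := ((Finset.range N).filter (fun r => ty m (r % W m) = i)).card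

lemma ty_succ_eq {m i r : ℕ} (hi : i ≤ m) (hi1 : 1 ≤ i) :
    ty (m+1) (r % W (m+1)) = i ↔
      (r % W (m+1) < (2^(m+2) - 1) * W m ∧ ty m (r % W m) = i) := by
  have hmm : r % W (m+1) % W m = r % W m := Nat.mod_mod_of_dvd _ (W_dvd_succ m)
  constructor
  · intro h
    unfold ty at h
    split_ifs at h with h1 h2
    · rw [hmm] at h; exact ⟨h1, h⟩
    · omega
    · omega
  · rintro ⟨h1, h2⟩
    unfold ty
    rw [if_pos h1, hmm, h2]

lemma sub_facts {a w V r t : ℕ} (hV : V = a * w + w) (hw : 0 < w) (htop : a * w ≤ r % V)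
    (ht : t < a) : (r - (t+1) * w) % V = r % V - (t+1) * w ∧ (r - (t+1) * w) / V = r / V ∧
    (t+1) * w ≤ r := by
  have hle : (t+1) * w ≤ a * w := Nat.mul_le_mul_right _ ht
  have hmodle : r % V ≤ r := Nat.mod_le _ _
  have hVpos : 0 < V := by rw [hV]; omega
  have hlt : r % V < V := Nat.mod_lt _ hVpos
  have h4 : r = V * (r / V) + r % V := (Nat.div_add_mod r _).symm
  set x := (t+1) * w with hx
  have h5 : r - x = (r % V - x) + V * (r / V) := by omega
  refine ⟨?_, ?_, by omega⟩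
  · rw [h5, Nat.add_mul_mod_self_left, Nat.mod_eq_of_lt (by omega)]
  · rw [h5, Nat.add_mul_div_left _ _ hVpos, Nat.div_eq_of_lt (by omega)]; simp

lemma uniq_facts {a w p p' t t' : ℕ} (hp : a * w ≤ p) (hp2 : p < a * w + w)
    (hp' : a * w ≤ p') (hp2' : p' < a * w + w) (ht : t < a) (ht' : t' < a)
    (h : p - (t+1) * w = p' - (t'+1) * w) : t = t' := by
  have hle : (t+1) * w ≤ a * w := Nat.mul_le_mul_right _ ht
  have hle' : (t'+1) * w ≤ a * w := Nat.mul_le_mul_right _ ht'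
  rcases lt_trichotomy t t' with hlt3 | heq3 | hgt3
  · exfalso
    have : (t+1) * w + w ≤ (t'+1) * w := by nlinarith
    omega
  · exact heq3
  · exfalso
    have : (t'+1) * w + w ≤ (t+1) * w := by nlinarith
    omega

lemma cnt_step {m i N : ℕ} (hi : i ≤ m) (hi1 : 1 ≤ i) :
    (2^(m+2) - 1) * cnt m i N ≤ 2^(m+2) * cnt (m+1) i N := by
  classical
  obtain ⟨a, ha⟩ : ∃ a, a = 2^(m+2) - 1 := ⟨_, rfl⟩
  have h1 : 1 ≤ 2^(m+2) := Nat.one_le_two_pow
  have ha2 : 2^(m+2) = a + 1 := by omega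
  have hV : W (m+1) = a * W m + W m := by rw [W_succ, ha2]; ring
  have hw := W_pos m
  obtain ⟨A, hA⟩ : ∃ A, A = (Finset.range N).filter (fun r => ty m (r % W m) = i) := ⟨_, rfl⟩
  obtain ⟨S, hS⟩ : ∃ S, S = A.filter (fun r => ¬ (r % W (m+1) < a * W m)) := ⟨_, rfl⟩
  obtain ⟨B, hB⟩ : ∃ B, B = A.filter (fun r => (r % W (m+1) < a * W m)) := ⟨_, rfl⟩
  have hcard : A.card = B.card + S.card := by
    rw [hB, hS]; exact (Finset.card_filter_add_card_filter_not _).symm
  have hB' : cnt (m+1) i N = B.card := by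
    unfold cnt
    congr 1
    ext r
    simp only [hB, hA, Finset.mem_filter, Finset.mem_range]
    rw [ty_succ_eq hi hi1, ← ha]
    tauto
  have hA' : cnt m i N = A.card := by rw [hA]; rfl
  have hSm : ∀ r, r ∈ S → r < N ∧ ty m (r % W m) = i ∧ a * W m ≤ r % W (m+1) := by
    intro r hr
    rw [hS, Finset.mem_filter, hA, Finset.mem_filter, Finset.mem_range, not_lt] at hr
    exact ⟨hr.1.1, hr.1.2, hr.2⟩
  have hBm : ∀ r, r ∈ B ↔ r < N ∧ ty m (r % W m) = i ∧ r % W (m+1) < a * W m := by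
    intro r
    rw [hB, Finset.mem_filter, hA, Finset.mem_filter, Finset.mem_range, and_assoc]
  have hinj : a * S.card ≤ B.card := by
    have : (Finset.range a ×ˢ S).card ≤ B.card := by
      apply Finset.card_le_card_of_injOn (fun p => p.2 - (p.1 + 1) * W m)
      · rintro ⟨t, r⟩ hp
        rw [Finset.mem_coe, Finset.mem_product, Finset.mem_range] at hp
        obtain ⟨ht, hr⟩ := hp
        obtain ⟨hrN, hrt, hrtop⟩ := hSm r hr
        simp only at ht
        obtain ⟨f1, f2, f3⟩ := sub_facts hV hw hrtop ht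
        rw [Finset.mem_coe, hBm]
        simp only
        refine ⟨by omega, ?_, ?_⟩
        · have : (r - (t+1) * W m) % W m = r % W m := by
            have h5 : r = (r - (t+1) * W m) + (t+1) * W m := by omega
            conv_rhs => rw [h5]
            rw [Nat.add_mul_mod_self_right]
          rw [this]; exact hrt
        · rw [f1]
          have hlt : r % W (m+1) < W (m+1) := Nat.mod_lt _ (W_pos _)
          have h7 : W m ≤ (t+1) * W m := by nlinarith
          have h8 : (t+1) * W m ≤ a * W m := Nat.mul_le_mul_right _ ht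
          omega
      · rintro ⟨t, r⟩ hp ⟨t', r'⟩ hp' heq
        rw [Finset.mem_coe, Finset.mem_product, Finset.mem_range] at hp hp'
        obtain ⟨ht, hr⟩ := hp
        obtain ⟨ht', hr'⟩ := hp'
        obtain ⟨hrN, hrt, hrtop⟩ := hSm r hr
        obtain ⟨hrN', hrt', hrtop'⟩ := hSm r' hr'
        simp only at ht ht' heq
        obtain ⟨f1, f2, f3⟩ := sub_facts hV hw hrtop ht
        obtain ⟨f1', f2', f3'⟩ := sub_facts hV hw hrtop' ht'
        have hlt : r % W (m+1) < W (m+1) := Nat.mod_lt _ (W_pos _)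
        have hlt' : r' % W (m+1) < W (m+1) := Nat.mod_lt _ (W_pos _)
        have htt : t = t' := by
          apply uniq_facts hrtop (by omega) hrtop' (by omega) ht ht'
          rw [← f1, ← f1', heq]
        subst htt
        have : r = r' := by omega
        rw [this]
    rwa [Finset.card_product, Finset.card_range] at this
  rw [ha2, hB', hA', hcard]
  have : a + 1 - 1 = a := by omega
  rw [this]
  nlinarith

lemma cnt_base {i N : ℕ} (hi1 : 1 ≤ i) : N / W i ≤ cnt i i N := by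
  classical
  unfold cnt
  have h : (Finset.range (N / W i)).card ≤
      ((Finset.range N).filter (fun r => ty i (r % W i) = i)).card := by
    apply Finset.card_le_card_of_injOn (fun d => d * W i + (W i - 1))
    · intro d hd
      simp only [Finset.coe_range, Set.mem_Iio] at hd
      simp only [Finset.mem_coe, Finset.mem_filter, Finset.mem_range]
      have h0 := W_pos i
      have h1 : (d+1) * W i ≤ N := by
        calc (d+1) * W i ≤ (N / W i) * W i := Nat.mul_le_mul_right _ hd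
          _ ≤ N := Nat.div_mul_le_self _ _
      refine ⟨by nlinarith [Nat.sub_add_cancel h0], ?_⟩
      have h2 : (d * W i + (W i - 1)) % W i = W i - 1 := by
        rw [mul_comm, Nat.mul_add_mod]; exact Nat.mod_eq_of_lt (by omega)
      rw [h2]
      obtain ⟨m, rfl⟩ : ∃ m, i = m+1 := ⟨i-1, by omega⟩
      unfold ty
      have h6 := top_split m
      have := W_ge m
      rw [if_neg (by omega), if_pos (by omega)]
    · intro d _ d' _ h
      simp only at h
      have h0 := W_pos i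
      exact Nat.eq_of_mul_eq_mul_right h0 (by omega)
  simpa using h

lemma cnt_bound {i m N : ℕ} (hi1 : 1 ≤ i) (him : i ≤ m) :
    (1/2 + (1/2)^(m+1) : ℝ) * (cnt i i N : ℝ) ≤ (cnt m i N : ℝ) := by
  induction m, him using Nat.le_induction with
  | base =>
    have h1 : (1/2 + (1/2)^(i+1) : ℝ) ≤ 1 := by
      have : ((1:ℝ)/2)^(i+1) ≤ (1/2)^1 := pow_le_pow_of_le_one (by norm_num) (by norm_num) (by omega)
      linarith
    have h0 : (0:ℝ) ≤ (cnt i i N : ℝ) := Nat.cast_nonneg _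
    nlinarith
  | succ m hm ih =>
    have h := cnt_step (N := N) hm hi1
    have h' : ((2^(m+2) - 1 : ℕ) : ℝ) * (cnt m i N : ℝ) ≤ (2^(m+2) : ℝ) * (cnt (m+1) i N : ℝ) := by
      exact_mod_cast h
    have h1 : 1 ≤ 2^(m+2) := Nat.one_le_two_pow
    rw [Nat.cast_sub h1] at h'
    push_cast at h'
    set e : ℝ := (1/2)^(m+2) with he
    have he0 : 0 < e := by positivity
    have he2 : e * 2^(m+2) = 1 := by rw [he, ← mul_pow]; norm_num
    have he3 : e ≤ 1/4 := by
      rw [he]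
      calc ((1:ℝ)/2)^(m+2) ≤ (1/2)^2 := pow_le_pow_of_le_one (by norm_num) (by norm_num) (by omega)
        _ = 1/4 := by norm_num
    have h2 : (1 - e) * (cnt m i N : ℝ) ≤ (cnt (m+1) i N : ℝ) := by
      have := mul_le_mul_of_nonneg_left h' he0.le
      have e1 : e * ((2^(m+2) - 1) * (cnt m i N : ℝ)) = (1 - e) * (cnt m i N : ℝ) := by
        have : e * ((2^(m+2) - 1) * (cnt m i N : ℝ)) = (e * 2^(m+2) - e) * (cnt m i N : ℝ) := by ring
        rw [this, he2]
      have e2 : e * (2^(m+2) * (cnt (m+1) i N : ℝ)) = (cnt (m+1) i N : ℝ) := by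
        rw [← mul_assoc, he2, one_mul]
      rw [e1, e2] at this
      exact this
    have e3 : ((1:ℝ)/2)^(m+1) = 2 * e := by rw [he]; ring
    rw [e3] at ih
    have h0 : (0:ℝ) ≤ (cnt i i N : ℝ) := Nat.cast_nonneg _
    have e4 : ((1:ℝ)/2)^(m+1+1) = e := rfl
    calc (1/2 + e) * (cnt i i N : ℝ) ≤ (1 - e) * ((1/2 + 2*e) * (cnt i i N : ℝ)) := by
          have : (1/2 + e) ≤ (1-e) * (1/2 + 2*e) := by nlinarith
          nlinarith
      _ ≤ (1 - e) * (cnt m i N : ℝ) := by
          apply mul_le_mul_of_nonneg_left ih; linarith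
      _ ≤ _ := h2

lemma cnt_final {i m N : ℕ} (hi1 : 1 ≤ i) (him : i ≤ m) :
    (N : ℝ) / (2 * W i) - 1 ≤ (cnt m i N : ℝ) := by
  have h1 := cnt_bound (N := N) hi1 him
  have h2 : ((N / W i : ℕ) : ℝ) ≤ (cnt i i N : ℝ) := by exact_mod_cast cnt_base hi1
  have h3 : (N : ℝ) / W i - 1 ≤ ((N / W i : ℕ) : ℝ) := by
    have h0 : (0:ℝ) < W i := by exact_mod_cast W_pos i
    have h4 : N < (N / W i + 1) * W i := Nat.lt_mul_of_div_lt (Nat.lt_succ_self _) (W_pos i)
    have h5 : (N:ℝ) < ((N / W i : ℕ) + 1) * W i := by exact_mod_cast h4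
    rw [sub_le_iff_le_add, div_le_iff₀ h0]
    linarith
  have h6 : (0:ℝ) < ((1:ℝ)/2)^(m+1) := by positivity
  have h0 : (0:ℝ) ≤ (cnt i i N : ℝ) := Nat.cast_nonneg _
  have h7 : (1/2 : ℝ) * (cnt i i N : ℝ) ≤ (cnt m i N : ℝ) := by nlinarith
  have h8 : (N : ℝ) / (2 * W i) = (1/2) * ((N : ℝ) / W i) := by
    rw [mul_comm (2:ℝ), ← div_div]; ring
  rw [h8]
  linarith

/-! ### parameters -/

lemma exists_c (C D : ℕ) (hD : 0 < D) : ∃ c : ℕ, 0 < c ∧ C * (D * c) ≤ 2 ^ (D * c) := by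
  -- take `D * c ≥` large
  have h : Filter.Tendsto (fun n : ℕ => (n:ℝ) ^ 1 / (2:ℝ) ^ n) Filter.atTop (nhds 0) :=
    tendsto_pow_const_div_const_pow_of_one_lt 1 (by norm_num)
  have h2 : ∀ᶠ n : ℕ in Filter.atTop, (n:ℝ)^1 / (2:ℝ)^n < 1 / ((C:ℝ) + 1) :=
    h.eventually_lt_const (by positivity)
  obtain ⟨n0, hn0⟩ := Filter.eventually_atTop.1 h2
  refine ⟨n0 + 1, Nat.succ_pos _, ?_⟩
  have h3 := hn0 (D * (n0+1)) (by nlinarith)
  rw [div_lt_div_iff₀ (by positivity) (by positivity)] at h3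
  have h4 : ((C * (D * (n0+1)) : ℕ) : ℝ) ≤ ((2 ^ (D * (n0+1)) : ℕ) : ℝ) := by
    push_cast
    push_cast at h3
    have h5 : (0:ℝ) ≤ (D:ℝ) * ((n0:ℝ)+1) := by positivity
    nlinarith
  exact_mod_cast h4

/-- `C`-constant of level `l` for bound `G` -/
def Cst (l G : ℕ) : ℕ := 2^(2*l+3) * (l+4) * W (l+1) * (2*(l+1)*G) * 4

noncomputable def cc (l D G : ℕ) (hD : 0 < D) : ℕ := (exists_c (Cst l G) D hD).choose

/-- the recursive state: (period of the previous levels, bound of the vectors g) -/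
noncomputable def st : ℕ → {p : ℕ × ℕ // 0 < p.1 ∧ 0 < p.2}
  | 0 => ⟨(1, 1), by simp⟩
  | l+1 =>
    let D := (st l).1.1
    let G := (st l).1.2
    let K := 2 * (l+1) * G
    let τ := D * cc l D G (st l).2.1
    let Δ := W (l+1) * (4 * τ)
    let M := 2^(l+2) * (l+4) * Δ * K
    ⟨(Δ, M + K), by
      have h1 := (st l).2.1
      have h2 := (st l).2.2
      have h3 : 0 < cc l D G (st l).2.1 := (exists_c (Cst l G) D h1).choose_spec.1
      refine ⟨?_, ?_⟩
      · exact Nat.mul_pos (W_pos _) (Nat.mul_pos (by norm_num) (Nat.mul_pos h1 h3))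
      · exact Nat.add_pos_right _ (Nat.mul_pos (by omega) h2)⟩

noncomputable def Dp (l : ℕ) : ℕ := (st l).1.1
noncomputable def G (l : ℕ) : ℕ := (st l).1.2
noncomputable def K (l : ℕ) : ℕ := 2 * (l+1) * G l
noncomputable def τ (l : ℕ) : ℕ := Dp l * cc l (Dp l) (G l) (st l).2.1
noncomputable def q (l : ℕ) : ℕ := 4 * τ l
noncomputable def Δ (l : ℕ) : ℕ := W (l+1) * q l
noncomputable def M (l : ℕ) : ℕ := 2^(l+2) * (l+4) * Δ l * K l

lemma Dp_zero : Dp 0 = 1 := rfl
lemma G_zero : G 0 = 1 := rfl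
lemma Dp_succ (l : ℕ) : Dp (l+1) = Δ l := rfl
lemma G_succ (l : ℕ) : G (l+1) = M l + K l := rfl
lemma Dp_pos (l : ℕ) : 0 < Dp l := (st l).2.1
lemma G_pos (l : ℕ) : 0 < G l := (st l).2.2
lemma K_pos (l : ℕ) : 0 < K l := Nat.mul_pos (by omega) (G_pos l)
lemma τ_pos (l : ℕ) : 0 < τ l :=
  Nat.mul_pos (Dp_pos l) (exists_c (Cst l (G l)) (Dp l) (Dp_pos l)).choose_spec.1
lemma q_pos (l : ℕ) : 0 < q l := Nat.mul_pos (by norm_num) (τ_pos l)
lemma Δ_pos (l : ℕ) : 0 < Δ l := Nat.mul_pos (W_pos _) (q_pos l)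
lemma M_pos (l : ℕ) : 0 < M l :=
  Nat.mul_pos (Nat.mul_pos (Nat.mul_pos (by positivity) (by omega)) (Δ_pos l)) (K_pos l)

lemma Dp_dvd_τ (l : ℕ) : Dp l ∣ τ l := Dvd.intro _ rfl
lemma Dp_dvd_q (l : ℕ) : Dp l ∣ q l := (Dp_dvd_τ l).trans (Dvd.intro_left _ rfl)
lemma q_dvd_Δ (l : ℕ) : q l ∣ Δ l := Dvd.intro_left _ rfl
lemma Dp_dvd_Δ (l : ℕ) : Dp l ∣ Δ l := (Dp_dvd_q l).trans (q_dvd_Δ l)

lemma Dp_dvd {k l : ℕ} (h : k ≤ l) : Dp k ∣ Dp l := by
  induction l, h using Nat.le_induction with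
  | base => exact dvd_rfl
  | succ m _ ih => exact ih.trans (by rw [Dp_succ]; exact Dp_dvd_Δ m)

lemma Δ_dvd_Dp {k l : ℕ} (h : k < l) : Δ k ∣ Dp l := by
  rw [← Dp_succ]; exact Dp_dvd h

lemma Dp_mono {k l : ℕ} (h : k ≤ l) : Dp k ≤ Dp l := Nat.le_of_dvd (Dp_pos l) (Dp_dvd h)

lemma Dp_le_τ (l : ℕ) : Dp l ≤ τ l := Nat.le_of_dvd (τ_pos l) (Dp_dvd_τ l)
lemma τ_le_q (l : ℕ) : τ l ≤ q l := by unfold q; omega
lemma q_le_Δ (l : ℕ) : q l ≤ Δ l := Nat.le_of_dvd (Δ_pos l) (q_dvd_Δ l)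

lemma G_mono {k l : ℕ} (h : k ≤ l) : G k ≤ G l := by
  induction l, h using Nat.le_induction with
  | base => exact le_rfl
  | succ m _ ih =>
    refine ih.trans ?_
    rw [G_succ]
    have : G m ≤ K m := by
      unfold K
      exact Nat.le_mul_of_pos_left _ (by omega)
    omega

lemma M_trans (l : ℕ) : M l * 2^(l+1) ≤ 2 ^ (τ l) := by
  have h := (exists_c (Cst l (G l)) (Dp l) (Dp_pos l)).choose_spec.2
  have h2 : Cst l (G l) * τ l ≤ 2 ^ (τ l) := h
  have h3 : M l * 2^(l+1) = Cst l (G l) * τ l := by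
    unfold M Cst Δ q K
    ring
  rw [h3]; exact h2

lemma l_lt_Dp (l : ℕ) : l < Dp l := by
  induction l with
  | zero => rw [Dp_zero]; norm_num
  | succ l ih =>
    rw [Dp_succ]
    unfold Δ
    have h1 := W_ge (l+1)
    have h2 : Dp l ≤ q l := (Dp_le_τ l).trans (τ_le_q l)
    nlinarith

lemma M_big (l : ℕ) : 2 * (1:ℝ)  ≤ M l := by
  have h : 2 ≤ M l := by
    unfold M
    have h1 := Δ_pos l
    have h2 := K_pos l
    have h3 : 4 ≤ 2^(l+2) := by
      calc 4 = 2^2 := by norm_num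
        _ ≤ 2^(l+2) := Nat.pow_le_pow_right (by norm_num) (by omega)
    calc 2 ≤ 4 * 4 * 1 * 1 := by norm_num
      _ ≤ 2^(l+2) * (l+4) * Δ l * K l := by gcongr <;> omega
  have : (2:ℝ) ≤ M l := by exact_mod_cast h
  linarith

end H342R3.Inv
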