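import Pool.Agent.H342R3.FS4
import Pool.Agent.H342R3.InvA

set_option autoImplicit false
set_option maxHeartbeats 1000000
set_option synthInstance.maxHeartbeats 400000
set_option linter.unusedSectionVars false
set_option linter.unusedVariables false

namespace H342R3.FS

open scoped ENNReal
open Filter H342R3.Inv

lemma ty_stable1 (m r : ℕ) (h : r < W m) : ty (m+1) r = ty m r := by
  have h1 : 1 < 2^(m+2) := Nat.one_lt_two_pow (by omega)
  have h2 : r < (2^(m+2) - 1) * W m := by
    have : W m ≤ (2^(m+2) - 1) * W m := Nat.le_mul_of_pos_left _ (by omega)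
    omega
  conv_lhs => unfold ty
  rw [if_pos h2, Nat.mod_eq_of_lt h]

lemma ty_stable {m m' : ℕ} (hm : m ≤ m') {r : ℕ} (h : r < W m) : ty m' r = ty m r := by
  induction m', hm using Nat.le_induction with
  | base => rfl
  | succ k hk ih => rw [ty_stable1 k r (lt_of_lt_of_le h (W_mono hk)), ih]

/-- the infinite word -/
def sg (r : ℕ) : ℕ := ty r r

lemma sg_eq {m r : ℕ} (h : r < W m) : ty m r = sg r := by
  unfold sg
  have hr : r < W r := by have := W_ge r; omega
  rcases le_total m r with h1 | h1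
  · exact (ty_stable h1 h).symm
  · exact ty_stable h1 hr

lemma sg_gap {r : ℕ} (h : 1 ≤ sg r) : W (sg r - 1) - 1 ≤ r ∧
    ∀ t, 1 ≤ t → t ≤ W (sg r - 1) - 1 → sg (r - t) = 0 := by
  have hr : r < W r := by have := W_ge r; omega
  obtain ⟨h1, h2⟩ := ty_gap r r hr h
  refine ⟨h1, fun t ht1 ht2 => ?_⟩
  have h3 := h2 t ht1 ht2
  rwa [sg_eq (by omega)] at h3

lemma sg_sep {r r' : ℕ} (h : sg r ≠ 0) (h' : sg r' ≠ 0) (hlt : r < r') :
    W (sg r' - 1) ≤ r' - r := by
  by_contra hcon
  push Not at hcon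
  obtain ⟨h1, h2⟩ := sg_gap (r := r') (by omega)
  have := h2 (r' - r) (by omega) (by omega)
  have h3 : r' - (r' - r) = r := by omega
  rw [h3] at this
  exact h this

lemma sg_count {k N : ℕ} (hk : 1 ≤ k) :
    (N : ℝ) / (2 * W k) - 1 ≤ (((Finset.range N).filter (fun r => sg r = k)).card : ℝ) := by
  set m := max N k with hm
  have h1 := cnt_final (N := N) hk (le_max_right N k)
  refine h1.trans (le_of_eq ?_)
  congr 1
  unfold cnt
  congr 1
  apply Finset.filter_congr
  intro r hr
  rw [Finset.mem_range] at hr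
  have h2 : r < W m := by
    have := W_ge m
    have : N ≤ m := le_max_left _ _
    omega
  rw [Nat.mod_eq_of_lt h2, sg_eq h2]

lemma card_le_cA {F : Finset ℕ} {g : ℕ → ℕ} {A : Set ℕ} {N : ℕ}
    (h : ∀ n ∈ F, g n < N ∧ g n ∈ A) (hinj : Set.InjOn g (F : Set ℕ)) : F.card ≤ cA A N := by
  classical
  unfold cA
  apply Finset.card_le_card_of_injOn g _ hinj
  intro n hn
  rw [Finset.mem_coe, Finset.mem_filter, Finset.mem_range]
  exact h n hn

/-- well separated sets of positive lower density -/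
lemma sep_sets (ν : ℕ → ℕ) : ∃ I : ℕ → Set ℕ, (∀ s, LD (I s)) ∧
    (∀ s s' i i', i ∈ I s → i' ∈ I s' → i < i' → ν s + ν s' ≤ i' - i) ∧
    (∀ s i, i ∈ I s → ν s ≤ i) ∧ (∀ s s' i, i ∈ I s → i ∈ I s' → s = s') := by
  classical
  set κ : ℕ → ℕ := fun s => 1 + s + ∑ t ∈ Finset.range (s+1), 2 * ν t with hκ
  have hκmono : StrictMono κ := by
    apply strictMono_nat_of_lt_succ
    intro s
    simp only [hκ]
    rw [Finset.sum_range_succ _ (s+1)]
    omega
  have hκge : ∀ s, 2 * ν s + 1 ≤ κ s := by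
    intro s
    simp only [hκ]
    have : 2 * ν s ≤ ∑ t ∈ Finset.range (s+1), 2 * ν t :=
      Finset.single_le_sum (f := fun t => 2 * ν t) (fun _ _ => Nat.zero_le _)
        (Finset.mem_range.2 (Nat.lt_succ_self s))
    omega
  have hWκ : ∀ s, 2 * ν s + 2 ≤ W (κ s - 1) := by
    intro s
    have h1 := W_ge (κ s - 1)
    have h2 := hκge s
    omega
  refine ⟨fun s => {i | sg (i + ν s) = κ s}, ?_, ?_, ?_, ?_⟩
  · intro s
    rw [LD_iff]
    have hWr : (2:ℝ) ≤ W (κ s) := by have := W_ge (κ s); exact_mod_cast (by omega : 2 ≤ W (κ s))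
    refine ⟨1 / (4 * W (κ s)), by positivity, 4 * W (κ s), ?_⟩
    intro N hN
    have h1 := sg_count (k := κ s) (N := N) (by have := hκge s; omega)
    have h2 : ((Finset.range N).filter (fun r => sg r = κ s)).card ≤
        cA {i | sg (i + ν s) = κ s} N := by
      apply card_le_cA (g := fun r => r - ν s)
      · intro r hr
        rw [Finset.mem_filter, Finset.mem_range] at hr
        obtain ⟨h3, _⟩ := sg_gap (r := r) (by rw [hr.2]; have := hκge s; omega)
        rw [hr.2] at h3
        have h4 := hWκ s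
        refine ⟨?_, ?_⟩
        · show r - ν s < N
          omega
        · show sg (r - ν s + ν s) = κ s
          rw [Nat.sub_add_cancel (by omega)]; exact hr.2
      · intro r hr r' hr' h
        rw [Finset.mem_coe, Finset.mem_filter, Finset.mem_range] at hr hr'
        obtain ⟨h3, _⟩ := sg_gap (r := r) (by rw [hr.2]; have := hκge s; omega)
        obtain ⟨h3', _⟩ := sg_gap (r := r') (by rw [hr'.2]; have := hκge s; omega)
        rw [hr.2] at h3
        rw [hr'.2] at h3'
        have h4 := hWκ s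
        simp only at h
        omega
    have h2r : (((Finset.range N).filter (fun r => sg r = κ s)).card : ℝ) ≤
        (cA {i | sg (i + ν s) = κ s} N : ℝ) := by exact_mod_cast h2
    refine le_trans ?_ (h1.trans h2r)
    have hNr : 4 * (W (κ s) : ℝ) ≤ N := by exact_mod_cast hN
    have h5 : 1 / (4 * (W (κ s) : ℝ)) * N = (N : ℝ) / (2 * W (κ s)) - (N:ℝ) / (4 * W (κ s)) := by
      field_simp; norm_num
    rw [h5]
    have h6 : 1 ≤ (N:ℝ) / (4 * W (κ s)) := by
      rw [le_div_iff₀ (by positivity)]; linarith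
    linarith
  · intro s s' i i' hi hi' hlt
    have hi1 : sg (i + ν s) = κ s := hi
    have hi1' : sg (i' + ν s') = κ s' := hi'
    have h1 := hκge s
    have h1' := hκge s'
    have hW := hWκ s
    have hW' := hWκ s'
    rcases lt_trichotomy (i + ν s) (i' + ν s') with h | h | h
    · have h2 := sg_sep (by omega) (by omega) h
      rw [hi1'] at h2
      omega
    · rw [h, hi1'] at hi1
      have := hκmono.injective hi1
      subst this
      omega
    · have h2 := sg_sep (by omega) (by omega) h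
      rw [hi1] at h2
      omega
  · intro s i hi
    have hi1 : sg (i + ν s) = κ s := hi
    obtain ⟨h3, _⟩ := sg_gap (r := i + ν s) (by rw [hi1]; have := hκge s; omega)
    rw [hi1] at h3
    have := hWκ s
    omega
  · intro s s' i hi hi'
    have hi1 : sg (i + ν s) = κ s := hi
    have hi1' : sg (i + ν s') = κ s' := hi'
    have h1 := hκge s
    have h1' := hκge s'
    have hW := hWκ s
    have hW' := hWκ s'
    rcases lt_trichotomy (i + ν s) (i + ν s') with h | h | h
    · have h2 := sg_sep (by omega) (by omega) h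
      rw [hi1'] at h2
      omega
    · rw [h, hi1'] at hi1
      exact (hκmono.injective hi1).symm
    · have h2 := sg_sep (by omega) (by omega) h
      rw [hi1] at h2
      omega

lemma sep_sets_in {A : Set ℕ} (hA : LD A) (ν : ℕ → ℕ) : ∃ I : ℕ → Set ℕ, (∀ s, LD (I s)) ∧
    (∀ s s' i i', i ∈ I s → i' ∈ I s' → i < i' → ν s + ν s' ≤ i' - i) ∧
    (∀ s i, i ∈ I s → ν s ≤ i) ∧ (∀ s s' i, i ∈ I s → i ∈ I s' → s = s') ∧
    (∀ s, I s ⊆ A) := by
  classical
  obtain ⟨I, hI1, hI2, hI3, hI4⟩ := sep_sets ν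
  rw [LD_iff] at hA
  obtain ⟨δ, hδ, N₀, hN₀⟩ := hA
  have hinf : (setOf (fun n => n ∈ A)).Infinite := by
    intro hfin
    have hfin' : A.Finite := hfin
    obtain ⟨B, hB⟩ := exists_nat_gt ((hfin'.toFinset.card : ℝ) / δ)
    have h1 := hN₀ (max N₀ B) (le_max_left _ _)
    have h2 : cA A (max N₀ B) ≤ hfin'.toFinset.card := by
      unfold cA
      apply Finset.card_le_card
      intro n hn
      rw [Finset.mem_filter] at hn
      rw [Set.Finite.mem_toFinset]
      exact hn.2
    have h3 : (cA A (max N₀ B) : ℝ) ≤ hfin'.toFinset.card := by exact_mod_cast h2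
    rw [div_lt_iff₀ hδ] at hB
    have h4 : (B:ℝ) ≤ ((max N₀ B : ℕ) : ℝ) := by exact_mod_cast le_max_right _ _
    have h5 : (B:ℝ) * δ ≤ ((max N₀ B : ℕ) : ℝ) * δ := mul_le_mul_of_nonneg_right h4 hδ.le
    linarith
  set a : ℕ → ℕ := Nat.nth (fun n => n ∈ A) with ha
  have hmono : StrictMono a := Nat.nth_strictMono hinf
  have hdiff : ∀ i j, i ≤ j → j - i ≤ a j - a i := by
    intro i j hij
    induction j, hij using Nat.le_induction with
    | base => omega
    | succ k hk ih =>
      have := hmono (show k < k + 1 by omega)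
      have h2 := hmono.monotone hk
      omega
  refine ⟨fun s => a '' (I s), ?_, ?_, ?_, ?_, ?_⟩
  · intro s
    obtain ⟨δ', hδ', N₁, hN₁⟩ := (LD_iff _).1 (hI1 s)
    rw [LD_iff]
    obtain ⟨B, hB⟩ := exists_nat_ge ((N₁ : ℝ) / δ)
    refine ⟨δ' * δ, by positivity, max N₀ B, ?_⟩
    intro N hN
    have h1 := hN₀ N ((le_max_left _ _).trans hN)
    have hBN : (B:ℝ) ≤ N := by exact_mod_cast (le_max_right _ _).trans hN
    have h2 : (N₁ : ℝ) ≤ cA A N := by
      rw [div_le_iff₀ hδ] at hB
      have : (B:ℝ) * δ ≤ N * δ := mul_le_mul_of_nonneg_right hBN hδ.le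
      linarith
    have h3 := hN₁ (cA A N) (by exact_mod_cast h2)
    have h4 : cA (I s) (cA A N) ≤ cA (a '' (I s)) N := by
      unfold cA
      apply Finset.card_le_card_of_injOn a
      · intro i hi
        rw [Finset.mem_coe, Finset.mem_filter, Finset.mem_range] at hi
        rw [Finset.mem_coe, Finset.mem_filter, Finset.mem_range]
        refine ⟨?_, ⟨i, hi.2, rfl⟩⟩
        apply Nat.nth_lt_of_lt_count
        rw [Nat.count_eq_card_filter_range]
        exact hi.1
      · intro i _ j _ h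
        exact hmono.injective h
    have h4r : (cA (I s) (cA A N) : ℝ) ≤ (cA (a '' (I s)) N : ℝ) := by exact_mod_cast h4
    calc δ' * δ * N = δ' * (δ * N) := by ring
      _ ≤ δ' * cA A N := mul_le_mul_of_nonneg_left h1 hδ'.le
      _ ≤ _ := h3.trans h4r
  · rintro s s' _ _ ⟨i, hi, rfl⟩ ⟨i', hi', rfl⟩ hlt
    have h1 : i < i' := hmono.lt_iff_lt.1 hlt
    exact (hI2 s s' i i' hi hi' h1).trans (hdiff i i' h1.le)
  · rintro s _ ⟨i, hi, rfl⟩
    exact (hI3 s i hi).trans hmono.le_apply
  · rintro s s' _ ⟨i, hi, rfl⟩ ⟨i', hi', h⟩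
    have := hmono.injective h
    subst this
    exact hI4 s s' _ hi hi'
  · rintro s _ ⟨i, hi, rfl⟩
    exact Nat.nth_mem_of_infinite hinf i

end H342R3.FS
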