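import Pool.Agent.H342R3.FS5

set_option autoImplicit false
set_option maxHeartbeats 1000000
set_option synthInstance.maxHeartbeats 400000
set_option linter.unusedSectionVars false
set_option linter.unusedVariables false

namespace H342R3.FS

open scoped ENNReal
open Filter

variable {𝕜 : Type} [RCLike 𝕜] {p : ℝ≥0∞} [Fact (1 ≤ p)]

lemma norm_le_of_range {hP : 0 < p.toReal} {C : ℝ} (hC : 0 ≤ C) {f : X 𝕜 p}
    (h : ∀ K, ∑ k ∈ Finset.range K, ‖f k‖ ^ p.toReal ≤ C ^ p.toReal) : ‖f‖ ≤ C := by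
  apply lp.norm_le_of_forall_sum_le hP hC
  intro s
  obtain ⟨B, hB⟩ : ∃ B, s ⊆ Finset.range B := ⟨s.sup id + 1, fun k hk =>
    Finset.mem_range.2 (Nat.lt_succ_of_le (Finset.le_sup (f := id) hk))⟩
  refine (Finset.sum_le_sum_of_subset_of_nonneg hB ?_).trans (h B)
  intro i _ _; positivity

/-- selection operators -/
noncomputable def selOp (hP : 0 < p.toReal) (φ : ℕ → ℕ) (c : ℕ → 𝕜) (B : ℝ) (hB0 : 0 ≤ B)
    (hB : ∀ (a : X 𝕜 p) (K : ℕ), ∑ k ∈ Finset.range K, ‖a (φ k) * c k‖ ^ p.toReal ≤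
      (B * ‖a‖) ^ p.toReal) : X 𝕜 p →L[𝕜] X 𝕜 p :=
  LinearMap.mkContinuous
    { toFun := fun a => ⟨fun k => a (φ k) * c k, by
        apply memℓp_gen' (C := (B * ‖a‖) ^ p.toReal)
        intro s
        obtain ⟨R, hR⟩ : ∃ R, s ⊆ Finset.range R := ⟨s.sup id + 1, fun k hk =>
          Finset.mem_range.2 (Nat.lt_succ_of_le (Finset.le_sup (f := id) hk))⟩
        refine (Finset.sum_le_sum_of_subset_of_nonneg hR ?_).trans (hB a R)
        intro i _ _; positivity⟩
      map_add' := by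
        intro x y
        ext i
        simp only [lp.coeFn_add, Pi.add_apply]
        ring
      map_smul' := by
        intro c x
        ext i
        simp only [lp.coeFn_smul, Pi.smul_apply, smul_eq_mul, RingHom.id_apply]
        ring } B (by
      intro a
      exact norm_le_of_range (hP := hP) (by positivity) (fun K => hB a K))

lemma selOp_apply (hP : 0 < p.toReal) (φ : ℕ → ℕ) (c : ℕ → 𝕜) (B : ℝ) (hB0 : 0 ≤ B)
    (hB : ∀ (a : X 𝕜 p) (K : ℕ), ∑ k ∈ Finset.range K, ‖a (φ k) * c k‖ ^ p.toReal ≤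
      (B * ‖a‖) ^ p.toReal) (a : X 𝕜 p) (k : ℕ) : selOp hP φ c B hB0 hB a k = a (φ k) * c k := rfl

lemma selOp_norm (hP : 0 < p.toReal) (φ : ℕ → ℕ) (c : ℕ → 𝕜) (B : ℝ) (hB0 : 0 ≤ B)
    (hB : ∀ (a : X 𝕜 p) (K : ℕ), ∑ k ∈ Finset.range K, ‖a (φ k) * c k‖ ^ p.toReal ≤
      (B * ‖a‖) ^ p.toReal) (a : X 𝕜 p) : ‖selOp hP φ c B hB0 hB a‖ ≤ B * ‖a‖ :=
  norm_le_of_range (hP := hP) (by positivity) (fun K => hB a K)

lemma infinite_dim (hP : 0 < p.toReal) : ¬ FiniteDimensional 𝕜 (X 𝕜 p) := by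
  intro h
  set n := Module.finrank 𝕜 (X 𝕜 p) with hn
  let L : X 𝕜 p →ₗ[𝕜] (Fin (n+1) → 𝕜) :=
    { toFun := fun x i => x i
      map_add' := by intro x y; rfl
      map_smul' := by intro c x; rfl }
  have hsurj : Function.Surjective L := by
    intro v
    refine ⟨∑ i : Fin (n+1), lp.single p (i : ℕ) (v i), ?_⟩
    funext j
    show (∑ i : Fin (n+1), (lp.single p (i : ℕ) (v i) : X 𝕜 p) : X 𝕜 p) (j : ℕ) = v j
    rw [lp.coeFn_sum, Finset.sum_apply, Finset.sum_eq_single j]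
    · rw [single_apply', if_pos rfl]
    · intro i _ hij
      rw [single_apply', if_neg]
      intro h; exact hij (Fin.ext h.symm)
    · intro h; exact absurd (Finset.mem_univ j) h
  have h1 := LinearMap.finrank_range_le L
  rw [LinearMap.range_eq_top.2 hsurj, finrank_top, Module.finrank_fin_fun] at h1
  omega

/-- countable dense family of finitely supported vectors -/
lemma targets (hp : p ≠ ⊤) : ∃ Dd : ℕ → X 𝕜 p, (∀ t, ∃ ℓ, ∀ k, ℓ ≤ k → Dd t k = 0) ∧
    ∀ V : Set (X 𝕜 p), IsOpen V → V.Nonempty → ∀ N, ∃ t, N ≤ t ∧ Dd t ∈ V := by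
  set S : Set (X 𝕜 p) := {x | ∃ ℓ, ∀ k, ℓ ≤ k → x k = 0} with hS
  have hSeq : S ⊆ ⋃ ℓ : ℕ, Set.range (fun v : Fin ℓ → 𝕜 => ∑ i : Fin ℓ, (lp.single p (i : ℕ) (v i) : X 𝕜 p)) := by
    rintro x ⟨ℓ, hx⟩
    rw [Set.mem_iUnion]
    refine ⟨ℓ, fun i => x i, ?_⟩
    ext k
    simp only
    rw [lp.coeFn_sum, Finset.sum_apply]
    by_cases hk : k < ℓ
    · rw [Finset.sum_eq_single ⟨k, hk⟩]
      · rw [single_apply', if_pos rfl]
      · intro i _ hij
        rw [single_apply', if_neg]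
        intro h; exact hij (Fin.ext h.symm)
      · intro h; exact absurd (Finset.mem_univ _) h
    · rw [hx k (by omega), Finset.sum_eq_zero]
      intro i _
      rw [single_apply', if_neg]
      have := i.2
      omega
  have hcont : ∀ ℓ : ℕ, Continuous (fun v : Fin ℓ → 𝕜 => ∑ i : Fin ℓ, (lp.single p (i : ℕ) (v i) : X 𝕜 p)) := by
    intro ℓ
    apply continuous_finset_sum
    intro i _
    have h1 : Continuous (fun a : 𝕜 => (lp.single p (i : ℕ) a : X 𝕜 p)) :=
      (lp.isometry_single (E := fun _ : ℕ => 𝕜) (p := p) (i : ℕ)).continuous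
    exact h1.comp (continuous_apply i)
  have hsep : TopologicalSpace.IsSeparable S := by
    refine TopologicalSpace.IsSeparable.mono ?_ hSeq
    apply TopologicalSpace.IsSeparable.iUnion
    intro ℓ
    exact TopologicalSpace.isSeparable_range (hcont ℓ)
  obtain ⟨t, htS, htc, htd⟩ := hsep.exists_countable_dense_subset
  have hSd : ∀ x : X 𝕜 p, x ∈ closure S := by
    intro x
    have hs := lp.hasSum_single hp x
    apply mem_closure_of_tendsto hs
    apply Eventually.of_forall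
    intro F
    refine ⟨F.sup id + 1, fun k hk => ?_⟩
    rw [lp.coeFn_sum, Finset.sum_apply, Finset.sum_eq_zero]
    intro i hi
    rw [single_apply', if_neg]
    have : i ≤ F.sup id := Finset.le_sup (f := id) hi
    omega
  have htdense : Dense t := by
    intro x
    have h1 : closure S ⊆ closure t := closure_minimal htd isClosed_closure
    exact h1 (hSd x)
  have htne : t.Nonempty := htdense.nonempty
  obtain ⟨f, hf⟩ := htc.exists_eq_range htne
  refine ⟨fun n => f (Nat.unpair n).1, ?_, ?_⟩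
  · intro n
    have : f (Nat.unpair n).1 ∈ t := by rw [hf]; exact ⟨_, rfl⟩
    exact htS this
  · intro V hV hne N
    obtain ⟨v, hvV, hvt⟩ := htdense.inter_open_nonempty V hV hne
    rw [hf] at hvt
    obtain ⟨n, rfl⟩ := hvt
    refine ⟨Nat.pair n N, Nat.right_le_pair _ _, ?_⟩
    simp only [Nat.unpair_pair]
    exact hvV

lemma LD_tail {I : Set ℕ} (h : LD I) (n0 : ℕ) : LD {n | n ∈ I ∧ n0 ≤ n} := by
  classical
  rw [LD_iff] at h ⊢
  obtain ⟨δ, hδ, N₀, hN₀⟩ := h
  obtain ⟨B, hB⟩ := exists_nat_ge (2 * n0 / δ)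
  refine ⟨δ / 2, by positivity, max N₀ B, fun N hN => ?_⟩
  have h1 := hN₀ N ((le_max_left _ _).trans hN)
  have h2 : cA I N ≤ n0 + cA {n | n ∈ I ∧ n0 ≤ n} N := by
    have h3 : ((Finset.range N).filter (fun n => n ∈ I)) ⊆
        Finset.range n0 ∪ ((Finset.range N).filter (fun n => n ∈ I ∧ n0 ≤ n)) := by
      intro n hn
      rw [Finset.mem_filter] at hn
      rw [Finset.mem_union, Finset.mem_range, Finset.mem_filter]
      by_cases hc : n < n0
      · exact Or.inl hc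
      · exact Or.inr ⟨hn.1, hn.2, by omega⟩
    have h4 : ((Finset.range N).filter (fun n => n ∈ I ∧ n0 ≤ n)).card ≤
        cA {n | n ∈ I ∧ n0 ≤ n} N := by
      apply card_le_cA (g := fun n => n)
      · intro n hn
        rw [Finset.mem_filter, Finset.mem_range] at hn
        exact ⟨hn.1, hn.2⟩
      · intro a _ b _ h; exact h
    have h5 := (Finset.card_le_card h3).trans (Finset.card_union_le _ _)
    rw [Finset.card_range] at h5
    have h6 : cA I N = ((Finset.range N).filter (fun n => n ∈ I)).card := by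
      unfold cA
      congr
    omega
  have h2r : (cA I N : ℝ) ≤ n0 + cA {n | n ∈ I ∧ n0 ≤ n} N := by exact_mod_cast h2
  have hBN : (B:ℝ) ≤ N := by exact_mod_cast (le_max_right _ _).trans hN
  rw [div_le_iff₀ hδ] at hB
  have : (B:ℝ) * δ ≤ N * δ := mul_le_mul_of_nonneg_right hBN hδ.le
  nlinarith

lemma tail_small {F : ℕ → ℝ} (hF0 : ∀ k, 0 ≤ F k) (hF : Summable F) {ε : ℝ} (hε : 0 < ε) :
    ∃ ν, ∀ j, ν ≤ j → ∀ K, ∑ k ∈ Finset.Ico j K, F k ≤ ε := by
  have h1 := tendsto_sum_nat_add F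
  obtain ⟨ν, hν⟩ := eventually_atTop.1 (h1.eventually_lt_const hε)
  refine ⟨ν, fun j hj K => ?_⟩
  refine le_trans ?_ (hν j hj).le
  rw [Finset.sum_Ico_eq_sum_range]
  have h2 : Summable (fun k => F (k + j)) := (summable_nat_add_iff j).2 hF
  have h3 : ∑ k ∈ Finset.range (K - j), F (j + k) = ∑ k ∈ Finset.range (K - j), F (k + j) :=
    Finset.sum_congr rfl (fun k _ => by rw [add_comm])
  rw [h3]
  exact h2.sum_le_tsum _ (fun k _ => hF0 _)

end H342R3.FS
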