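import Pool.Agent.H342R3.FS6

set_option autoImplicit false
set_option maxHeartbeats 1000000
set_option synthInstance.maxHeartbeats 400000
set_option linter.unusedSectionVars false
set_option linter.unusedVariables false

namespace H342R3.FS

open scoped ENNReal
open Filter

variable {𝕜 : Type} [RCLike 𝕜] {p : ℝ≥0∞} [Fact (1 ≤ p)]

lemma Ypart {w : ℕ → 𝕜} (hw : ∀ n, w n ≠ 0) {T : X 𝕜 p →L[𝕜] X 𝕜 p} (hp : p ≠ ⊤)
    (hT : ∀ x n, T x n = w (n+1) * x (n+1)) {A : Set ℕ} {C : ℝ} (hC0 : 0 ≤ C)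
    (hbl : ∀ m : ℕ, ∃ R : ℕ, ∃ lam : ℕ → ℝ,
      (∀ k, 0 ≤ lam k) ∧ (∑ k ∈ Finset.Ico m R, lam k = 1) ∧
      ∀ n ∈ A, ∑ k ∈ Finset.Ico (max m n) R, lam k * (‖β w k‖ / ‖β w (k - n)‖) ^ p.toReal ≤ C) :
    ∃ Y : X 𝕜 p →L[𝕜] X 𝕜 p, (∀ a, ‖a‖ ≤ ‖Y a‖) ∧
      ∀ a, ∀ ρ : ℝ, 0 < ρ → ∃ n0, ∀ n, n0 ≤ n → n ∈ A → ‖(⇑T)^[n] (Y a)‖ ≤ ρ := by
  classical
  have hP := P_pos hp
  set P := p.toReal with hPdef
  choose Rf lf hl0 hl1 hl2 using hbl
  set ms : ℕ → ℕ := fun l => Nat.rec 0 (fun _ m => Rf m) l with hms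
  have hms0 : ms 0 = 0 := rfl
  have hmsS : ∀ l, ms (l+1) = Rf (ms l) := fun l => rfl
  have hlt : ∀ l, ms l < ms (l+1) := by
    intro l
    rw [hmsS]
    by_contra h
    have h1 := hl1 (ms l)
    rw [Finset.Ico_eq_empty h, Finset.sum_empty] at h1
    norm_num at h1
  have hmono : StrictMono ms := strictMono_nat_of_lt_succ hlt
  have hge : ∀ l, l ≤ ms l := fun l => hmono.le_apply
  have hex : ∀ k, ∃ l, k < ms (l+1) := fun k => ⟨k, lt_of_lt_of_le (Nat.lt_succ_self k) (hge (k+1))⟩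
  set jb : ℕ → ℕ := fun k => Nat.find (hex k) with hjb
  have hjb1 : ∀ k, k < ms (jb k + 1) := fun k => Nat.find_spec (hex k)
  have hjb2 : ∀ k, ms (jb k) ≤ k := by
    intro k
    by_cases h0 : jb k = 0
    · rw [h0, hms0]; exact Nat.zero_le _
    · obtain ⟨l', hl'⟩ : ∃ l', jb k = l' + 1 := ⟨jb k - 1, by omega⟩
      have h1 := Nat.find_min (hex k) (m := l') (by
        have : Nat.find (hex k) = jb k := rfl
        omega)
      rw [hl']; omega
  have hjbeq : ∀ l k, ms l ≤ k → k < ms (l+1) → jb k = l := by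
    intro l k h1 h2
    rcases lt_trichotomy (jb k) l with h | h | h
    · have h3 : ms (jb k + 1) ≤ ms l := hmono.monotone h
      have := hjb1 k
      omega
    · exact h
    · have h3 : ms (l + 1) ≤ ms (jb k) := hmono.monotone h
      have := hjb2 k
      omega
  set Lm : ℕ → ℝ := fun k => lf (ms (jb k)) k with hLm
  have hLm0 : ∀ k, 0 ≤ Lm k := fun k => hl0 _ _
  set cY : ℕ → 𝕜 := fun k => (((Lm k) ^ P⁻¹ : ℝ) : 𝕜) with hcY
  have hterm : ∀ (a : X 𝕜 p) k, ‖a (jb k) * cY k‖ ^ P = ‖a (jb k)‖ ^ P * Lm k := by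
    intro a k
    rw [norm_mul, Real.mul_rpow (norm_nonneg _) (norm_nonneg _)]
    congr 1
    simp only [hcY]
    rw [RCLike.norm_ofReal, abs_of_nonneg (Real.rpow_nonneg (hLm0 k) _),
      Real.rpow_inv_rpow (hLm0 k) hP.ne']
  have hsum : ∀ (a : X 𝕜 p) L, ∑ k ∈ Finset.range (ms L), ‖a (jb k) * cY k‖ ^ P =
      ∑ l ∈ Finset.range L, ‖a l‖ ^ P := by
    intro a L
    induction L with
    | zero => rw [hms0]; simp
    | succ L ih =>
      rw [← Finset.sum_range_add_sum_Ico _ (hlt L).le, ih, Finset.sum_range_succ]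
      congr 1
      have h1 : ∀ k ∈ Finset.Ico (ms L) (ms (L+1)), ‖a (jb k) * cY k‖ ^ P =
          ‖a L‖ ^ P * lf (ms L) k := by
        intro k hk
        rw [Finset.mem_Ico] at hk
        rw [hterm]
        simp only [hLm]
        rw [hjbeq L k hk.1 hk.2]
      rw [Finset.sum_congr rfl h1, ← Finset.mul_sum]
      have h2 : ∑ k ∈ Finset.Ico (ms L) (ms (L+1)), lf (ms L) k = 1 := by
        rw [hmsS]; exact hl1 _
      rw [h2, mul_one]
  have hB : ∀ (a : X 𝕜 p) (K : ℕ), ∑ k ∈ Finset.range K, ‖a (jb k) * cY k‖ ^ P ≤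
      (1 * ‖a‖) ^ P := by
    intro a K
    rw [one_mul]
    calc ∑ k ∈ Finset.range K, ‖a (jb k) * cY k‖ ^ P
        ≤ ∑ k ∈ Finset.range (ms K), ‖a (jb k) * cY k‖ ^ P := by
          apply Finset.sum_le_sum_of_subset_of_nonneg (Finset.range_mono (hge K))
          intro i _ _; positivity
      _ = ∑ l ∈ Finset.range K, ‖a l‖ ^ P := hsum a K
      _ ≤ ‖a‖ ^ P := lp.sum_rpow_le_norm_rpow hP a _
  refine ⟨selOp hP jb cY 1 zero_le_one hB, ?_, ?_⟩
  · intro a
    apply norm_le_of_range (hP := hP) (norm_nonneg _)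
    intro L
    rw [← hsum a L]
    exact lp.sum_rpow_le_norm_rpow hP (selOp hP jb cY 1 zero_le_one hB a) _
  · intro a ρ hρ
    have hsa : Summable (fun l => ‖a l‖ ^ P) := (lp.memℓp a).summable hP
    obtain ⟨ν, hν⟩ := tail_small (F := fun l => ‖a l‖ ^ P) (fun l => by positivity) hsa
      (ε := ρ ^ P / (C + 1)) (by positivity)
    refine ⟨ms ν, fun n hn hnA => ?_⟩
    have hjn : ν ≤ jb n := by
      by_contra h
      push Not at h
      have h1 : ms (jb n + 1) ≤ ms ν := hmono.monotone h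
      have := hjb1 n
      omega
    set G : ℕ → ℝ := fun k => Lm k * (‖β w k‖ / ‖β w (k - n)‖) ^ P * ‖a (jb k)‖ ^ P with hG
    have hG0 : ∀ k, 0 ≤ G k := fun k => by
      have := hLm0 k
      positivity
    have hclaim : ∀ L, ∑ k ∈ Finset.Ico n (ms L), G k ≤ C * ∑ l ∈ Finset.Ico (jb n) L, ‖a l‖ ^ P := by
      intro L
      induction L with
      | zero =>
        rw [hms0, Finset.Ico_eq_empty (by omega), Finset.sum_empty]
        exact mul_nonneg hC0 (Finset.sum_nonneg (fun i _ => by positivity))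
      | succ L ih =>
        by_cases hnL : n < ms (L+1)
        · have hjL : jb n ≤ L := by
            by_contra h
            push Not at h
            have h1 : ms (L+1) ≤ ms (jb n) := hmono.monotone h
            have := hjb2 n
            omega
          have hsplit : ∑ k ∈ Finset.Ico n (ms (L+1)), G k = ∑ k ∈ Finset.Ico n (ms L), G k +
              ∑ k ∈ Finset.Ico (max (ms L) n) (ms (L+1)), G k := by
            rcases le_total n (ms L) with h | h
            · rw [max_eq_left h, Finset.sum_Ico_consecutive _ h (hlt L).le]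
            · rw [max_eq_right h, Finset.Ico_eq_empty_of_le h, Finset.sum_empty, zero_add]
          have h2 : ∑ k ∈ Finset.Ico (max (ms L) n) (ms (L+1)), G k ≤ C * ‖a L‖ ^ P := by
            have h3 : ∀ k ∈ Finset.Ico (max (ms L) n) (ms (L+1)), G k =
                (lf (ms L) k * (‖β w k‖ / ‖β w (k - n)‖) ^ P) * ‖a L‖ ^ P := by
              intro k hk
              rw [Finset.mem_Ico] at hk
              have h4 : jb k = L := hjbeq L k ((le_max_left _ _).trans hk.1) hk.2
              simp only [hG, hLm]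
              rw [h4]
            rw [Finset.sum_congr rfl h3, ← Finset.sum_mul]
            exact mul_le_mul_of_nonneg_right (hl2 (ms L) n hnA) (by positivity)
          rw [hsplit, Finset.sum_Ico_succ_top hjL, mul_add]
          exact add_le_add ih h2
        · rw [Finset.Ico_eq_empty hnL, Finset.sum_empty]
          exact mul_nonneg hC0 (Finset.sum_nonneg (fun i _ => by positivity))
    apply norm_le_of_range (hP := hP) hρ.le
    intro K
    have h1 : ∀ i, ‖((⇑T)^[n] (selOp hP jb cY 1 zero_le_one hB a)) i‖ ^ P = G (n + i) := by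
      intro i
      have h2 := T_it_norm hT n (selOp hP jb cY 1 zero_le_one hB a) i
      have h3 : ‖((⇑T)^[n] (selOp hP jb cY 1 zero_le_one hB a)) i‖ =
          ‖β w (n+i)‖ / ‖β w i‖ * ‖a (jb (n+i)) * cY (n+i)‖ := by
        rw [div_mul_eq_mul_div, eq_div_iff (b_pos hw i).ne', h2, add_comm i n]
        rfl
      rw [h3, Real.mul_rpow (by positivity) (norm_nonneg _), hterm]
      simp only [hG]
      rw [Nat.add_sub_cancel_left]
      ring
    simp only [← hPdef]
    rw [Finset.sum_congr rfl (fun i _ => h1 i)]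
    have h2 : ∑ i ∈ Finset.range K, G (n + i) = ∑ k ∈ Finset.Ico n (n + K), G k := by
      rw [Finset.sum_Ico_eq_sum_range, Nat.add_sub_cancel_left]
    rw [h2]
    calc ∑ k ∈ Finset.Ico n (n + K), G k ≤ ∑ k ∈ Finset.Ico n (ms (n + K)), G k := by
          apply Finset.sum_le_sum_of_subset_of_nonneg
          · exact Finset.Ico_subset_Ico_right (hge _)
          · intro i _ _; exact hG0 i
      _ ≤ C * ∑ l ∈ Finset.Ico (jb n) (n + K), ‖a l‖ ^ P := hclaim _
      _ ≤ C * (ρ ^ P / (C + 1)) := mul_le_mul_of_nonneg_left (hν _ hjn _) hC0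
      _ ≤ ρ ^ P := by
          rw [mul_div_assoc', div_le_iff₀ (by positivity)]
          have : 0 ≤ ρ ^ P := by positivity
          nlinarith

lemma geo_two (K : ℕ) : ∑ s ∈ Finset.range K, ((1:ℝ)/2)^s ≤ 2 := by
  have h := summable_geometric_two.sum_le_tsum (Finset.range K) (fun i _ => by positivity)
  rw [tsum_geometric_two] at h
  exact h

end H342R3.FS
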