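import Pool.Agent.H342R3.FS7

set_option autoImplicit false
set_option maxHeartbeats 1000000
set_option synthInstance.maxHeartbeats 400000
set_option linter.unusedSectionVars false
set_option linter.unusedVariables false

namespace H342R3.FS

open scoped ENNReal
open Filter

variable {𝕜 : Type} [RCLike 𝕜] {p : ℝ≥0∞} [Fact (1 ≤ p)]

lemma Zpart {w : ℕ → 𝕜} (hw : ∀ n, w n ≠ 0) {T : X 𝕜 p →L[𝕜] X 𝕜 p} (hp : p ≠ ⊤)
    (hT : ∀ x n, T x n = w (n+1) * x (n+1)) {A : Set ℕ} (hA : LD A)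
    (hF : Summable (fun n => (‖β w n‖⁻¹) ^ p.toReal))
    {Dd : ℕ → X 𝕜 p} (hDd : ∀ t, ∃ ℓ, ∀ k, ℓ ≤ k → Dd t k = 0) :
    ∃ Zo : X 𝕜 p →L[𝕜] X 𝕜 p, (∀ a, ‖Zo a‖ ≤ 1/2 * ‖a‖) ∧
      ∃ I : ℕ → Set ℕ, (∀ s, LD (I s)) ∧ (∀ s, I s ⊆ A) ∧
        ∀ (a : X 𝕜 p) (s n : ℕ) (ρ : ℝ), n ∈ I s → 0 ≤ ρ →
          ‖a‖ ^ p.toReal * (1/2)^s ≤ ρ ^ p.toReal →
          ‖(⇑T)^[n] (Zo a) - a (Nat.unpair s).1 • Dd (Nat.unpair s).2‖ ≤ ρ := by
  classical
  have hP := P_pos hp
  have hp0 : (0:ℝ≥0∞) < p := lt_of_lt_of_le one_pos Fact.out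
  set P := p.toReal with hPdef
  set F : ℕ → ℝ := fun n => (‖β w n‖⁻¹) ^ P with hFdef
  have hF0 : ∀ n, 0 ≤ F n := fun n => by positivity
  set Dv : ℕ → X 𝕜 p := fun s => Dd (Nat.unpair s).2 with hDv
  have hDv0 : ∀ s, ∃ ℓ, ∀ k, ℓ ≤ k → Dv s k = 0 := fun s => hDd _
  choose ℓ hℓ using hDv0
  set Q : ℕ → ℝ := fun s => ∑ k ∈ Finset.range (ℓ s), ‖Dv s k * β w k‖ ^ P with hQ
  have hQ0 : ∀ s, 0 ≤ Q s := fun s => Finset.sum_nonneg (fun k _ => by positivity)
  have hQb : ∀ s k, ‖Dv s k * β w k‖ ^ P ≤ Q s := by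
    intro s k
    by_cases hk : k < ℓ s
    · exact Finset.single_le_sum (f := fun k => ‖Dv s k * β w k‖ ^ P)
        (fun i _ => by positivity) (Finset.mem_range.2 hk)
    · rw [hℓ s k (by omega), zero_mul, norm_zero, Real.zero_rpow hP.ne']
      exact hQ0 s
  set Qm : ℕ → ℝ := fun s => ∑ s' ∈ Finset.range (s+1), Q s' with hQm
  have hQm0 : ∀ s, 0 ≤ Qm s := fun s => Finset.sum_nonneg (fun k _ => hQ0 k)
  have hQQm : ∀ s' s, s' ≤ s → Q s' ≤ Qm s := fun s' s h =>
    Finset.single_le_sum (f := Q) (fun i _ => hQ0 i) (Finset.mem_range.2 (by omega))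
  set ε0 : ℝ := (1/2)^P / 2 with hε0
  have hε0pos : 0 < ε0 := by positivity
  have hε01 : ε0 ≤ 1/2 := by
    rw [hε0]
    have : ((1:ℝ)/2)^P ≤ 1 := Real.rpow_le_one (by norm_num) (by norm_num) hP.le
    linarith
  set ε : ℕ → ℝ := fun s => ε0 * (1/4)^s with hε
  have hεpos : ∀ s, 0 < ε s := fun s => by positivity
  have hνex : ∀ s, ∃ ν, ℓ s ≤ ν ∧ s ≤ ν ∧ ∀ j, ν ≤ j → ∀ K, Qm s * ∑ k ∈ Finset.Ico j K, F k ≤ ε s := by
    intro s
    obtain ⟨ν0, hν0⟩ := tail_small hF0 hF (ε := ε s / (Qm s + 1))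
      (div_pos (hεpos s) (by have := hQm0 s; linarith))
    refine ⟨max ν0 (max (ℓ s) s), ?_, ?_, ?_⟩
    · exact (le_max_left _ _).trans (le_max_right _ _)
    · exact (le_max_right _ _).trans (le_max_right _ _)
    · intro j hj K
      have h1 := hν0 j ((le_max_left _ _).trans hj) K
      have h2 := hQm0 s
      calc Qm s * ∑ k ∈ Finset.Ico j K, F k ≤ Qm s * (ε s / (Qm s + 1)) :=
            mul_le_mul_of_nonneg_left h1 h2
        _ ≤ ε s := by
            rw [mul_div_assoc', div_le_iff₀ (by linarith)]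
            have := hεpos s
            nlinarith
  choose ν hνℓ hνs hν using hνex
  obtain ⟨I, hI1, hI2, hI3, hI4, hI5⟩ := sep_sets_in hA ν
  -- pieces
  set Pc : ℕ → ℕ × ℕ → Prop := fun k q => q.1 ∈ I q.2 ∧ q.1 ≤ k ∧ k < q.1 + ℓ q.2 with hPc
  have huniq : ∀ k q q', Pc k q → Pc k q' → q = q' := by
    rintro k ⟨n, s⟩ ⟨n', s'⟩ ⟨h1, h2, h3⟩ ⟨h1', h2', h3'⟩
    simp only at h1 h2 h3 h1' h2' h3'
    rcases lt_trichotomy n n' with h | h | h
    · have := hI2 s s' n n' h1 h1' h
      have := hνℓ s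
      omega
    · subst h
      rw [hI4 s s' n h1 h1']
    · have := hI2 s' s n' n h1' h1 h
      have := hνℓ s'
      omega
  set cz : ℕ → 𝕜 := fun k => if h : ∃ q : ℕ × ℕ, Pc k q then
    Dv h.choose.2 (k - h.choose.1) * β w (k - h.choose.1) / β w k else 0 with hcz
  set jz : ℕ → ℕ := fun k => if h : ∃ q : ℕ × ℕ, Pc k q then (Nat.unpair h.choose.2).1 else 0 with hjz
  have hczeq : ∀ k n s, Pc k (n, s) → cz k = Dv s (k - n) * β w (k - n) / β w k ∧
      jz k = (Nat.unpair s).1 := by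
    intro k n s h
    have hex : ∃ q : ℕ × ℕ, Pc k q := ⟨_, h⟩
    have hch : hex.choose = (n, s) := huniq k _ _ hex.choose_spec h
    simp only [hcz, hjz]
    rw [dif_pos hex, dif_pos hex, hch]
    exact ⟨rfl, rfl⟩
  have hcz0 : ∀ k, (¬ ∃ q : ℕ × ℕ, Pc k q) → cz k = 0 := by
    intro k h
    simp only [hcz]
    rw [dif_neg h]
  -- pointwise bound
  have hpt : ∀ k K, k < K → ‖cz k‖ ^ P ≤ ∑ s ∈ Finset.range K, (if ν s ≤ k then Q s * F k else 0) := by
    intro k K hkK
    have hnn : ∀ s ∈ Finset.range K, 0 ≤ (if ν s ≤ k then Q s * F k else 0) := by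
      intro s _
      split_ifs
      · exact mul_nonneg (hQ0 s) (hF0 k)
      · exact le_rfl
    by_cases hex : ∃ q : ℕ × ℕ, Pc k q
    · obtain ⟨⟨n, s⟩, h⟩ := hex
      obtain ⟨h1, h2, h3⟩ := h
      simp only at h1 h2 h3
      rw [(hczeq k n s ⟨h1, h2, h3⟩).1]
      have h4 : ν s ≤ k := (hI3 s n h1).trans h2
      have h5 : s < K := by have := hνs s; omega
      refine le_trans ?_ (Finset.single_le_sum hnn (Finset.mem_range.2 h5))
      rw [if_pos h4, norm_div, div_eq_mul_inv, Real.mul_rpow (norm_nonneg _) (by positivity)]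
      exact mul_le_mul_of_nonneg_right (hQb s _) (hF0 k)
    · rw [hcz0 k hex, norm_zero, Real.zero_rpow hP.ne']
      exact Finset.sum_nonneg hnn
  have hsumcz : ∀ K, ∑ k ∈ Finset.range K, ‖cz k‖ ^ P ≤ (1/2) ^ P := by
    intro K
    calc ∑ k ∈ Finset.range K, ‖cz k‖ ^ P
        ≤ ∑ k ∈ Finset.range K, ∑ s ∈ Finset.range K, (if ν s ≤ k then Q s * F k else 0) :=
          Finset.sum_le_sum (fun k hk => hpt k K (Finset.mem_range.1 hk))
      _ = ∑ s ∈ Finset.range K, ∑ k ∈ Finset.range K, (if ν s ≤ k then Q s * F k else 0) :=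
          Finset.sum_comm
      _ ≤ ∑ s ∈ Finset.range K, ε0 * (1/2)^s := by
          apply Finset.sum_le_sum
          intro s _
          have h1 : ∑ k ∈ Finset.range K, (if ν s ≤ k then Q s * F k else 0) =
              Q s * ∑ k ∈ Finset.Ico (ν s) K, F k := by
            rw [← Finset.sum_filter, ← Finset.mul_sum]
            congr 1
            apply Finset.sum_congr _ (fun _ _ => rfl)
            ext k
            simp only [Finset.mem_filter, Finset.mem_range, Finset.mem_Ico]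
            tauto
          rw [h1]
          have h2 : Q s * ∑ k ∈ Finset.Ico (ν s) K, F k ≤ Qm s * ∑ k ∈ Finset.Ico (ν s) K, F k :=
            mul_le_mul_of_nonneg_right (hQQm s s le_rfl) (Finset.sum_nonneg (fun k _ => hF0 k))
          refine h2.trans ((hν s (ν s) le_rfl K).trans ?_)
          simp only [hε]
          apply mul_le_mul_of_nonneg_left _ hε0pos.le
          exact pow_le_pow_left₀ (by norm_num) (by norm_num) s
      _ = ε0 * ∑ s ∈ Finset.range K, (1/2)^s := by rw [Finset.mul_sum]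
      _ ≤ ε0 * 2 := mul_le_mul_of_nonneg_left (geo_two K) hε0pos.le
      _ = (1/2)^P := by rw [hε0]; ring
  have hacoord : ∀ (a : X 𝕜 p) (j : ℕ), ‖a j‖ ≤ ‖a‖ := fun a j => lp.norm_apply_le_norm hp0.ne' a j
  have hB : ∀ (a : X 𝕜 p) (K : ℕ), ∑ k ∈ Finset.range K, ‖a (jz k) * cz k‖ ^ P ≤
      (1/2 * ‖a‖) ^ P := by
    intro a K
    rw [Real.mul_rpow (by norm_num) (norm_nonneg _), mul_comm]
    calc ∑ k ∈ Finset.range K, ‖a (jz k) * cz k‖ ^ P
        ≤ ∑ k ∈ Finset.range K, ‖a‖ ^ P * ‖cz k‖ ^ P := by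
          apply Finset.sum_le_sum
          intro k _
          rw [norm_mul, Real.mul_rpow (norm_nonneg _) (norm_nonneg _)]
          apply mul_le_mul_of_nonneg_right _ (by positivity)
          exact Real.rpow_le_rpow (norm_nonneg _) (hacoord a _) hP.le
      _ = ‖a‖ ^ P * ∑ k ∈ Finset.range K, ‖cz k‖ ^ P := by rw [Finset.mul_sum]
      _ ≤ ‖a‖ ^ P * (1/2) ^ P := mul_le_mul_of_nonneg_left (hsumcz K) (by positivity)
  refine ⟨selOp hP jz cz (1/2) (by norm_num) hB,
    selOp_norm hP jz cz (1/2) (by norm_num) hB, I, hI1, hI5, ?_⟩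
  intro a s0 n ρ hn hρ0 hρ
  set Za := selOp hP jz cz (1/2) (by norm_num) hB a with hZa
  have hZak : ∀ k, Za k = a (jz k) * cz k := fun k => rfl
  set E : X 𝕜 p := (⇑T)^[n] Za - a (Nat.unpair s0).1 • Dd (Nat.unpair s0).2 with hE
  have hEi : ∀ i, E i = ((⇑T)^[n] Za) i - a (Nat.unpair s0).1 * Dv s0 i := by
    intro i
    rw [hE, lp.coeFn_sub, Pi.sub_apply, lp.coeFn_smul, Pi.smul_apply, smul_eq_mul]
  have hTi : ∀ i, ((⇑T)^[n] Za) i = β w (i+n) * (a (jz (i+n)) * cz (i+n)) / β w i := by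
    intro i
    rw [eq_div_iff (β_ne hw i), T_it hT, hZak]
  have hEb : ∀ i K, i < K → ‖E i‖ ^ P ≤ ‖a‖ ^ P * ∑ s ∈ Finset.range K,
      (if max (ν s) (ν s0) ≤ i then Q s * F i else 0) := by
    intro i K hiK
    have hnn : ∀ s ∈ Finset.range K, 0 ≤ (if max (ν s) (ν s0) ≤ i then Q s * F i else 0) := by
      intro s _
      split_ifs
      · exact mul_nonneg (hQ0 s) (hF0 i)
      · exact le_rfl
    have hzero : E i = 0 → ‖E i‖ ^ P ≤ ‖a‖ ^ P * ∑ s ∈ Finset.range K,
        (if max (ν s) (ν s0) ≤ i then Q s * F i else 0) := by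
      intro h
      rw [h, norm_zero, Real.zero_rpow hP.ne']
      exact mul_nonneg (by positivity) (Finset.sum_nonneg hnn)
    have hDvz : (¬ Pc (i+n) (n, s0)) → Dv s0 i = 0 := by
      intro h
      apply hℓ
      by_contra hc
      push Not at hc
      exact h ⟨hn, by omega, by simp only; omega⟩
    by_cases hex : ∃ q : ℕ × ℕ, Pc (i+n) q
    · obtain ⟨⟨n', s'⟩, h⟩ := hex
      by_cases hq : (n', s') = (n, s0)
      · apply hzero
        rw [hq] at h
        obtain ⟨h1, h2⟩ := hczeq (i+n) n s0 h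
        rw [hEi, hTi, h1, h2, Nat.add_sub_cancel]
        have hb1 := β_ne hw i
        have hb2 := β_ne hw (i+n)
        field_simp
        ring
      · have hDz : Dv s0 i = 0 := hDvz (fun h' => hq (huniq _ _ _ h h'))
        obtain ⟨h1, h2⟩ := hczeq (i+n) n' s' h
        obtain ⟨g1, g2, g3⟩ := h
        simp only at g1 g2 g3
        have hnn' : n < n' := by
          rcases lt_trichotomy n n' with h' | h' | h'
          · exact h'
          · exfalso
            subst h'
            exact hq (by rw [hI4 s' s0 n g1 hn])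
          · exfalso
            have := hI2 s' s0 n' n g1 hn h'
            have := hνℓ s'
            omega
        have hsep := hI2 s0 s' n n' hn g1 hnn'
        have h4 : max (ν s') (ν s0) ≤ i := by
          apply max_le <;> omega
        have h5 : s' < K := by
          have := hνs s'
          have := (le_max_left _ _).trans h4
          omega
        refine le_trans ?_ (mul_le_mul_of_nonneg_left
          (Finset.single_le_sum hnn (Finset.mem_range.2 h5)) (by positivity))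
        rw [if_pos h4, hEi, hDz, mul_zero, sub_zero, hTi, h1]
        have hb2 := β_ne hw (i+n)
        have h6 : β w (i+n) * (a (jz (i+n)) * (Dv s' (i+n-n') * β w (i+n-n') / β w (i+n))) / β w i =
            a (jz (i+n)) * ((Dv s' (i+n-n') * β w (i+n-n')) * (β w i)⁻¹) := by
          field_simp
        rw [h6, norm_mul, norm_mul _ ((β w i)⁻¹), norm_inv, Real.mul_rpow (norm_nonneg _) (by positivity),
          Real.mul_rpow (norm_nonneg _) (by positivity)]
        apply mul_le_mul _ _ (by positivity) (by positivity)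
        · exact Real.rpow_le_rpow (norm_nonneg _) (hacoord a _) hP.le
        · exact mul_le_mul_of_nonneg_right (hQb s' _) (hF0 i)
    · apply hzero
      rw [hEi, hTi, hcz0 _ hex, hDvz (fun h' => hex ⟨_, h'⟩)]
      simp
  apply norm_le_of_range (hP := hP) hρ0
  intro K
  simp only [← hPdef]
  refine le_trans ?_ hρ
  calc ∑ i ∈ Finset.range K, ‖E i‖ ^ P
      ≤ ∑ i ∈ Finset.range K, ‖a‖ ^ P * ∑ s ∈ Finset.range K,
          (if max (ν s) (ν s0) ≤ i then Q s * F i else 0) :=
        Finset.sum_le_sum (fun i hi => hEb i K (Finset.mem_range.1 hi))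
    _ = ‖a‖ ^ P * ∑ s ∈ Finset.range K, ∑ i ∈ Finset.range K,
          (if max (ν s) (ν s0) ≤ i then Q s * F i else 0) := by
        rw [← Finset.mul_sum, Finset.sum_comm]
    _ ≤ ‖a‖ ^ P * ∑ s ∈ Finset.range K, ε0 * ((1/2)^s0 * (1/2)^s) := by
        apply mul_le_mul_of_nonneg_left _ (by positivity)
        apply Finset.sum_le_sum
        intro s _
        have h1 : ∑ i ∈ Finset.range K, (if max (ν s) (ν s0) ≤ i then Q s * F i else 0) =
            Q s * ∑ k ∈ Finset.Ico (max (ν s) (ν s0)) K, F k := by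
          rw [← Finset.sum_filter, ← Finset.mul_sum]
          congr 1
          apply Finset.sum_congr _ (fun _ _ => rfl)
          ext k
          simp only [Finset.mem_filter, Finset.mem_range, Finset.mem_Ico]
          tauto
        rw [h1]
        have hFs : 0 ≤ ∑ k ∈ Finset.Ico (max (ν s) (ν s0)) K, F k :=
          Finset.sum_nonneg (fun k _ => hF0 k)
        rcases le_total s s0 with hs | hs
        · have h2 : Q s * ∑ k ∈ Finset.Ico (max (ν s) (ν s0)) K, F k ≤
              Qm s0 * ∑ k ∈ Finset.Ico (max (ν s) (ν s0)) K, F k :=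
            mul_le_mul_of_nonneg_right (hQQm s s0 hs) hFs
          refine h2.trans ((hν s0 _ (le_max_right _ _) K).trans ?_)
          simp only [hε]
          apply mul_le_mul_of_nonneg_left _ hε0pos.le
          have h3 : ((1:ℝ)/4)^s0 = (1/2)^s0 * (1/2)^s0 := by rw [← mul_pow]; norm_num
          rw [h3]
          apply mul_le_mul_of_nonneg_left _ (by positivity)
          exact pow_le_pow_of_le_one (by norm_num) (by norm_num) hs
        · have h2 : Q s * ∑ k ∈ Finset.Ico (max (ν s) (ν s0)) K, F k ≤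
              Qm s * ∑ k ∈ Finset.Ico (max (ν s) (ν s0)) K, F k :=
            mul_le_mul_of_nonneg_right (hQQm s s le_rfl) hFs
          refine h2.trans ((hν s _ (le_max_left _ _) K).trans ?_)
          simp only [hε]
          apply mul_le_mul_of_nonneg_left _ hε0pos.le
          have h3 : ((1:ℝ)/4)^s = (1/2)^s * (1/2)^s := by rw [← mul_pow]; norm_num
          rw [h3]
          apply mul_le_mul_of_nonneg_right _ (by positivity)
          exact pow_le_pow_of_le_one (by norm_num) (by norm_num) hs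
    _ = ‖a‖ ^ P * (1/2)^s0 * (ε0 * ∑ s ∈ Finset.range K, (1/2)^s) := by
        rw [← Finset.mul_sum, ← Finset.mul_sum]; ring
    _ ≤ ‖a‖ ^ P * (1/2)^s0 * 1 := by
        apply mul_le_mul_of_nonneg_left _ (by positivity)
        have h1 := geo_two K
        have h2 : 0 ≤ ∑ s ∈ Finset.range K, ((1:ℝ)/2)^s := Finset.sum_nonneg (fun i _ => by positivity)
        nlinarith
    _ = ‖a‖ ^ P * (1/2)^s0 := mul_one _

end H342R3.FS
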