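import Pool.Agent.H342R3.FS7
import Pool.Agent.H342R3.FS8
import Pool.Agent.H342R3.FS4

set_option autoImplicit false
set_option maxHeartbeats 1000000
set_option synthInstance.maxHeartbeats 400000
set_option linter.unusedSectionVars false
set_option linter.unusedVariables false

namespace H342R3.FS

open scoped ENNReal
open Filter

variable {𝕜 : Type} [RCLike 𝕜] {p : ℝ≥0∞} [Fact (1 ≤ p)]

lemma sufficiency {w : ℕ → 𝕜} (hw : ∀ n, w n ≠ 0) {T : X 𝕜 p →L[𝕜] X 𝕜 p} (hp : p ≠ ⊤)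
    (hT : ∀ x n, T x n = w (n+1) * x (n+1))
    (hF : Summable (fun n => (‖β w n‖⁻¹) ^ p.toReal)) (hB : CondB w p.toReal) :
    ∃ M : Submodule 𝕜 (X 𝕜 p), IsClosed (M : Set (X 𝕜 p)) ∧ ¬ FiniteDimensional 𝕜 M ∧
      ∀ x ∈ M, x ≠ 0 → FHV T x := by
  classical
  have hP := P_pos hp
  set P := p.toReal with hPdef
  obtain ⟨A, hA, C, hC⟩ := hB
  have hC' : ∀ m : ℕ, ∃ R : ℕ, ∃ lam : ℕ → ℝ,
      (∀ k, 0 ≤ lam k) ∧ (∑ k ∈ Finset.Ico m R, lam k = 1) ∧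
      ∀ n ∈ A, ∑ k ∈ Finset.Ico (max m n) R, lam k * (‖β w k‖ / ‖β w (k - n)‖) ^ p.toReal ≤ max C 0 := by
    intro m
    obtain ⟨R, lam, h0, h1, h2⟩ := hC m
    exact ⟨R, lam, h0, h1, fun n hn => (h2 n hn).trans (le_max_left _ _)⟩
  obtain ⟨Y, hY1, hY2⟩ := Ypart hw hp hT (le_max_right C 0) hC'
  obtain ⟨Dd, hDd0, hDd⟩ := targets (𝕜 := 𝕜) hp
  obtain ⟨Zo, hZ1, I, hI1, hI2, hI3⟩ := Zpart hw hp hT hA hF hDd0
  set Φ : X 𝕜 p →L[𝕜] X 𝕜 p := Y + Zo with hΦ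
  have hlow : ∀ a, ‖a‖ ≤ 2 * ‖Φ a‖ := by
    intro a
    have h1 := hY1 a
    have h2 := hZ1 a
    have h3 : ‖Y a‖ ≤ ‖Φ a‖ + ‖Zo a‖ := by
      have : Y a = Φ a - Zo a := by simp [hΦ]
      rw [this]
      exact norm_sub_le _ _
    linarith
  have hanti : AntilipschitzWith 2 Φ := by
    apply AddMonoidHomClass.antilipschitz_of_bound
    intro a
    simpa using hlow a
  have hinj : Function.Injective Φ := hanti.injective
  refine ⟨LinearMap.range (Φ : X 𝕜 p →ₗ[𝕜] X 𝕜 p), ?_, ?_, ?_⟩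
  · have := hanti.isClosed_range Φ.uniformContinuous
    simpa [LinearMap.coe_range] using this
  · intro hfd
    have e := LinearEquiv.ofInjective (Φ : X 𝕜 p →ₗ[𝕜] X 𝕜 p) hinj
    exact infinite_dim (𝕜 := 𝕜) hP (LinearEquiv.finiteDimensional e.symm)
  · rintro x ⟨a, rfl⟩ hx
    have ha : a ≠ 0 := by
      rintro rfl
      exact hx (map_zero _)
    have hj0 : ∃ j0, a j0 ≠ 0 := by
      by_contra hcon
      push Not at hcon
      apply ha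
      ext j
      simpa using hcon j
    obtain ⟨j0, hj0⟩ := hj0
    intro V hV hVne
    obtain ⟨u, hu⟩ := hVne
    obtain ⟨ρ, hρ, hball⟩ := Metric.isOpen_iff.1 hV u hu
    -- choose N
    have hNex : ∃ N : ℕ, ‖a‖ ^ P * (1/2)^N ≤ (ρ/3) ^ P := by
      have h1 : Tendsto (fun N : ℕ => ‖a‖ ^ P * (1/2:ℝ)^N) atTop (nhds (‖a‖ ^ P * 0)) :=
        (tendsto_pow_atTop_nhds_zero_of_lt_one (by norm_num) (by norm_num)).const_mul _
      rw [mul_zero] at h1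
      have h2 : 0 < (ρ/3) ^ P := Real.rpow_pos_of_pos (by positivity) _
      obtain ⟨N, hN⟩ := (h1.eventually (gt_mem_nhds h2)).exists
      exact ⟨N, hN.le⟩
    obtain ⟨N, hN⟩ := hNex
    have hO : IsOpen {v : X 𝕜 p | ‖a j0 • v - u‖ < ρ/3} :=
      isOpen_lt (by fun_prop) continuous_const
    obtain ⟨t, htN, ht⟩ := hDd _ hO ⟨(a j0)⁻¹ • u, by
      show ‖a j0 • ((a j0)⁻¹ • u) - u‖ < ρ/3
      rw [smul_smul, mul_inv_cancel₀ hj0, one_smul, sub_self, norm_zero]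
      positivity⟩ N
    set s0 := Nat.pair j0 t with hs0
    have hs0t : t ≤ s0 := Nat.right_le_pair j0 t
    obtain ⟨n0, hn0⟩ := hY2 a (ρ/3) (by positivity)
    apply LD_mono _ (LD_tail (hI1 s0) n0)
    rintro n ⟨hnI, hnn⟩
    apply hball
    rw [Metric.mem_ball, dist_eq_norm]
    have h1 : ‖(⇑T)^[n] (Y a)‖ ≤ ρ/3 := hn0 n hnn (hI2 s0 hnI)
    have h2 : ‖a‖ ^ P * (1/2)^s0 ≤ (ρ/3) ^ P := by
      refine le_trans ?_ hN
      apply mul_le_mul_of_nonneg_left _ (by positivity)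
      exact pow_le_pow_of_le_one (by norm_num) (by norm_num) (htN.trans hs0t)
    have h3 := hI3 a s0 n (ρ/3) hnI (by positivity) h2
    rw [hs0, Nat.unpair_pair] at h3
    simp only at h3
    have h4 : ‖a j0 • Dd t - u‖ < ρ/3 := ht
    have h5 : (⇑T)^[n] (Φ a) - u = (⇑T)^[n] (Y a) + ((⇑T)^[n] (Zo a) - a j0 • Dd t) + (a j0 • Dd t - u) := by
      have : (⇑T)^[n] (Φ a) = (⇑T)^[n] (Y a) + (⇑T)^[n] (Zo a) := by
        rw [← T_it_add]; rfl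
      rw [this]; abel
    have h6 : ‖(⇑T)^[n] (Φ a) - u‖ < ρ := by
      rw [h5]
      have h7 := norm_add_le ((⇑T)^[n] (Y a) + ((⇑T)^[n] (Zo a) - a j0 • Dd t)) (a j0 • Dd t - u)
      have h8 := norm_add_le ((⇑T)^[n] (Y a)) ((⇑T)^[n] (Zo a) - a j0 • Dd t)
      linarith
    exact h6

theorem characterization {w : ℕ → 𝕜} (hw : ∀ n, w n ≠ 0) {T : X 𝕜 p →L[𝕜] X 𝕜 p} (hp : p ≠ ⊤)
    (hT : ∀ x n, T x n = w (n+1) * x (n+1)) :
    (∃ M : Submodule 𝕜 (X 𝕜 p), IsClosed (M : Set (X 𝕜 p)) ∧ ¬ FiniteDimensional 𝕜 M ∧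
      ∀ x ∈ M, x ≠ 0 → FHV T x) ↔
    (Summable (fun n => (‖β w n‖⁻¹) ^ p.toReal) ∧ CondB w p.toReal) := by
  constructor
  · rintro ⟨M, hM, hinf, hF⟩
    exact ⟨necessityA hw hp hT hinf hF, necessityB hw hp hT hM hinf hF⟩
  · rintro ⟨h1, h2⟩
    exact sufficiency hw hp hT h1 h2

end H342R3.FS
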