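import Pool.Agent.H342R3.InvA

set_option autoImplicit false
set_option maxHeartbeats 1000000

namespace H342R3.Inv

open scoped ENNReal

lemma qz_pos (l : ℕ) : (0:ℤ) < (q l : ℤ) := by exact_mod_cast q_pos l
lemma Wz_pos (l : ℕ) : (0:ℤ) < (W l : ℤ) := by exact_mod_cast W_pos l

/-- type of the position `j` in block `l` -/
noncomputable def tp (l : ℕ) (j : ℤ) : ℕ := ty (l+1) ((j / (q l : ℤ)) % (W (l+1) : ℤ)).toNat

/-- distance to the unit boundary -/
noncomputable def ds (l : ℕ) (j : ℤ) : ℕ :=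
  min ((j % (q l:ℤ)).toNat + 1) (q l - (j % (q l : ℤ)).toNat)

noncomputable def lam (l : ℕ) (j : ℤ) : ℝ :=
  if tp l j = 0 then (M l : ℝ) else max ((1/2)^(tp l j)) ((M l : ℝ) / 2^(ds l j))

lemma tp_le (l : ℕ) (j : ℤ) : tp l j ≤ l + 1 := ty_le _ _

lemma tp_period (l : ℕ) (j n : ℤ) : tp l (j + n * Δ l) = tp l j := by
  unfold tp
  have h1 : (j + n * (Δ l : ℤ)) / (q l : ℤ) = j / (q l : ℤ) + n * (W (l+1) : ℤ) := by
    have : (Δ l : ℤ) = (W (l+1) : ℤ) * (q l : ℤ) := by unfold Δ; push_cast; ring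
    rw [this, ← mul_assoc]
    exact Int.add_mul_ediv_right _ _ (qz_pos l).ne'
  rw [h1, Int.add_mul_emod_self_right]

lemma ds_period (l : ℕ) (j n : ℤ) : ds l (j + n * Δ l) = ds l j := by
  unfold ds
  have h1 : (j + n * (Δ l : ℤ)) % (q l : ℤ) = j % (q l : ℤ) := by
    have : (Δ l : ℤ) = (W (l+1) : ℤ) * (q l : ℤ) := by unfold Δ; push_cast; ring
    rw [this, ← mul_assoc, Int.add_mul_emod_self_right]
  rw [h1]

lemma lam_period (l : ℕ) (j n : ℤ) : lam l (j + n * Δ l) = lam l j := by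
  unfold lam
  rw [tp_period, ds_period]

lemma M_ge_two (l : ℕ) : (2:ℝ) ≤ M l := by have := M_big l; linarith

lemma lam_pos (l : ℕ) (j : ℤ) : 0 < lam l j := by
  unfold lam
  split_ifs
  · have := M_ge_two l; linarith
  · exact lt_max_of_lt_left (by positivity)

lemma lam_le (l : ℕ) (j : ℤ) : lam l j ≤ M l := by
  unfold lam
  have h2 := M_ge_two l
  split_ifs
  · exact le_rfl
  · apply max_le
    · have : ((1:ℝ)/2)^(tp l j) ≤ 1 := pow_le_one₀ (by norm_num) (by norm_num)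
      linarith
    · apply div_le_self (by linarith)
      exact one_le_pow₀ (by norm_num)

lemma off_bounds (l : ℕ) (j : ℤ) : 0 ≤ j % (q l : ℤ) ∧ j % (q l : ℤ) < q l :=
  ⟨Int.emod_nonneg _ (qz_pos l).ne', Int.emod_lt_of_pos _ (qz_pos l)⟩

/-- positions next to each other in different units are close to the boundary -/
lemma ds_of_ne {l : ℕ} {j j' : ℤ} (h : |j - j'| ≤ 1) (hne : j / (q l : ℤ) ≠ j' / (q l : ℤ)) :
    ds l j ≤ 1 := by
  have hb := off_bounds l j
  have hb' := off_bounds l j'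
  have h1 := Int.mul_ediv_add_emod j (q l)
  have h2 := Int.mul_ediv_add_emod j' (q l)
  rw [abs_le] at h
  have hq := qz_pos l
  unfold ds
  rcases lt_or_gt_of_ne hne with hlt | hgt
  · -- j' = j + 1, off j = q - 1
    have h3 : (q l : ℤ) * (j / q l) + q l ≤ (q l : ℤ) * (j' / q l) := by nlinarith
    have : q l - (j % (q l : ℤ)).toNat ≤ 1 := by omega
    exact (min_le_right _ _).trans this
  · have h3 : (q l : ℤ) * (j' / q l) + q l ≤ (q l : ℤ) * (j / q l) := by nlinarith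
    have : (j % (q l : ℤ)).toNat + 1 ≤ 1 := by omega
    exact (min_le_left _ _).trans this

lemma lam_ge_of_ne {l : ℕ} {j j' : ℤ} (h : |j - j'| ≤ 1)
    (hne : j / (q l : ℤ) ≠ j' / (q l : ℤ)) : (M l : ℝ) / 2 ≤ lam l j := by
  have h2 := M_ge_two l
  unfold lam
  split_ifs
  · linarith
  · apply le_max_of_le_right
    have h3 := ds_of_ne h hne
    apply div_le_div_of_nonneg_left (by linarith) (by positivity)
    calc (2:ℝ)^(ds l j) ≤ 2^1 := pow_le_pow_right₀ (by norm_num) h3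
      _ = 2 := by norm_num

lemma lam_ratio {l : ℕ} {j j' : ℤ} (h : |j - j'| ≤ 1) : lam l j' ≤ 2 * lam l j := by
  have h2 := M_ge_two l
  by_cases hne : j / (q l : ℤ) = j' / (q l : ℤ)
  · have ht : tp l j = tp l j' := by unfold tp; rw [hne]
    unfold lam
    rw [ht]
    split_ifs
    · linarith
    · have hd : ds l j ≤ ds l j' + 1 := by
        have hb := off_bounds l j
        have hb' := off_bounds l j'
        have h1 := Int.mul_ediv_add_emod j (q l)
        have h2 := Int.mul_ediv_add_emod j' (q l)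
        rw [abs_le] at h
        rw [hne] at h1
        unfold ds
        omega
      have h5 : (M l : ℝ) / 2^(ds l j') ≤ 2 * ((M l : ℝ) / 2^(ds l j)) := by
        rw [← mul_div_assoc, div_le_div_iff₀ (by positivity) (by positivity)]
        have : (2:ℝ)^(ds l j) ≤ 2^(ds l j' + 1) := pow_le_pow_right₀ (by norm_num) hd
        rw [pow_succ] at this
        nlinarith
      apply max_le
      · have h6 := le_max_left (((1:ℝ)/2)^(tp l j')) ((M l : ℝ) / 2^(ds l j))
        have : (0:ℝ) ≤ (1/2)^(tp l j') := by positivity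
        linarith
      · have h6 := le_max_right (((1:ℝ)/2)^(tp l j')) ((M l : ℝ) / 2^(ds l j))
        linarith
  · have h3 := lam_ge_of_ne h hne
    have h4 := lam_le l j'
    linarith

lemma lam_jump {l : ℕ} {j j' : ℤ} (h : |j - j'| ≤ 1) (ht : tp l j ≠ tp l j') :
    (M l : ℝ) / 2 ≤ lam l j := by
  apply lam_ge_of_ne h
  intro heq
  apply ht
  unfold tp; rw [heq]

/-- the gap property in a block -/
lemma tp_gap {l : ℕ} {p : ℤ} (h : 1 ≤ tp l p) {t : ℤ} (ht1 : 1 ≤ t)
    (ht2 : t ≤ W (tp l p - 1) - 1) {p' : ℤ} (hp' : p' / (q l : ℤ) = p / (q l : ℤ) - t) :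
    tp l p' = 0 := by
  have hW := Wz_pos (l+1)
  set ρ := p / (q l : ℤ) with hρ
  have hr0 : 0 ≤ ρ % (W (l+1) : ℤ) := Int.emod_nonneg _ hW.ne'
  have hr1 : ρ % (W (l+1) : ℤ) < W (l+1) := Int.emod_lt_of_pos _ hW
  have hdef : tp l p = ty (l+1) (ρ % (W (l+1) : ℤ)).toNat := rfl
  rw [hdef] at h ht2
  obtain ⟨h1, h2⟩ := ty_gap (l+1) (ρ % (W (l+1) : ℤ)).toNat (by omega) h
  have hWp := W_pos (ty (l+1) (ρ % (W (l+1) : ℤ)).toNat - 1)
  have h3 := h2 t.toNat (by omega) (by omega)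
  have h4 : (p' / (q l : ℤ)) % (W (l+1) : ℤ) = ρ % (W (l+1) : ℤ) - t := by
    rw [hp', ← Int.emod_sub_emod]
    exact Int.emod_eq_of_lt (by omega) (by omega)
  unfold tp
  rw [h4]
  have h5 : (ρ % (W (l+1) : ℤ) - t).toNat = (ρ % (W (l+1) : ℤ)).toNat - t.toNat := by omega
  rw [h5, h3]

end H342R3.Inv
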