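import Pool.Agent.H342R3.InvB

set_option autoImplicit false
set_option maxHeartbeats 1000000

namespace H342R3.Inv

open scoped ENNReal

instance instNZ (l : ℕ) : NeZero (Δ l) := ⟨(Δ_pos l).ne'⟩

abbrev Idx := Σ l : ℕ, ZMod (Δ l)
noncomputable instance instDec : DecidableEq Idx := Classical.decEq _
noncomputable abbrev X := lp (fun _ : Idx => ℂ) 2

noncomputable def e (l : ℕ) (j : ℤ) : X := lp.single 2 (⟨l, (j : ZMod (Δ l))⟩ : Idx) (1:ℂ)
noncomputable def f (l : ℕ) (j : ℤ) : X := ((lam l j : ℝ) : ℂ) • e l j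

lemma norm_e (l : ℕ) (j : ℤ) : ‖e l j‖ = 1 := by
  unfold e
  rw [lp.norm_single (by norm_num)]
  simp

lemma norm_f (l : ℕ) (j : ℤ) : ‖f l j‖ = lam l j := by
  unfold f
  rw [norm_smul, norm_e, mul_one, Complex.norm_real, Real.norm_of_nonneg (lam_pos l j).le]

lemma e_congr {l : ℕ} {j j' : ℤ} (h : (j : ZMod (Δ l)) = (j' : ZMod (Δ l))) : e l j = e l j' := by
  unfold e; rw [h]

lemma cast_period (l : ℕ) (j n : ℤ) : ((j + n * Δ l : ℤ) : ZMod (Δ l)) = (j : ZMod (Δ l)) := by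
  push_cast; simp

lemma f_period (l : ℕ) (j n : ℤ) : f l (j + n * Δ l) = f l j := by
  unfold f
  rw [lam_period, e_congr (cast_period l j n)]

/-! targets -/

abbrev Ent := ℕ × ℕ × ℚ × ℚ
noncomputable def cf (t : Ent) : ℂ := ((t.2.2.1 : ℝ) : ℂ) + ((t.2.2.2 : ℝ) : ℂ) * Complex.I

lemma exists_enum : ∃ s : ℕ → List Ent, Function.Surjective s := exists_surjective_nat _
noncomputable def en : ℕ → List Ent := exists_enum.choose

open Classical in
noncomputable def cl (i : ℕ) : List Ent :=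
  if (∀ t ∈ en (Nat.unpair i).1, t.1 < i) ∧
      ((en (Nat.unpair i).1).map (fun t => ‖cf t‖)).sum ≤ i then en (Nat.unpair i).1 else []

lemma cl_lt {i : ℕ} {t : Ent} (ht : t ∈ cl i) : t.1 < i := by
  unfold cl at ht
  split_ifs at ht with h
  · exact h.1 t ht
  · simp at ht

lemma cl_sum (i : ℕ) : ((cl i).map (fun t => ‖cf t‖)).sum ≤ i := by
  unfold cl
  split_ifs with h
  · exact h.2
  · simp

noncomputable def J (l : ℕ) : ℤ := ((W (l+1) : ℤ) - 1) * q l + τ l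

noncomputable def Zo (gg : ℕ → ℤ → X) (i : ℕ) (j : ℤ) : X :=
  ((cl i).map (fun t => cf t • gg t.1 ((t.2.1 : ℤ) + j))).sum

noncomputable def Uo (gg : ℕ → ℤ → X) (l i : ℕ) (j : ℤ) : X :=
  if 1 ≤ i ∧ i ≤ l then Zo gg i j - ∑ k ∈ Finset.range l, gg k (J k + j) else 0

noncomputable def Gs : ℕ → ℕ → ℤ → X
  | 0 => fun _ _ => 0
  | l+1 => fun k j => if k = l then f l j + Uo (Gs l) l (tp l j) j else Gs l k j

noncomputable def g (k : ℕ) (j : ℤ) : X := Gs (k+1) k j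
noncomputable def Z (i : ℕ) (j : ℤ) : X := Zo g i j
noncomputable def U (l i : ℕ) (j : ℤ) : X := Uo g l i j

lemma Gs_stable (k m : ℕ) (h : k < m) (j : ℤ) : Gs m k j = g k j := by
  induction m, h using Nat.le_induction with
  | base => rfl
  | succ m hm ih =>
    have : Gs (m+1) k j = Gs m k j := by
      show (if k = m then _ else _) = _
      rw [if_neg (by omega)]
    rw [this, ih]

lemma Zo_congr {g1 g2 : ℕ → ℤ → X} {i : ℕ} (h : ∀ k < i, ∀ j, g1 k j = g2 k j) (j : ℤ) :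
    Zo g1 i j = Zo g2 i j := by
  unfold Zo
  congr 1
  apply List.map_congr_left
  intro t ht
  rw [h t.1 (cl_lt ht)]

lemma Uo_congr {g1 g2 : ℕ → ℤ → X} {l : ℕ} (h : ∀ k < l, ∀ j, g1 k j = g2 k j) (i : ℕ) (j : ℤ) :
    Uo g1 l i j = Uo g2 l i j := by
  unfold Uo
  split_ifs with hc
  · rw [Zo_congr (fun k hk => h k (by omega))]
    congr 1
    exact Finset.sum_congr rfl (fun k hk => h k (Finset.mem_range.1 hk) _)
  · rfl

lemma g_eq (l : ℕ) (j : ℤ) : g l j = f l j + U l (tp l j) j := by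
  show (if l = l then f l j + Uo (Gs l) l (tp l j) j else Gs l l j) = _
  rw [if_pos rfl]
  congr 1
  exact Uo_congr (fun k hk j => Gs_stable k l hk j) _ _

lemma U_eq {l i : ℕ} (h1 : 1 ≤ i) (h2 : i ≤ l) (j : ℤ) :
    U l i j = Z i j - ∑ k ∈ Finset.range l, g k (J k + j) := by
  unfold U Uo
  rw [if_pos ⟨h1, h2⟩]; rfl

lemma U_zero {l i : ℕ} (h : ¬ (1 ≤ i ∧ i ≤ l)) (j : ℤ) : U l i j = 0 := by
  unfold U Uo
  rw [if_neg h]

/-- maps that shift all lower vectors -/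
lemma map_Z (A : X →ₗ[ℂ] X) {i : ℕ} (n : ℤ) (h : ∀ k < i, ∀ j, A (g k j) = g k (j + n)) (j : ℤ) :
    A (Z i j) = Z i (j + n) := by
  unfold Z Zo
  rw [map_list_sum, List.map_map]
  congr 1
  apply List.map_congr_left
  intro t ht
  simp only [Function.comp]
  rw [map_smul, h t.1 (cl_lt ht), add_assoc]

lemma map_U (A : X →ₗ[ℂ] X) {l : ℕ} (n : ℤ) (h : ∀ k < l, ∀ j, A (g k j) = g k (j + n))
    (i : ℕ) (j : ℤ) : A (U l i j) = U l i (j + n) := by
  by_cases hc : 1 ≤ i ∧ i ≤ l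
  · rw [U_eq hc.1 hc.2, U_eq hc.1 hc.2, map_sub, map_sum,
      map_Z A n (fun k hk => h k (by omega))]
    congr 1
    apply Finset.sum_congr rfl
    intro k hk
    rw [h k (Finset.mem_range.1 hk), add_assoc]
  · rw [U_zero hc, U_zero hc, map_zero]

lemma Z_period {i : ℕ} {n : ℤ} (h : ∀ k < i, ∀ j, g k (j + n) = g k j) (j : ℤ) :
    Z i (j + n) = Z i j := by
  unfold Z Zo
  congr 1
  apply List.map_congr_left
  intro t ht
  rw [← add_assoc, h t.1 (cl_lt ht)]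

lemma U_period {l : ℕ} {n : ℤ} (h : ∀ k < l, ∀ j, g k (j + n) = g k j) (i : ℕ) (j : ℤ) :
    U l i (j + n) = U l i j := by
  by_cases hc : 1 ≤ i ∧ i ≤ l
  · rw [U_eq hc.1 hc.2, U_eq hc.1 hc.2, Z_period (fun k hk => h k (by omega))]
    congr 1
    apply Finset.sum_congr rfl
    intro k hk
    rw [← add_assoc, h k (Finset.mem_range.1 hk)]
  · rw [U_zero hc, U_zero hc]

lemma g_period (l : ℕ) : ∀ (j n : ℤ), (Δ l : ℤ) ∣ n → g l (j + n) = g l j := by
  induction l using Nat.strong_induction_on with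
  | _ l ih =>
    rintro j n ⟨m, rfl⟩
    have h1 : ∀ k < l, ∀ j, g k (j + Δ l * m) = g k j := by
      intro k hk j
      apply ih k hk
      have h2 : Δ k ∣ Δ l := (Δ_dvd_Dp hk).trans (Dp_dvd_Δ l)
      exact (Int.natCast_dvd_natCast.2 h2).mul_right m
    rw [g_eq, g_eq, U_period h1]
    have h3 : j + Δ l * m = j + m * Δ l := by ring
    rw [h3, f_period, tp_period]

lemma g_period_Dp {k l : ℕ} (h : k < l) (j n : ℤ) (hn : (Dp l : ℤ) ∣ n) : g k (j + n) = g k j :=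
  g_period k j n ((Int.natCast_dvd_natCast.2 (Δ_dvd_Dp h)).trans hn)

lemma Z_norm {i : ℕ} {B : ℝ} (h : ∀ k < i, ∀ j, ‖g k j‖ ≤ B) (hB : 0 ≤ B) (j : ℤ) :
    ‖Z i j‖ ≤ i * B := by
  unfold Z Zo
  have h1 : ∀ L : List Ent, (∀ t ∈ L, t.1 < i) →
      ‖(L.map (fun t => cf t • g t.1 ((t.2.1 : ℤ) + j))).sum‖ ≤
        (L.map (fun t => ‖cf t‖)).sum * B := by
    intro L
    induction L with
    | nil => intro _; simp
    | cons a L ih =>
      intro hL
      simp only [List.map_cons, List.sum_cons]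
      refine (norm_add_le _ _).trans ?_
      rw [norm_smul, add_mul]
      apply add_le_add
      · exact mul_le_mul_of_nonneg_left (h _ (hL a (by simp)) _) (norm_nonneg _)
      · exact ih (fun t ht => hL t (by simp [ht]))
  refine (h1 (cl i) (fun t ht => cl_lt ht)).trans ?_
  exact mul_le_mul_of_nonneg_right (cl_sum i) hB

lemma U_norm_of {l : ℕ} (h : ∀ k < l, ∀ j, ‖g k j‖ ≤ G l) (i : ℕ) (j : ℤ) :
    ‖U l i j‖ ≤ K l := by
  have hG : (0:ℝ) ≤ G l := Nat.cast_nonneg _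
  by_cases hc : 1 ≤ i ∧ i ≤ l
  · rw [U_eq hc.1 hc.2]
    refine (norm_sub_le _ _).trans ?_
    have h1 : ‖Z i j‖ ≤ i * G l := Z_norm (fun k hk => h k (by omega)) hG j
    have h2 : ‖∑ k ∈ Finset.range l, g k (J k + j)‖ ≤ l * G l := by
      refine (norm_sum_le _ _).trans ?_
      calc ∑ k ∈ Finset.range l, ‖g k (J k + j)‖ ≤ ∑ k ∈ Finset.range l, (G l : ℝ) :=
            Finset.sum_le_sum (fun k hk => h k (Finset.mem_range.1 hk) _)
        _ = l * G l := by simp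
    have h3 : (i:ℝ) ≤ l := by exact_mod_cast hc.2
    have h4 : (K l : ℝ) = 2 * (l+1) * G l := by unfold K; push_cast; ring
    rw [h4]
    nlinarith
  · rw [U_zero hc]; simp

lemma g_norm (l : ℕ) : ∀ j, ‖g l j‖ ≤ G (l+1) := by
  induction l using Nat.strong_induction_on with
  | _ l ih =>
    intro j
    rw [g_eq]
    refine (norm_add_le _ _).trans ?_
    rw [norm_f]
    have h1 : ‖U l (tp l j) j‖ ≤ K l := by
      apply U_norm_of
      intro k hk j
      refine (ih k hk j).trans ?_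
      exact_mod_cast G_mono hk
    have h2 := lam_le l j
    rw [G_succ]
    push_cast
    linarith

lemma U_norm (l i : ℕ) (j : ℤ) : ‖U l i j‖ ≤ K l := by
  apply U_norm_of
  intro k hk j
  refine (g_norm k j).trans ?_
  exact_mod_cast G_mono hk

/-! supports -/

noncomputable def Low (n : ℕ) : Submodule ℂ X where
  carrier := {x | ∀ i : Idx, n ≤ i.1 → x i = 0}
  add_mem' := by
    intro a b ha hb i hi
    rw [lp.coeFn_add, Pi.add_apply, ha i hi, hb i hi, add_zero]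
  zero_mem' := by intro i _; rfl
  smul_mem' := by
    intro c x hx i hi
    rw [lp.coeFn_smul, Pi.smul_apply, hx i hi, smul_zero]

lemma Low_mono {m n : ℕ} (h : m ≤ n) : Low m ≤ Low n := fun _ hx i hi => hx i (h.trans hi)

lemma e_apply (l : ℕ) (j : ℤ) (i : Idx) : e l j i = if i = ⟨l, (j : ZMod (Δ l))⟩ then 1 else 0 := by
  unfold e
  rw [lp.single_apply]
  by_cases h : i = ⟨l, (j : ZMod (Δ l))⟩
  · rw [if_pos h, h, Pi.single_eq_same]
  · rw [if_neg h, Pi.single_eq_of_ne h]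

lemma e_apply_ne {l : ℕ} (j : ℤ) {i : Idx} (h : i.1 ≠ l) : e l j i = 0 := by
  rw [e_apply, if_neg]
  rintro rfl
  exact h rfl

lemma e_apply_same (l : ℕ) (j j' : ℤ) : e l j ⟨l, (j' : ZMod (Δ l))⟩ =
    if (j' : ZMod (Δ l)) = (j : ZMod (Δ l)) then 1 else 0 := by
  rw [e_apply]
  congr 1
  simp

lemma f_mem (l : ℕ) (j : ℤ) : f l j ∈ Low (l+1) := by
  intro i hi
  unfold f
  rw [lp.coeFn_smul, Pi.smul_apply, e_apply_ne _ (by omega), smul_zero]

lemma f_apply_ne {l : ℕ} (j : ℤ) {i : Idx} (h : i.1 ≠ l) : f l j i = 0 := by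
  unfold f
  rw [lp.coeFn_smul, Pi.smul_apply, e_apply_ne _ h, smul_zero]

lemma Z_mem_of {i : ℕ} (h : ∀ k < i, ∀ j, g k j ∈ Low i) (j : ℤ) : Z i j ∈ Low i := by
  unfold Z Zo
  apply list_sum_mem
  intro x hx
  rw [List.mem_map] at hx
  obtain ⟨t, ht, rfl⟩ := hx
  exact Submodule.smul_mem _ _ (h _ (cl_lt ht) _)

lemma U_mem_of {l : ℕ} (h : ∀ k < l, ∀ j, g k j ∈ Low (k+1)) (i : ℕ) (j : ℤ) : U l i j ∈ Low l := by
  by_cases hc : 1 ≤ i ∧ i ≤ l
  · rw [U_eq hc.1 hc.2]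
    apply Submodule.sub_mem
    · exact Low_mono hc.2 (Z_mem_of (fun k hk j => Low_mono hk (h k (by omega) j)) j)
    · exact Submodule.sum_mem _ (fun k hk =>
        Low_mono (Finset.mem_range.1 hk) (h k (Finset.mem_range.1 hk) _))
  · rw [U_zero hc]; exact Submodule.zero_mem _

lemma g_mem (l : ℕ) : ∀ j, g l j ∈ Low (l+1) := by
  induction l using Nat.strong_induction_on with
  | _ l ih =>
    intro j
    rw [g_eq]
    exact Submodule.add_mem _ (f_mem l j) (Low_mono (Nat.le_succ l) (U_mem_of ih _ _))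

lemma U_mem (l i : ℕ) (j : ℤ) : U l i j ∈ Low l := U_mem_of (fun k _ j => g_mem k j) i j
lemma Z_mem (i : ℕ) (j : ℤ) : Z i j ∈ Low i :=
  Z_mem_of (fun k hk j => Low_mono hk (g_mem k j)) j

end H342R3.Inv
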