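import Pool.Agent.H342R3.InvC

set_option autoImplicit false
set_option maxHeartbeats 1000000

namespace H342R3.Inv

open scoped ENNReal

lemma Sop_bound (w : Idx → ℂ) (hw : ∀ i, ‖w i‖ ≤ 2) (π : Idx ≃ Idx) (x y : X)
    (hy : ∀ i, y i = w i * x (π i)) : ‖y‖ ≤ 2 * ‖x‖ := by
  have hp : 0 < (2:ℝ≥0∞).toReal := by norm_num
  have h1 : Summable (fun i => ‖x i‖ ^ (2:ℝ≥0∞).toReal) :=
    (lp.memℓp x).summable (by norm_num)
  have h2 := (π.summable_iff.2 h1).mul_left 4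
  rw [← Real.rpow_le_rpow_iff (norm_nonneg _) (by positivity) hp]
  rw [Real.mul_rpow (by norm_num) (norm_nonneg _)]
  rw [lp.norm_rpow_eq_tsum hp, lp.norm_rpow_eq_tsum hp]
  have h3 : (2:ℝ) ^ (2:ℝ≥0∞).toReal = 4 := by norm_num
  have h4 : ∀ i, ‖y i‖ ^ (2:ℝ≥0∞).toReal ≤ 4 * ‖x (π i)‖ ^ (2:ℝ≥0∞).toReal := by
    intro i
    rw [hy i, norm_mul, Real.mul_rpow (norm_nonneg _) (norm_nonneg _)]
    apply mul_le_mul_of_nonneg_right _ (by positivity)
    have : ‖w i‖ ^ (2:ℝ≥0∞).toReal ≤ 2 ^ (2:ℝ≥0∞).toReal :=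
      Real.rpow_le_rpow (norm_nonneg _) (hw i) (by norm_num)
    exact this.trans h3.le
  have h5 : (2:ℝ) ^ (2:ℝ≥0∞).toReal * ∑' i, ‖x i‖ ^ (2:ℝ≥0∞).toReal
      = ∑' i, 4 * ‖x (π i)‖ ^ (2:ℝ≥0∞).toReal := by
    rw [h3, ← π.tsum_eq (fun i => ‖x i‖ ^ (2:ℝ≥0∞).toReal), ← tsum_mul_left]
  rw [h5]
  exact Summable.tsum_le_tsum h4
    (Summable.of_nonneg_of_le (fun i => by positivity) h4 h2) h2

/-- weighted permutation operators -/
noncomputable def Sop (w : Idx → ℂ) (hw : ∀ i, ‖w i‖ ≤ 2) (π : Idx ≃ Idx) : X →L[ℂ] X :=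
  LinearMap.mkContinuous
    { toFun := fun x => ⟨fun i => w i * x (π i), by
        apply memℓp_gen
        have h1 : Summable (fun i => ‖x i‖ ^ (2:ℝ≥0∞).toReal) :=
          (lp.memℓp x).summable (by norm_num)
        have h2 := (π.summable_iff.2 h1).mul_left 4
        refine Summable.of_nonneg_of_le (fun i => by positivity) (fun i => ?_) h2
        simp only [Function.comp, norm_mul]
        rw [Real.mul_rpow (norm_nonneg _) (norm_nonneg _)]
        apply mul_le_mul_of_nonneg_right _ (by positivity)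
        have : ‖w i‖ ^ (2:ℝ≥0∞).toReal ≤ 2 ^ (2:ℝ≥0∞).toReal :=
          Real.rpow_le_rpow (norm_nonneg _) (hw i) (by norm_num)
        refine this.trans ?_
        norm_num⟩
      map_add' := by
        intro x y
        ext i
        simp only [lp.coeFn_add, Pi.add_apply]
        ring
      map_smul' := by
        intro c x
        ext i
        simp only [lp.coeFn_smul, Pi.smul_apply, smul_eq_mul, RingHom.id_apply]
        ring } 2 (fun x => Sop_bound w hw π x _ (fun i => rfl))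

lemma Sop_apply (w : Idx → ℂ) (hw : ∀ i, ‖w i‖ ≤ 2) (π : Idx ≃ Idx) (x : X) (i : Idx) :
    Sop w hw π x i = w i * x (π i) := rfl

noncomputable def lamZ (l : ℕ) (b : ZMod (Δ l)) : ℝ := lam l (b.val : ℤ)

lemma emod_eq (l : ℕ) (j : ℤ) : ∃ m : ℤ, (((j : ZMod (Δ l)).val : ℕ) : ℤ) = j + m * Δ l := by
  refine ⟨-(j / (Δ l : ℤ)), ?_⟩
  rw [ZMod.val_intCast]
  have := Int.mul_ediv_add_emod j (Δ l)
  linarith

lemma lamZ_cast (l : ℕ) (j : ℤ) : lamZ l (j : ZMod (Δ l)) = lam l j := by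
  unfold lamZ
  obtain ⟨m, hm⟩ := emod_eq l j
  rw [hm, lam_period]

lemma exists_rep {l : ℕ} (b : ZMod (Δ l)) : ∃ j : ℤ, (j : ZMod (Δ l)) = b :=
  ⟨(b.val : ℤ), by simp⟩

lemma lamZ_ratio (ε : ℤ) (hε : |ε| ≤ 1) (l : ℕ) (b : ZMod (Δ l)) :
    lamZ l b / lamZ l (b - (ε : ZMod (Δ l))) ≤ 2 := by
  obtain ⟨j, rfl⟩ := exists_rep b
  have h1 : ((j : ZMod (Δ l)) - (ε : ZMod (Δ l))) = ((j - ε : ℤ) : ZMod (Δ l)) := by push_cast; ring
  rw [h1, lamZ_cast, lamZ_cast, div_le_iff₀ (lam_pos _ _)]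
  apply lam_ratio
  have : j - ε - j = -ε := by ring
  rw [this, abs_neg]; exact hε

lemma lamZ_pos (l : ℕ) (b : ZMod (Δ l)) : 0 < lamZ l b := lam_pos _ _

noncomputable def perm (ε : ℤ) : Idx ≃ Idx :=
  Equiv.sigmaCongrRight (fun l => Equiv.subRight (ε : ZMod (Δ l)))

noncomputable def Sh (ε : ℤ) (hε : |ε| ≤ 1) : X →L[ℂ] X :=
  Sop (fun i => ((lamZ i.1 i.2 / lamZ i.1 (i.2 - (ε : ZMod (Δ i.1))) : ℝ) : ℂ)) (by
    intro i
    rw [Complex.norm_real, Real.norm_of_nonneg (div_nonneg (lamZ_pos _ _).le (lamZ_pos _ _).le)]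
    exact lamZ_ratio ε hε _ _) (perm ε)

lemma Sh_f (ε : ℤ) (hε : |ε| ≤ 1) (l : ℕ) (j : ℤ) : Sh ε hε (f l j) = f l (j + ε) := by
  ext i
  unfold Sh
  rw [Sop_apply]
  obtain ⟨k, b⟩ := i
  have hperm : perm ε ⟨k, b⟩ = ⟨k, b - (ε : ZMod (Δ k))⟩ := rfl
  rw [hperm]
  by_cases hk : k = l
  · subst hk
    obtain ⟨m, rfl⟩ := exists_rep b
    have h1 : ((m : ZMod (Δ k)) - (ε : ZMod (Δ k))) = ((m - ε : ℤ) : ZMod (Δ k)) := by
      push_cast; ring
    simp only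
    rw [h1]
    unfold f
    simp only [lp.coeFn_smul, Pi.smul_apply, smul_eq_mul]
    rw [e_apply_same, e_apply_same, lamZ_cast, lamZ_cast]
    by_cases hc : ((m - ε : ℤ) : ZMod (Δ k)) = (j : ZMod (Δ k))
    · have hc' : (m : ZMod (Δ k)) = ((j + ε : ℤ) : ZMod (Δ k)) := by
        push_cast; push_cast at hc; rw [← hc]; ring
      rw [if_pos hc, if_pos hc']
      have e1 : lam k m = lam k (j + ε) := by rw [← lamZ_cast, ← lamZ_cast, hc']
      have e2 : lam k (m - ε) = lam k j := by rw [← lamZ_cast, ← lamZ_cast, hc]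
      rw [e1, e2]
      have := (lam_pos k j).ne'
      push_cast
      have h' : (lam k j : ℂ) ≠ 0 := by exact_mod_cast this
      field_simp
    · have hc' : ¬ (m : ZMod (Δ k)) = ((j + ε : ℤ) : ZMod (Δ k)) := by
        intro h; apply hc; push_cast; rw [h]; push_cast; ring
      rw [if_neg hc, if_neg hc']
      simp
  · rw [f_apply_ne _ (by exact hk), f_apply_ne _ (by exact hk), mul_zero]

/-- the drop vectors -/
noncomputable def dv (ε : ℤ) (i : Idx) : X :=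
  ((lamZ i.1 i.2 : ℝ) : ℂ)⁻¹ • (U i.1 (tp i.1 ((i.2.val : ℤ) + ε)) ((i.2.val : ℤ) + ε)
    - U i.1 (tp i.1 (i.2.val : ℤ)) ((i.2.val : ℤ) + ε))

lemma dv_norm (ε : ℤ) (hε : |ε| ≤ 1) (i : Idx) : ‖dv ε i‖ ≤ (1/2)^(i.1) / Δ i.1 := by
  have hM := M_ge_two i.1
  have hΔ : (0:ℝ) < Δ i.1 := by exact_mod_cast Δ_pos i.1
  have hK : (0:ℝ) < K i.1 := by exact_mod_cast K_pos i.1
  unfold dv
  by_cases ht : tp i.1 ((i.2.val : ℤ) + ε) = tp i.1 (i.2.val : ℤ)
  · rw [ht, sub_self, smul_zero, norm_zero]; positivity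
  · have h1 : (M i.1 : ℝ) / 2 ≤ lam i.1 (i.2.val : ℤ) := by
      apply lam_jump (j' := (i.2.val : ℤ) + ε)
      · have : ((i.2.val : ℤ) - ((i.2.val : ℤ) + ε)) = -ε := by ring
        rw [this, abs_neg]; exact hε
      · exact fun h => ht h.symm
    rw [norm_smul, norm_inv, Complex.norm_real, Real.norm_of_nonneg (lamZ_pos _ _).le]
    have h2 : ‖U i.1 (tp i.1 ((i.2.val : ℤ) + ε)) ((i.2.val : ℤ) + ε)
        - U i.1 (tp i.1 (i.2.val : ℤ)) ((i.2.val : ℤ) + ε)‖ ≤ 2 * K i.1 := by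
      refine (norm_sub_le _ _).trans ?_
      have h3 := U_norm i.1 (tp i.1 ((i.2.val : ℤ) + ε)) ((i.2.val : ℤ) + ε)
      have h4 := U_norm i.1 (tp i.1 (i.2.val : ℤ)) ((i.2.val : ℤ) + ε)
      linarith
    have h5 : (lamZ i.1 i.2)⁻¹ ≤ 2 / M i.1 := by
      rw [inv_le_comm₀ (lamZ_pos _ _) (by positivity), inv_div]
      exact h1
    calc (lamZ i.1 i.2)⁻¹ * _ ≤ (2 / M i.1) * (2 * K i.1) :=
          mul_le_mul h5 h2 (norm_nonneg _) (by positivity)
      _ ≤ (1/2)^(i.1) / Δ i.1 := by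
          have hMe : (M i.1 : ℝ) = 2^(i.1+2) * (i.1+4) * Δ i.1 * K i.1 := by
            unfold M; push_cast; ring
          rw [hMe, div_mul_eq_mul_div, div_le_div_iff₀ (by positivity) hΔ]
          have e1 : ((1:ℝ)/2)^(i.1) * (2^(i.1+2) * (i.1+4) * Δ i.1 * K i.1)
              = (((1:ℝ)/2)^(i.1) * 2^(i.1)) * (4 * (i.1+4) * Δ i.1 * K i.1) := by
            rw [pow_add]; ring
          have e2 : ((1:ℝ)/2)^(i.1) * 2^(i.1) = 1 := by rw [← mul_pow]; norm_num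
          rw [e1, e2, one_mul]
          have : (0:ℝ) ≤ (i.1 : ℝ) := Nat.cast_nonneg _
          nlinarith [mul_pos hΔ hK]

lemma summable_bd : Summable (fun i : Idx => ((1:ℝ)/2)^(i.1) / Δ i.1) := by
  rw [summable_sigma_of_nonneg (fun i => by positivity)]
  refine ⟨fun l => ⟨_, hasSum_fintype _⟩, ?_⟩
  have : (fun l : ℕ => ∑' b : ZMod (Δ l), ((1:ℝ)/2)^l / (Δ l : ℝ)) = fun l => ((1:ℝ)/2)^l := by
    funext l
    rw [tsum_fintype, Finset.sum_const, Finset.card_univ, ZMod.card, nsmul_eq_mul]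
    have hΔ : (0:ℝ) < Δ l := by exact_mod_cast Δ_pos l
    field_simp
  simp only
  rw [this]
  exact summable_geometric_of_lt_one (by norm_num) (by norm_num)

noncomputable def Dt (ε : ℤ) (i : Idx) : X →L[ℂ] X :=
  (lp.evalCLM ℂ (fun _ : Idx => ℂ) 2 i).smulRight (dv ε i)

lemma Dt_summable (ε : ℤ) (hε : |ε| ≤ 1) : Summable (Dt ε) := by
  apply Summable.of_norm_bounded summable_bd
  intro i
  refine ContinuousLinearMap.opNorm_le_bound _ (by positivity) ?_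
  intro x
  have h1 : Dt ε i x = (x i) • dv ε i := rfl
  rw [h1, norm_smul, mul_comm]
  exact mul_le_mul (dv_norm ε hε i) (lp.norm_apply_le_norm (by norm_num) x i) (norm_nonneg _)
    (by positivity)

noncomputable def Dop (ε : ℤ) : X →L[ℂ] X := ∑' i, Dt ε i

lemma Dop_f (ε : ℤ) (hε : |ε| ≤ 1) (l : ℕ) (j : ℤ) : Dop ε (f l j) =
    U l (tp l (j + ε)) (j + ε) - U l (tp l j) (j + ε) := by
  have h1 := (Dt_summable ε hε).hasSum.mapL (ContinuousLinearMap.apply ℂ X (f l j))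
  have h2 : Dop ε (f l j) = ∑' i, Dt ε i (f l j) := h1.tsum_eq.symm
  have h3 : ∀ i : Idx, i ≠ ⟨l, (j : ZMod (Δ l))⟩ → Dt ε i (f l j) = 0 := by
    intro i hi
    have : Dt ε i (f l j) = (f l j i) • dv ε i := rfl
    rw [this]
    unfold f
    rw [lp.coeFn_smul, Pi.smul_apply, e_apply, if_neg hi]
    simp
  rw [h2, tsum_eq_single _ h3]
  have h4 : Dt ε ⟨l, (j : ZMod (Δ l))⟩ (f l j) = (f l j ⟨l, (j : ZMod (Δ l))⟩) • dv ε ⟨l, (j : ZMod (Δ l))⟩ := rfl
  rw [h4]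
  have h5 : f l j ⟨l, (j : ZMod (Δ l))⟩ = ((lam l j : ℝ) : ℂ) := by
    unfold f
    rw [lp.coeFn_smul, Pi.smul_apply, e_apply, if_pos rfl]
    simp
  rw [h5]
  unfold dv
  simp only
  obtain ⟨m, hm⟩ := emod_eq l j
  have hne : ((lam l j : ℝ) : ℂ) ≠ 0 := by exact_mod_cast (lam_pos l j).ne'
  rw [lamZ_cast, smul_smul, mul_inv_cancel₀ hne, one_smul, hm]
  have h6 : j + m * (Δ l : ℤ) + ε = j + ε + m * Δ l := by ring
  have h7 : ∀ k < l, ∀ j : ℤ, g k (j + m * Δ l) = g k j := fun k hk j =>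
    g_period_Dp hk j _ ((Int.natCast_dvd_natCast.2 (Dp_dvd_Δ l)).mul_left m)
  rw [h6, tp_period, tp_period, U_period h7, U_period h7]

noncomputable def T (ε : ℤ) (hε : |ε| ≤ 1) : X →L[ℂ] X := Sh ε hε + Dop ε

lemma T_f (ε : ℤ) (hε : |ε| ≤ 1) (l : ℕ) (j : ℤ) : T ε hε (f l j) =
    f l (j + ε) + (U l (tp l (j + ε)) (j + ε) - U l (tp l j) (j + ε)) := by
  unfold T
  rw [add_apply, Sh_f, Dop_f ε hε]

lemma T_g (ε : ℤ) (hε : |ε| ≤ 1) (l : ℕ) : ∀ j : ℤ, T ε hε (g l j) = g l (j + ε) := by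
  induction l using Nat.strong_induction_on with
  | _ l ih =>
    intro j
    have h1 : T ε hε (U l (tp l j) j) = U l (tp l j) (j + ε) :=
      map_U (T ε hε).toLinearMap ε ih (tp l j) j
    rw [g_eq, map_add, T_f, h1, g_eq l (j + ε)]
    abel

lemma T_iter (ε : ℤ) (hε : |ε| ≤ 1) (l : ℕ) (j : ℤ) (n : ℕ) :
    ((T ε hε) ^ n) (g l j) = g l (j + n * ε) := by
  induction n with
  | zero => simp
  | succ n ih =>
    rw [pow_succ', mul_apply_eq_comp, ih, T_g]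
    congr 1
    push_cast; ring

lemma clm_eq_id (A : X →L[ℂ] X) (h : ∀ l j, A (g l j) = g l j) : ∀ x, A x = x := by
  have hU : ∀ l i j, A (U l i j) = U l i j := by
    intro l i j
    have := map_U A.toLinearMap (l := l) 0 (fun k _ j => by rw [add_zero]; exact h k j) i j
    rw [add_zero] at this
    exact this
  have hf : ∀ l j, A (f l j) = f l j := by
    intro l j
    have h1 : f l j = g l j - U l (tp l j) j := by rw [g_eq]; abel
    rw [h1, map_sub, h, hU]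
  have he : ∀ l j, A (e l j) = e l j := by
    intro l j
    have hne : ((lam l j : ℝ) : ℂ) ≠ 0 := by exact_mod_cast (lam_pos l j).ne'
    have h1 : e l j = ((lam l j : ℝ) : ℂ)⁻¹ • f l j := by
      unfold f; rw [smul_smul, inv_mul_cancel₀ hne, one_smul]
    rw [h1, map_smul, hf]
  intro x
  have hs := lp.hasSum_single (p := 2) (by norm_num) x
  have h2 := hs.mapL A
  have h3 : (fun i : Idx => A (lp.single 2 i (x i))) = fun i : Idx => lp.single 2 i (x i) := by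
    funext i
    obtain ⟨l, b⟩ := i
    obtain ⟨j, rfl⟩ := exists_rep b
    have h4 : (lp.single 2 (⟨l, (j : ZMod (Δ l))⟩ : Idx) (x ⟨l, (j : ZMod (Δ l))⟩) : X) =
        (x ⟨l, (j : ZMod (Δ l))⟩ : ℂ) • e l j := by
      unfold e
      rw [← lp.single_smul]
      congr 1
      simp
    rw [h4, map_smul, he]
  rw [h3] at h2
  exact h2.unique hs

lemma T_inv (ε : ℤ) (hε : |ε| ≤ 1) (hε' : |-ε| ≤ 1) (x : X) : T ε hε (T (-ε) hε' x) = x := by
  apply clm_eq_id ((T ε hε).comp (T (-ε) hε'))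
  intro l j
  rw [ContinuousLinearMap.comp_apply, T_g, T_g]
  congr 1; ring

end H342R3.Inv
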