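import Pool.Agent.H342R3.InvD

set_option autoImplicit false
set_option maxHeartbeats 1000000

namespace H342R3.Inv

open scoped ENNReal

/-! ### density of the targets -/

noncomputable def val (L : List Ent) : X := (L.map (fun t => cf t • g t.1 (t.2.1 : ℤ))).sum

noncomputable def Qm : AddSubmonoid X where
  carrier := Set.range val
  zero_mem' := ⟨[], by simp [val]⟩
  add_mem' := by
    rintro _ _ ⟨L, rfl⟩ ⟨L', rfl⟩
    exact ⟨L ++ L', by simp [val]⟩

lemma cf_dense : DenseRange (fun p : ℚ × ℚ => ((p.1 : ℝ) : ℂ) + ((p.2 : ℝ) : ℂ) * Complex.I) := by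
  have h1 : DenseRange (Prod.map ((↑) : ℚ → ℝ) ((↑) : ℚ → ℝ)) :=
    Rat.denseRange_cast.prodMap Rat.denseRange_cast
  have h2 : DenseRange (fun p : ℝ × ℝ => (p.1 : ℂ) + (p.2 : ℂ) * Complex.I) := by
    apply Function.Surjective.denseRange
    intro z
    exact ⟨(z.re, z.im), Complex.re_add_im z⟩
  have h3 : Continuous (fun p : ℝ × ℝ => (p.1 : ℂ) + (p.2 : ℂ) * Complex.I) := by fun_prop
  exact h2.comp h1 h3

lemma smul_g_mem (c : ℂ) (k m : ℕ) : c • g k (m : ℤ) ∈ Qm.topologicalClosure := by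
  have h1 : c ∈ closure (Set.range (fun p : ℚ × ℚ => ((p.1 : ℝ) : ℂ) + ((p.2 : ℝ) : ℂ) * Complex.I)) :=
    cf_dense c
  have h2 : Continuous (fun c : ℂ => c • g k (m : ℤ)) := by fun_prop
  have h3 := image_closure_subset_closure_image h2 ⟨c, h1, rfl⟩
  show c • g k (m : ℤ) ∈ closure (Qm : Set X)
  refine closure_mono ?_ h3
  rintro _ ⟨_, ⟨p, rfl⟩, rfl⟩
  exact ⟨[(k, m, p.1, p.2)], by simp [val, cf]⟩

noncomputable def Sub : Submodule ℂ X where
  carrier := {v | ∀ c : ℂ, c • v ∈ Qm.topologicalClosure}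
  zero_mem' := by intro c; rw [smul_zero]; exact AddSubmonoid.zero_mem _
  add_mem' := by
    intro a b ha hb c
    rw [smul_add]; exact AddSubmonoid.add_mem _ (ha c) (hb c)
  smul_mem' := by
    intro a v hv c
    rw [smul_smul]; exact hv _

lemma g_mem_Sub (k : ℕ) (j : ℤ) : g k j ∈ Sub := by
  intro c
  have h1 : g k j = g k (((j % (Δ k : ℤ)).toNat : ℕ) : ℤ) := by
    have h2 : (0:ℤ) ≤ j % (Δ k : ℤ) := Int.emod_nonneg _ (by exact_mod_cast (Δ_pos k).ne')
    rw [Int.toNat_of_nonneg h2]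
    have h3 : j = j % (Δ k : ℤ) + Δ k * (j / Δ k) := by
      have := Int.mul_ediv_add_emod j (Δ k); linarith
    conv_lhs => rw [h3]
    exact g_period k _ _ (Dvd.intro _ rfl)
  rw [h1]
  exact smul_g_mem _ _ _

lemma Z_mem_sub {S : Submodule ℂ X} (h : ∀ k j, g k j ∈ S) (i : ℕ) (j : ℤ) : Z i j ∈ S := by
  unfold Z Zo
  apply list_sum_mem
  intro x hx
  rw [List.mem_map] at hx
  obtain ⟨t, ht, rfl⟩ := hx
  exact Submodule.smul_mem _ _ (h _ _)

lemma U_mem_sub {S : Submodule ℂ X} (h : ∀ k j, g k j ∈ S) (l i : ℕ) (j : ℤ) : U l i j ∈ S := by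
  by_cases hc : 1 ≤ i ∧ i ≤ l
  · rw [U_eq hc.1 hc.2]
    exact Submodule.sub_mem _ (Z_mem_sub h i j) (Submodule.sum_mem _ (fun k _ => h _ _))
  · rw [U_zero hc]; exact Submodule.zero_mem _

lemma f_mem_sub {S : Submodule ℂ X} (h : ∀ k j, g k j ∈ S) (l : ℕ) (j : ℤ) : f l j ∈ S := by
  have h1 : f l j = g l j - U l (tp l j) j := by rw [g_eq]; abel
  rw [h1]
  exact Submodule.sub_mem _ (h _ _) (U_mem_sub h _ _ _)

lemma single_mem_sub {S : Submodule ℂ X} (h : ∀ k j, g k j ∈ S) (i : Idx) (a : ℂ) :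
    (lp.single 2 i a : X) ∈ S := by
  obtain ⟨l, b⟩ := i
  obtain ⟨j, rfl⟩ := exists_rep b
  have hne : ((lam l j : ℝ) : ℂ) ≠ 0 := by exact_mod_cast (lam_pos l j).ne'
  have h4 : (lp.single 2 (⟨l, (j : ZMod (Δ l))⟩ : Idx) a : X) =
      (a * ((lam l j : ℝ) : ℂ)⁻¹) • f l j := by
    unfold f e
    rw [smul_smul, mul_assoc, inv_mul_cancel₀ hne, mul_one, ← lp.single_smul]
    congr 1
    simp
  rw [h4]
  exact Submodule.smul_mem _ _ (f_mem_sub h l j)

lemma Qm_dense : Dense (Set.range val) := by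
  intro x
  have hs := lp.hasSum_single (p := 2) (by norm_num) x
  have h1 : ∀ s : Finset Idx, ∑ i ∈ s, (lp.single 2 i (x i) : X) ∈ (Qm.topologicalClosure : Set X) := by
    intro s
    have : ∑ i ∈ s, (lp.single 2 i (x i) : X) ∈ Sub :=
      Submodule.sum_mem _ (fun i _ => single_mem_sub g_mem_Sub i _)
    have h2 := this 1
    rwa [one_smul] at h2
  have h3 : IsClosed (Qm.topologicalClosure : Set X) := Qm.isClosed_topologicalClosure
  have h4 := h3.mem_of_tendsto hs (Filter.Eventually.of_forall h1)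
  exact h4

lemma exists_target (V : Set X) (hV : IsOpen V) (hne : V.Nonempty) (N : ℕ) :
    ∃ i, N ≤ i ∧ 1 ≤ i ∧ Z i 0 ∈ V := by
  obtain ⟨v, hvV, L, rfl⟩ := Qm_dense.inter_open_nonempty V hV hne
  obtain ⟨n, hn⟩ := exists_enum.choose_spec L
  have hn' : en n = L := hn
  obtain ⟨B, hB⟩ : ∃ B : ℕ, (L.map (fun t => ‖cf t‖)).sum ≤ B := exists_nat_ge _
  obtain ⟨C, hC⟩ : ∃ C : ℕ, ∀ t ∈ L, t.1 < C := by
    refine ⟨(L.map (fun t => t.1)).sum + 1, ?_⟩
    intro t ht
    have : t.1 ≤ (L.map (fun t => t.1)).sum := List.single_le_sum (by simp) _ (List.mem_map_of_mem ht)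
    omega
  set m := N + B + C + 1 with hm
  have hi : m ≤ Nat.pair n m := Nat.right_le_pair _ _
  refine ⟨Nat.pair n m, by omega, by omega, ?_⟩
  have hcl : cl (Nat.pair n m) = L := by
    unfold cl
    rw [Nat.unpair_pair]
    simp only
    rw [hn', if_pos]
    refine ⟨fun t ht => ?_, ?_⟩
    · have := hC t ht; omega
    · refine hB.trans ?_
      have : B ≤ Nat.pair n m := by omega
      exact_mod_cast this
  have : Z (Nat.pair n m) 0 = val L := by
    unfold Z Zo val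
    rw [hcl]
    simp
  rw [this]
  exact hvV

/-! ### the frequently hypercyclic vector -/

lemma W_gt (m : ℕ) : 2 ≤ W m := by have := W_ge m; omega

lemma ty_last (m : ℕ) : ty (m+1) (W (m+1) - 1) = m + 1 := by
  have h6 := top_split m
  have h7 := W_ge m
  have h8 := W_pos (m+1)
  unfold ty
  rw [if_neg (by omega), if_pos (by omega)]

/-- types at the positions of the starting unit shifted -/
lemma pos_calc (l : ℕ) (r s : ℤ) (hs0 : 0 ≤ s) (hs : s < q l) :
    (((W (l+1) : ℤ) + r) * q l + s) / (q l : ℤ) = (W (l+1) : ℤ) + r ∧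
    (((W (l+1) : ℤ) + r) * q l + s) % (q l : ℤ) = s := by
  have hq := qz_pos l
  constructor
  · rw [add_comm, Int.add_mul_ediv_right _ _ hq.ne', Int.ediv_eq_zero_of_lt hs0 hs, zero_add]
  · rw [add_comm, Int.add_mul_emod_self_right, Int.emod_eq_of_lt hs0 hs]

lemma lam_core {l i : ℕ} {p : ℤ} (hi : tp l p = i) (hi1 : 1 ≤ i)
    (h1 : (τ l : ℤ) ≤ p % (q l : ℤ)) (h2 : p % (q l : ℤ) ≤ 3 * τ l) :
    lam l p ≤ (1/2)^i := by
  unfold lam
  rw [hi, if_neg (by omega)]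
  apply max_le le_rfl
  have hil : i ≤ l + 1 := by rw [← hi]; exact tp_le _ _
  have h3 : τ l ≤ ds l p := by
    unfold ds q
    have : (q l : ℤ) = 4 * τ l := by unfold q; push_cast; ring
    have hq : q l = 4 * τ l := rfl
    rw [hq] at h1 h2
    omega
  have h4 : (M l : ℝ) * 2^(l+1) ≤ 2^(τ l) := by exact_mod_cast M_trans l
  have h5 : (2:ℝ)^(τ l) ≤ 2^(ds l p) := pow_le_pow_right₀ (by norm_num) h3
  have h6 : ((1:ℝ)/2)^(l+1) ≤ (1/2)^i := pow_le_pow_of_le_one (by norm_num) (by norm_num) hil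
  refine le_trans ?_ h6
  rw [div_le_iff₀ (by positivity)]
  have h7 : ((1:ℝ)/2)^(l+1) * 2^(l+1) = 1 := by rw [← mul_pow]; norm_num
  calc (M l : ℝ) = ((1:ℝ)/2)^(l+1) * (M l * 2^(l+1)) := by
        rw [mul_comm (M l : ℝ), ← mul_assoc, h7, one_mul]
    _ ≤ ((1:ℝ)/2)^(l+1) * 2^(ds l p) := by
        apply mul_le_mul_of_nonneg_left _ (by positivity)
        linarith

lemma J_tp (l n : ℕ) (h : n ≤ 2 * τ l) : tp l (J l + n) = l + 1 ∧
    (J l + n) % (q l : ℤ) = τ l + n := by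
  have hτ := τ_pos l
  have hq : q l = 4 * τ l := rfl
  have e1 : J l + n = ((W (l+1) : ℤ) + (-1)) * q l + (τ l + n) := by unfold J; ring
  obtain ⟨h1, h2⟩ := pos_calc l (-1) (τ l + n) (by positivity) (by rw [hq]; push_cast; omega)
  rw [e1]
  refine ⟨?_, h2⟩
  unfold tp
  rw [h1]
  have hW := W_gt (l+1)
  have h3 : ((W (l+1) : ℤ) + -1) % (W (l+1) : ℤ) = ((W (l+1) - 1 : ℕ) : ℤ) := by
    rw [Int.emod_eq_of_lt (by omega) (by omega)]
    omega
  rw [h3, Int.toNat_natCast]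
  exact ty_last l

lemma J_lam (l n : ℕ) (h : n ≤ 2 * τ l) : lam l (J l + n) ≤ (1/2)^(l+1) := by
  obtain ⟨h1, h2⟩ := J_tp l n h
  apply lam_core h1 (by omega)
  · rw [h2]; omega
  · rw [h2]; omega

lemma Dp_dvd_J (l : ℕ) : (Dp l : ℤ) ∣ J l := by
  unfold J
  apply dvd_add
  · exact (Int.natCast_dvd_natCast.2 (Dp_dvd_q l)).mul_left _
  · exact Int.natCast_dvd_natCast.2 (Dp_dvd_τ l)

lemma g_J (l n : ℕ) (h : n ≤ 2 * τ l) : g l (J l + n) = f l (J l + n) := by
  rw [g_eq, (J_tp l n h).1, U_zero (by omega), add_zero]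

lemma summable_J : Summable (fun l => f l (J l)) := by
  apply Summable.of_norm_bounded (g := fun l : ℕ => (1/2 : ℝ)^(l+1))
  · exact (summable_nat_add_iff 1).2 (summable_geometric_of_lt_one (by norm_num) (by norm_num))
  · intro l
    rw [norm_f]
    have := J_lam l 0 (Nat.zero_le _)
    simpa using this

noncomputable def x0 : X := ∑' l, f l (J l)

lemma one_abs : |(1:ℤ)| ≤ 1 := by norm_num
lemma neg_one_abs : |(-1:ℤ)| ≤ 1 := by norm_num

lemma x0_iter (n : ℕ) : HasSum (fun l => g l (J l + n)) (((T 1 one_abs) ^ n) x0) := by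
  have h1 := summable_J.hasSum.mapL ((T 1 one_abs) ^ n)
  have h2 : (fun l => ((T 1 one_abs) ^ n) (f l (J l))) = fun l => g l (J l + n) := by
    funext l
    have h3 := g_J l 0 (Nat.zero_le _)
    simp only [Nat.cast_zero, add_zero] at h3
    rw [← h3, T_iter]
    congr 1; ring
  rw [h2] at h1
  exact h1

lemma τ_mono {k l : ℕ} (h : k ≤ l) : τ k ≤ τ l := by
  induction l, h using Nat.le_induction with
  | base => exact le_rfl
  | succ m _ ih =>
    refine ih.trans ?_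
    refine le_trans ?_ (Dp_le_τ (m+1))
    rw [Dp_succ]
    exact (τ_le_q m).trans (q_le_Δ m)

lemma good_time {i l n : ℕ} (hi1 : 1 ≤ i) (hil : i ≤ l) (hn : n ≤ 2 * τ (l+1))
    (htp : tp l (J l + n) = i) (ho1 : (τ l : ℤ) ≤ (J l + n) % (q l : ℤ))
    (ho2 : (J l + n) % (q l : ℤ) ≤ 3 * τ l) (hd : Dp i ∣ n) :
    ‖((T 1 one_abs) ^ n) x0 - Z i 0‖ ≤ 2 * (1/2)^i := by
  have hs := x0_iter n
  have hsplit := (hs.summable.sum_add_tsum_nat_add (l+1))
  rw [hs.tsum_eq] at hsplit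
  have hlow : ∑ k ∈ Finset.range (l+1), g k (J k + n) = Z i 0 + f l (J l + n) := by
    rw [Finset.sum_range_succ, g_eq l, htp, U_eq hi1 hil]
    have h1 : Z i (J l + n) = Z i 0 := by
      have e1 : J l + (n:ℤ) = 0 + (n:ℤ) + J l := by ring
      rw [e1, Z_period (fun k hk j => g_period_Dp (by omega : k < l) j _ (Dp_dvd_J l)),
        Z_period (fun k hk j => g_period_Dp hk j _ (Int.natCast_dvd_natCast.2 hd))]
    have h2 : ∑ k ∈ Finset.range l, g k (J k + (J l + n)) = ∑ k ∈ Finset.range l, g k (J k + n) := by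
      apply Finset.sum_congr rfl
      intro k hk
      have e1 : J k + (J l + (n:ℤ)) = J k + n + J l := by ring
      rw [e1, g_period_Dp (Finset.mem_range.1 hk) _ _ (Dp_dvd_J l)]
    rw [h1, h2]
    abel
  have htail : (fun k => g (k + (l+1)) (J (k + (l+1)) + n)) =
      fun k => f (k + (l+1)) (J (k + (l+1)) + n) := by
    funext k
    apply g_J
    refine hn.trans ?_
    have := τ_mono (by omega : l + 1 ≤ k + (l+1))
    omega
  rw [hlow, htail] at hsplit
  have h3 : ((T 1 one_abs) ^ n) x0 - Z i 0 =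
      f l (J l + n) + ∑' k, f (k + (l+1)) (J (k + (l+1)) + n) := by
    rw [← hsplit]; abel
  rw [h3]
  have h4 : ‖f l (J l + n)‖ ≤ (1/2)^i := by
    rw [norm_f]; exact lam_core htp hi1 ho1 ho2
  have h5 : ‖∑' k, f (k + (l+1)) (J (k + (l+1)) + n)‖ ≤ (1/2)^(l+1) := by
    have hgeo : HasSum (fun k : ℕ => ((1:ℝ)/2)^(l+1) * (1/2 * (1/2)^k)) ((1/2)^(l+1) * 1) := by
      apply HasSum.mul_left
      have := (hasSum_geometric_two).mul_left (1/2 : ℝ)
      norm_num at this ⊢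
      exact this
    rw [mul_one] at hgeo
    apply tsum_of_norm_bounded hgeo
    intro k
    rw [norm_f]
    refine (J_lam _ _ ?_).trans (le_of_eq ?_)
    · refine hn.trans ?_
      have := τ_mono (by omega : l + 1 ≤ k + (l+1))
      omega
    · ring
  have h6 : ((1:ℝ)/2)^(l+1) ≤ (1/2)^i :=
    pow_le_pow_of_le_one (by norm_num) (by norm_num) (by omega)
  calc ‖f l (J l + n) + ∑' k, f (k + (l+1)) (J (k + (l+1)) + n)‖
      ≤ ‖f l (J l + n)‖ + ‖∑' k, f (k + (l+1)) (J (k + (l+1)) + n)‖ := norm_add_le _ _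
    _ ≤ 2 * (1/2)^i := by linarith

end H342R3.Inv
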