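import Pool.Agent.H342R3.InvE

set_option autoImplicit false
set_option maxHeartbeats 1000000

namespace H342R3.Inv

open scoped ENNReal

/-- good times for the target `i` -/
def Pg (i n : ℕ) : Prop := ‖((T 1 one_abs) ^ n) x0 - Z i 0‖ ≤ 2 * (1/2)^i

open Classical in
lemma count_good {i l N : ℕ} (hi1 : 1 ≤ i) (hil : i ≤ l) (hN1 : 8 * W i * q l ≤ N)
    (hN2 : N ≤ 2 * τ (l+1)) :
    (N : ℝ) / (8 * W i * Dp i) ≤ (((Finset.range N).filter (Pg i)).card : ℝ) := by
  have hD : Dp i ∣ τ l := (Dp_dvd hil).trans (Dp_dvd_τ l)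
  have hDq : Dp i ∣ q l := (Dp_dvd hil).trans (Dp_dvd_q l)
  have hDpos := Dp_pos i
  have hqpos := q_pos l
  have hτpos := τ_pos l
  have hq4 : q l = 4 * τ l := rfl
  have hWl := W_gt (l+1)
  obtain ⟨S, hS⟩ : ∃ S, 2 * τ l = Dp i * S := hD.mul_left 2
  set R := N / q l - 1 with hR
  set A := (Finset.range R).filter (fun r => ty (l+1) (r % W (l+1)) = i) with hA
  have hcard : (A ×ˢ Finset.range S).card ≤ ((Finset.range N).filter (Pg i)).card := by
    apply Finset.card_le_card_of_injOn (fun p => (p.1 + 1) * q l + p.2 * Dp i)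
    · rintro ⟨r, s⟩ hp
      rw [Finset.mem_coe, Finset.mem_product, hA, Finset.mem_filter, Finset.mem_range,
        Finset.mem_range] at hp
      obtain ⟨⟨hr, hty⟩, hs⟩ := hp
      simp only at hr hty hs
      have hsD : s * Dp i + Dp i ≤ 2 * τ l := by rw [hS]; nlinarith
      have h2 : (r + 2) * q l ≤ N := by
        have : r + 2 ≤ N / q l := by omega
        calc (r+2) * q l ≤ (N / q l) * q l := Nat.mul_le_mul_right _ this
          _ ≤ N := Nat.div_mul_le_self _ _
      have hnlt : (r + 1) * q l + s * Dp i < N := by nlinarith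
      rw [Finset.mem_coe, Finset.mem_filter, Finset.mem_range]
      refine ⟨hnlt, ?_⟩
      simp only
      have e1 : J l + (((r + 1) * q l + s * Dp i : ℕ) : ℤ) =
          ((W (l+1) : ℤ) + (r:ℤ)) * q l + ((τ l : ℤ) + s * Dp i) := by
        unfold J; push_cast; ring
      have hsz : (s:ℤ) * Dp i + Dp i ≤ 2 * τ l := by exact_mod_cast hsD
      have hDz : (0:ℤ) < Dp i := by exact_mod_cast hDpos
      have hsz0 : (0:ℤ) ≤ (s:ℤ) * Dp i := by positivity
      obtain ⟨h3, h4⟩ := pos_calc l r ((τ l : ℤ) + s * Dp i) (by positivity)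
        (by rw [hq4]; push_cast; omega)
      apply good_time hi1 hil (by omega)
      · rw [e1]
        unfold tp
        rw [h3]
        have h5 : ((W (l+1) : ℤ) + (r:ℤ)) % (W (l+1) : ℤ) = ((r % W (l+1) : ℕ) : ℤ) := by
          rw [Int.add_emod_left]; rfl
        rw [h5, Int.toNat_natCast]
        exact hty
      · rw [e1, h4]; omega
      · rw [e1, h4]; omega
      · exact dvd_add (hDq.mul_left _) (Dvd.intro_left _ rfl)
    · rintro ⟨r, s⟩ hp ⟨r', s'⟩ hp' heq
      rw [Finset.mem_coe, Finset.mem_product, hA, Finset.mem_filter, Finset.mem_range,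
        Finset.mem_range] at hp hp'
      obtain ⟨⟨hr, hty⟩, hs⟩ := hp
      obtain ⟨⟨hr', hty'⟩, hs'⟩ := hp'
      simp only at hr hty hs hr' hty' hs' heq
      have hsD : s * Dp i + Dp i ≤ 2 * τ l := by rw [hS]; nlinarith
      have hsD' : s' * Dp i + Dp i ≤ 2 * τ l := by rw [hS]; nlinarith
      have h1 : ((r + 1) * q l + s * Dp i) / q l = r + 1 := by
        rw [add_comm, Nat.add_mul_div_right _ _ hqpos, Nat.div_eq_of_lt (by omega), zero_add]
      have h1' : ((r' + 1) * q l + s' * Dp i) / q l = r' + 1 := by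
        rw [add_comm, Nat.add_mul_div_right _ _ hqpos, Nat.div_eq_of_lt (by omega), zero_add]
      have hrr : r = r' := by rw [heq, h1'] at h1; omega
      subst hrr
      have hss : s = s' := Nat.eq_of_mul_eq_mul_right hDpos (by omega)
      rw [hss]
  rw [Finset.card_product, Finset.card_range] at hcard
  have hcnt : (R : ℝ) / (2 * W i) - 1 ≤ (A.card : ℝ) := cnt_final hi1 (by omega : i ≤ l+1)
  have hWi : (2:ℝ) ≤ W i := by exact_mod_cast W_gt i
  have hqr : (0:ℝ) < q l := by exact_mod_cast hqpos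
  have hDr : (0:ℝ) < Dp i := by exact_mod_cast hDpos
  have hRr : (N:ℝ) / q l - 2 ≤ R := by
    have h4 : N < (N / q l + 1) * q l := Nat.lt_mul_of_div_lt (Nat.lt_succ_self _) hqpos
    have h5 : (N:ℝ) < ((N / q l : ℕ) + 1) * q l := by exact_mod_cast h4
    have h6 : (N:ℝ) / q l < (N / q l : ℕ) + 1 := by rw [div_lt_iff₀ hqr]; exact h5
    have h7 : ((N / q l : ℕ) : ℝ) ≤ R + 1 := by
      have : N / q l ≤ R + 1 := by omega
      exact_mod_cast this
    linarith
  have hSr : (S:ℝ) = q l / (2 * Dp i) := by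
    rw [eq_div_iff (by positivity)]
    have : (2:ℝ) * τ l = Dp i * S := by exact_mod_cast hS
    have h2 : (q l : ℝ) = 4 * τ l := by rw [hq4]; push_cast; ring
    rw [h2]; linarith
  have hN1r : 8 * (W i : ℝ) * q l ≤ N := by exact_mod_cast hN1
  set a : ℝ := (N:ℝ) / (W i * q l) with ha
  have ha8 : 8 ≤ a := by
    rw [ha, le_div_iff₀ (by positivity)]; linarith
  have hNq : (N:ℝ) / q l = a * W i := by rw [ha]; field_simp
  have hA4 : a / 4 ≤ A.card := by
    refine le_trans ?_ hcnt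
    rw [hNq] at hRr
    have h8 : (a * W i - 2) / (2 * W i) ≤ (R:ℝ) / (2 * W i) := by gcongr
    have h9 : (a * W i - 2) / (2 * W i) = a / 2 - 1 / W i := by field_simp
    have h10 : 1 / (W i : ℝ) ≤ 1/2 := by
      apply one_div_le_one_div_of_le (by norm_num) hWi
    linarith
  calc (N : ℝ) / (8 * W i * Dp i) = (a / 4) * (q l / (2 * Dp i)) := by
        rw [ha]; field_simp; ring
    _ ≤ A.card * S := by rw [hSr]; gcongr
    _ ≤ _ := by exact_mod_cast hcard

open Classical in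
lemma fhc_count (i : ℕ) (hi1 : 1 ≤ i) : ∃ c : ℝ, 0 < c ∧ ∃ N₀ : ℕ, ∀ N : ℕ, N₀ ≤ N →
    c * N ≤ (((Finset.range N).filter (Pg i)).card : ℝ) := by
  have hWi : (2:ℝ) ≤ W i := by exact_mod_cast W_gt i
  have hDr : (0:ℝ) < Dp i := by exact_mod_cast Dp_pos i
  refine ⟨1 / (128 * (W i)^2 * Dp i), by positivity, 8 * W i * q i, ?_⟩
  intro N hN
  have hex : ∃ l, N < 8 * W i * q (l+1) ∧ i ≤ l := by
    refine ⟨N + i, ?_, by omega⟩
    have h1 := l_lt_Dp (N + i + 1)
    have h2 := (Dp_le_τ (N+i+1)).trans (τ_le_q _)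
    have h3 := W_pos i
    nlinarith
  have hlspec := Nat.find_spec hex
  set l := Nat.find hex with hl
  obtain ⟨hNl, hil⟩ := hlspec
  have hNl2 : 8 * W i * q l ≤ N := by
    rcases Nat.eq_or_lt_of_le hil with h | h
    · rw [← h]; exact hN
    · by_contra hcon
      push Not at hcon
      obtain ⟨l', hl'⟩ : ∃ l', l = l' + 1 := ⟨l - 1, by omega⟩
      have := Nat.find_min hex (m := l') (by omega)
      apply this
      rw [hl'] at hcon
      exact ⟨hcon, by omega⟩
  have hτ1 : 8 * W i * q l ≤ 2 * τ (l+1) := by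
    have h1 := Dp_le_τ (l+1)
    rw [Dp_succ] at h1
    unfold Δ at h1
    have h2 : W (i+1) ≤ W (l+1) := W_mono (by omega)
    rw [W_succ i] at h2
    have h3 : 8 ≤ 2^(i+2) := by
      calc 8 = 2^3 := by norm_num
        _ ≤ 2^(i+2) := Nat.pow_le_pow_right (by norm_num) (by omega)
    have h4 : 8 * W i ≤ W (l+1) := le_trans (Nat.mul_le_mul_right _ h3) h2
    have h5 : 8 * W i * q l ≤ W (l+1) * q l := Nat.mul_le_mul_right _ h4
    omega
  by_cases hcase : N ≤ 2 * τ (l+1)
  · have h := count_good hi1 hil hNl2 hcase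
    refine le_trans ?_ h
    have hNr : (0:ℝ) ≤ N := Nat.cast_nonneg _
    rw [one_div, inv_mul_eq_div]
    apply div_le_div_of_nonneg_left hNr (by positivity)
    have : 8 * (W i : ℝ) * Dp i * 1 ≤ 8 * (W i : ℝ) * Dp i * (16 * W i) := by
      apply mul_le_mul_of_nonneg_left _ (by positivity)
      linarith
    linarith [this, show 8 * (W i : ℝ) * Dp i * (16 * W i) = 128 * (W i)^2 * Dp i by ring]
  · push Not at hcase
    have h := count_good hi1 hil hτ1 le_rfl
    have hsub : (((Finset.range (2 * τ (l+1))).filter (Pg i)).card : ℝ) ≤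
        (((Finset.range N).filter (Pg i)).card : ℝ) := by
      have : ((Finset.range (2 * τ (l+1))).filter (Pg i)) ⊆ ((Finset.range N).filter (Pg i)) := by
        apply Finset.filter_subset_filter
        intro a ha
        rw [Finset.mem_range] at ha ⊢
        omega
      exact_mod_cast Finset.card_le_card this
    refine le_trans ?_ (h.trans hsub)
    have h1 : (N:ℝ) ≤ 16 * W i * ((2 * τ (l+1) : ℕ) : ℝ) := by
      have h2 : N ≤ 16 * W i * (2 * τ (l+1)) := by
        have : q (l+1) = 4 * τ (l+1) := rfl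
        rw [this] at hNl
        nlinarith
      exact_mod_cast h2
    rw [one_div, inv_mul_eq_div, div_le_div_iff₀ (by positivity) (by positivity)]
    calc (N:ℝ) * (8 * W i * Dp i) ≤ (16 * W i * ((2 * τ (l+1) : ℕ) : ℝ)) * (8 * W i * Dp i) := by
          gcongr
      _ = _ := by ring

lemma fhc_x0 (V : Set X) (hV : IsOpen V) (hne : V.Nonempty) :
    ∃ c : ℝ, 0 < c ∧ ∃ N₀ : ℕ, ∀ N : ℕ, N₀ ≤ N →
      c * (N : ℝ) ≤ (Nat.card {n : ℕ // n < N ∧ ((T 1 one_abs) ^ n) x0 ∈ V} : ℝ) := by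
  classical
  obtain ⟨v, hv⟩ := hne
  obtain ⟨ρ, hρ, hball⟩ := Metric.isOpen_iff.1 hV v hv
  obtain ⟨N, hN⟩ : ∃ N : ℕ, ((1:ℝ)/2)^N < ρ / 4 :=
    exists_pow_lt_of_lt_one (by positivity) (by norm_num)
  obtain ⟨i, hNi, hi1, hZ⟩ := exists_target (Metric.ball v (ρ/2)) Metric.isOpen_ball
    ⟨v, Metric.mem_ball_self (by positivity)⟩ N
  obtain ⟨c, hc, N₀, h⟩ := fhc_count i hi1
  refine ⟨c, hc, N₀, fun M hM => (h M hM).trans ?_⟩
  have hcard : Nat.card {n : ℕ // n < M ∧ ((T 1 one_abs) ^ n) x0 ∈ V} =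
      ((Finset.range M).filter (fun n => ((T 1 one_abs) ^ n) x0 ∈ V)).card := by
    apply Nat.subtype_card
    intro x; simp
  rw [hcard]
  have hsub : (Finset.range M).filter (Pg i) ⊆
      (Finset.range M).filter (fun n => ((T 1 one_abs) ^ n) x0 ∈ V) := by
    intro n hn
    rw [Finset.mem_filter] at hn ⊢
    refine ⟨hn.1, hball ?_⟩
    have h1 := hn.2
    unfold Pg at h1
    have h2 : ((1:ℝ)/2)^i ≤ (1/2)^N := pow_le_pow_of_le_one (by norm_num) (by norm_num) hNi
    rw [Metric.mem_ball] at hZ ⊢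
    rw [dist_eq_norm] at hZ ⊢
    calc ‖((T 1 one_abs) ^ n) x0 - v‖ = ‖(((T 1 one_abs) ^ n) x0 - Z i 0) + (Z i 0 - v)‖ := by
          congr 1; abel
      _ ≤ ‖((T 1 one_abs) ^ n) x0 - Z i 0‖ + ‖Z i 0 - v‖ := norm_add_le _ _
      _ < ρ := by linarith
  exact_mod_cast Finset.card_le_card hsub

end H342R3.Inv
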