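import Pool.Agent.H342R3.InvE

set_option autoImplicit false
set_option maxHeartbeats 1000000

namespace H342R3.Inv

open scoped ENNReal

noncomputable def B (n : ℕ) : X →L[ℂ] X := (T (-1) neg_one_abs) ^ n

lemma B_add (n m : ℕ) (v : X) : B (n + m) v = B n (B m v) := by
  unfold B; rw [pow_add]; rfl

lemma B_g (n l : ℕ) (j : ℤ) : B n (g l j) = g l (j - n) := by
  unfold B; rw [T_iter]; congr 1; ring

lemma B_U (n l i : ℕ) (j : ℤ) : B n (U l i j) = U l i (j - n) := by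
  have := map_U (B n).toLinearMap (l := l) (-(n:ℤ)) (fun k _ j => by
    show B n (g k j) = _
    rw [B_g, sub_eq_add_neg]) i j
  rw [sub_eq_add_neg]
  exact this

lemma B_f (n l : ℕ) (j : ℤ) : B n (f l j) =
    f l (j - n) + (U l (tp l (j - n)) (j - n) - U l (tp l j) (j - n)) := by
  have h1 : f l j = g l j - U l (tp l j) j := by rw [g_eq]; abel
  rw [h1, map_sub, B_g, B_U, g_eq l (j - n)]
  abel

lemma B_f_mem (n l : ℕ) (j : ℤ) : B n (f l j) ∈ Low (l+1) := by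
  rw [B_f]
  exact Submodule.add_mem _ (f_mem l _) (Low_mono (Nat.le_succ l)
    (Submodule.sub_mem _ (U_mem _ _ _) (U_mem _ _ _)))

/-- coefficients -/
noncomputable def al (x : X) (L : ℕ) (a : ZMod (Δ L)) : ℂ := x ⟨L, a⟩ / ((lamZ L a : ℝ) : ℂ)

noncomputable def blk (x : X) (L : ℕ) : X := ∑ a : ZMod (Δ L), al x L a • f L (a.val : ℤ)

noncomputable def xl (x : X) (L : ℕ) : X := ∑ k ∈ Finset.range L, blk x k

noncomputable def V (x : X) (L n : ℕ) : X := B n (xl x L)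

lemma blk_eq (x : X) (L : ℕ) : blk x L = ∑ a : ZMod (Δ L), lp.single 2 (⟨L, a⟩ : Idx) (x ⟨L, a⟩) := by
  unfold blk
  apply Finset.sum_congr rfl
  intro a _
  have hne : ((lamZ L a : ℝ) : ℂ) ≠ 0 := by exact_mod_cast (lamZ_pos L a).ne'
  unfold al f e
  have h1 : lam L (a.val : ℤ) = lamZ L a := rfl
  rw [h1, smul_smul, div_mul_cancel₀ _ hne, ← lp.single_smul]
  have h2 : (((a.val : ℤ)) : ZMod (Δ L)) = a := by simp
  rw [h2]
  congr 1
  simp

lemma xl_tendsto (x : X) : Filter.Tendsto (fun L => xl x L) Filter.atTop (nhds x) := by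
  have hs := lp.hasSum_single (p := 2) (by norm_num) x
  have h1 : Filter.Tendsto (fun L : ℕ => (Finset.range L).sigma
      (fun l => (Finset.univ : Finset (ZMod (Δ l))))) Filter.atTop Filter.atTop := by
    apply Filter.tendsto_atTop_finset_of_monotone
    · intro a b hab
      apply Finset.sigma_mono (Finset.range_mono hab)
      intro l; exact le_rfl
    · rintro ⟨l, b⟩
      exact ⟨l+1, by simp⟩
  have h2 := Filter.Tendsto.comp hs h1
  refine h2.congr ?_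
  intro L
  simp only [Function.comp]
  rw [Finset.sum_sigma]
  unfold xl
  apply Finset.sum_congr rfl
  intro k _
  rw [blk_eq]

lemma V_tendsto (x : X) (n : ℕ) : Filter.Tendsto (fun L => V x L n) Filter.atTop (nhds (B n x)) :=
  ((B n).continuous.tendsto x).comp (xl_tendsto x)

lemma V_succ (x : X) (L n : ℕ) : V x (L+1) n = V x L n + B n (blk x L) := by
  unfold V xl
  rw [Finset.sum_range_succ, map_add]

lemma V_mem (x : X) (L n : ℕ) : V x L n ∈ Low L := by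
  unfold V xl blk
  rw [map_sum]
  apply Submodule.sum_mem
  intro k hk
  rw [map_sum]
  apply Submodule.sum_mem
  intro a _
  rw [map_smul]
  exact Submodule.smul_mem _ _ (Low_mono (Finset.mem_range.1 hk) (B_f_mem _ _ _))

/-- threshold -/
noncomputable def mu (L : ℕ) : ℝ := (1/2)^L / (2 * K L * Δ L)

lemma Kr (L : ℕ) : (0:ℝ) < K L := by exact_mod_cast K_pos L
lemma Δr (L : ℕ) : (0:ℝ) < Δ L := by exact_mod_cast Δ_pos L

lemma mu_M (L : ℕ) : mu L * M L = 2 * (L + 4) := by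
  unfold mu M
  have h1 := Kr L
  have h2 := Δr L
  push_cast
  rw [div_mul_eq_mul_div, div_eq_iff (by positivity)]
  have h3 : ((1:ℝ)/2)^L * 2^L = 1 := by rw [← mul_pow]; norm_num
  calc ((1:ℝ)/2)^L * (2^(L+2) * (L+4) * Δ L * K L)
      = (((1:ℝ)/2)^L * 2^L) * (4 * (L+4) * Δ L * K L) := by rw [pow_add]; ring
    _ = _ := by rw [h3]; ring

lemma blk_coord (x : X) (L n k : ℕ) (b : ZMod (Δ k)) : (B n (blk x L)) ⟨k, b⟩ =
    ∑ a : ZMod (Δ L), al x L a * (B n (f L (a.val : ℤ))) ⟨k, b⟩ := by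
  unfold blk
  rw [map_sum, lp.coeFn_sum, Finset.sum_apply]
  apply Finset.sum_congr rfl
  intro a _
  rw [map_smul, lp.coeFn_smul, Pi.smul_apply, smul_eq_mul]

lemma norm_coord (y : X) (i : Idx) : ‖y i‖ ≤ ‖y‖ := lp.norm_apply_le_norm (by norm_num) y i

lemma step_est (x : X) (L n k : ℕ) (b : ZMod (Δ k)) (hk : k < L)
    (hbig : ∀ a : ZMod (Δ L), mu L ≤ ‖al x L a‖ →
      (U L (tp L ((a.val:ℤ) - n)) ((a.val:ℤ) - n) - U L (tp L (a.val:ℤ)) ((a.val:ℤ) - n) : X) ⟨k, b⟩ = 0) :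
    ‖V x L n ⟨k, b⟩‖ ≤ ‖V x (L+1) n ⟨k, b⟩‖ + (1/2)^L ∧
    ‖V x (L+1) n ⟨k, b⟩‖ ≤ ‖V x L n ⟨k, b⟩‖ + (1/2)^L := by
  have h0 : V x (L+1) n ⟨k, b⟩ = V x L n ⟨k, b⟩ + (B n (blk x L)) ⟨k, b⟩ := by
    rw [V_succ, lp.coeFn_add, Pi.add_apply]
  have hK := Kr L
  have hΔ := Δr L
  have h1 : ‖(B n (blk x L)) ⟨k, b⟩‖ ≤ (1/2)^L := by
    rw [blk_coord]
    refine (norm_sum_le _ _).trans ?_
    have h2 : ∀ a ∈ (Finset.univ : Finset (ZMod (Δ L))),
        ‖al x L a * (B n (f L (a.val : ℤ))) ⟨k, b⟩‖ ≤ mu L * (2 * K L) := by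
      intro a _
      have h3 : (B n (f L (a.val : ℤ))) ⟨k, b⟩ =
          (U L (tp L ((a.val:ℤ) - n)) ((a.val:ℤ) - n) - U L (tp L (a.val:ℤ)) ((a.val:ℤ) - n) : X) ⟨k, b⟩ := by
        rw [B_f, lp.coeFn_add, Pi.add_apply, f_apply_ne _ (by simp only; omega), zero_add]
      have hmu : 0 ≤ mu L := by unfold mu; positivity
      rw [h3, norm_mul]
      by_cases hb : mu L ≤ ‖al x L a‖
      · rw [hbig a hb, norm_zero, mul_zero]; positivity
      · push Not at hb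
        apply mul_le_mul hb.le _ (norm_nonneg _) hmu
        refine (norm_coord _ _).trans ((norm_sub_le _ _).trans ?_)
        have h4 := U_norm L (tp L ((a.val:ℤ) - n)) ((a.val:ℤ) - n)
        have h5 := U_norm L (tp L (a.val:ℤ)) ((a.val:ℤ) - n)
        linarith
    refine (Finset.sum_le_sum h2).trans (le_of_eq ?_)
    rw [Finset.sum_const, Finset.card_univ, ZMod.card, nsmul_eq_mul]
    unfold mu
    field_simp
  constructor
  · have h2 : V x L n ⟨k, b⟩ = V x (L+1) n ⟨k, b⟩ - (B n (blk x L)) ⟨k, b⟩ := by rw [h0]; ring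
    rw [h2]
    exact (norm_sub_le _ _).trans (by linarith)
  · rw [h0]
    exact (norm_add_le _ _).trans (by linarith)

lemma level_coord (x : X) (L n : ℕ) (a : ZMod (Δ L)) :
    ‖V x (L+1) n ⟨L, (((a.val : ℤ) - n : ℤ) : ZMod (Δ L))⟩‖ = ‖al x L a‖ * lam L ((a.val:ℤ) - n) := by
  have h0 : V x (L+1) n ⟨L, (((a.val : ℤ) - n : ℤ) : ZMod (Δ L))⟩ =
      V x L n ⟨L, (((a.val : ℤ) - n : ℤ) : ZMod (Δ L))⟩ +
      (B n (blk x L)) ⟨L, (((a.val : ℤ) - n : ℤ) : ZMod (Δ L))⟩ := by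
    rw [V_succ, lp.coeFn_add, Pi.add_apply]
  have h1 : V x L n ⟨L, (((a.val : ℤ) - n : ℤ) : ZMod (Δ L))⟩ = 0 := V_mem x L n _ le_rfl
  have h2 : ∀ a' : ZMod (Δ L), (B n (f L (a'.val : ℤ))) ⟨L, (((a.val : ℤ) - n : ℤ) : ZMod (Δ L))⟩ =
      if a = a' then ((lam L ((a.val:ℤ) - n) : ℝ) : ℂ) else 0 := by
    intro a'
    have hU : (U L (tp L ((a'.val:ℤ) - n)) ((a'.val:ℤ) - n) - U L (tp L (a'.val:ℤ)) ((a'.val:ℤ) - n) : X)
        ⟨L, (((a.val : ℤ) - n : ℤ) : ZMod (Δ L))⟩ = 0 :=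
      Submodule.sub_mem _ (U_mem _ _ _) (U_mem _ _ _) _ le_rfl
    rw [B_f, lp.coeFn_add, Pi.add_apply, hU, add_zero]
    unfold f
    rw [lp.coeFn_smul, Pi.smul_apply, e_apply_same, smul_eq_mul]
    by_cases h : a = a'
    · subst h
      rw [if_pos rfl, if_pos rfl, mul_one]
    · rw [if_neg h, if_neg, mul_zero]
      intro hc
      apply h
      push_cast at hc
      have := sub_left_injective hc
      simpa using this
  rw [h0, h1, zero_add, blk_coord]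
  simp only [h2, mul_ite, mul_zero]
  rw [Finset.sum_ite_eq]
  simp only [Finset.mem_univ, if_true]
  rw [norm_mul, Complex.norm_real, Real.norm_of_nonneg (lam_pos _ _).le]

/-- the good times at stage `L` -/
def Gd (x : X) (k0 L n : ℕ) : Prop :=
  ∀ k, k0 ≤ k → k < L → ∀ b : ZMod (Δ k), ‖V x L n ⟨k, b⟩‖ ≤ 1 + 2 * (1/2)^L

lemma notH {x : X} {k0 L n : ℕ} (hk : k0 ≤ L) (hG : Gd x k0 (L+1) n) {a : ZMod (Δ L)}
    (ha : mu L ≤ ‖al x L a‖) : tp L ((a.val:ℤ) - n) ≠ 0 := by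
  intro h0
  have h1 := hG L hk (Nat.lt_succ_self L) (((a.val : ℤ) - n : ℤ) : ZMod (Δ L))
  rw [level_coord] at h1
  have h2 : lam L ((a.val:ℤ) - n) = M L := by unfold lam; rw [if_pos h0]
  rw [h2] at h1
  have h3 : mu L * M L ≤ ‖al x L a‖ * M L := mul_le_mul_of_nonneg_right ha (Nat.cast_nonneg _)
  rw [mu_M] at h3
  have h4 : ((1:ℝ)/2)^(L+1) ≤ 1 := pow_le_one₀ (by norm_num) (by norm_num)
  have h5 : (0:ℝ) ≤ L := Nat.cast_nonneg _
  linarith

lemma init {x : X} {L : ℕ} (hx : ‖x‖ ≤ L) {a : ZMod (Δ L)}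
    (ha : mu L ≤ ‖al x L a‖) : tp L (a.val:ℤ) ≠ 0 := by
  intro h0
  have h2 : lamZ L a = M L := by
    show lam L (a.val:ℤ) = M L
    unfold lam; rw [if_pos h0]
  have h3 : mu L * M L ≤ ‖al x L a‖ * M L := mul_le_mul_of_nonneg_right ha (Nat.cast_nonneg _)
  rw [mu_M] at h3
  have h4 : ‖al x L a‖ * M L = ‖x ⟨L, a⟩‖ := by
    unfold al
    have hM := M_ge_two L
    rw [norm_div, Complex.norm_real, Real.norm_of_nonneg (lamZ_pos _ _).le, h2,
      div_mul_cancel₀ _ (by linarith)]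
  have h5 := norm_coord x ⟨L, a⟩
  have h6 : (0:ℝ) ≤ L := Nat.cast_nonneg _
  linarith

lemma step_good {x : X} {k0 L n : ℕ} (hG : Gd x k0 (L+1) n)
    (h : ∀ a : ZMod (Δ L), mu L ≤ ‖al x L a‖ →
      (tp L ((a.val:ℤ) - n) = tp L (a.val:ℤ) ∨
       (tp L ((a.val:ℤ) - n) ≠ 0 ∧ tp L (a.val:ℤ) ≠ 0 ∧
        tp L ((a.val:ℤ) - n) < k0 ∧ tp L (a.val:ℤ) < k0))) : Gd x k0 L n := by
  intro k hk hkL b
  have h1 := (step_est x L n k b hkL ?_).1
  · have h2 := hG k hk (by omega) b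
    have h3 : ((1:ℝ)/2)^(L+1) = (1/2)^L / 2 := by ring
    rw [h3] at h2
    linarith
  · intro a ha
    rcases h a ha with heq | ⟨h2, h3, h4, h5⟩
    · rw [heq, sub_self]; rfl
    · rw [U_eq (by omega) (by omega), U_eq (by omega) (by omega)]
      have h6 : (Z (tp L ((a.val:ℤ) - n)) ((a.val:ℤ) - n) -
          ∑ k ∈ Finset.range L, g k (J k + ((a.val:ℤ) - n)) -
          (Z (tp L (a.val:ℤ)) ((a.val:ℤ) - n) -
          ∑ k ∈ Finset.range L, g k (J k + ((a.val:ℤ) - n))) : X) =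
          Z (tp L ((a.val:ℤ) - n)) ((a.val:ℤ) - n) - Z (tp L (a.val:ℤ)) ((a.val:ℤ) - n) := by abel
      rw [h6]
      have h7 : (Z (tp L ((a.val:ℤ) - n)) ((a.val:ℤ) - n) - Z (tp L (a.val:ℤ)) ((a.val:ℤ) - n) : X)
          ∈ Low k0 :=
        Submodule.sub_mem _ (Low_mono h4.le (Z_mem _ _)) (Low_mono h5.le (Z_mem _ _))
      exact h7 _ hk

lemma V_period (x : X) (L n m : ℕ) (hm : Dp L ∣ m) : V x L (n + m) = V x L n := by
  unfold V
  rw [B_add]
  congr 1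
  unfold xl blk
  rw [map_sum]
  apply Finset.sum_congr rfl
  intro k hk
  rw [map_sum]
  apply Finset.sum_congr rfl
  intro a _
  rw [map_smul, B_f]
  have h1 : Δ k ∣ m := (Δ_dvd_Dp (Finset.mem_range.1 hk)).trans hm
  obtain ⟨c, rfl⟩ := h1
  have e1 : (a.val : ℤ) - ((Δ k * c : ℕ) : ℤ) = (a.val : ℤ) + (-(c:ℤ)) * Δ k := by push_cast; ring
  rw [e1, f_period, tp_period, sub_self, add_zero]

lemma Gd_period (x : X) (k0 L n m : ℕ) (hm : Dp L ∣ m) : Gd x k0 L (n + m) ↔ Gd x k0 L n := by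
  unfold Gd
  rw [V_period x L n m hm]

lemma W_pred (i : ℕ) : 1 ≤ W i - 1 := by have := W_gt i; omega

/-- small shifts keep the type -/
lemma same_type {L : ℕ} {p : ℤ} {n : ℕ} (hn : n ≤ q L) (h1 : tp L p ≠ 0) (h2 : tp L (p - n) ≠ 0) :
    tp L (p - n) = tp L p := by
  have hq := qz_pos L
  by_cases hc : (p - n) / (q L : ℤ) = p / (q L : ℤ)
  · unfold tp; rw [hc]
  · exfalso
    apply h2
    have hb := off_bounds L p
    have hb' := off_bounds L (p - n)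
    have e1 := Int.mul_ediv_add_emod p (q L)
    have e2 := Int.mul_ediv_add_emod (p - n) (q L)
    have hle : (p - n) / (q L : ℤ) ≤ p / (q L : ℤ) := Int.ediv_le_ediv hq (by omega)
    have hge : p / (q L : ℤ) - 1 ≤ (p - n) / (q L : ℤ) := by
      have h3 : (p - (q L : ℤ)) / (q L : ℤ) = p / (q L : ℤ) - 1 := by
        have := Int.add_mul_ediv_right p (-1) hq.ne'
        rw [show p - (q L : ℤ) = p + (-1) * (q L : ℤ) by ring, this]; ring
      rw [← h3]
      exact Int.ediv_le_ediv hq (by omega)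
    apply tp_gap (l := L) (p := p) (by omega) (t := 1) le_rfl
    · have := W_pred (tp L p - 1)
      have h4 := W_gt (tp L p - 1)
      omega
    · omega

lemma early {x : X} {k0 L n : ℕ} (hk0 : k0 ≤ L) (hx : ‖x‖ ≤ L) (hn : n ≤ Dp L)
    (hv : ‖B n x‖ < 1) : Gd x k0 L n := by
  have h1 : ∀ᶠ L' in Filter.atTop, ‖V x L' n‖ < 1 :=
    (V_tendsto x n).norm.eventually_lt_const hv
  obtain ⟨L', hL', hLL'⟩ := (h1.and (Filter.eventually_ge_atTop L)).exists
  have h2 : Gd x k0 L' n := by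
    intro k _ _ b
    have h3 := norm_coord (V x L' n) ⟨k, b⟩
    have h4 : (0:ℝ) ≤ 2 * (1/2)^L' := by positivity
    linarith
  obtain ⟨d, rfl⟩ := Nat.exists_eq_add_of_le hLL'
  clear hL' hLL'
  induction d with
  | zero => exact h2
  | succ d ih =>
    apply ih
    have hLd : ‖x‖ ≤ ((L + d : ℕ) : ℝ) := by push_cast; have : (0:ℝ) ≤ d := Nat.cast_nonneg _; linarith
    have hkd : k0 ≤ L + d := hk0.trans (Nat.le_add_right _ _)
    apply step_good (L := L + d) h2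
    intro a ha
    left
    have h5 := notH (k0 := k0) (L := L + d) hkd h2 ha
    have h6 := init hLd ha
    apply same_type _ h6 h5
    refine hn.trans ((Dp_mono (Nat.le_add_right L d)).trans ?_)
    exact (Dp_le_τ _).trans (τ_le_q _)

end H342R3.Inv
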