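import Pool.Agent.H342R3.InvG

set_option autoImplicit false
set_option maxHeartbeats 1000000

namespace H342R3.Inv

open scoped ENNReal

open Classical in
/-- number of visits -/
noncomputable def vis (x : X) (N : ℕ) : ℕ := ((Finset.range N).filter (fun n => ‖B n x‖ < 1)).card

open Classical in
noncomputable def cG (x : X) (k0 L : ℕ) : ℕ := ((Finset.range (Dp L)).filter (Gd x k0 L)).card

/-- initial types are bounded -/
lemma init_type {x : X} {k0 L N0 i1 : ℕ} {θ : ℝ} (hθ0 : 0 < θ)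
    (hθ : ∀ N, N0 ≤ N → θ * N ≤ (vis x N : ℝ))
    (hi1 : 1 < θ * ((W (i1 - 1) : ℝ) - 1)) (hk0 : k0 ≤ L) (hx : ‖x‖ ≤ L) (hN0 : N0 ≤ L)
    {a : ZMod (Δ L)} (ha : mu L ≤ ‖al x L a‖) : tp L (a.val:ℤ) < i1 := by
  classical
  by_contra hcon
  push Not at hcon
  set i := tp L (a.val:ℤ) with hi
  have hi0 : i ≠ 0 := init hx ha
  have hiL : i ≤ L + 1 := tp_le _ _
  have hq := q_pos L
  have hqz := qz_pos L
  obtain ⟨hb0, hb1⟩ := off_bounds L (a.val:ℤ)
  set off : ℕ := ((a.val:ℤ) % (q L : ℤ)).toNat with hoff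
  have hoffz : (off : ℤ) = (a.val:ℤ) % (q L : ℤ) := Int.toNat_of_nonneg hb0
  have hoffq : off < q L := by omega
  set w := W (i - 1) with hw
  have hw2 : 2 ≤ w := W_gt _
  set N := off + (w - 1) * q L + 1 with hN
  have e1 := Int.mul_ediv_add_emod (a.val:ℤ) (q L)
  -- no visits for n in (off, N)
  have hno : ∀ n, off < n → n < N → ¬ ‖B n x‖ < 1 := by
    intro n hn1 hn2 hv
    have hwW : w ≤ W (L+1) := W_mono (by omega)
    have hnD : n ≤ Dp (L+1) := by
      rw [Dp_succ]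
      unfold Δ
      have h1 : (w - 1) * q L + q L = w * q L := by
        have : w = (w - 1) + 1 := by omega
        conv_rhs => rw [this]
        ring
      have h2 : w * q L ≤ W (L+1) * q L := Nat.mul_le_mul_right _ hwW
      omega
    have hx' : ‖x‖ ≤ ((L+1 : ℕ) : ℝ) := by push_cast; linarith
    have hG := early (k0 := k0) (L := L+1) (by omega) hx' hnD hv
    have hnH := notH hk0 hG ha
    apply hnH
    have e2 := Int.mul_ediv_add_emod ((a.val:ℤ) - n) (q L)
    obtain ⟨hb2, hb3⟩ := off_bounds L ((a.val:ℤ) - n)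
    set A := (a.val:ℤ) / (q L : ℤ) with hA
    set A' := ((a.val:ℤ) - n) / (q L : ℤ) with hA'
    have hwz : ((w - 1 : ℕ) : ℤ) = (w : ℤ) - 1 := by omega
    have hNz : (n:ℤ) ≤ off + ((w:ℤ) - 1) * q L := by
      have : n ≤ off + (w-1) * q L := by omega
      have h3 : (n:ℤ) ≤ ((off + (w-1) * q L : ℕ) : ℤ) := by exact_mod_cast this
      push_cast at h3
      rw [hwz] at h3
      exact h3
    have h4 : A' < A := by
      by_contra h5
      push Not at h5
      have : (q L : ℤ) * A ≤ (q L : ℤ) * A' := Int.mul_le_mul_of_nonneg_left h5 hqz.le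
      omega
    have h6 : A - A' ≤ (w:ℤ) - 1 := by
      by_contra h5
      push Not at h5
      have h7 : (w:ℤ) ≤ A - A' := by omega
      have : (q L : ℤ) * w ≤ (q L : ℤ) * (A - A') := Int.mul_le_mul_of_nonneg_left h7 hqz.le
      nlinarith
    apply tp_gap (l := L) (p := (a.val:ℤ)) (by omega) (t := A - A') (by omega)
    · exact h6
    · show A' = A - (A - A')
      ring
  have hvis : vis x N ≤ q L := by
    unfold vis
    have hsub : (Finset.range N).filter (fun n => ‖B n x‖ < 1) ⊆ Finset.range (off + 1) := by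
      intro n hn
      rw [Finset.mem_filter, Finset.mem_range] at hn
      rw [Finset.mem_range]
      by_contra hc
      exact hno n (by omega) hn.1 hn.2
    have := Finset.card_le_card hsub
    rw [Finset.card_range] at this
    omega
  have hNN0 : N0 ≤ N := by
    have h1 := l_lt_Dp L
    have h2 := (Dp_le_τ L).trans (τ_le_q L)
    have h3 : q L ≤ (w-1) * q L := Nat.le_mul_of_pos_left _ (by omega)
    omega
  have h1 := hθ N hNN0
  have h2 : (vis x N : ℝ) ≤ q L := by exact_mod_cast hvis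
  have hqr : (0:ℝ) < q L := by exact_mod_cast hq
  have h3 : ((W (i1 - 1) : ℝ) - 1) * q L ≤ N := by
    have h4 : W (i1 - 1) ≤ w := W_mono (by omega)
    have h5 : (W (i1 - 1) - 1) * q L ≤ N := by
      have : (W (i1-1) - 1) * q L ≤ (w - 1) * q L := Nat.mul_le_mul_right _ (by omega)
      omega
    have h6 : (((W (i1 - 1) - 1) * q L : ℕ) : ℝ) ≤ N := by exact_mod_cast h5
    rw [Nat.cast_mul, Nat.cast_sub (W_pos _)] at h6
    exact_mod_cast h6
  have h7 : θ * (((W (i1 - 1) : ℝ) - 1) * q L) ≤ θ * N := mul_le_mul_of_nonneg_left h3 hθ0.le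
  nlinarith

/-- periodic counting -/
lemma count_periodic {p : ℕ → Prop} [DecidablePred p] {m : ℕ} (hp : ∀ n, p (m + n) ↔ p n) (c : ℕ) :
    ((Finset.range (m * c)).filter p).card = c * ((Finset.range m).filter p).card := by
  rw [← Nat.count_eq_card_filter_range, ← Nat.count_eq_card_filter_range]
  induction c with
  | zero => simp
  | succ c ih =>
    have e1 : m * (c+1) = m + m * c := by ring
    rw [e1, Nat.count_add]
    have : Nat.count (fun k => p (m + k)) (m * c) = Nat.count p (m * c) := by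
      congr 1
      funext k
      exact propext (hp k)
    simp only [hp]
    rw [ih]
    ring

open Classical in
lemma cG_big (x : X) (k0 L : ℕ) : ∃ c, Δ L = Dp L * c ∧
    ((Finset.range (Δ L)).filter (Gd x k0 L)).card = c * cG x k0 L := by
  obtain ⟨c, hc⟩ := Dp_dvd_Δ L
  refine ⟨c, hc, ?_⟩
  rw [hc]
  unfold cG
  apply count_periodic
  intro n
  rw [add_comm]
  exact Gd_period x k0 L n _ dvd_rfl

/-- density -/
noncomputable def dn (x : X) (k0 L : ℕ) : ℝ := (cG x k0 L : ℝ) / Dp L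

open Classical in
lemma dn_big (x : X) (k0 L : ℕ) :
    (((Finset.range (Δ L)).filter (Gd x k0 L)).card : ℝ) = dn x k0 L * Δ L := by
  obtain ⟨c, hc, h⟩ := cG_big x k0 L
  have hD : (0:ℝ) < Dp L := by exact_mod_cast Dp_pos L
  rw [h, hc]
  unfold dn
  push_cast
  field_simp

lemma dn_le_one (x : X) (k0 L : ℕ) : dn x k0 L ≤ 1 := by
  classical
  unfold dn
  have hD : (0:ℝ) < Dp L := by exact_mod_cast Dp_pos L
  rw [div_le_one hD]
  have : cG x k0 L ≤ Dp L := by
    unfold cG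
    calc _ ≤ (Finset.range (Dp L)).card := Finset.card_filter_le _ _
      _ = Dp L := Finset.card_range _
  exact_mod_cast this

lemma dn_succ_eq (x : X) (k0 L : ℕ) : dn x k0 (L+1) * Δ L = cG x k0 (L+1) := by
  unfold dn
  rw [Dp_succ]
  have hD : (0:ℝ) < Δ L := Δr L
  field_simp

lemma theta_le {x : X} {k0 L N0 : ℕ} {θ : ℝ}
    (hθ : ∀ N, N0 ≤ N → θ * N ≤ (vis x N : ℝ)) (hk0 : k0 ≤ L) (hx : ‖x‖ ≤ L) (hN0 : N0 ≤ L) :
    θ ≤ dn x k0 L := by
  classical
  have hD : (0:ℝ) < Dp L := by exact_mod_cast Dp_pos L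
  unfold dn
  rw [le_div_iff₀ hD]
  refine (hθ (Dp L) (by have := l_lt_Dp L; omega)).trans ?_
  have : vis x (Dp L) ≤ cG x k0 L := by
    unfold vis cG
    apply Finset.card_le_card
    intro n hn
    rw [Finset.mem_filter, Finset.mem_range] at hn ⊢
    exact ⟨hn.1, early hk0 hx hn.1.le hn.2⟩
  exact_mod_cast this

lemma dn_inactive {x : X} {k0 L : ℕ} (h : ∀ a : ZMod (Δ L), ¬ mu L ≤ ‖al x L a‖) :
    dn x k0 (L+1) ≤ dn x k0 L := by
  classical
  have hΔ := Δr L
  have h1 : (cG x k0 (L+1) : ℝ) ≤ (((Finset.range (Δ L)).filter (Gd x k0 L)).card : ℝ) := by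
    have : cG x k0 (L+1) ≤ ((Finset.range (Δ L)).filter (Gd x k0 L)).card := by
      unfold cG
      rw [Dp_succ]
      apply Finset.card_le_card
      intro n hn
      rw [Finset.mem_filter] at hn ⊢
      exact ⟨hn.1, step_good hn.2 (fun a ha => absurd ha (h a))⟩
    exact_mod_cast this
  rw [← dn_succ_eq, dn_big] at h1
  exact le_of_mul_le_mul_right h1 hΔ

lemma Gd_mod (x : X) (k0 L m : ℕ) : Gd x k0 L (m % Δ L) ↔ Gd x k0 L m := by
  have h1 : m = m % Δ L + Δ L * (m / Δ L) := (Nat.mod_add_div m (Δ L)).symm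
  conv_rhs => rw [h1]
  exact (Gd_period x k0 L _ _ ((Dp_dvd_Δ L).mul_right _)).symm

lemma tp_mod (L m : ℕ) (p : ℤ) : tp L (p - ((m % Δ L : ℕ) : ℤ)) = tp L (p - m) := by
  have h1 : (m : ℤ) = ((m % Δ L : ℕ) : ℤ) + (Δ L : ℤ) * ((m / Δ L : ℕ) : ℤ) := by
    exact_mod_cast (Nat.mod_add_div m (Δ L)).symm
  have h2 : p - ((m % Δ L : ℕ) : ℤ) = (p - m) + ((m / Δ L : ℕ) : ℤ) * Δ L := by
    rw [show (p - (m:ℤ)) = p - (((m % Δ L : ℕ) : ℤ) + (Δ L : ℤ) * ((m / Δ L : ℕ) : ℤ)) by rw [← h1]]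
    ring
  rw [h2, tp_period]

open Classical in
lemma half_lemma (x : X) (k0 L : ℕ) (p : ℤ) :
    2 * ((Finset.range (Δ L)).filter (fun n => Gd x k0 L n ∧ tp L (p - n) ≠ 0)).card ≤
      ((Finset.range (Δ L)).filter (Gd x k0 L)).card := by
  have hΔ := Δ_pos L
  set A := (Finset.range (Δ L)).filter (fun n => Gd x k0 L n ∧ tp L (p - n) ≠ 0) with hA
  set A' := (Finset.range (Δ L)).filter (fun n => Gd x k0 L n ∧ tp L (p - n) = 0) with hA'
  have h1 : A.card ≤ A'.card := by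
    apply Finset.card_le_card_of_injOn (fun n => (n + q L) % Δ L)
    · intro n hn
      rw [Finset.mem_coe, hA, Finset.mem_filter] at hn
      rw [Finset.mem_coe, hA', Finset.mem_filter, Finset.mem_range]
      refine ⟨Nat.mod_lt _ hΔ, ?_, ?_⟩
      · simp only
        rw [Gd_mod, Gd_period x k0 L _ _ (Dp_dvd_q L)]
        exact hn.2.1
      · simp only
        rw [tp_mod]
        apply tp_gap (l := L) (p := p - n) (by have := hn.2.2; omega) (t := 1) le_rfl
        · have := W_pred (tp L (p - n) - 1)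
          have h4 := W_gt (tp L (p - n) - 1)
          omega
        · have hq := qz_pos L
          have := Int.add_mul_ediv_right (p - n) (-1) hq.ne'
          rw [show p - ((n + q L : ℕ) : ℤ) = (p - n) + (-1) * (q L : ℤ) by push_cast; ring, this]
          ring
    · intro n hn n' hn' heq
      rw [Finset.mem_coe, hA, Finset.mem_filter, Finset.mem_range] at hn hn'
      have h2 : n + q L ≡ n' + q L [MOD Δ L] := heq
      have h3 := Nat.ModEq.add_right_cancel' _ h2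
      exact Nat.ModEq.eq_of_lt_of_lt h3 hn.1 hn'.1
  have h2 : A.card + A'.card ≤ ((Finset.range (Δ L)).filter (Gd x k0 L)).card := by
    rw [← Finset.card_union_of_disjoint]
    · apply Finset.card_le_card
      intro n hn
      rw [Finset.mem_union, hA, hA', Finset.mem_filter, Finset.mem_filter] at hn
      rw [Finset.mem_filter]
      rcases hn with h | h
      · exact ⟨h.1, h.2.1⟩
      · exact ⟨h.1, h.2.1⟩
    · rw [Finset.disjoint_left]
      intro n hn hn'
      rw [hA, Finset.mem_filter] at hn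
      rw [hA', Finset.mem_filter] at hn'
      exact hn.2.2 hn'.2.2
  omega

open Classical in
lemma useful_lemma (x : X) {k0 L i1 : ℕ} (hk0 : k0 ≤ L) (hi1 : 1 ≤ i1) :
    W (i1 - 1) * ((Finset.range (Δ L)).filter (fun n => Gd x k0 (L+1) n ∧
      ∃ a : ZMod (Δ L), mu L ≤ ‖al x L a‖ ∧ i1 ≤ tp L ((a.val:ℤ) - n))).card ≤ Δ L := by
  have hΔ := Δ_pos L
  set A := (Finset.range (Δ L)).filter (fun n => Gd x k0 (L+1) n ∧
      ∃ a : ZMod (Δ L), mu L ≤ ‖al x L a‖ ∧ i1 ≤ tp L ((a.val:ℤ) - n)) with hA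
  have key : ∀ n ∈ A, ∀ n' ∈ A, ∀ t t', t < t' → t' < W (i1 - 1) →
      (n + t * q L) % Δ L = (n' + t' * q L) % Δ L → False := by
    intro n hn n' hn' t t' htt ht' heq
    rw [hA, Finset.mem_filter, Finset.mem_range] at hn hn'
    obtain ⟨hn1, hn2, _⟩ := hn
    obtain ⟨hn1', hn2', a, ha, hta⟩ := hn'
    apply notH hk0 hn2 ha
    -- tp L (a - n) = tp L (a - n' - (t'-t) q)
    have h1 : tp L ((a.val:ℤ) + t * q L - ((n + t * q L : ℕ) : ℤ)) =
        tp L ((a.val:ℤ) + t * q L - ((n' + t' * q L : ℕ) : ℤ)) := by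
      rw [← tp_mod, heq, tp_mod]
    have h2 : (a.val:ℤ) + t * q L - ((n + t * q L : ℕ) : ℤ) = (a.val:ℤ) - n := by push_cast; ring
    rw [h2] at h1
    rw [h1]
    apply tp_gap (l := L) (p := (a.val:ℤ) - n') (by omega) (t := (t':ℤ) - t) (by omega)
    · have h3 : W (i1 - 1) ≤ W (tp L ((a.val:ℤ) - n') - 1) := W_mono (by omega)
      omega
    · have hq := qz_pos L
      have := Int.add_mul_ediv_right ((a.val:ℤ) - n') (-((t':ℤ) - t)) hq.ne'
      rw [show (a.val:ℤ) + t * q L - ((n' + t' * q L : ℕ) : ℤ) =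
        ((a.val:ℤ) - n') + (-((t':ℤ) - t)) * (q L : ℤ) by push_cast; ring, this]
      ring
  have hcard : (Finset.range (W (i1 - 1)) ×ˢ A).card ≤ (Finset.range (Δ L)).card := by
    apply Finset.card_le_card_of_injOn (fun p => (p.2 + p.1 * q L) % Δ L)
    · rintro ⟨t, n⟩ _
      rw [Finset.mem_coe, Finset.mem_range]
      exact Nat.mod_lt _ hΔ
    · rintro ⟨t, n⟩ hp ⟨t', n'⟩ hp' heq
      rw [Finset.mem_coe, Finset.mem_product, Finset.mem_range] at hp hp'
      simp only at hp hp' heq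
      rcases lt_trichotomy t t' with h | h | h
      · exact (key n hp.2 n' hp'.2 t t' h hp'.1 heq).elim
      · subst h
        have h2 : n + t * q L ≡ n' + t * q L [MOD Δ L] := heq
        have h3 := Nat.ModEq.add_right_cancel' _ h2
        have hn1 := hp.2
        have hn2 := hp'.2
        rw [hA, Finset.mem_filter, Finset.mem_range] at hn1 hn2
        rw [Nat.ModEq.eq_of_lt_of_lt h3 hn1.1 hn2.1]
      · exact (key n' hp'.2 n hp.2 t' t h hp.1 heq.symm).elim
  rwa [Finset.card_product, Finset.card_range, Finset.card_range] at hcard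

lemma dn_active {x : X} {L N0 i1 : ℕ} {θ : ℝ} (hθ0 : 0 < θ)
    (hθ : ∀ N, N0 ≤ N → θ * N ≤ (vis x N : ℝ))
    (hi1 : 1 < θ * ((W (i1 - 1) : ℝ) - 1)) (hi1' : 1 ≤ i1) (hi4 : 4 ≤ θ * W (i1 - 1))
    (hk0 : i1 ≤ L) (hx : ‖x‖ ≤ L) (hN0 : N0 ≤ L)
    (hact : ∃ a : ZMod (Δ L), mu L ≤ ‖al x L a‖) :
    dn x i1 (L+1) ≤ 3/4 * dn x i1 L := by
  classical
  obtain ⟨a0, ha0⟩ := hact
  have hΔ := Δr L
  have hsub : (Finset.range (Δ L)).filter (Gd x i1 (L+1)) ⊆
      (Finset.range (Δ L)).filter (fun n => Gd x i1 L n ∧ tp L ((a0.val:ℤ) - n) ≠ 0) ∪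
      (Finset.range (Δ L)).filter (fun n => Gd x i1 (L+1) n ∧
        ∃ a : ZMod (Δ L), mu L ≤ ‖al x L a‖ ∧ i1 ≤ tp L ((a.val:ℤ) - n)) := by
    intro n hn
    rw [Finset.mem_filter] at hn
    rw [Finset.mem_union, Finset.mem_filter, Finset.mem_filter]
    by_cases hu : ∃ a : ZMod (Δ L), mu L ≤ ‖al x L a‖ ∧ i1 ≤ tp L ((a.val:ℤ) - n)
    · exact Or.inr ⟨hn.1, hn.2, hu⟩
    · left
      push Not at hu
      refine ⟨hn.1, ?_, notH hk0 hn.2 ha0⟩
      apply step_good hn.2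
      intro a ha
      right
      exact ⟨notH hk0 hn.2 ha, init hx ha, hu a ha, init_type hθ0 hθ hi1 hk0 hx hN0 ha⟩
  have h1 := (Finset.card_le_card hsub).trans (Finset.card_union_le _ _)
  have h2 := half_lemma x i1 L (a0.val:ℤ)
  have h3 := useful_lemma x (L := L) hk0 hi1'
  set c1 := ((Finset.range (Δ L)).filter (fun n => Gd x i1 L n ∧ tp L ((a0.val:ℤ) - n) ≠ 0)).card
  set c2 := ((Finset.range (Δ L)).filter (fun n => Gd x i1 (L+1) n ∧
        ∃ a : ZMod (Δ L), mu L ≤ ‖al x L a‖ ∧ i1 ≤ tp L ((a.val:ℤ) - n))).card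
  have h4 : cG x i1 (L+1) = ((Finset.range (Δ L)).filter (Gd x i1 (L+1))).card := rfl
  have h1r : (cG x i1 (L+1) : ℝ) ≤ c1 + c2 := by rw [h4]; exact_mod_cast h1
  have h2r : 2 * (c1 : ℝ) ≤ dn x i1 L * Δ L := by rw [← dn_big]; exact_mod_cast h2
  have h3r : (W (i1 - 1) : ℝ) * c2 ≤ Δ L := by exact_mod_cast h3
  have hth := theta_le hθ hk0 hx hN0
  have h5 : (c2 : ℝ) ≤ θ / 4 * Δ L := by
    have hW : (0:ℝ) < W (i1 - 1) := by exact_mod_cast W_pos _
    have : (c2:ℝ) * 4 ≤ (c2:ℝ) * (θ * W (i1 - 1)) :=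
      mul_le_mul_of_nonneg_left hi4 (Nat.cast_nonneg _)
    nlinarith
  have h6 : dn x i1 (L+1) * Δ L ≤ (3/4 * dn x i1 L) * Δ L := by
    rw [dn_succ_eq]
    have : θ * Δ L ≤ dn x i1 L * Δ L := mul_le_mul_of_nonneg_right hth hΔ.le
    nlinarith
  exact le_of_mul_le_mul_right h6 hΔ

lemma W_unbounded (C : ℝ) : ∃ i, C ≤ W i := by
  obtain ⟨n, hn⟩ := exists_nat_ge C
  refine ⟨n, hn.trans ?_⟩
  have := W_ge n
  have h2 : n ≤ W n := by omega
  exact_mod_cast h2

/-- infinitely many active levels are impossible -/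
lemma contra_active {x : X} {N0 : ℕ} {θ : ℝ} (hθ0 : 0 < θ)
    (hθ : ∀ N, N0 ≤ N → θ * N ≤ (vis x N : ℝ))
    (hinf : ∀ L0 : ℕ, ∃ L, L0 ≤ L ∧ ∃ a : ZMod (Δ L), mu L ≤ ‖al x L a‖) : False := by
  obtain ⟨i, hi⟩ := W_unbounded (4 / θ + 2)
  set i1 := i + 1 with hi1def
  have hi1e : i1 - 1 = i := by omega
  have h1 : 1 < θ * ((W (i1 - 1) : ℝ) - 1) := by
    rw [hi1e]
    have h2 : θ * (4 / θ + 2) ≤ θ * W i := mul_le_mul_of_nonneg_left hi hθ0.le
    have h3 : θ * (4 / θ + 2) = 4 + 2 * θ := by field_simp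
    nlinarith
  have h4 : 4 ≤ θ * W (i1 - 1) := by
    rw [hi1e]
    have h2 : θ * (4 / θ + 2) ≤ θ * W i := mul_le_mul_of_nonneg_left hi hθ0.le
    have h3 : θ * (4 / θ + 2) = 4 + 2 * θ := by field_simp
    nlinarith
  obtain ⟨nx, hnx⟩ := exists_nat_ge ‖x‖
  set L1 := i1 + nx + N0 with hL1
  have hnorm : ∀ L, L1 ≤ L → ‖x‖ ≤ L := by
    intro L hL
    refine hnx.trans ?_
    have : nx ≤ L := by omega
    exact_mod_cast this
  have hact : ∀ L, L1 ≤ L → (∃ a : ZMod (Δ L), mu L ≤ ‖al x L a‖) →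
      dn x i1 (L+1) ≤ 3/4 * dn x i1 L := fun L hL ha =>
    dn_active hθ0 hθ h1 (by omega) h4 (by omega) (hnorm L hL) (by omega) ha
  have hge : ∀ L, L1 ≤ L → θ ≤ dn x i1 L := fun L hL =>
    theta_le hθ (by omega) (hnorm L hL) (by omega)
  have hmono : ∀ L, L1 ≤ L → dn x i1 (L+1) ≤ dn x i1 L := by
    intro L hL
    by_cases ha : ∃ a : ZMod (Δ L), mu L ≤ ‖al x L a‖
    · have := hact L hL ha
      have h5 := hge L hL
      linarith
    · push Not at ha
      exact dn_inactive (fun a => not_le.2 (ha a))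
  have hmono2 : ∀ L L', L1 ≤ L → L ≤ L' → dn x i1 L' ≤ dn x i1 L := by
    intro L L' hL hLL
    induction L', hLL using Nat.le_induction with
    | base => exact le_rfl
    | succ m hm ih => exact (hmono m (hL.trans hm)).trans ih
  have hpow : ∀ r : ℕ, ∃ L, L1 ≤ L ∧ dn x i1 L ≤ (3/4)^r := by
    intro r
    induction r with
    | zero => exact ⟨L1, le_rfl, by simpa using dn_le_one x i1 L1⟩
    | succ r ih =>
      obtain ⟨L, hL, hLr⟩ := ih
      obtain ⟨L', hLL', ha⟩ := hinf L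
      refine ⟨L'+1, by omega, ?_⟩
      refine (hact L' (by omega) ha).trans ?_
      have := hmono2 L L' hL hLL'
      rw [pow_succ]
      linarith
  obtain ⟨r, hr⟩ := exists_pow_lt_of_lt_one hθ0 (by norm_num : (3/4 : ℝ) < 1)
  obtain ⟨L, hL, hLr⟩ := hpow r
  have := hge L hL
  linarith

end H342R3.Inv
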