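import Pool.Agent.H342R3.InvF
import Pool.Agent.H342R3.InvH

set_option autoImplicit false
set_option maxHeartbeats 1000000

namespace H342R3.Inv

open scoped ENNReal ComplexConjugate InnerProductSpace

lemma V_bdd (x : X) (L : ℕ) : ∃ C : ℝ, ∀ n, ‖V x L n‖ ≤ C := by
  refine ⟨∑ m ∈ Finset.range (Dp L), ‖V x L m‖, ?_⟩
  intro n
  have h1 : n = n % Dp L + Dp L * (n / Dp L) := (Nat.mod_add_div n (Dp L)).symm
  have h2 : V x L n = V x L (n % Dp L) := by
    conv_lhs => rw [h1]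
    exact V_period x L _ _ (Dvd.intro _ rfl)
  rw [h2]
  exact Finset.single_le_sum (f := fun m => ‖V x L m‖) (fun _ _ => norm_nonneg _)
    (Finset.mem_range.2 (Nat.mod_lt _ (Dp_pos L)))

lemma bdd_inactive {x : X} {L3 : ℕ} (h : ∀ L, L3 ≤ L → ∀ a : ZMod (Δ L), ¬ mu L ≤ ‖al x L a‖) :
    ∃ C : ℝ, 0 ≤ C ∧ ∀ n, ‖(B n x) ⟨0, 0⟩‖ ≤ C := by
  obtain ⟨C, hC⟩ := V_bdd x (L3 + 1)
  have hC0 : 0 ≤ C := (norm_nonneg _).trans (hC 0)
  refine ⟨C + 2, by linarith, ?_⟩
  intro n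
  have h1 : ∀ L, L3 + 1 ≤ L → ‖V x L n ⟨0, 0⟩‖ ≤ C + (2 - 2 * (1/2)^L) := by
    intro L hL
    induction L, hL using Nat.le_induction with
    | base =>
      have h2 := norm_coord (V x (L3+1) n) ⟨0, 0⟩
      have h3 := hC n
      have h4 : ((1:ℝ)/2)^(L3+1) ≤ 1 := pow_le_one₀ (by norm_num) (by norm_num)
      linarith
    | succ m hm ih =>
      have h2 := (step_est x m n 0 0 (by omega) (fun a ha => absurd ha (h m (by omega) a))).2
      have h3 : ((1:ℝ)/2)^(m+1) = (1/2)^m / 2 := by ring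
      rw [h3]
      linarith
  have h2 : Filter.Tendsto (fun L => ‖V x L n ⟨0, 0⟩‖) Filter.atTop (nhds ‖(B n x) ⟨0, 0⟩‖) := by
    have h3 := (((lp.evalCLM ℂ (fun _ : Idx => ℂ) 2 (⟨0, 0⟩ : Idx)).continuous.tendsto
      (B n x)).comp (V_tendsto x n)).norm
    exact h3
  apply le_of_tendsto h2
  filter_upwards [Filter.eventually_ge_atTop (L3+1)] with L hL
  have h4 := h1 L hL
  have h5 : (0:ℝ) ≤ (1/2)^L := by positivity
  linarith

lemma not_fhc (x : X) (h : ∀ V : Set X, IsOpen V → V.Nonempty →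
    ∃ c : ℝ, 0 < c ∧ ∃ N₀ : ℕ, ∀ N : ℕ, N₀ ≤ N →
      c * (N : ℝ) ≤ (Nat.card {n : ℕ // n < N ∧ B n x ∈ V} : ℝ)) : False := by
  classical
  obtain ⟨θ, hθ0, N0, hθ⟩ := h (Metric.ball 0 1) Metric.isOpen_ball ⟨0, by simp⟩
  have hθ' : ∀ N, N0 ≤ N → θ * N ≤ (vis x N : ℝ) := by
    intro N hN
    refine (hθ N hN).trans (le_of_eq ?_)
    congr 1
    unfold vis
    apply Nat.subtype_card
    intro m
    simp
  by_cases hinf : ∀ L0 : ℕ, ∃ L, L0 ≤ L ∧ ∃ a : ZMod (Δ L), mu L ≤ ‖al x L a‖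
  · exact contra_active hθ0 hθ' hinf
  · push Not at hinf
    obtain ⟨L3, h3⟩ := hinf
    obtain ⟨C, hC0, hC⟩ := bdd_inactive (L3 := L3) (x := x) (fun L hL a => not_le.2 (h3 L hL a))
    have hcont : Continuous (fun y : X => ‖y ⟨0, 0⟩‖) :=
      ((lp.evalCLM ℂ (fun _ : Idx => ℂ) 2 (⟨0, 0⟩ : Idx)).continuous).norm
    obtain ⟨c, hc, M0, hM⟩ := h {y : X | C < ‖y ⟨0, 0⟩‖} (isOpen_lt continuous_const hcont)
      ⟨((C + 1 : ℝ) : ℂ) • e 0 0, by
        show C < ‖(((C + 1 : ℝ) : ℂ) • e 0 0 : X) ⟨0, 0⟩‖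
        rw [lp.coeFn_smul, Pi.smul_apply, e_apply, if_pos (by simp), smul_eq_mul, mul_one,
          Complex.norm_real, Real.norm_of_nonneg (by linarith)]
        linarith⟩
    have h4 := hM (M0 + 1) (by omega)
    have h5 : Nat.card {n : ℕ // n < M0 + 1 ∧ B n x ∈ {y : X | C < ‖y ⟨0, 0⟩‖}} = 0 := by
      rw [Nat.card_eq_zero]
      left
      constructor
      rintro ⟨n, _, hn⟩
      have := hC n
      change C < _ at hn
      linarith
    rw [h5] at h4
    have : (0:ℝ) < ((M0 + 1 : ℕ) : ℝ) := by positivity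
    push_cast at h4 this
    nlinarith

lemma reflexive_hilbert {H : Type} [NormedAddCommGroup H] [InnerProductSpace ℂ H]
    [CompleteSpace H] : Function.Surjective (NormedSpace.inclusionInDoubleDual ℂ H) := by
  intro Φ
  let ψ : H →L[ℂ] ℂ := LinearMap.mkContinuous
    { toFun := fun x => conj (Φ (InnerProductSpace.toDual ℂ H x))
      map_add' := by intro x y; simp
      map_smul' := by
        intro c x
        rw [map_smulₛₗ (InnerProductSpace.toDual ℂ H) c x, map_smul, smul_eq_mul, map_mul]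
        simp } ‖Φ‖ (by
        intro x
        show ‖conj (Φ (InnerProductSpace.toDual ℂ H x))‖ ≤ _
        rw [RCLike.norm_conj]
        refine (Φ.le_opNorm _).trans ?_
        rw [LinearIsometryEquiv.norm_map])
  refine ⟨(InnerProductSpace.toDual ℂ H).symm ψ, ?_⟩
  ext φ
  obtain ⟨x, rfl⟩ := (InnerProductSpace.toDual ℂ H).surjective φ
  rw [NormedSpace.dual_def, InnerProductSpace.toDual_apply_apply]
  rw [← inner_conj_symm, InnerProductSpace.toDual_symm_apply]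
  show conj (conj (Φ (InnerProductSpace.toDual ℂ H x))) = _
  simp

noncomputable def Teq : X ≃L[ℂ] X :=
  ContinuousLinearEquiv.equivOfInverse (T 1 one_abs) (T (-1) neg_one_abs)
    (fun x => by
      have := T_inv (-1) neg_one_abs (by norm_num) x
      simpa using this)
    (fun x => T_inv 1 one_abs neg_one_abs x)

lemma Teq_iter (n : ℕ) (x : X) : (⇑Teq)^[n] x = ((T 1 one_abs) ^ n) x := by
  induction n generalizing x with
  | zero => simp
  | succ n ih =>
    rw [Function.iterate_succ_apply', ih, pow_succ']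
    rfl

lemma Teq_symm_iter (n : ℕ) (x : X) : (⇑Teq.symm)^[n] x = B n x := by
  induction n generalizing x with
  | zero => simp [B]
  | succ n ih =>
    rw [Function.iterate_succ_apply', ih]
    unfold B
    rw [pow_succ']
    rfl

theorem final :
    ∃ (X : Type) (_ : NormedAddCommGroup X) (_ : NormedSpace ℂ X) (_ : CompleteSpace X),
      Function.Surjective (NormedSpace.inclusionInDoubleDual ℂ X) ∧
      ∃ T : X ≃L[ℂ] X,
        (∃ x : X, ∀ U : Set X, IsOpen U → U.Nonempty →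
          ∃ c : ℝ, 0 < c ∧ ∃ N₀ : ℕ, ∀ N : ℕ, N₀ ≤ N →
            c * (N : ℝ) ≤ (Nat.card {n : ℕ // n < N ∧ (⇑T)^[n] x ∈ U} : ℝ)) ∧
        ¬ (∃ x : X, ∀ U : Set X, IsOpen U → U.Nonempty →
          ∃ c : ℝ, 0 < c ∧ ∃ N₀ : ℕ, ∀ N : ℕ, N₀ ≤ N →
            c * (N : ℝ) ≤ (Nat.card {n : ℕ // n < N ∧ (⇑T.symm)^[n] x ∈ U} : ℝ)) := by
  refine ⟨X, inferInstance, inferInstance, inferInstance, reflexive_hilbert, Teq, ⟨x0, ?_⟩, ?_⟩
  · intro V hV hne
    have h := fhc_x0 V hV hne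
    simp only [Teq_iter]
    exact h
  · rintro ⟨x, h⟩
    apply not_fhc x
    intro V hV hne
    have h2 := h V hV hne
    simp only [Teq_symm_iter] at h2
    exact h2

end H342R3.Inv
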