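import Mathlib

set_option autoImplicit false

open Set Filter Topology MeasureTheory
open scoped ENNReal

namespace Pool.Agent.H342R3.LipInterp

theorem lint_Ioo {c r : ℝ} (hc : 0 ≤ c) (hr : -1 < r) :
    ∫⁻ t in Ioo 0 c, ENNReal.ofReal (t ^ r) = ENNReal.ofReal (c ^ (r + 1) / (r + 1)) := by
  have h1 : IntegrableOn (fun t : ℝ => t ^ r) (Ioc 0 c) :=
    (intervalIntegrable_iff_integrableOn_Ioc_of_le hc).1 (intervalIntegral.intervalIntegrable_rpow' hr)
  have h2 : IntegrableOn (fun t : ℝ => t ^ r) (Ioo 0 c) := h1.mono_set Ioo_subset_Ioc_self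
  have h3 : 0 ≤ᵐ[volume.restrict (Ioo 0 c)] fun t : ℝ => t ^ r := by
    filter_upwards [ae_restrict_mem measurableSet_Ioo] with t ht
    exact Real.rpow_nonneg ht.1.le _
  rw [← ofReal_integral_eq_lintegral_ofReal h2 h3, ← integral_Ioc_eq_integral_Ioo,
    ← intervalIntegral.integral_of_le hc, integral_rpow (Or.inl hr),
    Real.zero_rpow (by linarith), sub_zero]

theorem lint_Ioi {c r : ℝ} (hc : 0 < c) (hr : r < -1) :
    ∫⁻ t in Ioi c, ENNReal.ofReal (t ^ r) = ENNReal.ofReal (c ^ (r + 1) / (-(r + 1))) := by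
  have h2 : IntegrableOn (fun t : ℝ => t ^ r) (Ioi c) := integrableOn_Ioi_rpow_of_lt hr hc
  have h3 : 0 ≤ᵐ[volume.restrict (Ioi c)] fun t : ℝ => t ^ r := by
    filter_upwards [ae_restrict_mem measurableSet_Ioi] with t ht
    exact Real.rpow_nonneg (hc.trans ht).le _
  rw [← ofReal_integral_eq_lintegral_ofReal h2 h3, integral_Ioi_rpow_of_lt hr hc]
  congr 1
  rw [div_neg, neg_div]

/-- Marcinkiewicz-type summation. -/
theorem marcinkiewicz {X : Type*} [MeasurableSpace X] {μ : Measure X} [SFinite μ] {β γ α : ℝ}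
    (hβ : 0 < β) (hβγ : β < γ) (hγα : γ < α) {Φ G : X → ℝ}
    (hΦ : Measurable Φ) (hΦ0 : ∀ x, 0 ≤ Φ x) (hG : AEMeasurable G μ) (hG0 : ∀ x, 0 ≤ G x)
    (H : ∀ t : ℝ, 0 < t → μ {x | 2 * t < G x} ≤
      ENNReal.ofReal (t ^ (-β)) * ∫⁻ x in {x | t < Φ x}, ENNReal.ofReal (Φ x ^ β) ∂μ +
      ENNReal.ofReal (t ^ (-α)) * ∫⁻ x in {x | Φ x ≤ t}, ENNReal.ofReal (Φ x ^ α) ∂μ) :
    ∫⁻ x, ENNReal.ofReal (G x ^ γ) ∂μ ≤
      ENNReal.ofReal (2 ^ γ * (γ / (γ - β) + γ / (α - γ))) * ∫⁻ x, ENNReal.ofReal (Φ x ^ γ) ∂μ := by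
  have hγ : 0 < γ := hβ.trans hβγ
  have hα : 0 < α := hγ.trans hγα
  -- first part
  have P1 : ∫⁻ t in Ioi (0:ℝ), (ENNReal.ofReal (t ^ (-β)) *
      ∫⁻ x in {x | t < Φ x}, ENNReal.ofReal (Φ x ^ β) ∂μ) * ENNReal.ofReal (t ^ (γ - 1)) =
      ENNReal.ofReal (1 / (γ - β)) * ∫⁻ x, ENNReal.ofReal (Φ x ^ γ) ∂μ := by
    have e1 : ∀ t ∈ Ioi (0:ℝ), (ENNReal.ofReal (t ^ (-β)) *
        ∫⁻ x in {x | t < Φ x}, ENNReal.ofReal (Φ x ^ β) ∂μ) * ENNReal.ofReal (t ^ (γ - 1)) =
        ∫⁻ x, {q : ℝ × X | q.1 < Φ q.2}.indicator (fun q : ℝ × X =>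
          ENNReal.ofReal (q.1 ^ (γ - 1 - β)) * ENNReal.ofReal (Φ q.2 ^ β)) (t, x) ∂μ := by
      intro t ht
      have ht' : (0:ℝ) < t := ht
      have hms : MeasurableSet {x | t < Φ x} := measurableSet_lt measurable_const hΦ
      rw [mul_right_comm, ← ENNReal.ofReal_mul (Real.rpow_nonneg ht'.le _),
        ← Real.rpow_add ht', ← lintegral_const_mul' _ _ ENNReal.ofReal_ne_top,
        ← lintegral_indicator hms]
      refine lintegral_congr fun x => ?_
      have : (-β + (γ - 1)) = γ - 1 - β := by ring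
      by_cases hx : t < Φ x
      · rw [indicator_of_mem (by exact hx), indicator_of_mem (by exact hx), this]
      · rw [indicator_of_notMem (by exact hx), indicator_of_notMem (by exact hx)]
    rw [setLIntegral_congr_fun measurableSet_Ioi e1, lintegral_lintegral_swap]
    · rw [← lintegral_const_mul' _ _ ENNReal.ofReal_ne_top]
      refine lintegral_congr fun x => ?_
      have e2 : ∫⁻ t in Ioi (0:ℝ), {q : ℝ × X | q.1 < Φ q.2}.indicator (fun q : ℝ × X =>
          ENNReal.ofReal (q.1 ^ (γ - 1 - β)) * ENNReal.ofReal (Φ q.2 ^ β)) (t, x) =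
          ∫⁻ t in Ioo 0 (Φ x), ENNReal.ofReal (t ^ (γ - 1 - β)) * ENNReal.ofReal (Φ x ^ β) := by
        have : Ioo 0 (Φ x) = Iio (Φ x) ∩ Ioi 0 := by ext t; simp [and_comm]
        rw [this, ← Measure.restrict_restrict measurableSet_Iio,
          ← lintegral_indicator measurableSet_Iio]
        refine lintegral_congr fun t => ?_
        by_cases hx : t < Φ x
        · rw [indicator_of_mem (by exact hx), indicator_of_mem (by exact hx)]
        · rw [indicator_of_notMem (by exact hx), indicator_of_notMem (by exact hx)]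
      rw [e2, lintegral_mul_const' _ _ ENNReal.ofReal_ne_top, lint_Ioo (hΦ0 x) (by linarith),
        ← ENNReal.ofReal_mul (div_nonneg (Real.rpow_nonneg (hΦ0 x) _) (by linarith)),
        ← ENNReal.ofReal_mul (by have : 0 < γ - β := by linarith
                                 positivity)]
      congr 1
      have h5 : γ - 1 - β + 1 = γ - β := by ring
      rw [h5]
      have h6 : Φ x ^ (γ - β) * Φ x ^ β = Φ x ^ γ := by
        rcases (hΦ0 x).eq_or_lt with h | h
        · rw [← h, Real.zero_rpow hβ.ne', mul_zero, Real.zero_rpow hγ.ne']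
        · rw [← Real.rpow_add h]; congr 1; ring
      rw [← h6]
      ring
    · apply Measurable.aemeasurable
      apply Measurable.indicator
      · exact ((measurable_fst.pow_const _).ennreal_ofReal).mul
          (((hΦ.comp measurable_snd).pow_const _).ennreal_ofReal)
      · exact measurableSet_lt measurable_fst (hΦ.comp measurable_snd)
  -- second part
  have P2 : ∫⁻ t in Ioi (0:ℝ), (ENNReal.ofReal (t ^ (-α)) *
      ∫⁻ x in {x | Φ x ≤ t}, ENNReal.ofReal (Φ x ^ α) ∂μ) * ENNReal.ofReal (t ^ (γ - 1)) =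
      ENNReal.ofReal (1 / (α - γ)) * ∫⁻ x, ENNReal.ofReal (Φ x ^ γ) ∂μ := by
    have e1 : ∀ t ∈ Ioi (0:ℝ), (ENNReal.ofReal (t ^ (-α)) *
        ∫⁻ x in {x | Φ x ≤ t}, ENNReal.ofReal (Φ x ^ α) ∂μ) * ENNReal.ofReal (t ^ (γ - 1)) =
        ∫⁻ x, {q : ℝ × X | Φ q.2 ≤ q.1}.indicator (fun q : ℝ × X =>
          ENNReal.ofReal (q.1 ^ (γ - 1 - α)) * ENNReal.ofReal (Φ q.2 ^ α)) (t, x) ∂μ := by
      intro t ht
      have ht' : (0:ℝ) < t := ht
      have hms : MeasurableSet {x | Φ x ≤ t} := measurableSet_le hΦ measurable_const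
      rw [mul_right_comm, ← ENNReal.ofReal_mul (Real.rpow_nonneg ht'.le _),
        ← Real.rpow_add ht', ← lintegral_const_mul' _ _ ENNReal.ofReal_ne_top,
        ← lintegral_indicator hms]
      refine lintegral_congr fun x => ?_
      have : (-α + (γ - 1)) = γ - 1 - α := by ring
      by_cases hx : Φ x ≤ t
      · rw [indicator_of_mem (by exact hx), indicator_of_mem (by exact hx), this]
      · rw [indicator_of_notMem (by exact hx), indicator_of_notMem (by exact hx)]
    rw [setLIntegral_congr_fun measurableSet_Ioi e1, lintegral_lintegral_swap]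
    · rw [← lintegral_const_mul' _ _ ENNReal.ofReal_ne_top]
      refine lintegral_congr fun x => ?_
      rcases (hΦ0 x).eq_or_lt with h | h
      · have e2 : ∀ t : ℝ, {q : ℝ × X | Φ q.2 ≤ q.1}.indicator (fun q : ℝ × X =>
          ENNReal.ofReal (q.1 ^ (γ - 1 - α)) * ENNReal.ofReal (Φ q.2 ^ α)) (t, x) = 0 := by
          intro t
          rw [indicator_apply]
          split_ifs
          · simp only
            rw [← h, Real.zero_rpow hα.ne']
            simp
          · rfl
        simp only [e2, lintegral_zero, ← h, Real.zero_rpow hγ.ne', ENNReal.ofReal_zero, mul_zero]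
      · have e2 : ∫⁻ t in Ioi (0:ℝ), {q : ℝ × X | Φ q.2 ≤ q.1}.indicator (fun q : ℝ × X =>
            ENNReal.ofReal (q.1 ^ (γ - 1 - α)) * ENNReal.ofReal (Φ q.2 ^ α)) (t, x) =
            ∫⁻ t in Ici (Φ x), ENNReal.ofReal (t ^ (γ - 1 - α)) * ENNReal.ofReal (Φ x ^ α) := by
          have : Ici (Φ x) = Ici (Φ x) ∩ Ioi 0 := by
            ext t
            simp only [mem_Ici, mem_inter_iff, mem_Ioi]
            exact ⟨fun h1 => ⟨h1, h.trans_le h1⟩, fun h1 => h1.1⟩
          rw [this, ← Measure.restrict_restrict measurableSet_Ici,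
            ← lintegral_indicator measurableSet_Ici]
          refine lintegral_congr fun t => ?_
          by_cases hx : Φ x ≤ t
          · rw [indicator_of_mem (by exact hx), indicator_of_mem (by exact hx)]
          · rw [indicator_of_notMem (by exact hx), indicator_of_notMem (by exact hx)]
        rw [e2, lintegral_mul_const' _ _ ENNReal.ofReal_ne_top,
          setLIntegral_congr Ioi_ae_eq_Ici.symm, lint_Ioi h (by linarith),
          ← ENNReal.ofReal_mul (div_nonneg (Real.rpow_nonneg (hΦ0 x) _) (by linarith)),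
          ← ENNReal.ofReal_mul (by have : 0 < α - γ := by linarith
                                   positivity)]
        congr 1
        have h5 : γ - 1 - α + 1 = γ - α := by ring
        rw [h5]
        have h6 : Φ x ^ (γ - α) * Φ x ^ α = Φ x ^ γ := by
          rw [← Real.rpow_add h]; congr 1; ring
        rw [← h6, neg_sub]
        ring
    · apply Measurable.aemeasurable
      apply Measurable.indicator
      · exact ((measurable_fst.pow_const _).ennreal_ofReal).mul
          (((hΦ.comp measurable_snd).pow_const _).ennreal_ofReal)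
      · exact measurableSet_le (hΦ.comp measurable_snd) measurable_fst
  -- layer cake
  have e0 : ∫⁻ x, ENNReal.ofReal (G x ^ γ) ∂μ =
      ENNReal.ofReal (2 ^ γ) * ∫⁻ x, ENNReal.ofReal ((G x / 2) ^ γ) ∂μ := by
    rw [← lintegral_const_mul' _ _ ENNReal.ofReal_ne_top]
    refine lintegral_congr fun x => ?_
    rw [← ENNReal.ofReal_mul (by positivity), ← Real.mul_rpow (by norm_num)
      (by have := hG0 x; positivity)]
    congr 2
    ring
  rw [e0, lintegral_rpow_eq_lintegral_meas_lt_mul μ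
    (Filter.Eventually.of_forall fun x => by have := hG0 x; simp only [Pi.zero_apply]; positivity)
    (hG.div_const 2) hγ]
  have e3 : ∫⁻ t in Ioi (0:ℝ), μ {a | t < G a / 2} * ENNReal.ofReal (t ^ (γ - 1)) ≤
      ENNReal.ofReal (1 / (γ - β)) * ∫⁻ x, ENNReal.ofReal (Φ x ^ γ) ∂μ +
      ENNReal.ofReal (1 / (α - γ)) * ∫⁻ x, ENNReal.ofReal (Φ x ^ γ) ∂μ := by
    rw [← P1, ← P2, ← lintegral_add_left']
    · refine setLIntegral_mono' measurableSet_Ioi fun t ht => ?_
      have h1 : {a | t < G a / 2} = {x | 2 * t < G x} := by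
        ext x
        change t < G x / 2 ↔ 2 * t < G x
        constructor <;> intro h <;> linarith
      rw [h1, ← add_mul]
      exact mul_le_mul_left (H t ht) _
    · -- measurability in t
      have hmeas : Measurable (fun t : ℝ => ∫⁻ x in {x | t < Φ x}, ENNReal.ofReal (Φ x ^ β) ∂μ) := by
        have h2 : Measurable (fun q : ℝ × X => {q : ℝ × X | q.1 < Φ q.2}.indicator
            (fun q : ℝ × X => ENNReal.ofReal (Φ q.2 ^ β)) q) := by
          apply Measurable.indicator
          · exact (((hΦ.comp measurable_snd).pow_const _).ennreal_ofReal)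
          · exact measurableSet_lt measurable_fst (hΦ.comp measurable_snd)
        have h3 := h2.lintegral_prod_right' (ν := μ)
        have h4 : (fun t : ℝ => ∫⁻ x in {x | t < Φ x}, ENNReal.ofReal (Φ x ^ β) ∂μ) =
            fun t : ℝ => ∫⁻ x, {q : ℝ × X | q.1 < Φ q.2}.indicator
              (fun q : ℝ × X => ENNReal.ofReal (Φ q.2 ^ β)) (t, x) ∂μ := by
          funext t
          rw [← lintegral_indicator (measurableSet_lt measurable_const hΦ)]
          refine lintegral_congr fun x => ?_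
          by_cases hx : t < Φ x
          · rw [indicator_of_mem (by exact hx), indicator_of_mem (by exact hx)]
          · rw [indicator_of_notMem (by exact hx), indicator_of_notMem (by exact hx)]
        rw [h4]
        exact h3
      exact ((((measurable_id.pow_const _).ennreal_ofReal).mul hmeas).mul
        ((measurable_id.pow_const _).ennreal_ofReal)).aemeasurable
  calc ENNReal.ofReal (2 ^ γ) * (ENNReal.ofReal γ *
        ∫⁻ t in Ioi (0:ℝ), μ {a | t < G a / 2} * ENNReal.ofReal (t ^ (γ - 1)))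
      ≤ ENNReal.ofReal (2 ^ γ) * (ENNReal.ofReal γ *
        (ENNReal.ofReal (1 / (γ - β)) * ∫⁻ x, ENNReal.ofReal (Φ x ^ γ) ∂μ +
      ENNReal.ofReal (1 / (α - γ)) * ∫⁻ x, ENNReal.ofReal (Φ x ^ γ) ∂μ)) := by
        gcongr
    _ = ENNReal.ofReal (2 ^ γ * (γ / (γ - β) + γ / (α - γ))) *
        ∫⁻ x, ENNReal.ofReal (Φ x ^ γ) ∂μ := by
        have h1 : 0 < γ - β := by linarith
        have h2 : 0 < α - γ := by linarith
        rw [← add_mul, ← ENNReal.ofReal_add (by positivity) (by positivity), ← mul_assoc,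
          ← mul_assoc, ← ENNReal.ofReal_mul (by positivity), ← ENNReal.ofReal_mul (by positivity)]
        congr 2
        ring

end Pool.Agent.H342R3.LipInterp
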