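import Mathlib
import Pool.Agent.H342R3.LipInterp

set_option autoImplicit false

open Set Filter Topology MeasureTheory
open scoped ENNReal

namespace Pool.Agent.H342R3.LipInterp

variable {X : Type*} [MeasurableSpace X] {μ : Measure X}

theorem eLpNorm_pow {p : ℝ} (hp : 0 < p) (f : X → ℂ) :
    eLpNorm f (ENNReal.ofReal p) μ ^ p = ∫⁻ x, ENNReal.ofReal (‖f x‖ ^ p) ∂μ := by
  rw [eLpNorm_eq_lintegral_rpow_enorm_toReal (by simpa using hp) ENNReal.ofReal_ne_top,
    ENNReal.toReal_ofReal hp.le, ← ENNReal.rpow_mul, one_div, inv_mul_cancel₀ hp.ne',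
    ENNReal.rpow_one]
  refine lintegral_congr fun x => ?_
  rw [← ofReal_norm, ENNReal.ofReal_rpow_of_nonneg (norm_nonneg _) hp.le]

theorem extend [IsFiniteMeasure μ] {p q : ℝ≥0∞} [Fact (1 ≤ p)] (hp : p ≠ ∞)
    {U : Lp ℂ p μ → Lp ℂ p μ} (hU : Continuous U) {c : ℝ≥0∞} {b : Lp ℂ p μ}
    (h1 : ∀ y : Lp ℂ p μ, MemLp y q μ → eLpNorm (U (y + b) - U y : Lp ℂ p μ) q μ ≤ c)
    (y : Lp ℂ p μ) :
    eLpNorm (U (y + b) - U y : Lp ℂ p μ) q μ ≤ c := by
  have hcont : Continuous fun y : Lp ℂ p μ => U (y + b) - U y :=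
    (hU.comp (continuous_id.add continuous_const)).sub hU
  have hy : y ∈ closure (range ((↑) : Lp.simpleFunc ℂ p μ → Lp ℂ p μ)) :=
    Lp.simpleFunc.denseRange hp y
  obtain ⟨s, hs, hlim⟩ := mem_closure_iff_seq_limit.1 hy
  have hlim2 : Tendsto (fun n => U (s n + b) - U (s n)) atTop (𝓝 (U (y + b) - U y)) :=
    (hcont.tendsto y).comp hlim
  obtain ⟨ns, hns, hae⟩ := (tendstoInMeasure_of_tendsto_Lp hlim2).exists_seq_tendsto_ae
  have hbound : ∀ n, eLpNorm (U (s n + b) - U (s n) : Lp ℂ p μ) q μ ≤ c := by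
    intro n
    obtain ⟨t, ht⟩ := hs n
    apply h1
    rw [← ht]
    exact (memLp_congr_ae (Lp.simpleFunc.toSimpleFunc_eq_toFun t)).1
      ((Lp.simpleFunc.toSimpleFunc t).memLp_of_isFiniteMeasure q μ)
  calc _ ≤ atTop.liminf (fun n => eLpNorm (U (s (ns n) + b) - U (s (ns n)) : Lp ℂ p μ) q μ) :=
        Lp.eLpNorm_lim_le_liminf_eLpNorm (fun n => Lp.aestronglyMeasurable _) _ hae
    _ ≤ atTop.liminf (fun _ : ℕ => c) :=
        liminf_le_liminf (Eventually.of_forall fun n => hbound (ns n))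
    _ = c := liminf_const c

/-- The interpolation inequality for operators which are Lipschitz in `L^β` and in `L^α`. -/
theorem main_bound [IsFiniteMeasure μ] {β γ α : ℝ} (hβ : 1 ≤ β) (hβγ : β < γ) (hγα : γ < α)
    [Fact (1 ≤ ENNReal.ofReal β)]
    (U : Lp ℂ (ENNReal.ofReal β) μ → Lp ℂ (ENNReal.ofReal β) μ) {M : ℝ} (hM : 0 < M)
    (h0 : ∀ x y, eLpNorm (U x - U y : Lp ℂ (ENNReal.ofReal β) μ) (ENNReal.ofReal β) μ ≤
      ENNReal.ofReal M * eLpNorm (x - y : Lp ℂ (ENNReal.ofReal β) μ) (ENNReal.ofReal β) μ)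
    (h1 : ∀ x y : Lp ℂ (ENNReal.ofReal β) μ, MemLp x (ENNReal.ofReal α) μ → MemLp y (ENNReal.ofReal α) μ →
      eLpNorm (U x - U y : Lp ℂ (ENNReal.ofReal β) μ) (ENNReal.ofReal α) μ ≤
      ENNReal.ofReal M * eLpNorm (x - y : Lp ℂ (ENNReal.ofReal β) μ) (ENNReal.ofReal α) μ)
    (x y : Lp ℂ (ENNReal.ofReal β) μ) :
    eLpNorm (U x - U y : Lp ℂ (ENNReal.ofReal β) μ) (ENNReal.ofReal γ) μ ≤
      ENNReal.ofReal (2 * (γ / (γ - β) + γ / (α - γ)) ^ (1 / γ) * M) *
        eLpNorm (x - y : Lp ℂ (ENNReal.ofReal β) μ) (ENNReal.ofReal γ) μ := by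
  have hβ0 : 0 < β := by linarith
  have hγ0 : 0 < γ := by linarith
  have hα0 : 0 < α := by linarith
  have hUc : Continuous U := by
    have : LipschitzWith (Real.toNNReal M) U := by
      refine LipschitzWith.of_dist_le_mul fun a b => ?_
      rw [dist_eq_norm, dist_eq_norm, Lp.norm_def, Lp.norm_def, Real.coe_toNNReal _ hM.le]
      have := ENNReal.toReal_mono (ENNReal.mul_ne_top ENNReal.ofReal_ne_top (Lp.eLpNorm_ne_top _))
        (h0 a b)
      rwa [ENNReal.toReal_mul, ENNReal.toReal_ofReal hM.le] at this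
    exact this.continuous
  set f : Lp ℂ (ENNReal.ofReal β) μ := x - y with hf
  set g : Lp ℂ (ENNReal.ofReal β) μ := U x - U y with hg
  have hfm : StronglyMeasurable f := Lp.stronglyMeasurable f
  set Φ : X → ℝ := fun a => M * ‖f a‖ with hΦ
  have hΦm : Measurable Φ := hfm.norm.measurable.const_mul M
  have hΦ0 : ∀ a, 0 ≤ Φ a := fun a => by simp only [hΦ]; positivity
  have hGm : AEMeasurable (fun a => ‖g a‖) μ := (Lp.aestronglyMeasurable g).norm.aemeasurable
  have key := marcinkiewicz (μ := μ) hβ0 hβγ hγα hΦm hΦ0 hGm (fun a => norm_nonneg _) ?_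
  · -- conclude
    have e1 : ∫⁻ a, ENNReal.ofReal (Φ a ^ γ) ∂μ =
        ENNReal.ofReal (M ^ γ) * ∫⁻ a, ENNReal.ofReal (‖f a‖ ^ γ) ∂μ := by
      rw [← lintegral_const_mul' _ _ ENNReal.ofReal_ne_top]
      refine lintegral_congr fun a => ?_
      simp only [hΦ]
      rw [← ENNReal.ofReal_mul (by positivity), Real.mul_rpow hM.le (norm_nonneg _)]
    rw [e1, ← eLpNorm_pow hγ0, ← eLpNorm_pow hγ0, ← mul_assoc, ← ENNReal.ofReal_mul] at key
    · have h3 : 0 < γ - β := by linarith
      have h4 : 0 < α - γ := by linarith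
      have h5 : 0 ≤ γ / (γ - β) + γ / (α - γ) := by positivity
      have h6 : ENNReal.ofReal (2 ^ γ * (γ / (γ - β) + γ / (α - γ)) * M ^ γ) =
          ENNReal.ofReal (2 * (γ / (γ - β) + γ / (α - γ)) ^ (1 / γ) * M) ^ γ := by
        rw [ENNReal.ofReal_rpow_of_nonneg (by positivity) hγ0.le]
        congr 1
        rw [Real.mul_rpow (by positivity) hM.le, Real.mul_rpow (by norm_num) (by positivity),
          ← Real.rpow_mul h5, one_div, inv_mul_cancel₀ hγ0.ne', Real.rpow_one]
      rw [h6, ← ENNReal.mul_rpow_of_nonneg _ _ hγ0.le] at key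
      exact (ENNReal.rpow_le_rpow_iff hγ0).1 key
    · have h3 : 0 < γ - β := by linarith
      have h4 : 0 < α - γ := by linarith
      positivity
  · -- the distributional inequality
    intro t ht
    have hS : MeasurableSet {a | Φ a ≤ t} := measurableSet_le hΦm measurable_const
    -- the bounded part
    have hbm : MemLp ({a | Φ a ≤ t}.indicator f) (ENNReal.ofReal β) μ :=
      (Lp.memLp f).indicator hS
    set b : Lp ℂ (ENNReal.ofReal β) μ := hbm.toLp _ with hb
    have hbae : b =ᵐ[μ] {a | Φ a ≤ t}.indicator f := hbm.coeFn_toLp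
    have hbα : MemLp b (ENNReal.ofReal α) μ := by
      rw [memLp_congr_ae hbae]
      refine MemLp.of_bound ((hfm.indicator hS).aestronglyMeasurable) (t / M)
        (Eventually.of_forall fun a => ?_)
      rw [indicator_apply]
      split_ifs with h
      · rw [le_div_iff₀ hM, mul_comm]; exact h
      · simp only [norm_zero]; positivity
    set g0 : Lp ℂ (ENNReal.ofReal β) μ := U x - U (y + b) with hg0
    set g1 : Lp ℂ (ENNReal.ofReal β) μ := U (y + b) - U y with hg1
    have hgg : g = g0 + g1 := by rw [hg, hg0, hg1]; abel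
    -- bounds
    have B0 : eLpNorm g0 (ENNReal.ofReal β) μ ^ β ≤
        ∫⁻ a in {a | t < Φ a}, ENNReal.ofReal (Φ a ^ β) ∂μ := by
      have h2 := h0 x (y + b)
      have h3 : x - (y + b) = f - b := by rw [hf]; abel
      rw [h3] at h2
      have h4 : eLpNorm (f - b : Lp ℂ (ENNReal.ofReal β) μ) (ENNReal.ofReal β) μ =
          eLpNorm ({a | t < Φ a}.indicator f) (ENNReal.ofReal β) μ := by
        apply eLpNorm_congr_ae
        filter_upwards [Lp.coeFn_sub f b, hbae] with a ha1 ha2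
        rw [ha1, Pi.sub_apply, ha2, indicator_apply, indicator_apply]
        by_cases h : Φ a ≤ t
        · have h' : ¬ (t < Φ a) := not_lt.2 h
          rw [if_pos (by exact h), if_neg (by exact h'), sub_self]
        · have h' : t < Φ a := not_le.1 h
          rw [if_neg (by exact h), if_pos (by exact h'), sub_zero]
      calc eLpNorm g0 (ENNReal.ofReal β) μ ^ β
          ≤ (ENNReal.ofReal M * eLpNorm ({a | t < Φ a}.indicator f) (ENNReal.ofReal β) μ) ^ β := by
            rw [← h4]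
            exact ENNReal.rpow_le_rpow h2 hβ0.le
        _ = ∫⁻ a in {a | t < Φ a}, ENNReal.ofReal (Φ a ^ β) ∂μ := by
            rw [ENNReal.mul_rpow_of_nonneg _ _ hβ0.le, eLpNorm_pow hβ0,
              ENNReal.ofReal_rpow_of_nonneg hM.le hβ0.le,
              ← lintegral_const_mul' _ _ ENNReal.ofReal_ne_top,
              ← lintegral_indicator (measurableSet_lt measurable_const hΦm)]
            refine lintegral_congr fun a => ?_
            by_cases h : t < Φ a
            · rw [indicator_of_mem (by exact h), indicator_of_mem (by exact h),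
                ← ENNReal.ofReal_mul (by positivity), ← Real.mul_rpow hM.le (norm_nonneg _)]
            · rw [indicator_of_notMem (by exact h), indicator_of_notMem (by exact h),
                norm_zero, Real.zero_rpow hβ0.ne', ENNReal.ofReal_zero, mul_zero]
    have B1 : eLpNorm g1 (ENNReal.ofReal α) μ ^ α ≤
        ∫⁻ a in {a | Φ a ≤ t}, ENNReal.ofReal (Φ a ^ α) ∂μ := by
      have h2 : eLpNorm g1 (ENNReal.ofReal α) μ ≤
          ENNReal.ofReal M * eLpNorm b (ENNReal.ofReal α) μ := by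
        refine extend ENNReal.ofReal_ne_top hUc (fun z hz => ?_) y
        have hzb : MemLp (z + b : Lp ℂ (ENNReal.ofReal β) μ) (ENNReal.ofReal α) μ :=
          (memLp_congr_ae (Lp.coeFn_add z b)).2 (hz.add hbα)
        have := h1 (z + b) z hzb hz
        rwa [add_sub_cancel_left] at this
      calc eLpNorm g1 (ENNReal.ofReal α) μ ^ α
          ≤ (ENNReal.ofReal M * eLpNorm b (ENNReal.ofReal α) μ) ^ α :=
            ENNReal.rpow_le_rpow h2 hα0.le
        _ = ∫⁻ a in {a | Φ a ≤ t}, ENNReal.ofReal (Φ a ^ α) ∂μ := by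
            rw [eLpNorm_congr_ae hbae, ENNReal.mul_rpow_of_nonneg _ _ hα0.le, eLpNorm_pow hα0,
              ENNReal.ofReal_rpow_of_nonneg hM.le hα0.le,
              ← lintegral_const_mul' _ _ ENNReal.ofReal_ne_top,
              ← lintegral_indicator hS]
            refine lintegral_congr fun a => ?_
            by_cases h : Φ a ≤ t
            · rw [indicator_of_mem (by exact h), indicator_of_mem (by exact h),
                ← ENNReal.ofReal_mul (by positivity), ← Real.mul_rpow hM.le (norm_nonneg _)]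
            · rw [indicator_of_notMem (by exact h), indicator_of_notMem (by exact h),
                norm_zero, Real.zero_rpow hα0.ne', ENNReal.ofReal_zero, mul_zero]
    -- Chebyshev
    have hcheb : ∀ (p : ℝ) (hp : 0 < p) (h : Lp ℂ (ENNReal.ofReal β) μ),
        μ {a | t ≤ ‖h a‖} ≤ ENNReal.ofReal (t ^ (-p)) * eLpNorm h (ENNReal.ofReal p) μ ^ p := by
      intro p hp h
      have h2 := meas_ge_le_mul_pow_eLpNorm_enorm μ (p := ENNReal.ofReal p) (by simpa using hp)
        ENNReal.ofReal_ne_top (Lp.aestronglyMeasurable h) (ε := ENNReal.ofReal t)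
        (by simpa using ht) (fun h => absurd h ENNReal.ofReal_ne_top)
      rw [ENNReal.toReal_ofReal hp.le] at h2
      have h3 : (ENNReal.ofReal t)⁻¹ ^ p = ENNReal.ofReal (t ^ (-p)) := by
        rw [ENNReal.inv_rpow, ENNReal.ofReal_rpow_of_pos ht,
          ← ENNReal.ofReal_inv_of_pos (by positivity), Real.rpow_neg ht.le]
      rw [h3] at h2
      refine le_trans (measure_mono fun a ha => ?_) h2
      have ha' : t ≤ ‖h a‖ := ha
      show ENNReal.ofReal t ≤ ‖h a‖ₑ
      rw [← ofReal_norm]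
      exact ENNReal.ofReal_le_ofReal ha'
    have hsub : μ {a | 2 * t < ‖g a‖} ≤ μ {a | t ≤ ‖g0 a‖} + μ {a | t ≤ ‖g1 a‖} := by
      refine le_trans (measure_mono_ae ?_) (measure_union_le _ _)
      filter_upwards [Lp.coeFn_add g0 g1] with a ha h2
      have h3 : 2 * t < ‖g a‖ := h2
      rw [hgg, ha, Pi.add_apply] at h3
      have h4 := norm_add_le (g0 a) (g1 a)
      show t ≤ ‖g0 a‖ ∨ t ≤ ‖g1 a‖
      by_contra h5
      push Not at h5
      linarith [h5.1, h5.2]
    calc μ {a | 2 * t < ‖g a‖} ≤ μ {a | t ≤ ‖g0 a‖} + μ {a | t ≤ ‖g1 a‖} := hsub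
      _ ≤ ENNReal.ofReal (t ^ (-β)) * eLpNorm g0 (ENNReal.ofReal β) μ ^ β +
          ENNReal.ofReal (t ^ (-α)) * eLpNorm g1 (ENNReal.ofReal α) μ ^ α :=
          add_le_add (hcheb β hβ0 g0) (hcheb α hα0 g1)
      _ ≤ _ := by gcongr

end Pool.Agent.H342R3.LipInterp
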