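import Mathlib

set_option autoImplicit false

open Filter Topology Set

set_option linter.unusedSectionVars false

namespace Pool.Agent.H342R3.PosIso

abbrev Cant := ℕ → Bool
abbrev X := C(unitInterval, ℝ)
abbrev Y := C(ℕ → Bool, ℝ)

section general
variable {K L : Type*} [TopologicalSpace K] [CompactSpace K] [TopologicalSpace L] [CompactSpace L]

/-- positive operators -/
def Pos (V : C(K,ℝ) →L[ℝ] C(L,ℝ)) : Prop := ∀ f : C(K,ℝ), (∀ x, 0 ≤ f x) → ∀ y, 0 ≤ V f y

/-- positive unital operators -/
def PU (V : C(K,ℝ) →L[ℝ] C(L,ℝ)) : Prop := Pos V ∧ V 1 = 1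

lemma Pos.mono {V : C(K,ℝ) →L[ℝ] C(L,ℝ)} (hV : Pos V) {f g : C(K,ℝ)} (h : ∀ x, f x ≤ g x) (y : L) :
    V f y ≤ V g y := by
  have := hV (g - f) (fun x => by simpa using h x) y
  rw [map_sub] at this
  simpa using this

lemma Pos.abs_le {V : C(K,ℝ) →L[ℝ] C(L,ℝ)} (hV : Pos V) {f : C(K,ℝ)} {ε : ℝ}
    (h : ∀ x, |f x| ≤ ε) (y : L) : |V f y| ≤ ε * V 1 y := by
  have h1 := hV.mono (f := f) (g := ε • (1 : C(K,ℝ))) (fun x => by simpa using (_root_.abs_le.1 (h x)).2) y
  have h2 := hV.mono (f := -(ε • (1 : C(K,ℝ)))) (g := f) (fun x => by simpa using (_root_.abs_le.1 (h x)).1) y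
  rw [map_neg] at h2
  rw [map_smul] at h1 h2
  simp only [ContinuousMap.smul_apply, smul_eq_mul, ContinuousMap.neg_apply] at h1 h2
  exact _root_.abs_le.2 ⟨h2, h1⟩

lemma PU.abs_le {V : C(K,ℝ) →L[ℝ] C(L,ℝ)} (hV : PU V) {f : C(K,ℝ)} {ε : ℝ}
    (h : ∀ x, |f x| ≤ ε) (y : L) : |V f y| ≤ ε := by
  have := hV.1.abs_le h y
  rw [hV.2] at this
  simpa using this

lemma PU.abs_sub_le {V : C(K,ℝ) →L[ℝ] C(L,ℝ)} (hV : PU V) {f : C(K,ℝ)} {ε c : ℝ}
    (h : ∀ x, |f x - c| ≤ ε) (y : L) : |V f y - c| ≤ ε := by
  have h1 : ∀ x, |(f - c • (1 : C(K,ℝ))) x| ≤ ε := fun x => by simpa using h x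
  have := hV.abs_le h1 y
  rw [map_sub, map_smul, hV.2] at this
  simpa using this

lemma PU.norm_le {V : C(K,ℝ) →L[ℝ] C(L,ℝ)} (hV : PU V) (f : C(K,ℝ)) : ‖V f‖ ≤ ‖f‖ := by
  rw [ContinuousMap.norm_le _ (norm_nonneg _)]
  intro y
  exact hV.abs_le (fun x => f.norm_coe_le_norm x) y

lemma Pos.comp {M : Type*} [TopologicalSpace M] [CompactSpace M] {V : C(L,ℝ) →L[ℝ] C(M,ℝ)}
    {W : C(K,ℝ) →L[ℝ] C(L,ℝ)} (hV : Pos V) (hW : Pos W) : Pos (V.comp W) :=
  fun f hf y => hV (W f) (hW f hf) y

lemma PU.comp {M : Type*} [TopologicalSpace M] [CompactSpace M] {V : C(L,ℝ) →L[ℝ] C(M,ℝ)}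
    {W : C(K,ℝ) →L[ℝ] C(L,ℝ)} (hV : PU V) (hW : PU W) : PU (V.comp W) :=
  ⟨hV.1.comp hW.1, by simp [hW.2, hV.2]⟩

/-- composition operators are positive unital -/
lemma PU_comp (h : C(L, K)) : PU (ContinuousMap.compCLM ℝ ℝ h) :=
  ⟨fun f hf y => hf (h y), by ext y; simp⟩

end general

/-- prepend a digit -/
def cons (b : Bool) : C(Cant, Cant) where
  toFun ω := fun n => Nat.casesOn n b ω
  continuous_toFun := by
    apply continuous_pi
    intro n
    cases n with
    | zero => exact continuous_const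
    | succ n => exact continuous_apply n

def tail : C(Cant, Cant) where
  toFun ω := fun n => ω (n+1)
  continuous_toFun := by
    apply continuous_pi
    intro n
    exact continuous_apply (n+1)

@[simp] lemma cons_zero (b : Bool) (ω : Cant) : cons b ω 0 = b := rfl
@[simp] lemma cons_succ (b : Bool) (ω : Cant) (n : ℕ) : cons b ω (n+1) = ω n := rfl
@[simp] lemma tail_apply (ω : Cant) (n : ℕ) : tail ω n = ω (n+1) := rfl
@[simp] lemma tail_cons (b : Bool) (ω : Cant) : tail (cons b ω) = ω := rfl
lemma cons_tail (ω : Cant) : cons (ω 0) (tail ω) = ω := by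
  funext n
  cases n <;> rfl

/-- restriction to the cylinder `[b]` -/
noncomputable def pre (b : Bool) : Y →L[ℝ] Y := ContinuousMap.compCLM ℝ ℝ (cons b)

@[simp] lemma pre_apply (b : Bool) (y : Y) (ω : Cant) : pre b y ω = y (cons b ω) := rfl

/-- indicator of the cylinder `[b]` -/
noncomputable def chi (b : Bool) : Y where
  toFun ω := if ω 0 = b then 1 else 0
  continuous_toFun := by
    have h1 : Continuous (fun c : Bool => if c = b then (1:ℝ) else 0) := continuous_of_discreteTopology
    exact h1.comp (continuous_apply 0)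

/-- place a function on the cylinder `[b]` -/
noncomputable def ind (b : Bool) : Y →L[ℝ] Y :=
  (ContinuousLinearMap.mul ℝ Y (chi b)).comp (ContinuousMap.compCLM ℝ ℝ tail)

lemma ind_apply (b : Bool) (y : Y) (ω : Cant) :
    ind b y ω = if ω 0 = b then y (tail ω) else 0 := by
  simp [ind, chi]

@[simp] lemma ind_cons (b c : Bool) (y : Y) (ω : Cant) :
    ind b y (cons c ω) = if c = b then y ω else 0 := by
  rw [ind_apply, cons_zero, tail_cons]

@[simp] lemma pre_ind_same (b : Bool) (y : Y) : pre b (ind b y) = y := by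
  ext ω; simp

@[simp] lemma pre_ft (y : Y) : pre false (ind true y) = 0 := by
  ext ω; simp

@[simp] lemma pre_tf (y : Y) : pre true (ind false y) = 0 := by
  ext ω; simp

lemma decomp (y : Y) : y = ind false (pre false y) + ind true (pre true y) := by
  ext ω
  simp only [ContinuousMap.add_apply, ind_apply, pre_apply]
  rcases h : ω 0 with _ | _
  · simp only [if_true]
    have := cons_tail ω
    rw [h] at this
    rw [this]; simp
  · simp only [if_true]
    have := cons_tail ω
    rw [h] at this
    rw [this]; simp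

lemma ind_pos (b : Bool) : Pos (ind b) := by
  intro f hf ω
  rw [ind_apply]
  split_ifs
  · exact hf _
  · exact le_rfl

lemma pre_PU (b : Bool) : PU (pre b) := PU_comp _

lemma ind_one : ind false (1 : Y) + ind true (1 : Y) = 1 := by
  conv_rhs => rw [decomp 1]
  rw [(pre_PU false).2, (pre_PU true).2]

lemma ind_norm_le (b : Bool) (y : Y) : ‖ind b y‖ ≤ ‖y‖ := by
  rw [ContinuousMap.norm_le _ (norm_nonneg _)]
  intro ω
  rw [ind_apply]
  split_ifs
  · exact y.norm_coe_le_norm _
  · simp

lemma eq_iff (y z : Y) : y = z ↔ pre false y = pre false z ∧ pre true y = pre true z := by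
  constructor
  · rintro rfl; exact ⟨rfl, rfl⟩
  · rintro ⟨h1, h2⟩
    rw [decomp y, decomp z, h1, h2]

/-- small oscillation on cylinders of length `n` -/
def Osc (n : ℕ) (y : Y) (ε : ℝ) : Prop := ∀ ω ω' : Cant, (∀ i < n, ω i = ω' i) → |y ω - y ω'| ≤ ε

lemma Osc.pre {n : ℕ} {y : Y} {ε : ℝ} (h : Osc (n+1) y ε) (b : Bool) : Osc n (pre b y) ε := by
  intro ω ω' hω
  apply h
  intro i hi
  cases i with
  | zero => rfl
  | succ i => exact hω i (by omega)

lemma uc {M : Type*} [MetricSpace M] [CompactSpace M] (f : M → ℝ) (hf : Continuous f) {ε : ℝ}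
    (hε : 0 < ε) : ∃ δ > 0, ∀ a b : M, dist a b < δ → |f a - f b| < ε := by
  have huc : UniformContinuous f := CompactSpace.uniformContinuous_of_continuous hf
  rw [Metric.uniformContinuous_iff] at huc
  obtain ⟨δ, hδ, h⟩ := huc ε hε
  exact ⟨δ, hδ, fun a b hab => by simpa [Real.dist_eq] using h hab⟩

lemma exists_osc (y : Y) {ε : ℝ} (hε : 0 < ε) : ∃ n, Osc n y ε := by
  obtain ⟨δ, hδ, h⟩ := @uc (ℕ → Bool) PiNat.metricSpace _ y y.continuous ε hε
  obtain ⟨n, hn⟩ := exists_pow_lt_of_lt_one hδ (by norm_num : (1/2:ℝ) < 1)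
  refine ⟨n, fun ω ω' hω => ?_⟩
  have h1 : ω ∈ PiNat.cylinder ω' n := by
    rw [PiNat.mem_cylinder_iff]
    intro i hi
    exact hω i hi
  rw [PiNat.mem_cylinder_iff_dist_le] at h1
  exact (h ω ω' (lt_of_le_of_lt h1 hn)).le


section recursion

variable {K : Type*} [TopologicalSpace K] [CompactSpace K]

/-- the recursion step -/
noncomputable def Phi (A : Y →L[ℝ] C(K,ℝ)) (B : Bool → C(K,ℝ) →L[ℝ] C(K,ℝ))
    (V : Y →L[ℝ] C(K,ℝ)) : Y →L[ℝ] C(K,ℝ) :=
  A + (B false).comp (V.comp (pre false)) + (B true).comp (V.comp (pre true))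

/-- the data of a recursion -/
structure Data (A : Y →L[ℝ] C(K,ℝ)) (B : Bool → C(K,ℝ) →L[ℝ] C(K,ℝ)) : Prop where
  posA : Pos A
  posB : ∀ b, Pos (B b)
  one : A 1 + B false 1 + B true 1 = 1

lemma Phi_apply (A : Y →L[ℝ] C(K,ℝ)) (B : Bool → C(K,ℝ) →L[ℝ] C(K,ℝ))
    (V : Y →L[ℝ] C(K,ℝ)) (y : Y) :
    Phi A B V y = A y + B false (V (pre false y)) + B true (V (pre true y)) := rfl

lemma Phi_PU {A : Y →L[ℝ] C(K,ℝ)} {B : Bool → C(K,ℝ) →L[ℝ] C(K,ℝ)} (hD : Data A B)
    {V : Y →L[ℝ] C(K,ℝ)} (hV : PU V) : PU (Phi A B V) := by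
  refine ⟨?_, ?_⟩
  · intro f hf t
    rw [Phi_apply]
    simp only [ContinuousMap.add_apply]
    have h1 := hD.posA f hf t
    have h2 := hD.posB false _ (hV.1 _ ((pre_PU false).1 f hf)) t
    have h3 := hD.posB true _ (hV.1 _ ((pre_PU true).1 f hf)) t
    linarith
  · rw [Phi_apply, (pre_PU false).2, (pre_PU true).2, hV.2]
    exact hD.one

lemma iter_PU {A : Y →L[ℝ] C(K,ℝ)} {B : Bool → C(K,ℝ) →L[ℝ] C(K,ℝ)} (hD : Data A B)
    {V : Y →L[ℝ] C(K,ℝ)} (hV : PU V) (n : ℕ) : PU ((Phi A B)^[n] V) := by
  induction n with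
  | zero => exact hV
  | succ n ih => rw [Function.iterate_succ_apply']; exact Phi_PU hD ih

lemma diff_n {A : Y →L[ℝ] C(K,ℝ)} {B : Bool → C(K,ℝ) →L[ℝ] C(K,ℝ)} (hD : Data A B)
    {V W : Y →L[ℝ] C(K,ℝ)} (hV : PU V) (hW : PU W) (n : ℕ) :
    ∀ (y : Y) (ε : ℝ), 0 ≤ ε → Osc n y ε → ∀ t, |((Phi A B)^[n] V) y t - ((Phi A B)^[n] W) y t| ≤ 2 * ε := by
  induction n with
  | zero =>
    intro y ε hε hy t
    simp only [Function.iterate_zero, id]
    have h : ∀ x, |y x - y (fun _ => false)| ≤ ε := fun x => hy _ _ (fun i hi => by omega)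
    have h1 := hV.abs_sub_le h t
    have h2 := hW.abs_sub_le h t
    rw [abs_le] at h1 h2 ⊢
    constructor <;> linarith
  | succ n ih =>
    intro y ε hε hy t
    rw [Function.iterate_succ_apply', Function.iterate_succ_apply', Phi_apply, Phi_apply]
    set Vn := (Phi A B)^[n] V
    set Wn := (Phi A B)^[n] W
    have e : (A y + B false (Vn (pre false y)) + B true (Vn (pre true y))) t -
        (A y + B false (Wn (pre false y)) + B true (Wn (pre true y))) t =
        B false (Vn (pre false y) - Wn (pre false y)) t + B true (Vn (pre true y) - Wn (pre true y)) t := by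
      simp only [map_sub, ContinuousMap.add_apply, ContinuousMap.sub_apply]
      ring
    rw [e]
    have h1 := (hD.posB false).abs_le (f := Vn (pre false y) - Wn (pre false y)) (ε := 2 * ε)
      (fun x => by simpa using ih (pre false y) ε hε (hy.pre false) x) t
    have h2 := (hD.posB true).abs_le (f := Vn (pre true y) - Wn (pre true y)) (ε := 2 * ε)
      (fun x => by simpa using ih (pre true y) ε hε (hy.pre true) x) t
    have h3 : A 1 t + B false 1 t + B true 1 t = 1 := by
      have := congrArg (fun f : C(K,ℝ) => f t) hD.one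
      simpa using this
    have h4 := hD.posA 1 (fun _ => by simp) t
    calc |B false (Vn (pre false y) - Wn (pre false y)) t + B true (Vn (pre true y) - Wn (pre true y)) t|
        ≤ 2 * ε * B false 1 t + 2 * ε * B true 1 t := (abs_add_le _ _).trans (add_le_add h1 h2)
      _ = 2 * ε * (B false 1 t + B true 1 t) := by ring
      _ ≤ 2 * ε * 1 := by
          apply mul_le_mul_of_nonneg_left _ (by linarith)
          linarith
      _ = 2 * ε := by ring

lemma unique {A : Y →L[ℝ] C(K,ℝ)} {B : Bool → C(K,ℝ) →L[ℝ] C(K,ℝ)} (hD : Data A B)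
    {V W : Y →L[ℝ] C(K,ℝ)} (hV : PU V) (hW : PU W) (hV' : Phi A B V = V) (hW' : Phi A B W = W) :
    V = W := by
  have hVn : ∀ n, (Phi A B)^[n] V = V := fun n => Function.iterate_fixed hV' n
  have hWn : ∀ n, (Phi A B)^[n] W = W := fun n => Function.iterate_fixed hW' n
  ext y t
  by_contra hne
  have hpos : 0 < |V y t - W y t| := abs_pos.2 (sub_ne_zero.2 hne)
  obtain ⟨n, hn⟩ := exists_osc y (ε := |V y t - W y t| / 4) (by positivity)
  have := diff_n hD hV hW n y _ (by positivity) hn t
  rw [hVn, hWn] at this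
  linarith

/-- the starting operator: evaluation at the zero sequence -/
noncomputable def V0 (K : Type*) [TopologicalSpace K] : Y →L[ℝ] C(K,ℝ) :=
  (ContinuousLinearMap.const ℝ K).comp (ContinuousMap.evalCLM ℝ (fun _ => false))

lemma V0_apply (y : Y) (t : K) : V0 K y t = y (fun _ => false) := rfl

lemma V0_PU : PU (V0 K) := ⟨fun f hf t => by rw [V0_apply]; exact hf _, by ext t; rw [V0_apply]; rfl⟩

theorem exists_fix {A : Y →L[ℝ] C(K,ℝ)} {B : Bool → C(K,ℝ) →L[ℝ] C(K,ℝ)} (hD : Data A B) :
    ∃ V : Y →L[ℝ] C(K,ℝ), PU V ∧ Phi A B V = V := by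
  let S : ℕ → Y →L[ℝ] C(K,ℝ) := fun n => (Phi A B)^[n] (V0 K)
  have hS : ∀ n, PU (S n) := fun n => iter_PU hD V0_PU n
  have hcauchy : ∀ y, CauchySeq (fun n => S n y) := by
    intro y
    rw [Metric.cauchySeq_iff']
    intro ε hε
    obtain ⟨n, hn⟩ := exists_osc y (ε := ε / 4) (by positivity)
    refine ⟨n, fun m hm => ?_⟩
    obtain ⟨k, rfl⟩ := Nat.exists_eq_add_of_le hm
    have h1 : S (n + k) = (Phi A B)^[n] (S k) := by
      simp only [S]
      rw [Function.iterate_add_apply]
    have h2 : dist (S (n+k) y) (S n y) ≤ ε / 2 := by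
      rw [ContinuousMap.dist_le (by positivity)]
      intro t
      rw [Real.dist_eq, h1]
      refine (diff_n hD (hS k) V0_PU n y _ (by positivity) hn t).trans (le_of_eq (by ring))
    linarith
  choose f hf using fun y => cauchySeq_tendsto_of_complete (hcauchy y)
  let V : Y →L[ℝ] C(K,ℝ) := continuousLinearMapOfTendsto S (f := f) (tendsto_pi_nhds.2 hf)
  have hV : ∀ y, Tendsto (fun n => S n y) atTop (𝓝 (V y)) := hf
  have hVt : ∀ y t, Tendsto (fun n => S n y t) atTop (𝓝 (V y t)) := fun y t =>
    ((ContinuousMap.evalCLM ℝ t).continuous.tendsto _).comp (hV y)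
  refine ⟨V, ⟨?_, ?_⟩, ?_⟩
  · intro g hg t
    exact ge_of_tendsto (hVt g t) (Eventually.of_forall fun n => (hS n).1 g hg t)
  · apply tendsto_nhds_unique (hV 1)
    have : (fun n => S n 1) = fun _ => 1 := by
      funext n; exact (hS n).2
    rw [this]
    exact tendsto_const_nhds
  · ext1 y
    have h1 : Tendsto (fun n => S (n+1) y) atTop (𝓝 (V y)) := (hV y).comp (tendsto_add_atTop_nat 1)
    have h2 : Tendsto (fun n => S (n+1) y) atTop (𝓝 (Phi A B V y)) := by
      have : (fun n => S (n+1) y) = fun n => A y + B false (S n (pre false y)) + B true (S n (pre true y)) := by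
        funext n
        simp only [S]
        rw [Function.iterate_succ_apply', Phi_apply]
      rw [this, Phi_apply]
      exact (tendsto_const_nhds.add (((B false).continuous.tendsto _).comp (hV _))).add
        (((B true).continuous.tendsto _).comp (hV _))
    exact tendsto_nhds_unique h2 h1

end recursion


section interval

/-- the real number with digits `ω` in the system of ratio `r` -/
noncomputable def phiR (r : ℝ) (ω : Cant) : ℝ := (1 - r) * ∑' n, (if ω n then r^n else 0)

lemma summ {r : ℝ} (h0 : 0 < r) (h1 : r < 1) (ω : Cant) : Summable (fun n => if ω n then r^n else 0) := by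
  apply Summable.of_nonneg_of_le _ _ (summable_geometric_of_lt_one h0.le h1)
  · intro n; split_ifs <;> positivity
  · intro n; split_ifs
    · exact le_rfl
    · positivity

lemma phiR_nonneg {r : ℝ} (h0 : 0 < r) (h1 : r < 1) (ω : Cant) : 0 ≤ phiR r ω := by
  unfold phiR
  apply mul_nonneg (by linarith)
  apply tsum_nonneg
  intro n; split_ifs <;> positivity

lemma phiR_le {r : ℝ} (h0 : 0 < r) (h1 : r < 1) (ω : Cant) : phiR r ω ≤ 1 := by
  unfold phiR
  have h2 : ∑' n, (if ω n then r^n else 0) ≤ ∑' n, r^n := by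
    apply (summ h0 h1 ω).tsum_le_tsum _ (summable_geometric_of_lt_one h0.le h1)
    intro n; split_ifs
    · exact le_rfl
    · positivity
  rw [tsum_geometric_of_lt_one h0.le h1] at h2
  calc (1 - r) * ∑' n, (if ω n then r^n else 0) ≤ (1 - r) * (1 - r)⁻¹ := by
        apply mul_le_mul_of_nonneg_left h2 (by linarith)
    _ = 1 := mul_inv_cancel₀ (by linarith)

lemma phiR_cont {r : ℝ} (h0 : 0 < r) (h1 : r < 1) : Continuous (phiR r) := by
  unfold phiR
  apply continuous_const.mul
  apply continuous_tsum (u := fun n => r^n) _ (summable_geometric_of_lt_one h0.le h1)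
  · intro n ω
    rw [Real.norm_eq_abs]
    split_ifs
    · rw [abs_of_nonneg (by positivity)]
    · simp only [abs_zero]; positivity
  · intro n
    have h2 : Continuous (fun c : Bool => if c then r^n else 0) := continuous_of_discreteTopology
    exact h2.comp (continuous_apply n)

lemma phiR_cons {r : ℝ} (h0 : 0 < r) (h1 : r < 1) (b : Bool) (ω : Cant) :
    phiR r (cons b ω) = (1 - r) * (if b then 1 else 0) + r * phiR r ω := by
  unfold phiR
  rw [(summ h0 h1 (cons b ω)).tsum_eq_zero_add]
  have h2 : ∑' n, (if (cons b ω) (n+1) then r^(n+1) else 0) = r * ∑' n, (if ω n then r^n else 0) := by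
    rw [← tsum_mul_left]
    apply tsum_congr
    intro n
    by_cases h : ω n = true
    · simp [h, pow_succ, mul_comm]
    · simp [h]
  rw [h2]
  simp only [cons_zero, pow_zero]
  ring

/-- `phiR` as a continuous map to the unit interval -/
noncomputable def phi {r : ℝ} (h0 : 0 < r) (h1 : r < 1) : C(Cant, unitInterval) where
  toFun ω := ⟨phiR r ω, phiR_nonneg h0 h1 ω, phiR_le h0 h1 ω⟩
  continuous_toFun := (phiR_cont h0 h1).subtype_mk _

/-- the branch maps `g_b` -/
noncomputable def gb {r : ℝ} (h0 : 0 < r) (h1 : r < 1) (b : Bool) : C(unitInterval, unitInterval) where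
  toFun s := ⟨(1 - r) * (if b then 1 else 0) + r * (s:ℝ), by
    have := s.2.1; have := s.2.2
    constructor
    · split_ifs <;> nlinarith
    · split_ifs <;> nlinarith⟩
  continuous_toFun := by
    apply Continuous.subtype_mk
    fun_prop

lemma gb_coe {r : ℝ} (h0 : 0 < r) (h1 : r < 1) (b : Bool) (s : unitInterval) :
    (gb h0 h1 b s : ℝ) = (1 - r) * (if b then 1 else 0) + r * (s:ℝ) := rfl

lemma phi_cons {r : ℝ} (h0 : 0 < r) (h1 : r < 1) (b : Bool) (ω : Cant) :
    phi h0 h1 (cons b ω) = gb h0 h1 b (phi h0 h1 ω) := by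
  apply Subtype.ext
  exact phiR_cons h0 h1 b ω

/-- the (clamped) inverse branches -/
noncomputable def hb (r : ℝ) (b : Bool) : C(unitInterval, unitInterval) where
  toFun t := Set.projIcc 0 1 zero_le_one (((t:ℝ) - (1 - r) * (if b then 1 else 0)) / r)
  continuous_toFun := by
    apply continuous_projIcc.comp
    fun_prop

lemma hb_gb {r : ℝ} (h0 : 0 < r) (h1 : r < 1) (b : Bool) (s : unitInterval) :
    hb r b (gb h0 h1 b s) = s := by
  show Set.projIcc 0 1 zero_le_one (((gb h0 h1 b s:ℝ) - (1 - r) * (if b then 1 else 0)) / r) = s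
  rw [gb_coe]
  have : ((1 - r) * (if b then 1 else 0) + r * (s:ℝ) - (1 - r) * (if b then 1 else 0)) / r = s := by
    field_simp
    ring
  rw [this]
  exact Set.projIcc_val zero_le_one s

/-- the weights -/
noncomputable def q (b : Bool) : X where
  toFun t := if b then 1 - max 0 (min 1 (2 - 3 * (t:ℝ))) else max 0 (min 1 (2 - 3 * (t:ℝ)))
  continuous_toFun := by
    cases b
    · simp only [Bool.false_eq_true, if_false]; fun_prop
    · simp only [if_true]; fun_prop

lemma q_false (t : unitInterval) : q false t = max 0 (min 1 (2 - 3 * (t:ℝ))) := rfl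
lemma q_true (t : unitInterval) : q true t = 1 - max 0 (min 1 (2 - 3 * (t:ℝ))) := rfl

lemma q_nonneg (b : Bool) (t : unitInterval) : 0 ≤ q b t := by
  cases b
  · rw [q_false]; exact le_max_left _ _
  · rw [q_true]
    have : max 0 (min 1 (2 - 3 * (t:ℝ))) ≤ 1 := max_le zero_le_one (min_le_left _ _)
    linarith

lemma q_sum (t : unitInterval) : q false t + q true t = 1 := by
  rw [q_false, q_true]; ring

/-- the operators of the recursion on the interval -/
noncomputable def Bop (r : ℝ) (b : Bool) : X →L[ℝ] X :=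
  (ContinuousLinearMap.mul ℝ X (q b)).comp (ContinuousMap.compCLM ℝ ℝ (hb r b))

lemma Bop_apply (r : ℝ) (b : Bool) (f : X) (t : unitInterval) :
    Bop r b f t = q b t * f (hb r b t) := rfl

lemma Bop_data (r : ℝ) : Data (0 : Y →L[ℝ] X) (Bop r) := by
  refine ⟨?_, ?_, ?_⟩
  · intro f hf t; simp
  · intro b f hf t
    rw [Bop_apply]
    exact mul_nonneg (q_nonneg b t) (hf _)
  · ext t
    simp only [ContinuousMap.add_apply, Bop_apply, ContinuousMap.one_apply, mul_one,
      _root_.zero_apply, ContinuousMap.zero_apply, zero_add]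
    exact q_sum t

/-- the averaging operator with ratio `r` -/
theorem exists_U (r : ℝ) : ∃ U : Y →L[ℝ] X, PU U ∧
    ∀ y t, U y t = q false t * U (pre false y) (hb r false t) + q true t * U (pre true y) (hb r true t) := by
  obtain ⟨U, hU, hfix⟩ := exists_fix (Bop_data r)
  refine ⟨U, hU, fun y t => ?_⟩
  have : U y t = Phi 0 (Bop r) U y t := by rw [hfix]
  rw [this, Phi_apply]
  simp only [ContinuousMap.add_apply, Bop_apply, _root_.zero_apply,
    ContinuousMap.zero_apply, zero_add]

/-- extension operator: `R E = 1` for the middle-third Cantor set -/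
theorem exists_RE : ∃ (R : X →L[ℝ] Y) (E : Y →L[ℝ] X), PU R ∧ PU E ∧ ∀ y, R (E y) = y := by
  have h0 : (0:ℝ) < 1/3 := by norm_num
  have h1 : (1/3:ℝ) < 1 := by norm_num
  obtain ⟨E, hE, hrec⟩ := exists_U (1/3)
  let R : X →L[ℝ] Y := ContinuousMap.compCLM ℝ ℝ (phi h0 h1)
  refine ⟨R, E, PU_comp _, hE, ?_⟩
  have hgb : ∀ b s (y : Y), E y (gb h0 h1 b s) = E (pre b y) s := by
    intro b s y
    have hs0 := s.2.1
    have hs1 := s.2.2
    rw [hrec]
    cases b
    · have hq0 : q false (gb h0 h1 false s) = 1 := by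
        rw [q_false, gb_coe]
        simp only [Bool.false_eq_true, if_false]
        rw [min_eq_left (by linarith), max_eq_right (by norm_num)]
      have hq1 : q true (gb h0 h1 false s) = 0 := by
        have := q_sum (gb h0 h1 false s)
        linarith
      rw [hq0, hq1, hb_gb]; ring
    · have hq0 : q false (gb h0 h1 true s) = 0 := by
        rw [q_false, gb_coe]
        simp only [if_true]
        rw [min_eq_right (by linarith), max_eq_left (by linarith)]
      have hq1 : q true (gb h0 h1 true s) = 1 := by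
        have := q_sum (gb h0 h1 true s)
        linarith
      rw [hq0, hq1, hb_gb]; ring
  -- uniqueness
  let A : Y →L[ℝ] Y := 0
  let B : Bool → Y →L[ℝ] Y := fun b => ind b
  have hD : Data A B := ⟨fun f hf t => by simp [A], fun b => ind_pos b, by simp only [A, B]; rw [_root_.zero_apply, zero_add]; exact ind_one⟩
  have hfix1 : Phi A B (R.comp E) = R.comp E := by
    ext1 y
    rw [Phi_apply]
    simp only [A, B, _root_.zero_apply, zero_add]
    conv_rhs => rw [decomp ((R.comp E) y)]
    congr 2
    · ext ω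
      show E (pre false y) (phi h0 h1 ω) = E y (phi h0 h1 (cons false ω))
      rw [phi_cons, hgb]
    · ext ω
      show E (pre true y) (phi h0 h1 ω) = E y (phi h0 h1 (cons true ω))
      rw [phi_cons, hgb]
  have hfix2 : Phi A B (ContinuousLinearMap.id ℝ Y) = ContinuousLinearMap.id ℝ Y := by
    ext1 y
    rw [Phi_apply]
    simp only [A, B, _root_.zero_apply, zero_add, ContinuousLinearMap.id_apply]
    exact (decomp y).symm
  have hid : PU (ContinuousLinearMap.id ℝ Y) := ⟨fun f hf t => hf t, rfl⟩
  have huniq := unique hD ((PU_comp (phi h0 h1)).comp hE) hid hfix1 hfix2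
  intro y
  have := congrArg (fun V : Y →L[ℝ] Y => V y) huniq
  exact this

/-- Milutin averaging operator: `u J = 1` -/
theorem exists_uJ : ∃ (J : X →L[ℝ] Y) (u : Y →L[ℝ] X), PU J ∧ PU u ∧ ∀ x, u (J x) = x := by
  have h0 : (0:ℝ) < 2/3 := by norm_num
  have h1 : (2/3:ℝ) < 1 := by norm_num
  obtain ⟨u, hu, hrec⟩ := exists_U (2/3)
  let J : X →L[ℝ] Y := ContinuousMap.compCLM ℝ ℝ (phi h0 h1)
  have hJ : PU J := PU_comp _
  refine ⟨J, u, hJ, hu, ?_⟩
  have hpre : ∀ b (x : X), pre b (J x) = J (x.comp (gb h0 h1 b)) := by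
    intro b x
    ext ω
    show x (phi h0 h1 (cons b ω)) = x (gb h0 h1 b (phi h0 h1 ω))
    rw [phi_cons]
  have hgh : ∀ b t, q b t ≠ 0 → gb h0 h1 b (hb (2/3) b t) = t := by
    intro b t hq
    have ht0 := t.2.1
    have ht1 := t.2.2
    apply Subtype.ext
    rw [gb_coe]
    show (1 - 2/3) * (if b then 1 else 0) + 2/3 * ((Set.projIcc 0 1 zero_le_one
      (((t:ℝ) - (1 - 2/3) * (if b then 1 else 0)) / (2/3)) : unitInterval) : ℝ) = t
    cases b
    · rw [q_false] at hq
      have ht : (t:ℝ) < 2/3 := by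
        by_contra hcon
        push Not at hcon
        apply hq
        rw [min_eq_right (by linarith), max_eq_left (by linarith)]
      simp only [Bool.false_eq_true, if_false]
      rw [Set.projIcc_of_mem zero_le_one (⟨by linarith, by linarith⟩ :
        ((t:ℝ) - (1 - 2/3) * 0) / (2/3) ∈ Set.Icc (0:ℝ) 1)]
      simp only
      ring
    · rw [q_true] at hq
      have ht : 1/3 < (t:ℝ) := by
        by_contra hcon
        push Not at hcon
        apply hq
        rw [min_eq_left (by linarith), max_eq_right (by norm_num)]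
        norm_num
      simp only [if_true]
      rw [Set.projIcc_of_mem zero_le_one (⟨by linarith, by linarith⟩ :
        ((t:ℝ) - (1 - 2/3) * 1) / (2/3) ∈ Set.Icc (0:ℝ) 1)]
      simp only
      ring
  have key : ∀ n : ℕ, ∀ (x : X) (ε : ℝ), 0 ≤ ε →
      (∀ s s' : unitInterval, |(s:ℝ) - s'| ≤ (2/3)^n → |x s - x s'| ≤ ε) →
      ∀ t, |u (J x) t - x t| ≤ ε := by
    intro n
    induction n with
    | zero =>
      intro x ε hε hx t
      have hosc : ∀ s : unitInterval, |x s - x t| ≤ ε := by
        intro s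
        apply hx
        have := s.2.1; have := s.2.2; have := t.2.1; have := t.2.2
        rw [pow_zero, abs_le]
        constructor <;> linarith
      exact (hu.comp hJ).abs_sub_le hosc t
    | succ n ih =>
      intro x ε hε hx t
      have hb' : ∀ b, ∀ s, |u (J (x.comp (gb h0 h1 b))) s - (x.comp (gb h0 h1 b)) s| ≤ ε := by
        intro b
        apply ih _ ε hε
        intro s s' hs
        simp only [ContinuousMap.comp_apply]
        apply hx
        rw [gb_coe, gb_coe]
        have : (1 - 2/3) * (if b then 1 else 0) + 2/3 * (s:ℝ) - ((1 - 2/3) * (if b then 1 else 0) + 2/3 * (s':ℝ))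
            = 2/3 * ((s:ℝ) - s') := by ring
        rw [this, abs_mul, abs_of_pos h0, pow_succ, mul_comm ((2/3:ℝ)^n)]
        gcongr
      rw [hrec, hpre, hpre]
      have hterm : ∀ b, |q b t * u (J (x.comp (gb h0 h1 b))) (hb (2/3) b t) - q b t * x t| ≤ q b t * ε := by
        intro b
        rw [← mul_sub, abs_mul, abs_of_nonneg (q_nonneg b t)]
        by_cases hq : q b t = 0
        · rw [hq]; simp
        · apply mul_le_mul_of_nonneg_left _ (q_nonneg b t)
          have := hb' b (hb (2/3) b t)
          rw [ContinuousMap.comp_apply, hgh b t hq] at this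
          exact this
      have hx' : x t = q false t * x t + q true t * x t := by
        rw [← add_mul, q_sum, one_mul]
      have e : q false t * u (J (x.comp (gb h0 h1 false))) (hb (2/3) false t) +
          q true t * u (J (x.comp (gb h0 h1 true))) (hb (2/3) true t) - x t =
          (q false t * u (J (x.comp (gb h0 h1 false))) (hb (2/3) false t) - q false t * x t) +
          (q true t * u (J (x.comp (gb h0 h1 true))) (hb (2/3) true t) - q true t * x t) := by
        conv_lhs => rw [hx']
        ring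
      rw [e]
      refine (abs_add_le _ _).trans ((add_le_add (hterm false) (hterm true)).trans ?_)
      rw [← add_mul, q_sum, one_mul]
  intro x
  ext t
  by_contra hne
  have hpos : 0 < |u (J x) t - x t| := abs_pos.2 (sub_ne_zero.2 hne)
  obtain ⟨δ, hδ, h⟩ := uc x x.continuous (half_pos hpos)
  obtain ⟨n, hn⟩ := exists_pow_lt_of_lt_one hδ h1
  have := key n x (|u (J x) t - x t| / 2) (by positivity)
    (fun s s' hs => (h s s' (by rw [Subtype.dist_eq, Real.dist_eq]; exact lt_of_le_of_lt hs hn)).le) t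
  linarith

end interval


section main

lemma fix_solve (G : Y →L[ℝ] Y) (hG : ∀ y, ‖G y‖ ≤ ‖y‖) (r : Y) : ∃ y, y + (1/2:ℝ) • G y = r := by
  have hc : ContractingWith (1/2) (fun y => r - (1/2:ℝ) • G y) := by
    refine ⟨by rw [← NNReal.coe_lt_coe]; norm_num, ?_⟩
    apply LipschitzWith.of_dist_le_mul
    intro a b
    rw [dist_eq_norm, dist_eq_norm]
    have : r - (1/2:ℝ) • G a - (r - (1/2:ℝ) • G b) = -((1/2:ℝ) • G (a - b)) := by
      rw [map_sub, smul_sub]; abel
    rw [this, norm_neg, norm_smul]
    have h2 : ‖(1/2:ℝ)‖ = ((1/2 : NNReal) : ℝ) := by norm_num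
    rw [h2]
    gcongr
    exact hG _
  obtain ⟨y, hy⟩ : ∃ y, r - (1/2:ℝ) • G y = y := ⟨hc.fixedPoint, hc.fixedPoint_isFixedPt⟩
  rw [sub_eq_iff_eq_add] at hy
  exact ⟨y, hy.symm⟩

lemma fix_zero (G : Y →L[ℝ] Y) (hG : ∀ y, ‖G y‖ ≤ ‖y‖) {y : Y} (h : y + (1/2:ℝ) • G y = 0) : y = 0 := by
  have h1 : y = -((1/2:ℝ) • G y) := eq_neg_of_add_eq_zero_left h
  have h2 : ‖y‖ ≤ 1/2 * ‖y‖ := by
    conv_lhs => rw [h1]
    rw [norm_neg, norm_smul]
    have h2 : ‖(1/2:ℝ)‖ = 1/2 := by norm_num
    rw [h2]
    gcongr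
    exact hG _
  have h3 : ‖y‖ ≤ 0 := by linarith
  exact norm_le_zero_iff.1 h3

theorem main :
    ∃ T : C(unitInterval, ℝ) ≃L[ℝ] C(ℕ → Bool, ℝ),
      ∀ f : C(unitInterval, ℝ), (∀ x, 0 ≤ f x) → ∀ y, 0 ≤ T f y := by
  obtain ⟨R, E, hR, hE, hRE⟩ := exists_RE
  obtain ⟨J, u, hJ, hu, huJ⟩ := exists_uJ
  -- the projection H
  let A : Y →L[ℝ] Y := (ind false).comp (J.comp (u.comp (pre false)))
  let B : Bool → Y →L[ℝ] Y := fun b => if b then ind true else 0
  have hB0 : B false = 0 := rfl
  have hB1 : B true = ind true := rfl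
  have hApos : Pos A := (ind_pos false).comp (hJ.1.comp (hu.1.comp (pre_PU false).1))
  have hD : Data A B := by
    refine ⟨hApos, ?_, ?_⟩
    · intro b
      cases b
      · rw [hB0]; intro f hf t; simp
      · rw [hB1]; exact ind_pos true
    · rw [hB0, hB1]
      have : A 1 = ind false 1 := by
        show ind false (J (u (pre false 1))) = _
        rw [(pre_PU false).2, hu.2, hJ.2]
      rw [this, _root_.zero_apply, add_zero]
      exact ind_one
  obtain ⟨H, hH, hfix⟩ := exists_fix hD
  have hHrec : ∀ y, H y = ind false (J (u (pre false y))) + ind true (H (pre true y)) := by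
    intro y
    conv_lhs => rw [← hfix]
    rw [Phi_apply, hB0, hB1, _root_.zero_apply, add_zero]
    rfl
  have hHf : ∀ y, pre false (H y) = J (u (pre false y)) := by
    intro y
    rw [hHrec, map_add, pre_ind_same, pre_ft, add_zero]
  have hHt : ∀ y, pre true (H y) = H (pre true y) := by
    intro y
    conv_lhs => rw [hHrec]
    rw [map_add, pre_ind_same, pre_tf, zero_add]
  have hHH : ∀ y, H (H y) = H y := by
    have hfix2 : Phi A B (H.comp H) = H.comp H := by
      ext1 y
      rw [Phi_apply, hB0, hB1, _root_.zero_apply, add_zero]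
      show ind false (J (u (pre false y))) + ind true (H (H (pre true y))) = H (H y)
      conv_rhs => rw [hHrec (H y)]
      rw [hHf, huJ, hHt]
    have := unique hD (hH.comp hH) hH hfix2 hfix
    intro y
    exact congrArg (fun V : Y →L[ℝ] Y => V y) this
  -- the two maps
  let T1a : X →L[ℝ] Y := (pre false).comp R
  let T1b : X →L[ℝ] X := ContinuousLinearMap.id ℝ X + (2:ℝ) • (E.comp ((pre true).comp R))
  let T2a : X →L[ℝ] Y := (2:ℝ) • ((ind false).comp J)
  let T2b : Y →L[ℝ] Y := ContinuousLinearMap.id ℝ Y + (2:ℝ) • ((ind true).comp H)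
  have hT1a : ∀ x, T1a x = pre false (R x) := fun x => rfl
  have hT1b : ∀ x, T1b x = x + (2:ℝ) • E (pre true (R x)) := fun x => rfl
  have hT2a : ∀ x, T2a x = (2:ℝ) • ind false (J x) := fun x => rfl
  have hT2b : ∀ y, T2b y = y + (2:ℝ) • ind true (H y) := fun y => rfl
  let T : X →L[ℝ] Y := T2a.comp T1b + T2b.comp T1a
  have hT : ∀ x, T x = T2a (T1b x) + T2b (T1a x) := fun x => rfl
  have hTpos : Pos T := by
    intro f hf ω
    have hRf : ∀ ω, 0 ≤ R f ω := hR.1 f hf
    have ha : ∀ ω, 0 ≤ T1a f ω := (pre_PU false).1 _ hRf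
    have hb : ∀ s, 0 ≤ T1b f s := by
      intro s
      rw [hT1b]
      have h1 := hE.1 _ ((pre_PU true).1 _ hRf) s
      have h2 := hf s
      simp only [ContinuousMap.add_apply, ContinuousMap.smul_apply, smul_eq_mul]
      linarith
    have h3 := ind_pos false _ (hJ.1 _ hb) ω
    have h4 := ind_pos true _ (hH.1 _ ha) ω
    have h5 := ha ω
    rw [hT, hT2a, hT2b]
    simp only [ContinuousMap.add_apply, ContinuousMap.smul_apply, smul_eq_mul]
    linarith
  -- injectivity of the second map
  have inj2 : ∀ x y, T2a x + T2b y = 0 → x = 0 ∧ y = 0 := by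
    intro x y h
    rw [hT2a, hT2b] at h
    have h1 : H y + (2:ℝ) • (ind false (J x) + ind true (H y)) = 0 := by
      have := congrArg H h
      rw [map_zero] at this
      rw [← this]
      have e : H ((2:ℝ) • ind false (J x) + (y + (2:ℝ) • ind true (H y))) =
          H y + (2:ℝ) • H (ind false (J x) + ind true (H y)) := by
        simp only [map_add, map_smul, smul_add]; abel
      rw [e, hHrec (ind false (J x) + ind true (H y))]
      simp only [map_add, pre_ind_same, pre_ft, pre_tf, add_zero, zero_add, huJ, hHH]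
    have h2 : H y + (1/2:ℝ) • pre true (H y) = 0 := by
      have := congrArg (fun z => (1/2:ℝ) • pre true z) h1
      simp only [map_add, map_smul, pre_tf, pre_ind_same, zero_add, map_zero, smul_zero, smul_add,
        smul_smul] at this
      norm_num at this
      rw [add_comm] at this
      simpa using this
    have h3 : H y = 0 := fix_zero (pre true) (fun y => (pre_PU true).norm_le y) h2
    rw [h3, map_zero, add_zero, zero_add] at h1
    have h4 : x = 0 := by
      have := congrArg (fun z => (1/2:ℝ) • u (pre false z)) h1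
      simp only [map_smul, pre_ind_same, huJ, map_zero, smul_zero, smul_smul] at this
      norm_num at this
      exact this
    refine ⟨h4, ?_⟩
    rw [h4, h3] at h
    simpa using h
  have surj2 : ∀ z, ∃ x y, T2a x + T2b y = z := by
    intro z
    obtain ⟨v, hv⟩ := fix_solve (pre true) (fun y => (pre_PU true).norm_le y)
      ((1/2:ℝ) • pre true (H z))
    have hHv : H v = v := by
      have h1 : H v + (1/2:ℝ) • pre true (H v) = (1/2:ℝ) • pre true (H z) := by
        have := congrArg H hv
        rw [map_add, map_smul, map_smul, ← hHt, ← hHt, hHH] at this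
        exact this
      have h2 : (H v - v) + (1/2:ℝ) • pre true (H v - v) = 0 := by
        rw [map_sub, smul_sub]
        have : H v - v + ((1/2:ℝ) • pre true (H v) - (1/2:ℝ) • pre true v) =
          (H v + (1/2:ℝ) • pre true (H v)) - (v + (1/2:ℝ) • pre true v) := by abel
        rw [this, h1, hv, sub_self]
      exact sub_eq_zero.1 (fix_zero (pre true) (fun y => (pre_PU true).norm_le y) h2)
    refine ⟨(1/2:ℝ) • u (pre false z - pre false v), z - H z + v, ?_⟩
    rw [hT2a, hT2b]
    have h1 : H (z - H z + v) = v := by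
      rw [map_add, map_sub, hHH, sub_self, zero_add, hHv]
    rw [h1]
    have key : v + (2:ℝ) • ind false (J ((1/2:ℝ) • u (pre false z - pre false v))) + (2:ℝ) • ind true v = H z := by
      rw [eq_iff]
      constructor
      · simp only [map_add, map_smul, pre_ind_same, pre_ft, smul_zero, add_zero, smul_smul]
        norm_num
        rw [hHf]
        have : pre false v = J (u (pre false v)) := by
          conv_lhs => rw [← hHv]
          rw [hHf]
        rw [← this]
        abel
      · simp only [map_add, map_smul, pre_ind_same, pre_tf, smul_zero, add_zero]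
        have := congrArg (fun z => (2:ℝ) • z) hv
        simp only [smul_add, smul_smul] at this
        norm_num at this
        rw [add_comm]
        exact this
    rw [← sub_eq_zero]
    rw [← sub_eq_zero] at key
    rw [← key]
    abel
  have inj1 : ∀ x, T1a x = 0 → T1b x = 0 → x = 0 := by
    intro x h1 h2
    rw [hT1a] at h1
    rw [hT1b] at h2
    have h3 : R x + (2:ℝ) • pre true (R x) = 0 := by
      have := congrArg R h2
      rw [map_add, map_smul, hRE, map_zero] at this
      exact this
    have h4 : R x + (1/2:ℝ) • ind true (R x) = 0 := by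
      rw [eq_iff]
      constructor
      · simp only [map_add, map_smul, pre_ft, smul_zero, add_zero, map_zero]
        exact h1
      · simp only [map_add, map_smul, pre_ind_same, map_zero]
        have := congrArg (fun z => (1/2:ℝ) • z) h3
        simp only [smul_add, smul_smul, smul_zero] at this
        norm_num at this
        rw [add_comm] at this
        simpa using this
    have h5 : R x = 0 := fix_zero (ind true) (ind_norm_le true) h4
    rw [h5, map_zero, map_zero, smul_zero, add_zero] at h2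
    exact h2
  have surj1 : ∀ (z : Y) (w : X), ∃ x, T1a x = z ∧ T1b x = w := by
    intro z w
    obtain ⟨y, hy⟩ := fix_solve (ind true) (ind_norm_le true) (ind false z + (1/2:ℝ) • ind true (R w))
    have hRx : R (w - E (R w - y)) = y := by
      rw [map_sub, hRE]; abel
    refine ⟨w - E (R w - y), ?_, ?_⟩
    · rw [hT1a, hRx]
      have := congrArg (pre false) hy
      simpa only [map_add, map_smul, pre_ft, pre_ind_same, smul_zero, add_zero] using this
    · rw [hT1b, hRx]
      have h1 : pre true y = (1/2:ℝ) • (R w - y) := by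
        have := congrArg (pre true) hy
        simp only [map_add, map_smul, pre_tf, pre_ind_same, zero_add] at this
        rw [smul_sub]
        exact eq_sub_of_add_eq this
      rw [h1, map_smul, smul_smul]
      norm_num
  have hbij : Function.Bijective T := by
    constructor
    · rw [injective_iff_map_eq_zero]
      intro x hx
      rw [hT] at hx
      obtain ⟨h1, h2⟩ := inj2 _ _ hx
      exact inj1 x h2 h1
    · intro z
      obtain ⟨x', y', h⟩ := surj2 z
      obtain ⟨x, hx1, hx2⟩ := surj1 y' x'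
      exact ⟨x, by rw [hT, hx1, hx2, h]⟩
  refine ⟨ContinuousLinearEquiv.ofBijective T (LinearMap.ker_eq_bot.2 hbij.1)
    (LinearMap.range_eq_top.2 hbij.2), ?_⟩
  intro f hf ω
  rw [ContinuousLinearEquiv.coeFn_ofBijective]
  exact hTpos f hf ω

end main

end Pool.Agent.H342R3.PosIso
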