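import Mathlib

set_option autoImplicit false
set_option maxHeartbeats 1000000
set_option synthInstance.maxHeartbeats 400000
set_option linter.unusedSectionVars false
set_option linter.unusedVariables false

namespace H342R3.SA

open scoped ENNReal Topology
open Filter

abbrev E4 := EuclideanSpace ℝ (Fin 4)

/-- the contraction ratios -/
noncomputable def rat : Fin 4 → ℝ := ![1/8, 1/8, 1/8, 1/512]

lemma rat_pos (c : Fin 4) : 0 < rat c := by fin_cases c <;> simp [rat]
lemma rat_le (c : Fin 4) : rat c ≤ 1/8 := by fin_cases c <;> norm_num [rat]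

lemma A_bound (v : E4) : ‖(WithLp.toLp 2 (fun c => rat c * v c) : E4)‖ ≤ 1/8 * ‖v‖ := by
  rw [EuclideanSpace.norm_eq, EuclideanSpace.norm_eq, ← Real.sqrt_sq (by norm_num : (0:ℝ) ≤ 1/8),
    ← Real.sqrt_mul (by positivity)]
  apply Real.sqrt_le_sqrt
  rw [Finset.mul_sum]
  apply Finset.sum_le_sum
  intro c _
  show ‖rat c * v c‖^2 ≤ _
  rw [norm_mul, mul_pow, Real.norm_of_nonneg (rat_pos c).le]
  apply mul_le_mul_of_nonneg_right _ (by positivity)
  exact pow_le_pow_left₀ (rat_pos c).le (rat_le c) 2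

/-- the diagonal linear map -/
noncomputable def A : E4 →L[ℝ] E4 :=
  LinearMap.mkContinuous
    { toFun := fun v => WithLp.toLp 2 (fun c => rat c * v c)
      map_add' := by
        intro x y; ext c
        show rat c * (x c + y c) = rat c * x c + rat c * y c
        ring
      map_smul' := by
        intro r x; ext c
        show rat c * (r * x c) = r * (rat c * x c)
        ring }
    (1/8) A_bound

lemma A_apply (v : E4) (c : Fin 4) : A v c = rat c * v c := rfl

lemma A_norm : ‖A‖ < 1 := by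
  have : ‖A‖ ≤ 1/8 := LinearMap.mkContinuous_norm_le _ (by norm_num) A_bound
  linarith

lemma A_bij : Function.Bijective A := by
  constructor
  · intro x y h
    ext c
    have h1 : A x c = A y c := by rw [h]
    rw [A_apply, A_apply] at h1
    exact mul_left_cancel₀ (rat_pos c).ne' h1
  · intro y
    refine ⟨WithLp.toLp 2 (fun c => y c / rat c), ?_⟩
    ext c
    rw [A_apply]
    show rat c * (y c / rat c) = y c
    field_simp [(rat_pos c).ne']

section coding
variable {S : Type} [Fintype S] [TopologicalSpace S] [DiscreteTopology S]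

/-- coding map -/
noncomputable def Phi (D : S → Fin 4 → ℝ) (s : ℕ → S) : E4 :=
  WithLp.toLp 2 (fun c => ∑' k, D (s k) c * rat c ^ (k+1))

lemma Phi_apply (D : S → Fin 4 → ℝ) (s : ℕ → S) (c : Fin 4) :
    Phi D s c = ∑' k, D (s k) c * rat c ^ (k+1) := rfl

lemma bnd_exists (D : S → Fin 4 → ℝ) : ∃ B : ℝ, 0 ≤ B ∧ ∀ i c, |D i c| ≤ B := by
  refine ⟨∑ i, ∑ c, |D i c|, by positivity, fun i c => ?_⟩
  refine le_trans ?_ (Finset.single_le_sum (f := fun i => ∑ c, |D i c|)
    (fun i _ => Finset.sum_nonneg (fun c _ => abs_nonneg _)) (Finset.mem_univ i))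
  exact Finset.single_le_sum (f := fun c => |D i c|) (fun c _ => abs_nonneg _) (Finset.mem_univ c)

lemma geo_summ (B : ℝ) (c : Fin 4) : Summable (fun k : ℕ => B * rat c ^ (k+1)) := by
  apply Summable.mul_left
  have := summable_geometric_of_lt_one (rat_pos c).le (lt_of_le_of_lt (rat_le c) (by norm_num))
  exact (summable_nat_add_iff 1).2 this

lemma term_bound {D : S → Fin 4 → ℝ} {B : ℝ} (hB : ∀ i c, |D i c| ≤ B) (c : Fin 4) (k : ℕ) (s : ℕ → S) :
    ‖D (s k) c * rat c ^ (k+1)‖ ≤ B * rat c ^ (k+1) := by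
  rw [norm_mul, Real.norm_eq_abs, norm_pow, Real.norm_of_nonneg (rat_pos c).le]
  exact mul_le_mul_of_nonneg_right (hB _ _) (by have := rat_pos c; positivity)

lemma summ (D : S → Fin 4 → ℝ) (s : ℕ → S) (c : Fin 4) :
    Summable (fun k => D (s k) c * rat c ^ (k+1)) := by
  obtain ⟨B, hB0, hB⟩ := bnd_exists D
  exact Summable.of_norm_bounded (geo_summ B c) (fun k => term_bound hB c k s)

lemma Phi_cont (D : S → Fin 4 → ℝ) : Continuous (Phi D) := by
  obtain ⟨B, hB0, hB⟩ := bnd_exists D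
  apply (PiLp.continuous_toLp 2 _).comp
  apply continuous_pi
  intro c
  apply continuous_tsum (u := fun k : ℕ => B * rat c ^ (k+1))
  · intro k
    apply Continuous.mul _ continuous_const
    exact (continuous_of_discreteTopology (f := fun i : S => D i c)).comp (continuous_apply k)
  · exact geo_summ B c
  · intro k s
    exact term_bound hB c k s

/-- translation vectors -/
noncomputable def tr (D : S → Fin 4 → ℝ) (i : S) : E4 := WithLp.toLp 2 (fun c => D i c * rat c)

def cons (i : S) (s : ℕ → S) : ℕ → S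
  | 0 => i
  | k+1 => s k

lemma Phi_cons (D : S → Fin 4 → ℝ) (i : S) (s : ℕ → S) :
    Phi D (cons i s) = A (Phi D s) + tr D i := by
  ext c
  show Phi D (cons i s) c = A (Phi D s) c + D i c * rat c
  rw [A_apply, Phi_apply, Phi_apply, (summ D (cons i s) c).tsum_eq_zero_add, ← tsum_mul_left, add_comm]
  congr 1
  · apply tsum_congr
    intro k
    show D (s k) c * rat c ^ (k+1+1) = rat c * (D (s k) c * rat c ^ (k+1))
    ring
  · show D i c * rat c ^ (0+1) = _
    rw [zero_add, pow_one]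

lemma K_eq (D : S → Fin 4 → ℝ) :
    Set.range (Phi D) = ⋃ i, (fun x => A x + tr D i) '' Set.range (Phi D) := by
  ext x
  rw [Set.mem_iUnion]
  constructor
  · rintro ⟨s, rfl⟩
    refine ⟨s 0, Phi D (fun k => s (k+1)), ⟨_, rfl⟩, ?_⟩
    show A (Phi D (fun k => s (k+1))) + tr D (s 0) = Phi D s
    rw [← Phi_cons]
    congr 1
    funext k
    cases k <;> rfl
  · rintro ⟨i, _, ⟨s, rfl⟩, rfl⟩
    exact ⟨cons i s, Phi_cons D i s⟩

lemma K_compact (D : S → Fin 4 → ℝ) : IsCompact (Set.range (Phi D)) :=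
  isCompact_range (Phi_cont D)

end coding

/-! ### covering numbers -/

noncomputable def NN (E : Set E4) (δ : ℝ) : ℕ :=
  sInf {n : ℕ | ∃ U : Fin n → Set E4, (∀ i, ∀ x ∈ U i, ∀ y ∈ U i, dist x y ≤ δ) ∧ E ⊆ ⋃ i, U i}

lemma NN_le {E : Set E4} {δ : ℝ} {Q : Type} [Fintype Q] (U : Q → Set E4)
    (hU : ∀ i, ∀ x ∈ U i, ∀ y ∈ U i, dist x y ≤ δ) (hE : E ⊆ ⋃ i, U i) :
    NN E δ ≤ Fintype.card Q := by
  apply Nat.sInf_le
  refine ⟨fun i => U ((Fintype.equivFin Q).symm i), fun i => hU _, ?_⟩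
  intro x hx
  obtain ⟨q, hq⟩ := Set.mem_iUnion.1 (hE hx)
  exact Set.mem_iUnion.2 ⟨Fintype.equivFin Q q, by simpa using hq⟩

lemma le_NN {E : Set E4} (hE : IsCompact E) {δ : ℝ} (hδ : 0 < δ) {Q : Type} [Fintype Q] (pt : Q → E4)
    (hpt : ∀ q, pt q ∈ E) (hsep : ∀ q q', dist (pt q) (pt q') ≤ δ → q = q') :
    Fintype.card Q ≤ NN E δ := by
  classical
  have hne : {n : ℕ | ∃ U : Fin n → Set E4, (∀ i, ∀ x ∈ U i, ∀ y ∈ U i, dist x y ≤ δ) ∧
      E ⊆ ⋃ i, U i}.Nonempty := by
    obtain ⟨t, htf, ht⟩ := Metric.totallyBounded_iff.1 hE.totallyBounded (δ/2) (by positivity)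
    have : Fintype t := htf.fintype
    refine ⟨Fintype.card t, fun i => Metric.ball ((Fintype.equivFin t).symm i : E4) (δ/2), ?_, ?_⟩
    · intro i x hx y hy
      rw [Metric.mem_ball] at hx hy
      have := dist_triangle_right x y ((Fintype.equivFin t).symm i : E4)
      linarith
    · intro x hx
      obtain ⟨y, hy, hxy⟩ := Set.mem_iUnion₂.1 (ht hx)
      exact Set.mem_iUnion.2 ⟨Fintype.equivFin t ⟨y, hy⟩, by simpa using hxy⟩
  obtain ⟨U, hU, hcov⟩ := Nat.sInf_mem hne
  have h1 : ∀ q, ∃ i, pt q ∈ U i := fun q => Set.mem_iUnion.1 (hcov (hpt q))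
  choose f hf using h1
  have hinj : Function.Injective f := by
    intro q q' h
    apply hsep
    exact hU (f q) _ (hf q) _ (by rw [h]; exact hf q')
  have := Fintype.card_le_of_injective f hinj
  rw [Fintype.card_fin] at this
  exact this

end H342R3.SA
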