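import Pool.Agent.H342R3.SA1

set_option autoImplicit false
set_option maxHeartbeats 1000000
set_option synthInstance.maxHeartbeats 400000
set_option linter.unusedSectionVars false
set_option linter.unusedVariables false

namespace H342R3.SA

open scoped ENNReal Topology
open Filter

/-- value of the first `m` digits -/
def val (g : ℕ) (d : ℕ → ℕ) : ℕ → ℕ
  | 0 => 0
  | m+1 => g * val g d m + d m

lemma sum_val {g : ℕ} (hg : 0 < g) (d : ℕ → ℕ) (m : ℕ) :
    ∑ k ∈ Finset.range m, (d k : ℝ) * (1/(g:ℝ))^(k+1) = (val g d m : ℝ) / (g:ℝ)^m := by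
  have hg' : (g:ℝ) ≠ 0 := by positivity
  induction m with
  | zero => simp [val]
  | succ m ih =>
    rw [Finset.sum_range_succ, ih, val]
    push_cast
    rw [one_div, inv_pow]
    field_simp
    ring

lemma val_inj {g : ℕ} {d d' : ℕ → ℕ} (h : ∀ k, d k < g) (h' : ∀ k, d' k < g) (m : ℕ)
    (he : val g d m = val g d' m) : ∀ k < m, d k = d' k := by
  induction m with
  | zero => intro k hk; omega
  | succ m ih =>
    rw [val, val] at he
    have h1 : d m = d' m := by
      have h2 : (g * val g d m + d m) % g = (g * val g d' m + d' m) % g := by rw [he]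
      rwa [Nat.mul_add_mod, Nat.mul_add_mod, Nat.mod_eq_of_lt (h m), Nat.mod_eq_of_lt (h' m)] at h2
    have hg : 0 < g := lt_of_le_of_lt (Nat.zero_le _) (h 0)
    have h2 : val g d m = val g d' m := by
      rw [h1] at he
      exact Nat.eq_of_mul_eq_mul_left hg (Nat.add_right_cancel he)
    intro k hk
    rcases Nat.lt_succ_iff_lt_or_eq.1 hk with hk | hk
    · exact ih h2 k hk
    · rw [hk]; exact h1

lemma val_lt {g : ℕ} {d : ℕ → ℕ} (h : ∀ k, d k < g) (m : ℕ) : val g d m < g^m := by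
  induction m with
  | zero => simp [val]
  | succ m ih =>
    rw [val, pow_succ]
    have h1 := h m
    have h2 : g * (val g d m + 1) ≤ g * g^m := Nat.mul_le_mul_left _ ih
    calc g * val g d m + d m < g * val g d m + g := by omega
      _ = g * (val g d m + 1) := by ring
      _ ≤ g * g^m := h2
      _ = g^m * g := by ring

lemma val_add (g : ℕ) (d : ℕ → ℕ) (a b : ℕ) (h0 : ∀ k, a ≤ k → k < a + b → d k = 0) :
    val g d (a+b) = g^b * val g d a := by
  induction b with
  | zero => simp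
  | succ b ih =>
    rw [← add_assoc, val, ih (fun k h1 h2 => h0 k h1 (by omega)), h0 (a+b) (by omega) (by omega)]
    ring

/-! ### tails -/

lemma tail_bound {f : ℕ → ℝ} {B r : ℝ} (hB : 0 ≤ B) (hr0 : 0 < r) (hr : r ≤ 1/8) (h0 : ∀ k, 0 ≤ f k)
    (h1 : ∀ k, f k ≤ B) (m : ℕ) :
    0 ≤ (∑' k, f k * r^(k+1)) - ∑ k ∈ Finset.range m, f k * r^(k+1) ∧
    (∑' k, f k * r^(k+1)) - ∑ k ∈ Finset.range m, f k * r^(k+1) ≤ B * r^m / 7 := by
  have hs : Summable (fun k => f k * r^(k+1)) := by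
    apply Summable.of_nonneg_of_le (fun k => by have := h0 k; positivity)
      (fun k => mul_le_mul_of_nonneg_right (h1 k) (by positivity))
    apply Summable.mul_left
    exact (summable_nat_add_iff 1).2 (summable_geometric_of_lt_one hr0.le (by linarith))
  rw [← hs.sum_add_tsum_nat_add m, add_sub_cancel_left]
  have hs2 : Summable (fun k => f (k+m) * r^(k+m+1)) := (summable_nat_add_iff m).2 hs
  have hg : Summable (fun k : ℕ => B * r^(m+1) * r^k) :=
    (summable_geometric_of_lt_one hr0.le (by linarith)).mul_left _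
  constructor
  · exact tsum_nonneg (fun k => by have := h0 (k+m); positivity)
  · have h2 : ∑' k, f (k+m) * r^(k+m+1) ≤ ∑' k : ℕ, B * r^(m+1) * r^k := by
      apply hs2.tsum_le_tsum _ hg
      intro k
      calc f (k+m) * r^(k+m+1) ≤ B * r^(k+m+1) := mul_le_mul_of_nonneg_right (h1 _) (by positivity)
        _ = B * r^(m+1) * r^k := by ring
    refine h2.trans ?_
    rw [tsum_mul_left, tsum_geometric_of_lt_one hr0.le (by linarith)]
    have h3 : r * (1-r)⁻¹ ≤ 1/7 := by
      rw [← div_eq_mul_inv, div_le_div_iff₀ (by linarith) (by norm_num)]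
      linarith
    calc B * r^(m+1) * (1-r)⁻¹ = (B * r^m) * (r * (1-r)⁻¹) := by ring
      _ ≤ (B * r^m) * (1/7) := mul_le_mul_of_nonneg_left h3 (by positivity)
      _ = B * r^m / 7 := by ring

lemma tail_eq {f f' : ℕ → ℝ} {r : ℝ} (hs : Summable (fun k => f k * r^(k+1)))
    (hs' : Summable (fun k => f' k * r^(k+1))) (m : ℕ) (h : ∀ k, m ≤ k → f k = f' k) :
    (∑' k, f k * r^(k+1)) - ∑' k, f' k * r^(k+1) =
      ∑ k ∈ Finset.range m, f k * r^(k+1) - ∑ k ∈ Finset.range m, f' k * r^(k+1) := by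
  rw [← hs.sum_add_tsum_nat_add m, ← hs'.sum_add_tsum_nat_add m]
  have : ∑' k, f (k+m) * r^(k+m+1) = ∑' k, f' (k+m) * r^(k+m+1) := by
    apply tsum_congr
    intro k
    rw [h (k+m) (by omega)]
  rw [this]; ring

/-! ### the symbols -/

abbrev S := (Fin 8 × Fin 2 × Fin 511) ⊕ Fin 63

def di : S → ℕ := Sum.elim (fun q => (q.1 : ℕ)) (fun _ => 0)
def dj : S → ℕ := Sum.elim (fun q => (q.2.1 : ℕ)) (fun _ => 0)
def dy : S → ℕ := Sum.elim (fun q => (q.2.2 : ℕ) + 1) (fun _ => 0)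
def da : S → ℕ := Sum.elim (fun _ => 0) (fun l => ((l : ℕ) + 1) / 8)
def db : S → ℕ := Sum.elim (fun _ => 0) (fun l => ((l : ℕ) + 1) % 8)

lemma di_lt (s : S) : di s < 8 := by
  rcases s with q | l
  · exact q.1.2
  · exact Nat.zero_lt_succ _
lemma dj_lt (s : S) : dj s < 2 := by
  rcases s with q | l
  · exact q.2.1.2
  · exact Nat.zero_lt_succ _
lemma dy_lt (s : S) : dy s < 512 := by
  rcases s with q | l
  · have := q.2.2.2
    show (q.2.2 : ℕ) + 1 < 512
    omega
  · exact Nat.zero_lt_succ _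
lemma da_lt (s : S) : da s < 8 := by
  rcases s with q | l
  · exact Nat.zero_lt_succ _
  · have := l.2
    show ((l : ℕ) + 1) / 8 < 8
    omega
lemma db_lt (s : S) : db s < 8 := by
  rcases s with q | l
  · exact Nat.zero_lt_succ _
  · exact Nat.mod_lt _ (by norm_num)

/-- digit vectors -/
noncomputable def D (u : ℝ) (s : S) : Fin 4 → ℝ :=
  ![(di s : ℝ) + u * dj s, (da s : ℝ), (db s : ℝ), (dy s : ℝ)]

lemma D0 (u : ℝ) (s : S) : D u s 0 = (di s : ℝ) + u * dj s := rfl
lemma D1 (u : ℝ) (s : S) : D u s 1 = (da s : ℝ) := rfl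
lemma D2 (u : ℝ) (s : S) : D u s 2 = (db s : ℝ) := rfl
lemma D3 (u : ℝ) (s : S) : D u s 3 = (dy s : ℝ) := rfl
lemma rat0 : rat 0 = 1/8 := rfl
lemma rat1 : rat 1 = 1/8 := rfl
lemma rat2 : rat 2 = 1/8 := rfl
lemma rat3 : rat 3 = 1/512 := rfl

lemma dist_le_of_coord {x y : E4} {ε : ℝ} (hε : 0 ≤ ε) (h : ∀ c, |x c - y c| ≤ ε) : dist x y ≤ 2 * ε := by
  rw [EuclideanSpace.dist_eq]
  rw [← Real.sqrt_sq (by positivity : 0 ≤ 2 * ε)]
  apply Real.sqrt_le_sqrt
  have h1 : ∀ c, dist (x c) (y c) ^ 2 ≤ ε^2 := by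
    intro c
    rw [Real.dist_eq]
    exact pow_le_pow_left₀ (abs_nonneg _) (h c) 2
  calc ∑ c, dist (x c) (y c) ^ 2 ≤ ∑ c : Fin 4, ε^2 := Finset.sum_le_sum (fun c _ => h1 c)
    _ = (2*ε)^2 := by simp; ring

lemma coord_le_dist (x y : E4) (c : Fin 4) : |x c - y c| ≤ dist x y := by
  rw [dist_eq_norm]
  have := PiLp.norm_apply_le (x - y) c
  simpa using this

end H342R3.SA
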