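import Pool.Agent.H342R3.SA2

set_option autoImplicit false
set_option maxHeartbeats 1000000
set_option synthInstance.maxHeartbeats 400000
set_option linter.unusedSectionVars false
set_option linter.unusedVariables false

namespace H342R3.SA

open scoped ENNReal Topology
open Filter LiouvilleNumber Nat

noncomputable def u : ℝ := liouvilleNumber 8

lemma rem_bound (K : ℕ) : 0 < remainder 8 K ∧ remainder 8 K ≤ 8/7 * (1/8)^(K+1)! := by
  refine ⟨remainder_pos (by norm_num) K, ?_⟩
  have := remainder_lt' K (m := 8) (by norm_num)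
  have h2 : (1 - 1/(8:ℝ))⁻¹ * (1 / 8^(K+1)!) = 8/7 * (1/8)^(K+1)! := by
    rw [one_div_pow]; norm_num
  rw [h2] at this
  exact this.le

lemma u_eq (K : ℕ) : u = partialSum 8 K + remainder 8 K := (partialSum_add_remainder (by norm_num) K).symm

lemma u_pos : 0 < u := by
  rw [u_eq 0]
  have h1 := (rem_bound 0).1
  have h2 : partialSum 8 0 = 1/8 := by simp [partialSum]
  rw [h2]; linarith

lemma u_lt : u < 1 := by
  rw [u_eq 0]
  have h1 := (rem_bound 0).2
  have h2 : partialSum 8 0 = 1/8 := by simp [partialSum]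
  rw [h2]
  norm_num at h1
  linarith

lemma exists_p (K : ℕ) : ∃ p : ℕ, p < 8^(K !) ∧ partialSum 8 K = (p:ℝ) / 8^(K !) := by
  obtain ⟨p, hp⟩ := partialSum_eq_rat (m := 8) (by norm_num) K
  have hp' : partialSum 8 K = (p:ℝ) / 8^(K !) := by
    have := hp
    push_cast at this
    exact this
  refine ⟨p, ?_, hp'⟩
  have h1 : partialSum 8 K < 1 := by
    have h2 := u_eq K
    have h3 := (rem_bound K).1
    have h4 := u_lt
    linarith
  rw [hp', div_lt_one (by positivity)] at h1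
  exact_mod_cast h1

lemma psum_eq {f f' : ℕ → ℝ} {r : ℝ} (n b : ℕ) (h : ∀ k, n ≤ k → k < n + b → f k = f' k) :
    ∑ k ∈ Finset.range (n+b), f k * r^(k+1) - ∑ k ∈ Finset.range (n+b), f' k * r^(k+1) =
    ∑ k ∈ Finset.range n, f k * r^(k+1) - ∑ k ∈ Finset.range n, f' k * r^(k+1) := by
  induction b with
  | zero => rfl
  | succ b ih =>
    rw [← add_assoc, Finset.sum_range_succ, Finset.sum_range_succ, h (n+b) (by omega) (by omega),
      ← ih (fun k h1 h2 => h k h1 (by omega))]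
    ring

lemma P0 (s : ℕ → S) (n : ℕ) :
    ∑ k ∈ Finset.range n, ((di (s k) : ℝ) + u * dj (s k)) * (1/8)^(k+1) =
      ((val 8 (fun k => di (s k)) n : ℝ) + u * val 8 (fun k => dj (s k)) n) / 8^n := by
  have h1 := sum_val (g := 8) (by norm_num) (fun k => di (s k)) n
  have h2 := sum_val (g := 8) (by norm_num) (fun k => dj (s k)) n
  push_cast at h1 h2
  calc ∑ k ∈ Finset.range n, ((di (s k) : ℝ) + u * dj (s k)) * (1/8)^(k+1)
      = ∑ k ∈ Finset.range n, (di (s k) : ℝ) * (1/8)^(k+1) +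
        u * ∑ k ∈ Finset.range n, (dj (s k) : ℝ) * (1/8)^(k+1) := by
        rw [Finset.mul_sum, ← Finset.sum_add_distrib]
        apply Finset.sum_congr rfl
        intro k _
        ring
    _ = _ := by rw [h1, h2]; ring

def k1 : S → (Fin 511 ⊕ Fin 63) := Sum.elim (fun q => Sum.inl q.2.2) (fun l => Sum.inr l)
def k2 : S → ((Fin 8 × Fin 2) ⊕ Fin 63) := Sum.elim (fun q => Sum.inl (q.1, q.2.1)) (fun l => Sum.inr l)

lemma k1_dy {s s' : S} (h : k1 s = k1 s') : dy s = dy s' := by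
  rcases s with q | l <;> rcases s' with q' | l' <;> simp_all [k1, dy]
lemma k1_da {s s' : S} (h : k1 s = k1 s') : da s = da s' := by
  rcases s with q | l <;> rcases s' with q' | l' <;> simp_all [k1, da]
lemma k1_db {s s' : S} (h : k1 s = k1 s') : db s = db s' := by
  rcases s with q | l <;> rcases s' with q' | l' <;> simp_all [k1, db]
lemma k2_di {s s' : S} (h : k2 s = k2 s') : di s = di s' := by
  rcases s with q | l <;> rcases s' with q' | l' <;> simp_all [k2, di]
lemma k2_dj {s s' : S} (h : k2 s = k2 s') : dj s = dj s' := by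
  rcases s with q | l <;> rcases s' with q' | l' <;> simp_all [k2, dj]
lemma k2_da {s s' : S} (h : k2 s = k2 s') : da s = da s' := by
  rcases s with q | l <;> rcases s' with q' | l' <;> simp_all [k2, da]
lemma k2_db {s s' : S} (h : k2 s = k2 s') : db s = db s' := by
  rcases s with q | l <;> rcases s' with q' | l' <;> simp_all [k2, db]

def code (p K n : ℕ) (s : ℕ → S) : ℕ :=
  val 8 (fun k => di (s k)) n * 8^(K !) + p * val 8 (fun k => dj (s k)) n

lemma code_lt {p K : ℕ} (hp : p < 8^(K !)) (n : ℕ) (s : ℕ → S) : code p K n s < 2 * 8^(n + K !) := by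
  unfold code
  have h1 : val 8 (fun k => di (s k)) n < 8^n := val_lt (fun k => di_lt _) n
  have h2 : val 8 (fun k => dj (s k)) n < 8^n := val_lt (fun k => (dj_lt _).trans (by norm_num)) n
  have hG : 0 < 8^(K !) := by positivity
  calc _ < 8^n * 8^(K !) + 8^(K !) * 8^n :=
        add_lt_add_of_lt_of_le (Nat.mul_lt_mul_of_pos_right h1 hG) (Nat.mul_le_mul hp.le h2.le)
    _ = 2 * 8^(n + K !) := by rw [pow_add]; ring

lemma two_tails {f f' : ℕ → ℝ} {B r : ℝ} (hB : 0 ≤ B) (hr0 : 0 < r) (hr : r ≤ 1/8) (h0 : ∀ k, 0 ≤ f k)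
    (h1 : ∀ k, f k ≤ B) (h0' : ∀ k, 0 ≤ f' k) (h1' : ∀ k, f' k ≤ B) (m : ℕ) :
    |(∑' k, f k * r^(k+1)) - ∑' k, f' k * r^(k+1)| ≤
      |∑ k ∈ Finset.range m, f k * r^(k+1) - ∑ k ∈ Finset.range m, f' k * r^(k+1)| + B * r^m / 7 := by
  obtain ⟨ha, hb⟩ := tail_bound hB hr0 hr h0 h1 m
  obtain ⟨hc, hd⟩ := tail_bound hB hr0 hr h0' h1' m
  have h2 := abs_le.1 (le_refl |∑ k ∈ Finset.range m, f k * r^(k+1) - ∑ k ∈ Finset.range m, f' k * r^(k+1)|)
  rw [abs_le]
  constructor <;> linarith [h2.1, h2.2]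

lemma close {K n p : ℕ} (hn : 3*n ≤ (K+1)!) (hp : partialSum 8 K = (p:ℝ) / 8^(K !)) {s s' : ℕ → S}
    (h0 : code p K n s = code p K n s') (h1 : ∀ k < n, k1 (s k) = k1 (s' k))
    (h2 : ∀ k, n ≤ k → k < n + 2*n → k2 (s k) = k2 (s' k)) :
    dist (Phi (D u) s) (Phi (D u) s') ≤ 160 * (1/8)^(3*n) := by
  have h3n : n + 2*n = 3*n := by ring
  have hda : ∀ k < 3*n, da (s k) = da (s' k) := by
    intro k hk
    by_cases h : k < n
    · exact k1_da (h1 k h)
    · exact k2_da (h2 k (by omega) (by omega))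
  have hdb : ∀ k < 3*n, db (s k) = db (s' k) := by
    intro k hk
    by_cases h : k < n
    · exact k1_db (h1 k h)
    · exact k2_db (h2 k (by omega) (by omega))
  have key : ∀ c, |Phi (D u) s c - Phi (D u) s' c| ≤ 80 * (1/8)^(3*n) := by
    intro c
    rw [Phi_apply, Phi_apply]
    have hpos : (0:ℝ) < (1/8)^(3*n) := by positivity
    fin_cases c
    · show |(∑' k, ((di (s k) : ℝ) + u * dj (s k)) * (1/8)^(k+1)) -
        ∑' k, ((di (s' k) : ℝ) + u * dj (s' k)) * (1/8)^(k+1)| ≤ _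
      have hb : ∀ s : ℕ → S, ∀ k, (di (s k) : ℝ) + u * dj (s k) ≤ 8 := by
        intro s k
        have a1 : (di (s k) : ℝ) ≤ 7 := by exact_mod_cast Nat.lt_succ_iff.1 (di_lt (s k))
        have a2 : (dj (s k) : ℝ) ≤ 1 := by exact_mod_cast Nat.lt_succ_iff.1 (dj_lt (s k))
        have a3 := u_lt
        have a4 := u_pos
        have a5 : (0:ℝ) ≤ dj (s k) := Nat.cast_nonneg _
        nlinarith
      have hb0 : ∀ s : ℕ → S, ∀ k, 0 ≤ (di (s k) : ℝ) + u * dj (s k) := by
        intro s k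
        have a4 := u_pos
        positivity
      refine (two_tails (B := 8) (by norm_num) (by norm_num) (by norm_num) (hb0 s) (hb s) (hb0 s')
        (hb s') (3*n)).trans ?_
      rw [← h3n, psum_eq n (2*n) (fun k ha hb => by rw [k2_di (h2 k ha hb), k2_dj (h2 k ha hb)]), P0, P0]
      set I := val 8 (fun k => di (s k)) n with hI
      set J := val 8 (fun k => dj (s k)) n with hJ
      set I' := val 8 (fun k => di (s' k)) n with hI'
      set J' := val 8 (fun k => dj (s' k)) n with hJ'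
      have hJlt : (J:ℝ) < 8^n := by
        have : J < 8^n := val_lt (fun k => (dj_lt _).trans (by norm_num)) n
        exact_mod_cast this
      have hJlt' : (J':ℝ) < 8^n := by
        have : J' < 8^n := val_lt (fun k => (dj_lt _).trans (by norm_num)) n
        exact_mod_cast this
      have hc : (I:ℝ) * 8^(K !) + p * J = I' * 8^(K !) + p * J' := by
        have : I * 8^(K !) + p * J = I' * 8^(K !) + p * J' := h0
        exact_mod_cast this
      obtain ⟨hr0, hr1⟩ := rem_bound K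
      have hG : (0:ℝ) < 8^(K !) := by positivity
      have e1 : ((I:ℝ) + u * J) / 8^n - (I' + u * J') / 8^n = remainder 8 K * (J - J') / 8^n := by
        rw [u_eq K, hp]
        have : (I:ℝ) + (p / 8^(K !)) * J = I' + (p / 8^(K !)) * J' := by
          field_simp
          linarith
        have h8 : (0:ℝ) < 8^n := by positivity
        field_simp
        field_simp at this
        linarith
      rw [e1]
      have h8 : (0:ℝ) < 8^n := by positivity
      have e2 : |remainder 8 K * ((J:ℝ) - J') / 8^n| ≤ 8/7 * (1/8)^(3*n) := by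
        rw [abs_div, abs_mul, abs_of_pos hr0, abs_of_pos h8, div_le_iff₀ h8]
        have e3 : |(J:ℝ) - J'| ≤ 8^n := by
          rw [abs_le]
          have a1 : (0:ℝ) ≤ J := Nat.cast_nonneg _
          have a2 : (0:ℝ) ≤ J' := Nat.cast_nonneg _
          constructor <;> linarith
        have e4 : remainder 8 K ≤ 8/7 * (1/8)^(3*n) := by
          refine hr1.trans ?_
          apply mul_le_mul_of_nonneg_left _ (by norm_num)
          exact pow_le_pow_of_le_one (by norm_num) (by norm_num) hn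
        exact mul_le_mul e4 e3 (abs_nonneg _) (by positivity)
      rw [h3n]
      linarith
    · show |(∑' k, (da (s k) : ℝ) * (1/8)^(k+1)) - ∑' k, (da (s' k) : ℝ) * (1/8)^(k+1)| ≤ _
      have hb : ∀ s : ℕ → S, ∀ k, (da (s k) : ℝ) ≤ 8 := fun s k => by exact_mod_cast (da_lt (s k)).le
      refine (two_tails (B := 8) (by norm_num) (by norm_num) (by norm_num) (fun k => Nat.cast_nonneg _)
        (hb s) (fun k => Nat.cast_nonneg _) (hb s') (3*n)).trans ?_
      have : ∑ k ∈ Finset.range (3*n), (da (s k) : ℝ) * (1/8)^(k+1) =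
          ∑ k ∈ Finset.range (3*n), (da (s' k) : ℝ) * (1/8)^(k+1) :=
        Finset.sum_congr rfl (fun k hk => by rw [hda k (Finset.mem_range.1 hk)])
      rw [this, sub_self, abs_zero]
      linarith
    · show |(∑' k, (db (s k) : ℝ) * (1/8)^(k+1)) - ∑' k, (db (s' k) : ℝ) * (1/8)^(k+1)| ≤ _
      have hb : ∀ s : ℕ → S, ∀ k, (db (s k) : ℝ) ≤ 8 := fun s k => by exact_mod_cast (db_lt (s k)).le
      refine (two_tails (B := 8) (by norm_num) (by norm_num) (by norm_num) (fun k => Nat.cast_nonneg _)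
        (hb s) (fun k => Nat.cast_nonneg _) (hb s') (3*n)).trans ?_
      have : ∑ k ∈ Finset.range (3*n), (db (s k) : ℝ) * (1/8)^(k+1) =
          ∑ k ∈ Finset.range (3*n), (db (s' k) : ℝ) * (1/8)^(k+1) :=
        Finset.sum_congr rfl (fun k hk => by rw [hdb k (Finset.mem_range.1 hk)])
      rw [this, sub_self, abs_zero]
      linarith
    · show |(∑' k, (dy (s k) : ℝ) * (1/512)^(k+1)) - ∑' k, (dy (s' k) : ℝ) * (1/512)^(k+1)| ≤ _
      have hb : ∀ s : ℕ → S, ∀ k, (dy (s k) : ℝ) ≤ 512 := fun s k => by exact_mod_cast (dy_lt (s k)).le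
      refine (two_tails (B := 512) (by norm_num) (by norm_num) (by norm_num) (fun k => Nat.cast_nonneg _)
        (hb s) (fun k => Nat.cast_nonneg _) (hb s') n).trans ?_
      have : ∑ k ∈ Finset.range n, (dy (s k) : ℝ) * (1/512)^(k+1) =
          ∑ k ∈ Finset.range n, (dy (s' k) : ℝ) * (1/512)^(k+1) :=
        Finset.sum_congr rfl (fun k hk => by rw [k1_dy (h1 k (Finset.mem_range.1 hk))])
      rw [this, sub_self, abs_zero]
      have h5 : ((1:ℝ)/512)^n = (1/8)^(3*n) := by rw [pow_mul]; norm_num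
      rw [h5]
      linarith
  have := dist_le_of_coord (by positivity) key
  linarith

lemma upper (K n : ℕ) (hn : 3*n ≤ (K+1)!) :
    NN (Set.range (Phi (D u))) (160 * (1/8)^(3*n)) ≤ 2 * 8^(n + K !) * (574^n * 79^(2*n)) := by
  obtain ⟨p, hp1, hp2⟩ := exists_p K
  set Q := Fin (2 * 8^(n + K !)) × (Fin n → (Fin 511 ⊕ Fin 63)) ×
    (Fin (2*n) → ((Fin 8 × Fin 2) ⊕ Fin 63)) with hQ
  have hcard : Fintype.card Q = 2 * 8^(n + K !) * (574^n * 79^(2*n)) := by
    simp [hQ]
  rw [← hcard]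
  apply NN_le (fun q : Q => Phi (D u) '' {s | code p K n s = q.1 ∧ (∀ k : Fin n, k1 (s k) = q.2.1 k) ∧
    ∀ k : Fin (2*n), k2 (s (n+k)) = q.2.2 k})
  · rintro q _ ⟨s, ⟨a1, a2, a3⟩, rfl⟩ _ ⟨s', ⟨b1, b2, b3⟩, rfl⟩
    apply close hn hp2 (a1.trans b1.symm)
    · intro k hk
      exact (a2 ⟨k, hk⟩).trans (b2 ⟨k, hk⟩).symm
    · intro k hk1 hk2
      have h3 := (a3 ⟨k - n, by omega⟩).trans (b3 ⟨k - n, by omega⟩).symm
      simp only at h3
      rwa [Nat.add_sub_cancel' hk1] at h3
  · rintro _ ⟨s, rfl⟩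
    rw [Set.mem_iUnion]
    exact ⟨(⟨code p K n s, code_lt hp1 n s⟩, fun k => k1 (s k), fun k => k2 (s (n+k))),
      s, ⟨rfl, fun k => rfl, fun k => rfl⟩, rfl⟩

end H342R3.SA
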