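import Pool.Agent.H342R3.SA3

set_option autoImplicit false
set_option maxHeartbeats 1000000
set_option synthInstance.maxHeartbeats 400000
set_option linter.unusedSectionVars false
set_option linter.unusedVariables false

namespace H342R3.SA

open scoped ENNReal Topology
open Filter LiouvilleNumber Nat

abbrev PP (n n' : ℕ) := (Fin n → Fin 8) × (Fin n → Fin 511) × (Fin (n-n') → Fin 2) × (Fin (2*n) → Fin 63)

def sq (n n' : ℕ) (q : PP n n') (k : ℕ) : S :=
  if h : k < n then Sum.inl (q.1 ⟨k,h⟩, if h' : k < n - n' then q.2.2.1 ⟨k,h'⟩ else 0, q.2.1 ⟨k,h⟩)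
  else if h2 : k - n < 2*n then Sum.inr (q.2.2.2 ⟨k-n,h2⟩) else Sum.inr 0

variable {n n' : ℕ}

lemma sq_lt (q : PP n n') {k : ℕ} (h : k < n) : sq n n' q k =
    Sum.inl (q.1 ⟨k,h⟩, if h' : k < n - n' then q.2.2.1 ⟨k,h'⟩ else 0, q.2.1 ⟨k,h⟩) := by
  simp [sq, h]

lemma sq_mid (q : PP n n') {k : ℕ} (h : k < 2*n) : sq n n' q (n+k) = Sum.inr (q.2.2.2 ⟨k,h⟩) := by
  have h1 : ¬ (n + k < n) := by omega
  have h2 : n + k - n = k := by omega
  simp only [sq, h1, dite_false]
  have h3 : n + k - n < 2*n := by omega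
  rw [dif_pos h3]
  congr 2
  ext
  simp

lemma sq_ge (q q' : PP n n') {k : ℕ} (h : 3*n ≤ k) : sq n n' q k = sq n n' q' k := by
  have h1 : ¬ (k < n) := by omega
  have h2 : ¬ (k - n < 2*n) := by omega
  simp [sq, h1, h2]

lemma sq_inr (q : PP n n') {k : ℕ} (h : n ≤ k) : ∃ l, sq n n' q k = Sum.inr l := by
  have h1 : ¬ (k < n) := by omega
  simp only [sq, h1, dite_false]
  split_ifs
  · exact ⟨_, rfl⟩
  · exact ⟨_, rfl⟩

lemma di_ge (q : PP n n') {k : ℕ} (h : n ≤ k) : di (sq n n' q k) = 0 := by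
  obtain ⟨l, hl⟩ := sq_inr q h; rw [hl]; rfl
lemma dj_ge (q : PP n n') {k : ℕ} (h : n ≤ k) : dj (sq n n' q k) = 0 := by
  obtain ⟨l, hl⟩ := sq_inr q h; rw [hl]; rfl
lemma dy_ge (q : PP n n') {k : ℕ} (h : n ≤ k) : dy (sq n n' q k) = 0 := by
  obtain ⟨l, hl⟩ := sq_inr q h; rw [hl]; rfl

lemma nat_eq_of_close {a b : ℕ} (h : |(a:ℝ) - b| < 1) : a = b := by
  have h1 : |(a:ℤ) - b| < 1 := by exact_mod_cast h
  have h2 : (a:ℤ) - b = 0 := Int.abs_lt_one_iff.1 h1
  omega

lemma sep {K : ℕ} (hK : 2 ≤ K) (hn : n = K !) (hn' : n' = (K-1)!) (q q' : PP n n')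
    (hd : dist (Phi (D u) (sq n n' q)) (Phi (D u) (sq n n' q')) ≤ (1/8)^(3*n)/4) : q = q' := by
  have hc : ∀ c, |Phi (D u) (sq n n' q) c - Phi (D u) (sq n n' q') c| ≤ (1/8)^(3*n)/4 :=
    fun c => (coord_le_dist _ _ c).trans hd
  set s := sq n n' q with hs
  set s' := sq n n' q' with hs'
  have hn0 : 0 < n := by rw [hn]; exact Nat.factorial_pos K
  have h8 : (0:ℝ) < 8^n := by positivity
  have h83 : (0:ℝ) < 8^(3*n) := by positivity
  have hone : ((1:ℝ)/8)^(3*n) = 1/8^(3*n) := by rw [one_div_pow]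
  -- y digits
  have hy : ∀ k < n, dy (s k) = dy (s' k) := by
    have h1 := hc 3
    rw [Phi_apply, Phi_apply] at h1
    have hsm := summ (D u) s 3
    have hsm' := summ (D u) s' 3
    have h2 := tail_eq (f := fun k => (dy (s k) : ℝ)) (f' := fun k => (dy (s' k) : ℝ)) (r := 1/512)
      hsm hsm' n (fun k hk => by simp only [hs, hs']; rw [dy_ge q hk, dy_ge q' hk])
    have h3 : |(∑' k, (dy (s k) : ℝ) * (1/512)^(k+1)) - ∑' k, (dy (s' k) : ℝ) * (1/512)^(k+1)| ≤
      (1/8)^(3*n)/4 := h1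
    rw [h2] at h3
    have e1 := sum_val (g := 512) (by norm_num) (fun k => dy (s k)) n
    have e2 := sum_val (g := 512) (by norm_num) (fun k => dy (s' k)) n
    push_cast at e1 e2
    rw [e1, e2, hone, ← sub_div, abs_div] at h3
    have h5 : ((512:ℝ))^n = 8^(3*n) := by rw [pow_mul]; norm_num
    rw [h5, abs_of_pos h83, div_le_iff₀ h83] at h3
    have h6 : |(val 512 (fun k => dy (s k)) n : ℝ) - val 512 (fun k => dy (s' k)) n| < 1 := by
      refine lt_of_le_of_lt h3 ?_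
      have : (1:ℝ) / 8^(3*n) / 4 * 8^(3*n) = 1/4 := by field_simp
      rw [this]
      norm_num
    exact val_inj (fun k => dy_lt _) (fun k => dy_lt _) n (nat_eq_of_close h6)
  -- z digits
  have hz : ∀ (d : S → ℕ), (∀ i, d i < 8) →
      |(∑' k, (d (s k) : ℝ) * (1/8)^(k+1)) - ∑' k, (d (s' k) : ℝ) * (1/8)^(k+1)| ≤ (1/8)^(3*n)/4 →
      Summable (fun k => (d (s k) : ℝ) * (1/8)^(k+1)) → Summable (fun k => (d (s' k) : ℝ) * (1/8)^(k+1)) →
      ∀ k < 3*n, d (s k) = d (s' k) := by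
    intro d hd8 h3 hsm hsm'
    have h2 := tail_eq hsm hsm' (3*n) (fun k hk => by simp only [hs, hs']; rw [sq_ge q q' hk])
    rw [h2] at h3
    have e1 := sum_val (g := 8) (by norm_num) (fun k => d (s k)) (3*n)
    have e2 := sum_val (g := 8) (by norm_num) (fun k => d (s' k)) (3*n)
    push_cast at e1 e2
    rw [e1, e2, hone, ← sub_div, abs_div] at h3
    rw [abs_of_pos h83, div_le_iff₀ h83] at h3
    have h6 : |(val 8 (fun k => d (s k)) (3*n) : ℝ) - val 8 (fun k => d (s' k)) (3*n)| < 1 := by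
      refine lt_of_le_of_lt h3 ?_
      have : (1:ℝ) / 8^(3*n) / 4 * 8^(3*n) = 1/4 := by field_simp
      rw [this]
      norm_num
    exact val_inj (fun k => hd8 _) (fun k => hd8 _) (3*n) (nat_eq_of_close h6)
  have hda := hz da da_lt (hc 1) (summ (D u) s 1) (summ (D u) s' 1)
  have hdb := hz db db_lt (hc 2) (summ (D u) s 2) (summ (D u) s' 2)
  -- x digits
  have hx : (val 8 (fun k => dj (s k)) n = val 8 (fun k => dj (s' k)) n) ∧
      (val 8 (fun k => di (s k)) n = val 8 (fun k => di (s' k)) n) := by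
    have h1 := hc 0
    rw [Phi_apply, Phi_apply] at h1
    have hsm := summ (D u) s 0
    have hsm' := summ (D u) s' 0
    have h2 := tail_eq (f := fun k => (di (s k) : ℝ) + u * dj (s k))
      (f' := fun k => (di (s' k) : ℝ) + u * dj (s' k)) (r := 1/8)
      hsm hsm' n (fun k hk => by
        simp only [hs, hs']; rw [di_ge q hk, di_ge q' hk, dj_ge q hk, dj_ge q' hk])
    have h3 : |(∑' k, ((di (s k) : ℝ) + u * dj (s k)) * (1/8)^(k+1)) -
      ∑' k, ((di (s' k) : ℝ) + u * dj (s' k)) * (1/8)^(k+1)| ≤ (1/8)^(3*n)/4 := h1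
    rw [h2, P0, P0, ← sub_div, abs_div, abs_of_pos h8, div_le_iff₀ h8] at h3
    set I := val 8 (fun k => di (s k)) n with hI
    set J := val 8 (fun k => dj (s k)) n with hJ
    set I' := val 8 (fun k => di (s' k)) n with hI'
    set J' := val 8 (fun k => dj (s' k)) n with hJ'
    have hJlt : J < 8^n := val_lt (fun k => (dj_lt _).trans (by norm_num)) n
    have hJlt' : J' < 8^n := val_lt (fun k => (dj_lt _).trans (by norm_num)) n
    have hn'n : n' ≤ n := by rw [hn, hn']; exact Nat.factorial_le (by omega)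
    have hJ1 : J = 8^n' * val 8 (fun k => dj (s k)) (n-n') := by
      have := val_add 8 (fun k => dj (s k)) (n-n') n' (fun k hk1 hk2 => by
        have hkn : k < n := by omega
        simp only [hs]
        rw [sq_lt q hkn, dif_neg (by omega)]
        rfl)
      rwa [Nat.sub_add_cancel hn'n] at this
    have hJ1' : J' = 8^n' * val 8 (fun k => dj (s' k)) (n-n') := by
      have := val_add 8 (fun k => dj (s' k)) (n-n') n' (fun k hk1 hk2 => by
        have hkn : k < n := by omega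
        simp only [hs']
        rw [sq_lt q' hkn, dif_neg (by omega)]
        rfl)
      rwa [Nat.sub_add_cancel hn'n] at this
    set J1 := val 8 (fun k => dj (s k)) (n-n') with hJ1d
    set J1' := val 8 (fun k => dj (s' k)) (n-n') with hJ1d'
    obtain ⟨p, hp1, hp2⟩ := exists_p (K-1)
    obtain ⟨hr0, hr1⟩ := rem_bound K
    have hu : u = (p:ℝ) / 8^n' + 1/8^n + remainder 8 K := by
      rw [u_eq K, hn, hn']
      have h5 := partialSum_succ 8 (K-1)
      have h6 : K - 1 + 1 = K := by omega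
      rw [h6] at h5
      rw [h5, hp2]
    have h8' : (0:ℝ) < 8^n' := by positivity
    set ρ := remainder 8 K with hρ
    have e1 : ((I:ℝ) + u * J) - (I' + u * J') =
        ((I:ℝ) - I' + p * (J1 - J1')) + (J - J') / 8^n + ρ * (J - J') := by
      rw [hu]
      have a1 : (J:ℝ) = 8^n' * J1 := by rw [hJ1]; push_cast; ring
      have a2 : (J':ℝ) = 8^n' * J1' := by rw [hJ1']; push_cast; ring
      have a3 : (p:ℝ) / 8^n' * (J - J') = p * (J1 - J1') := by
        rw [a1, a2]; field_simp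
      calc ((I:ℝ) + ((p:ℝ) / 8^n' + 1/8^n + ρ) * J) - (I' + ((p:ℝ) / 8^n' + 1/8^n + ρ) * J')
          = (I:ℝ) - I' + (p:ℝ) / 8^n' * (J - J') + (J - J') / 8^n + ρ * (J - J') := by ring
        _ = _ := by rw [a3]
    rw [e1] at h3
    set Z : ℤ := (I:ℤ) - I' + p * (J1 - J1') with hZ
    set t : ℤ := (J:ℤ) - J' with ht
    have hZr : (Z:ℝ) = (I:ℝ) - I' + p * (J1 - J1') := by rw [hZ]; push_cast; ring
    have htr : (t:ℝ) = (J:ℝ) - J' := by rw [ht]; push_cast; ring
    rw [← hZr, ← htr] at h3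
    have htlt : |t| < 8^n := by
      rw [ht, abs_lt]
      have a1 : (J:ℤ) < 8^n := by exact_mod_cast hJlt
      have a2 : (J':ℤ) < 8^n := by exact_mod_cast hJlt'
      constructor <;> omega
    have htltr : |(t:ℝ)| < 8^n := by exact_mod_cast htlt
    -- remainder term
    have hfac : 3 * n ≤ (K+1)! := by
      rw [Nat.factorial_succ, hn]
      exact Nat.mul_le_mul_right _ (by omega)
    have hρ2 : 8^n * |ρ * t| ≤ 1/7 := by
      rw [abs_mul, abs_of_pos hr0]
      have b1 : ρ ≤ 8/7 * (1/8)^(3*n) := hr1.trans (mul_le_mul_of_nonneg_left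
        (pow_le_pow_of_le_one (by norm_num) (by norm_num) hfac) (by norm_num))
      have b2 : ρ * |(t:ℝ)| ≤ 8/7 * (1/8)^(3*n) * 8^n :=
        mul_le_mul b1 htltr.le (abs_nonneg _) (by positivity)
      have b3 : (8:ℝ)^n * (8/7 * (1/8)^(3*n) * 8^n) = 8/7 * (1/8)^n := by
        rw [one_div_pow, one_div_pow, pow_mul']
        field_simp
      have b4 : ((1:ℝ)/8)^n ≤ 1/8 := by
        calc ((1:ℝ)/8)^n ≤ (1/8)^1 := pow_le_pow_of_le_one (by norm_num) (by norm_num) hn0
          _ = 1/8 := pow_one _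
      calc 8^n * (ρ * |(t:ℝ)|) ≤ 8^n * (8/7 * (1/8)^(3*n) * 8^n) := mul_le_mul_of_nonneg_left b2 h8.le
        _ = 8/7 * (1/8)^n := b3
        _ ≤ 1/7 := by linarith
    have h4 : |(8:ℝ)^n * Z + t| < 1 := by
      have c1 : (8:ℝ)^n * Z + t = 8^n * (Z + t/8^n + ρ * t) - 8^n * (ρ * t) := by
        field_simp; ring
      have c2 : |(8:ℝ)^n * (Z + t/8^n + ρ * t)| ≤ 1/4 := by
        rw [abs_mul, abs_of_pos h8]
        have c3 : (8:ℝ)^n * |(Z:ℝ) + t/8^n + ρ * t| ≤ 8^n * ((1/8)^(3*n)/4 * 8^n) :=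
          mul_le_mul_of_nonneg_left h3 h8.le
        have c4 : (8:ℝ)^n * ((1/8)^(3*n)/4 * 8^n) = (1/8)^n / 4 := by
          rw [one_div_pow, one_div_pow, pow_mul']
          field_simp
        have c5 : ((1:ℝ)/8)^n ≤ 1 := pow_le_one₀ (by norm_num) (by norm_num)
        rw [c4] at c3
        linarith
      have c6 : |(8:ℝ)^n * (ρ * t)| ≤ 1/7 := by
        rw [abs_mul, abs_of_pos h8]; exact hρ2
      rw [c1]
      calc |(8:ℝ)^n * (Z + t/8^n + ρ * t) - 8^n * (ρ * t)|
          ≤ |(8:ℝ)^n * (Z + t/8^n + ρ * t)| + |(8:ℝ)^n * (ρ * t)| := abs_sub _ _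
        _ ≤ 1/4 + 1/7 := add_le_add c2 c6
        _ < 1 := by norm_num
    have h5 : (8:ℤ)^n * Z + t = 0 := by
      have : |(8:ℤ)^n * Z + t| < 1 := by exact_mod_cast h4
      exact Int.abs_lt_one_iff.1 this
    have hZ0 : Z = 0 := by
      by_contra hne
      have d1 : (1:ℤ) ≤ |Z| := Int.one_le_abs hne
      have d2 : |t| = 8^n * |Z| := by
        have : t = -(8^n * Z) := by linarith
        rw [this, abs_neg, abs_mul, abs_of_nonneg (by positivity : (0:ℤ) ≤ 8^n)]
      have d3 : (8:ℤ)^n ≤ 8^n * |Z| := le_mul_of_one_le_right (by positivity) d1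
      linarith
    have ht0 : t = 0 := by rw [hZ0] at h5; linarith
    have hJJ : J = J' := by omega
    refine ⟨hJJ, ?_⟩
    have hJ11 : J1 = J1' := by
      rw [hJ1, hJ1'] at hJJ
      exact Nat.eq_of_mul_eq_mul_left (by positivity) hJJ
    rw [hZ, hJ11, sub_self, mul_zero, add_zero] at hZ0
    omega
  have hdj := val_inj (g := 8) (fun k => (dj_lt _).trans (by norm_num)) (fun k => (dj_lt _).trans (by norm_num)) n hx.1
  have hdi := val_inj (g := 8) (fun k => di_lt _) (fun k => di_lt _) n hx.2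
  -- conclusion
  refine Prod.ext ?_ (Prod.ext ?_ (Prod.ext ?_ ?_))
  · funext k
    have h1 := hdi k k.2
    simp only [hs, hs'] at h1
    rw [sq_lt q k.2, sq_lt q' k.2] at h1
    exact Fin.ext h1
  · funext k
    have h1 := hy k k.2
    simp only [hs, hs'] at h1
    rw [sq_lt q k.2, sq_lt q' k.2] at h1
    exact Fin.ext (Nat.succ_injective h1)
  · funext k
    have hk : (k:ℕ) < n := lt_of_lt_of_le k.2 (Nat.sub_le _ _)
    have h1 := hdj k hk
    simp only [hs, hs'] at h1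
    rw [sq_lt q hk, sq_lt q' hk, dif_pos k.2, dif_pos k.2] at h1
    exact Fin.ext h1
  · funext k
    have h1 := hda (n+k) (by have := k.2; omega)
    have h2 := hdb (n+k) (by have := k.2; omega)
    simp only [hs, hs'] at h1 h2
    rw [sq_mid q k.2, sq_mid q' k.2] at h1 h2
    have h3 : ((q.2.2.2 k : ℕ) + 1) / 8 = ((q'.2.2.2 k : ℕ) + 1) / 8 := h1
    have h4 : ((q.2.2.2 k : ℕ) + 1) % 8 = ((q'.2.2.2 k : ℕ) + 1) % 8 := h2
    exact Fin.ext (by omega)

lemma lower {K : ℕ} (hK : 2 ≤ K) :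
    8^(K !) * 511^(K !) * 2^((K !) - (K-1)!) * 63^(2 * K !) ≤
      NN (Set.range (Phi (D u))) ((1/8)^(3 * K !)/4) := by
  have hcard : Fintype.card (PP (K !) ((K-1)!)) =
      8^(K !) * 511^(K !) * 2^((K !) - (K-1)!) * 63^(2 * K !) := by
    simp [PP]; ring
  rw [← hcard]
  exact le_NN (K_compact (D u)) (by positivity) (fun q => Phi (D u) (sq (K !) ((K-1)!) q))
    (fun q => ⟨_, rfl⟩) (fun q q' h => sep hK rfl rfl q q' h)

end H342R3.SA
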