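import Pool.Agent.H342R3.SA4

set_option autoImplicit false
set_option maxHeartbeats 1000000
set_option synthInstance.maxHeartbeats 400000
set_option linter.unusedSectionVars false
set_option linter.unusedVariables false

namespace H342R3.SA

open scoped ENNReal Topology
open Filter LiouvilleNumber Nat

noncomputable def a0 : ℝ := Real.log 8 + Real.log 574 + 2 * Real.log 79
noncomputable def b0 : ℝ := Real.log 8 + Real.log 511 + Real.log 2 + 2 * Real.log 63

lemma a0_lt_b0 : a0 < b0 := by
  unfold a0 b0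
  have h1 : Real.log 574 + 2 * Real.log 79 = Real.log (574 * 79^2) := by
    rw [Real.log_mul (by norm_num) (by norm_num), Real.log_pow]; push_cast; ring
  have h2 : Real.log 511 + Real.log 2 + 2 * Real.log 63 = Real.log (511 * 2 * 63^2) := by
    rw [Real.log_mul (by norm_num) (by norm_num), Real.log_mul (by norm_num) (by norm_num),
      Real.log_pow]; push_cast; ring
  have h3 : Real.log ((574:ℝ) * 79^2) < Real.log (511 * 2 * 63^2) :=
    Real.log_lt_log (by norm_num) (by norm_num)
  linarith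

lemma a0_pos : 0 < a0 := by
  unfold a0
  have h1 := Real.log_pos (by norm_num : (1:ℝ) < 8)
  have h2 := Real.log_pos (by norm_num : (1:ℝ) < 574)
  have h3 := Real.log_pos (by norm_num : (1:ℝ) < 79)
  linarith

noncomputable def ep : ℝ := (b0 - a0)/3
noncomputable def al : ℝ := (a0 + ep) / (3 * Real.log 8)
noncomputable def be : ℝ := (b0 - ep) / (3 * Real.log 8)

lemma ep_pos : 0 < ep := by unfold ep; have := a0_lt_b0; linarith
lemma L8 : 0 < Real.log 8 := Real.log_pos (by norm_num)
lemma al_lt_be : al < be := by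
  unfold al be
  apply div_lt_div_of_pos_right _ (by have := L8; positivity)
  unfold ep
  have := a0_lt_b0
  linarith
lemma al_pos : 0 < al := by
  unfold al; have := a0_pos; have := ep_pos; have := L8; positivity
lemma be_pos : 0 < be := al_pos.trans al_lt_be

noncomputable def ratio (E : Set E4) (δ : ℝ) : ℝ := Real.log (NN E δ) / -Real.log δ

lemma log_pow8 (n : ℕ) : Real.log ((1/8:ℝ)^(3*n)) = -(3 * n * Real.log 8) := by
  rw [one_div_pow, one_div, Real.log_inv, Real.log_pow]; push_cast; ring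

lemma upper_ratio {K : ℕ} (hK : 2 ≤ K)
    (hq : Real.log 2 + Real.log 8 + al * Real.log 160 ≤ ep * (((K+1)/3 : ℕ) : ℝ)) :
    ratio (Set.range (Phi (D u))) (160 * (1/8)^(3 * (K ! * ((K+1)/3)))) ≤ al := by
  set q := (K+1)/3 with hqd
  have hq1 : 1 ≤ q := by omega
  set n := K ! * q with hn
  have hf1 : 1 ≤ K ! := Nat.one_le_iff_ne_zero.2 (Nat.factorial_ne_zero K)
  have hn1 : 1 ≤ n := Nat.one_le_iff_ne_zero.2 (Nat.mul_ne_zero (Nat.factorial_ne_zero K) (by omega))
  have h3 : 3 * n ≤ (K+1)! := by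
    rw [hn, Nat.factorial_succ]
    calc 3 * (K ! * q) = (3 * q) * K ! := by ring
      _ ≤ (K+1) * K ! := Nat.mul_le_mul_right _ (by omega)
  have hN := upper K n h3
  have hL := L8
  have hlogδ : Real.log (160 * (1/8)^(3*n)) = Real.log 160 - 3 * n * Real.log 8 := by
    rw [Real.log_mul (by norm_num) (by positivity), log_pow8]; ring
  have hn1r : (1:ℝ) ≤ n := by exact_mod_cast hn1
  have h160 : Real.log 160 < 3 * Real.log 8 := by
    have : 3 * Real.log 8 = Real.log (8^3) := by rw [Real.log_pow]; push_cast; ring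
    rw [this]
    exact Real.log_lt_log (by norm_num) (by norm_num)
  have hden : 0 < -Real.log (160 * (1/8)^(3*n)) := by
    rw [hlogδ]; nlinarith
  have hlogN : Real.log (NN (Set.range (Phi (D u))) (160 * (1/8)^(3*n))) ≤
      Real.log 2 + K ! * Real.log 8 + n * a0 := by
    have hR : Real.log ((2 * 8^(n + K !) * (574^n * 79^(2*n)) : ℕ) : ℝ) =
        Real.log 2 + K ! * Real.log 8 + n * a0 := by
      push_cast
      rw [Real.log_mul (by positivity) (by positivity), Real.log_mul (by norm_num) (by positivity),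
        Real.log_mul (by positivity) (by positivity), Real.log_pow, Real.log_pow, Real.log_pow]
      unfold a0
      push_cast
      ring
    rw [← hR]
    rcases Nat.eq_zero_or_pos (NN (Set.range (Phi (D u))) (160 * (1/8)^(3*n))) with h | h
    · rw [h, Nat.cast_zero, Real.log_zero]
      apply Real.log_natCast_nonneg
    · exact Real.log_le_log (by exact_mod_cast h) (by exact_mod_cast hN)
  unfold ratio
  rw [div_le_iff₀ hden, hlogδ]
  refine hlogN.trans ?_
  have e1 : al * -(Real.log 160 - 3 * n * Real.log 8) = (a0 + ep) * n - al * Real.log 160 := by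
    unfold al; field_simp; ring
  rw [e1]
  have hf1r : (1:ℝ) ≤ (K ! : ℝ) := by exact_mod_cast hf1
  have hnr : (n:ℝ) = K ! * q := by rw [hn]; push_cast; ring
  have e2 : Real.log 2 + K ! * Real.log 8 + al * Real.log 160 ≤ K ! * (Real.log 2 + Real.log 8 + al * Real.log 160) := by
    have c1 : 0 ≤ Real.log 2 := Real.log_nonneg (by norm_num)
    have c2 : 0 ≤ al * Real.log 160 := mul_nonneg al_pos.le (Real.log_nonneg (by norm_num))
    nlinarith
  have e3 : (K ! : ℝ) * (Real.log 2 + Real.log 8 + al * Real.log 160) ≤ K ! * (ep * q) :=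
    mul_le_mul_of_nonneg_left hq (by positivity)
  have e4 : (K ! : ℝ) * (ep * q) = ep * n := by rw [hnr]; ring
  nlinarith

lemma lower_ratio {K : ℕ} (hK : 2 ≤ K)
    (hq : be * Real.log 4 + Real.log 2 ≤ ep * K) :
    be ≤ ratio (Set.range (Phi (D u))) ((1/8)^(3 * K !)/4) := by
  set n := K ! with hn
  have hL := L8
  have hN := lower hK
  rw [← hn] at hN
  have hf1 : 1 ≤ (K-1)! := Nat.one_le_iff_ne_zero.2 (Nat.factorial_ne_zero _)
  have hnK : n = K * (K-1)! := by rw [hn]; exact (Nat.mul_factorial_pred (by omega)).symm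
  have hle : (K-1)! ≤ n := by rw [hn]; exact Nat.factorial_le (by omega)
  have hlogδ : Real.log ((1/8)^(3 * n)/4) = -(3 * n * Real.log 8 + Real.log 4) := by
    rw [Real.log_div (by positivity) (by norm_num), log_pow8]; ring
  have hlog4 : 0 < Real.log 4 := Real.log_pos (by norm_num)
  have hden : 0 < -Real.log ((1/8)^(3 * n)/4) := by
    rw [hlogδ]; have : (0:ℝ) ≤ n := Nat.cast_nonneg _; nlinarith
  have hlogN : n * b0 - (K-1)! * Real.log 2 ≤ Real.log (NN (Set.range (Phi (D u))) ((1/8)^(3 * n)/4)) := by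
    have hR : Real.log ((8^n * 511^n * 2^(n - (K-1)!) * 63^(2*n) : ℕ) : ℝ) =
        n * b0 - (K-1)! * Real.log 2 := by
      push_cast
      rw [Real.log_mul (by positivity) (by positivity), Real.log_mul (by positivity) (by positivity),
        Real.log_mul (by positivity) (by positivity), Real.log_pow, Real.log_pow, Real.log_pow,
        Real.log_pow, Nat.cast_sub hle]
      unfold b0
      push_cast
      ring
    rw [← hR]
    apply Real.log_le_log _ (by exact_mod_cast hN)
    have : 0 < 8^n * 511^n * 2^(n - (K-1)!) * 63^(2*n) := by positivity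
    exact_mod_cast this
  unfold ratio
  rw [le_div_iff₀ hden, hlogδ]
  refine le_trans ?_ hlogN
  have e1 : be * -(-(3 * n * Real.log 8 + Real.log 4)) = (b0 - ep) * n + be * Real.log 4 := by
    unfold be; field_simp
  rw [e1]
  have hf1r : (1:ℝ) ≤ ((K-1)! : ℝ) := by exact_mod_cast hf1
  have hnr : (n:ℝ) = K * (K-1)! := by rw [hnK]; push_cast; ring
  have c2 : 0 ≤ be * Real.log 4 := mul_nonneg be_pos.le hlog4.le
  have e2 : be * Real.log 4 + (K-1)! * Real.log 2 ≤ (K-1)! * (be * Real.log 4 + Real.log 2) := by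
    nlinarith
  have e3 : ((K-1)! : ℝ) * (be * Real.log 4 + Real.log 2) ≤ (K-1)! * (ep * K) :=
    mul_le_mul_of_nonneg_left hq (by positivity)
  have e4 : ((K-1)! : ℝ) * (ep * K) = ep * n := by rw [hnr]; ring
  nlinarith

lemma fac_tendsto {f : ℕ → ℕ} (hf : ∀ K, 2 ≤ K → K ≤ f K) {C : ℝ} (hC : 0 < C) :
    Tendsto (fun K => C * (1/8:ℝ)^(3 * f K)) atTop (𝓝[>] 0) := by
  rw [tendsto_nhdsWithin_iff]
  constructor
  · have h1 : Tendsto (fun K : ℕ => C * (1/8:ℝ)^K) atTop (𝓝 (C * 0)) :=
      (tendsto_pow_atTop_nhds_zero_of_lt_one (by norm_num) (by norm_num)).const_mul _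
    rw [mul_zero] at h1
    apply squeeze_zero' _ _ h1
    · exact Eventually.of_forall (fun K => by positivity)
    · filter_upwards [eventually_ge_atTop 2] with K hK
      apply mul_le_mul_of_nonneg_left _ hC.le
      apply pow_le_pow_of_le_one (by norm_num) (by norm_num)
      have := hf K hK
      omega
  · exact Eventually.of_forall (fun K => by
      show 0 < C * (1/8:ℝ)^(3 * f K)
      positivity)

lemma freq_low : ∃ᶠ δ in 𝓝[>] (0:ℝ), ratio (Set.range (Phi (D u))) δ ≤ al := by
  have ht : Tendsto (fun K => 160 * (1/8:ℝ)^(3 * (K ! * ((K+1)/3)))) atTop (𝓝[>] 0) := by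
    apply fac_tendsto (f := fun K => K ! * ((K+1)/3)) _ (by norm_num)
    intro K hK
    have h1 := Nat.self_le_factorial K
    have h2 : 1 ≤ (K+1)/3 := by omega
    show K ≤ K ! * ((K+1)/3)
    calc K ≤ K ! := h1
      _ = K ! * 1 := (mul_one _).symm
      _ ≤ K ! * ((K+1)/3) := Nat.mul_le_mul_left _ h2
  apply ht.frequently
  apply Eventually.frequently
  obtain ⟨Q, hQ⟩ := exists_nat_ge ((Real.log 2 + Real.log 8 + al * Real.log 160) / ep)
  filter_upwards [eventually_ge_atTop (3 * Q + 2)] with K hK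
  apply upper_ratio (by omega)
  rw [div_le_iff₀ ep_pos] at hQ
  refine hQ.trans ?_
  rw [mul_comm]
  apply mul_le_mul_of_nonneg_left _ ep_pos.le
  have : Q ≤ (K+1)/3 := by omega
  exact_mod_cast this

lemma freq_high : ∃ᶠ δ in 𝓝[>] (0:ℝ), be ≤ ratio (Set.range (Phi (D u))) δ := by
  have ht : Tendsto (fun K => (1/4) * (1/8:ℝ)^(3 * K !)) atTop (𝓝[>] 0) :=
    fac_tendsto (f := fun K => K !) (fun K _ => Nat.self_le_factorial K) (by norm_num)
  apply ht.frequently
  apply Eventually.frequently
  obtain ⟨Q, hQ⟩ := exists_nat_ge ((be * Real.log 4 + Real.log 2) / ep)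
  filter_upwards [eventually_ge_atTop (Q + 2)] with K hK
  have h1 : (1/4) * (1/8:ℝ)^(3 * K !) = (1/8)^(3 * K !)/4 := by ring
  rw [h1]
  apply lower_ratio (by omega)
  rw [div_le_iff₀ ep_pos] at hQ
  refine hQ.trans ?_
  rw [mul_comm]
  apply mul_le_mul_of_nonneg_left _ ep_pos.le
  have : Q ≤ K := by omega
  exact_mod_cast this

lemma main_dim : liminf (fun δ : ℝ => ((ratio (Set.range (Phi (D u))) δ : ℝ) : EReal)) (𝓝[>] 0) <
    limsup (fun δ : ℝ => ((ratio (Set.range (Phi (D u))) δ : ℝ) : EReal)) (𝓝[>] 0) := by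
  have h1 : liminf (fun δ : ℝ => ((ratio (Set.range (Phi (D u))) δ : ℝ) : EReal)) (𝓝[>] 0) ≤ (al : EReal) :=
    liminf_le_of_frequently_le' (freq_low.mono (fun δ h => by exact_mod_cast h))
  have h2 : (be : EReal) ≤ limsup (fun δ : ℝ => ((ratio (Set.range (Phi (D u))) δ : ℝ) : EReal)) (𝓝[>] 0) :=
    le_limsup_of_frequently_le' (freq_high.mono (fun δ h => by exact_mod_cast h))
  exact lt_of_le_of_lt h1 (lt_of_lt_of_le (by exact_mod_cast al_lt_be) h2)

end H342R3.SA
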