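import Pool.Agent.H342R3.SA5

set_option autoImplicit false
set_option maxHeartbeats 1000000
set_option synthInstance.maxHeartbeats 400000
set_option linter.unusedSectionVars false
set_option linter.unusedVariables false

namespace H342R3.SA

open scoped ENNReal Topology
open Filter

/-! ### covering numbers in metric spaces -/

noncomputable def NG {X : Type} [PseudoMetricSpace X] (E : Set X) (δ : ℝ) : ℕ :=
  sInf {n : ℕ | ∃ U : Fin n → Set X, (∀ i, ∀ x ∈ U i, ∀ y ∈ U i, dist x y ≤ δ) ∧ E ⊆ ⋃ i, U i}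

lemma NG_le {X : Type} [PseudoMetricSpace X] {E : Set X} {δ : ℝ} {Q : Type} [Fintype Q] (U : Q → Set X)
    (hU : ∀ i, ∀ x ∈ U i, ∀ y ∈ U i, dist x y ≤ δ) (hE : E ⊆ ⋃ i, U i) :
    NG E δ ≤ Fintype.card Q := by
  apply Nat.sInf_le
  refine ⟨fun i => U ((Fintype.equivFin Q).symm i), fun i => hU _, ?_⟩
  intro x hx
  obtain ⟨q, hq⟩ := Set.mem_iUnion.1 (hE hx)
  exact Set.mem_iUnion.2 ⟨Fintype.equivFin Q q, by simpa using hq⟩

lemma NG_nonempty {X : Type} [PseudoMetricSpace X] {E : Set X} (hE : IsCompact E) {δ : ℝ} (hδ : 0 < δ) :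
    {n : ℕ | ∃ U : Fin n → Set X, (∀ i, ∀ x ∈ U i, ∀ y ∈ U i, dist x y ≤ δ) ∧
      E ⊆ ⋃ i, U i}.Nonempty := by
  classical
  obtain ⟨t, htf, ht⟩ := Metric.totallyBounded_iff.1 hE.totallyBounded (δ/2) (by positivity)
  have : Fintype t := htf.fintype
  refine ⟨Fintype.card t, fun i => Metric.ball ((Fintype.equivFin t).symm i : X) (δ/2), ?_, ?_⟩
  · intro i x hx y hy
    rw [Metric.mem_ball] at hx hy
    have := dist_triangle_right x y ((Fintype.equivFin t).symm i : X)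
    linarith
  · intro x hx
    obtain ⟨y, hy, hxy⟩ := Set.mem_iUnion₂.1 (ht hx)
    exact Set.mem_iUnion.2 ⟨Fintype.equivFin t ⟨y, hy⟩, by simpa using hxy⟩

lemma NG_map {X Y : Type} [PseudoMetricSpace X] [PseudoMetricSpace Y] {E : Set X} {E' : Set Y}
    (hE : IsCompact E) {δ : ℝ} (hδ : 0 < δ) (g : X → Y) (hg : ∀ x y, dist (g x) (g y) ≤ dist x y)
    (hEE : E' ⊆ g '' E) : NG E' δ ≤ NG E δ := by
  obtain ⟨U, hU, hcov⟩ := Nat.sInf_mem (NG_nonempty hE hδ)
  apply Nat.sInf_le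
  refine ⟨fun i => g '' U i, ?_, ?_⟩
  · rintro i _ ⟨x, hx, rfl⟩ _ ⟨y, hy, rfl⟩
    exact (hg x y).trans (hU i x hx y hy)
  · intro y hy
    obtain ⟨x, hx, rfl⟩ := hEE hy
    obtain ⟨i, hi⟩ := Set.mem_iUnion.1 (hcov hx)
    exact Set.mem_iUnion.2 ⟨i, x, hi, rfl⟩

lemma NG_E4 (E : Set E4) (δ : ℝ) : NG E δ = NN E δ := rfl

/-! ### the extra coordinate -/

lemma card_S : Fintype.card S = 8239 := by simp [S]

noncomputable def eS : S ≃ Fin 8239 := Fintype.equivFinOfCardEq card_S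

noncomputable def cc (s : S) : ℕ := (eS s : ℕ) + 1

lemma cc_pos (s : S) : 1 ≤ cc s := Nat.succ_le_succ (Nat.zero_le _)
lemma cc_le (s : S) : cc s ≤ 8239 := (eS s).2
lemma cc_inj {s s' : S} (h : cc s = cc s') : s = s' :=
  eS.injective (Fin.ext (Nat.succ_injective h))

lemma exists_R : ∃ R : ℕ, 10^6 ≤ R ∧ ∀ m : ℕ, ((1:ℝ)/R)^m = (1/8)^(3*(100*m)) := by
  refine ⟨512^100, ?_, ?_⟩
  · calc 10^6 ≤ 512^3 := by norm_num
      _ ≤ 512^100 := Nat.pow_le_pow_right (by norm_num) (by norm_num)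
  · intro m
    have h1 : ((512^100 : ℕ) : ℝ) = (512:ℝ)^100 := by simp only [Nat.cast_pow, Nat.cast_ofNat]
    have h2 : (512:ℝ) = 8^3 := by norm_num
    rw [h1, h2, ← pow_mul, one_div_pow, one_div_pow, ← pow_mul, mul_assoc]

noncomputable def R : ℕ := exists_R.choose

lemma R_big : 10^6 ≤ R := exists_R.choose_spec.1

lemma R_bigr : (10:ℝ)^6 ≤ R := by exact_mod_cast R_big
lemma R_pos : (0:ℝ) < R := lt_of_lt_of_le (by norm_num) R_bigr

lemma R_pow (m : ℕ) : ((1:ℝ)/R)^m = (1/8)^(3*(100*m)) := exists_R.choose_spec.2 m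

lemma Rinv_le : (1:ℝ)/R ≤ 1/8 := by
  have := R_bigr
  apply one_div_le_one_div_of_le (by norm_num)
  linarith

noncomputable def W (s : ℕ → S) : ℝ := ∑' k, (cc (s k) : ℝ) * (1/R)^(k+1)

lemma W_summ (s : ℕ → S) : Summable (fun k => (cc (s k) : ℝ) * ((1:ℝ)/R)^(k+1)) := by
  have hR := R_pos
  apply Summable.of_nonneg_of_le (fun k => by positivity)
    (fun k => mul_le_mul_of_nonneg_right (show (cc (s k) : ℝ) ≤ 8239 by exact_mod_cast cc_le _) (by positivity))
  apply Summable.mul_left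
  exact (summable_nat_add_iff 1).2 (summable_geometric_of_lt_one (by positivity)
    (lt_of_le_of_lt Rinv_le (by norm_num)))

lemma W_tail (s : ℕ → S) (m : ℕ) :
    0 ≤ W s - ∑ k ∈ Finset.range m, (cc (s k) : ℝ) * ((1:ℝ)/R)^(k+1) ∧
    W s - ∑ k ∈ Finset.range m, (cc (s k) : ℝ) * ((1:ℝ)/R)^(k+1) ≤ 8239 * (1/R)^m / 7 := by
  have hR := R_pos
  exact tail_bound (by norm_num) (by positivity) Rinv_le (fun k => Nat.cast_nonneg _)
    (fun k => by exact_mod_cast cc_le _) m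

lemma W_cont : Continuous W := by
  have hR := R_pos
  apply continuous_tsum (u := fun k : ℕ => (8239:ℝ) * (1/R)^(k+1))
  · intro k
    apply Continuous.mul _ continuous_const
    exact (continuous_of_discreteTopology (f := fun i : S => (cc i : ℝ))).comp (continuous_apply k)
  · apply Summable.mul_left
    exact (summable_nat_add_iff 1).2 (summable_geometric_of_lt_one (by positivity)
      (lt_of_le_of_lt Rinv_le (by norm_num)))
  · intro k s
    rw [norm_mul, norm_pow, Real.norm_of_nonneg (Nat.cast_nonneg _),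
      Real.norm_of_nonneg (by positivity : (0:ℝ) ≤ 1/R)]
    exact mul_le_mul_of_nonneg_right (by exact_mod_cast cc_le _) (by positivity)

/-- shift -/
def sh (s : ℕ → S) : ℕ → S := fun k => s (k+1)

lemma W_eq (s : ℕ → S) : (R:ℝ) * W s = cc (s 0) + W (sh s) := by
  have hR := R_pos
  unfold W
  rw [(W_summ s).tsum_eq_zero_add, mul_add, ← tsum_mul_left]
  congr 1
  · rw [zero_add, pow_one]; field_simp
  · apply tsum_congr
    intro k
    show (R:ℝ) * ((cc (s (k+1)) : ℝ) * (1/R)^(k+1+1)) = (cc (s (k+1)) : ℝ) * (1/R)^(k+1)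
    rw [pow_succ]
    field_simp

lemma W_pos (s : ℕ → S) : 0 < W s := by
  have hR := R_pos
  have h := (W_tail s 1).1
  simp only [Finset.sum_range_one, zero_add, pow_one] at h
  have h1 : (1:ℝ) ≤ cc (s 0) := by exact_mod_cast cc_pos _
  have h2 : 0 < (cc (s 0) : ℝ) * (1/R) := by positivity
  linarith

lemma W_lt (s : ℕ → S) : W s < 1/2 := by
  have hR := R_pos
  have hRb := R_bigr
  have h := (W_tail s 1).2
  simp only [Finset.sum_range_one, zero_add, pow_one] at h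
  have h1 : (cc (s 0) : ℝ) ≤ 8239 := by exact_mod_cast cc_le _
  have h3 : (1:ℝ)/R ≤ 1/10^6 := one_div_le_one_div_of_le (by norm_num) hRb
  have h4 : (cc (s 0) : ℝ) * (1/R) ≤ 8239 * (1/10^6) := mul_le_mul h1 h3 (by positivity) (by norm_num)
  have h5 : (8239:ℝ) * (1/R) / 7 ≤ 8239 * (1/10^6) / 7 := by
    apply div_le_div_of_nonneg_right _ (by norm_num)
    exact mul_le_mul_of_nonneg_left h3 (by norm_num)
  have h6 : (8239:ℝ) * (1/10^6) ≤ 1/10 := by norm_num
  have h7 : (8239:ℝ) * (1/10^6) / 7 ≤ 1/10 := by norm_num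
  linarith

end H342R3.SA
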