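import Pool.Agent.H342R3.SB1

set_option autoImplicit false
set_option maxHeartbeats 1000000
set_option synthInstance.maxHeartbeats 400000
set_option linter.unusedSectionVars false
set_option linter.unusedVariables false

namespace H342R3.SA

open scoped ENNReal Topology ContDiff
open Filter

noncomputable def Dv (s : S) : E4 := WithLp.toLp 2 (D u s)

lemma A_Dv (s : S) : A (Dv s) = tr (D u) s := by
  ext c
  show rat c * D u s c = D u s c * rat c
  ring

noncomputable def xs (s : S) : ℝ := ((cc s : ℝ) + 1/4) / R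

noncomputable def bumpf (s : S) (x : ℝ) : ℝ :=
  Real.smoothTransition (2 - (6/5 * R)^2 * Real.sin (Real.pi * (x - xs s))^2)

noncomputable def psiX (x : ℝ) : E4 := ∑ s, bumpf s x • Dv s

lemma bumpf_smooth (s : S) : ContDiff ℝ ∞ (bumpf s) := by
  unfold bumpf
  apply Real.smoothTransition.contDiff.comp
  apply contDiff_const.sub
  apply contDiff_const.mul
  apply ContDiff.pow
  apply Real.contDiff_sin.comp
  exact contDiff_const.mul (contDiff_id.sub contDiff_const)

lemma psiX_smooth : ContDiff ℝ ∞ psiX := by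
  unfold psiX
  apply ContDiff.sum
  intro s _
  exact (bumpf_smooth s).smul contDiff_const

lemma psiX_per : Function.Periodic psiX 1 := by
  intro x
  unfold psiX bumpf
  apply Finset.sum_congr rfl
  intro s _
  have h1 : Real.pi * (x + 1 - xs s) = Real.pi * (x - xs s) + Real.pi := by ring
  rw [h1, Real.sin_add_pi, neg_sq]

lemma bump_one {s : S} {x : ℝ} (h : |x - xs s| ≤ 1/(4*R)) : bumpf s x = 1 := by
  have hR := R_pos
  apply Real.smoothTransition.one_of_one_le
  have h1 : |Real.sin (Real.pi * (x - xs s))| ≤ 7/2 * (1/(4*R)) := by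
    have h2 : |Real.sin (Real.pi * (x - xs s))| ≤ |Real.pi * (x - xs s)| := Real.abs_sin_le_abs
    rw [abs_mul, abs_of_pos Real.pi_pos] at h2
    have h3 := Real.pi_lt_d2
    refine h2.trans ?_
    apply mul_le_mul (by linarith) h (abs_nonneg _) (by norm_num)
  have h1' : |Real.sin (Real.pi * (x - xs s))| ≤ 3.15 * (1/(4*R)) := by
    have h2 : |Real.sin (Real.pi * (x - xs s))| ≤ |Real.pi * (x - xs s)| := Real.abs_sin_le_abs
    rw [abs_mul, abs_of_pos Real.pi_pos] at h2
    have h3 := Real.pi_lt_d2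
    refine h2.trans ?_
    apply mul_le_mul (by linarith) h (abs_nonneg _) (by norm_num)
  have h4 : (6/5 * R)^2 * Real.sin (Real.pi * (x - xs s))^2 ≤ 1 := by
    rw [← mul_pow]
    rw [sq_le_one_iff_abs_le_one, abs_mul, abs_of_pos (by positivity : (0:ℝ) < 6/5 * R)]
    calc 6/5 * (R:ℝ) * |Real.sin (Real.pi * (x - xs s))| ≤ 6/5 * R * (3.15 * (1/(4*R))) :=
          mul_le_mul_of_nonneg_left h1' (by positivity)
      _ = 6/5 * 3.15 / 4 := by field_simp
      _ ≤ 1 := by norm_num
  linarith

lemma bump_zero {s : S} {x : ℝ} (h : 3/(4*R) ≤ |x - xs s|) (h' : |x - xs s| ≤ 1/2) : bumpf s x = 0 := by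
  have hR := R_pos
  apply Real.smoothTransition.zero_of_nonpos
  have h1 : 2 * |x - xs s| ≤ |Real.sin (Real.pi * (x - xs s))| := by
    have h2 := Real.mul_le_sin (x := Real.pi * |x - xs s|) (by have := Real.pi_pos; positivity)
      (by have := Real.pi_pos; nlinarith)
    have h3 : 2 / Real.pi * (Real.pi * |x - xs s|) = 2 * |x - xs s| := by
      have := Real.pi_pos
      field_simp
    rw [h3] at h2
    refine h2.trans ?_
    rcases abs_cases (x - xs s) with ⟨h4, _⟩ | ⟨h4, _⟩
    · rw [h4]; exact le_abs_self _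
    · rw [h4]
      have : Real.pi * -(x - xs s) = -(Real.pi * (x - xs s)) := by ring
      rw [this, Real.sin_neg]
      exact neg_le_abs _
  have h4 : 2 ≤ (6/5 * R)^2 * Real.sin (Real.pi * (x - xs s))^2 := by
    rw [← mul_pow]
    have h5 : 9/5 ≤ |6/5 * R * Real.sin (Real.pi * (x - xs s))| := by
      rw [abs_mul, abs_of_pos (by positivity : (0:ℝ) < 6/5 * R)]
      calc (9:ℝ)/5 = 6/5 * R * (2 * (3/(4*R))) := by field_simp; norm_num
        _ ≤ 6/5 * R * |Real.sin (Real.pi * (x - xs s))| :=
          mul_le_mul_of_nonneg_left (by linarith) (by positivity)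
    have h6 : (9/5:ℝ)^2 ≤ |6/5 * R * Real.sin (Real.pi * (x - xs s))|^2 :=
      pow_le_pow_left₀ (by norm_num) h5 2
    rw [sq_abs] at h6
    linarith
  linarith

def InJ (s : S) (x : ℝ) : Prop := (cc s : ℝ)/R < x ∧ x < ((cc s : ℝ) + 1/2)/R

lemma InJ_pos {s : S} {x : ℝ} (h : InJ s x) : 0 < x := by
  have hR := R_pos
  exact lt_of_le_of_lt (by positivity) h.1

lemma InJ_lt {s : S} {x : ℝ} (h : InJ s x) : x < 1/2 := by
  have hR := R_pos
  have hRb := R_bigr
  refine lt_of_lt_of_le h.2 ?_
  rw [div_le_iff₀ hR]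
  have : (cc s : ℝ) ≤ 8239 := by exact_mod_cast cc_le s
  nlinarith

lemma xs_mem (s : S) : InJ s (xs s) := by
  have hR := R_pos
  unfold InJ xs
  constructor
  · apply div_lt_div_of_pos_right _ hR; linarith
  · apply div_lt_div_of_pos_right _ hR; linarith

lemma psiX_val {s : S} {x : ℝ} (h : InJ s x) : psiX x = Dv s := by
  have hR := R_pos
  unfold psiX
  rw [Finset.sum_eq_single s]
  · rw [bump_one, one_smul]
    rw [abs_le]
    unfold xs
    obtain ⟨h1, h2⟩ := h
    rw [div_lt_iff₀ hR] at h1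
    rw [lt_div_iff₀ hR] at h2
    constructor
    · rw [neg_le_iff_add_nonneg]
      have : x - ((cc s : ℝ) + 1/4)/R + 1/(4*R) = (x * R - cc s)/R := by field_simp; ring
      rw [this]
      apply div_nonneg _ hR.le
      linarith
    · have : 1/(4*R) - (x - ((cc s : ℝ) + 1/4)/R) = (cc s + 1/2 - x * R)/R := by field_simp; ring
      have h3 : 0 ≤ (cc s + 1/2 - x * R)/R := div_nonneg (by linarith) hR.le
      linarith
  · intro s' _ hne
    rw [bump_zero, zero_smul]
    · obtain ⟨h1, h2⟩ := h
      rw [div_lt_iff₀ hR] at h1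
      rw [lt_div_iff₀ hR] at h2
      have h3 : x - xs s' = (x * R - cc s' - 1/4)/R := by unfold xs; field_simp; ring
      rw [h3, abs_div, abs_of_pos hR, div_le_div_iff₀ (by positivity) hR]
      have hcc : cc s ≠ cc s' := fun hh => hne (cc_inj hh).symm
      have h4 : 3/4 ≤ |x * R - cc s' - 1/4| := by
        rcases lt_or_gt_of_ne hcc with h5 | h5
        · have h6 : (cc s : ℝ) + 1 ≤ cc s' := by exact_mod_cast h5
          rw [abs_sub_comm, abs_sub_comm]
          rw [le_abs]
          right
          linarith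
        · have h6 : (cc s' : ℝ) + 1 ≤ cc s := by exact_mod_cast h5
          rw [le_abs]
          left
          linarith
      nlinarith
    · have h1 := InJ_pos h
      have h2 := InJ_lt h
      have h3 := InJ_pos (xs_mem s')
      have h4 := InJ_lt (xs_mem s')
      rw [abs_le]
      constructor <;> linarith
  · intro h2; exact absurd (Finset.mem_univ s) h2

lemma exists_psi : ∃ ψ : ℝ → E4, ContDiff ℝ ∞ ψ ∧ Function.Periodic ψ 1 ∧
    ∀ s x, InJ s x → ψ x = Dv s :=
  ⟨psiX, psiX_smooth, psiX_per, fun s x h => psiX_val h⟩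

noncomputable def psi0 : ℝ → E4 := exists_psi.choose
lemma psi0_smooth : ContDiff ℝ ∞ psi0 := exists_psi.choose_spec.1
lemma psi0_per : Function.Periodic psi0 1 := exists_psi.choose_spec.2.1
lemma psi0_val {s : S} {x : ℝ} (h : InJ s x) : psi0 x = Dv s := exists_psi.choose_spec.2.2 s x h

lemma W_mem (s : ℕ → S) : InJ (s 0) (W s) := by
  have hR := R_pos
  have h := W_eq s
  have h1 := W_pos (sh s)
  have h2 := W_lt (sh s)
  unfold InJ
  rw [div_lt_iff₀ hR, lt_div_iff₀ hR]
  constructor <;> linarith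

lemma deriv_bound : ∃ L : ℝ, 0 < L ∧ ∀ x, ‖deriv psi0 x‖ ≤ L := by
  have hc : Continuous (deriv psi0) := psi0_smooth.continuous_deriv (by simp)
  have hp : Function.Periodic (deriv psi0) 1 := by
    intro x
    have h1 : (fun x => psi0 (x + 1)) = psi0 := funext psi0_per
    calc deriv psi0 (x+1) = deriv (fun x => psi0 (x+1)) x := (deriv_comp_add_const psi0 1 x).symm
      _ = deriv psi0 x := by rw [h1]
  obtain ⟨L, hL⟩ := (hp.isBounded_of_continuous one_ne_zero hc).exists_norm_le
  refine ⟨max L 1, lt_max_of_lt_right one_pos, fun x => (hL _ ⟨x, rfl⟩).trans (le_max_left _ _)⟩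

end H342R3.SA
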