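import Pool.Agent.H342R3.SB2

set_option autoImplicit false
set_option maxHeartbeats 1000000
set_option synthInstance.maxHeartbeats 400000
set_option linter.unusedSectionVars false
set_option linter.unusedVariables false

namespace H342R3.SA

open scoped ENNReal Topology ContDiff
open Filter

noncomputable def Bc : E4 →L[ℝ] E4 :=
  LinearMap.toContinuousLinearMap
    { toFun := fun v => WithLp.toLp 2 (fun c => v c / rat c)
      map_add' := by
        intro x y; ext c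
        show (x c + y c) / rat c = x c / rat c + y c / rat c
        ring
      map_smul' := by
        intro r x; ext c
        show (r * x c) / rat c = r * (x c / rat c)
        ring }

lemma Bc_apply (v : E4) (c : Fin 4) : Bc v c = v c / rat c := rfl

lemma A_Bc (v : E4) : A (Bc v) = v := by
  ext c
  rw [A_apply, Bc_apply]
  field_simp [(rat_pos c).ne']

lemma Bc_A (v : E4) : Bc (A v) = v := by
  ext c
  rw [Bc_apply, A_apply]
  field_simp [(rat_pos c).ne']

lemma Bc_norm (v : E4) : 8 * ‖v‖ ≤ ‖Bc v‖ := by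
  have h1 : ‖A (Bc v)‖ ≤ 1/8 * ‖Bc v‖ := A_bound (Bc v)
  rw [A_Bc] at h1
  linarith

noncomputable def kap : ℝ := deriv_bound.choose
lemma kap_pos : 0 < kap := deriv_bound.choose_spec.1
lemma kap_bound (x : ℝ) : ‖deriv psi0 x‖ ≤ kap := deriv_bound.choose_spec.2 x

abbrev EE := WithLp 2 (E4 × ℝ)
abbrev MM (κ : ℝ) := WithLp 2 (E4 × AddCircle κ)

noncomputable def proj (κ : ℝ) (q : EE) : MM κ := WithLp.toLp 2 (q.fst, (q.snd : AddCircle κ))

noncomputable def F (q : EE) : EE := WithLp.toLp 2 (Bc q.fst - psi0 (q.snd / kap), R * q.snd)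

noncomputable def psi (θ : ℝ) : E4 := psi0 (θ / kap)

lemma psi_per : Function.Periodic psi kap := by
  intro x
  unfold psi
  have h := kap_pos
  have : (x + kap) / kap = x / kap + 1 := by field_simp
  rw [this]
  exact psi0_per _

noncomputable def Psi : AddCircle kap → E4 := psi_per.lift

lemma Psi_coe (θ : ℝ) : Psi (θ : AddCircle kap) = psi0 (θ / kap) := Function.Periodic.lift_coe _ _

noncomputable def f (x : MM kap) : MM kap := WithLp.toLp 2 (Bc x.fst - Psi x.snd, R • x.snd)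

lemma toLp_fst {α β : Type} (a : α) (b : β) : (WithLp.toLp 2 (a, b)).fst = a := rfl
lemma toLp_snd {α β : Type} (a : α) (b : β) : (WithLp.toLp 2 (a, b)).snd = b := rfl

lemma f_proj (q : EE) : f (proj kap q) = proj kap (F q) := by
  show WithLp.toLp 2 (Bc q.fst - Psi (q.snd : AddCircle kap), R • (q.snd : AddCircle kap)) =
    WithLp.toLp 2 (Bc q.fst - psi0 (q.snd / kap), (((R:ℝ) * q.snd : ℝ) : AddCircle kap))
  rw [Psi_coe, ← AddCircle.coe_nsmul, nsmul_eq_mul]

noncomputable def eE : EE ≃L[ℝ] (E4 × ℝ) := WithLp.prodContinuousLinearEquiv 2 ℝ E4 ℝ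

lemma eE_symm (x : E4 × ℝ) : eE.symm x = WithLp.toLp 2 x := rfl
lemma eE_fst (q : EE) : (eE q).1 = q.fst := rfl
lemma eE_snd (q : EE) : (eE q).2 = q.snd := rfl

lemma F_eq : F = fun q => eE.symm ((fun r : E4 × ℝ => (Bc r.1 - psi0 (r.2 / kap), (R:ℝ) * r.2)) (eE q)) := by
  funext q
  show F q = eE.symm (Bc (eE q).1 - psi0 ((eE q).2 / kap), (R:ℝ) * (eE q).2)
  rw [eE_symm, eE_fst, eE_snd, F]

lemma F_smooth : ContDiff ℝ ∞ F := by
  rw [F_eq]
  apply eE.symm.contDiff.comp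
  apply ContDiff.prodMk
  · apply ContDiff.sub
    · exact Bc.contDiff.comp (contDiff_fst.comp eE.contDiff)
    · exact psi0_smooth.comp ((contDiff_snd.comp eE.contDiff).div_const _)
  · exact contDiff_const.mul (contDiff_snd.comp eE.contDiff)

lemma F_deriv (q : EE) : HasFDerivAt F
    ((eE.symm : (E4 × ℝ) →L[ℝ] EE).comp
      (((Bc.comp (ContinuousLinearMap.fst ℝ E4 ℝ) -
        (ContinuousLinearMap.toSpanSingleton ℝ ((1/kap) • deriv psi0 (q.snd / kap))).comp
          (ContinuousLinearMap.snd ℝ E4 ℝ)).prod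
        ((R:ℝ) • ContinuousLinearMap.snd ℝ E4 ℝ)).comp (eE : EE →L[ℝ] (E4 × ℝ)))) q := by
  rw [F_eq]
  apply (eE.symm : (E4 × ℝ) →L[ℝ] EE).hasFDerivAt.comp
  apply HasFDerivAt.comp q (g := fun r : E4 × ℝ => (Bc r.1 - psi0 (r.2 / kap), (R:ℝ) * r.2)) _ (eE : EE →L[ℝ] (E4 × ℝ)).hasFDerivAt
  apply HasFDerivAt.prodMk
  · apply HasFDerivAt.sub
    · exact Bc.hasFDerivAt.comp _ hasFDerivAt_fst
    · have h1 : HasDerivAt psi0 (deriv psi0 (q.snd/kap)) (q.snd / kap) :=
        (psi0_smooth.differentiable (by simp) _).hasDerivAt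
      have h2 : HasDerivAt (fun t : ℝ => t / kap) (1/kap) q.snd := (hasDerivAt_id _).div_const _
      have h3 : HasDerivAt (fun t : ℝ => psi0 (t / kap)) ((1/kap) • deriv psi0 (q.snd/kap)) q.snd :=
        h1.scomp q.snd h2
      have h4 := h3.hasFDerivAt
      exact h4.comp (eE q) hasFDerivAt_snd
  · exact hasFDerivAt_snd.const_mul _

lemma F_expand (q v : EE) : 2 * ‖v‖ ≤ ‖fderiv ℝ F q v‖ := by
  rw [(F_deriv q).fderiv]
  have hk := kap_pos
  have hR := R_bigr
  set d := (1/kap) • deriv psi0 (q.snd / kap) with hd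
  have hdn : ‖d‖ ≤ 1 := by
    rw [hd, norm_smul, Real.norm_of_nonneg (by positivity), one_div, inv_mul_le_iff₀ hk, mul_one]
    exact kap_bound _
  have e1 : ‖((eE.symm : (E4 × ℝ) →L[ℝ] EE).comp
      (((Bc.comp (ContinuousLinearMap.fst ℝ E4 ℝ) -
        (ContinuousLinearMap.toSpanSingleton ℝ d).comp
          (ContinuousLinearMap.snd ℝ E4 ℝ)).prod
        ((R:ℝ) • ContinuousLinearMap.snd ℝ E4 ℝ)).comp (eE : EE →L[ℝ] (E4 × ℝ)))) v‖^2 =
      ‖Bc v.fst - v.snd • d‖^2 + ‖(R:ℝ) * v.snd‖^2 := by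
    rw [WithLp.prod_norm_sq_eq_of_L2]
    rfl
  have e2 : ‖v‖^2 = ‖v.fst‖^2 + ‖v.snd‖^2 := WithLp.prod_norm_sq_eq_of_L2 v
  apply le_of_sq_le_sq _ (norm_nonneg _)
  rw [e1, mul_pow, e2]
  set a := ‖v.fst‖ with ha
  set b := ‖v.snd‖ with hb
  have ha0 : 0 ≤ a := norm_nonneg _
  have hb0 : 0 ≤ b := norm_nonneg _
  have h1 : 8 * a - b ≤ ‖Bc v.fst - v.snd • d‖ := by
    have h2 := Bc_norm v.fst
    have h3 : ‖v.snd • d‖ ≤ b := by
      rw [norm_smul]
      exact mul_le_of_le_one_right hb0 hdn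
    have h4 := norm_sub_norm_le (Bc v.fst) (v.snd • d)
    linarith
  have h5 : ‖(R:ℝ) * v.snd‖ = R * b := by
    rw [norm_mul, Real.norm_of_nonneg R_pos.le]
  rw [h5]
  have h6 : (10*b)^2 ≤ ((R:ℝ) * b)^2 := by
    apply pow_le_pow_left₀ (by positivity)
    exact mul_le_mul_of_nonneg_right (by linarith) hb0
  by_cases h : b ≤ 4 * a
  · have h7 : (4*a)^2 ≤ ‖Bc v.fst - v.snd • d‖^2 := pow_le_pow_left₀ (by positivity) (by linarith) 2
    nlinarith
  · push Not at h
    have h7 : 0 ≤ ‖Bc v.fst - v.snd • d‖^2 := by positivity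
    nlinarith

end H342R3.SA
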