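import Pool.Agent.H342R3.SB3

set_option autoImplicit false
set_option maxHeartbeats 1000000
set_option synthInstance.maxHeartbeats 400000
set_option linter.unusedSectionVars false
set_option linter.unusedVariables false

namespace H342R3.SA

open scoped ENNReal Topology ContDiff
open Filter

noncomputable def Th (s : ℕ → S) : MM kap :=
  WithLp.toLp 2 (Phi (D u) s, ((kap * W s : ℝ) : AddCircle kap))

lemma Th_fst (s : ℕ → S) : (Th s).fst = Phi (D u) s := rfl
lemma Th_snd (s : ℕ → S) : (Th s).snd = ((kap * W s : ℝ) : AddCircle kap) := rfl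
lemma f_fst (x : MM kap) : (f x).fst = Bc x.fst - Psi x.snd := rfl
lemma f_snd (x : MM kap) : (f x).snd = R • x.snd := rfl

lemma MM_ext {x y : MM kap} (h1 : x.fst = y.fst) (h2 : x.snd = y.snd) : x = y := by
  have : WithLp.ofLp x = WithLp.ofLp y := Prod.ext h1 h2
  exact WithLp.ofLp_injective 2 this

lemma Th_cont : Continuous Th := by
  apply (WithLp.prod_continuous_toLp 2 E4 (AddCircle kap)).comp
  apply (Phi_cont (D u)).prodMk
  exact (AddCircle.continuous_mk' kap).comp (continuous_const.mul W_cont)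

lemma s_cons (s : ℕ → S) : s = cons (s 0) (sh s) := by
  funext k
  cases k <;> rfl

lemma Phi_sh (s : ℕ → S) : Bc (Phi (D u) s) - Dv (s 0) = Phi (D u) (sh s) := by
  have h : Phi (D u) s = A (Phi (D u) (sh s)) + A (Dv (s 0)) := by
    rw [A_Dv, ← Phi_cons]
    congr 1
    exact s_cons s
  rw [h, map_add, Bc_A, Bc_A, add_sub_cancel_right]

lemma kap_div (x : ℝ) : kap * x / kap = x := by
  have := kap_pos
  field_simp

lemma f_Th (s : ℕ → S) : f (Th s) = Th (sh s) := by
  apply MM_ext
  · rw [f_fst, Th_fst, Th_snd, Th_fst, Psi_coe, kap_div, psi0_val (W_mem s), Phi_sh]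
  · rw [f_snd, Th_snd, Th_snd, ← AddCircle.coe_nsmul, nsmul_eq_mul]
    have : (R:ℝ) * (kap * W s) = (cc (s 0)) • kap + kap * W (sh s) := by
      rw [nsmul_eq_mul, mul_left_comm, W_eq]; ring
    rw [this, AddCircle.coe_add, AddCircle.coe_nsmul, AddCircle.coe_period, smul_zero, zero_add]

noncomputable def Lam : Set (MM kap) := Set.range Th

lemma Lam_compact : IsCompact Lam := isCompact_range Th_cont
lemma Lam_ne : Lam.Nonempty := ⟨_, ⟨fun _ => Sum.inr 0, rfl⟩⟩

lemma f_Lam : f '' Lam = Lam := by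
  ext x
  constructor
  · rintro ⟨_, ⟨s, rfl⟩, rfl⟩
    exact ⟨sh s, (f_Th s).symm⟩
  · rintro ⟨s, rfl⟩
    refine ⟨Th (cons (Sum.inr 0) s), ⟨_, rfl⟩, ?_⟩
    rw [f_Th]
    rfl

lemma f_it (n : ℕ) (s : ℕ → S) : f^[n] (Th s) = Th (sh^[n] s) := by
  induction n generalizing s with
  | zero => rfl
  | succ n ih => rw [Function.iterate_succ_apply, Function.iterate_succ_apply, f_Th, ih]

noncomputable def VV : Set (AddCircle kap) :=
  ⋃ s : S, (fun θ : ℝ => (θ : AddCircle kap)) '' {θ | InJ s (θ / kap)}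

lemma VV_open : IsOpen VV := by
  apply isOpen_iUnion
  intro s
  apply QuotientAddGroup.isOpenMap_coe
  have h1 : Continuous (fun θ : ℝ => θ / kap) := continuous_id.div_const _
  exact (isOpen_lt continuous_const h1).inter (isOpen_lt h1 continuous_const)

lemma exists_B : ∃ B : ℝ, 0 < B ∧ ∀ s, ‖Phi (D u) s‖ < B := by
  obtain ⟨B, hB⟩ := (K_compact (D u)).isBounded.exists_norm_le
  refine ⟨max B 0 + 1, by positivity, fun s => ?_⟩
  have := hB _ ⟨s, rfl⟩
  exact lt_of_le_of_lt (this.trans (le_max_left _ 0)) (lt_add_one _)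

lemma growth {X : Type} [NormedAddCommGroup X] (e : ℕ → X) {a B : ℝ} (ha : 2 ≤ a)
    (h : ∀ n, a * ‖e n‖ ≤ ‖e (n+1)‖) (hB : ∀ n, ‖e n‖ ≤ B) : e 0 = 0 := by
  have h1 : ∀ n, 2^n * ‖e 0‖ ≤ ‖e n‖ := by
    intro n
    induction n with
    | zero => simp
    | succ n ih =>
      calc 2^(n+1) * ‖e 0‖ = 2 * (2^n * ‖e 0‖) := by ring
        _ ≤ 2 * ‖e n‖ := by linarith
        _ ≤ a * ‖e n‖ := mul_le_mul_of_nonneg_right ha (norm_nonneg _)
        _ ≤ _ := h n
  by_contra hne
  have hpos : 0 < ‖e 0‖ := norm_pos_iff.2 hne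
  obtain ⟨n, hn⟩ := pow_unbounded_of_one_lt (B / ‖e 0‖) (by norm_num : (1:ℝ) < 2)
  rw [div_lt_iff₀ hpos] at hn
  linarith [h1 n, hB n]

lemma repeller : ∃ U : Set (MM kap), IsOpen U ∧ Lam ⊆ U ∧
    Lam = {x | x ∈ U ∧ ∀ n : ℕ, f^[n] x ∈ U} := by
  obtain ⟨B, hB0, hB⟩ := exists_B
  have hk := kap_pos
  have hR := R_pos
  have hRb := R_bigr
  set U : Set (MM kap) := {x | ‖x.fst‖ < B ∧ x.snd ∈ VV} with hU
  have hUo : IsOpen U := by
    apply IsOpen.inter
    · exact isOpen_lt (WithLp.continuous_fst 2 E4 (AddCircle kap)).norm continuous_const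
    · exact VV_open.preimage (WithLp.continuous_snd 2 E4 (AddCircle kap))
  have hsub : Lam ⊆ U := by
    rintro _ ⟨s, rfl⟩
    refine ⟨hB s, Set.mem_iUnion.2 ⟨s 0, kap * W s, ?_, rfl⟩⟩
    show InJ (s 0) (kap * W s / kap)
    rw [kap_div]
    exact W_mem s
  refine ⟨U, hUo, hsub, ?_⟩
  apply Set.Subset.antisymm
  · rintro _ ⟨s, rfl⟩
    refine ⟨hsub ⟨s, rfl⟩, fun n => ?_⟩
    rw [f_it]
    exact hsub ⟨_, rfl⟩
  · rintro x ⟨_, hx⟩
    have h1 : ∀ n, ∃ (s : S) (θ : ℝ), InJ s (θ / kap) ∧ (θ : AddCircle kap) = (f^[n] x).snd := by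
      intro n
      obtain ⟨s, θ, h2, h3⟩ := Set.mem_iUnion.1 (hx n).2
      exact ⟨s, θ, h2, h3⟩
    choose s θ hθ1 hθ2 using h1
    have hrec : ∀ n, (R:ℝ) * (θ n / kap) = cc (s n) + θ (n+1) / kap := by
      intro n
      have h2 : (f^[n+1] x).snd = R • (f^[n] x).snd := by
        rw [Function.iterate_succ_apply', f_snd]
      rw [← hθ2, ← hθ2, ← AddCircle.coe_nsmul] at h2
      have h3 : ((R • θ n - θ (n+1) : ℝ) : AddCircle kap) = 0 := by
        rw [AddCircle.coe_sub, h2, sub_self]
      rw [AddCircle.coe_eq_zero_iff] at h3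
      obtain ⟨m, hm⟩ := h3
      have h4 : (R:ℝ) * (θ n / kap) - θ (n+1) / kap = m := by
        have h5 : (m:ℝ) * kap = R * θ n - θ (n+1) := by
          have := hm
          rw [zsmul_eq_mul, nsmul_eq_mul] at this
          exact this
        field_simp
        linarith
      obtain ⟨a1, a2⟩ := hθ1 n
      have a3 := InJ_pos (hθ1 (n+1))
      have a4 := InJ_lt (hθ1 (n+1))
      rw [div_lt_iff₀ hR] at a1
      rw [lt_div_iff₀ hR] at a2
      have h6 : |(m:ℝ) - cc (s n)| < 1 := by
        rw [abs_lt]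
        constructor <;> linarith
      have h7 : (m:ℤ) - (cc (s n) : ℤ) = 0 := by
        apply Int.abs_lt_one_iff.1
        exact_mod_cast h6
      have h8 : (m:ℝ) = cc (s n) := by
        have : m = (cc (s n) : ℤ) := by linarith
        rw [this]; push_cast; rfl
      linarith
    have hW : θ 0 / kap = W s := by
      have := growth (fun n => θ n / kap - W (fun k => s (k+n))) (a := R) (B := 1) (by linarith)
        (fun n => by
          have h2 := hrec n
          have h3 := W_eq (fun k => s (k+n))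
          have h4 : sh (fun k => s (k+n)) = fun k => s (k+(n+1)) := by
            funext k
            show s (k+1+n) = s (k+(n+1))
            congr 1; omega
          rw [h4] at h3
          simp only [Nat.zero_add] at h3
          have h5 : θ (n+1) / kap - W (fun k => s (k+(n+1))) = R * (θ n / kap - W (fun k => s (k+n))) := by
            rw [mul_sub, h2, h3]; ring
          rw [h5, norm_mul, Real.norm_of_nonneg hR.le])
        (fun n => by
          have a1 := InJ_pos (hθ1 n)
          have a2 := InJ_lt (hθ1 n)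
          have a3 := W_pos (fun k => s (k+n))
          have a4 := W_lt (fun k => s (k+n))
          rw [Real.norm_eq_abs, abs_le]
          constructor <;> linarith)
      simp only [Nat.add_zero] at this
      linarith [sub_eq_zero.1 this]
    have hP : x.fst = Phi (D u) s := by
      have := growth (fun n => (f^[n] x).fst - Phi (D u) (fun k => s (k+n))) (a := 8) (B := 2 * B) (by norm_num)
        (fun n => by
          have h4 : sh (fun k => s (k+n)) = fun k => s (k+(n+1)) := by
            funext k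
            show s (k+1+n) = s (k+(n+1))
            congr 1; omega
          have h2 : (f^[n+1] x).fst = Bc (f^[n] x).fst - Dv (s n) := by
            rw [Function.iterate_succ_apply', f_fst, ← hθ2, Psi_coe, psi0_val (hθ1 n)]
          have h3 := Phi_sh (fun k => s (k+n))
          rw [h4] at h3
          simp only [Nat.zero_add] at h3
          rw [h2, ← h3]
          have h5 : Bc (f^[n] x).fst - Dv (s n) - (Bc (Phi (D u) fun k => s (k+n)) - Dv (s n)) =
              Bc ((f^[n] x).fst - Phi (D u) (fun k => s (k+n))) := by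
            rw [map_sub]; abel
          rw [h5]
          exact Bc_norm _)
        (fun n => by
          have a1 := (hx n).1
          have a2 := hB (fun k => s (k+n))
          exact (norm_sub_le _ _).trans (by linarith))
      simp only [Nat.add_zero] at this
      exact sub_eq_zero.1 this
    refine ⟨s, MM_ext (by rw [Th_fst]; exact hP.symm) ?_⟩
    rw [Th_snd, ← hW]
    have h2 := hθ2 0
    have h3 : kap * (θ 0 / kap) = θ 0 := by field_simp
    rw [h3]
    exact h2

end H342R3.SA
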