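import Pool.Agent.H342R3.SB4

set_option autoImplicit false
set_option maxHeartbeats 1000000
set_option synthInstance.maxHeartbeats 400000
set_option linter.unusedSectionVars false
set_option linter.unusedVariables false

namespace H342R3.SA

open scoped ENNReal Topology ContDiff
open Filter Nat

lemma dist_MM (x y : MM kap) : dist x y ≤ dist x.fst y.fst + dist x.snd y.snd := by
  rw [WithLp.prod_dist_eq_of_L2]
  have h1 : 0 ≤ dist x.fst y.fst := dist_nonneg
  have h2 : 0 ≤ dist x.snd y.snd := dist_nonneg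
  rw [Real.sqrt_le_left (by positivity)]
  nlinarith

lemma fst_le (x y : MM kap) : dist x.fst y.fst ≤ dist x y := by
  rw [WithLp.prod_dist_eq_of_L2]
  apply Real.le_sqrt_of_sq_le
  have h2 : 0 ≤ dist x.snd y.snd ^ 2 := by positivity
  linarith

lemma dist_coe (x y : ℝ) : dist (x : AddCircle kap) (y : AddCircle kap) ≤ |x - y| := by
  rw [dist_eq_norm, ← AddCircle.coe_sub]
  exact QuotientAddGroup.norm_mk_le_norm

lemma W_close {m : ℕ} {s s' : ℕ → S} (h : ∀ k < m, s k = s' k) :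
    |W s - W s'| ≤ 1177 * (1/8)^(3*(100*m)) := by
  have hR := R_pos
  have h1 := two_tails (f := fun k => (cc (s k) : ℝ)) (f' := fun k => (cc (s' k) : ℝ)) (B := 8239)
    (r := 1/R) (by norm_num) (by positivity) Rinv_le (fun k => Nat.cast_nonneg _)
    (fun k => by exact_mod_cast cc_le _) (fun k => Nat.cast_nonneg _)
    (fun k => by exact_mod_cast cc_le _) m
  have h2 : ∑ k ∈ Finset.range m, (cc (s k) : ℝ) * ((1:ℝ)/R)^(k+1) =
      ∑ k ∈ Finset.range m, (cc (s' k) : ℝ) * ((1:ℝ)/R)^(k+1) :=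
    Finset.sum_congr rfl (fun k hk => by rw [h k (Finset.mem_range.1 hk)])
  rw [h2, sub_self, abs_zero, R_pow] at h1
  have h3 : |W s - W s'| ≤ 0 + 8239 * (1/8)^(3*(100*m)) / 7 := h1
  linarith

noncomputable def C1 : ℝ := 160 + 1177 * kap
lemma C1_ge : 160 ≤ C1 := by unfold C1; have := kap_pos; linarith

lemma upperM (K n m : ℕ) (hn : 3*n ≤ (K+1)!) (hm : n = 100*m) :
    NG Lam (C1 * (1/8)^(3*n)) ≤ 2 * 8^(n + K !) * (574^n * 79^(2*n)) * 8239^m := by
  obtain ⟨p, hp1, hp2⟩ := exists_p K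
  set Q := (Fin (2 * 8^(n + K !)) × (Fin n → (Fin 511 ⊕ Fin 63)) ×
    (Fin (2*n) → ((Fin 8 × Fin 2) ⊕ Fin 63))) × (Fin m → S) with hQ
  have hcard : Fintype.card Q = 2 * 8^(n + K !) * (574^n * 79^(2*n)) * 8239^m := by
    rw [Fintype.card_prod, Fintype.card_fun, card_S]
    simp
  rw [← hcard]
  apply NG_le (fun q : Q => Th '' {s | (code p K n s = q.1.1 ∧ (∀ k : Fin n, k1 (s k) = q.1.2.1 k) ∧
    ∀ k : Fin (2*n), k2 (s (n+k)) = q.1.2.2 k) ∧ ∀ k : Fin m, s k = q.2 k})
  · rintro q _ ⟨s, ⟨⟨a1, a2, a3⟩, a4⟩, rfl⟩ _ ⟨s', ⟨⟨b1, b2, b3⟩, b4⟩, rfl⟩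
    have h1 : dist (Phi (D u) s) (Phi (D u) s') ≤ 160 * (1/8)^(3*n) := by
      apply close hn hp2 (a1.trans b1.symm)
      · intro k hk
        exact (a2 ⟨k, hk⟩).trans (b2 ⟨k, hk⟩).symm
      · intro k hk1 hk2
        have h3 := (a3 ⟨k - n, by omega⟩).trans (b3 ⟨k - n, by omega⟩).symm
        simp only at h3
        rwa [Nat.add_sub_cancel' hk1] at h3
    have h2 := W_close (m := m) (s := s) (s' := s') (fun k hk => (a4 ⟨k, hk⟩).trans (b4 ⟨k, hk⟩).symm)
    rw [← hm] at h2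
    have h3 : dist (Th s).snd (Th s').snd ≤ kap * (1177 * (1/8)^(3*n)) := by
      rw [Th_snd, Th_snd]
      refine (dist_coe _ _).trans ?_
      rw [← mul_sub, abs_mul, abs_of_pos kap_pos]
      exact mul_le_mul_of_nonneg_left h2 kap_pos.le
    refine (dist_MM _ _).trans ?_
    rw [Th_fst, Th_fst]
    have : C1 * (1/8)^(3*n) = 160 * (1/8)^(3*n) + kap * (1177 * (1/8)^(3*n)) := by unfold C1; ring
    rw [this]
    exact add_le_add h1 h3
  · rintro _ ⟨s, rfl⟩
    rw [Set.mem_iUnion]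
    exact ⟨((⟨code p K n s, code_lt hp1 n s⟩, fun k => k1 (s k), fun k => k2 (s (n+k))), fun k => s k),
      s, ⟨⟨rfl, fun k => rfl, fun k => rfl⟩, fun k => rfl⟩, rfl⟩

lemma lowerM {K : ℕ} (hK : 2 ≤ K) :
    8^(K !) * 511^(K !) * 2^((K !) - (K-1)!) * 63^(2 * K !) ≤ NG Lam ((1/8)^(3 * K !)/4) := by
  refine (lower hK).trans ?_
  rw [← NG_E4]
  apply NG_map Lam_compact (by positivity) (fun x : MM kap => x.fst) fst_le
  rintro _ ⟨s, rfl⟩
  exact ⟨Th s, ⟨s, rfl⟩, rfl⟩

/-! ### asymptotics -/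

noncomputable def a1 : ℝ := a0 + Real.log 8239 / 100

lemma a1_lt_b0 : a1 < b0 := by
  unfold a1 a0 b0
  have h1 : Real.log 574 + 2 * Real.log 79 = Real.log 3582334 := by
    rw [show (3582334:ℝ) = 574 * 79^2 by norm_num, Real.log_mul (by norm_num) (by norm_num),
      Real.log_pow]; push_cast; ring
  have h2 : Real.log 511 + Real.log 2 + 2 * Real.log 63 = Real.log 4056318 := by
    rw [show (4056318:ℝ) = 511 * 2 * 63^2 by norm_num, Real.log_mul (by norm_num) (by norm_num),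
      Real.log_mul (by norm_num) (by norm_num), Real.log_pow]; push_cast; ring
  have h3 : Real.log 8239 + 100 * Real.log 3582334 < 100 * Real.log 4056318 := by
    have e1 : 100 * Real.log 3582334 = Real.log ((3582334:ℝ)^100) := by rw [Real.log_pow]; push_cast; ring
    have e2 : 100 * Real.log 4056318 = Real.log ((4056318:ℝ)^100) := by rw [Real.log_pow]; push_cast; ring
    rw [e1, e2, ← Real.log_mul (by norm_num) (by positivity)]
    apply Real.log_lt_log (by positivity)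
    have h9 : (8239:ℕ) * 3582334^100 < 4056318^100 := by norm_num
    exact_mod_cast h9
  linarith

lemma a1_pos : 0 < a1 := by
  unfold a1
  have h1 := a0_pos
  have h2 := Real.log_pos (by norm_num : (1:ℝ) < 8239)
  positivity

noncomputable def ep1 : ℝ := (b0 - a1)/3
noncomputable def al1 : ℝ := (a1 + ep1) / (3 * Real.log 8)
noncomputable def be1 : ℝ := (b0 - ep1) / (3 * Real.log 8)

lemma ep1_pos : 0 < ep1 := by unfold ep1; have := a1_lt_b0; linarith
lemma al1_lt_be1 : al1 < be1 := by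
  unfold al1 be1
  apply div_lt_div_of_pos_right _ (by have := L8; positivity)
  unfold ep1
  have := a1_lt_b0
  linarith
lemma al1_pos : 0 < al1 := by
  unfold al1; have := a1_pos; have := ep1_pos; have := L8; positivity
lemma be1_pos : 0 < be1 := al1_pos.trans al1_lt_be1

noncomputable def ratioM (δ : ℝ) : ℝ := Real.log (NG Lam δ) / -Real.log δ

lemma upper_ratioM {K : ℕ} (hK : 100 ≤ K)
    (hq : Real.log 2 + Real.log 8 + al1 * Real.log C1 ≤ ep1 * (((K+1)/3 : ℕ) : ℝ))
    (hq2 : Real.log C1 < 3 * (((K+1)/3 : ℕ) : ℝ) * Real.log 8) :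
    ratioM (C1 * (1/8)^(3 * (K ! * ((K+1)/3)))) ≤ al1 := by
  set q := (K+1)/3 with hqd
  have hq1 : 1 ≤ q := by omega
  set n := K ! * q with hn
  have hf1 : 1 ≤ K ! := Nat.one_le_iff_ne_zero.2 (Nat.factorial_ne_zero K)
  obtain ⟨m0, hm0⟩ : 100 ∣ K ! := Nat.dvd_factorial (by norm_num) hK
  have hnm : n = 100 * (m0 * q) := by rw [hn, hm0]; ring
  set m := m0 * q with hm
  have h3 : 3 * n ≤ (K+1)! := by
    rw [hn, Nat.factorial_succ]
    calc 3 * (K ! * q) = (3 * q) * K ! := by ring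
      _ ≤ (K+1) * K ! := Nat.mul_le_mul_right _ (by omega)
  have hN := upperM K n m h3 hnm
  have hL := L8
  have hC := C1_ge
  have hC0 : 0 < C1 := by linarith
  have hlogδ : Real.log (C1 * (1/8)^(3*n)) = Real.log C1 - 3 * n * Real.log 8 := by
    rw [Real.log_mul hC0.ne' (by positivity), log_pow8]; ring
  have hf1r : (1:ℝ) ≤ (K ! : ℝ) := by exact_mod_cast hf1
  have hnr : (n:ℝ) = K ! * q := by rw [hn]; push_cast; ring
  have hqn : (q:ℝ) ≤ n := by
    rw [hnr]
    exact le_mul_of_one_le_left (Nat.cast_nonneg _) hf1r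
  have hden : 0 < -Real.log (C1 * (1/8)^(3*n)) := by
    rw [hlogδ]; nlinarith
  have hmr : (m:ℝ) * Real.log 8239 = n * (Real.log 8239 / 100) := by
    rw [hnm]; push_cast; ring
  have hlogN : Real.log (NG Lam (C1 * (1/8)^(3*n))) ≤
      Real.log 2 + K ! * Real.log 8 + n * a1 := by
    have hR : Real.log ((2 * 8^(n + K !) * (574^n * 79^(2*n)) * 8239^m : ℕ) : ℝ) =
        Real.log 2 + K ! * Real.log 8 + n * a1 := by
      push_cast
      rw [Real.log_mul (by positivity) (by positivity), Real.log_mul (by positivity) (by positivity),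
        Real.log_mul (by norm_num) (by positivity),
        Real.log_mul (by positivity) (by positivity), Real.log_pow, Real.log_pow, Real.log_pow,
        Real.log_pow, hmr]
      unfold a1 a0
      push_cast
      ring
    rw [← hR]
    rcases Nat.eq_zero_or_pos (NG Lam (C1 * (1/8)^(3*n))) with h | h
    · rw [h, Nat.cast_zero, Real.log_zero]
      apply Real.log_natCast_nonneg
    · exact Real.log_le_log (by exact_mod_cast h) (by exact_mod_cast hN)
  unfold ratioM
  rw [div_le_iff₀ hden, hlogδ]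
  refine hlogN.trans ?_
  have e1 : al1 * -(Real.log C1 - 3 * n * Real.log 8) = (a1 + ep1) * n - al1 * Real.log C1 := by
    unfold al1; field_simp; ring
  rw [e1]
  have e2 : Real.log 2 + K ! * Real.log 8 + al1 * Real.log C1 ≤ K ! * (Real.log 2 + Real.log 8 + al1 * Real.log C1) := by
    have c1 : 0 ≤ Real.log 2 := Real.log_nonneg (by norm_num)
    have c2 : 0 ≤ al1 * Real.log C1 := mul_nonneg al1_pos.le (Real.log_nonneg (by linarith))
    nlinarith
  have e3 : (K ! : ℝ) * (Real.log 2 + Real.log 8 + al1 * Real.log C1) ≤ K ! * (ep1 * q) :=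
    mul_le_mul_of_nonneg_left hq (by positivity)
  have e4 : (K ! : ℝ) * (ep1 * q) = ep1 * n := by rw [hnr]; ring
  nlinarith

lemma lower_ratioM {K : ℕ} (hK : 2 ≤ K)
    (hq : be1 * Real.log 4 + Real.log 2 ≤ ep1 * K) :
    be1 ≤ ratioM ((1/8)^(3 * K !)/4) := by
  set n := K ! with hn
  have hL := L8
  have hN := lowerM hK
  rw [← hn] at hN
  have hf1 : 1 ≤ (K-1)! := Nat.one_le_iff_ne_zero.2 (Nat.factorial_ne_zero _)
  have hnK : n = K * (K-1)! := by rw [hn]; exact (Nat.mul_factorial_pred (by omega)).symm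
  have hle : (K-1)! ≤ n := by rw [hn]; exact Nat.factorial_le (by omega)
  have hlogδ : Real.log ((1/8)^(3 * n)/4) = -(3 * n * Real.log 8 + Real.log 4) := by
    rw [Real.log_div (by positivity) (by norm_num), log_pow8]; ring
  have hlog4 : 0 < Real.log 4 := Real.log_pos (by norm_num)
  have hden : 0 < -Real.log ((1/8)^(3 * n)/4) := by
    rw [hlogδ]; have : (0:ℝ) ≤ n := Nat.cast_nonneg _; nlinarith
  have hlogN : n * b0 - (K-1)! * Real.log 2 ≤ Real.log (NG Lam ((1/8)^(3 * n)/4)) := by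
    have hR : Real.log ((8^n * 511^n * 2^(n - (K-1)!) * 63^(2*n) : ℕ) : ℝ) =
        n * b0 - (K-1)! * Real.log 2 := by
      push_cast
      rw [Real.log_mul (by positivity) (by positivity), Real.log_mul (by positivity) (by positivity),
        Real.log_mul (by positivity) (by positivity), Real.log_pow, Real.log_pow, Real.log_pow,
        Real.log_pow, Nat.cast_sub hle]
      unfold b0
      push_cast
      ring
    rw [← hR]
    apply Real.log_le_log _ (by exact_mod_cast hN)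
    have : 0 < 8^n * 511^n * 2^(n - (K-1)!) * 63^(2*n) := by positivity
    exact_mod_cast this
  unfold ratioM
  rw [le_div_iff₀ hden, hlogδ]
  refine le_trans ?_ hlogN
  have e1 : be1 * -(-(3 * n * Real.log 8 + Real.log 4)) = (b0 - ep1) * n + be1 * Real.log 4 := by
    unfold be1; field_simp
  rw [e1]
  have hf1r : (1:ℝ) ≤ ((K-1)! : ℝ) := by exact_mod_cast hf1
  have hnr : (n:ℝ) = K * (K-1)! := by rw [hnK]; push_cast; ring
  have c2 : 0 ≤ be1 * Real.log 4 := mul_nonneg be1_pos.le hlog4.le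
  have e2 : be1 * Real.log 4 + (K-1)! * Real.log 2 ≤ (K-1)! * (be1 * Real.log 4 + Real.log 2) := by
    nlinarith
  have e3 : ((K-1)! : ℝ) * (be1 * Real.log 4 + Real.log 2) ≤ (K-1)! * (ep1 * K) :=
    mul_le_mul_of_nonneg_left hq (by positivity)
  have e4 : ((K-1)! : ℝ) * (ep1 * K) = ep1 * n := by rw [hnr]; ring
  nlinarith

lemma freq_lowM : ∃ᶠ δ in 𝓝[>] (0:ℝ), ratioM δ ≤ al1 := by
  have hC := C1_ge
  have ht : Tendsto (fun K => C1 * (1/8:ℝ)^(3 * (K ! * ((K+1)/3)))) atTop (𝓝[>] 0) := by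
    apply fac_tendsto (f := fun K => K ! * ((K+1)/3)) _ (by linarith)
    intro K hK
    have h1 := Nat.self_le_factorial K
    have h2 : 1 ≤ (K+1)/3 := by omega
    show K ≤ K ! * ((K+1)/3)
    calc K ≤ K ! := h1
      _ = K ! * 1 := (mul_one _).symm
      _ ≤ K ! * ((K+1)/3) := Nat.mul_le_mul_left _ h2
  apply ht.frequently
  apply Eventually.frequently
  obtain ⟨Q, hQ⟩ := exists_nat_ge ((Real.log 2 + Real.log 8 + al1 * Real.log C1) / ep1)
  obtain ⟨Q2, hQ2⟩ := exists_nat_gt (Real.log C1 / (3 * Real.log 8))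
  filter_upwards [eventually_ge_atTop (3 * Q + 3 * Q2 + 100)] with K hK
  have hL := L8
  apply upper_ratioM (by omega)
  · rw [div_le_iff₀ ep1_pos] at hQ
    refine hQ.trans ?_
    rw [mul_comm]
    apply mul_le_mul_of_nonneg_left _ ep1_pos.le
    have : Q ≤ (K+1)/3 := by omega
    exact_mod_cast this
  · rw [div_lt_iff₀ (by positivity)] at hQ2
    refine lt_of_lt_of_le hQ2 ?_
    have h1 : Q2 ≤ (K+1)/3 := by omega
    have h2 : (Q2:ℝ) ≤ (((K+1)/3 : ℕ) : ℝ) := by exact_mod_cast h1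
    nlinarith

lemma freq_highM : ∃ᶠ δ in 𝓝[>] (0:ℝ), be1 ≤ ratioM δ := by
  have ht : Tendsto (fun K => (1/4) * (1/8:ℝ)^(3 * K !)) atTop (𝓝[>] 0) :=
    fac_tendsto (f := fun K => K !) (fun K _ => Nat.self_le_factorial K) (by norm_num)
  apply ht.frequently
  apply Eventually.frequently
  obtain ⟨Q, hQ⟩ := exists_nat_ge ((be1 * Real.log 4 + Real.log 2) / ep1)
  filter_upwards [eventually_ge_atTop (Q + 2)] with K hK
  have h1 : (1/4) * (1/8:ℝ)^(3 * K !) = (1/8)^(3 * K !)/4 := by ring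
  rw [h1]
  apply lower_ratioM (by omega)
  rw [div_le_iff₀ ep1_pos] at hQ
  refine hQ.trans ?_
  rw [mul_comm]
  apply mul_le_mul_of_nonneg_left _ ep1_pos.le
  have : Q ≤ K := by omega
  exact_mod_cast this

lemma main_dimM : liminf (fun δ : ℝ => ((ratioM δ : ℝ) : EReal)) (𝓝[>] 0) <
    limsup (fun δ : ℝ => ((ratioM δ : ℝ) : EReal)) (𝓝[>] 0) := by
  have h1 : liminf (fun δ : ℝ => ((ratioM δ : ℝ) : EReal)) (𝓝[>] 0) ≤ (al1 : EReal) :=
    liminf_le_of_frequently_le' (freq_lowM.mono (fun δ h => by exact_mod_cast h))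
  have h2 : (be1 : EReal) ≤ limsup (fun δ : ℝ => ((ratioM δ : ℝ) : EReal)) (𝓝[>] 0) :=
    le_limsup_of_frequently_le' (freq_highM.mono (fun δ h => by exact_mod_cast h))
  exact lt_of_le_of_lt h1 (lt_of_lt_of_le (by exact_mod_cast al1_lt_be1) h2)

end H342R3.SA
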