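import Pool.Agent.H342R3.SB5

set_option autoImplicit false
set_option maxHeartbeats 1000000
set_option synthInstance.maxHeartbeats 400000
set_option linter.unusedSectionVars false
set_option linter.unusedVariables false

namespace H342R3.SC

open scoped ENNReal Topology ContDiff
open Filter H342R3.SA

lemma exists_mu : ∃ (T : ℕ) (μ ν : ℝ), μ * ν = 1 ∧ μ + ν = T ∧ (10:ℝ)^6 ≤ μ ∧ 0 < ν ∧
    ∀ m : ℕ, (1/μ)^m ≤ (1/8:ℝ)^(3*(200*m)) := by
  obtain ⟨T, hT⟩ : ∃ T : ℕ, (T:ℝ) = (512:ℝ)^200 + 1 := ⟨512^200+1, by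
    rw [Nat.cast_add, Nat.cast_pow, Nat.cast_ofNat, Nat.cast_one]⟩
  have hbig : (10:ℝ)^6 + 1 ≤ 512^200 := by
    calc (10:ℝ)^6 + 1 ≤ 512^3 := by norm_num
      _ ≤ 512^200 := pow_le_pow_right₀ (by norm_num) (by norm_num)
  generalize hX : (512:ℝ)^200 = X at hT hbig
  have hX6 : (10:ℝ)^6 + 1 ≤ X := hbig
  have hdisc : 0 ≤ (T:ℝ)^2 - 4 := by rw [hT]; nlinarith
  set r := Real.sqrt ((T:ℝ)^2 - 4) with hr
  have hr2 : r^2 = (T:ℝ)^2 - 4 := Real.sq_sqrt hdisc
  have hr0 : 0 ≤ r := Real.sqrt_nonneg _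
  have hrT : r < T := by
    have hT0 : (0:ℝ) ≤ T := Nat.cast_nonneg _
    nlinarith
  have hrT2 : (T:ℝ) - 2 ≤ r := by
    have h1 : 0 ≤ (T:ℝ) - 2 := by rw [hT]; linarith
    apply Real.le_sqrt_of_sq_le
    have : (4:ℝ) * T ≥ 8 := by rw [hT]; linarith
    nlinarith
  have hmu : X ≤ ((T:ℝ) + r)/2 := by rw [hT] at hrT2 ⊢; linarith
  refine ⟨T, (T + r)/2, (T - r)/2, ?_, ?_, ?_, ?_, ?_⟩
  · nlinarith
  · ring
  · linarith
  · linarith
  · intro m
    have h2 : ((1:ℝ)/8)^(3*(200*m)) = (1/X)^m := by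
      have h3 : ((1:ℝ)/8)^3 = 1/512 := by norm_num
      rw [← hX, pow_mul, pow_mul, h3, one_div_pow]
    rw [h2]
    have hXpos : 0 < X := by linarith
    apply pow_le_pow_left₀ (by positivity)
    exact one_div_le_one_div_of_le hXpos hmu

noncomputable def T : ℕ := exists_mu.choose
noncomputable def mu : ℝ := exists_mu.choose_spec.choose
noncomputable def nu : ℝ := exists_mu.choose_spec.choose_spec.choose
lemma mu_nu : mu * nu = 1 := exists_mu.choose_spec.choose_spec.choose_spec.1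
lemma mu_add : mu + nu = T := exists_mu.choose_spec.choose_spec.choose_spec.2.1
lemma mu_big : (10:ℝ)^6 ≤ mu := exists_mu.choose_spec.choose_spec.choose_spec.2.2.1
lemma nu_pos : 0 < nu := exists_mu.choose_spec.choose_spec.choose_spec.2.2.2.1
lemma mu_pow (m : ℕ) : (1/mu)^m ≤ (1/8:ℝ)^(3*(200*m)) :=
  exists_mu.choose_spec.choose_spec.choose_spec.2.2.2.2 m
lemma mu_pos : 0 < mu := lt_of_lt_of_le (by norm_num) mu_big
lemma nu_eq : nu = 1/mu := by
  have h := mu_nu
  have h2 := mu_pos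
  field_simp
  linarith
lemma nu_small : nu ≤ 1/10^6 := by
  rw [nu_eq]
  exact one_div_le_one_div_of_le (by norm_num) mu_big

lemma muinv_le : (1:ℝ)/mu ≤ 1/8 := by
  have := mu_big
  apply one_div_le_one_div_of_le (by norm_num)
  linarith

noncomputable def W (s : ℕ → S) : ℝ := ∑' k, (cc (s k) : ℝ) * (1/mu)^(k+1)

lemma W_summ (s : ℕ → S) : Summable (fun k => (cc (s k) : ℝ) * ((1:ℝ)/mu)^(k+1)) := by
  have hR := mu_pos
  apply Summable.of_nonneg_of_le (fun k => by positivity)
    (fun k => mul_le_mul_of_nonneg_right (show (cc (s k) : ℝ) ≤ 8239 by exact_mod_cast cc_le _) (by positivity))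
  apply Summable.mul_left
  exact (summable_nat_add_iff 1).2 (summable_geometric_of_lt_one (by positivity)
    (lt_of_le_of_lt muinv_le (by norm_num)))

lemma W_tail (s : ℕ → S) (m : ℕ) :
    0 ≤ W s - ∑ k ∈ Finset.range m, (cc (s k) : ℝ) * ((1:ℝ)/mu)^(k+1) ∧
    W s - ∑ k ∈ Finset.range m, (cc (s k) : ℝ) * ((1:ℝ)/mu)^(k+1) ≤ 8239 * (1/mu)^m / 7 := by
  have hR := mu_pos
  exact tail_bound (by norm_num) (by positivity) muinv_le (fun k => Nat.cast_nonneg _)
    (fun k => by exact_mod_cast cc_le _) m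

lemma W_cont : Continuous W := by
  have hR := mu_pos
  apply continuous_tsum (u := fun k : ℕ => (8239:ℝ) * (1/mu)^(k+1))
  · intro k
    apply Continuous.mul _ continuous_const
    exact (continuous_of_discreteTopology (f := fun i : S => (cc i : ℝ))).comp (continuous_apply k)
  · apply Summable.mul_left
    exact (summable_nat_add_iff 1).2 (summable_geometric_of_lt_one (by positivity)
      (lt_of_le_of_lt muinv_le (by norm_num)))
  · intro k s
    rw [norm_mul, norm_pow, Real.norm_of_nonneg (Nat.cast_nonneg _),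
      Real.norm_of_nonneg (by positivity : (0:ℝ) ≤ 1/mu)]
    exact mul_le_mul_of_nonneg_right (by exact_mod_cast cc_le _) (by positivity)

lemma W_eq (s : ℕ → S) : mu * W s = cc (s 0) + W (sh s) := by
  have hR := mu_pos
  unfold W
  rw [(W_summ s).tsum_eq_zero_add, mul_add, ← tsum_mul_left]
  congr 1
  · rw [zero_add, pow_one]; field_simp
  · apply tsum_congr
    intro k
    show mu * ((cc (s (k+1)) : ℝ) * (1/mu)^(k+1+1)) = (cc (s (k+1)) : ℝ) * (1/mu)^(k+1)
    rw [pow_succ]
    field_simp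

lemma W_pos (s : ℕ → S) : 0 < W s := by
  have hR := mu_pos
  have h := (W_tail s 1).1
  simp only [Finset.sum_range_one, zero_add, pow_one] at h
  have h1 : (1:ℝ) ≤ cc (s 0) := by exact_mod_cast cc_pos _
  have h2 : 0 < (cc (s 0) : ℝ) * (1/mu) := by positivity
  linarith

lemma W_lt (s : ℕ → S) : W s < 1/2 := by
  have hR := mu_pos
  have hRb := mu_big
  have h := (W_tail s 1).2
  simp only [Finset.sum_range_one, zero_add, pow_one] at h
  have h1 : (cc (s 0) : ℝ) ≤ 8239 := by exact_mod_cast cc_le _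
  have h3 : (1:ℝ)/mu ≤ 1/10^6 := one_div_le_one_div_of_le (by norm_num) hRb
  have h4 : (cc (s 0) : ℝ) * (1/mu) ≤ 8239 * (1/10^6) := mul_le_mul h1 h3 (by positivity) (by norm_num)
  have h5 : (8239:ℝ) * (1/mu) / 7 ≤ 8239 * (1/10^6) / 7 := by
    apply div_le_div_of_nonneg_right _ (by norm_num)
    exact mul_le_mul_of_nonneg_left h3 (by norm_num)
  have h6 : (8239:ℝ) * (1/10^6) ≤ 1/10 := by norm_num
  have h7 : (8239:ℝ) * (1/10^6) / 7 ≤ 1/10 := by norm_num
  linarith

noncomputable def xs (s : S) : ℝ := ((cc s : ℝ) + 1/4) / mu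

noncomputable def bumpf (s : S) (x : ℝ) : ℝ :=
  Real.smoothTransition (2 - (6/5 * mu)^2 * Real.sin (Real.pi * (x - xs s))^2)

noncomputable def psiX (x : ℝ) : E4 := ∑ s, bumpf s x • Dv s

lemma bumpf_smooth (s : S) : ContDiff ℝ ∞ (bumpf s) := by
  unfold bumpf
  apply Real.smoothTransition.contDiff.comp
  apply contDiff_const.sub
  apply contDiff_const.mul
  apply ContDiff.pow
  apply Real.contDiff_sin.comp
  exact contDiff_const.mul (contDiff_id.sub contDiff_const)

lemma psiX_smooth : ContDiff ℝ ∞ psiX := by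
  unfold psiX
  apply ContDiff.sum
  intro s _
  exact (bumpf_smooth s).smul contDiff_const

lemma psiX_per : Function.Periodic psiX 1 := by
  intro x
  unfold psiX bumpf
  apply Finset.sum_congr rfl
  intro s _
  have h1 : Real.pi * (x + 1 - xs s) = Real.pi * (x - xs s) + Real.pi := by ring
  rw [h1, Real.sin_add_pi, neg_sq]

lemma bump_one {s : S} {x : ℝ} (h : |x - xs s| ≤ 1/(4*mu)) : bumpf s x = 1 := by
  have hR := mu_pos
  apply Real.smoothTransition.one_of_one_le
  have h1 : |Real.sin (Real.pi * (x - xs s))| ≤ 7/2 * (1/(4*mu)) := by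
    have h2 : |Real.sin (Real.pi * (x - xs s))| ≤ |Real.pi * (x - xs s)| := Real.abs_sin_le_abs
    rw [abs_mul, abs_of_pos Real.pi_pos] at h2
    have h3 := Real.pi_lt_d2
    refine h2.trans ?_
    apply mul_le_mul (by linarith) h (abs_nonneg _) (by norm_num)
  have h1' : |Real.sin (Real.pi * (x - xs s))| ≤ 3.15 * (1/(4*mu)) := by
    have h2 : |Real.sin (Real.pi * (x - xs s))| ≤ |Real.pi * (x - xs s)| := Real.abs_sin_le_abs
    rw [abs_mul, abs_of_pos Real.pi_pos] at h2
    have h3 := Real.pi_lt_d2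
    refine h2.trans ?_
    apply mul_le_mul (by linarith) h (abs_nonneg _) (by norm_num)
  have h4 : (6/5 * mu)^2 * Real.sin (Real.pi * (x - xs s))^2 ≤ 1 := by
    rw [← mul_pow]
    rw [sq_le_one_iff_abs_le_one, abs_mul, abs_of_pos (by positivity : (0:ℝ) < 6/5 * mu)]
    calc 6/5 * mu * |Real.sin (Real.pi * (x - xs s))| ≤ 6/5 * mu * (3.15 * (1/(4*mu))) :=
          mul_le_mul_of_nonneg_left h1' (by positivity)
      _ = 6/5 * 3.15 / 4 := by field_simp
      _ ≤ 1 := by norm_num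
  linarith

lemma bump_zero {s : S} {x : ℝ} (h : 3/(4*mu) ≤ |x - xs s|) (h' : |x - xs s| ≤ 1/2) : bumpf s x = 0 := by
  have hR := mu_pos
  apply Real.smoothTransition.zero_of_nonpos
  have h1 : 2 * |x - xs s| ≤ |Real.sin (Real.pi * (x - xs s))| := by
    have h2 := Real.mul_le_sin (x := Real.pi * |x - xs s|) (by have := Real.pi_pos; positivity)
      (by have := Real.pi_pos; nlinarith)
    have h3 : 2 / Real.pi * (Real.pi * |x - xs s|) = 2 * |x - xs s| := by
      have := Real.pi_pos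
      field_simp
    rw [h3] at h2
    refine h2.trans ?_
    rcases abs_cases (x - xs s) with ⟨h4, _⟩ | ⟨h4, _⟩
    · rw [h4]; exact le_abs_self _
    · rw [h4]
      have : Real.pi * -(x - xs s) = -(Real.pi * (x - xs s)) := by ring
      rw [this, Real.sin_neg]
      exact neg_le_abs _
  have h4 : 2 ≤ (6/5 * mu)^2 * Real.sin (Real.pi * (x - xs s))^2 := by
    rw [← mul_pow]
    have h5 : 9/5 ≤ |6/5 * mu * Real.sin (Real.pi * (x - xs s))| := by
      rw [abs_mul, abs_of_pos (by positivity : (0:ℝ) < 6/5 * mu)]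
      calc (9:ℝ)/5 = 6/5 * mu * (2 * (3/(4*mu))) := by field_simp; norm_num
        _ ≤ 6/5 * mu * |Real.sin (Real.pi * (x - xs s))| :=
          mul_le_mul_of_nonneg_left (by linarith) (by positivity)
    have h6 : (9/5:ℝ)^2 ≤ |6/5 * mu * Real.sin (Real.pi * (x - xs s))|^2 :=
      pow_le_pow_left₀ (by norm_num) h5 2
    rw [sq_abs] at h6
    linarith
  linarith

def InJ (s : S) (x : ℝ) : Prop := (cc s : ℝ)/mu < x ∧ x < ((cc s : ℝ) + 1/2)/mu

lemma InJ_pos {s : S} {x : ℝ} (h : InJ s x) : 0 < x := by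
  have hR := mu_pos
  exact lt_of_le_of_lt (by positivity) h.1

lemma InJ_lt {s : S} {x : ℝ} (h : InJ s x) : x < 1/2 := by
  have hR := mu_pos
  have hRb := mu_big
  refine lt_of_lt_of_le h.2 ?_
  rw [div_le_iff₀ hR]
  have : (cc s : ℝ) ≤ 8239 := by exact_mod_cast cc_le s
  nlinarith

lemma xs_mem (s : S) : InJ s (xs s) := by
  have hR := mu_pos
  unfold InJ xs
  constructor
  · apply div_lt_div_of_pos_right _ hR; linarith
  · apply div_lt_div_of_pos_right _ hR; linarith

lemma psiX_val {s : S} {x : ℝ} (h : InJ s x) : psiX x = Dv s := by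
  have hR := mu_pos
  unfold psiX
  rw [Finset.sum_eq_single s]
  · rw [bump_one, one_smul]
    rw [abs_le]
    unfold xs
    obtain ⟨h1, h2⟩ := h
    rw [div_lt_iff₀ hR] at h1
    rw [lt_div_iff₀ hR] at h2
    constructor
    · rw [neg_le_iff_add_nonneg]
      have : x - ((cc s : ℝ) + 1/4)/mu + 1/(4*mu) = (x * mu - cc s)/mu := by field_simp; ring
      rw [this]
      apply div_nonneg _ hR.le
      linarith
    · have : 1/(4*mu) - (x - ((cc s : ℝ) + 1/4)/mu) = (cc s + 1/2 - x * mu)/mu := by field_simp; ring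
      have h3 : 0 ≤ (cc s + 1/2 - x * mu)/mu := div_nonneg (by linarith) hR.le
      linarith
  · intro s' _ hne
    rw [bump_zero, zero_smul]
    · obtain ⟨h1, h2⟩ := h
      rw [div_lt_iff₀ hR] at h1
      rw [lt_div_iff₀ hR] at h2
      have h3 : x - xs s' = (x * mu - cc s' - 1/4)/mu := by unfold xs; field_simp; ring
      rw [h3, abs_div, abs_of_pos hR, div_le_div_iff₀ (by positivity) hR]
      have hcc : cc s ≠ cc s' := fun hh => hne (cc_inj hh).symm
      have h4 : 3/4 ≤ |x * mu - cc s' - 1/4| := by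
        rcases lt_or_gt_of_ne hcc with h5 | h5
        · have h6 : (cc s : ℝ) + 1 ≤ cc s' := by exact_mod_cast h5
          rw [abs_sub_comm, abs_sub_comm]
          rw [le_abs]
          right
          linarith
        · have h6 : (cc s' : ℝ) + 1 ≤ cc s := by exact_mod_cast h5
          rw [le_abs]
          left
          linarith
      nlinarith
    · have h1 := InJ_pos h
      have h2 := InJ_lt h
      have h3 := InJ_pos (xs_mem s')
      have h4 := InJ_lt (xs_mem s')
      rw [abs_le]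
      constructor <;> linarith
  · intro h2; exact absurd (Finset.mem_univ s) h2

lemma exists_psi : ∃ ψ : ℝ → E4, ContDiff ℝ ∞ ψ ∧ Function.Periodic ψ 1 ∧
    ∀ s x, InJ s x → ψ x = Dv s :=
  ⟨psiX, psiX_smooth, psiX_per, fun s x h => psiX_val h⟩

noncomputable def psi0 : ℝ → E4 := exists_psi.choose
lemma psi0_smooth : ContDiff ℝ ∞ psi0 := exists_psi.choose_spec.1
lemma psi0_per : Function.Periodic psi0 1 := exists_psi.choose_spec.2.1
lemma psi0_val {s : S} {x : ℝ} (h : InJ s x) : psi0 x = Dv s := exists_psi.choose_spec.2.2 s x h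


lemma W_lt' (s : ℕ → S) : W s < 1/4 := by
  have hR := mu_pos
  have hRb := mu_big
  have h := (W_tail s 1).2
  simp only [Finset.sum_range_one, zero_add, pow_one] at h
  have h1 : (cc (s 0) : ℝ) ≤ 8239 := by exact_mod_cast cc_le _
  have h3 : (1:ℝ)/mu ≤ 1/10^6 := one_div_le_one_div_of_le (by norm_num) hRb
  have h4 : (cc (s 0) : ℝ) * (1/mu) ≤ 8239 * (1/10^6) := mul_le_mul h1 h3 (by positivity) (by norm_num)
  have h5 : (8239:ℝ) * (1/mu) / 7 ≤ 8239 * (1/10^6) / 7 := by
    apply div_le_div_of_nonneg_right _ (by norm_num)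
    exact mul_le_mul_of_nonneg_left h3 (by norm_num)
  have h6 : (8239:ℝ) * (1/10^6) ≤ 1/10 := by norm_num
  have h7 : (8239:ℝ) * (1/10^6) / 7 ≤ 1/10 := by norm_num
  linarith

end H342R3.SC
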