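import Pool.Agent.H342R3.SC1

set_option autoImplicit false
set_option maxHeartbeats 1000000
set_option synthInstance.maxHeartbeats 400000
set_option linter.unusedSectionVars false
set_option linter.unusedVariables false

namespace H342R3.SC

open scoped ENNReal Topology ContDiff
open Filter H342R3.SA

abbrev E2 := WithLp 2 (ℝ × ℝ)

lemma E2_ext {x y : E2} (h1 : x.fst = y.fst) (h2 : x.snd = y.snd) : x = y :=
  WithLp.ofLp_injective 2 (Prod.ext h1 h2)

noncomputable def v1 : E2 := WithLp.toLp 2 (1, 1)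
noncomputable def v2 : E2 := WithLp.toLp 2 (-nu, -mu)

abbrev Gam : AddSubgroup E2 := AddSubgroup.closure {v1, v2}

lemma mem_Gam {x : E2} : x ∈ Gam ↔ ∃ m n : ℤ, x.fst = m - n * nu ∧ x.snd = m - n * mu := by
  rw [AddSubgroup.mem_closure_pair]
  have key : ∀ m n : ℤ, (m • v1 + n • v2 : E2).fst = m - n * nu ∧ (m • v1 + n • v2 : E2).snd = m - n * mu := by
    intro m n
    constructor
    · show (m:ℤ) • (1:ℝ) + n • (-nu) = _
      rw [zsmul_eq_mul, zsmul_eq_mul]; ring
    · show (m:ℤ) • (1:ℝ) + n • (-mu) = _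
      rw [zsmul_eq_mul, zsmul_eq_mul]; ring
  constructor
  · rintro ⟨m, n, rfl⟩
    exact ⟨m, n, key m n⟩
  · rintro ⟨m, n, h1, h2⟩
    exact ⟨m, n, E2_ext ((key m n).1.trans h1.symm) ((key m n).2.trans h2.symm)⟩

abbrev Tor := E2 ⧸ Gam
abbrev MT := WithLp 2 (E4 × Tor)
abbrev CT := WithLp 2 (E4 × E2)

noncomputable def g : E2 →L[ℝ] E2 :=
  LinearMap.toContinuousLinearMap
    { toFun := fun v => WithLp.toLp 2 (mu * v.fst, nu * v.snd)
      map_add' := by
        intro x y
        apply E2_ext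
        · show mu * (x.fst + y.fst) = mu * x.fst + mu * y.fst
          ring
        · show nu * (x.snd + y.snd) = nu * x.snd + nu * y.snd
          ring
      map_smul' := by
        intro r x
        apply E2_ext
        · show mu * (r * x.fst) = r * (mu * x.fst)
          ring
        · show nu * (r * x.snd) = r * (nu * x.snd)
          ring }

noncomputable def gi : E2 →L[ℝ] E2 :=
  LinearMap.toContinuousLinearMap
    { toFun := fun v => WithLp.toLp 2 (nu * v.fst, mu * v.snd)
      map_add' := by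
        intro x y
        apply E2_ext
        · show nu * (x.fst + y.fst) = nu * x.fst + nu * y.fst
          ring
        · show mu * (x.snd + y.snd) = mu * x.snd + mu * y.snd
          ring
      map_smul' := by
        intro r x
        apply E2_ext
        · show nu * (r * x.fst) = r * (nu * x.fst)
          ring
        · show mu * (r * x.snd) = r * (mu * x.snd)
          ring }

lemma g_fst (x : E2) : (g x).fst = mu * x.fst := rfl
lemma g_snd (x : E2) : (g x).snd = nu * x.snd := rfl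
lemma gi_fst (x : E2) : (gi x).fst = nu * x.fst := rfl
lemma gi_snd (x : E2) : (gi x).snd = mu * x.snd := rfl

lemma gi_g (x : E2) : gi (g x) = x := by
  have h := mu_nu
  apply E2_ext
  · rw [gi_fst, g_fst, ← mul_assoc, mul_comm nu, h, one_mul]
  · rw [gi_snd, g_snd, ← mul_assoc, h, one_mul]

lemma g_gi (x : E2) : g (gi x) = x := by
  have h := mu_nu
  apply E2_ext
  · rw [g_fst, gi_fst, ← mul_assoc, h, one_mul]
  · rw [g_snd, gi_snd, ← mul_assoc, mul_comm nu, h, one_mul]

lemma g_Gam {x : E2} (h : x ∈ Gam) : g x ∈ Gam := by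
  obtain ⟨m, n, h1, h2⟩ := mem_Gam.1 h
  have hmn := mu_nu
  have hT := mu_add
  apply mem_Gam.2
  refine ⟨m * T - n, m, ?_, ?_⟩
  · rw [g_fst, h1]; push_cast; rw [← hT]; linear_combination (-(n:ℝ)) * hmn
  · rw [g_snd, h2]; push_cast; rw [← hT]; linear_combination (-(n:ℝ)) * hmn

lemma gi_Gam {x : E2} (h : x ∈ Gam) : gi x ∈ Gam := by
  obtain ⟨m, n, h1, h2⟩ := mem_Gam.1 h
  have hmn := mu_nu
  have hT := mu_add
  apply mem_Gam.2
  refine ⟨n, n * T - m, ?_, ?_⟩
  · rw [gi_fst, h1]; push_cast; rw [← hT]; linear_combination (n:ℝ) * hmn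
  · rw [gi_snd, h2]; push_cast; rw [← hT]; linear_combination (n:ℝ) * hmn

noncomputable def mmL : E2 →L[ℝ] ℝ :=
  LinearMap.toContinuousLinearMap
    { toFun := fun v => v.fst + nu / (mu - nu) * (v.fst - v.snd)
      map_add' := by
        intro x y
        show (x.fst + y.fst) + nu / (mu - nu) * ((x.fst + y.fst) - (x.snd + y.snd)) = _
        ring
      map_smul' := by
        intro r x
        show (r * x.fst) + nu / (mu - nu) * ((r * x.fst) - (r * x.snd)) = r * _
        ring }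

lemma mm_apply (x : E2) : mmL x = x.fst + nu / (mu - nu) * (x.fst - x.snd) := rfl

lemma munu : 10^5 ≤ mu - nu := by
  have h1 := mu_big
  have h2 := nu_small
  norm_num at h1 h2 ⊢
  linarith

lemma mm_Gam {x : E2} (h : x ∈ Gam) : ∃ m : ℤ, mmL x = m := by
  obtain ⟨m, n, h1, h2⟩ := mem_Gam.1 h
  refine ⟨m, ?_⟩
  have h3 : mu - nu ≠ 0 := by have := munu; intro h; rw [h] at this; norm_num at this
  rw [mm_apply, h1, h2]
  field_simp
  ring

noncomputable def psi (r : E2) : E4 := psi0 (mmL r)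

lemma psi_add (r : E2) {x : E2} (h : x ∈ Gam) : psi (r + x) = psi r := by
  obtain ⟨m, hm⟩ := mm_Gam h
  unfold psi
  rw [map_add, hm]
  have := psi0_per.int_mul m (mmL r)
  rwa [mul_one] at this

noncomputable def F (q : CT) : CT := WithLp.toLp 2 (Bc q.fst - psi q.snd, g q.snd)
noncomputable def G (q : CT) : CT := WithLp.toLp 2 (A (q.fst + psi (gi q.snd)), gi q.snd)

lemma F_fst (q : CT) : (F q).fst = Bc q.fst - psi q.snd := rfl
lemma F_snd (q : CT) : (F q).snd = g q.snd := rfl
lemma G_fst (q : CT) : (G q).fst = A (q.fst + psi (gi q.snd)) := rfl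
lemma G_snd (q : CT) : (G q).snd = gi q.snd := rfl

lemma CT_ext {x y : CT} (h1 : x.fst = y.fst) (h2 : x.snd = y.snd) : x = y :=
  WithLp.ofLp_injective 2 (Prod.ext h1 h2)
lemma MT_ext {x y : MT} (h1 : x.fst = y.fst) (h2 : x.snd = y.snd) : x = y :=
  WithLp.ofLp_injective 2 (Prod.ext h1 h2)

lemma GF (q : CT) : G (F q) = q := by
  apply CT_ext
  · rw [G_fst, F_fst, F_snd, gi_g, sub_add_cancel, A_Bc]
  · rw [G_snd, F_snd, gi_g]

lemma FG (q : CT) : F (G q) = q := by
  apply CT_ext
  · rw [F_fst, G_fst, G_snd, Bc_A, add_sub_cancel_right]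
  · rw [F_snd, G_snd, g_gi]

noncomputable def projT (q : CT) : MT := WithLp.toLp 2 (q.fst, (q.snd : Tor))
noncomputable def sec (x : MT) : CT := WithLp.toLp 2 (x.fst, Quotient.out x.snd)

lemma projT_fst (q : CT) : (projT q).fst = q.fst := rfl
lemma projT_snd (q : CT) : (projT q).snd = (q.snd : Tor) := rfl

lemma proj_sec (x : MT) : projT (sec x) = x := by
  apply MT_ext
  · rfl
  · exact QuotientAddGroup.out_eq' x.snd

lemma proj_eq {q q' : CT} (h : projT q = projT q') :
    q.fst = q'.fst ∧ ∃ γ ∈ Gam, q'.snd = q.snd + γ := by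
  constructor
  · have := congrArg WithLp.fst h
    exact this
  · have h1 : ((q.snd : E2) : Tor) = (q'.snd : Tor) := congrArg WithLp.snd h
    rw [QuotientAddGroup.eq] at h1
    exact ⟨_, h1, by abel⟩

lemma proj_eq' {q q' : CT} (h1 : q.fst = q'.fst) {γ : E2} (hγ : γ ∈ Gam) (h2 : q'.snd = q.snd + γ) :
    projT q = projT q' := by
  apply MT_ext
  · exact h1
  · show ((q.snd : E2) : Tor) = (q'.snd : Tor)
    rw [QuotientAddGroup.eq, h2]
    simpa using hγ

lemma F_inv {q q' : CT} (h : projT q = projT q') : projT (F q) = projT (F q') := by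
  obtain ⟨h1, γ, hγ, h2⟩ := proj_eq h
  apply proj_eq' _ (g_Gam hγ)
  · rw [F_snd, F_snd, h2, map_add]
  · rw [F_fst, F_fst, h1, h2, psi_add _ hγ]

lemma G_inv {q q' : CT} (h : projT q = projT q') : projT (G q) = projT (G q') := by
  obtain ⟨h1, γ, hγ, h2⟩ := proj_eq h
  apply proj_eq' _ (gi_Gam hγ)
  · rw [G_snd, G_snd, h2, map_add]
  · have h3 : gi (q.snd + γ) = gi q.snd + gi γ := map_add _ _ _
    rw [G_fst, G_fst, h1, h2, h3, psi_add _ (gi_Gam hγ)]

lemma f1 (q : CT) : projT (F (sec (projT q))) = projT (F q) := F_inv (proj_sec _)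
lemma g1 (q : CT) : projT (G (sec (projT q))) = projT (G q) := G_inv (proj_sec _)

noncomputable def f : MT ≃ MT where
  toFun x := projT (F (sec x))
  invFun x := projT (G (sec x))
  left_inv x := by
    show projT (G (sec (projT (F (sec x))))) = x
    rw [g1, GF, proj_sec]
  right_inv x := by
    show projT (F (sec (projT (G (sec x))))) = x
    rw [f1, FG, proj_sec]

lemma f_proj (q : CT) : f (projT q) = projT (F q) := f1 q
lemma fs_proj (q : CT) : f.symm (projT q) = projT (G q) := g1 q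

noncomputable def eC : CT ≃L[ℝ] (E4 × E2) := WithLp.prodContinuousLinearEquiv 2 ℝ E4 E2
lemma eC_symm (x : E4 × E2) : eC.symm x = WithLp.toLp 2 x := rfl
lemma eC_fst (q : CT) : (eC q).1 = q.fst := rfl
lemma eC_snd (q : CT) : (eC q).2 = q.snd := rfl

lemma F_eq : F = fun q => eC.symm ((fun r : E4 × E2 => (Bc r.1 - psi r.2, g r.2)) (eC q)) := by
  funext q
  show F q = eC.symm (Bc (eC q).1 - psi (eC q).2, g (eC q).2)
  rw [eC_symm, eC_fst, eC_snd, F]

lemma G_eq : G = fun q => eC.symm ((fun r : E4 × E2 => (A (r.1 + psi (gi r.2)), gi r.2)) (eC q)) := by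
  funext q
  show G q = eC.symm (A ((eC q).1 + psi (gi (eC q).2)), gi (eC q).2)
  rw [eC_symm, eC_fst, eC_snd, G]

lemma psi_smooth : ContDiff ℝ ∞ psi := psi0_smooth.comp mmL.contDiff

lemma F_smooth : ContDiff ℝ ∞ F := by
  rw [F_eq]
  apply eC.symm.contDiff.comp
  apply ContDiff.comp (g := fun r : E4 × E2 => (Bc r.1 - psi r.2, g r.2)) _ eC.contDiff
  apply ContDiff.prodMk
  · exact (Bc.contDiff.comp contDiff_fst).sub (psi_smooth.comp contDiff_snd)
  · exact g.contDiff.comp contDiff_snd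

lemma G_smooth : ContDiff ℝ ∞ G := by
  rw [G_eq]
  apply eC.symm.contDiff.comp
  apply ContDiff.comp (g := fun r : E4 × E2 => (A (r.1 + psi (gi r.2)), gi r.2)) _ eC.contDiff
  apply ContDiff.prodMk
  · exact A.contDiff.comp (contDiff_fst.add (psi_smooth.comp (gi.contDiff.comp contDiff_snd)))
  · exact gi.contDiff.comp contDiff_snd

lemma F_deriv {q : CT} (hq : ∀ᶠ r in 𝓝 q.snd, psi r = psi q.snd) : HasFDerivAt F
    ((eC.symm : (E4 × E2) →L[ℝ] CT).comp
      (((Bc.comp (ContinuousLinearMap.fst ℝ E4 E2)).prod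
        (g.comp (ContinuousLinearMap.snd ℝ E4 E2))).comp (eC : CT →L[ℝ] (E4 × E2)))) q := by
  rw [F_eq]
  apply (eC.symm : (E4 × E2) →L[ℝ] CT).hasFDerivAt.comp
  apply HasFDerivAt.comp q (g := fun r : E4 × E2 => (Bc r.1 - psi r.2, g r.2)) _
    (eC : CT →L[ℝ] (E4 × E2)).hasFDerivAt
  apply HasFDerivAt.prodMk
  · have h1 : HasFDerivAt psi (0 : E2 →L[ℝ] E4) (eC q).2 := by
      apply (hasFDerivAt_const (psi q.snd) (eC q).2).congr_of_eventuallyEq
      exact hq
    have h2 := (Bc.hasFDerivAt (x := (eC q).1)).comp (eC q) (hasFDerivAt_fst (𝕜 := ℝ))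
    have h3 := h1.comp (eC q) (hasFDerivAt_snd (𝕜 := ℝ))
    have h4 := h2.sub h3
    have h5 : Bc.comp (ContinuousLinearMap.fst ℝ E4 E2) =
        Bc.comp (ContinuousLinearMap.fst ℝ E4 E2) - (0 : E2 →L[ℝ] E4).comp (ContinuousLinearMap.snd ℝ E4 E2) := by
      rw [ContinuousLinearMap.zero_comp, sub_zero]
    rw [h5]
    exact h4
  · exact g.hasFDerivAt.comp (eC q) hasFDerivAt_snd

lemma F_fderiv {q : CT} (hq : ∀ᶠ r in 𝓝 q.snd, psi r = psi q.snd) (v : CT) :
    fderiv ℝ F q v = WithLp.toLp 2 (Bc v.fst, g v.snd) := by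
  rw [(F_deriv hq).fderiv]
  rfl

end H342R3.SC
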