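import Pool.Agent.H342R3.SC2

set_option autoImplicit false
set_option maxHeartbeats 1000000
set_option synthInstance.maxHeartbeats 400000
set_option linter.unusedSectionVars false
set_option linter.unusedVariables false

namespace H342R3.SC

open scoped ENNReal Topology ContDiff
open Filter H342R3.SA

def Box (s : S) : Set E2 :=
  {r | (cc s : ℝ)/mu < r.fst ∧ r.fst < ((cc s : ℝ) + 1/4)/mu ∧ -8241 < r.snd ∧ r.snd < 0}

lemma cont_fst : Continuous (fun r : E2 => r.fst) := WithLp.continuous_fst 2 ℝ ℝ
lemma cont_snd : Continuous (fun r : E2 => r.snd) := WithLp.continuous_snd 2 ℝ ℝ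

lemma Box_open (s : S) : IsOpen (Box s) :=
  (isOpen_lt continuous_const cont_fst).inter ((isOpen_lt cont_fst continuous_const).inter
    ((isOpen_lt continuous_const cont_snd).inter (isOpen_lt cont_snd continuous_const)))

lemma Box_fst {s : S} {r : E2} (h : r ∈ Box s) : 0 < r.fst ∧ r.fst < 1/2 ∧ (cc s : ℝ) < mu * r.fst ∧
    mu * r.fst < cc s + 1/4 := by
  have hm := mu_pos
  have hb := mu_big
  obtain ⟨h1, h2, h3, h4⟩ := h
  have hc : (cc s : ℝ) ≤ 8239 := by exact_mod_cast cc_le s
  have hc0 : (1:ℝ) ≤ cc s := by exact_mod_cast cc_pos s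
  rw [div_lt_iff₀ hm] at h1
  rw [lt_div_iff₀ hm] at h2
  refine ⟨?_, ?_, by linarith, by linarith⟩
  · by_contra hh
    push Not at hh
    nlinarith
  · by_contra hh
    push Not at hh
    nlinarith

lemma psi_val {s : S} {r : E2} (h : r ∈ Box s) : psi r = Dv s := by
  have hm := mu_pos
  have hmn := munu
  obtain ⟨a1, a2, a3, a4⟩ := Box_fst h
  obtain ⟨h1, h2, h3, h4⟩ := h
  apply psi0_val
  rw [mm_apply]
  have hpos : 0 < mu - nu := by linarith
  have e1 : nu / (mu - nu) * (r.fst - r.snd) = (r.fst - r.snd) / (mu - nu) / mu := by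
    rw [nu_eq]; field_simp
  have e2 : (r.fst - r.snd) / (mu - nu) < 1/4 := by
    rw [div_lt_iff₀ hpos]; linarith
  have e3 : 0 < (r.fst - r.snd) / (mu - nu) := div_pos (by linarith) hpos
  rw [e1]
  constructor
  · have : 0 < (r.fst - r.snd) / (mu - nu) / mu := div_pos e3 hm
    linarith
  · have h5 : (r.fst - r.snd) / (mu - nu) / mu < (1/4)/mu := div_lt_div_of_pos_right e2 hm
    calc r.fst + (r.fst - r.snd) / (mu - nu) / mu < ((cc s : ℝ) + 1/4)/mu + (1/4)/mu := by linarith
      _ = ((cc s : ℝ) + 1/2)/mu := by ring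

noncomputable def rr (s t : ℕ → S) : E2 := WithLp.toLp 2 (W s, -(mu * W t))
noncomputable def qq (s t : ℕ → S) : CT := WithLp.toLp 2 (Phi (D u) s, rr s t)
noncomputable def Th (x : (ℕ → S) × (ℕ → S)) : MT := projT (qq x.1 x.2)

lemma rr_mem (s t : ℕ → S) : rr s t ∈ Box (s 0) := by
  have hm := mu_pos
  have h1 := W_eq s
  have h2 := W_pos (sh s)
  have h3 := W_lt' (sh s)
  have h4 := W_eq t
  have h5 := W_pos t
  have h6 := W_lt' (sh t)
  have hc : (cc (t 0) : ℝ) ≤ 8239 := by exact_mod_cast cc_le _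
  refine ⟨?_, ?_, ?_, ?_⟩
  · show (cc (s 0) : ℝ)/mu < W s
    rw [div_lt_iff₀ hm]; linarith
  · show W s < _
    rw [lt_div_iff₀ hm]; linarith
  · show -8241 < -(mu * W t)
    linarith
  · show -(mu * W t) < 0
    have : 0 < mu * W t := by positivity
    linarith

lemma Th_cont : Continuous Th := by
  apply (WithLp.prod_continuous_toLp 2 E4 Tor).comp
  apply Continuous.prodMk
  · exact (Phi_cont (D u)).comp continuous_fst
  · have h1 : Continuous (fun x : (ℕ → S) × (ℕ → S) => rr x.1 x.2) := by
      apply (WithLp.prod_continuous_toLp 2 ℝ ℝ).comp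
      exact (W_cont.comp continuous_fst).prodMk (continuous_const.mul (W_cont.comp continuous_snd)).neg
    exact (QuotientAddGroup.continuous_mk (N := Gam)).comp h1

lemma W_cons (i : S) (t : ℕ → S) : mu * W (cons i t) = cc i + W t := W_eq (cons i t)

lemma f_Th (s t : ℕ → S) : f (Th (s, t)) = Th (sh s, cons (s 0) t) := by
  show f (projT (qq s t)) = projT (qq (sh s) (cons (s 0) t))
  rw [f_proj]
  symm
  apply proj_eq' (γ := WithLp.toLp 2 ((cc (s 0) : ℝ), (cc (s 0) : ℝ)))
  · show Phi (D u) (sh s) = Bc (Phi (D u) s) - psi (rr s t)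
    rw [psi_val (rr_mem s t), Phi_sh]
  · apply mem_Gam.2
    refine ⟨cc (s 0), 0, ?_, ?_⟩
    · show (cc (s 0) : ℝ) = _
      push_cast; ring
    · show (cc (s 0) : ℝ) = _
      push_cast; ring
  · apply E2_ext
    · show mu * W s = W (sh s) + cc (s 0)
      rw [W_eq]; ring
    · show nu * -(mu * W t) = -(mu * W (cons (s 0) t)) + cc (s 0)
      rw [W_cons]
      have := mu_nu
      linear_combination (-(W t)) * this

noncomputable def Lam : Set MT := Set.range Th

lemma Lam_compact : IsCompact Lam := isCompact_range Th_cont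
lemma Lam_ne : Lam.Nonempty := ⟨_, ⟨(fun _ => Sum.inr 0, fun _ => Sum.inr 0), rfl⟩⟩

lemma f_Th' (s t : ℕ → S) : f (Th (cons (t 0) s, sh t)) = Th (s, t) := by
  rw [f_Th]
  have h1 : sh (cons (t 0) s) = s := rfl
  have h2 : cons ((cons (t 0) s) 0) (sh t) = t := (s_cons t).symm
  rw [h1, h2]

lemma fs_Th (s t : ℕ → S) : f.symm (Th (s, t)) = Th (cons (t 0) s, sh t) := by
  rw [← f_Th' s t, Equiv.symm_apply_apply]

lemma f_Lam : f '' Lam = Lam := by
  ext x
  constructor
  · rintro ⟨_, ⟨⟨s, t⟩, rfl⟩, rfl⟩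
    exact ⟨(sh s, cons (s 0) t), (f_Th s t).symm⟩
  · rintro ⟨⟨s, t⟩, rfl⟩
    exact ⟨Th (cons (t 0) s, sh t), ⟨_, rfl⟩, f_Th' s t⟩

lemma fit_Lam {x : MT} (h : x ∈ Lam) (n : ℕ) : f^[n] x ∈ Lam := by
  induction n with
  | zero => exact h
  | succ n ih =>
    rw [Function.iterate_succ_apply']
    rw [← f_Lam]
    exact ⟨_, ih, rfl⟩

lemma fsit_Lam {x : MT} (h : x ∈ Lam) (n : ℕ) : f.symm^[n] x ∈ Lam := by
  induction n with
  | zero => exact h
  | succ n ih =>
    rw [Function.iterate_succ_apply']
    obtain ⟨⟨s, t⟩, hst⟩ := ih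
    rw [← hst, fs_Th]
    exact ⟨_, rfl⟩

noncomputable def VV : Set Tor := ⋃ s : S, (fun r : E2 => (r : Tor)) '' (Box s)

lemma VV_open : IsOpen VV := by
  apply isOpen_iUnion
  intro s
  exact QuotientAddGroup.isOpenMap_coe _ (Box_open s)

lemma step {s s' : S} {r r' : E2} (hr : r ∈ Box s) (hr' : r' ∈ Box s')
    (h : ((g r : E2) : Tor) = (r' : Tor)) :
    r'.fst = mu * r.fst - cc s ∧ r'.snd = nu * r.snd - cc s := by
  rw [QuotientAddGroup.eq] at h
  obtain ⟨m, n, h1, h2⟩ := mem_Gam.1 h
  have e1 : r'.fst - mu * r.fst = m - n * nu := by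
    rw [← h1]
    show _ = -(mu * r.fst) + r'.fst
    ring
  have e2 : r'.snd - nu * r.snd = m - n * mu := by
    rw [← h2]
    show _ = -(nu * r.snd) + r'.snd
    ring
  obtain ⟨a1, a2, a3, a4⟩ := Box_fst hr
  obtain ⟨b1, b2, b3, b4⟩ := Box_fst hr'
  have c1 := hr.2.2.1
  have c2 := hr.2.2.2
  have c3 := hr'.2.2.1
  have c4 := hr'.2.2.2
  have hnu := nu_small
  have hnu0 := nu_pos
  have hmn := munu
  have hc : (cc s : ℝ) ≤ 8239 := by exact_mod_cast cc_le s
  have hn1 : -1 < nu * r.snd := by
    have : -(1:ℝ) < 1/10^6 * -8241 := by norm_num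
    nlinarith
  have hn2 : nu * r.snd < 0 := by nlinarith
  have e3 : (n:ℝ) * (mu - nu) = (r'.fst - mu * r.fst) - (r'.snd - nu * r.snd) := by
    rw [e1, e2]; ring
  have hn0 : n = 0 := by
    by_contra hne
    have h3 : (1:ℝ) ≤ |(n:ℝ)| := by
      have := Int.one_le_abs hne
      exact_mod_cast this
    have h4 : |(n:ℝ) * (mu - nu)| < 10^5 := by
      rw [e3, abs_lt]
      norm_num
      constructor <;> linarith
    rw [abs_mul, abs_of_pos (by linarith : (0:ℝ) < mu - nu)] at h4
    nlinarith
  rw [hn0] at e1 e2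
  have hm : m = -(cc s : ℤ) := by
    have h5 : |(m:ℝ) + cc s| < 1 := by
      have h6 : (m:ℝ) = r'.fst - mu * r.fst := by rw [e1]; push_cast; ring
      rw [h6, abs_lt]
      constructor <;> linarith
    have h7 : |m + (cc s : ℤ)| < 1 := by exact_mod_cast h5
    have := Int.abs_lt_one_iff.1 h7
    linarith
  rw [hm] at e1 e2
  push_cast at e1 e2
  constructor <;> linarith

lemma locmax : ∃ U : Set MT, IsOpen U ∧ Lam ⊆ U ∧
    Lam = {x | ∀ n : ℕ, f^[n] x ∈ U ∧ f.symm^[n] x ∈ U} := by
  obtain ⟨B, hB0, hB⟩ := exists_B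
  have hm := mu_pos
  have hb := mu_big
  set U : Set MT := {x | ‖x.fst‖ < B ∧ x.snd ∈ VV} with hU
  have hUo : IsOpen U := by
    apply IsOpen.inter
    · exact isOpen_lt (WithLp.continuous_fst 2 E4 Tor).norm continuous_const
    · exact VV_open.preimage (WithLp.continuous_snd 2 E4 Tor)
  have hsub : Lam ⊆ U := by
    rintro _ ⟨⟨s, t⟩, rfl⟩
    exact ⟨hB s, Set.mem_iUnion.2 ⟨s 0, rr s t, rr_mem s t, rfl⟩⟩
  refine ⟨U, hUo, hsub, ?_⟩
  apply Set.Subset.antisymm
  · intro x hx n
    exact ⟨hsub (fit_Lam hx n), hsub (fsit_Lam hx n)⟩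
  · intro x hx
    have h1 : ∀ y : MT, y ∈ U → ∃ (s : S) (r : E2), r ∈ Box s ∧ (r : Tor) = y.snd := by
      rintro y ⟨_, hy⟩
      obtain ⟨s, r, h2, h3⟩ := Set.mem_iUnion.1 hy
      exact ⟨s, r, h2, h3⟩
    choose! sy ry hy1 hy2 using h1
    have hrep : ∀ y ∈ U, y = projT (WithLp.toLp 2 (y.fst, ry y)) := by
      intro y hy
      apply MT_ext
      · rfl
      · exact (hy2 y hy).symm
    have hf1 : ∀ y ∈ U, (f y).fst = Bc y.fst - Dv (sy y) := by
      intro y hy
      conv_lhs => rw [hrep y hy]
      rw [f_proj]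
      show Bc y.fst - psi (ry y) = _
      rw [psi_val (hy1 y hy)]
    have hf2 : ∀ y ∈ U, (f y).snd = ((g (ry y) : E2) : Tor) := by
      intro y hy
      conv_lhs => rw [hrep y hy]
      rw [f_proj]
      rfl
    have hstep : ∀ y ∈ U, f y ∈ U → (ry (f y)).fst = mu * (ry y).fst - cc (sy y) ∧
        (ry (f y)).snd = nu * (ry y).snd - cc (sy y) := by
      intro y hy hfy
      apply step (hy1 y hy) (hy1 _ hfy)
      rw [hy2 _ hfy, hf2 y hy]
    set X : ℕ → MT := fun n => f^[n] x with hX
    set Y : ℕ → MT := fun n => f.symm^[n] x with hY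
    have hXU : ∀ n, X n ∈ U := fun n => (hx n).1
    have hYU : ∀ n, Y n ∈ U := fun n => (hx n).2
    have hXs : ∀ n, X (n+1) = f (X n) := fun n => Function.iterate_succ_apply' _ _ _
    have hYs : ∀ n, f (Y (n+1)) = Y n := by
      intro n
      have : Y (n+1) = f.symm (Y n) := Function.iterate_succ_apply' _ _ _
      rw [this, Equiv.apply_symm_apply]
    set s : ℕ → S := fun n => sy (X n) with hs
    set t : ℕ → S := fun n => sy (Y (n+1)) with ht
    have sh_add : ∀ (v : ℕ → S) n, sh (fun k => v (k+n)) = fun k => v (k+(n+1)) := by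
      intro v n
      funext k
      show v (k+1+n) = v (k+(n+1))
      congr 1; omega
    have hW : (ry x).fst = W s := by
      have := growth (fun n => (ry (X n)).fst - W (fun k => s (k+n))) (a := mu) (B := 1) (by linarith)
        (fun n => by
          have h2 := (hstep (X n) (hXU n) (by rw [← hXs]; exact hXU (n+1))).1
          rw [← hXs] at h2
          have h3 := W_eq (fun k => s (k+n))
          rw [sh_add] at h3
          simp only [Nat.zero_add] at h3
          have h5 : (ry (X (n+1))).fst - W (fun k => s (k+(n+1))) = mu * ((ry (X n)).fst - W (fun k => s (k+n))) := by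
            rw [mul_sub, h2, h3]; ring
          rw [h5, norm_mul, Real.norm_of_nonneg hm.le])
        (fun n => by
          obtain ⟨a1, a2, _, _⟩ := Box_fst (hy1 _ (hXU n))
          have a3 := W_pos (fun k => s (k+n))
          have a4 := W_lt' (fun k => s (k+n))
          rw [Real.norm_eq_abs, abs_le]
          constructor <;> linarith)
      simp only [Nat.add_zero] at this
      exact sub_eq_zero.1 this
    have hP : x.fst = Phi (D u) s := by
      have := growth (fun n => (X n).fst - Phi (D u) (fun k => s (k+n))) (a := 8) (B := 2 * B) (by norm_num)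
        (fun n => by
          have h2 := hf1 (X n) (hXU n)
          rw [← hXs] at h2
          have h3 := Phi_sh (fun k => s (k+n))
          rw [sh_add] at h3
          simp only [Nat.zero_add] at h3
          rw [h2, ← h3]
          have h5 : Bc (X n).fst - Dv (sy (X n)) - (Bc (Phi (D u) fun k => s (k+n)) - Dv (s n)) =
              Bc ((X n).fst - Phi (D u) (fun k => s (k+n))) := by
            rw [map_sub]
            show _ - Dv (s n) - _ = _
            abel
          rw [h5]
          exact Bc_norm _)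
        (fun n => by
          have a1 := (hXU n).1
          have a2 := hB (fun k => s (k+n))
          exact (norm_sub_le _ _).trans (by linarith))
      simp only [Nat.add_zero] at this
      exact sub_eq_zero.1 this
    have hW2 : (ry x).snd = -(mu * W t) := by
      have := growth (fun n => (ry (Y n)).snd + mu * W (fun k => t (k+n))) (a := mu) (B := 20000) (by linarith)
        (fun n => by
          have h2 := (hstep (Y (n+1)) (hYU (n+1)) (by rw [hYs]; exact hYU n)).2
          rw [hYs] at h2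
          have h3 := W_eq (fun k => t (k+n))
          rw [sh_add] at h3
          simp only [Nat.zero_add] at h3
          have h4 : (sy (Y (n+1))) = t n := rfl
          rw [h4] at h2
          have h5 : (ry (Y (n+1))).snd + mu * W (fun k => t (k+(n+1))) =
              mu * ((ry (Y n)).snd + mu * W (fun k => t (k+n))) := by
            rw [h2, h3]
            have := mu_nu
            linear_combination (-(ry (Y (n+1))).snd) * this
          rw [h5, norm_mul, Real.norm_of_nonneg hm.le])
        (fun n => by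
          have a1 := (hy1 _ (hYU n)).2.2.1
          have a2 := (hy1 _ (hYU n)).2.2.2
          have a3 := W_eq (fun k => t (k+n))
          have a4 := W_pos (fun k => t (k+n))
          have a5 := W_lt' (sh (fun k => t (k+n)))
          have a6 : (cc (t (0+n)) : ℝ) ≤ 8239 := by exact_mod_cast cc_le _
          have a7 : 0 < mu * W (fun k => t (k+n)) := by positivity
          rw [Real.norm_eq_abs, abs_le]
          constructor <;> linarith)
      simp only [Nat.add_zero] at this
      have h0 : (ry x).snd + mu * W t = 0 := this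
      linarith
    refine ⟨(s, t), ?_⟩
    have h9 : x = projT (WithLp.toLp 2 (x.fst, ry x)) := hrep x (hXU 0)
    conv_rhs => rw [h9]
    show projT (WithLp.toLp 2 (Phi (D u) s, rr s t)) = _
    congr 2
    rw [hP]
    congr 1
    exact E2_ext hW.symm hW2.symm

end H342R3.SC
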