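import Pool.Agent.H342R3.SC3

set_option autoImplicit false
set_option maxHeartbeats 1000000
set_option synthInstance.maxHeartbeats 400000
set_option linter.unusedSectionVars false
set_option linter.unusedVariables false

namespace H342R3.SC

open scoped ENNReal Topology ContDiff
open Filter H342R3.SA Nat

lemma dist_MT (x y : MT) : dist x y ≤ dist x.fst y.fst + dist x.snd y.snd := by
  rw [WithLp.prod_dist_eq_of_L2]
  have h1 : 0 ≤ dist x.fst y.fst := dist_nonneg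
  have h2 : 0 ≤ dist x.snd y.snd := dist_nonneg
  rw [Real.sqrt_le_left (by positivity)]
  nlinarith

lemma dist_E2 (x y : E2) : dist x y ≤ |x.fst - y.fst| + |x.snd - y.snd| := by
  rw [WithLp.prod_dist_eq_of_L2, Real.dist_eq, Real.dist_eq]
  have h1 : 0 ≤ |x.fst - y.fst| := abs_nonneg _
  have h2 : 0 ≤ |x.snd - y.snd| := abs_nonneg _
  rw [Real.sqrt_le_left (by positivity)]
  nlinarith

lemma fst_le (x y : MT) : dist x.fst y.fst ≤ dist x y := by
  rw [WithLp.prod_dist_eq_of_L2]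
  apply Real.le_sqrt_of_sq_le
  have h2 : 0 ≤ dist x.snd y.snd ^ 2 := by positivity
  linarith

lemma dist_coe (x y : E2) : dist (x : Tor) (y : Tor) ≤ dist x y := by
  rw [dist_eq_norm, dist_eq_norm, ← QuotientAddGroup.mk_sub]
  exact QuotientAddGroup.norm_mk_le_norm

lemma W_close {m : ℕ} {s s' : ℕ → S} (h : ∀ k < m, s k = s' k) :
    |W s - W s'| ≤ 1177 * (1/8)^(3*(200*m)) := by
  have hR := mu_pos
  have h1 := two_tails (f := fun k => (cc (s k) : ℝ)) (f' := fun k => (cc (s' k) : ℝ)) (B := 8239)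
    (r := 1/mu) (by norm_num) (by positivity) muinv_le (fun k => Nat.cast_nonneg _)
    (fun k => by exact_mod_cast cc_le _) (fun k => Nat.cast_nonneg _)
    (fun k => by exact_mod_cast cc_le _) m
  have h2 : ∑ k ∈ Finset.range m, (cc (s k) : ℝ) * ((1:ℝ)/mu)^(k+1) =
      ∑ k ∈ Finset.range m, (cc (s' k) : ℝ) * ((1:ℝ)/mu)^(k+1) :=
    Finset.sum_congr rfl (fun k hk => by rw [h k (Finset.mem_range.1 hk)])
  rw [h2, sub_self, abs_zero] at h1
  have h3 : |W s - W s'| ≤ 0 + 8239 * (1/mu)^m / 7 := h1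
  have h4 := mu_pow m
  linarith

noncomputable def C2 : ℝ := 160 + 1177 + 1177 * mu
lemma C2_ge : 160 ≤ C2 := by unfold C2; have := mu_pos; linarith

lemma upperT (K n m : ℕ) (hn : 3*n ≤ (K+1)!) (hm : n = 200*m) :
    NG Lam (C2 * (1/8)^(3*n)) ≤ 2 * 8^(n + K !) * (574^n * 79^(2*n)) * (8239^m * 8239^m) := by
  obtain ⟨p, hp1, hp2⟩ := exists_p K
  set Q := (Fin (2 * 8^(n + K !)) × (Fin n → (Fin 511 ⊕ Fin 63)) ×
    (Fin (2*n) → ((Fin 8 × Fin 2) ⊕ Fin 63))) × (Fin m → S) × (Fin m → S) with hQ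
  have hcard : Fintype.card Q = 2 * 8^(n + K !) * (574^n * 79^(2*n)) * (8239^m * 8239^m) := by
    rw [Fintype.card_prod, Fintype.card_prod (Fin m → S), Fintype.card_fun, card_S]
    simp
  rw [← hcard]
  apply NG_le (fun q : Q => Th '' {x | (code p K n x.1 = q.1.1 ∧ (∀ k : Fin n, k1 (x.1 k) = q.1.2.1 k) ∧
    ∀ k : Fin (2*n), k2 (x.1 (n+k)) = q.1.2.2 k) ∧ (∀ k : Fin m, x.1 k = q.2.1 k) ∧
      ∀ k : Fin m, x.2 k = q.2.2 k})
  · rintro q _ ⟨⟨s, t⟩, ⟨⟨a1, a2, a3⟩, a4, a5⟩, rfl⟩ _ ⟨⟨s', t'⟩, ⟨⟨b1, b2, b3⟩, b4, b5⟩, rfl⟩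
    simp only at a1 a2 a3 a4 a5 b1 b2 b3 b4 b5
    have h1 : dist (Phi (D u) s) (Phi (D u) s') ≤ 160 * (1/8)^(3*n) := by
      apply close hn hp2 (a1.trans b1.symm)
      · intro k hk
        exact (a2 ⟨k, hk⟩).trans (b2 ⟨k, hk⟩).symm
      · intro k hk1 hk2
        have h3 := (a3 ⟨k - n, by omega⟩).trans (b3 ⟨k - n, by omega⟩).symm
        simp only at h3
        rwa [Nat.add_sub_cancel' hk1] at h3
    have h2 := W_close (m := m) (s := s) (s' := s') (fun k hk => (a4 ⟨k, hk⟩).trans (b4 ⟨k, hk⟩).symm)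
    have h2' := W_close (m := m) (s := t) (s' := t') (fun k hk => (a5 ⟨k, hk⟩).trans (b5 ⟨k, hk⟩).symm)
    rw [← hm] at h2 h2'
    have h3 : dist (Th (s, t)).snd (Th (s', t')).snd ≤
        1177 * (1/8)^(3*n) + mu * (1177 * (1/8)^(3*n)) := by
      refine (dist_coe (rr s t) (rr s' t')).trans ((dist_E2 _ _).trans ?_)
      apply _root_.add_le_add
      · exact h2
      · show |(-(mu * W t)) - (-(mu * W t'))| ≤ _
        have e1 : (-(mu * W t)) - (-(mu * W t')) = -(mu * (W t - W t')) := by ring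
        rw [e1, abs_neg, abs_mul, abs_of_pos mu_pos]
        exact mul_le_mul_of_nonneg_left h2' mu_pos.le
    refine (dist_MT _ _).trans ?_
    have h1' : dist (Th (s, t)).fst (Th (s', t')).fst ≤ 160 * (1/8)^(3*n) := h1
    have : C2 * (1/8)^(3*n) = 160 * (1/8)^(3*n) + (1177 * (1/8)^(3*n) + mu * (1177 * (1/8)^(3*n))) := by
      unfold C2; ring
    rw [this]
    exact _root_.add_le_add h1' h3
  · rintro _ ⟨⟨s, t⟩, rfl⟩
    rw [Set.mem_iUnion]
    exact ⟨((⟨code p K n s, code_lt hp1 n s⟩, fun k => k1 (s k), fun k => k2 (s (n+k))),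
      (fun k => s k), fun k => t k),
      (s, t), ⟨⟨rfl, fun k => rfl, fun k => rfl⟩, fun k => rfl, fun k => rfl⟩, rfl⟩

lemma lowerT {K : ℕ} (hK : 2 ≤ K) :
    8^(K !) * 511^(K !) * 2^((K !) - (K-1)!) * 63^(2 * K !) ≤ NG Lam ((1/8)^(3 * K !)/4) := by
  refine (lower hK).trans ?_
  rw [← NG_E4]
  apply NG_map Lam_compact (by positivity) (fun x : MT => x.fst) fst_le
  rintro _ ⟨s, rfl⟩
  exact ⟨Th (s, s), ⟨(s, s), rfl⟩, rfl⟩

end H342R3.SC
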