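import Pool.Agent.H342R3.SC3

set_option autoImplicit false
set_option maxHeartbeats 1000000
set_option synthInstance.maxHeartbeats 400000
set_option linter.unusedSectionVars false
set_option linter.unusedVariables false

namespace H342R3.SC

open scoped ENNReal Topology ContDiff
open Filter H342R3.SA

/-! ### transitivity -/

def push (n : ℕ) (s t : ℕ → S) : ℕ → S := fun k => if k < n then s (n-1-k) else t (k-n)

lemma push_succ (n : ℕ) (s t : ℕ → S) : push n (sh s) (cons (s 0) t) = push (n+1) s t := by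
  funext k
  unfold push
  by_cases h : k < n
  · rw [if_pos h, if_pos (by omega)]
    show s (n-1-k+1) = s (n+1-1-k)
    congr 1; omega
  · rw [if_neg h]
    by_cases h2 : k = n
    · subst h2
      rw [if_pos (by omega), Nat.sub_self]
      show s 0 = s (k+1-1-k)
      congr 1; omega
    · rw [if_neg (by omega)]
      have h3 : k - n = (k - (n+1)) + 1 := by omega
      rw [h3]
      rfl

lemma f_itT (n : ℕ) (s t : ℕ → S) : f^[n] (Th (s, t)) = Th (sh^[n] s, push n s t) := by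
  induction n generalizing s t with
  | zero =>
    show Th (s, t) = Th (s, push 0 s t)
    congr 2
  | succ n ih =>
    rw [Function.iterate_succ_apply, f_Th, ih, push_succ]
    rfl

lemma sh_it (n : ℕ) (s : ℕ → S) (k : ℕ) : (sh^[n] s) k = s (k + n) := by
  induction n generalizing s with
  | zero => rfl
  | succ n ih =>
    rw [Function.iterate_succ_apply, ih]
    show s (k + n + 1) = s (k + (n+1))
    rfl

def mix (N : ℕ) (s t' s' : ℕ → S) : ℕ → S :=
  fun k => if k < N then s k else if k < 2*N then t' (2*N-1-k) else s' (k-2*N)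

lemma transitive (U V : Set MT) (hU : IsOpen U) (hV : IsOpen V) (h1 : (U ∩ Lam).Nonempty)
    (h2 : (V ∩ Lam).Nonempty) : ∃ n : ℕ, (f^[n] '' (U ∩ Lam) ∩ V).Nonempty := by
  obtain ⟨_, hxU, ⟨⟨s, t⟩, rfl⟩⟩ := h1
  obtain ⟨_, hyV, ⟨⟨s', t'⟩, rfl⟩⟩ := h2
  have e1 : Tendsto (fun N : ℕ => Th (mix N s t' s', t)) atTop (𝓝 (Th (s, t))) := by
    apply (Th_cont.tendsto _).comp
    apply Tendsto.prodMk_nhds _ tendsto_const_nhds
    rw [tendsto_pi_nhds]
    intro k
    apply tendsto_const_nhds.congr'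
    filter_upwards [eventually_gt_atTop k] with N hN
    unfold mix
    rw [if_pos hN]
  have e2 : Tendsto (fun N : ℕ => Th (s', push (2*N) (mix N s t' s') t)) atTop (𝓝 (Th (s', t'))) := by
    apply (Th_cont.tendsto _).comp
    apply Tendsto.prodMk_nhds tendsto_const_nhds
    rw [tendsto_pi_nhds]
    intro k
    apply tendsto_const_nhds.congr'
    filter_upwards [eventually_gt_atTop k] with N hN
    unfold push mix
    rw [if_pos (by omega), if_neg (by omega), if_pos (by omega)]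
    congr 1; omega
  have e3 := e1.eventually (hU.mem_nhds hxU)
  have e4 := e2.eventually (hV.mem_nhds hyV)
  obtain ⟨N, h5, h6⟩ := (e3.and e4).exists
  refine ⟨2*N, _, ⟨_, ⟨h5, ⟨_, rfl⟩⟩, rfl⟩, ?_⟩
  rw [f_itT]
  have h7 : sh^[2*N] (mix N s t' s') = s' := by
    funext k
    rw [sh_it]
    unfold mix
    rw [if_neg (by omega), if_neg (by omega)]
    congr 1; omega
  rw [h7]
  exact h6

/-! ### hyperbolicity -/

noncomputable def Es : Submodule ℝ CT where
  carrier := {v | v.fst = 0 ∧ v.snd.fst = 0}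
  add_mem' := by
    rintro a b ⟨h1, h2⟩ ⟨h3, h4⟩
    refine ⟨?_, ?_⟩
    · show a.fst + b.fst = 0
      rw [h1, h3, add_zero]
    · show a.snd.fst + b.snd.fst = 0
      rw [h2, h4, add_zero]
  zero_mem' := ⟨rfl, rfl⟩
  smul_mem' := by
    rintro c a ⟨h1, h2⟩
    refine ⟨?_, ?_⟩
    · show c • a.fst = 0
      rw [h1, smul_zero]
    · show c * a.snd.fst = 0
      rw [h2, mul_zero]

noncomputable def Eu : Submodule ℝ CT where
  carrier := {v | v.snd.snd = 0}
  add_mem' := by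
    intro a b h2 h4
    show a.snd.snd + b.snd.snd = 0
    rw [show a.snd.snd = 0 from h2, show b.snd.snd = 0 from h4, add_zero]
  zero_mem' := rfl
  smul_mem' := by
    intro c a h2
    show c * a.snd.snd = 0
    rw [show a.snd.snd = 0 from h2, mul_zero]

lemma EsEu : IsCompl Es Eu := by
  constructor
  · rw [Submodule.disjoint_def]
    rintro v ⟨h1, h2⟩ h3
    exact CT_ext h1 (E2_ext h2 h3)
  · rw [codisjoint_iff, Submodule.eq_top_iff']
    intro v
    rw [Submodule.mem_sup]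
    refine ⟨WithLp.toLp 2 (0, WithLp.toLp 2 (0, v.snd.snd)), ⟨rfl, rfl⟩,
      WithLp.toLp 2 (v.fst, WithLp.toLp 2 (v.snd.fst, 0)), rfl, ?_⟩
    apply CT_ext
    · show (0:E4) + v.fst = v.fst
      rw [zero_add]
    · apply E2_ext
      · show (0:ℝ) + v.snd.fst = v.snd.fst
        rw [zero_add]
      · show v.snd.snd + (0:ℝ) = v.snd.snd
        rw [add_zero]

lemma Lam_loc {q : CT} (hq : projT q ∈ Lam) : ∀ᶠ r in 𝓝 q.snd, psi r = psi q.snd := by
  obtain ⟨⟨s, t⟩, hst⟩ := hq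
  obtain ⟨h1, γ, hγ, h2⟩ := proj_eq (q := qq s t) (q' := q) hst
  have h3 : q.snd = rr s t + γ := h2
  have h4 : q.snd - γ ∈ Box (s 0) := by
    rw [h3, add_sub_cancel_right]; exact rr_mem s t
  have h5 : ∀ r : E2, r - γ ∈ Box (s 0) → psi r = Dv (s 0) := by
    intro r hr
    have := psi_add (r - γ) hγ
    rw [sub_add_cancel] at this
    rw [this, psi_val hr]
  rw [h5 _ h4]
  have h6 : IsOpen {r : E2 | r - γ ∈ Box (s 0)} :=
    (Box_open (s 0)).preimage (continuous_id.sub continuous_const)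
  filter_upwards [h6.mem_nhds h4] with r hr
  exact h5 r hr

lemma CT_norm_sq (v : CT) : ‖v‖^2 = ‖v.fst‖^2 + (v.snd.fst^2 + v.snd.snd^2) := by
  rw [WithLp.prod_norm_sq_eq_of_L2, WithLp.prod_norm_sq_eq_of_L2 v.snd, Real.norm_eq_abs,
    Real.norm_eq_abs, sq_abs, sq_abs]

lemma hyp {q : CT} (hq : projT q ∈ Lam) :
    (∀ v ∈ Es, fderiv ℝ F q v ∈ Es ∧ ‖fderiv ℝ F q v‖ ≤ 1/2 * ‖v‖) ∧
    (∀ v ∈ Eu, fderiv ℝ F q v ∈ Eu ∧ 2 * ‖v‖ ≤ ‖fderiv ℝ F q v‖) := by
  have hloc := Lam_loc hq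
  have hmu := mu_big
  have hmu0 := mu_pos
  have hnu := nu_small
  have hnu0 := nu_pos
  have hnu2 : nu ≤ 1/2 := hnu.trans (by norm_num)
  have hmu2 : 2 ≤ mu := le_trans (by norm_num) hmu
  constructor
  · rintro v ⟨h1, h2⟩
    rw [F_fderiv hloc]
    refine ⟨⟨?_, ?_⟩, ?_⟩
    · show Bc v.fst = 0
      rw [h1, map_zero]
    · show mu * v.snd.fst = 0
      rw [h2, mul_zero]
    · apply le_of_sq_le_sq _ (by positivity)
      rw [CT_norm_sq, mul_pow, CT_norm_sq]
      show ‖Bc v.fst‖^2 + ((mu * v.snd.fst)^2 + (nu * v.snd.snd)^2) ≤ _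
      rw [h1, h2, map_zero, norm_zero]
      have : (nu * v.snd.snd)^2 = nu^2 * v.snd.snd^2 := by ring
      rw [this]
      have h5 : nu^2 ≤ (1/2)^2 := pow_le_pow_left₀ hnu0.le hnu2 2
      have h6 : 0 ≤ v.snd.snd^2 := sq_nonneg _
      nlinarith
  · intro v h2
    have h2' : v.snd.snd = 0 := h2
    rw [F_fderiv hloc]
    refine ⟨?_, ?_⟩
    · show nu * v.snd.snd = 0
      rw [h2', mul_zero]
    · apply le_of_sq_le_sq _ (by positivity)
      rw [mul_pow, CT_norm_sq, CT_norm_sq]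
      show _ ≤ ‖Bc v.fst‖^2 + ((mu * v.snd.fst)^2 + (nu * v.snd.snd)^2)
      rw [h2']
      have h3 : 8 * ‖v.fst‖ ≤ ‖Bc v.fst‖ := Bc_norm _
      have h4 : (2 * ‖v.fst‖)^2 ≤ ‖Bc v.fst‖^2 :=
        pow_le_pow_left₀ (by positivity) (by have := norm_nonneg v.fst; linarith) 2
      have h5 : (2:ℝ)^2 ≤ mu^2 := pow_le_pow_left₀ (by norm_num) hmu2 2
      have h6 : 0 ≤ v.snd.fst^2 := sq_nonneg _
      have h7 : (2 * ‖v.fst‖)^2 = 2^2 * ‖v.fst‖^2 := by ring
      have h8 : (mu * v.snd.fst)^2 = mu^2 * v.snd.fst^2 := by ring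
      rw [h7] at h4
      rw [h8]
      have h9 : 2^2 * v.snd.fst^2 ≤ mu^2 * v.snd.fst^2 := mul_le_mul_of_nonneg_right h5 h6
      simp only [mul_zero]
      nlinarith

end H342R3.SC
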