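import Pool.Agent.H342R3.SC4
import Pool.Agent.H342R3.SC5

set_option autoImplicit false
set_option maxHeartbeats 1000000
set_option synthInstance.maxHeartbeats 400000
set_option linter.unusedSectionVars false
set_option linter.unusedVariables false

namespace H342R3.SC

open scoped ENNReal Topology ContDiff
open Filter H342R3.SA Nat

noncomputable def ratioT (δ : ℝ) : ℝ := Real.log (NG Lam δ) / -Real.log δ

lemma upper_ratioT {K : ℕ} (hK : 200 ≤ K)
    (hq : Real.log 2 + Real.log 8 + al1 * Real.log C2 ≤ ep1 * (((K+1)/3 : ℕ) : ℝ))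
    (hq2 : Real.log C2 < 3 * (((K+1)/3 : ℕ) : ℝ) * Real.log 8) :
    ratioT (C2 * (1/8)^(3 * (K ! * ((K+1)/3)))) ≤ al1 := by
  set q := (K+1)/3 with hqd
  have hq1 : 1 ≤ q := by omega
  set n := K ! * q with hn
  have hf1 : 1 ≤ K ! := Nat.one_le_iff_ne_zero.2 (Nat.factorial_ne_zero K)
  obtain ⟨m0, hm0⟩ : 200 ∣ K ! := Nat.dvd_factorial (by norm_num) hK
  have hnm : n = 200 * (m0 * q) := by rw [hn, hm0]; ring
  set m := m0 * q with hm
  have h3 : 3 * n ≤ (K+1)! := by
    rw [hn, Nat.factorial_succ]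
    calc 3 * (K ! * q) = (3 * q) * K ! := by ring
      _ ≤ (K+1) * K ! := Nat.mul_le_mul_right _ (by omega)
  have hN := upperT K n m h3 hnm
  have hL := L8
  have hC := C2_ge
  have hC0 : 0 < C2 := by linarith
  have hlogδ : Real.log (C2 * (1/8)^(3*n)) = Real.log C2 - 3 * n * Real.log 8 := by
    rw [Real.log_mul hC0.ne' (by positivity), log_pow8]; ring
  have hf1r : (1:ℝ) ≤ (K ! : ℝ) := by exact_mod_cast hf1
  have hnr : (n:ℝ) = K ! * q := by rw [hn]; push_cast; ring
  have hqn : (q:ℝ) ≤ n := by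
    rw [hnr]
    exact le_mul_of_one_le_left (Nat.cast_nonneg _) hf1r
  have hden : 0 < -Real.log (C2 * (1/8)^(3*n)) := by
    rw [hlogδ]; nlinarith
  have hmr : (m:ℝ) * Real.log 8239 = n * (Real.log 8239 / 200) := by
    rw [hnm]; push_cast; ring
  have hlogN : Real.log (NG Lam (C2 * (1/8)^(3*n))) ≤
      Real.log 2 + K ! * Real.log 8 + n * a1 := by
    have hR : Real.log ((2 * 8^(n + K !) * (574^n * 79^(2*n)) * (8239^m * 8239^m) : ℕ) : ℝ) =
        Real.log 2 + K ! * Real.log 8 + n * a1 := by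
      push_cast
      rw [Real.log_mul (by positivity) (by positivity), Real.log_mul (by positivity) (by positivity),
        Real.log_mul (by norm_num) (by positivity),
        Real.log_mul (by positivity) (by positivity), Real.log_mul (by positivity) (by positivity),
        Real.log_pow, Real.log_pow, Real.log_pow,
        Real.log_pow, hmr]
      unfold a1 a0
      push_cast
      ring
    rw [← hR]
    rcases Nat.eq_zero_or_pos (NG Lam (C2 * (1/8)^(3*n))) with h | h
    · rw [h, Nat.cast_zero, Real.log_zero]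
      apply Real.log_natCast_nonneg
    · exact Real.log_le_log (by exact_mod_cast h) (by exact_mod_cast hN)
  unfold ratioT
  rw [div_le_iff₀ hden, hlogδ]
  refine hlogN.trans ?_
  have e1 : al1 * -(Real.log C2 - 3 * n * Real.log 8) = (a1 + ep1) * n - al1 * Real.log C2 := by
    unfold al1; field_simp; ring
  rw [e1]
  have e2 : Real.log 2 + K ! * Real.log 8 + al1 * Real.log C2 ≤ K ! * (Real.log 2 + Real.log 8 + al1 * Real.log C2) := by
    have c1 : 0 ≤ Real.log 2 := Real.log_nonneg (by norm_num)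
    have c2 : 0 ≤ al1 * Real.log C2 := mul_nonneg al1_pos.le (Real.log_nonneg (by linarith))
    nlinarith
  have e3 : (K ! : ℝ) * (Real.log 2 + Real.log 8 + al1 * Real.log C2) ≤ K ! * (ep1 * q) :=
    mul_le_mul_of_nonneg_left hq (by positivity)
  have e4 : (K ! : ℝ) * (ep1 * q) = ep1 * n := by rw [hnr]; ring
  nlinarith

lemma lower_ratioT {K : ℕ} (hK : 2 ≤ K)
    (hq : be1 * Real.log 4 + Real.log 2 ≤ ep1 * K) :
    be1 ≤ ratioT ((1/8)^(3 * K !)/4) := by
  set n := K ! with hn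
  have hL := L8
  have hN := lowerT hK
  rw [← hn] at hN
  have hf1 : 1 ≤ (K-1)! := Nat.one_le_iff_ne_zero.2 (Nat.factorial_ne_zero _)
  have hnK : n = K * (K-1)! := by rw [hn]; exact (Nat.mul_factorial_pred (by omega)).symm
  have hle : (K-1)! ≤ n := by rw [hn]; exact Nat.factorial_le (by omega)
  have hlogδ : Real.log ((1/8)^(3 * n)/4) = -(3 * n * Real.log 8 + Real.log 4) := by
    rw [Real.log_div (by positivity) (by norm_num), log_pow8]; ring
  have hlog4 : 0 < Real.log 4 := Real.log_pos (by norm_num)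
  have hden : 0 < -Real.log ((1/8)^(3 * n)/4) := by
    rw [hlogδ]; have : (0:ℝ) ≤ n := Nat.cast_nonneg _; nlinarith
  have hlogN : n * b0 - (K-1)! * Real.log 2 ≤ Real.log (NG Lam ((1/8)^(3 * n)/4)) := by
    have hR : Real.log ((8^n * 511^n * 2^(n - (K-1)!) * 63^(2*n) : ℕ) : ℝ) =
        n * b0 - (K-1)! * Real.log 2 := by
      push_cast
      rw [Real.log_mul (by positivity) (by positivity), Real.log_mul (by positivity) (by positivity),
        Real.log_mul (by positivity) (by positivity), Real.log_pow, Real.log_pow, Real.log_pow,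
        Real.log_pow, Nat.cast_sub hle]
      unfold b0
      push_cast
      ring
    rw [← hR]
    apply Real.log_le_log _ (by exact_mod_cast hN)
    have : 0 < 8^n * 511^n * 2^(n - (K-1)!) * 63^(2*n) := by positivity
    exact_mod_cast this
  unfold ratioT
  rw [le_div_iff₀ hden, hlogδ]
  refine le_trans ?_ hlogN
  have e1 : be1 * -(-(3 * n * Real.log 8 + Real.log 4)) = (b0 - ep1) * n + be1 * Real.log 4 := by
    unfold be1; field_simp
  rw [e1]
  have hf1r : (1:ℝ) ≤ ((K-1)! : ℝ) := by exact_mod_cast hf1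
  have hnr : (n:ℝ) = K * (K-1)! := by rw [hnK]; push_cast; ring
  have c2 : 0 ≤ be1 * Real.log 4 := mul_nonneg be1_pos.le hlog4.le
  have e2 : be1 * Real.log 4 + (K-1)! * Real.log 2 ≤ (K-1)! * (be1 * Real.log 4 + Real.log 2) := by
    nlinarith
  have e3 : ((K-1)! : ℝ) * (be1 * Real.log 4 + Real.log 2) ≤ (K-1)! * (ep1 * K) :=
    mul_le_mul_of_nonneg_left hq (by positivity)
  have e4 : ((K-1)! : ℝ) * (ep1 * K) = ep1 * n := by rw [hnr]; ring
  nlinarith

lemma freq_lowT : ∃ᶠ δ in 𝓝[>] (0:ℝ), ratioT δ ≤ al1 := by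
  have hC := C2_ge
  have ht : Tendsto (fun K => C2 * (1/8:ℝ)^(3 * (K ! * ((K+1)/3)))) atTop (𝓝[>] 0) := by
    apply fac_tendsto (f := fun K => K ! * ((K+1)/3)) _ (by linarith)
    intro K hK
    have h1 := Nat.self_le_factorial K
    have h2 : 1 ≤ (K+1)/3 := by omega
    show K ≤ K ! * ((K+1)/3)
    calc K ≤ K ! := h1
      _ = K ! * 1 := (mul_one _).symm
      _ ≤ K ! * ((K+1)/3) := Nat.mul_le_mul_left _ h2
  apply ht.frequently
  apply Eventually.frequently
  obtain ⟨Q, hQ⟩ := exists_nat_ge ((Real.log 2 + Real.log 8 + al1 * Real.log C2) / ep1)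
  obtain ⟨Q2, hQ2⟩ := exists_nat_gt (Real.log C2 / (3 * Real.log 8))
  filter_upwards [eventually_ge_atTop (3 * Q + 3 * Q2 + 200)] with K hK
  have hL := L8
  apply upper_ratioT (by omega)
  · rw [div_le_iff₀ ep1_pos] at hQ
    refine hQ.trans ?_
    rw [mul_comm]
    apply mul_le_mul_of_nonneg_left _ ep1_pos.le
    have : Q ≤ (K+1)/3 := by omega
    exact_mod_cast this
  · rw [div_lt_iff₀ (by positivity)] at hQ2
    refine lt_of_lt_of_le hQ2 ?_
    have h1 : Q2 ≤ (K+1)/3 := by omega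
    have h2 : (Q2:ℝ) ≤ (((K+1)/3 : ℕ) : ℝ) := by exact_mod_cast h1
    nlinarith

lemma freq_highT : ∃ᶠ δ in 𝓝[>] (0:ℝ), be1 ≤ ratioT δ := by
  have ht : Tendsto (fun K => (1/4) * (1/8:ℝ)^(3 * K !)) atTop (𝓝[>] 0) :=
    fac_tendsto (f := fun K => K !) (fun K _ => Nat.self_le_factorial K) (by norm_num)
  apply ht.frequently
  apply Eventually.frequently
  obtain ⟨Q, hQ⟩ := exists_nat_ge ((be1 * Real.log 4 + Real.log 2) / ep1)
  filter_upwards [eventually_ge_atTop (Q + 2)] with K hK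
  have h1 : (1/4) * (1/8:ℝ)^(3 * K !) = (1/8)^(3 * K !)/4 := by ring
  rw [h1]
  apply lower_ratioT (by omega)
  rw [div_le_iff₀ ep1_pos] at hQ
  refine hQ.trans ?_
  rw [mul_comm]
  apply mul_le_mul_of_nonneg_left _ ep1_pos.le
  have : Q ≤ K := by omega
  exact_mod_cast this

lemma main_dimT : liminf (fun δ : ℝ => ((ratioT δ : ℝ) : EReal)) (𝓝[>] 0) <
    limsup (fun δ : ℝ => ((ratioT δ : ℝ) : EReal)) (𝓝[>] 0) := by
  have h1 : liminf (fun δ : ℝ => ((ratioT δ : ℝ) : EReal)) (𝓝[>] 0) ≤ (al1 : EReal) :=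
    liminf_le_of_frequently_le' (freq_lowT.mono (fun δ h => by exact_mod_cast h))
  have h2 : (be1 : EReal) ≤ limsup (fun δ : ℝ => ((ratioT δ : ℝ) : EReal)) (𝓝[>] 0) :=
    le_limsup_of_frequently_le' (freq_highT.mono (fun δ h => by exact_mod_cast h))
  exact lt_of_le_of_lt h1 (lt_of_lt_of_le (by exact_mod_cast al1_lt_be1) h2)

end H342R3.SC
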