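import Pool.Agent.H342R3.SC6

set_option autoImplicit false
set_option maxHeartbeats 1000000
set_option synthInstance.maxHeartbeats 400000
set_option linter.unusedSectionVars false
set_option linter.unusedVariables false

namespace H342R3.SC

open scoped ENNReal Topology ContDiff
open Filter H342R3.SA

lemma lin_indep : LinearIndependent ℝ ![v1, v2] := by
  rw [LinearIndependent.pair_iff]
  intro s t h
  have h1 : (s • v1 + t • v2 : E2).fst = 0 := by rw [h]; rfl
  have h2 : (s • v1 + t • v2 : E2).snd = 0 := by rw [h]; rfl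
  have h1' : s * 1 + t * (-nu) = 0 := h1
  have h2' : s * 1 + t * (-mu) = 0 := h2
  have h3 := munu
  have h4 : t * (mu - nu) = 0 := by linarith
  have h5 : t = 0 := by
    rcases mul_eq_zero.1 h4 with h | h
    · exact h
    · rw [h] at h3; norm_num at h3
  constructor
  · rw [h5] at h1'; linarith
  · exact h5

lemma Es_map {q : CT} (hq : projT q ∈ Lam) :
    Es.map (fderiv ℝ F q : CT →ₗ[ℝ] CT) = Es := by
  have hloc := Lam_loc hq
  apply le_antisymm
  · rintro _ ⟨v, hv, rfl⟩
    exact ((hyp hq).1 v hv).1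
  · rintro v ⟨h1, h2⟩
    refine ⟨WithLp.toLp 2 (0, WithLp.toLp 2 (0, mu * v.snd.snd)), ⟨rfl, rfl⟩, ?_⟩
    show fderiv ℝ F q _ = v
    rw [F_fderiv hloc]
    apply CT_ext
    · show Bc 0 = v.fst
      rw [map_zero, h1]
    · apply E2_ext
      · show mu * 0 = v.snd.fst
        rw [mul_zero, h2]
      · show nu * (mu * v.snd.snd) = v.snd.snd
        rw [← mul_assoc, mul_comm nu, mu_nu, one_mul]

lemma Eu_map {q : CT} (hq : projT q ∈ Lam) :
    Eu.map (fderiv ℝ F q : CT →ₗ[ℝ] CT) = Eu := by
  have hloc := Lam_loc hq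
  apply le_antisymm
  · rintro _ ⟨v, hv, rfl⟩
    exact ((hyp hq).2 v hv).1
  · intro v h2
    have h2' : v.snd.snd = 0 := h2
    refine ⟨WithLp.toLp 2 (A v.fst, WithLp.toLp 2 (nu * v.snd.fst, 0)), rfl, ?_⟩
    show fderiv ℝ F q _ = v
    rw [F_fderiv hloc]
    apply CT_ext
    · show Bc (A v.fst) = v.fst
      rw [Bc_A]
    · apply E2_ext
      · show mu * (nu * v.snd.fst) = v.snd.fst
        rw [← mul_assoc, mu_nu, one_mul]
      · show nu * 0 = v.snd.snd
        rw [mul_zero, h2']

end H342R3.SC
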