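import Pool.Agent.H342R3.SC7

set_option autoImplicit false
set_option maxHeartbeats 1000000
set_option synthInstance.maxHeartbeats 400000
set_option linter.unusedSectionVars false
set_option linter.unusedVariables false

namespace H342R3.SC

open scoped ENNReal Topology ContDiff
open Filter H342R3.SA Nat

lemma NG_lip {X Y : Type} [PseudoMetricSpace X] [PseudoMetricSpace Y] {E0 E : Set X} {E' : Set Y}
    (hE0 : IsCompact E0) (hE : E ⊆ E0) {δ c : ℝ} (hδ : 0 < δ) (hc : 0 ≤ c) (g : X → Y)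
    (hg : ∀ x y, dist (g x) (g y) ≤ c * dist x y)
    (hEE : E' ⊆ g '' E) : NG E' (c * δ) ≤ NG E δ := by
  have hne : {n : ℕ | ∃ U : Fin n → Set X, (∀ i, ∀ x ∈ U i, ∀ y ∈ U i, dist x y ≤ δ) ∧
      E ⊆ ⋃ i, U i}.Nonempty := by
    obtain ⟨n, U, hU, hcov⟩ := NG_nonempty hE0 hδ
    exact ⟨n, U, hU, hE.trans hcov⟩
  obtain ⟨U, hU, hcov⟩ := Nat.sInf_mem hne
  apply Nat.sInf_le
  refine ⟨fun i => g '' U i, ?_, ?_⟩
  · rintro i _ ⟨x, hx, rfl⟩ _ ⟨y, hy, rfl⟩
    exact (hg x y).trans (mul_le_mul_of_nonneg_left (hU i x hx y hy) hc)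
  · intro y hy
    obtain ⟨x, hx, rfl⟩ := hEE hy
    obtain ⟨i, hi⟩ := Set.mem_iUnion.1 (hcov hx)
    exact Set.mem_iUnion.2 ⟨i, x, hi, rfl⟩

noncomputable def LL : ℝ := ‖(Bc : E4 →L[ℝ] E4)‖ + 1
lemma LL_ge : 1 ≤ LL := by unfold LL; have := norm_nonneg (Bc : E4 →L[ℝ] E4); linarith

noncomputable def hh (s : ℕ → S) : ℕ → E4 → E4
  | 0 => fun y => y
  | (j+1) => fun y => Bc (hh s j y) - Dv (s j)

lemma hh_lip (s : ℕ → S) (j : ℕ) (x y : E4) : dist (hh s j x) (hh s j y) ≤ LL^j * dist x y := by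
  induction j with
  | zero => simp [hh]
  | succ j ih =>
    show dist (Bc (hh s j x) - Dv (s j)) (Bc (hh s j y) - Dv (s j)) ≤ _
    rw [dist_eq_norm, sub_sub_sub_cancel_right, ← map_sub]
    have h1 : ‖Bc (hh s j x - hh s j y)‖ ≤ ‖(Bc : E4 →L[ℝ] E4)‖ * ‖hh s j x - hh s j y‖ :=
      ContinuousLinearMap.le_opNorm _ _
    have h2 : ‖(Bc : E4 →L[ℝ] E4)‖ ≤ LL := by unfold LL; linarith
    rw [dist_eq_norm] at ih
    have h3 : ‖(Bc : E4 →L[ℝ] E4)‖ * ‖hh s j x - hh s j y‖ ≤ LL * (LL^j * dist x y) :=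
      mul_le_mul h2 ih (norm_nonneg _) (by have := LL_ge; linarith)
    refine h1.trans (h3.trans (le_of_eq ?_))
    ring

lemma hh_Phi {s s' : ℕ → S} (N : ℕ) (h : ∀ k < N, s' k = s k) :
    hh s N (Phi (D u) s') = Phi (D u) (fun k => s' (k+N)) := by
  induction N with
  | zero => rfl
  | succ N ih =>
    show Bc (hh s N (Phi (D u) s')) - Dv (s N) = _
    rw [ih (fun k hk => h k (by omega)), ← h N (by omega)]
    have := Phi_sh (fun k => s' (k+N))
    simp only [Nat.zero_add] at this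
    rw [this]
    congr 1
    funext k
    show s' (k+1+N) = s' (k+(N+1))
    congr 1; omega

lemma NG_slice {Z : Set MT} (hZ : Z ⊆ Lam) {s t : ℕ → S} {N : ℕ}
    (hcyl : ∀ s' : ℕ → S, (∀ k < N, s' k = s k) → Th (s', t) ∈ Z) {δ : ℝ} (hδ : 0 < δ) :
    NG (Set.range (Phi (D u))) (LL^N * δ) ≤ NG Z δ := by
  have hL := LL_ge
  apply NG_lip Lam_compact hZ hδ (by positivity) (fun x : MT => hh s N x.fst)
  · intro x y
    exact (hh_lip s N _ _).trans (mul_le_mul_of_nonneg_left (fst_le x y) (by positivity))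
  · rintro _ ⟨a, rfl⟩
    set s' : ℕ → S := fun k => if k < N then s k else a (k-N) with hs'
    have h1 : ∀ k < N, s' k = s k := fun k hk => if_pos hk
    refine ⟨Th (s', t), hcyl s' h1, ?_⟩
    show hh s N (Phi (D u) s') = Phi (D u) a
    rw [hh_Phi N h1]
    congr 1
    funext k
    show (if k + N < N then s (k+N) else a (k+N-N)) = a k
    rw [if_neg (by omega), Nat.add_sub_cancel]

lemma lowerZ {Z : Set MT} (hZ : Z ⊆ Lam) {s t : ℕ → S} {N : ℕ}
    (hcyl : ∀ s' : ℕ → S, (∀ k < N, s' k = s k) → Th (s', t) ∈ Z) {K : ℕ} (hK : 2 ≤ K) :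
    8^(K !) * 511^(K !) * 2^((K !) - (K-1)!) * 63^(2 * K !) ≤
      NG Z ((1/8)^(3 * K !)/(4 * LL^N)) := by
  have hL := LL_ge
  refine (lower hK).trans ?_
  rw [← NG_E4]
  have h1 := NG_slice hZ hcyl (δ := (1/8)^(3 * K !)/(4 * LL^N)) (by positivity)
  have h2 : LL^N * ((1/8)^(3 * K !)/(4 * LL^N)) = (1/8)^(3 * K !)/4 := by field_simp
  rwa [h2] at h1

noncomputable def ratioZ (Z : Set MT) (δ : ℝ) : ℝ := Real.log (NG Z δ) / -Real.log δ

lemma lower_ratioZ {Z : Set MT} {C : ℝ} (hC : 4 ≤ C) {K : ℕ} (hK : 2 ≤ K)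
    (hN : 8^(K !) * 511^(K !) * 2^((K !) - (K-1)!) * 63^(2 * K !) ≤ NG Z ((1/8)^(3 * K !)/C))
    (hq : be1 * Real.log C + Real.log 2 ≤ ep1 * K) :
    be1 ≤ ratioZ Z ((1/8)^(3 * K !)/C) := by
  set n := K ! with hn
  have hL := L8
  have hC0 : 0 < C := by linarith
  have hf1 : 1 ≤ (K-1)! := Nat.one_le_iff_ne_zero.2 (Nat.factorial_ne_zero _)
  have hnK : n = K * (K-1)! := by rw [hn]; exact (Nat.mul_factorial_pred (by omega)).symm
  have hle : (K-1)! ≤ n := by rw [hn]; exact Nat.factorial_le (by omega)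
  have hlogδ : Real.log ((1/8)^(3 * n)/C) = -(3 * n * Real.log 8 + Real.log C) := by
    rw [Real.log_div (by positivity) hC0.ne', log_pow8]; ring
  have hlogC : 0 < Real.log C := Real.log_pos (by linarith)
  have hden : 0 < -Real.log ((1/8)^(3 * n)/C) := by
    rw [hlogδ]; have : (0:ℝ) ≤ n := Nat.cast_nonneg _; nlinarith
  have hlogN : n * b0 - (K-1)! * Real.log 2 ≤ Real.log (NG Z ((1/8)^(3 * n)/C)) := by
    have hR : Real.log ((8^n * 511^n * 2^(n - (K-1)!) * 63^(2*n) : ℕ) : ℝ) =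
        n * b0 - (K-1)! * Real.log 2 := by
      push_cast
      rw [Real.log_mul (by positivity) (by positivity), Real.log_mul (by positivity) (by positivity),
        Real.log_mul (by positivity) (by positivity), Real.log_pow, Real.log_pow, Real.log_pow,
        Real.log_pow, Nat.cast_sub hle]
      unfold b0
      push_cast
      ring
    rw [← hR]
    apply Real.log_le_log _ (by exact_mod_cast hN)
    have : 0 < 8^n * 511^n * 2^(n - (K-1)!) * 63^(2*n) := by positivity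
    exact_mod_cast this
  unfold ratioZ
  rw [le_div_iff₀ hden, hlogδ]
  refine le_trans ?_ hlogN
  have e1 : be1 * -(-(3 * n * Real.log 8 + Real.log C)) = (b0 - ep1) * n + be1 * Real.log C := by
    unfold be1; field_simp
  rw [e1]
  have hf1r : (1:ℝ) ≤ ((K-1)! : ℝ) := by exact_mod_cast hf1
  have hnr : (n:ℝ) = K * (K-1)! := by rw [hnK]; push_cast; ring
  have c2 : 0 ≤ be1 * Real.log C := mul_nonneg be1_pos.le hlogC.le
  have e2 : be1 * Real.log C + (K-1)! * Real.log 2 ≤ (K-1)! * (be1 * Real.log C + Real.log 2) := by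
    nlinarith
  have e3 : ((K-1)! : ℝ) * (be1 * Real.log C + Real.log 2) ≤ (K-1)! * (ep1 * K) :=
    mul_le_mul_of_nonneg_left hq (by positivity)
  have e4 : ((K-1)! : ℝ) * (ep1 * K) = ep1 * n := by rw [hnr]; ring
  nlinarith

lemma freq_highZ {Z : Set MT} (hZ : Z ⊆ Lam) {s t : ℕ → S} {N : ℕ}
    (hcyl : ∀ s' : ℕ → S, (∀ k < N, s' k = s k) → Th (s', t) ∈ Z) :
    ∃ᶠ δ in 𝓝[>] (0:ℝ), be1 ≤ ratioZ Z δ := by
  have hL := LL_ge
  have hLN : 1 ≤ LL^N := one_le_pow₀ hL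
  have hC : 4 ≤ 4 * LL^N := by linarith
  have ht : Tendsto (fun K => (1/(4 * LL^N)) * (1/8:ℝ)^(3 * K !)) atTop (𝓝[>] 0) :=
    fac_tendsto (f := fun K => K !) (fun K _ => Nat.self_le_factorial K) (by positivity)
  apply ht.frequently
  apply Eventually.frequently
  obtain ⟨Q, hQ⟩ := exists_nat_ge ((be1 * Real.log (4 * LL^N) + Real.log 2) / ep1)
  filter_upwards [eventually_ge_atTop (Q + 2)] with K hK
  have h1 : (1/(4 * LL^N)) * (1/8:ℝ)^(3 * K !) = (1/8)^(3 * K !)/(4 * LL^N) := by ring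
  rw [h1]
  apply lower_ratioZ hC (by omega) (lowerZ hZ hcyl (by omega))
  rw [div_le_iff₀ ep1_pos] at hQ
  refine hQ.trans ?_
  rw [mul_comm]
  apply mul_le_mul_of_nonneg_left _ ep1_pos.le
  have : Q ≤ K := by omega
  exact_mod_cast this

lemma freq_lowZ {Z : Set MT} (hZ : Z ⊆ Lam) : ∃ᶠ δ in 𝓝[>] (0:ℝ), ratioZ Z δ ≤ al1 := by
  have h1 : ∀ᶠ δ in 𝓝[>] (0:ℝ), δ ∈ Set.Ioo (0:ℝ) 1 := Ioo_mem_nhdsGT one_pos
  apply (freq_lowT.and_eventually h1).mono
  rintro δ ⟨h2, h3, h4⟩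
  refine le_trans ?_ h2
  unfold ratioZ ratioT
  have h5 : NG Z (1 * δ) ≤ NG Lam δ :=
    NG_lip Lam_compact le_rfl h3 zero_le_one (fun x => x) (fun x y => by rw [one_mul])
      (by rw [Set.image_id']; exact hZ)
  rw [one_mul] at h5
  apply div_le_div_of_nonneg_right
  · rcases Nat.eq_zero_or_pos (NG Z δ) with h | h
    · rw [h, Nat.cast_zero, Real.log_zero]
      apply Real.log_natCast_nonneg
    · exact Real.log_le_log (by exact_mod_cast h) (by exact_mod_cast h5)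
  · have := Real.log_neg h3 h4
    linarith

lemma Z_dim {Z : Set MT} (hZ : Z ⊆ Lam) {s t : ℕ → S} {N : ℕ}
    (hcyl : ∀ s' : ℕ → S, (∀ k < N, s' k = s k) → Th (s', t) ∈ Z) :
    liminf (fun δ : ℝ => ((ratioZ Z δ : ℝ) : EReal)) (𝓝[>] 0) <
    limsup (fun δ : ℝ => ((ratioZ Z δ : ℝ) : EReal)) (𝓝[>] 0) := by
  have h1 : liminf (fun δ : ℝ => ((ratioZ Z δ : ℝ) : EReal)) (𝓝[>] 0) ≤ (al1 : EReal) :=
    liminf_le_of_frequently_le' ((freq_lowZ hZ).mono (fun δ h => by exact_mod_cast h))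
  have h2 : (be1 : EReal) ≤ limsup (fun δ : ℝ => ((ratioZ Z δ : ℝ) : EReal)) (𝓝[>] 0) :=
    le_limsup_of_frequently_le' ((freq_highZ hZ hcyl).mono (fun δ h => by exact_mod_cast h))
  exact lt_of_le_of_lt h1 (lt_of_lt_of_le (by exact_mod_cast al1_lt_be1) h2)

/-! ### local unstable sets -/

lemma fs_itT (n : ℕ) (s t : ℕ → S) : f.symm^[n] (Th (s, t)) = Th (push n t s, sh^[n] t) := by
  induction n generalizing s t with
  | zero =>
    show Th (s, t) = Th (push 0 t s, t)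
    congr 2
  | succ n ih =>
    rw [Function.iterate_succ_apply, fs_Th, ih, push_succ]
    rfl

lemma Phi_close {B : ℝ} (hB : ∀ s, ‖Phi (D u) s‖ < B) (N : ℕ) (a b : ℕ → S) (h : ∀ k < N, a k = b k) :
    ‖Phi (D u) a - Phi (D u) b‖ ≤ (1/8)^N * (2*B) := by
  induction N generalizing a b with
  | zero =>
    have h1 := hB a
    have h2 := hB b
    have h3 := norm_sub_le (Phi (D u) a) (Phi (D u) b)
    rw [pow_zero, one_mul]
    linarith
  | succ N ih =>
    have h1 := ih (sh a) (sh b) (fun k hk => h (k+1) (by omega))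
    rw [← Phi_sh a, ← Phi_sh b, h 0 (by omega), sub_sub_sub_cancel_right, ← map_sub] at h1
    have h2 := Bc_norm (Phi (D u) a - Phi (D u) b)
    rw [pow_succ]
    linarith

lemma dist_same (a b c : ℕ → S) : dist (Th (a, c)) (Th (b, c)) ≤
    ‖Phi (D u) a - Phi (D u) b‖ + |W a - W b| := by
  refine (dist_MT _ _).trans ?_
  apply _root_.add_le_add
  · rw [← dist_eq_norm]; rfl
  · refine (dist_coe (rr a c) (rr b c)).trans ((dist_E2 _ _).trans ?_)
    show |W a - W b| + |(-(mu * W c)) - (-(mu * W c))| ≤ _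
    rw [sub_self, abs_zero, add_zero]

lemma push_agree {n N : ℕ} {t s s' : ℕ → S} (h : ∀ k < N, s' k = s k) :
    ∀ k < N, push n t s' k = push n t s k := by
  intro k hk
  unfold push
  by_cases h1 : k < n
  · rw [if_pos h1, if_pos h1]
  · rw [if_neg h1, if_neg h1]
    exact h _ (by omega)

lemma cyl_in (s t : ℕ → S) {ε : ℝ} (hε : 0 < ε) : ∃ N : ℕ, ∀ s' : ℕ → S, (∀ k < N, s' k = s k) →
    ∀ n : ℕ, dist (f.symm^[n] (Th (s', t))) (f.symm^[n] (Th (s, t))) ≤ ε := by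
  obtain ⟨B, hB0, hB⟩ := exists_B
  obtain ⟨N, hN⟩ := exists_pow_lt_of_lt_one (show 0 < ε / (2*B + 1177) by positivity)
    (show (1/8:ℝ) < 1 by norm_num)
  refine ⟨N, fun s' hs' n => ?_⟩
  rw [fs_itT, fs_itT]
  have h1 := push_agree (n := n) (t := t) hs'
  refine (dist_same _ _ _).trans ?_
  have h2 := Phi_close hB N _ _ h1
  have h3 := W_close (m := N) h1
  have h4 : (1/8:ℝ)^(3*(200*N)) ≤ (1/8)^N :=
    pow_le_pow_of_le_one (by norm_num) (by norm_num) (by omega)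
  rw [lt_div_iff₀ (by positivity)] at hN
  nlinarith

def Wu (ε : ℝ) (x : MT) : Set MT := {y | ∀ n : ℕ, dist (f.symm^[n] y) (f.symm^[n] x) ≤ ε}

lemma slice_dim {x : MT} (hx : x ∈ Lam) {ε : ℝ} (hε : 0 < ε) :
    liminf (fun δ : ℝ => ((ratioZ (Lam ∩ Wu ε x) δ : ℝ) : EReal)) (𝓝[>] 0) <
    limsup (fun δ : ℝ => ((ratioZ (Lam ∩ Wu ε x) δ : ℝ) : EReal)) (𝓝[>] 0) := by
  obtain ⟨⟨s, t⟩, rfl⟩ := hx
  obtain ⟨N, hN⟩ := cyl_in s t hε
  exact Z_dim (Z := Lam ∩ Wu ε (Th (s, t))) Set.inter_subset_left (s := s) (t := t) (N := N)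
    (fun s' hs' => ⟨⟨_, rfl⟩, hN s' hs'⟩)

end H342R3.SC
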