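import Mathlib

set_option autoImplicit false

open Set Filter Topology

namespace Pool.Agent.H342R3.Visc

/-- A continuous viscosity supersolution of `u_t + G(t,x) = 0` has one-sided slope bounds. -/
theorem slope_bound {E : Type*} [NormedAddCommGroup E] [InnerProductSpace ℝ E]
    [FiniteDimensional ℝ E] {T : ℝ} {u : ℝ → E → ℝ}
    (hu : ContinuousOn (fun q : ℝ × E => u q.1 q.2) (Icc 0 T ×ˢ univ))
    {G : ℝ → E → ℝ}
    (hsup : ∀ φ : ℝ → E → ℝ,
      ContDiff ℝ ((⊤ : ℕ∞) : WithTop ℕ∞) (fun q : ℝ × E => φ q.1 q.2) →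
      ∀ t0 ∈ Ioo 0 T, ∀ x0,
        IsLocalMin (fun q : ℝ × E => u q.1 q.2 - φ q.1 q.2) (t0, x0) →
        deriv (fun s => φ s x0) t0 + G t0 x0 ≤ 0)
    {a b r C : ℝ} (ha : 0 ≤ a) (hab : a < b) (hb : b ≤ T) (hr : 0 < r) (x1 : E)
    (hG : ∀ t ∈ Ioo a b, ∀ x ∈ Metric.ball x1 r, -C < G t x) :
    u b x1 - u a x1 ≤ C * (b - a) := by
  by_contra hcon
  push Not at hcon
  set A : ℝ := u b x1 - u a x1 - C * (b - a) with hA
  have hApos : 0 < A := by rw [hA]; linarith
  -- continuity in t at x1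
  have hcont : ∀ t ∈ Icc 0 T, ∀ x : E, ContinuousWithinAt (fun q : ℝ × E => u q.1 q.2)
      (Icc 0 T ×ˢ univ) (t, x) := fun t ht x => hu (t, x) ⟨ht, mem_univ _⟩
  have haI : a ∈ Icc 0 T := ⟨ha, by linarith⟩
  have hbI : b ∈ Icc 0 T := ⟨by linarith, hb⟩
  -- radius at a
  obtain ⟨δa, hδa, hna⟩ := Metric.continuousWithinAt_iff.1 (hcont a haI x1) (A / 4) (by linarith)
  obtain ⟨δb, hδb, hnb⟩ := Metric.continuousWithinAt_iff.1 (hcont b hbI x1) (A / 4) (by linarith)
  have hna' : ∀ t ∈ Icc 0 T, ∀ x, dist t a < δa → dist x x1 < δa →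
      |u t x - u a x1| < A / 4 := by
    intro t ht x h1 h2
    have := hna (x := (t, x)) ⟨ht, mem_univ _⟩ (by rw [Prod.dist_eq]; exact max_lt h1 h2)
    rwa [Real.dist_eq] at this
  have hnb' : ∀ t ∈ Icc 0 T, ∀ x, dist t b < δb → dist x x1 < δb →
      |u t x - u b x1| < A / 4 := by
    intro t ht x h1 h2
    have := hnb (x := (t, x)) ⟨ht, mem_univ _⟩ (by rw [Prod.dist_eq]; exact max_lt h1 h2)
    rwa [Real.dist_eq] at this
  -- choose κ
  obtain ⟨κ, hκ0, hκ1, hκ2, hκ3⟩ : ∃ κ : ℝ, 0 < κ ∧ κ < b - a ∧ κ < δa ∧ |C| * κ < A / 8 := by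
    refine ⟨min (min ((b - a) / 2) (δa / 2)) (A / (16 * (|C| + 1))), ?_, ?_, ?_, ?_⟩
    · have : 0 < |C| + 1 := by positivity
      refine lt_min (lt_min (by linarith) (by linarith)) (by positivity)
    · exact lt_of_le_of_lt (le_trans (min_le_left _ _) (min_le_left _ _)) (by linarith)
    · exact lt_of_le_of_lt (le_trans (min_le_left _ _) (min_le_right _ _)) (by linarith)
    · have h1 : 0 < |C| + 1 := by positivity
      have h2 : |C| * min (min ((b - a) / 2) (δa / 2)) (A / (16 * (|C| + 1)))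
          ≤ |C| * (A / (16 * (|C| + 1))) :=
        mul_le_mul_of_nonneg_left (min_le_right _ _) (abs_nonneg _)
      have h3 : |C| * (A / (16 * (|C| + 1))) ≤ (|C| + 1) * (A / (16 * (|C| + 1))) := by
        apply mul_le_mul_of_nonneg_right (by linarith); positivity
      have h4 : (|C| + 1) * (A / (16 * (|C| + 1))) = A / 16 := by
        field_simp
      linarith
  -- choose N
  obtain ⟨N, hN0, hN⟩ : ∃ N : ℝ, 0 ≤ N ∧ Real.exp (-(N * κ)) < 1 / 8 := by
    have h1 : Tendsto (fun N : ℝ => Real.exp (-(N * κ))) atTop (𝓝 0) := by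
      apply Real.tendsto_exp_atBot.comp
      apply tendsto_neg_atTop_atBot.comp
      exact Tendsto.atTop_mul_const hκ0 tendsto_id
    have h2 := (h1.eventually (gt_mem_nhds (show (0:ℝ) < 1 / 8 by norm_num))).and
      (eventually_ge_atTop 0)
    obtain ⟨N, hN⟩ := h2.exists
    exact ⟨N, hN.2, hN.1⟩
  -- radius
  set ρ : ℝ := min (r / 2) (min (δa / 2) (δb / 2)) with hρ
  have hρ0 : 0 < ρ := lt_min (by linarith) (lt_min (by linarith) (by linarith))
  have hρr : ρ < r := lt_of_le_of_lt (min_le_left _ _) (by linarith)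
  have hρa : ρ < δa :=
    lt_of_le_of_lt (le_trans (min_le_right _ _) (min_le_left _ _)) (by linarith)
  have hρb : ρ < δb :=
    lt_of_le_of_lt (le_trans (min_le_right _ _) (min_le_right _ _)) (by linarith)
  -- compact set and bound
  have hKc : IsCompact (Icc a b ×ˢ Metric.closedBall x1 ρ) :=
    isCompact_Icc.prod (isCompact_closedBall x1 ρ)
  have hKsub : Icc a b ×ˢ Metric.closedBall x1 ρ ⊆ Icc 0 T ×ˢ (univ : Set E) := by
    rintro ⟨t, x⟩ ⟨ht, -⟩
    exact ⟨⟨ha.trans ht.1, ht.2.trans hb⟩, mem_univ _⟩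
  have huK := hu.mono hKsub
  obtain ⟨M, hM⟩ := hKc.exists_bound_of_continuousOn huK
  set m : ℝ := a + κ with hm
  have hmI : m ∈ Icc 0 T := ⟨by linarith, by linarith⟩
  set V : ℝ := u m x1 - C * (m - a) + A * Real.exp (-(N * (m - a))) with hV
  have hVlt : V < u a x1 + A / 2 := by
    have h1 := hna' m hmI x1 (by rw [Real.dist_eq, hm]; simpa [abs_of_pos hκ0] using hκ2)
      (by simpa using hδa)
    have h2 := (abs_lt.1 h1).2
    have h3 : -(C * (m - a)) ≤ |C| * κ := by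
      have : m - a = κ := by rw [hm]; ring
      rw [this]
      have := neg_abs_le (C * κ)
      have h5 : |C * κ| = |C| * κ := by rw [abs_mul, abs_of_pos hκ0]
      linarith
    have h4 : A * Real.exp (-(N * (m - a))) < A * (1 / 8) := by
      have : m - a = κ := by rw [hm]; ring
      rw [this]
      exact mul_lt_mul_of_pos_left hN hApos
    rw [hV]
    linarith
  set L : ℝ := (|V| + M + |C| * (b - a) + 1) / ρ ^ 2 with hL
  have hMnn : 0 ≤ M := le_trans (norm_nonneg _) (hM (a, x1) ⟨⟨le_rfl, hab.le⟩, by simp [hρ0.le]⟩)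
  have hLnn : 0 ≤ L := by
    have : 0 ≤ b - a := by linarith
    rw [hL]; positivity
  have hLρ : L * ρ ^ 2 = |V| + M + |C| * (b - a) + 1 := by
    rw [hL]; field_simp
  set φ : ℝ → E → ℝ := fun t x =>
    C * (t - a) - A * Real.exp (-(N * (t - a))) - L * ‖x - x1‖ ^ 2 with hφ
  have hφs : ContDiff ℝ ((⊤ : ℕ∞) : WithTop ℕ∞) (fun q : ℝ × E => φ q.1 q.2) := by
    simp only [hφ]
    have h1 : ContDiff ℝ ((⊤ : ℕ∞) : WithTop ℕ∞) (fun q : ℝ × E => ‖q.2 - x1‖ ^ 2) :=
      (contDiff_snd.sub contDiff_const).norm_sq ℝ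
    have h2 : ContDiff ℝ ((⊤ : ℕ∞) : WithTop ℕ∞) (fun q : ℝ × E => q.1 - a) :=
      contDiff_fst.sub contDiff_const
    exact ((contDiff_const.mul h2).sub
      (contDiff_const.mul (Real.contDiff_exp.comp (contDiff_const.mul h2).neg))).sub
      (contDiff_const.mul h1)
  have hφc : Continuous (fun q : ℝ × E => φ q.1 q.2) := hφs.continuous
  have hFc : ContinuousOn (fun q : ℝ × E => u q.1 q.2 - φ q.1 q.2)
      (Icc a b ×ˢ Metric.closedBall x1 ρ) := huK.sub hφc.continuousOn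
  obtain ⟨⟨t0, x0⟩, hq0, hmin⟩ := hKc.exists_isMinOn
    ⟨(a, x1), ⟨⟨le_rfl, hab.le⟩, by simp [hρ0.le]⟩⟩ hFc
  have hminV : u t0 x0 - φ t0 x0 ≤ V := by
    have h1 := hmin (a := (m, x1)) ⟨⟨by linarith, by linarith⟩, by simp [hρ0.le]⟩
    have h2 : u m x1 - φ m x1 = V := by
      simp only [hφ, hV]; simp; ring
    simpa [h2] using h1
  have ht0 : t0 ∈ Icc a b := hq0.1
  have hx0 : dist x0 x1 ≤ ρ := hq0.2
  -- x0 interior
  have hx0' : dist x0 x1 < ρ := by
    refine lt_of_le_of_ne hx0 ?_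
    intro h
    have h1 : |u t0 x0| ≤ M := by simpa using hM (t0, x0) hq0
    have h2 : ‖x0 - x1‖ ^ 2 = ρ ^ 2 := by rw [← dist_eq_norm, h]
    have h3 : C * (t0 - a) ≤ |C| * (b - a) := by
      have h4 : C * (t0 - a) ≤ |C| * (t0 - a) :=
        mul_le_mul_of_nonneg_right (le_abs_self C) (by linarith [ht0.1])
      have h5 : |C| * (t0 - a) ≤ |C| * (b - a) :=
        mul_le_mul_of_nonneg_left (by linarith [ht0.2]) (abs_nonneg C)
      linarith
    have h6 : 0 ≤ A * Real.exp (-(N * (t0 - a))) := by positivity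
    have h7 : u t0 x0 - φ t0 x0 = u t0 x0 - C * (t0 - a) + A * Real.exp (-(N * (t0 - a)))
        + L * ‖x0 - x1‖ ^ 2 := by simp only [hφ]; ring
    rw [h7, h2, hLρ] at hminV
    have h8 := (abs_le.1 h1).1
    have h9 := le_abs_self V
    linarith
  have hsq : 0 ≤ L * ‖x0 - x1‖ ^ 2 := by positivity
  have h7 : u t0 x0 - φ t0 x0 = u t0 x0 - C * (t0 - a) + A * Real.exp (-(N * (t0 - a)))
        + L * ‖x0 - x1‖ ^ 2 := by simp only [hφ]; ring
  have hta : a < t0 := by
    refine lt_of_le_of_ne ht0.1 ?_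
    intro h
    have h1 := (abs_lt.1 (hna' a haI x0 (by simpa using hδa) (lt_trans hx0' hρa))).1
    rw [h7, ← h] at hminV
    simp only [sub_self, mul_zero, neg_zero, Real.exp_zero] at hminV
    linarith
  have htb : t0 < b := by
    refine lt_of_le_of_ne ht0.2 ?_
    intro h
    have h1 := (abs_lt.1 (hnb' b hbI x0 (by simpa using hδb) (lt_trans hx0' hρb))).1
    rw [h7, h] at hminV
    have h6 : 0 ≤ A * Real.exp (-(N * (b - a))) := by positivity
    linarith
  have hloc : IsLocalMin (fun q : ℝ × E => u q.1 q.2 - φ q.1 q.2) (t0, x0) := by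
    refine IsMinOn.isLocalMin hmin ?_
    exact prod_mem_nhds (Icc_mem_nhds hta htb)
      (Filter.mem_of_superset (Metric.isOpen_ball.mem_nhds (Metric.mem_ball.2 hx0'))
        Metric.ball_subset_closedBall)
  have hfin := hsup φ hφs t0 ⟨lt_of_le_of_lt ha hta, lt_of_lt_of_le htb hb⟩ x0 hloc
  have hder : HasDerivAt (fun s => φ s x0) (C + A * (N * Real.exp (-(N * (t0 - a))))) t0 := by
    have e1 : HasDerivAt (fun s : ℝ => s - a) 1 t0 := (hasDerivAt_id t0).sub_const a
    have e2 : HasDerivAt (fun s : ℝ => -(N * (s - a))) (-(N * 1)) t0 := (e1.const_mul N).neg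
    have e3 := (e2.exp).const_mul A
    have e4 := ((e1.const_mul C).sub e3).sub_const (L * ‖x0 - x1‖ ^ 2)
    exact e4.congr_deriv (by ring)
  rw [hder.deriv] at hfin
  have h9 : 0 ≤ A * (N * Real.exp (-(N * (t0 - a)))) := by positivity
  have h10 := hG t0 ⟨hta, htb⟩ x0 (Metric.mem_ball.2 (lt_trans hx0' hρr))
  linarith

/-- The key lower bound. -/
theorem lower {E : Type*} [NormedAddCommGroup E] [InnerProductSpace ℝ E]
    [FiniteDimensional ℝ E] {u : ℝ → E → ℝ}
    (hu : ContinuousOn (fun q : ℝ × E => u q.1 q.2) (Icc 0 1 ×ˢ univ))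
    {c : E → ℝ} (hc : Continuous c)
    (hsup : ∀ φ : ℝ → E → ℝ,
      ContDiff ℝ ((⊤ : ℕ∞) : WithTop ℕ∞) (fun q : ℝ × E => φ q.1 q.2) →
      ∀ t0 ∈ Ioo (0:ℝ) 1, ∀ x0,
        IsLocalMin (fun q : ℝ × E => u q.1 q.2 - φ q.1 q.2) (t0, x0) →
        deriv (fun s => φ s x0) t0 + (c x0 + 2 * (√(u t0 x0) - √(-(u t0 x0)))) ≤ 0)
    (x1 : E) (hx1 : 0 < c x1) (h1 : u 1 x1 = 0) : 1 ≤ u 0 x1 := by
  set G : ℝ → E → ℝ := fun t x => c x + 2 * (√(u t x) - √(-(u t x))) with hGdef
  have hGc : ContinuousOn (fun q : ℝ × E => G q.1 q.2) (Icc 0 1 ×ˢ univ) := by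
    simp only [hGdef]
    exact (hc.comp continuous_snd).continuousOn.add
      (continuousOn_const.mul ((Real.continuous_sqrt.comp_continuousOn hu).sub
        (Real.continuous_sqrt.comp_continuousOn hu.neg)))
  have hcu : ContinuousOn (fun s : ℝ => -(u (1 - s) x1)) (Icc 0 1) := by
    have h2 : ContinuousOn (fun s : ℝ => ((1 - s, x1) : ℝ × E)) (Icc 0 1) := by
      fun_prop
    have h3 : MapsTo (fun s : ℝ => ((1 - s, x1) : ℝ × E)) (Icc 0 1) (Icc 0 1 ×ˢ univ) := by
      intro s hs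
      exact ⟨⟨by linarith [hs.2], by linarith [hs.1]⟩, mem_univ _⟩
    exact (hu.comp h2 h3).neg
  have key := image_le_of_liminf_slope_right_lt_deriv_boundary' (f := fun s => -(u (1 - s) x1))
    (f' := fun s => -(G (1 - s) x1)) (a := 0) (b := 1) hcu ?_
    (B := fun s => -(s ^ 2)) (B' := fun s => -(2 * s)) (by simp [h1]) (by fun_prop) ?_ ?_
  · have := key (x := 1) ⟨zero_le_one, le_rfl⟩
    simp only [sub_self, one_pow] at this
    linarith
  · intro s hs r hr
    obtain ⟨r', hr1, hr2⟩ := exists_between hr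
    have hsI : (1 - s) ∈ Icc (0:ℝ) 1 := ⟨by linarith [hs.2], by linarith [hs.1]⟩
    have hcw := hGc (1 - s, x1) ⟨hsI, mem_univ _⟩
    have hgap : 0 < G (1 - s) x1 + r' := by linarith
    obtain ⟨δ, hδ, hnear⟩ := Metric.continuousWithinAt_iff.1 hcw _ hgap
    apply Filter.Eventually.frequently
    have hev : Ioo s (min (s + δ) 1) ∈ 𝓝[>] s :=
      Ioo_mem_nhdsGT (lt_min (by linarith) hs.2)
    filter_upwards [hev] with z hz
    have hz1 : z < s + δ := lt_of_lt_of_le hz.2 (min_le_left _ _)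
    have hz2 : z < 1 := lt_of_lt_of_le hz.2 (min_le_right _ _)
    have hsb := slope_bound hu (G := G) hsup (a := 1 - z) (b := 1 - s) (r := δ) (C := r')
      (by linarith) (by linarith [hz.1]) (by linarith [hs.1]) hδ x1 (by
        intro t ht x hx
        have h2 := hnear (x := (t, x)) ⟨⟨by linarith [ht.1], by linarith [ht.2, hs.1]⟩, mem_univ _⟩
          (by
            rw [Prod.dist_eq]
            refine max_lt ?_ hx
            rw [Real.dist_eq, abs_lt]
            exact ⟨by simp only; linarith [ht.1], by simp only; linarith [ht.2]⟩)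
        rw [Real.dist_eq] at h2
        have := (abs_lt.1 h2).1
        simp only at this
        linarith)
    rw [slope_def_field]
    have hzs : 0 < z - s := by linarith [hz.1]
    rw [div_lt_iff₀ hzs]
    have : r' * (z - s) < r * (z - s) := mul_lt_mul_of_pos_right hr2 hzs
    have h5 : (1 - s) - (1 - z) = z - s := by ring
    rw [h5] at hsb
    linarith
  · intro x _
    have h2 : HasDerivAt (fun s : ℝ => -(s ^ 2)) (-(2 * x)) x := by
      have h3 := (hasDerivAt_pow 2 x).fun_neg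
      exact h3.congr_deriv (by norm_num)
    exact h2.hasDerivWithinAt
  · intro s hs heq
    have h2 : u (1 - s) x1 = s ^ 2 := by linarith
    have h3 : √(s ^ 2) = s := Real.sqrt_sq hs.1
    have h4 : √(-(s ^ 2)) = 0 := Real.sqrt_eq_zero_of_nonpos (by nlinarith [sq_nonneg s])
    simp only [hGdef, h2, h3, h4]
    linarith

end Pool.Agent.H342R3.Visc
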