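import Mathlib

set_option autoImplicit false

open Set Filter Topology

namespace Pool.Agent.H342R3.Cell

/-- `y_+^a (α sin(log y) + β cos(log y) + γ)`. -/
noncomputable def P (a : ℕ) (α β γ : ℝ) (y : ℝ) : ℝ :=
  (max y 0) ^ a * (α * Real.sin (Real.log y) + β * Real.cos (Real.log y) + γ)

theorem abs_trig_le (α β γ y : ℝ) :
    |α * Real.sin (Real.log y) + β * Real.cos (Real.log y) + γ| ≤ |α| + |β| + |γ| := by
  have h1 : |α * Real.sin (Real.log y)| ≤ |α| := by
    rw [abs_mul]
    exact mul_le_of_le_one_right (abs_nonneg _) (Real.abs_sin_le_one _)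
  have h2 : |β * Real.cos (Real.log y)| ≤ |β| := by
    rw [abs_mul]
    exact mul_le_of_le_one_right (abs_nonneg _) (Real.abs_cos_le_one _)
  calc _ ≤ |α * Real.sin (Real.log y)| + |β * Real.cos (Real.log y)| + |γ| := abs_add_three _ _ _
    _ ≤ _ := by linarith

theorem P_abs_le (a : ℕ) (α β γ y : ℝ) : |P a α β γ y| ≤ |y| ^ a * (|α| + |β| + |γ|) := by
  unfold P
  rw [abs_mul, abs_pow]
  have h1 : |max y 0| ≤ |y| := by
    rw [abs_of_nonneg (le_max_right _ _)]
    exact max_le (le_abs_self _) (abs_nonneg _)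
  exact mul_le_mul (pow_le_pow_left₀ (abs_nonneg _) h1 _) (abs_trig_le _ _ _ _) (abs_nonneg _)
    (by positivity)

theorem P_zero (a : ℕ) (ha : a ≠ 0) (α β γ : ℝ) : P a α β γ 0 = 0 := by
  unfold P; simp [ha]

theorem P_of_neg (a : ℕ) (ha : a ≠ 0) (α β γ : ℝ) {y : ℝ} (hy : y ≤ 0) : P a α β γ y = 0 := by
  unfold P; rw [max_eq_right hy]; simp [ha]

theorem P_hasDerivAt (a : ℕ) (α β γ y : ℝ) :
    HasDerivAt (P (a + 2) α β γ)
      (P (a + 1) ((a + 2) * α - β) ((a + 2) * β + α) ((a + 2) * γ) y) y := by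
  rcases lt_trichotomy y 0 with hy | hy | hy
  · rw [P_of_neg _ (by omega) _ _ _ hy.le]
    have : P (a + 2) α β γ =ᶠ[𝓝 y] fun _ => 0 := by
      filter_upwards [Iio_mem_nhds hy] with z hz
      exact P_of_neg _ (by omega) _ _ _ (le_of_lt hz)
    exact (hasDerivAt_const y (0:ℝ)).congr_of_eventuallyEq this
  · subst hy
    rw [P_zero _ (by omega), hasDerivAt_iff_isLittleO, P_zero _ (by omega)]
    simp only [sub_zero, smul_zero]
    rw [Asymptotics.isLittleO_iff]
    intro c hc
    have hK : 0 < |α| + |β| + |γ| + 1 := by positivity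
    have hev : ∀ᶠ z in 𝓝 (0:ℝ), |z| < min 1 (c / (|α| + |β| + |γ| + 1)) := by
      have : Tendsto (fun z : ℝ => |z|) (𝓝 0) (𝓝 0) := by
        have := (continuous_abs (G := ℝ)).tendsto 0
        simpa using this
      exact this.eventually (gt_mem_nhds (by positivity))
    filter_upwards [hev] with z hz
    have h1 : |z| < 1 := lt_of_lt_of_le hz (min_le_left _ _)
    have h2 : |z| < c / (|α| + |β| + |γ| + 1) := lt_of_lt_of_le hz (min_le_right _ _)
    have h3 := P_abs_le (a + 2) α β γ z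
    rw [Real.norm_eq_abs, Real.norm_eq_abs]
    have h4 : |z| ^ (a + 2) ≤ |z| * |z| := by
      have : |z| ^ (a + 2) = |z| ^ a * (|z| * |z|) := by ring
      rw [this]
      exact mul_le_of_le_one_left (by positivity) (pow_le_one₀ (abs_nonneg _) h1.le)
    have h5 : |z| * (|α| + |β| + |γ|) ≤ c := by
      have := (lt_div_iff₀ hK).1 h2
      nlinarith [abs_nonneg z]
    calc |P (a + 2) α β γ z| ≤ |z| ^ (a + 2) * (|α| + |β| + |γ|) := h3
      _ ≤ (|z| * |z|) * (|α| + |β| + |γ|) := by gcongr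
      _ = (|z| * (|α| + |β| + |γ|)) * |z| := by ring
      _ ≤ c * |z| := by gcongr
  · have hev : P (a + 2) α β γ =ᶠ[𝓝 y] fun z => z ^ (a + 2) *
        (α * Real.sin (Real.log z) + β * Real.cos (Real.log z) + γ) := by
      filter_upwards [Ioi_mem_nhds hy] with z hz
      unfold P
      rw [max_eq_left (le_of_lt hz)]
    have hl : HasDerivAt Real.log y⁻¹ y := Real.hasDerivAt_log hy.ne'
    have hs := (hl.sin).const_mul α
    have hc := (hl.cos).const_mul β
    have hp := hasDerivAt_pow (a + 2) y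
    have := hp.mul ((hs.add hc).add_const γ)
    refine (this.congr_deriv ?_).congr_of_eventuallyEq hev
    unfold P
    rw [max_eq_left hy.le]
    have e : y ^ (a + 2) = y ^ (a + 1) * y := by ring
    have e2 : a + 2 - 1 = a + 1 := by omega
    simp only [Pi.add_apply, e2]
    rw [e]
    push_cast
    field_simp
    ring

theorem P_continuous (a : ℕ) (α β γ : ℝ) : Continuous (P (a + 1) α β γ) := by
  rw [continuous_iff_continuousAt]
  intro y
  rcases eq_or_ne y 0 with hy | hy
  · subst hy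
    rw [ContinuousAt, P_zero _ (by omega), tendsto_zero_iff_abs_tendsto_zero]
    refine squeeze_zero (fun _ => abs_nonneg _) (fun z => P_abs_le (a + 1) α β γ z) ?_
    have h1 : Continuous (fun z : ℝ => |z| ^ (a + 1) * (|α| + |β| + |γ|)) := by fun_prop
    have := h1.tendsto 0
    simpa using this
  · unfold P
    have h1 : ContinuousAt Real.log y := Real.continuousAt_log hy
    fun_prop (disch := assumption)

theorem P_contDiff (α β γ : ℝ) : ContDiff ℝ 2 (P 3 α β γ) := by
  have hd3 : ∀ α β γ : ℝ, deriv (P 3 α β γ) = P 2 (3 * α - β) (3 * β + α) (3 * γ) := by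
    intro α β γ
    funext y
    have := (P_hasDerivAt 1 α β γ y).deriv
    norm_num at this ⊢
    exact this
  have hd2 : ∀ α β γ : ℝ, deriv (P 2 α β γ) = P 1 (2 * α - β) (2 * β + α) (2 * γ) := by
    intro α β γ
    funext y
    have := (P_hasDerivAt 0 α β γ y).deriv
    norm_num at this ⊢
    exact this
  have h1 : ∀ α β γ : ℝ, ContDiff ℝ 1 (P 2 α β γ) := by
    intro α β γ
    rw [contDiff_one_iff_deriv]
    refine ⟨fun y => (P_hasDerivAt 0 α β γ y).differentiableAt, ?_⟩
    rw [hd2]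
    exact P_continuous 0 _ _ _
  have : (2 : WithTop ℕ∞) = 1 + 1 := by norm_num
  rw [this, contDiff_succ_iff_deriv]
  refine ⟨fun y => (P_hasDerivAt 1 α β γ y).differentiableAt, fun h => by simp at h, ?_⟩
  rw [hd3]
  exact h1 _ _ _

end Pool.Agent.H342R3.Cell
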