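import Mathlib
import Pool.Agent.H342R3.Visc1

set_option autoImplicit false

open Set Filter Topology MeasureTheory intervalIntegral

namespace Pool.Agent.H342R3.Cell

/-- `r(x) = -cos(2πx)` -/
noncomputable def rr (x : ℝ) : ℝ := -Real.cos (2 * Real.pi * x)

/-- The plateau potential. -/
noncomputable def BB (x : ℝ) : ℝ := P 4 0 0 1 (rr x)

/-- The drift `b = B'`. -/
noncomputable def bb (x : ℝ) : ℝ := 8 * Real.pi * P 3 0 0 1 (rr x) * Real.sin (2 * Real.pi * x)

/-- The running cost. -/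
noncomputable def VV (x : ℝ) : ℝ :=
  8 * Real.pi * P 3 1 0 0 (rr x) * Real.sin (2 * Real.pi * x) ^ 2

theorem rr_hasDerivAt (x : ℝ) :
    HasDerivAt rr (2 * Real.pi * Real.sin (2 * Real.pi * x)) x := by
  have h1 : HasDerivAt (fun x : ℝ => 2 * Real.pi * x) (2 * Real.pi * 1) x :=
    (hasDerivAt_id x).const_mul _
  have h2 := h1.cos.fun_neg
  exact h2.congr_deriv (by ring)

theorem BB_hasDerivAt (x : ℝ) : HasDerivAt BB (bb x) x := by
  have h1 := (P_hasDerivAt 2 0 0 1 (rr x)).comp x (rr_hasDerivAt x)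
  refine h1.congr_deriv ?_
  unfold bb P
  push_cast
  ring

theorem rr_contDiff (n : WithTop ℕ∞) : ContDiff ℝ n rr := by
  unfold rr
  fun_prop

theorem bb_contDiff : ContDiff ℝ 2 bb := by
  unfold bb
  have h1 := (P_contDiff 0 0 1).comp (rr_contDiff 2)
  have h2 : ContDiff ℝ 2 (fun x : ℝ => Real.sin (2 * Real.pi * x)) := by fun_prop
  exact (contDiff_const.mul h1).mul h2

theorem VV_contDiff : ContDiff ℝ 2 VV := by
  unfold VV
  have h1 := (P_contDiff 1 0 0).comp (rr_contDiff 2)
  have h2 : ContDiff ℝ 2 (fun x : ℝ => Real.sin (2 * Real.pi * x) ^ 2) := by fun_prop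
  exact (contDiff_const.mul h1).mul h2

theorem rr_even (x : ℝ) : rr (-x) = rr x := by unfold rr; simp
theorem rr_periodic : Function.Periodic rr 1 := by
  intro x; unfold rr
  rw [mul_add, mul_one, Real.cos_add_two_pi]
theorem sin_periodic : Function.Periodic (fun x : ℝ => Real.sin (2 * Real.pi * x)) 1 := by
  intro x
  show Real.sin (2 * Real.pi * (x + 1)) = _
  rw [mul_add, mul_one, Real.sin_add_two_pi]
theorem sin_odd (x : ℝ) : Real.sin (2 * Real.pi * (-x)) = - Real.sin (2 * Real.pi * x) := by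
  rw [mul_neg, Real.sin_neg]

theorem BB_even (x : ℝ) : BB (-x) = BB x := by unfold BB; rw [rr_even]
theorem BB_periodic : Function.Periodic BB 1 := by
  intro x; unfold BB; rw [rr_periodic x]
theorem VV_even (x : ℝ) : VV (-x) = VV x := by unfold VV; rw [rr_even, sin_odd]; ring
theorem VV_periodic : Function.Periodic VV 1 := by
  intro x; unfold VV; rw [rr_periodic x]
  have := sin_periodic x
  simp only at this
  rw [this]
theorem bb_periodic : Function.Periodic bb 1 := by
  intro x; unfold bb; rw [rr_periodic x]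
  have := sin_periodic x
  simp only at this
  rw [this]

theorem sin_nonneg' {x : ℝ} (h0 : 0 ≤ x) (h1 : x ≤ 1 / 2) : 0 ≤ Real.sin (2 * Real.pi * x) := by
  apply Real.sin_nonneg_of_nonneg_of_le_pi
  · have := Real.pi_pos; positivity
  · nlinarith [Real.pi_pos]

theorem P3_nonneg (y : ℝ) : 0 ≤ P 3 0 0 1 y := by
  unfold P
  have : 0 ≤ max y 0 := le_max_right _ _
  simp only [zero_mul, zero_add, mul_one]
  positivity

theorem P4_nonneg (y : ℝ) : 0 ≤ P 4 0 0 1 y := by
  unfold P
  have : 0 ≤ max y 0 := le_max_right _ _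
  simp only [zero_mul, zero_add, mul_one]
  positivity

theorem BB_nonneg (x : ℝ) : 0 ≤ BB x := P4_nonneg _

theorem bb_nonneg {x : ℝ} (h0 : 0 ≤ x) (h1 : x ≤ 1 / 2) : 0 ≤ bb x := by
  unfold bb
  have := P3_nonneg (rr x)
  have := sin_nonneg' h0 h1
  have := Real.pi_pos
  positivity

/-- `V = b g` with `g = sin(2πx) sin(log r)`. -/
theorem VV_eq (x : ℝ) : VV x = bb x * (Real.sin (2 * Real.pi * x) * Real.sin (Real.log (rr x))) := by
  unfold VV bb P
  ring

theorem VV_abs_le {x : ℝ} (h0 : 0 ≤ x) (h1 : x ≤ 1 / 2) : |VV x| ≤ bb x := by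
  rw [VV_eq, abs_mul, abs_of_nonneg (bb_nonneg h0 h1), abs_mul]
  have h2 := Real.abs_sin_le_one (2 * Real.pi * x)
  have h3 := Real.abs_sin_le_one (Real.log (rr x))
  have h4 : |Real.sin (2 * Real.pi * x)| * |Real.sin (Real.log (rr x))| ≤ 1 :=
    mul_le_one₀ h2 (abs_nonneg _) h3
  exact mul_le_of_le_one_right (bb_nonneg h0 h1) h4

theorem BB_plateau {x : ℝ} (h0 : 0 ≤ x) (h1 : x ≤ 1 / 4) : BB x = 0 := by
  unfold BB
  apply P_of_neg _ (by omega)
  unfold rr
  have : 0 ≤ Real.cos (2 * Real.pi * x) := by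
    apply Real.cos_nonneg_of_neg_pi_div_two_le_of_le
    · nlinarith [Real.pi_pos]
    · nlinarith [Real.pi_pos]
  linarith

theorem VV_plateau {x : ℝ} (h0 : 0 ≤ x) (h1 : x ≤ 1 / 4) : VV x = 0 := by
  unfold VV
  rw [P_of_neg 3 (by omega)]
  · ring
  unfold rr
  have : 0 ≤ Real.cos (2 * Real.pi * x) := by
    apply Real.cos_nonneg_of_neg_pi_div_two_le_of_le
    · nlinarith [Real.pi_pos]
    · nlinarith [Real.pi_pos]
  linarith

theorem BB_continuous : Continuous BB := by
  rw [continuous_iff_continuousAt]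
  exact fun x => (BB_hasDerivAt x).continuousAt

theorem BB_mono : MonotoneOn BB (Icc 0 (1/2)) := by
  apply monotoneOn_of_deriv_nonneg (convex_Icc _ _) BB_continuous.continuousOn
  · exact fun x _ => (BB_hasDerivAt x).differentiableAt.differentiableWithinAt
  · intro x hx
    rw [interior_Icc] at hx
    rw [(BB_hasDerivAt x).deriv]
    exact bb_nonneg hx.1.le hx.2.le

/-- The weight. -/
noncomputable def EE (ε x : ℝ) : ℝ := Real.exp (-(BB x) / ε)

theorem EE_continuous (ε : ℝ) : Continuous (EE ε) := by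
  unfold EE
  have := BB_continuous
  fun_prop

theorem EE_pos (ε x : ℝ) : 0 < EE ε x := Real.exp_pos _

theorem EE_le_one {ε : ℝ} (hε : 0 < ε) (x : ℝ) : EE ε x ≤ 1 := by
  unfold EE
  rw [Real.exp_le_one_iff]
  have := BB_nonneg x
  apply div_nonpos_of_nonpos_of_nonneg (by linarith) hε.le

theorem EE_hasDerivAt (ε x : ℝ) : HasDerivAt (EE ε) (-(bb x / ε * EE ε x)) x := by
  have h1 := ((BB_hasDerivAt x).fun_neg.div_const ε).exp
  refine h1.congr_deriv ?_
  unfold EE
  ring

theorem EE_anti {ε : ℝ} (hε : 0 < ε) {x y : ℝ} (hx : 0 ≤ x) (hxy : x ≤ y) (hy : y ≤ 1 / 2) :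
    EE ε y ≤ EE ε x := by
  unfold EE
  apply Real.exp_le_exp.2
  have := BB_mono ⟨hx, hxy.trans hy⟩ ⟨hx.trans hxy, hy⟩ hxy
  gcongr

/-- `∫ (b/ε) e^{-B/ε}` by the fundamental theorem. -/
theorem int_b (ε x y : ℝ) : ∫ t in x..y, bb t / ε * EE ε t = EE ε x - EE ε y := by
  have h : ∀ t ∈ uIcc x y, HasDerivAt (fun t => -(EE ε t)) (bb t / ε * EE ε t) t := by
    intro t _
    exact (EE_hasDerivAt ε t).fun_neg.congr_deriv (by ring)
  rw [integral_eq_sub_of_hasDerivAt h]
  · ring
  · apply Continuous.intervalIntegrable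
    have := bb_contDiff.continuous
    have := EE_continuous ε
    fun_prop

noncomputable def NN (ε : ℝ) : ℝ := ∫ t in (0:ℝ)..(1/2), EE ε t * VV t
noncomputable def ZZ (ε : ℝ) : ℝ := ∫ t in (0:ℝ)..(1/2), EE ε t
/-- The ergodic constant. -/
noncomputable def cc (ε : ℝ) : ℝ := -(NN ε / ZZ ε)

theorem ZZ_ge {ε : ℝ} (_hε : 0 < ε) : 1 / 4 ≤ ZZ ε := by
  unfold ZZ
  have h1 : ∫ t in (0:ℝ)..(1/4), EE ε t = 1 / 4 := by
    have : ∫ t in (0:ℝ)..(1/4), EE ε t = ∫ t in (0:ℝ)..(1/4), (1:ℝ) := by
      apply integral_congr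
      intro t ht
      rw [uIcc_of_le (by norm_num)] at ht
      simp only [EE]
      rw [BB_plateau ht.1 ht.2]
      simp
    rw [this]; simp
  have h2 : 0 ≤ ∫ t in (1/4:ℝ)..(1/2), EE ε t :=
    intervalIntegral.integral_nonneg (by norm_num) fun t _ => (EE_pos ε t).le
  have hi : ∀ a b : ℝ, IntervalIntegrable (EE ε) volume a b :=
    fun a b => (EE_continuous ε).intervalIntegrable a b
  rw [← integral_add_adjacent_intervals (hi 0 (1/4)) (hi (1/4) (1/2)), h1]
  linarith

theorem ZZ_le {ε : ℝ} (hε : 0 < ε) : ZZ ε ≤ 1 / 2 := by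
  unfold ZZ
  have : ∫ t in (0:ℝ)..(1/2), EE ε t ≤ ∫ t in (0:ℝ)..(1/2), (1:ℝ) := by
    apply integral_mono_on (by norm_num) ((EE_continuous ε).intervalIntegrable _ _)
      (by simp)
    intro t _
    exact EE_le_one hε t
  refine this.trans ?_
  simp

theorem int_EV_abs {ε x : ℝ} (hε : 0 < ε) (h0 : 0 ≤ x) (h1 : x ≤ 1 / 2) :
    |∫ t in x..(1/2), EE ε t * VV t| ≤ ε * EE ε x := by
  have hc1 := EE_continuous ε
  have hc2 := VV_contDiff.continuous
  have hc3 := bb_contDiff.continuous
  calc |∫ t in x..(1/2), EE ε t * VV t| ≤ ∫ t in x..(1/2), |EE ε t * VV t| :=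
        abs_integral_le_integral_abs h1
    _ ≤ ∫ t in x..(1/2), ε * (bb t / ε * EE ε t) := by
        apply integral_mono_on h1
        · apply Continuous.intervalIntegrable; fun_prop
        · apply Continuous.intervalIntegrable; fun_prop
        · intro t ht
          have := VV_abs_le (h0.trans ht.1) ht.2
          rw [abs_mul, abs_of_pos (EE_pos ε t)]
          have e : ε * (bb t / ε * EE ε t) = EE ε t * bb t := by field_simp
          rw [e]
          exact mul_le_mul_of_nonneg_left this (EE_pos ε t).le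
    _ = ε * (EE ε x - EE ε (1/2)) := by
        rw [intervalIntegral.integral_const_mul, int_b]
    _ ≤ ε * EE ε x := by
        have := EE_pos ε (1/2)
        apply mul_le_mul_of_nonneg_left _ hε.le
        linarith

theorem cc_abs {ε : ℝ} (hε : 0 < ε) : |cc ε| ≤ 4 * ε := by
  have h1 := int_EV_abs hε le_rfl (by norm_num : (0:ℝ) ≤ 1 / 2)
  have h2 : |NN ε| ≤ ε := by
    refine h1.trans ?_
    have := EE_le_one hε 0
    nlinarith
  unfold cc
  rw [abs_neg, abs_div, abs_of_pos (lt_of_lt_of_le (by norm_num) (ZZ_ge hε)),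
    div_le_iff₀ (lt_of_lt_of_le (by norm_num) (ZZ_ge hε))]
  have := ZZ_ge hε
  nlinarith

/-- `F(x) = ∫_0^x e^{-B/ε}(V + c)`. -/
noncomputable def FF (ε x : ℝ) : ℝ := ∫ t in (0:ℝ)..x, EE ε t * (VV t + cc ε)

/-- The derivative `p = v'` of the solution. -/
noncomputable def pp (ε x : ℝ) : ℝ := -(1 / ε * Real.exp (BB x / ε) * FF ε x)

/-- The solution. -/
noncomputable def vv (ε x : ℝ) : ℝ := ∫ t in (0:ℝ)..x, pp ε t

theorem integrand_continuous (ε : ℝ) : Continuous fun t => EE ε t * (VV t + cc ε) := by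
  have hc1 := EE_continuous ε
  have hc2 := VV_contDiff.continuous
  fun_prop

theorem FF_hasDerivAt (ε x : ℝ) : HasDerivAt (FF ε) (EE ε x * (VV x + cc ε)) x := by
  have hc := integrand_continuous ε
  exact integral_hasDerivAt_right (hc.intervalIntegrable _ _)
    (hc.stronglyMeasurableAtFilter _ _) hc.continuousAt

theorem pp_hasDerivAt {ε : ℝ} (hε : ε ≠ 0) (x : ℝ) :
    HasDerivAt (pp ε) ((bb x * pp ε x - VV x - cc ε) / ε) x := by
  have h1 := (((BB_hasDerivAt x).div_const ε).exp.const_mul (1 / ε)).mul (FF_hasDerivAt ε x)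
  refine h1.fun_neg.congr_deriv ?_
  have h2 : Real.exp (BB x / ε) * EE ε x = 1 := by
    unfold EE
    rw [← Real.exp_add]
    have : BB x / ε + -BB x / ε = 0 := by ring
    rw [this, Real.exp_zero]
  unfold pp
  have h3 : 1 / ε * Real.exp (BB x / ε) * (EE ε x * (VV x + cc ε)) =
      1 / ε * ((Real.exp (BB x / ε) * EE ε x) * (VV x + cc ε)) := by ring
  rw [h3, h2]
  field_simp
  ring

theorem pp_continuous {ε : ℝ} (hε : ε ≠ 0) : Continuous (pp ε) := by
  rw [continuous_iff_continuousAt]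
  exact fun x => (pp_hasDerivAt hε x).continuousAt

theorem vv_hasDerivAt {ε : ℝ} (hε : ε ≠ 0) (x : ℝ) : HasDerivAt (vv ε) (pp ε x) x := by
  have hc := pp_continuous hε
  exact integral_hasDerivAt_right (hc.intervalIntegrable _ _)
    (hc.stronglyMeasurableAtFilter _ _) hc.continuousAt

theorem vv_contDiff {ε : ℝ} (hε : ε ≠ 0) : ContDiff ℝ 2 (vv ε) := by
  have hd : deriv (vv ε) = pp ε := funext fun x => (vv_hasDerivAt hε x).deriv
  have hd2 : deriv (pp ε) = fun x => (bb x * pp ε x - VV x - cc ε) / ε :=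
    funext fun x => (pp_hasDerivAt hε x).deriv
  have : (2 : WithTop ℕ∞) = 1 + 1 := by norm_num
  rw [this, contDiff_succ_iff_deriv]
  refine ⟨fun y => (vv_hasDerivAt hε y).differentiableAt, fun h => by simp at h, ?_⟩
  rw [hd, contDiff_one_iff_deriv]
  refine ⟨fun y => (pp_hasDerivAt hε y).differentiableAt, ?_⟩
  rw [hd2]
  have h1 := pp_continuous hε
  have h2 := VV_contDiff.continuous
  have h3 := bb_contDiff.continuous
  fun_prop

theorem FF_half {ε : ℝ} (hε : 0 < ε) : FF ε (1/2) = 0 := by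
  unfold FF
  have hc1 := EE_continuous ε
  have hc2 := VV_contDiff.continuous
  have h1 : ∫ t in (0:ℝ)..(1/2), EE ε t * (VV t + cc ε) = NN ε + ZZ ε * cc ε := by
    unfold NN ZZ
    rw [← intervalIntegral.integral_mul_const, ← intervalIntegral.integral_add]
    · apply integral_congr
      intro t _
      simp only
      ring
    · apply Continuous.intervalIntegrable; fun_prop
    · apply Continuous.intervalIntegrable; fun_prop
  rw [h1]
  unfold cc
  have : ZZ ε ≠ 0 := (lt_of_lt_of_le (by norm_num) (ZZ_ge hε)).ne'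
  field_simp
  ring

theorem EE_even (ε x : ℝ) : EE ε (-x) = EE ε x := by unfold EE; rw [BB_even]
theorem EE_periodic (ε : ℝ) : Function.Periodic (EE ε) 1 := by
  intro x; unfold EE; rw [BB_periodic x]

/-- odd functions: integral from 0 to -x. -/
theorem FF_odd (ε x : ℝ) : FF ε (-x) = -(FF ε x) := by
  unfold FF
  have h := intervalIntegral.integral_comp_neg (a := 0) (b := x)
    (fun t => EE ε t * (VV t + cc ε))
  simp only [EE_even, VV_even, neg_zero] at h
  rw [h, integral_symm]

theorem FF_periodic {ε : ℝ} (hε : 0 < ε) : Function.Periodic (FF ε) 1 := by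
  intro x
  have hc := integrand_continuous ε
  have hper : Function.Periodic (fun t => EE ε t * (VV t + cc ε)) 1 := by
    intro t; simp only; rw [EE_periodic ε t, VV_periodic t]
  have h1 : FF ε (x + 1) - FF ε x = ∫ t in x..(x + 1), EE ε t * (VV t + cc ε) := by
    unfold FF
    rw [integral_interval_sub_left (hc.intervalIntegrable _ _) (hc.intervalIntegrable _ _)]
  have h2 : ∫ t in x..(x + 1), EE ε t * (VV t + cc ε) =
      ∫ t in (-(1/2):ℝ)..(-(1/2) + 1), EE ε t * (VV t + cc ε) :=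
    hper.intervalIntegral_add_eq x (-(1/2))
  have h3 : ∫ t in (-(1/2):ℝ)..(-(1/2) + 1), EE ε t * (VV t + cc ε) =
      FF ε (1/2) - FF ε (-(1/2)) := by
    unfold FF
    rw [integral_interval_sub_left (hc.intervalIntegrable _ _) (hc.intervalIntegrable _ _)]
    norm_num
  rw [FF_odd, FF_half hε] at h3
  linarith

theorem pp_odd (ε x : ℝ) : pp ε (-x) = -(pp ε x) := by
  unfold pp; rw [FF_odd, BB_even]; ring

theorem pp_periodic {ε : ℝ} (hε : 0 < ε) : Function.Periodic (pp ε) 1 := by
  intro x; unfold pp; rw [FF_periodic hε x, BB_periodic x]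

theorem vv_even (ε x : ℝ) : vv ε (-x) = vv ε x := by
  unfold vv
  have h := intervalIntegral.integral_comp_neg (a := 0) (b := x) (fun t => pp ε t)
  simp only [pp_odd, neg_zero, intervalIntegral.integral_neg] at h
  rw [integral_symm (-x) 0, ← h, neg_neg]

theorem vv_periodic {ε : ℝ} (hε : 0 < ε) : Function.Periodic (vv ε) 1 := by
  intro x
  have hc := pp_continuous hε.ne'
  have h1 : vv ε (x + 1) - vv ε x = ∫ t in x..(x + 1), pp ε t := by
    unfold vv
    rw [integral_interval_sub_left (hc.intervalIntegrable _ _) (hc.intervalIntegrable _ _)]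
  have h2 : ∫ t in x..(x + 1), pp ε t = ∫ t in (-(1/2):ℝ)..(-(1/2) + 1), pp ε t :=
    (pp_periodic hε).intervalIntegral_add_eq x (-(1/2))
  have h3 : ∫ t in (-(1/2):ℝ)..(-(1/2) + 1), pp ε t = vv ε (1/2) - vv ε (-(1/2)) := by
    unfold vv
    rw [integral_interval_sub_left (hc.intervalIntegrable _ _) (hc.intervalIntegrable _ _)]
    norm_num
  rw [vv_even] at h3
  linarith

theorem pp_bound_half {ε x : ℝ} (hε : 0 < ε) (h0 : 0 ≤ x) (h1 : x ≤ 1 / 2) :
    |pp ε x| ≤ 3 := by
  have hc1 := EE_continuous ε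
  have hc2 := VV_contDiff.continuous
  have hc := integrand_continuous ε
  have h2 : FF ε x = -(∫ t in x..(1/2), EE ε t * (VV t + cc ε)) := by
    have h3 : FF ε (1/2) - FF ε x = ∫ t in x..(1/2), EE ε t * (VV t + cc ε) := by
      unfold FF
      rw [integral_interval_sub_left (hc.intervalIntegrable _ _) (hc.intervalIntegrable _ _)]
    rw [FF_half hε] at h3
    linarith
  have h4 : ∫ t in x..(1/2), EE ε t * (VV t + cc ε) =
      (∫ t in x..(1/2), EE ε t * VV t) + cc ε * ∫ t in x..(1/2), EE ε t := by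
    rw [← intervalIntegral.integral_const_mul, ← intervalIntegral.integral_add]
    · apply integral_congr
      intro t _
      simp only
      ring
    · apply Continuous.intervalIntegrable; fun_prop
    · apply Continuous.intervalIntegrable; fun_prop
  have h5 : |∫ t in x..(1/2), EE ε t| ≤ EE ε x * (1/2) := by
    rw [abs_of_nonneg (intervalIntegral.integral_nonneg h1 fun t _ => (EE_pos ε t).le)]
    calc ∫ t in x..(1/2), EE ε t ≤ ∫ t in x..(1/2), EE ε x := by
          apply integral_mono_on h1 (hc1.intervalIntegrable _ _) (by simp)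
          intro t ht
          exact EE_anti hε h0 ht.1 ht.2
      _ = (1/2 - x) * EE ε x := by rw [intervalIntegral.integral_const, smul_eq_mul]
      _ ≤ EE ε x * (1/2) := by nlinarith [EE_pos ε x]
  have h6 := int_EV_abs hε h0 h1
  have h7 := cc_abs hε
  have h8 : |FF ε x| ≤ 3 * ε * EE ε x := by
    rw [h2, h4, abs_neg]
    calc _ ≤ |∫ t in x..(1/2), EE ε t * VV t| + |cc ε * ∫ t in x..(1/2), EE ε t| := abs_add_le _ _
      _ ≤ ε * EE ε x + (4 * ε) * (EE ε x * (1/2)) := by
          rw [abs_mul]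
          exact add_le_add h6 (mul_le_mul h7 h5 (abs_nonneg _) (by positivity))
      _ = 3 * ε * EE ε x := by ring
  unfold pp
  rw [abs_neg, abs_mul, abs_mul, abs_of_pos (by positivity : 0 < 1 / ε),
    abs_of_pos (Real.exp_pos _)]
  have h9 : Real.exp (BB x / ε) * EE ε x = 1 := by
    unfold EE
    rw [← Real.exp_add]
    have : BB x / ε + -BB x / ε = 0 := by ring
    rw [this, Real.exp_zero]
  calc 1 / ε * Real.exp (BB x / ε) * |FF ε x|
      ≤ 1 / ε * Real.exp (BB x / ε) * (3 * ε * EE ε x) := by gcongr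
    _ = 3 * (Real.exp (BB x / ε) * EE ε x) := by field_simp
    _ = 3 := by rw [h9]; norm_num

theorem pp_bound {ε : ℝ} (hε : 0 < ε) (x : ℝ) : |pp ε x| ≤ 3 := by
  have h1 : pp ε x = pp ε (Int.fract x) := by
    rw [← Int.self_sub_floor]
    exact ((pp_periodic hε).sub_int_mul_eq (x := x) ⌊x⌋ |>.symm |> fun h => by simpa using h)
  rw [h1]
  have h2 := Int.fract_nonneg x
  have h3 := Int.fract_lt_one x
  rcases le_total (Int.fract x) (1/2) with h | h
  · exact pp_bound_half hε h2 h
  · have h4 : pp ε (Int.fract x) = -(pp ε (1 - Int.fract x)) := by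
      rw [← pp_odd]
      have h5 : -(1 - Int.fract x) = Int.fract x - 1 := by ring
      rw [h5]
      exact ((pp_periodic hε).sub_eq _).symm
    rw [h4, abs_neg]
    exact pp_bound_half hε (by linarith) (by linarith)

/-- The one dimensional cell equation in the linear regime. -/
theorem ode {ε : ℝ} (hε : 0 < ε) (x : ℝ) :
    bb x * pp ε x - VV x = ε * deriv (pp ε) x + cc ε := by
  rw [(pp_hasDerivAt hε.ne' x).deriv]
  field_simp
  ring

/-- Explicit value at `1/4`. -/
theorem vv_quarter (ε : ℝ) : vv ε (1/4) = NN ε / ε / ZZ ε / 32 := by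
  have h1 : ∀ x ∈ Icc (0:ℝ) (1/4), pp ε x = -(cc ε / ε) * x := by
    intro x hx
    have h2 : FF ε x = cc ε * x := by
      unfold FF
      have : ∫ t in (0:ℝ)..x, EE ε t * (VV t + cc ε) = ∫ t in (0:ℝ)..x, cc ε := by
        apply integral_congr
        intro t ht
        rw [uIcc_of_le hx.1] at ht
        simp only [EE]
        rw [BB_plateau ht.1 (ht.2.trans hx.2), VV_plateau ht.1 (ht.2.trans hx.2)]
        simp
      rw [this]
      simp [mul_comm]
    unfold pp
    rw [h2, BB_plateau hx.1 hx.2]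
    simp
    ring
  unfold vv
  have h2 : ∫ t in (0:ℝ)..(1/4), pp ε t = ∫ t in (0:ℝ)..(1/4), -(cc ε / ε) * t := by
    apply integral_congr
    intro t ht
    rw [uIcc_of_le (by norm_num)] at ht
    exact h1 t ht
  rw [h2, intervalIntegral.integral_const_mul, integral_id]
  unfold cc
  ring

end Pool.Agent.H342R3.Cell
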