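import Mathlib
import Pool.Agent.H342R3.Visc2

set_option autoImplicit false

open Set Filter Topology MeasureTheory intervalIntegral

namespace Pool.Agent.H342R3.Cell

theorem P4_of_pos {y : ℝ} (hy : 0 ≤ y) : P 4 0 0 1 y = y ^ 4 := by
  unfold P; rw [max_eq_left hy]; ring

/-- On a window of scales around `ε^{1/4}` the running cost has the sign `σ`, hence so has the
ergodic constant. -/
theorem osc {σ : ℝ} (hσ : σ = 1 ∨ σ = -1) {k : ℕ} (hk : 1 ≤ k) {L ε : ℝ}
    (hL : L = σ * (Real.pi / 2) - k * (2 * Real.pi)) (hε : ε = Real.exp (4 * L)) :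
    1 / 4 ≤ σ * (NN ε / ε) := by
  have hπ := Real.pi_gt_three
  have hεpos : 0 < ε := by rw [hε]; exact Real.exp_pos _
  have hk' : (1:ℝ) ≤ k := by exact_mod_cast hk
  have hLb : L + 1 ≤ -3 := by
    rw [hL]
    rcases hσ with h | h <;> rw [h] <;> nlinarith
  set a : ℝ := Real.exp (L - 1) with ha
  set b : ℝ := Real.exp (L + 1) with hb
  have ha0 : 0 < a := Real.exp_pos _
  have hb0 : 0 < b := Real.exp_pos _
  have hab : a ≤ b := Real.exp_le_exp.2 (by linarith)
  have hb4 : b ≤ 1 / 4 := by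
    have h1 : b ≤ Real.exp (-3) := Real.exp_le_exp.2 hLb
    have h2 : Real.exp (-3) * Real.exp 3 = 1 := by rw [← Real.exp_add]; norm_num
    have h3 : 4 ≤ Real.exp 3 := by have := Real.add_one_le_exp (3:ℝ); linarith
    have h4 := Real.exp_pos (-3)
    nlinarith
  set x1 : ℝ := Real.arccos (-a) / (2 * Real.pi) with hx1
  set x2 : ℝ := Real.arccos (-b) / (2 * Real.pi) with hx2
  have h2π : 0 < 2 * Real.pi := by linarith
  have e1 : 2 * Real.pi * x1 = Real.arccos (-a) := by rw [hx1]; field_simp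
  have e2 : 2 * Real.pi * x2 = Real.arccos (-b) := by rw [hx2]; field_simp
  have hx10 : 0 ≤ x1 := by rw [hx1]; exact div_nonneg (Real.arccos_nonneg _) h2π.le
  have hx12 : x1 ≤ x2 := by
    rw [hx1, hx2]
    exact div_le_div_of_nonneg_right (Real.arccos_le_arccos (by linarith)) h2π.le
  have hx2h : x2 ≤ 1 / 2 := by
    rw [hx2, div_le_iff₀ h2π]
    have := Real.arccos_le_pi (-b)
    linarith
  have hr1 : rr x1 = a := by
    unfold rr; rw [e1, Real.cos_arccos (by linarith) (by linarith)]; ring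
  have hr2 : rr x2 = b := by
    unfold rr; rw [e2, Real.cos_arccos (by linarith) (by linarith)]; ring
  have hmono : ∀ x y, 0 ≤ x → x ≤ y → y ≤ 1 / 2 → rr x ≤ rr y := by
    intro x y h0 hxy h1
    unfold rr
    have := Real.strictAntiOn_cos.antitoneOn (a := 2 * Real.pi * x) (b := 2 * Real.pi * y)
      ⟨by positivity, by nlinarith⟩ ⟨by have : 0 ≤ y := h0.trans hxy
                                        positivity, by nlinarith⟩ (by nlinarith)
    linarith
  -- lower bound for σ V on the window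
  have hwin : ∀ x ∈ Icc x1 x2, 15 / 32 * bb x ≤ σ * VV x := by
    intro x hx
    have hx0 : 0 ≤ x := hx10.trans hx.1
    have hxh : x ≤ 1 / 2 := hx.2.trans hx2h
    have hra : a ≤ rr x := hr1 ▸ hmono x1 x hx10 hx.1 hxh
    have hrb : rr x ≤ b := hr2 ▸ hmono x x2 hx0 hx.2 hx2h
    have hr0 : 0 < rr x := ha0.trans_le hra
    have hl1 : L - 1 ≤ Real.log (rr x) := (Real.le_log_iff_exp_le hr0).2 hra
    have hl2 : Real.log (rr x) ≤ L + 1 := (Real.log_le_iff_le_exp hr0).2 hrb
    set δ : ℝ := Real.log (rr x) - L with hδ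
    have hlog : Real.log (rr x) = (σ * (Real.pi / 2) + δ) - k * (2 * Real.pi) := by
      rw [hδ, hL]; ring
    have hsin : σ * Real.sin (Real.log (rr x)) = Real.cos δ := by
      rw [hlog, Real.sin_sub_nat_mul_two_pi]
      rcases hσ with h | h
      · rw [h, one_mul, one_mul, add_comm, Real.sin_add_pi_div_two]
      · rw [h]
        have : -1 * (Real.pi / 2) + δ = δ - Real.pi / 2 := by ring
        rw [this, Real.sin_sub_pi_div_two]; ring
    have hcos : 1 / 2 ≤ Real.cos δ := by
      rw [← Real.cos_pi_div_three, ← Real.cos_abs δ]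
      apply Real.cos_le_cos_of_nonneg_of_le_pi (abs_nonneg _) (by linarith)
      have : |δ| ≤ 1 := abs_le.2 ⟨by linarith, by linarith⟩
      linarith
    have hs0 := sin_nonneg' hx0 hxh
    have hs1 := Real.sin_le_one (2 * Real.pi * x)
    have hsq := Real.sin_sq_add_cos_sq (2 * Real.pi * x)
    have hcr : Real.cos (2 * Real.pi * x) ^ 2 = rr x ^ 2 := by unfold rr; ring
    have hs2 : 15 / 16 ≤ Real.sin (2 * Real.pi * x) := by
      have h7 : rr x ^ 2 ≤ (1 / 4) ^ 2 := pow_le_pow_left₀ hr0.le (hrb.trans hb4) 2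
      have h8 : 0 ≤ Real.sin (2 * Real.pi * x) * (1 - Real.sin (2 * Real.pi * x)) :=
        mul_nonneg hs0 (by linarith)
      have h9 : Real.sin (2 * Real.pi * x) * (1 - Real.sin (2 * Real.pi * x)) =
        Real.sin (2 * Real.pi * x) - Real.sin (2 * Real.pi * x) ^ 2 := by ring
      linarith
    have hb := bb_nonneg hx0 hxh
    rw [VV_eq]
    have h5 : σ * (bb x * (Real.sin (2 * Real.pi * x) * Real.sin (Real.log (rr x)))) =
        bb x * (Real.sin (2 * Real.pi * x) * (σ * Real.sin (Real.log (rr x)))) := by ring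
    rw [h5, hsin]
    have h6 : (15 / 16) * (1 / 2) ≤ Real.sin (2 * Real.pi * x) * Real.cos δ :=
      mul_le_mul hs2 hcos (by norm_num) hs0
    have h10 := mul_le_mul_of_nonneg_left h6 hb
    linarith
  have hall : ∀ x, 0 ≤ x → x ≤ 1 / 2 → -(bb x) ≤ σ * VV x := by
    intro x h0 h1
    have h2 := abs_le.1 (VV_abs_le h0 h1)
    rcases hσ with h | h <;> rw [h] <;> linarith [h2.1, h2.2]
  have hc1 := EE_continuous ε
  have hc2 := VV_contDiff.continuous
  have hc3 := bb_contDiff.continuous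
  -- splitting
  have hI : σ * (NN ε / ε) = ∫ t in (0:ℝ)..(1/2), σ * VV t / ε * EE ε t := by
    unfold NN
    rw [div_eq_mul_inv, ← mul_assoc, ← intervalIntegral.integral_const_mul,
      ← intervalIntegral.integral_mul_const]
    apply integral_congr
    intro t _
    simp only
    ring
  have hint : ∀ x y : ℝ, IntervalIntegrable (fun t => σ * VV t / ε * EE ε t) volume x y := by
    intro x y; apply Continuous.intervalIntegrable; fun_prop
  have hintb : ∀ (c x y : ℝ), IntervalIntegrable (fun t => c * (bb t / ε * EE ε t)) volume x y := by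
    intro c x y; apply Continuous.intervalIntegrable; fun_prop
  have hlow : ∀ (c x y : ℝ), x ≤ y → (∀ t ∈ Icc x y, c * bb t ≤ σ * VV t) →
      c * (EE ε x - EE ε y) ≤ ∫ t in x..y, σ * VV t / ε * EE ε t := by
    intro c x y hxy h
    rw [← int_b, ← intervalIntegral.integral_const_mul]
    apply integral_mono_on hxy (hintb c x y) (hint x y)
    intro t ht
    have h2 := h t ht
    have h3 := EE_pos ε t
    have e : c * (bb t / ε * EE ε t) = c * bb t / ε * EE ε t := by ring
    rw [e]
    gcongr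
  have A1 := hlow (-1) 0 x1 hx10 (fun t ht => by
    have := hall t ht.1 (ht.2.trans (hx12.trans hx2h)); linarith)
  have A2 := hlow (15/32) x1 x2 hx12 hwin
  have A3 := hlow (-1) x2 (1/2) hx2h (fun t ht => by
    have := hall t ((hx10.trans hx12).trans ht.1) ht.2; linarith)
  have hsplit : ∫ t in (0:ℝ)..(1/2), σ * VV t / ε * EE ε t =
      (∫ t in (0:ℝ)..x1, σ * VV t / ε * EE ε t) + (∫ t in x1..x2, σ * VV t / ε * EE ε t) +
      ∫ t in x2..(1/2), σ * VV t / ε * EE ε t := by
    rw [integral_add_adjacent_intervals (hint _ _) (hint _ _),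
      integral_add_adjacent_intervals (hint _ _) (hint _ _)]
  -- values of the weight
  have hE0 : EE ε 0 = 1 := by
    unfold EE; rw [BB_plateau le_rfl (by norm_num)]; simp
  have hexp4 : 16 ≤ Real.exp 4 := by
    have h1 : (2:ℝ) ≤ Real.exp 1 := by have := Real.add_one_le_exp (1:ℝ); linarith
    have h2 : Real.exp 4 = Real.exp 1 ^ 4 := by rw [← Real.exp_nat_mul]; norm_num
    rw [h2]
    calc (16:ℝ) = 2 ^ 4 := by norm_num
      _ ≤ _ := pow_le_pow_left₀ (by norm_num) h1 4
  have hE1 : 15 / 16 ≤ EE ε x1 := by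
    have h1 : BB x1 / ε = Real.exp (-4) := by
      unfold BB
      rw [hr1, P4_of_pos ha0.le, ha, hε, ← Real.exp_nat_mul, ← Real.exp_sub]
      congr 1; push_cast; ring
    have h2 : Real.exp (-4) ≤ 1 / 16 := by
      rw [Real.exp_neg, one_div]
      exact inv_anti₀ (by norm_num) hexp4
    unfold EE
    rw [neg_div, h1]
    have := Real.add_one_le_exp (-Real.exp (-4))
    linarith
  have hE2 : EE ε x2 ≤ 1 / 17 := by
    have h1 : BB x2 / ε = Real.exp 4 := by
      unfold BB
      rw [hr2, P4_of_pos hb0.le, hb, hε, ← Real.exp_nat_mul, ← Real.exp_sub]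
      congr 1; push_cast; ring
    unfold EE
    rw [neg_div, h1, Real.exp_neg, one_div]
    apply inv_anti₀ (by norm_num)
    have := Real.add_one_le_exp (Real.exp 4)
    linarith
  have hE3 := EE_pos ε (1/2)
  rw [hI, hsplit]
  rw [hE0] at A1
  linarith

/-- Along `ε → 0` the value at `1/4` of the solution oscillates. -/
theorem vv_osc {σ : ℝ} (hσ : σ = 1 ∨ σ = -1) {k : ℕ} (hk : 1 ≤ k) {L ε : ℝ}
    (hL : L = σ * (Real.pi / 2) - k * (2 * Real.pi)) (hε : ε = Real.exp (4 * L)) :
    1 / 64 ≤ σ * vv ε (1/4) := by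
  have h1 := osc hσ hk hL hε
  have hεpos : 0 < ε := by rw [hε]; exact Real.exp_pos _
  have hZ1 := ZZ_ge hεpos
  have hZ2 := ZZ_le hεpos
  have hZ : 0 < ZZ ε := by linarith
  rw [vv_quarter]
  have h2 : σ * (NN ε / ε / ZZ ε / 32) = (σ * (NN ε / ε)) / (ZZ ε * 32) := by
    field_simp
  rw [h2, le_div_iff₀ (by positivity)]
  nlinarith

theorem eps_tendsto (σ : ℝ) :
    Tendsto (fun k : ℕ => Real.exp (4 * (σ * (Real.pi / 2) - k * (2 * Real.pi)))) atTop
      (𝓝[>] 0) := by
  rw [tendsto_nhdsWithin_iff]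
  refine ⟨?_, Eventually.of_forall fun k => Real.exp_pos _⟩
  apply Real.tendsto_exp_atBot.comp
  apply Tendsto.const_mul_atBot (by norm_num)
  have h1 : Tendsto (fun k : ℕ => (k:ℝ) * (2 * Real.pi)) atTop atTop :=
    tendsto_natCast_atTop_atTop.atTop_mul_const (by have := Real.pi_pos; positivity)
  have h2 := tendsto_neg_atTop_atBot.comp h1
  have h3 := tendsto_atBot_add_const_left atTop (σ * (Real.pi / 2)) h2
  refine h3.congr fun k => ?_
  simp only [Function.comp]
  ring

theorem no_limit : ¬ ∃ ℓ : ℝ, Tendsto (fun ε => vv ε (1/4)) (𝓝[>] 0) (𝓝 ℓ) := by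
  rintro ⟨ℓ, hℓ⟩
  have h1 := hℓ.comp (eps_tendsto 1)
  have h2 := hℓ.comp (eps_tendsto (-1))
  have h3 : 1 / 64 ≤ ℓ := by
    refine ge_of_tendsto h1 ?_
    filter_upwards [eventually_ge_atTop 1] with k hk
    have := vv_osc (σ := 1) (Or.inl rfl) hk rfl rfl
    simpa using this
  have h4 : ℓ ≤ -(1 / 64) := by
    refine le_of_tendsto h2 ?_
    filter_upwards [eventually_ge_atTop 1] with k hk
    have := vv_osc (σ := -1) (Or.inr rfl) hk rfl rfl
    simp only [Function.comp]
    linarith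
  linarith

end Pool.Agent.H342R3.Cell
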