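import Mathlib
import Pool.Agent.H342R3.CellDefs

set_option autoImplicit false

open Set Filter Topology

namespace Pool.Agent.H342R3.Cell

open Pool.Agent.H342R3.CellDefs

/-- second derivative test, necessary condition, in one variable -/
theorem deriv2_nonpos {f : ℝ → ℝ} (hf : ContDiff ℝ 2 f) {x : ℝ} (h : IsLocalMax f x) :
    deriv (deriv f) x ≤ 0 := by
  by_contra hcon
  push Not at hcon
  have h1 : IsLocalMin f x :=
    isLocalMin_of_deriv_deriv_pos hcon h.deriv_eq_zero hf.continuous.continuousAt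
  have h2 : f =ᶠ[𝓝 x] fun _ => f x := by
    filter_upwards [h, h1] with y hy1 hy2
    exact le_antisymm hy1 hy2
  have h3 : deriv f =ᶠ[𝓝 x] fun _ => 0 := by
    have := h2.deriv
    filter_upwards [this] with y hy
    rw [hy]; simp
  have h4 : deriv (deriv f) x = 0 := by
    rw [h3.deriv_eq]; simp
  linarith

variable {n : ℕ}

/-- the restriction of `w` to the line through `x` in direction `e_i` -/
theorem line_deriv {w : E n → ℝ} (hw : ContDiff ℝ 2 w) (x : E n) (i : Fin n) (t : ℝ) :
    HasDerivAt (fun t : ℝ => w (x + t • EuclideanSpace.single i (1:ℝ)))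
      (fderiv ℝ w (x + t • EuclideanSpace.single i (1:ℝ)) (EuclideanSpace.single i 1)) t := by
  have h1 : HasFDerivAt w (fderiv ℝ w (x + t • EuclideanSpace.single i (1:ℝ)))
      (x + t • EuclideanSpace.single i (1:ℝ)) :=
    (hw.differentiable (by norm_num)).differentiableAt.hasFDerivAt
  have h2 : HasDerivAt (fun t : ℝ => x + t • (EuclideanSpace.single i (1:ℝ) : E n))
      ((1:ℝ) • (EuclideanSpace.single i (1:ℝ) : E n)) t :=
    ((hasDerivAt_id t).smul_const _).const_add x
  rw [one_smul] at h2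
  exact h1.comp_hasDerivAt t h2

theorem line_deriv2 {w : E n → ℝ} (hw : ContDiff ℝ 2 w) (x : E n) (i : Fin n) :
    deriv (deriv (fun t : ℝ => w (x + t • EuclideanSpace.single i (1:ℝ)))) 0 =
      fderiv ℝ (fun y => fderiv ℝ w y (EuclideanSpace.single i 1)) x
        (EuclideanSpace.single i 1) := by
  have h1 : deriv (fun t : ℝ => w (x + t • EuclideanSpace.single i (1:ℝ))) =
      fun t => fderiv ℝ w (x + t • EuclideanSpace.single i (1:ℝ)) (EuclideanSpace.single i 1) :=
    funext fun t => (line_deriv hw x i t).deriv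
  rw [h1]
  have h2 : ContDiff ℝ 1 (fun y => fderiv ℝ w y (EuclideanSpace.single i 1)) := by
    have : ContDiff ℝ 1 (fderiv ℝ w) := hw.fderiv_right (by norm_num)
    exact this.clm_apply contDiff_const
  have h3 : HasFDerivAt (fun y => fderiv ℝ w y (EuclideanSpace.single i 1))
      (fderiv ℝ (fun y => fderiv ℝ w y (EuclideanSpace.single i 1)) x) x :=
    (h2.differentiable (by norm_num)).differentiableAt.hasFDerivAt
  have h4 : HasDerivAt (fun t : ℝ => x + t • (EuclideanSpace.single i (1:ℝ) : E n))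
      ((1:ℝ) • (EuclideanSpace.single i (1:ℝ) : E n)) 0 :=
    ((hasDerivAt_id 0).smul_const _).const_add x
  rw [one_smul] at h4
  have h5 : x + (0:ℝ) • (EuclideanSpace.single i (1:ℝ) : E n) = x := by simp
  rw [← h5] at h3
  have := (h3.comp_hasDerivAt (0:ℝ) h4).deriv
  rw [h5] at this
  exact this

theorem line_contDiff {w : E n → ℝ} (hw : ContDiff ℝ 2 w) (x : E n) (i : Fin n) :
    ContDiff ℝ 2 (fun t : ℝ => w (x + t • EuclideanSpace.single i (1:ℝ))) := by
  apply hw.comp
  exact contDiff_const.add (contDiff_id.smul contDiff_const)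

theorem line_localMax {w : E n → ℝ} {x : E n} (h : IsLocalMax w x) (i : Fin n) :
    IsLocalMax (fun t : ℝ => w (x + t • EuclideanSpace.single i (1:ℝ))) 0 := by
  have hc : ContinuousAt (fun t : ℝ => x + t • (EuclideanSpace.single i (1:ℝ) : E n)) 0 := by
    fun_prop
  have h5 : x + (0:ℝ) • (EuclideanSpace.single i (1:ℝ) : E n) = x := by simp
  have h6 : Tendsto (fun t : ℝ => x + t • (EuclideanSpace.single i (1:ℝ) : E n)) (𝓝 0) (𝓝 x) := by
    have := hc.tendsto
    rwa [h5] at this
  have := h6.eventually h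
  filter_upwards [this] with t ht
  simpa using ht

/-- The Gaussian bump along a line. -/
theorem bump_line (a : ℝ) (x y : E n) (i : Fin n) :
    (fun t : ℝ => Real.exp (-(a * ‖x + t • EuclideanSpace.single i (1:ℝ) - y‖ ^ 2))) =
      fun t : ℝ => Real.exp (-(a * (‖x - y‖ ^ 2 + 2 * t * (x i - y i) + t ^ 2))) := by
  funext t
  congr 3
  have h1 : x + t • (EuclideanSpace.single i (1:ℝ) : E n) - y =
      (x - y) + t • EuclideanSpace.single i (1:ℝ) := by abel
  rw [h1, norm_add_sq_real, norm_smul, inner_smul_right, EuclideanSpace.inner_single_right]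
  simp
  ring

theorem bump_deriv (a s c t : ℝ) :
    HasDerivAt (fun t : ℝ => Real.exp (-(a * (s + 2 * t * c + t ^ 2))))
      (-(2 * a * (c + t)) * Real.exp (-(a * (s + 2 * t * c + t ^ 2)))) t := by
  have h1 : HasDerivAt (fun t : ℝ => s + 2 * t * c + t ^ 2) (2 * c + 2 * t) t := by
    have e1 : HasDerivAt (fun t : ℝ => 2 * t * c) (2 * 1 * c) t :=
      ((hasDerivAt_id t).const_mul 2).mul_const c
    have e2 := hasDerivAt_pow 2 t
    have e3 := (e1.const_add s).add e2
    exact e3.congr_deriv (by norm_num)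
  have h2 := ((h1.const_mul a).fun_neg).exp
  exact h2.congr_deriv (by ring)

theorem bump_deriv2 (a s c : ℝ) :
    deriv (deriv (fun t : ℝ => Real.exp (-(a * (s + 2 * t * c + t ^ 2))))) 0 =
      (4 * a ^ 2 * c ^ 2 - 2 * a) * Real.exp (-(a * s)) := by
  have h1 : deriv (fun t : ℝ => Real.exp (-(a * (s + 2 * t * c + t ^ 2)))) =
      fun t => (-(2 * a * (c + t)) * Real.exp (-(a * (s + 2 * t * c + t ^ 2)))) :=
    funext fun t => (bump_deriv a s c t).deriv
  rw [h1]
  have h2 : HasDerivAt (fun t : ℝ => -(2 * a * (c + t))) (-(2 * a * 1)) 0 :=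
    (((hasDerivAt_id (0:ℝ)).const_add c).const_mul (2 * a)).fun_neg
  have h3 := h2.fun_mul (bump_deriv a s c 0)
  rw [h3.deriv]
  simp
  ring

/-- Strong maximum principle. -/
theorem strong_max {w : E n → ℝ} (hw : ContDiff ℝ 2 w) {M : ℝ} (hM : ∀ x, w x ≤ M) {K : ℝ}
    (hK : 0 ≤ K) (hineq : ∀ x, -(K * ‖grad w x‖) ≤ lap w x) {z0 : E n} (hz0 : w z0 = M) :
    ∀ x, w x = M := by
  by_contra hcon
  push Not at hcon
  obtain ⟨y0, hy0⟩ := hcon
  set A : Set (E n) := {x | w x = M} with hA
  have hAc : IsClosed A := isClosed_eq hw.continuous continuous_const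
  obtain ⟨z, hzA, hz⟩ := hAc.exists_infDist_eq_dist ⟨z0, hz0⟩ y0
  have hzM : w z = M := hzA
  set ρ : ℝ := dist y0 z with hρ
  have hy0z : y0 ≠ z := fun h => hy0 (h ▸ hzM)
  have hρ0 : 0 < ρ := dist_pos.2 hy0z
  have hout : ∀ x, w x = M → ρ ≤ dist y0 x := by
    intro x hx
    rw [← hz]
    exact Metric.infDist_le_dist_of_mem hx
  -- the midpoint
  set y : E n := (1/2:ℝ) • (y0 + z) with hy
  have hyz : ‖z - y‖ = ρ / 2 := by
    have : z - y = (1/2:ℝ) • (z - y0) := by
      rw [hy, smul_add, smul_sub]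
      have : z = (1/2:ℝ) • z + (1/2:ℝ) • z := by rw [← add_smul]; norm_num
      nth_rewrite 1 [this]
      abel
    rw [this, norm_smul, ← dist_eq_norm, dist_comm, ← hρ]
    norm_num
    ring
  have hpar : ∀ x, ‖x - y0‖ ^ 2 + ‖x - z‖ ^ 2 = 2 * ‖x - y‖ ^ 2 + 2 * (ρ / 2) ^ 2 := by
    intro x
    rw [← hyz]
    have h1 : x - y0 = (x - y) + (z - y) := by
      have : y0 = (2:ℝ) • y - z := by
        rw [hy, smul_smul]; norm_num
      rw [this, two_smul]; abel
    have h2 : x - z = (x - y) - (z - y) := by abel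
    rw [h1, h2, norm_add_sq_real (x - y) (z - y), norm_sub_sq_real (x - y) (z - y)]
    ring
  -- parameters
  set r : ℝ := ρ / 4 with hr
  have hr0 : 0 < r := by positivity
  obtain ⟨a, ha0, ha⟩ : ∃ a : ℝ, 0 < a ∧ n + K * ρ < 2 * a * (ρ / 4) ^ 2 := by
    refine ⟨(n + K * ρ + 1) / (2 * (ρ / 4) ^ 2), by positivity, ?_⟩
    have : 2 * ((n + K * ρ + 1) / (2 * (ρ / 4) ^ 2)) * (ρ / 4) ^ 2 = n + K * ρ + 1 := by
      field_simp
    rw [this]; linarith
  set h : E n → ℝ := fun x => Real.exp (-(a * ‖x - y‖ ^ 2)) - Real.exp (-(a * (ρ / 2) ^ 2))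
    with hh
  have hhle : ∀ x, h x ≤ 1 := by
    intro x
    have h1 : Real.exp (-(a * ‖x - y‖ ^ 2)) ≤ 1 := Real.exp_le_one_iff.2 (by
      have : 0 ≤ a * ‖x - y‖ ^ 2 := by positivity
      linarith)
    have h2 := Real.exp_pos (-(a * (ρ / 2) ^ 2))
    simp only [hh]; linarith
  -- the compact set
  set K1 : Set (E n) := Metric.closedBall y (ρ / 2) ∩ Metric.sphere z r with hK1
  have hK1c : IsCompact K1 := (isCompact_closedBall _ _).inter_right Metric.isClosed_sphere
  have hK1lt : ∀ x ∈ K1, w x < M := by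
    intro x hx
    refine lt_of_le_of_ne (hM x) fun hxM => ?_
    have h1 : ‖x - y‖ ≤ ρ / 2 := by rw [← dist_eq_norm]; exact hx.1
    have h2 : ‖x - z‖ = r := by rw [← dist_eq_norm]; exact hx.2
    have h3 := hpar x
    have h4 := hout x hxM
    rw [dist_comm, dist_eq_norm] at h4
    have h5 : ‖x - y‖ ^ 2 ≤ (ρ / 2) ^ 2 := pow_le_pow_left₀ (norm_nonneg _) h1 2
    have h6 : ρ ^ 2 ≤ ‖x - y0‖ ^ 2 := pow_le_pow_left₀ hρ0.le h4 2
    rw [h2] at h3
    have h7 : 0 < r ^ 2 := by positivity
    have h8 : 2 * (ρ / 2) ^ 2 + 2 * (ρ / 2) ^ 2 = ρ ^ 2 := by ring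
    linarith
  obtain ⟨η, hη0, hη⟩ : ∃ η : ℝ, 0 < η ∧ ∀ x ∈ K1, w x + η < M := by
    rcases K1.eq_empty_or_nonempty with he | hne
    · exact ⟨1, one_pos, by rw [he]; simp⟩
    · obtain ⟨xm, hxm, hmax⟩ := hK1c.exists_isMaxOn hne hw.continuous.continuousOn
      refine ⟨(M - w xm) / 2, by have := hK1lt xm hxm; linarith, fun x hx => ?_⟩
      have h1 := hmax hx
      have h2 := hK1lt xm hxm
      change w x ≤ w xm at h1
      linarith
  have hhc : ContDiff ℝ 2 h := by
    simp only [hh]
    exact (Real.contDiff_exp.comp (contDiff_const.mul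
      ((contDiff_id.sub contDiff_const).norm_sq ℝ)).neg).sub contDiff_const
  set f : E n → ℝ := fun x => w x + η * h x with hf
  have hfc : ContDiff ℝ 2 f := hw.add (contDiff_const.mul hhc)
  have hfz : f z = M := by
    simp only [hf, hh]; rw [hyz, hzM]; simp
  have hfs : ∀ x ∈ Metric.sphere z r, f x < M := by
    intro x hx
    by_cases hxy : ‖x - y‖ ≤ ρ / 2
    · have h1 := hη x ⟨by rw [Metric.mem_closedBall, dist_eq_norm]; exact hxy, hx⟩
      have h2 := hhle x
      simp only [hf]
      nlinarith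
    · push Not at hxy
      have h1 : h x < 0 := by
        simp only [hh]
        have : Real.exp (-(a * ‖x - y‖ ^ 2)) < Real.exp (-(a * (ρ / 2) ^ 2)) := by
          apply Real.exp_lt_exp.2
          have : (ρ / 2) ^ 2 < ‖x - y‖ ^ 2 := pow_lt_pow_left₀ hxy (by positivity) (by norm_num)
          nlinarith
        linarith
      have h2 := hM x
      simp only [hf]
      nlinarith
  obtain ⟨xs, hxs, hxmax⟩ := (isCompact_closedBall z r).exists_isMaxOn
    ⟨z, Metric.mem_closedBall_self hr0.le⟩ hfc.continuous.continuousOn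
  have hfxs : M ≤ f xs := by
    have := hxmax (Metric.mem_closedBall_self hr0.le)
    change f z ≤ f xs at this
    rwa [hfz] at this
  have hxsin : xs ∈ Metric.ball z r := by
    rcases (Metric.mem_closedBall.1 hxs).lt_or_eq with h1 | h1
    · exact h1
    · exact absurd (hfs xs h1) (not_lt.2 hfxs)
  have hloc : IsLocalMax f xs := by
    refine IsMaxOn.isLocalMax hxmax ?_
    exact Filter.mem_of_superset (Metric.isOpen_ball.mem_nhds hxsin) Metric.ball_subset_closedBall
  set s : ℝ := ‖xs - y‖ with hs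
  have hxsz : ‖xs - z‖ < r := by rw [← dist_eq_norm]; exact hxsin
  have hs1 : ρ / 4 ≤ s := by
    have h1 : ‖z - y‖ ≤ ‖z - xs‖ + ‖xs - y‖ := by
      have : z - y = (z - xs) + (xs - y) := by abel
      rw [this]; exact norm_add_le _ _
    rw [hyz, norm_sub_rev] at h1
    linarith
  have hs2 : s ≤ ρ := by
    have h1 : ‖xs - y‖ ≤ ‖xs - z‖ + ‖z - y‖ := by
      have : xs - y = (xs - z) + (z - y) := by abel
      rw [this]; exact norm_add_le _ _
    rw [hyz] at h1
    linarith
  set e : ℝ := Real.exp (-(a * s ^ 2)) with he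
  have he0 : 0 < e := Real.exp_pos _
  -- first derivatives
  have hline : ∀ i : Fin n, (fun t : ℝ => f (xs + t • EuclideanSpace.single i (1:ℝ))) =
      fun t : ℝ => w (xs + t • EuclideanSpace.single i (1:ℝ)) +
        η * (Real.exp (-(a * (s ^ 2 + 2 * t * (xs i - y i) + t ^ 2))) -
          Real.exp (-(a * (ρ / 2) ^ 2))) := by
    intro i
    funext t
    have := congrFun (bump_line a xs y i) t
    simp only [hf, hh] at this ⊢
    rw [this]
  have hgrad : ∀ i : Fin n, fderiv ℝ w xs (EuclideanSpace.single i 1) =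
      η * (2 * a * e) * (xs i - y i) := by
    intro i
    have h1 := (line_localMax hloc i).deriv_eq_zero
    rw [hline i] at h1
    have h2 := line_deriv hw xs i 0
    have h3 := ((bump_deriv a (s ^ 2) (xs i - y i) 0).sub_const
      (Real.exp (-(a * (ρ / 2) ^ 2)))).const_mul η
    rw [(h2.fun_add h3).deriv] at h1
    have h5 : xs + (0:ℝ) • (EuclideanSpace.single i (1:ℝ) : E n) = xs := by simp
    rw [h5] at h1
    have h6 : Real.exp (-(a * (s ^ 2 + 2 * 0 * (xs i - y i) + 0 ^ 2))) = e := by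
      rw [he]; congr 2; ring
    rw [h6] at h1
    linarith
  have hgradn : ‖grad w xs‖ = η * (2 * a * e) * s := by
    have h1 : grad w xs = (η * (2 * a * e)) • (xs - y) := by
      ext i
      simp only [grad, PiLp.smul_apply, PiLp.sub_apply, smul_eq_mul]
      exact hgrad i
    rw [h1, norm_smul, Real.norm_of_nonneg (by positivity)]
  -- second derivatives
  have hsec : ∀ i : Fin n, fderiv ℝ (fun y => fderiv ℝ w y (EuclideanSpace.single i 1)) xs
        (EuclideanSpace.single i 1) ≤ -(η * ((4 * a ^ 2 * (xs i - y i) ^ 2 - 2 * a) * e)) := by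
    intro i
    have h1 := deriv2_nonpos (line_contDiff hfc xs i) (line_localMax hloc i)
    have h2 := line_deriv2 hw xs i
    have h3 : deriv (fun t : ℝ => f (xs + t • EuclideanSpace.single i (1:ℝ))) =
        fun t => deriv (fun t : ℝ => w (xs + t • EuclideanSpace.single i (1:ℝ))) t +
          η * deriv (fun t : ℝ => Real.exp (-(a * (s ^ 2 + 2 * t * (xs i - y i) + t ^ 2)))) t := by
      funext t
      rw [hline i]
      have e2 := line_deriv hw xs i t
      have e3 := ((bump_deriv a (s ^ 2) (xs i - y i) t).sub_const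
        (Real.exp (-(a * (ρ / 2) ^ 2)))).const_mul η
      rw [(e2.fun_add e3).deriv, e2.deriv, (bump_deriv a (s ^ 2) (xs i - y i) t).deriv]
    rw [h3] at h1
    have d1 : DifferentiableAt ℝ
        (deriv (fun t : ℝ => w (xs + t • EuclideanSpace.single i (1:ℝ)))) 0 := by
      have := (line_contDiff hw xs i)
      have h4 : ContDiff ℝ 1 (deriv (fun t : ℝ => w (xs + t • EuclideanSpace.single i (1:ℝ)))) := by
        have e : (2 : WithTop ℕ∞) = 1 + 1 := by norm_num
        rw [e, contDiff_succ_iff_deriv] at this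
        exact this.2.2
      exact (h4.differentiable (by norm_num)).differentiableAt
    have d2 : DifferentiableAt ℝ (deriv (fun t : ℝ =>
        Real.exp (-(a * (s ^ 2 + 2 * t * (xs i - y i) + t ^ 2))))) 0 := by
      have h5 : ContDiff ℝ 2 (fun t : ℝ =>
          Real.exp (-(a * (s ^ 2 + 2 * t * (xs i - y i) + t ^ 2)))) := by fun_prop
      have h4 : ContDiff ℝ 1 (deriv (fun t : ℝ =>
          Real.exp (-(a * (s ^ 2 + 2 * t * (xs i - y i) + t ^ 2))))) := by
        have e : (2 : WithTop ℕ∞) = 1 + 1 := by norm_num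
        rw [e, contDiff_succ_iff_deriv] at h5
        exact h5.2.2
      exact (h4.differentiable (by norm_num)).differentiableAt
    have h6 := (d1.hasDerivAt.add (d2.hasDerivAt.const_mul η)).deriv
    have h7 : deriv (fun t => deriv (fun t : ℝ => w (xs + t • EuclideanSpace.single i (1:ℝ))) t +
          η * deriv (fun t : ℝ => Real.exp (-(a * (s ^ 2 + 2 * t * (xs i - y i) + t ^ 2)))) t) 0 =
        deriv (deriv (fun t : ℝ => w (xs + t • EuclideanSpace.single i (1:ℝ)))) 0 +
        η * deriv (deriv (fun t : ℝ =>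
          Real.exp (-(a * (s ^ 2 + 2 * t * (xs i - y i) + t ^ 2))))) 0 := h6
    rw [h7, h2, bump_deriv2] at h1
    rw [he]
    linarith
  have hlap : lap w xs ≤ -(η * ((4 * a ^ 2 * s ^ 2 - 2 * a * n) * e)) := by
    unfold lap
    refine (Finset.sum_le_sum fun i _ => hsec i).trans (le_of_eq ?_)
    have h1 : ∑ i : Fin n, (xs i - y i) ^ 2 = s ^ 2 := by
      rw [hs, EuclideanSpace.real_norm_sq_eq]
      simp
    rw [Finset.sum_neg_distrib, ← Finset.mul_sum, ← Finset.sum_mul, Finset.sum_sub_distrib,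
      ← Finset.mul_sum, h1]
    simp only [Finset.sum_const, Finset.card_univ, Fintype.card_fin, nsmul_eq_mul]
    ring
  have h1 := hineq xs
  rw [hgradn] at h1
  have h2 : 0 < 2 * a * η * e := by positivity
  have h3 : (2 * a * η * e) * (2 * a * s ^ 2 - n - K * s) ≤ 0 := by nlinarith
  have h4 : 2 * a * s ^ 2 - n - K * s ≤ 0 := by
    by_contra h5
    push Not at h5
    have := mul_pos h2 h5
    linarith
  have h5 : (ρ / 4) ^ 2 ≤ s ^ 2 := pow_le_pow_left₀ (by positivity) hs1 2
  have h6 : K * s ≤ K * ρ := mul_le_mul_of_nonneg_left hs2 hK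
  have h7 : 2 * a * (ρ / 4) ^ 2 ≤ 2 * a * s ^ 2 := mul_le_mul_of_nonneg_left h5 (by positivity)
  linarith

end Pool.Agent.H342R3.Cell
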