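import Mathlib
import Pool.Agent.H342R3.Visc4

set_option autoImplicit false

open Set Filter Topology

namespace Pool.Agent.H342R3.Cell

open Pool.Agent.H342R3.CellDefs

variable {n : ℕ}

/-- every point has a translate by an integer vector in a fixed compact ball -/
theorem exists_translate (x : E n) : ∃ k : Fin n → ℤ,
    (x + WithLp.toLp 2 fun i => (k i : ℝ)) ∈ Metric.closedBall (0 : E n) (√n) := by
  refine ⟨fun i => -⌊x i⌋, ?_⟩
  rw [mem_closedBall_zero_iff]
  apply Real.le_sqrt_of_sq_le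
  rw [EuclideanSpace.real_norm_sq_eq]
  have : ∀ i : Fin n, ((x + WithLp.toLp 2 fun i => ((-⌊x i⌋ : ℤ) : ℝ)) i) ^ 2 ≤ 1 := by
    intro i
    have h1 : (x + WithLp.toLp 2 fun i => ((-⌊x i⌋ : ℤ) : ℝ)) i = Int.fract (x i) := by
      simp only [PiLp.add_apply, Int.cast_neg]
      rw [← Int.self_sub_floor]; ring
    rw [h1]
    have h2 := Int.fract_nonneg (x i)
    have h3 := (Int.fract_lt_one (x i)).le
    nlinarith
  calc _ ≤ ∑ _i : Fin n, (1:ℝ) := Finset.sum_le_sum fun i _ => this i
    _ = n := by simp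

theorem periodic_max {v : E n → ℝ} (hc : Continuous v) (hp : IsPeriodic v) :
    ∃ z, ∀ x, v x ≤ v z := by
  obtain ⟨z, -, hz⟩ := (isCompact_closedBall (0 : E n) (√n)).exists_isMaxOn
    ⟨0, Metric.mem_closedBall_self (Real.sqrt_nonneg _)⟩ hc.continuousOn
  refine ⟨z, fun x => ?_⟩
  obtain ⟨k, hk⟩ := exists_translate x
  rw [← hp x k]
  exact hz hk

theorem differentiable_of {v : E n → ℝ} (hv : ContDiff ℝ 2 v) : Differentiable ℝ v :=
  hv.differentiable (by norm_num)

theorem partial_contDiff {v : E n → ℝ} (hv : ContDiff ℝ 2 v) (i : Fin n) :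
    ContDiff ℝ 1 (fun y => fderiv ℝ v y (EuclideanSpace.single i 1)) := by
  have : ContDiff ℝ 1 (fderiv ℝ v) := hv.fderiv_right (by norm_num)
  exact this.clm_apply contDiff_const

theorem grad_sub {v w : E n → ℝ} (hv : ContDiff ℝ 2 v) (hw : ContDiff ℝ 2 w) (x : E n) :
    grad (fun y => v y - w y) x = grad v x - grad w x := by
  ext i
  simp only [grad, PiLp.sub_apply]
  rw [fderiv_fun_sub (differentiable_of hv x) (differentiable_of hw x)]
  rfl

theorem lap_sub {v w : E n → ℝ} (hv : ContDiff ℝ 2 v) (hw : ContDiff ℝ 2 w) (x : E n) :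
    lap (fun y => v y - w y) x = lap v x - lap w x := by
  unfold lap
  rw [← Finset.sum_sub_distrib]
  refine Finset.sum_congr rfl fun i _ => ?_
  have h1 : (fun y => fderiv ℝ (fun y => v y - w y) y (EuclideanSpace.single i 1)) =
      fun y => fderiv ℝ v y (EuclideanSpace.single i 1) -
        fderiv ℝ w y (EuclideanSpace.single i 1) := by
    funext y
    rw [fderiv_fun_sub (differentiable_of hv y) (differentiable_of hw y)]
    rfl
  rw [h1, fderiv_fun_sub
    (((partial_contDiff hv i).differentiable (by norm_num)) x)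
    (((partial_contDiff hw i).differentiable (by norm_num)) x)]
  rfl

theorem grad_zero_of_localMax {v : E n → ℝ} {x : E n} (h : IsLocalMax v x) : grad v x = 0 := by
  ext i
  simp only [grad, PiLp.zero_apply]
  rw [h.fderiv_eq_zero]
  rfl

theorem lap_nonpos_of_localMax {v : E n → ℝ} (hv : ContDiff ℝ 2 v) {x : E n}
    (h : IsLocalMax v x) : lap v x ≤ 0 := by
  unfold lap
  apply Finset.sum_nonpos
  intro i _
  rw [← line_deriv2 hv x i]
  exact deriv2_nonpos (line_contDiff hv x i) (line_localMax h i)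

theorem grad_continuous {v : E n → ℝ} (hv : ContDiff ℝ 2 v) : Continuous (grad v) := by
  unfold grad
  refine (PiLp.continuous_toLp 2 _).comp ?_
  exact continuous_pi fun i => (partial_contDiff hv i).continuous

theorem grad_periodic {v : E n → ℝ} (hp : IsPeriodic v) (x : E n) (k : Fin n → ℤ) :
    grad v (x + WithLp.toLp 2 fun i => (k i : ℝ)) = grad v x := by
  unfold grad
  congr 1
  funext i
  have h1 : (fun y => v (y + WithLp.toLp 2 fun i => (k i : ℝ))) = v := funext fun y => hp y k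
  have h2 := fderiv_comp_add_right (𝕜 := ℝ) (f := v) (x := x)
    (WithLp.toLp 2 fun i => (k i : ℝ) : E n)
  rw [h1] at h2
  rw [h2]

theorem periodic_sub {v w : E n → ℝ} (hv : IsPeriodic v) (hw : IsPeriodic w) :
    IsPeriodic (fun y => v y - w y) := by
  intro x k; simp only; rw [hv x k, hw x k]

theorem const_le {H : E n → E n → ℝ} {ε : ℝ} (hε : 0 < ε) {c1 c2 : ℝ} {v1 v2 : E n → ℝ}
    (h1 : IsViscousSolution H ε c1 v1) (h2 : IsViscousSolution H ε c2 v2) : c2 ≤ c1 := by
  obtain ⟨hc1, hp1, he1⟩ := h1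
  obtain ⟨hc2, hp2, he2⟩ := h2
  have hw : ContDiff ℝ 2 (fun y => v1 y - v2 y) := hc1.sub hc2
  obtain ⟨z, hz⟩ := periodic_max hw.continuous (periodic_sub hp1 hp2)
  have hloc : IsLocalMax (fun y => v1 y - v2 y) z := Eventually.of_forall hz
  have e1 := grad_zero_of_localMax hloc
  have e2 := lap_nonpos_of_localMax hw hloc
  rw [grad_sub hc1 hc2] at e1
  rw [lap_sub hc1 hc2] at e2
  have e3 : grad v1 z = grad v2 z := sub_eq_zero.1 e1
  have e4 := he1 z
  have e5 := he2 z
  rw [e3] at e4
  rw [e4] at e5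
  nlinarith

theorem viscous_unique {H : E n → E n → ℝ} (hH : IsHamiltonian H) {ε : ℝ} (hε : 0 < ε)
    {c1 c2 : ℝ} {v1 v2 : E n → ℝ}
    (h1 : IsViscousSolution H ε c1 v1) (h2 : IsViscousSolution H ε c2 v2) :
    c1 = c2 ∧ ∀ x, v1 x - v2 x = v1 0 - v2 0 := by
  have hcc : c1 = c2 := le_antisymm (const_le hε h2 h1) (const_le hε h1 h2)
  refine ⟨hcc, ?_⟩
  obtain ⟨hc1, hp1, he1⟩ := h1
  obtain ⟨hc2, hp2, he2⟩ := h2
  -- bound of the gradients
  obtain ⟨z1, hz1⟩ := periodic_max (n := n) (v := fun x => ‖grad v1 x‖)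
    (grad_continuous hc1).norm (fun x k => by simp only; rw [grad_periodic hp1])
  obtain ⟨z2, hz2⟩ := periodic_max (n := n) (v := fun x => ‖grad v2 x‖)
    (grad_continuous hc2).norm (fun x k => by simp only; rw [grad_periodic hp2])
  set R : ℝ := max ‖grad v1 z1‖ ‖grad v2 z2‖ with hR
  set S : Set (E n × E n) := Metric.closedBall 0 (√n) ×ˢ Metric.closedBall 0 R with hS
  have hSc : IsCompact S := (isCompact_closedBall _ _).prod (isCompact_closedBall _ _)
  have hSconv : Convex ℝ S := (convex_closedBall _ _).prod (convex_closedBall _ _)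
  have hfd : Continuous (fderiv ℝ (fun q : E n × E n => H q.1 q.2)) :=
    hH.smooth.continuous_fderiv (by norm_num)
  obtain ⟨K, hK⟩ := hSc.exists_bound_of_continuousOn hfd.continuousOn
  have hK0 : 0 ≤ max K 0 := le_max_right _ _
  have hLip : ∀ x : E n, |H x (grad v1 x) - H x (grad v2 x)| ≤
      max K 0 * ‖grad v1 x - grad v2 x‖ := by
    intro x
    obtain ⟨k, hk⟩ := exists_translate x
    set x' : E n := x + WithLp.toLp 2 fun i => (k i : ℝ) with hx'
    have e1 : H x (grad v1 x) = H x' (grad v1 x) := (hH.periodic (grad v1 x) x k).symm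
    have e2 : H x (grad v2 x) = H x' (grad v2 x) := (hH.periodic (grad v2 x) x k).symm
    rw [e1, e2]
    have m1 : (x', grad v1 x) ∈ S := ⟨hk, by
      rw [mem_closedBall_zero_iff]; exact (hz1 x).trans (le_max_left _ _)⟩
    have m2 : (x', grad v2 x) ∈ S := ⟨hk, by
      rw [mem_closedBall_zero_iff]; exact (hz2 x).trans (le_max_right _ _)⟩
    have := hSconv.norm_image_sub_le_of_norm_fderiv_le (𝕜 := ℝ)
      (f := fun q : E n × E n => H q.1 q.2) (C := max K 0)
      (fun q _ => (hH.smooth.differentiable (by norm_num)) q)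
      (fun q hq => (hK q hq).trans (le_max_left _ _)) m2 m1
    simp only [Real.norm_eq_abs, Prod.mk_sub_mk, sub_self] at this
    refine this.trans (le_of_eq ?_)
    congr 1
    simp [Prod.norm_def]
  have hw : ContDiff ℝ 2 (fun y => v1 y - v2 y) := hc1.sub hc2
  obtain ⟨z, hz⟩ := periodic_max hw.continuous (periodic_sub hp1 hp2)
  have hstrong := strong_max hw (M := v1 z - v2 z) hz (K := max K 0 / ε) (by positivity) (by
    intro x
    rw [grad_sub hc1 hc2, lap_sub hc1 hc2]
    have e1 := he1 x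
    have e2 := he2 x
    have e3 := (abs_le.1 (hLip x)).1
    rw [e1, e2, hcc] at e3
    have e4 : -(max K 0 * ‖grad v1 x - grad v2 x‖) ≤ ε * (lap v1 x - lap v2 x) := by linarith
    have e5 : -(max K 0 / ε * ‖grad v1 x - grad v2 x‖) =
      (-(max K 0 * ‖grad v1 x - grad v2 x‖)) / ε := by ring
    rw [e5, div_le_iff₀ hε]
    linarith) (z0 := z) rfl
  intro x
  have a1 := hstrong x
  have a2 := hstrong 0
  rw [a1, a2]

end Pool.Agent.H342R3.Cell
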