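import Mathlib
import Pool.Agent.H342R3.Visc3
import Pool.Agent.H342R3.Visc5

set_option autoImplicit false

open Set Filter Topology

namespace Pool.Agent.H342R3.Cell

open Pool.Agent.H342R3.CellDefs

variable {n : ℕ}

/-- derivative of a function of one coordinate -/
theorem coord_hasFDerivAt {f : ℝ → ℝ} {f' : ℝ} (j : Fin n) (x : E n)
    (hf : HasDerivAt f f' (x j)) :
    HasFDerivAt (fun y : E n => f (y j)) (f' • (EuclideanSpace.proj j : E n →L[ℝ] ℝ)) x := by
  have h1 : HasFDerivAt (fun y : E n => y j) (EuclideanSpace.proj j : E n →L[ℝ] ℝ) x :=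
    (EuclideanSpace.proj j : E n →L[ℝ] ℝ).hasFDerivAt
  exact hf.comp_hasFDerivAt x h1

theorem coord_fderiv {f : ℝ → ℝ} {f' : ℝ} (j : Fin n) (x : E n)
    (hf : HasDerivAt f f' (x j)) (w : E n) :
    fderiv ℝ (fun y : E n => f (y j)) x w = f' * w j := by
  rw [(coord_hasFDerivAt j x hf).fderiv]
  simp

theorem coord_grad {f : ℝ → ℝ} {f' : ℝ} (j : Fin n) (x : E n)
    (hf : HasDerivAt f f' (x j)) :
    grad (fun y : E n => f (y j)) x = f' • EuclideanSpace.single j (1:ℝ) := by
  ext i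
  simp only [grad]
  rw [coord_fderiv j x hf]
  simp only [PiLp.smul_apply, smul_eq_mul, PiLp.single_apply, eq_comm]

theorem coord_lap {f f' : ℝ → ℝ} {f'' : ℝ} (j : Fin n) (x : E n)
    (hf : ∀ t, HasDerivAt f (f' t) t) (hf' : HasDerivAt f' f'' (x j)) :
    lap (fun y : E n => f (y j)) x = f'' := by
  unfold lap
  have h1 : ∀ i : Fin n, (fun y : E n => fderiv ℝ (fun y : E n => f (y j)) y
      (EuclideanSpace.single i 1)) = fun y => f' (y j) * (EuclideanSpace.single i (1:ℝ) : E n) j :=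
    fun i => funext fun y => coord_fderiv j y (hf (y j)) _
  simp only [h1]
  have h2 : ∀ i : Fin n, fderiv ℝ (fun y : E n => f' (y j) *
      (EuclideanSpace.single i (1:ℝ) : E n) j) x (EuclideanSpace.single i 1) =
      f'' * (EuclideanSpace.single i (1:ℝ) : E n) j * (EuclideanSpace.single i (1:ℝ) : E n) j := by
    intro i
    have := ((coord_hasFDerivAt j x hf').mul_const ((EuclideanSpace.single i (1:ℝ) : E n) j)).fderiv
    rw [this]
    show (EuclideanSpace.single i (1:ℝ) : E n) j •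
      (f'' • (EuclideanSpace.single i (1:ℝ) : E n) j) = _
    rw [smul_eq_mul, smul_eq_mul]
    ring
  simp only [h2]
  rw [Finset.sum_eq_single j]
  · simp
  · intro i _ hij
    simp [hij.symm]
  · simp

/-- The Hamiltonian. -/
noncomputable def HH (j : Fin n) (x p : E n) : ℝ :=
  bb (x j) * p j - VV (x j) + P 3 0 0 1 (‖p‖ ^ 2 - 9)

theorem HH_hamiltonian (j : Fin n) : IsHamiltonian (HH (n := n) j) where
  smooth := by
    unfold HH
    have c1 : ContDiff ℝ 2 (fun q : E n × E n => q.1 j) :=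
      (EuclideanSpace.proj j : E n →L[ℝ] ℝ).contDiff.comp contDiff_fst
    have c2 : ContDiff ℝ 2 (fun q : E n × E n => q.2 j) :=
      (EuclideanSpace.proj j : E n →L[ℝ] ℝ).contDiff.comp contDiff_snd
    have c3 : ContDiff ℝ 2 (fun q : E n × E n => ‖q.2‖ ^ 2 - 9) :=
      (contDiff_snd.norm_sq ℝ).sub contDiff_const
    exact (((bb_contDiff.comp c1).mul c2).sub (VV_contDiff.comp c1)).add
      ((P_contDiff 0 0 1).comp c3)
  periodic := by
    intro p x k
    unfold HH
    have h1 : (x + WithLp.toLp 2 fun i => (k i : ℝ)) j = x j + (k j : ℝ) * 1 := by simp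
    simp only
    rw [h1, (bb_periodic.int_mul (k j)) (x j), (VV_periodic.int_mul (k j)) (x j)]

theorem HH_convex (j : Fin n) (x : E n) : ConvexOn ℝ univ (HH j x) := by
  unfold HH
  have h1 : ConvexOn ℝ univ (fun p : E n => bb (x j) * p j - VV (x j)) := by
    refine ⟨convex_univ, fun p _ q _ a b _ _ hab => le_of_eq ?_⟩
    simp only [PiLp.add_apply, PiLp.smul_apply, smul_eq_mul]
    have : b = 1 - a := by linarith
    rw [this]; ring
  have h2 : ConvexOn ℝ univ (fun p : E n => ‖p‖ ^ 2 - 9) := by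
    have := (convexOn_norm (convex_univ (𝕜 := ℝ) (E := E n))).pow
      (fun p _ => norm_nonneg p) 2
    have h3 := this.add (convexOn_const (-9) convex_univ)
    refine h3.congr fun p _ => ?_
    simp [sub_eq_add_neg]
  have h3 : ConvexOn ℝ univ (fun p : E n => max (‖p‖ ^ 2 - 9) 0) :=
    h2.sup (convexOn_const 0 convex_univ)
  have h4 := h3.pow (fun p _ => le_max_right _ _) 3
  have h5 : ConvexOn ℝ univ (fun p : E n => P 3 0 0 1 (‖p‖ ^ 2 - 9)) := by
    have : (fun p : E n => P 3 0 0 1 (‖p‖ ^ 2 - 9)) =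
        (fun p : E n => max (‖p‖ ^ 2 - 9) 0) ^ 3 := by
      funext p
      simp [P]
    rw [this]; exact h4
  exact h1.add h5

theorem deriv_periodic {f : ℝ → ℝ} (hf : Function.Periodic f 1) :
    Function.Periodic (deriv f) 1 := by
  intro x
  have h1 : (fun y => f (y + 1)) = f := funext hf
  have := deriv_comp_add_const f 1 x
  rw [h1] at this
  exact this.symm

theorem exists_bound {f : ℝ → ℝ} (hf : Function.Periodic f 1) (hc : Continuous f) :
    ∃ K : ℝ, ∀ x, |f x| ≤ K := by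
  obtain ⟨K, hK⟩ := (hf.isBounded_of_continuous one_ne_zero hc).exists_norm_le
  exact ⟨K, fun x => hK (f x) ⟨x, rfl⟩⟩

theorem HH_A1 (j : Fin n) : A1 (HH (n := n) j) := by
  have hbd : ContDiff ℝ 1 (deriv bb) := by
    have e : (2 : WithTop ℕ∞) = 1 + 1 := by norm_num
    have := bb_contDiff
    rw [e, contDiff_succ_iff_deriv] at this
    exact this.2.2
  have hVd : ContDiff ℝ 1 (deriv VV) := by
    have e : (2 : WithTop ℕ∞) = 1 + 1 := by norm_num
    have := VV_contDiff
    rw [e, contDiff_succ_iff_deriv] at this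
    exact this.2.2
  obtain ⟨K1, hK1⟩ := exists_bound bb_periodic bb_contDiff.continuous
  obtain ⟨K2, hK2⟩ := exists_bound VV_periodic VV_contDiff.continuous
  obtain ⟨K3, hK3⟩ := exists_bound (deriv_periodic bb_periodic) hbd.continuous
  obtain ⟨K4, hK4⟩ := exists_bound (deriv_periodic VV_periodic) hVd.continuous
  have hK1n : 0 ≤ K1 := (abs_nonneg _).trans (hK1 0)
  have hK2n : 0 ≤ K2 := (abs_nonneg _).trans (hK2 0)
  have hK3n : 0 ≤ K3 := (abs_nonneg _).trans (hK3 0)
  have hK4n : 0 ≤ K4 := (abs_nonneg _).trans (hK4 0)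
  intro M
  refine ⟨max (max 6 (K1 + K2)) (max (K3 + K4) (max M 0)), fun p hp x => ?_⟩
  set s : ℝ := ‖p‖ with hs
  have hs6 : 6 ≤ s := (le_max_left _ _).trans ((le_max_left _ _).trans hp)
  have hs12 : K1 + K2 ≤ s := (le_max_right _ _).trans ((le_max_left _ _).trans hp)
  have hs34 : K3 + K4 ≤ s := (le_max_left _ _).trans ((le_max_right _ _).trans hp)
  have hsM : M ≤ s :=
    (le_max_left _ _).trans ((le_max_right _ _).trans ((le_max_right _ _).trans hp))
  have hpj : |p j| ≤ s := by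
    have := PiLp.norm_apply_le p j
    simpa using this
  -- the derivative in `x`
  have hbD : HasDerivAt bb (deriv bb (x j)) (x j) :=
    ((bb_contDiff.differentiable (by norm_num)) (x j)).hasDerivAt
  have hVD : HasDerivAt VV (deriv VV (x j)) (x j) :=
    ((VV_contDiff.differentiable (by norm_num)) (x j)).hasDerivAt
  have hg : grad (fun y => HH j y p) x =
      (deriv bb (x j) * p j - deriv VV (x j)) • EuclideanSpace.single j (1:ℝ) := by
    have := coord_grad j x (((hbD.mul_const (p j)).fun_sub hVD).add_const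
      (P 3 0 0 1 (‖p‖ ^ 2 - 9)))
    exact this
  have hin : inner ℝ (grad (fun y => HH j y p) x) p =
      (deriv bb (x j) * p j - deriv VV (x j)) * p j := by
    rw [hg, inner_smul_left, EuclideanSpace.inner_single_left]
    simp
  rw [hin]
  have b1 : |bb (x j) * p j| ≤ K1 * s := by
    rw [abs_mul]; exact mul_le_mul (hK1 _) hpj (abs_nonneg _) hK1n
  have b3 : |deriv bb (x j) * p j| ≤ K3 * s := by
    rw [abs_mul]; exact mul_le_mul (hK3 _) hpj (abs_nonneg _) hK3n
  have b4 : |(deriv bb (x j) * p j - deriv VV (x j)) * p j| ≤ (K3 * s + K4) * s := by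
    rw [abs_mul]
    refine mul_le_mul ((abs_sub _ _).trans (add_le_add b3 (hK4 _))) hpj (abs_nonneg _)
      (by positivity)
  have b5 : (K3 * s + K4) * s ≤ s ^ 3 := by
    have : K3 * s + K4 ≤ s * s := by nlinarith
    calc (K3 * s + K4) * s ≤ (s * s) * s := mul_le_mul_of_nonneg_right this (by linarith)
      _ = s ^ 3 := by ring
  have hP : s ^ 3 ≤ P 3 0 0 1 (‖p‖ ^ 2 - 9) := by
    unfold P
    have h1 : s ≤ ‖p‖ ^ 2 - 9 := by rw [← hs]; nlinarith
    have h2 : s ≤ max (‖p‖ ^ 2 - 9) 0 := h1.trans (le_max_left _ _)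
    have h3 := pow_le_pow_left₀ (by linarith : 0 ≤ s) h2 3
    linarith
  have hH : s ^ 3 - s ^ 2 ≤ HH j x p := by
    unfold HH
    have h1 := (abs_le.1 b1).1
    have h2 := (abs_le.1 (hK2 (x j))).2
    have h3 : K1 * s + K2 ≤ s ^ 2 := by nlinarith
    linarith
  have hs2 : s ^ 3 - s ^ 2 = s ^ 2 * (s - 1) := by ring
  have hH2 : s ^ 2 * 5 ≤ HH j x p := by
    have : s ^ 2 * 5 ≤ s ^ 2 * (s - 1) := by
      apply mul_le_mul_of_nonneg_left (by linarith) (by positivity)
    linarith
  have hH3 : (s ^ 2 * 5) ^ 2 ≤ HH j x p ^ 2 := pow_le_pow_left₀ (by positivity) hH2 2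
  have h6 := (abs_le.1 b4).1
  have h7 : (s ^ 2 * 5) ^ 2 = 25 * s ^ 4 := by ring
  have h8 : s ^ 3 ≤ s ^ 4 := by
    have : s ^ 4 = s ^ 3 * s := by ring
    rw [this]
    exact le_mul_of_one_le_right (by positivity) (by linarith)
  have h9 : s ≤ s ^ 4 := by
    have h10 : 1 ≤ s ^ 3 := one_le_pow₀ (by linarith)
    have : s ^ 4 = s ^ 3 * s := by ring
    rw [this]
    exact le_mul_of_one_le_left (by linarith) h10
  rw [h7] at hH3
  linarith

theorem sol (j : Fin n) {ε : ℝ} (hε : 0 < ε) :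
    IsViscousSolution (HH (n := n) j) ε (cc ε) (fun x => vv ε (x j)) := by
  refine ⟨?_, ?_, ?_⟩
  · exact (vv_contDiff hε.ne').comp (EuclideanSpace.proj j : E n →L[ℝ] ℝ).contDiff
  · intro x k
    have h1 : (x + WithLp.toLp 2 fun i => (k i : ℝ)) j = x j + (k j : ℝ) * 1 := by simp
    simp only
    rw [h1, ((vv_periodic hε).int_mul (k j)) (x j)]
  · intro x
    rw [coord_grad j x (vv_hasDerivAt hε.ne' (x j)),
      coord_lap j x (fun t => vv_hasDerivAt hε.ne' t) (pp_hasDerivAt hε.ne' (x j))]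
    unfold HH
    have h1 : ‖pp ε (x j) • (EuclideanSpace.single j (1:ℝ) : E n)‖ ^ 2 = pp ε (x j) ^ 2 := by
      rw [norm_smul]; simp
    have h2 : pp ε (x j) ^ 2 - 9 ≤ 0 := by
      have h3 := abs_le.1 (pp_bound hε (x j))
      nlinarith [h3.1, h3.2]
    have h4 : (pp ε (x j) • (EuclideanSpace.single j (1:ℝ) : E n)) j = pp ε (x j) := by simp
    rw [h1, P_of_neg 3 (by norm_num) _ _ _ h2, h4]
    field_simp
    ring

theorem vv_zero (ε : ℝ) : vv ε 0 = 0 := by unfold vv; simp

end Pool.Agent.H342R3.Cell
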